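import Mathlib
set_option autoImplicit false

/-! The free alternative superalgebra, the Grassmann extension of a superalgebra, verbal subsuperalgebras. -/

namespace Pool.Agent.N33.SA

/-- the sign of a parity -/
def sg (b : Bool) : ℤ := cond b (-1) 1

@[simp] lemma sg_false : sg false = 1 := rfl
@[simp] lemma sg_true : sg true = -1 := rfl

lemma sg_mul_self (b : Bool) : sg b * sg b = 1 := by cases b <;> rfl

/-- associator -/
def as {B : Type} [NonUnitalNonAssocRing B] (u v w : B) : B := (u * v) * w - u * (v * w)


/-! ### The free alternative superalgebra -/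

section
variable (F : Type) [Field F] (A X : Type)

/-- the free nonassociative algebra on the disjoint union of `A` and `X` -/
abbrev FN : Type := FreeNonUnitalNonAssocAlgebra F (A ⊕ X)

/-- the parity automorphism of the free nonassociative algebra: it fixes the generators in `A` and multiplies the
generators in `X` by `-1` -/
noncomputable def gam0 : FN F A X →ₙₐ[F] FN F A X :=
  FreeNonUnitalNonAssocAlgebra.lift F
    (Sum.elim (fun a => FreeNonUnitalNonAssocAlgebra.of F (Sum.inl a))
      (fun x => - FreeNonUnitalNonAssocAlgebra.of F (Sum.inr x)))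

/-- The smallest two-sided ideal (an `F`-subspace absorbing left and right multiplications) containing all elements
`(u,v,w) + (-1)^(|u||v|) (v,u,w)` and `(u,v,w) + (-1)^(|v||w|) (u,w,v)` for homogeneous `u, v, w` of parities
`p, q, r` (an element `u` is homogeneous of parity `p` if the parity automorphism multiplies it by `(-1)^p`). -/
noncomputable def supIdeal : Submodule F (FN F A X) :=
  sInf {S | (∀ a t : FN F A X, t ∈ S → a * t ∈ S ∧ t * a ∈ S) ∧
    ∀ (p q r : Bool) (u v w : FN F A X), gam0 F A X u = sg p • u → gam0 F A X v = sg q • v →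
      gam0 F A X w = sg r • w →
      as u v w + sg (p && q) • as v u w ∈ S ∧ as u v w + sg (q && r) • as u w v ∈ S}

variable {F A X}

lemma supIdeal_mul (a : FN F A X) {t : FN F A X} (ht : t ∈ supIdeal F A X) :
    a * t ∈ supIdeal F A X ∧ t * a ∈ supIdeal F A X := by
  unfold supIdeal at *
  simp only [Submodule.mem_sInf] at *
  exact ⟨fun S hS => (hS.1 a t (ht S hS)).1, fun S hS => (hS.1 a t (ht S hS)).2⟩

lemma supIdeal_alt (p q r : Bool) (u v w : FN F A X) (hu : gam0 F A X u = sg p • u) (hv : gam0 F A X v = sg q • v)
    (hw : gam0 F A X w = sg r • w) : as u v w + sg (p && q) • as v u w ∈ supIdeal F A X ∧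
      as u v w + sg (q && r) • as u w v ∈ supIdeal F A X := by
  unfold supIdeal
  simp only [Submodule.mem_sInf]
  exact ⟨fun S hS => (hS.2 p q r u v w hu hv hw).1, fun S hS => (hS.2 p q r u v w hu hv hw).2⟩

lemma gam0_inl (a : A) : gam0 F A X (FreeNonUnitalNonAssocAlgebra.of F (Sum.inl a)) =
    FreeNonUnitalNonAssocAlgebra.of F (Sum.inl a) := by
  unfold gam0
  rw [FreeNonUnitalNonAssocAlgebra.lift_of_apply]; rfl

lemma gam0_inr (x : X) : gam0 F A X (FreeNonUnitalNonAssocAlgebra.of F (Sum.inr x)) =
    - FreeNonUnitalNonAssocAlgebra.of F (Sum.inr x) := by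
  unfold gam0
  rw [FreeNonUnitalNonAssocAlgebra.lift_of_apply]; rfl

lemma gam0_gam0 (u : FN F A X) : gam0 F A X (gam0 F A X u) = u := by
  have h : (gam0 F A X).comp (gam0 F A X) = NonUnitalAlgHom.id F (FN F A X) := by
    apply FreeNonUnitalNonAssocAlgebra.hom_ext
    intro s
    rcases s with a | x
    · show gam0 F A X (gam0 F A X _) = _
      rw [gam0_inl, gam0_inl]; rfl
    · show gam0 F A X (gam0 F A X _) = _
      rw [gam0_inr, map_neg, gam0_inr, neg_neg]; rfl
  exact DFunLike.congr_fun h u

lemma gam0_as (u v w : FN F A X) : gam0 F A X (as u v w) = as (gam0 F A X u) (gam0 F A X v) (gam0 F A X w) := by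
  simp only [as, map_sub, map_mul]

lemma gam0_ideal {t : FN F A X} (ht : t ∈ supIdeal F A X) : gam0 F A X t ∈ supIdeal F A X := by
  have h0 : ∀ S ∈ {S : Submodule F (FN F A X) | (∀ a t : FN F A X, t ∈ S → a * t ∈ S ∧ t * a ∈ S) ∧
    ∀ (p q r : Bool) (u v w : FN F A X), gam0 F A X u = sg p • u → gam0 F A X v = sg q • v →
      gam0 F A X w = sg r • w →
      as u v w + sg (p && q) • as v u w ∈ S ∧ as u v w + sg (q && r) • as u w v ∈ S}, gam0 F A X t ∈ S := by
    intro S hS
    have h1 : t ∈ S.comap (gam0 F A X : FN F A X →ₗ[F] FN F A X) := by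
      refine (Submodule.mem_sInf.mp ht) _ ⟨fun a t ht => ?_, fun p q r u v w hu hv hw => ?_⟩
      · have ht' : gam0 F A X t ∈ S := ht
        constructor
        · show gam0 F A X (a * t) ∈ S
          rw [map_mul]
          exact (hS.1 _ _ ht').1
        · show gam0 F A X (t * a) ∈ S
          rw [map_mul]
          exact (hS.1 _ _ ht').2
      · have e : ∀ (p : Bool) (u : FN F A X), gam0 F A X u = sg p • u →
            gam0 F A X (gam0 F A X u) = sg p • gam0 F A X u := by
          intro p u hu
          conv_lhs => rw [hu]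
          rw [map_zsmul]
        have h2 := hS.2 p q r _ _ _ (e p u hu) (e q v hv) (e r w hw)
        constructor
        · show gam0 F A X _ ∈ S
          rw [map_add, map_zsmul, gam0_as, gam0_as]
          exact h2.1
        · show gam0 F A X _ ∈ S
          rw [map_add, map_zsmul, gam0_as, gam0_as]
          exact h2.2
    exact h1
  exact Submodule.mem_sInf.mpr h0

end

/-- The free alternative superalgebra over `F` on the set `A` of even and the set `X` of odd generators. -/
def SAlt (F : Type) [Field F] (A X : Type) : Type := FN F A X ⧸ supIdeal F A X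

namespace SAlt
variable {F : Type} [Field F] {A X : Type}

noncomputable instance : AddCommGroup (SAlt F A X) := Submodule.Quotient.addCommGroup (supIdeal F A X)
noncomputable instance : Module F (SAlt F A X) := Submodule.Quotient.module (supIdeal F A X)

/-- the class of an element of the free nonassociative algebra -/
noncomputable def mk : FN F A X →ₗ[F] SAlt F A X := (supIdeal F A X).mkQ

lemma mk_surj : Function.Surjective (mk : FN F A X →ₗ[F] SAlt F A X) := Submodule.mkQ_surjective _

lemma mk_eq {a b : FN F A X} : mk a = mk b ↔ a - b ∈ supIdeal F A X := Submodule.Quotient.eq _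

lemma mk_zero {a : FN F A X} : mk a = 0 ↔ a ∈ supIdeal F A X := Submodule.Quotient.mk_eq_zero _

noncomputable instance : Mul (SAlt F A X) :=
  ⟨Quotient.map₂ (fun a b : FN F A X => a * b) (by
    intro a a' ha b b' hb
    have h1 : a - a' ∈ supIdeal F A X := (Submodule.quotientRel_def _).mp ha
    have h2 : b - b' ∈ supIdeal F A X := (Submodule.quotientRel_def _).mp hb
    refine (Submodule.quotientRel_def _).mpr ?_
    have h3 : a * b - a' * b' = (a - a') * b + a' * (b - b') := by rw [sub_mul, mul_sub]; abel
    rw [h3]
    exact Submodule.add_mem _ (supIdeal_mul b h1).2 (supIdeal_mul a' h2).1)⟩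

lemma mk_mul (a b : FN F A X) : mk (a * b) = mk a * mk b := rfl

noncomputable instance : NonUnitalNonAssocRing (SAlt F A X) where
  left_distrib := by
    intro a b c
    obtain ⟨a, rfl⟩ := mk_surj a
    obtain ⟨b, rfl⟩ := mk_surj b
    obtain ⟨c, rfl⟩ := mk_surj c
    rw [← map_add, ← mk_mul, ← mk_mul, ← mk_mul, mul_add, map_add]
  right_distrib := by
    intro a b c
    obtain ⟨a, rfl⟩ := mk_surj a
    obtain ⟨b, rfl⟩ := mk_surj b
    obtain ⟨c, rfl⟩ := mk_surj c
    rw [← map_add, ← mk_mul, ← mk_mul, ← mk_mul, add_mul, map_add]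
  zero_mul := by
    intro a
    obtain ⟨a, rfl⟩ := mk_surj a
    rw [← map_zero (mk : FN F A X →ₗ[F] SAlt F A X), ← mk_mul, zero_mul]
  mul_zero := by
    intro a
    obtain ⟨a, rfl⟩ := mk_surj a
    rw [← map_zero (mk : FN F A X →ₗ[F] SAlt F A X), ← mk_mul, mul_zero]

/-- the even generators -/
noncomputable def ev (a : A) : SAlt F A X := mk (FreeNonUnitalNonAssocAlgebra.of F (Sum.inl a))

/-- the odd generators -/
noncomputable def od (x : X) : SAlt F A X := mk (FreeNonUnitalNonAssocAlgebra.of F (Sum.inr x))

/-- the parity automorphism of the free alternative superalgebra -/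
noncomputable def gam : SAlt F A X →ₗ[F] SAlt F A X :=
  (supIdeal F A X).liftQ (mk.comp (gam0 F A X : FN F A X →ₗ[F] FN F A X)) (by
    intro t ht
    show mk (gam0 F A X t) = 0
    rw [mk_zero]
    exact gam0_ideal ht)

/-- the parity automorphism of the free alternative superalgebra, as an additive map -/
noncomputable def par : SAlt F A X →+ SAlt F A X := (gam : SAlt F A X →ₗ[F] SAlt F A X).toAddMonoidHom

lemma gam_mk (u : FN F A X) : gam (mk u) = mk (gam0 F A X u) := rfl

lemma gam_ev (a : A) : gam (ev a : SAlt F A X) = ev a := by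
  unfold ev; rw [gam_mk, gam0_inl]

lemma gam_od (x : X) : gam (od x : SAlt F A X) = - od x := by
  unfold od; rw [gam_mk, gam0_inr, map_neg]

lemma gam_gam (u : SAlt F A X) : gam (gam u) = u := by
  obtain ⟨u, rfl⟩ := mk_surj u
  rw [gam_mk, gam_mk, gam0_gam0]

lemma gam_mul (u v : SAlt F A X) : gam (u * v) = gam u * gam v := by
  obtain ⟨u, rfl⟩ := mk_surj u
  obtain ⟨v, rfl⟩ := mk_surj v
  rw [← mk_mul, gam_mk, gam_mk, gam_mk, map_mul, mk_mul]

lemma mk_as (u v w : FN F A X) : (mk (as u v w) : SAlt F A X) = as (mk u) (mk v) (mk w) := by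
  simp only [as, map_sub, mk_mul]

end SAlt

/-! ### The Grassmann extension -/

/-- The Grassmann extension of a superalgebra `C` with the parity automorphism `γ`: an element is a family of elements
of `C` indexed by the finite subsets of `ℕ`.  The family `P` stands for the sum of all `e_S P_S`, where
`e_S = e_(i₁) ⋯ e_(i_k)` for `S = {i₁ < … < i_k}` and the `e_i` are odd and anticommute. -/
def Gr {C : Type} [NonUnitalNonAssocRing C] (_ : C →+ C) : Type := Finset ℕ → C

/-- the sign in `e_S e_T = ± e_(S ∪ T)` for disjoint `S, T`: the parity of the number of pairs `s > t` -/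
def sgn (S T : Finset ℕ) : ℤ := (-1) ^ ((S ×ˢ T).filter (fun p => p.2 < p.1)).card

namespace Gr
variable {C : Type} [NonUnitalNonAssocRing C] (γ : C →+ C)

instance : AddCommGroup (Gr γ) := Pi.addCommGroup

/-- `(e_S u) (e_T v) = (-1)^(|u||T|) e_S e_T u v`; the sign is given by a power of the parity automorphism -/
instance : Mul (Gr γ) :=
  ⟨fun P Q R => ∑ S ∈ R.powerset, sgn S (R \ S) • (γ^[(R \ S).card] (P S) * Q (R \ S))⟩

lemma mul_apply (P Q : Gr γ) (R : Finset ℕ) :
    (P * Q) R = ∑ S ∈ R.powerset, sgn S (R \ S) • (γ^[(R \ S).card] (P S) * Q (R \ S)) := rfl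

lemma add_apply (P Q : Gr γ) (R : Finset ℕ) : (P + Q) R = P R + Q R := rfl
lemma sub_apply (P Q : Gr γ) (R : Finset ℕ) : (P - Q) R = P R - Q R := rfl
lemma zero_apply (R : Finset ℕ) : (0 : Gr γ) R = 0 := rfl

instance : NonUnitalNonAssocRing (Gr γ) where
  left_distrib := by
    intro P Q R
    funext S
    rw [add_apply, mul_apply, mul_apply, mul_apply, ← Finset.sum_add_distrib]
    exact Finset.sum_congr rfl (fun T _ => by rw [add_apply, mul_add, smul_add])
  right_distrib := by
    intro P Q R
    funext S
    rw [add_apply, mul_apply, mul_apply, mul_apply, ← Finset.sum_add_distrib]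
    exact Finset.sum_congr rfl (fun T _ => by rw [add_apply, iterate_map_add, add_mul, smul_add])
  zero_mul := by
    intro P
    funext S
    rw [mul_apply]
    exact Finset.sum_eq_zero (fun T _ => by rw [zero_apply, iterate_map_zero, zero_mul, smul_zero])
  mul_zero := by
    intro P
    funext S
    rw [mul_apply]
    exact Finset.sum_eq_zero (fun T _ => by rw [zero_apply, mul_zero, smul_zero])

/-- the parity automorphism of the Grassmann extension -/
def par (P : Gr γ) : Gr γ := fun S => (-1 : ℤ) ^ S.card • γ (P S)

end Gr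

/-! ### The elements `u_n` and the verbal subsuperalgebra of `u_4` -/

section
variable {C : Type} [NonUnitalNonAssocRing C]

/-- `[u,x]_s` for an odd `x`; `γ` is the parity automorphism -/
def br (γ : C → C) (x u : C) : C := u * x - x * γ u

/-- `b_0 = b`, `b_(n+1) = [b_n, x]_s` -/
def sq (γ : C → C) (x b : C) : ℕ → C
  | 0 => b
  | n + 1 => br γ x (sq γ x b n)

/-- `u_n(a,x) = ((a²)_(n-1), a, x) - (a_(n-1), a², x)` -/
def uel (γ : C → C) (a x : C) (n : ℕ) : C :=
  as (sq γ x (a * a) (n - 1)) a x - as (sq γ x a (n - 1)) (a * a) x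

/-- The linearization of `u_4` in `a` at a homogeneous element `y` of parity `p`: the coefficient of `ε` in
`u_4(a + ε y, x)`, where `ε` has the parity of `y` and is moved to the left (see `Gr.uel_two`). -/
def lin (γ : C → C) (a x : C) (p : Bool) (y : C) : C :=
  as (sq γ x (a * y + y * a) 3) a x + sg p • as (sq γ x (a * a) 3) y x - as (sq γ x y 3) (a * a) x
    - sg p • as (sq γ x a 3) (a * y + y * a) x

/-- The verbal subsuperalgebra generated by `u_4`: the smallest subspace closed under multiplication that contains all
coefficients of `u_4(P,Q)` for all even `P` and odd `Q` in the Grassmann extension.  In characteristic `0` these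
coefficients span the same subspace as the values of `u_4` and of all its partial and full superlinearizations at
homogeneous elements: if `f(a₁,a₂,a₃;x₁,x₂,x₃,x₄)` is the full superlinearization, a coefficient of `u_4(P,Q)` is a
combination of values of `f` at components of `P` and `Q`, and for disjoint nonempty `S_i`, `T_j` the coefficient of
`u_4(Σ e_(S_i) b_i, Σ e_(T_j) y_j)` at the union of all `S_i`, `T_j` is `± f(b₁,b₂,b₃;y₁,y₂,y₃,y₄)`. -/
def Verb (F : Type) [Field F] [Module F C] (γ : C →+ C) : Submodule F C :=
  sInf {V | (∀ u v : C, u ∈ V → v ∈ V → u * v ∈ V) ∧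
    ∀ P Q : Gr γ, Gr.par γ P = P → Gr.par γ Q = - Q → ∀ R : Finset ℕ, uel (Gr.par γ) P Q 4 R ∈ V}
end

namespace SAlt
variable (F : Type) [Field F] {A X : Type} (a : A) (x : X)

/-- the elements `a_n` of the free alternative superalgebra -/
noncomputable def an (n : ℕ) : SAlt F A X := sq par (od x) (ev a) n

/-- the elements `u_n` of the free alternative superalgebra -/
noncomputable def un (n : ℕ) : SAlt F A X := uel par (ev a) (od x) n

/-- the linearization of `u_4` in `a` at an element `y` of parity `p` of the free alternative superalgebra -/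
noncomputable def L (p : Bool) (y : SAlt F A X) : SAlt F A X := lin par (ev a) (od x) p y

end SAlt

/-- the verbal subsuperalgebra of the free alternative superalgebra generated by `u_4` -/
noncomputable def SAlt.V (F : Type) [Field F] (A X : Type) : Submodule F (SAlt F A X) := Verb F SAlt.par

end Pool.Agent.N33.SA
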