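import Pool.Agent.N33.Tor.Poly
import Pool.Agent.N33.SA.Defs
set_option autoImplicit false

/-! Alternative superalgebras (written with the parity automorphism `g`), multiplication operators, and a checker
for identities of operators.  The letter `2 i` is the right multiplication by `x i`, the letter `2 i + 1` the left
multiplication by `x i` with the sign of the Koszul rule. -/

namespace Pool.Agent.N33.SA
open Pool.Agent.N33.Tor

/-- alternative superalgebras, torsion free as additive groups, given by the parity automorphism `g` -/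
structure SAlg (B : Type) [NonUnitalNonAssocRing B] where
  g : B →+ B
  gg : ∀ u, g (g u) = u
  gm : ∀ u v, g (u * v) = g u * g v
  tf : ∀ (k : ℤ) (u : B), k ≠ 0 → k • u = 0 → u = 0
  l12 : ∀ (p q r : Bool) (u v w : B), g u = sg p • u → g v = sg q • v → g w = sg r • w →
    as u v w + sg (p && q) • as v u w = 0
  l23 : ∀ (p q r : Bool) (u v w : B), g u = sg p • u → g v = sg q • v → g w = sg r • w →
    as u v w + sg (q && r) • as u w v = 0

namespace SAlg
variable {B : Type} [NonUnitalNonAssocRing B] (H : SAlg B)

/-- the power of the parity automorphism given by a parity -/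
def gq (p : Bool) : B →+ B := cond p H.g (AddMonoidHom.id B)

@[simp] lemma gq_false (u : B) : H.gq false u = u := rfl
@[simp] lemma gq_true (u : B) : H.gq true u = H.g u := rfl

lemma gq_hom (p q : Bool) (u : B) (h : H.g u = sg p • u) : H.gq q u = sg (p && q) • u := by
  cases q <;> simp [h]

lemma gq_gq (p q : Bool) (u : B) : H.gq p (H.gq q u) = H.gq (xor p q) u := by
  cases p <;> cases q <;> simp [H.gg]

lemma gq_mul (p : Bool) (u v : B) : H.gq p (u * v) = H.gq p u * H.gq p v := by
  cases p <;> simp [H.gm]

lemma ind (f : B → B) (hadd : ∀ a b, f (a + b) = f a + f b)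
    (h : ∀ p u, H.g u = sg p • u → f u = 0) (u : B) : f u = 0 := by
  have h1 : f (u + H.g u) = 0 := h false _ (by simp [map_add, H.gg, add_comm])
  have h2 : f (u + - H.g u) = 0 := h true _ (by simp [map_add, map_neg, H.gg, add_comm])
  have h3 : f (u + H.g u) + f (u + - H.g u) = f u + f u := by
    rw [← hadd, ← hadd]; congr 1; abel
  rw [h1, h2, add_zero] at h3
  refine H.tf 2 _ (by norm_num) ?_
  rw [two_zsmul]; exact h3.symm

lemma as_add1 (a b v w : B) : as (a + b) v w = as a v w + as b v w := by
  simp only [as, add_mul]; abel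
lemma as_add2 (a b v w : B) : as v (a + b) w = as v a w + as v b w := by
  simp only [as, add_mul, mul_add]; abel
lemma as_add3 (a b v w : B) : as v w (a + b) = as v w a + as v w b := by
  simp only [as, mul_add]; abel
lemma as_zsmul1 (k : ℤ) (u v w : B) : as (k • u) v w = k • as u v w := by
  simp only [as, smul_mul_assoc, smul_sub]
lemma as_zsmul2 (k : ℤ) (u v w : B) : as u (k • v) w = k • as u v w := by
  simp only [as, smul_mul_assoc, mul_smul_comm, smul_sub]
lemma as_zsmul3 (k : ℤ) (u v w : B) : as u v (k • w) = k • as u v w := by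
  simp only [as, mul_smul_comm, smul_sub]

lemma A1 (q : Bool) (v : B) (hv : H.g v = sg q • v) (u w : B) : as u v w + as v (H.gq q u) w = 0 := by
  refine H.ind (fun w => as u v w + as v (H.gq q u) w) ?_ ?_ w
  · intro a b; simp only [as_add3]; abel
  · intro r w hw
    refine H.ind (fun u => as u v w + as v (H.gq q u) w) ?_ ?_ u
    · intro a b; simp only [as_add1, as_add2, map_add]; abel
    · intro p u hu
      show as u v w + as v (H.gq q u) w = 0
      rw [H.gq_hom p q u hu, as_zsmul2]
      exact H.l12 p q r u v w hu hv hw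

lemma A2 (q r : Bool) (v w : B) (hv : H.g v = sg q • v) (hw : H.g w = sg r • w) (u : B) :
    as u v w + sg (q && r) • as u w v = 0 := by
  refine H.ind (fun u => as u v w + sg (q && r) • as u w v) ?_ ?_ u
  · intro a b; simp only [as_add1, smul_add]; abel
  · intro p u hu
    exact H.l23 p q r u v w hu hv hw

lemma A3 (r : Bool) (w : B) (hw : H.g w = sg r • w) (u v : B) : as u v w + as u w (H.gq r v) = 0 := by
  refine H.ind (fun u => as u v w + as u w (H.gq r v)) ?_ ?_ u
  · intro a b; simp only [as_add1]; abel
  · intro p u hu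
    refine H.ind (fun v => as u v w + as u w (H.gq r v)) ?_ ?_ v
    · intro a b; simp only [as_add2, as_add3, map_add]; abel
    · intro q v hv
      show as u v w + as u w (H.gq r v) = 0
      rw [H.gq_hom q r v hv, as_zsmul3]
      exact H.l23 p q r u v w hu hv hw

variable (x : ℕ → B) (q : ℕ → Bool)

/-- the operator of a letter -/
def op (k : ℕ) : B →+ B :=
  if k % 2 = 0 then AddMonoidHom.mulRight (x (k / 2)) else (AddMonoidHom.mulLeft (x (k / 2))).comp (H.gq (q (k / 2)))

lemma op_even (i : ℕ) (v : B) : H.op x q (2 * i) v = v * x i := by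
  have h1 : (2 * i) % 2 = 0 := by omega
  have h2 : (2 * i) / 2 = i := by omega
  unfold op
  rw [if_pos h1, h2]; rfl

lemma op_odd (i : ℕ) (v : B) : H.op x q (2 * i + 1) v = x i * H.gq (q i) v := by
  have h1 : ¬ (2 * i + 1) % 2 = 0 := by omega
  have h2 : (2 * i + 1) / 2 = i := by omega
  unfold op
  rw [if_neg h1, h2]; rfl

end SAlg

/-- nonassociative words -/
inductive W : Type
  | v (i : ℕ) : W
  | m (a b : W) : W

namespace W

def par (q : ℕ → Bool) : W → Bool
  | v i => q i
  | m a b => xor (par q a) (par q b)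

def val {B : Type} [NonUnitalNonAssocRing B] (x : ℕ → B) : W → B
  | v i => x i
  | m a b => val x a * val x b

/-- the right and the left multiplication by a word, as polynomials in letters -/
def rl (q : ℕ → Bool) : W → P × P
  | v i => (P.cons (2 * i) 1 P.nil P.nil, P.cons (2 * i + 1) 1 P.nil P.nil)
  | m a b =>
    let ra := (rl q a).1
    let la := (rl q a).2
    let rb := (rl q b).1
    let lb := (rl q b).2
    let e := sg (par q a && par q b)
    (P.add 99 (P.add 99 (P.mul ra rb) (P.mul la rb)) (P.smul (-e) (P.mul rb la)),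
     P.add 99 (P.add 99 (P.smul e (P.mul lb la)) (P.smul (-1) (P.mul la rb))) (P.smul e (P.mul rb la)))

section
variable {B : Type} [NonUnitalNonAssocRing B] (H : SAlg B) (x : ℕ → B) (q : ℕ → Bool)
  (hx : ∀ i, H.g (x i) = sg (q i) • x i)
include hx

lemma val_par (w : W) : H.g (val x w) = sg (par q w) • val x w := by
  induction w with
  | v i => exact hx i
  | m a b iha ihb =>
    simp only [val, par, H.gm, iha, ihb, smul_mul_assoc, mul_smul_comm]
    cases par q a <;> cases par q b <;> simp

lemma rl_sound (w : W) : ∀ u : B,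
    P.ev (H.op x q) (rl q w).1 u = u * val x w ∧
    P.ev (H.op x q) (rl q w).2 u = val x w * H.gq (par q w) u := by
  induction w with
  | v i =>
    intro u
    constructor
    · simp [rl, val, SAlg.op_even]
    · simp [rl, val, par, SAlg.op_odd]
  | m a b iha ihb =>
    intro u
    have ha := val_par H x q hx a
    have hb := val_par H x q hx b
    have hgb : H.gq (par q a) (val x b) = sg (par q a && par q b) • val x b := by
      rw [H.gq_hom _ _ _ hb, Bool.and_comm]
    have he := sg_mul_self (par q a && par q b)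
    constructor
    · simp only [rl, P.ev_add, P.ev_smul, P.ev_mul, (iha _).1, (iha _).2, (ihb _).1, val, H.gq_mul, hgb,
        mul_smul_comm, ← mul_smul]
      have h1 := H.A1 (par q a) (val x a) ha u (val x b)
      unfold as at h1
      have e1 : -sg (par q a && par q b) * sg (par q a && par q b) = -1 := by rw [neg_mul, he]
      rw [e1]
      generalize H.gq (par q a) u = u' at *
      have h2 : u * val x a * val x b + val x a * u' * val x b + (-1 : ℤ) • (val x a * (u' * val x b)) =
        u * (val x a * val x b) + (u * val x a * val x b - u * (val x a * val x b) +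
          (val x a * u' * val x b - val x a * (u' * val x b))) := by
        rw [neg_smul, one_smul]; abel
      rw [h2, h1, add_zero]
    · simp only [rl, P.ev_add, P.ev_smul, P.ev_mul, (iha _).1, (iha _).2, (ihb _).1, (ihb _).2, val, H.gq_mul, hgb,
        mul_smul_comm, smul_mul_assoc, ← mul_smul, H.gq_gq, par, he, one_smul]
      have h1 := H.A1 (par q a) (val x a) ha (val x b) (H.gq (xor (par q a) (par q b)) u)
      have h2 := H.A3 (par q b) (val x b) hb (val x a) (H.gq (par q a) u)
      rw [H.gq_gq, Bool.xor_comm (par q b)] at h2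
      unfold as at h1 h2
      generalize H.gq (xor (par q a) (par q b)) u = u' at *
      generalize H.gq (par q a) u = u'' at *
      have h3 : val x a * (val x b * u') + (-1 : ℤ) • (val x a * u'' * val x b) + val x a * (u'' * val x b) =
        val x a * val x b * u' -
          (val x a * u'' * val x b - val x a * (u'' * val x b) +
            (val x a * val x b * u' - val x a * (val x b * u'))) := by
        rw [neg_smul, one_smul]; abel
      rw [h3, h2, sub_zero]
end
end W

/-- relations: kind 0 is `[L_T,R_S] + [L_S,R_T]` (with signs); kinds 1, 2 are the right multiplications by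
`(T,S,U) + (S,T,U)` and `(T,S,U) + (T,U,S)` (with signs); kinds 3, 4 are the left multiplications by these -/
structure Item : Type where
  c : ℤ
  kind : ℕ
  T : W
  S : W
  U : W
  pr : List ℕ
  sf : List ℕ

def asP (q : ℕ → Bool) (f : P × P → P) (T S U : W) : P :=
  P.add 99 (f (W.rl q (W.m (W.m T S) U))) (P.smul (-1) (f (W.rl q (W.m T (W.m S U)))))

def skP (q : ℕ → Bool) (T S : W) : P :=
  let rt := (W.rl q T).1
  let lt := (W.rl q T).2
  let rs := (W.rl q S).1
  let ls := (W.rl q S).2
  let e := sg (T.par q && S.par q)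
  P.add 99 (P.add 99 (P.mul lt rs) (P.smul (-e) (P.mul rs lt)))
    (P.smul e (P.add 99 (P.mul ls rt) (P.smul (-e) (P.mul rt ls))))

def Item.rel (q : ℕ → Bool) (i : Item) : P :=
  match i.kind with
  | 0 => skP q i.T i.S
  | 1 => P.add 99 (asP q Prod.fst i.T i.S i.U) (P.smul (sg (i.T.par q && i.S.par q)) (asP q Prod.fst i.S i.T i.U))
  | 2 => P.add 99 (asP q Prod.fst i.T i.S i.U) (P.smul (sg (i.S.par q && i.U.par q)) (asP q Prod.fst i.T i.U i.S))
  | 3 => P.add 99 (asP q Prod.snd i.T i.S i.U) (P.smul (sg (i.T.par q && i.S.par q)) (asP q Prod.snd i.S i.T i.U))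
  | 4 => P.add 99 (asP q Prod.snd i.T i.S i.U) (P.smul (sg (i.S.par q && i.U.par q)) (asP q Prod.snd i.T i.U i.S))
  | _ => P.nil

def Item.poly (q : ℕ → Bool) (i : Item) : P := P.smul i.c (P.pre i.pr (P.suf (i.rel q) i.sf))

def total (q : ℕ → Bool) : List Item → P
  | [] => P.nil
  | i :: l => P.add 99 (i.poly q) (total q l)

/-- all coefficients are zero -/
def isZ : P → Bool
  | P.nil => true
  | P.cons _ c s r => decide (c = 0) && (isZ s && isZ r)

lemma isZ_ev {M : Type} [AddCommGroup M] (op : ℕ → M →+ M) (p : P) (h : isZ p = true) (v : M) : P.ev op p v = 0 := by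
  induction p generalizing v with
  | nil => rfl
  | cons x c s r ihs ihr =>
    simp only [isZ, Bool.and_eq_true, decide_eq_true_eq] at h
    simp [h.1, ihs h.2.1, ihr h.2.2]

/-- `d • t` is the sum of the items -/
def chk (q : ℕ → Bool) (d : ℤ) (t : P) (l : List Item) : Bool :=
  !(decide (d = 0)) && isZ (P.add 99 (P.smul (-d) t) (total q l))

section sound
variable {B : Type} [NonUnitalNonAssocRing B] (H : SAlg B) (x : ℕ → B) (q : ℕ → Bool)
  (hx : ∀ i, H.g (x i) = sg (q i) • x i)
include hx

lemma asR (T S U : W) (v : B) :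
    P.ev (H.op x q) (asP q Prod.fst T S U) v = v * as (T.val x) (S.val x) (U.val x) := by
  unfold asP
  rw [P.ev_add, P.ev_smul, (W.rl_sound H x q hx _ v).1, (W.rl_sound H x q hx _ v).1]
  simp only [W.val, as, neg_smul, one_smul, sub_eq_add_neg, mul_add, mul_neg]

lemma asL (T S U : W) (v : B) :
    P.ev (H.op x q) (asP q Prod.snd T S U) v = as (T.val x) (S.val x) (U.val x) *
      H.gq (xor (xor (T.par q) (S.par q)) (U.par q)) v := by
  unfold asP
  rw [P.ev_add, P.ev_smul, (W.rl_sound H x q hx _ v).2, (W.rl_sound H x q hx _ v).2]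
  simp only [W.val, W.par, as, neg_smul, one_smul, sub_eq_add_neg, add_mul, neg_mul]
  rw [Bool.xor_assoc]

lemma skP_sound (T S : W) (v : B) : P.ev (H.op x q) (skP q T S) v = 0 := by
  unfold skP
  have hT := W.val_par H x q hx T
  have hS := W.val_par H x q hx S
  simp only [P.ev_add, P.ev_smul, P.ev_mul, (W.rl_sound H x q hx T _).1, (W.rl_sound H x q hx T _).2,
    (W.rl_sound H x q hx S _).1, (W.rl_sound H x q hx S _).2, H.gq_mul]
  rw [H.gq_hom _ (T.par q) _ hS, H.gq_hom _ (S.par q) _ hT, Bool.and_comm (S.par q) (T.par q)]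
  have he := sg_mul_self (T.par q && S.par q)
  have h1 := H.A1 _ _ hT v (S.val x)
  have h2 := H.A1 _ _ hS v (T.val x)
  have h3 := H.A2 _ _ _ _ hT hS v
  simp only [mul_smul_comm, ← mul_smul, neg_mul, he]
  generalize sg (T.par q && S.par q) = e at *
  generalize T.val x = t at *
  generalize S.val x = s at *
  generalize H.gq (T.par q) v = v1 at *
  generalize H.gq (S.par q) v = v2 at *
  have e1 : as v t s = - as t v1 s := eq_neg_of_add_eq_zero_left h1
  have e2 : as v s t = - as s v2 t := eq_neg_of_add_eq_zero_left h2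
  rw [e1, e2, smul_neg] at h3
  have h4 : t * v1 * s + (-1 : ℤ) • (t * (v1 * s)) + e • (s * v2 * t + (-1 : ℤ) • (s * (v2 * t))) =
    - (- as t v1 s + - (e • as s v2 t)) := by
    unfold as
    rw [neg_smul, one_smul, neg_smul, one_smul, ← sub_eq_add_neg, ← sub_eq_add_neg]
    abel
  rw [h4, h3, neg_zero]

lemma rel_sound (i : Item) (v : B) : P.ev (H.op x q) (i.rel q) v = 0 := by
  unfold Item.rel
  have hT := W.val_par H x q hx i.T
  have hS := W.val_par H x q hx i.S
  have hU := W.val_par H x q hx i.U
  split
  · exact skP_sound H x q hx _ _ v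
  · rw [P.ev_add, P.ev_smul, asR H x q hx, asR H x q hx, ← mul_smul_comm, ← mul_add, H.l12 _ _ _ _ _ _ hT hS hU,
      mul_zero]
  · rw [P.ev_add, P.ev_smul, asR H x q hx, asR H x q hx, ← mul_smul_comm, ← mul_add, H.l23 _ _ _ _ _ _ hT hS hU,
      mul_zero]
  · rw [P.ev_add, P.ev_smul, asL H x q hx, asL H x q hx, Bool.xor_comm (i.S.par q) (i.T.par q), ← smul_mul_assoc,
      ← add_mul, H.l12 _ _ _ _ _ _ hT hS hU, zero_mul]
  · rw [P.ev_add, P.ev_smul, asL H x q hx, asL H x q hx, Bool.xor_assoc (i.T.par q) (i.U.par q) (i.S.par q),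
      Bool.xor_comm (i.U.par q) (i.S.par q), ← Bool.xor_assoc, ← smul_mul_assoc,
      ← add_mul, H.l23 _ _ _ _ _ _ hT hS hU, zero_mul]
  · rfl

lemma total_sound (l : List Item) (v : B) : P.ev (H.op x q) (total q l) v = 0 := by
  induction l with
  | nil => rfl
  | cons i l ih =>
    simp only [total, P.ev_add, ih, add_zero]
    unfold Item.poly
    rw [P.ev_smul, P.ev_pre, P.ev_suf, rel_sound H x q hx, P.evw_vzero, smul_zero]

lemma chk_sound (d : ℤ) (t : P) (l : List Item) (h : chk q d t l = true) (v : B) : P.ev (H.op x q) t v = 0 := by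
  simp only [chk, Bool.and_eq_true, Bool.not_eq_true', decide_eq_false_iff_not] at h
  have h1 := isZ_ev (H.op x q) _ h.2 v
  rw [P.ev_add, P.ev_smul, total_sound H x q hx, add_zero] at h1
  exact H.tf (-d) _ (neg_ne_zero.mpr h.1) h1

end sound
end Pool.Agent.N33.SA
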