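import Pool.Agent.N33.SA.BaseData
set_option autoImplicit false

/-! Basic operator identities in alternative superalgebras: `a` even, `x` odd. -/

namespace Pool.Agent.N33.SA
open Pool.Agent.N33.Tor W

def q3 (p : Bool) (i : ℕ) : Bool := cond (Nat.beq i 0) false (cond (Nat.beq i 1) true p)

def pR (i : ℕ) : P := P.cons (2 * i) 1 P.nil P.nil
def pL (i : ℕ) : P := P.cons (2 * i + 1) 1 P.nil P.nil
def psub (p q : P) : P := P.add 99 p (P.smul (-1) q)
def pD : P := psub (pR 1) (pL 1)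
def pC : P := psub (pR 0) (pL 0)
def pCw (q : ℕ → Bool) (w : W) : P := psub (rl q w).1 (rl q w).2
def pE (q : ℕ → Bool) : P := pCw q (m (v 1) (v 1))
def pTw (q : ℕ → Bool) (w : W) : P := P.smul 6 (psub (P.mul (rl q w).1 (pR 1)) (rl q (m w (v 1))).1)
def pRL (q : ℕ → Bool) (w : W) : P := P.add 99 (rl q w).1 (rl q w).2

def tI (p : Bool) : P :=
  let q := q3 p
  let e := sg p
  P.add 99 (psub (psub (pCw q (m (v 2) (v 1))) (P.smul e (pCw q (m (v 1) (v 2))))) (P.mul (pCw q (v 2)) pD))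
    (P.add 99 (P.smul e (P.mul pD (pCw q (v 2)))) (pTw q (v 2)))

def tII (p : Bool) : P :=
  let q := q3 p
  let e := sg p
  P.add 99 (psub (pTw q (m (v 2) (v 1))) (P.smul e (pTw q (m (v 1) (v 2)))))
    (P.add 99 (P.mul (pTw q (v 2)) pD) (P.add 99 (P.smul (2 * e) (P.mul pD (pTw q (v 2))))
      (P.smul 2 (P.mul (psub (P.mul pD pD) (pE q)) (pCw q (v 2))))))

def tdD (p : Bool) : P :=
  let q := q3 p
  let e := sg p
  psub (psub (P.mul (pRL q (v 2)) pD) (P.smul e (P.mul pD (pRL q (v 2)))))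
    (psub (pRL q (m (v 2) (v 1))) (P.smul e (pRL q (m (v 1) (v 2)))))

def tdE (p : Bool) : P :=
  let q := q3 p
  psub (psub (P.mul (pRL q (v 2)) (pE q)) (P.mul (pE q) (pRL q (v 2))))
    (psub (pRL q (m (v 2) (m (v 1) (v 1)))) (pRL q (m (m (v 1) (v 1)) (v 2))))

def tdC (p : Bool) : P :=
  let q := q3 p
  psub (psub (P.mul (pRL q (v 2)) pC) (P.mul pC (pRL q (v 2))))
    (psub (pRL q (m (v 2) (v 0))) (pRL q (m (v 0) (v 2))))

def tdT (p : Bool) : P :=
  let q := q3 p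
  let e := sg p
  psub (psub (P.mul (pRL q (v 2)) (pTw q (v 0))) (P.smul e (P.mul (pTw q (v 0)) (pRL q (v 2)))))
    (P.smul 6 (psub (pRL q (m (m (v 2) (v 0)) (v 1))) (pRL q (m (v 2) (m (v 0) (v 1))))))

def tCC : P := psub (pCw (q3 false) (m (v 0) (v 0))) (P.mul pC (pRL (q3 false) (v 0)))
def tTT : P := psub (pTw (q3 false) (m (v 0) (v 0))) (P.mul (pTw (q3 false) (v 0)) (pRL (q3 false) (v 0)))

/-- a word as a polynomial -/
def wP : List ℕ → P
  | [] => P.nil
  | x :: l => P.word x l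

def ofL : List (ℤ × List ℕ) → P
  | [] => P.nil
  | t :: l => P.add 99 (P.smul t.1 (wP t.2)) (ofL l)

/-- substitution of polynomials for the letters -/
def subst (f : ℕ → P) : P → P
  | P.nil => P.nil
  | P.cons x c s r => P.add 99 (P.smul c (f x)) (P.add 99 (P.mul (f x) (subst f s)) (subst f r))

def fU (k : ℕ) : P := cond (Nat.beq k 0) pD (cond (Nat.beq k 1) (pE (q3 false))
  (cond (Nat.beq k 2) pC (pTw (q3 false) (v 0))))

/-- letters `0,1,2,3` are `D,E,C,T` -/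
def rhoL : List (List (ℤ × List ℕ)) := [
  [(1, [1,1]), (-1, [0,1,0])],
  [(1, [0,0,1,0]), (-1, [0,1,0,0])],
  [(1, [0,3]), (-1, [3,0]), (2, [2,0,0]), (-2, [2,1]), (2, [0,0,2]), (-2, [1,2])],
  [(1, [0,0,3]), (1, [3,0,0]), (-2, [2,0,0,0]), (2, [2,0,1]), (2, [0,0,0,2]), (-2, [1,0,2])],
  [(1, [0,0,3]), (1, [3,0,0]), (1, [1,3]), (1, [3,1]), (-2, [2,0,0,0]), (2, [2,1,0]), (2, [0,0,0,2]), (-2, [0,1,2])],
  [(4, [0,0,0,3]), (-3, [0,0,3,0]), (-3, [0,3,0,0]), (4, [0,1,3]), (5, [0,3,1]), (-3, [1,0,3]), (1, [1,3,0]),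
    (-3, [3,0,1]), (8, [2,0,0,1]), (-8, [2,0,1,0]), (8, [0,0,0,0,2]), (-8, [0,0,1,2]), (-8, [1,0,0,2]), (8, [1,1,2])],
  [(2, [0,0,0,3]), (2, [3,0,0,0]), (-1, [0,3,0,0]), (1, [0,3,1]), (-3, [1,0,3]), (-1, [0,0,3,0]), (1, [1,3,0]),
    (-3, [3,0,1]), (-4, [2,0,0,0,0]), (4, [2,0,0,1]), (4, [0,0,0,0,2]), (-4, [1,0,0,2])],
  [(2, [0,0,0,3]), (2, [3,0,0,0]), (-1, [0,3,0,0]), (1, [0,3,1]), (-1, [1,0,3]), (-1, [0,0,3,0]), (1, [1,3,0]),
    (-1, [3,0,1]), (-4, [2,0,0,0,0]), (4, [2,0,1,0]), (4, [0,0,0,0,2]), (-4, [0,1,0,2])]]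

def trho (k : ℕ) : P := subst fU (ofL (rhoL.getD k []))

set_option maxRecDepth 100000

theorem cI (p : Bool) : chk (q3 p) 1 (tI p) (cond p itI1 itI0) = true := by cases p <;> decide +kernel
theorem cII (p : Bool) : chk (q3 p) 1 (tII p) (cond p itII1 itII0) = true := by cases p <;> decide +kernel
theorem cdD (p : Bool) : chk (q3 p) 1 (tdD p) (cond p itdD1 itdD0) = true := by cases p <;> decide +kernel
theorem cdE (p : Bool) : chk (q3 p) 1 (tdE p) (cond p itdE1 itdE0) = true := by cases p <;> decide +kernel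
theorem cdC (p : Bool) : chk (q3 p) 1 (tdC p) (cond p itdC1 itdC0) = true := by cases p <;> decide +kernel
theorem cdT (p : Bool) : chk (q3 p) 1 (tdT p) (cond p itdT1 itdT0) = true := by cases p <;> decide +kernel
theorem cCC : chk (q3 false) dCC tCC itCC = true := by decide +kernel
theorem cTT : chk (q3 false) dTT tTT itTT = true := by decide +kernel
theorem crho0 : chk (q3 false) drho0 (trho 0) itrho0 = true := by decide +kernel
theorem crho1 : chk (q3 false) drho1 (trho 1) itrho1 = true := by decide +kernel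
theorem crho2 : chk (q3 false) drho2 (trho 2) itrho2 = true := by decide +kernel
theorem crho3 : chk (q3 false) drho3 (trho 3) itrho3 = true := by decide +kernel
theorem crho4 : chk (q3 false) drho4 (trho 4) itrho4 = true := by decide +kernel
theorem crho5 : chk (q3 false) drho5 (trho 5) itrho5 = true := by decide +kernel
theorem crho6 : chk (q3 false) drho6 (trho 6) itrho6 = true := by decide +kernel
theorem crho7 : chk (q3 false) drho7 (trho 7) itrho7 = true := by decide +kernel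

end Pool.Agent.N33.SA
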