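import Pool.Agent.N33.SA.Alg
set_option autoImplicit false

/-! Certificates for the basic identities. -/

namespace Pool.Agent.N33.SA
open W

def dI0 : ℤ := 1
def itI0 : List Item := [
  ⟨-3, 0, (v 2), (v 1), (v 0), [], []⟩]

def dII0 : ℤ := 1
def itII0 : List Item := [
  ⟨-6, 0, (v 2), (v 1), (v 0), [2], []⟩,
  ⟨-6, 0, (v 1), (m (v 1) (v 2)), (v 0), [], []⟩,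
  ⟨6, 0, (v 2), (v 1), (v 0), [], [3]⟩,
  ⟨6, 0, (v 2), (v 1), (v 0), [3], []⟩]

def ddD0 : ℤ := 1
def itdD0 : List Item := [
  ⟨1, 0, (v 2), (v 1), (v 0), [], []⟩]

def ddE0 : ℤ := 1
def itdE0 : List Item := [
  ⟨1, 0, (v 2), (m (v 1) (v 1)), (v 0), [], []⟩]

def ddC0 : ℤ := 1
def itdC0 : List Item := [
  ⟨1, 0, (v 2), (v 0), (v 0), [], []⟩]

def ddT0 : ℤ := 1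
def itdT0 : List Item := [
  ⟨3, 4, (v 0), (v 2), (v 1), [], []⟩,
  ⟨-3, 0, (v 2), (v 1), (v 0), [1], []⟩,
  ⟨-6, 0, (v 2), (v 0), (v 0), [], [2]⟩,
  ⟨3, 0, (v 2), (v 1), (v 0), [], [1]⟩,
  ⟨6, 0, (v 2), (v 0), (v 0), [3], []⟩]

def dCC : ℤ := 2
def itCC : List Item := [
  ⟨3, 0, (v 0), (v 0), (v 0), [], []⟩]

def dTT : ℤ := 1
def itTT : List Item := [
  ⟨-3, 0, (v 1), (v 0), (v 0), [1], []⟩,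
  ⟨3, 0, (v 1), (v 0), (v 0), [], [1]⟩,
  ⟨3, 4, (v 0), (v 1), (v 0), [], []⟩,
  ⟨-3, 0, (v 0), (v 0), (v 0), [2], []⟩,
  ⟨3, 0, (v 0), (v 0), (v 0), [3], []⟩]

def drho0 : ℤ := 2
def itrho0 : List Item := [
  ⟨3, 0, (m (v 1) (v 1)), (m (v 1) (v 1)), (v 0), [], []⟩,
  ⟨6, 0, (v 1), (m (v 1) (m (v 1) (v 1))), (v 0), [], []⟩]

def drho1 : ℤ := 1
def itrho1 : List Item := [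
  ⟨3, 0, (m (v 1) (v 1)), (m (v 1) (v 1)), (v 0), [], [2]⟩,
  ⟨3, 0, (v 1), (m (v 1) (m (m (v 1) (v 1)) (v 1))), (v 0), [], []⟩,
  ⟨-3, 0, (v 1), (m (m (v 1) (v 1)) (v 1)), (v 0), [2], []⟩,
  ⟨3, 0, (m (v 1) (v 1)), (m (v 1) (v 1)), (v 0), [2], []⟩,
  ⟨3, 0, (v 1), (m (v 1) (m (v 1) (v 1))), (v 0), [], [2]⟩,
  ⟨-3, 3, (v 1), (m (v 1) (v 1)), (m (v 1) (v 1)), [], []⟩]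

def drho2 : ℤ := 1
def itrho2 : List Item := [
  ⟨-6, 0, (v 1), (m (v 0) (v 1)), (v 0), [], []⟩,
  ⟨12, 0, (v 1), (v 0), (v 0), [], [2]⟩,
  ⟨-6, 0, (v 1), (m (v 1) (v 0)), (v 0), [], []⟩,
  ⟨6, 0, (v 1), (v 0), (v 0), [], [3]⟩,
  ⟨6, 0, (v 1), (v 0), (v 0), [3], []⟩]

def drho3 : ℤ := 1
def itrho3 : List Item := [
  ⟨6, 0, (m (v 1) (v 1)), (m (v 0) (v 1)), (v 0), [], []⟩,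
  ⟨-6, 3, (v 1), (v 0), (v 1), [], [3]⟩,
  ⟨12, 0, (v 1), (v 0), (v 0), [], [2, 3]⟩,
  ⟨-6, 0, (v 1), (v 0), (v 0), [], [3, 2]⟩,
  ⟨6, 0, (m (v 1) (v 1)), (m (v 1) (v 0)), (v 0), [], []⟩,
  ⟨-6, 0, (v 1), (v 0), (v 0), [], [3, 3]⟩,
  ⟨-6, 2, (v 1), (v 1), (v 0), [], [2]⟩,
  ⟨-6, 3, (v 1), (v 0), (v 1), [2], []⟩,
  ⟨12, 0, (v 1), (v 0), (v 0), [2], [3]⟩,
  ⟨6, 0, (v 1), (v 0), (v 0), [2], [2]⟩,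
  ⟨12, 0, (v 1), (v 0), (v 0), [2, 3], []⟩,
  ⟨6, 0, (v 1), (m (v 1) (v 0)), (v 0), [3], []⟩,
  ⟨-12, 0, (v 1), (v 0), (v 0), [3], [2]⟩]

def drho4 : ℤ := 1
def itrho4 : List Item := [
  ⟨6, 0, (v 1), (m (v 0) (v 1)), (v 0), [], [2]⟩,
  ⟨-6, 0, (v 1), (v 0), (v 0), [], [2, 2]⟩,
  ⟨-6, 0, (v 1), (v 0), (v 0), [], [3, 2]⟩,
  ⟨-6, 0, (v 1), (v 0), (v 0), [], [3, 3]⟩,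
  ⟨-3, 1, (v 1), (m (v 1) (v 1)), (v 0), [], []⟩,
  ⟨6, 2, (v 0), (v 1), (m (v 1) (v 1)), [], []⟩,
  ⟨-6, 0, (v 1), (m (v 1) (v 0)), (v 0), [], [3]⟩,
  ⟨-6, 0, (v 1), (m (v 0) (v 1)), (v 0), [2], []⟩,
  ⟨6, 0, (v 1), (v 0), (v 0), [2], [2]⟩,
  ⟨6, 0, (v 1), (v 0), (v 0), [2], [3]⟩,
  ⟨-6, 0, (v 1), (v 0), (v 0), [2, 2], []⟩,
  ⟨6, 0, (v 1), (m (v 1) (v 0)), (v 0), [3], []⟩,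
  ⟨-6, 0, (v 1), (v 0), (v 0), [3], [2]⟩,
  ⟨-6, 0, (v 1), (v 0), (v 0), [3], [3]⟩,
  ⟨-6, 0, (v 1), (v 0), (v 0), [3, 2], []⟩,
  ⟨-6, 0, (v 1), (v 0), (v 0), [3, 3], []⟩]

def drho5 : ℤ := 1
def itrho5 : List Item := [
  ⟨9, 0, (m (v 1) (v 1)), (m (v 1) (v 1)), (v 0), [0], []⟩,
  ⟨18, 0, (v 1), (m (v 1) (m (v 1) (v 1))), (v 0), [0], []⟩,
  ⟨-24, 0, (v 1), (m (v 0) (v 1)), (v 0), [], [2, 2]⟩,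
  ⟨-36, 0, (v 1), (m (v 0) (v 1)), (v 0), [], [2, 3]⟩,
  ⟨-48, 0, (v 1), (m (v 0) (v 1)), (v 0), [], [3, 2]⟩,
  ⟨6, 0, (v 1), (m (v 0) (v 1)), (v 0), [], [3, 3]⟩,
  ⟨90, 0, (v 1), (v 0), (v 0), [], [2, 2, 3]⟩,
  ⟨84, 0, (v 1), (v 0), (v 0), [], [2, 3, 2]⟩,
  ⟨6, 0, (v 1), (m (v 1) (v 0)), (v 0), [], [2, 2]⟩,
  ⟨-6, 0, (v 1), (v 0), (v 0), [], [3, 2, 2]⟩,
  ⟨-48, 0, (v 1), (m (v 1) (v 0)), (v 0), [], [2, 3]⟩,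
  ⟨48, 0, (v 1), (v 0), (v 0), [], [3, 2, 3]⟩,
  ⟨-36, 0, (v 1), (m (v 1) (v 0)), (v 0), [], [3, 2]⟩,
  ⟨54, 0, (v 1), (v 0), (v 0), [], [3, 3, 2]⟩,
  ⟨-24, 0, (v 1), (m (v 1) (v 0)), (v 0), [], [3, 3]⟩,
  ⟨-6, 0, (v 1), (v 0), (v 0), [], [3, 3, 3]⟩,
  ⟨-9, 0, (m (v 1) (v 1)), (m (v 1) (v 1)), (v 0), [1], []⟩,
  ⟨-18, 0, (v 1), (m (v 1) (m (v 1) (v 1))), (v 0), [1], []⟩,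
  ⟨6, 2, (v 0), (v 1), (m (v 1) (v 1)), [], [3]⟩,
  ⟨-12, 1, (v 1), (m (v 1) (v 1)), (v 0), [], [3]⟩,
  ⟨3, 1, (v 1), (m (v 1) (v 1)), (v 0), [], [2]⟩,
  ⟨-24, 2, (v 0), (v 1), (m (v 1) (v 1)), [], [2]⟩,
  ⟨6, 0, (v 1), (m (m (m (v 0) (v 1)) (v 1)) (v 1)), (v 0), [], []⟩,
  ⟨-6, 0, (v 1), (m (m (v 0) (v 1)) (v 1)), (v 0), [], [3]⟩,
  ⟨-6, 0, (v 1), (m (v 1) (m (v 1) (m (v 1) (v 0)))), (v 0), [], []⟩,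
  ⟨6, 0, (v 1), (m (v 1) (m (v 1) (v 0))), (v 0), [], [2]⟩,
  ⟨6, 0, (v 1), (m (v 0) (v 1)), (v 0), [2], [2]⟩,
  ⟨-18, 0, (v 1), (v 0), (v 0), [2], [2, 3]⟩,
  ⟨-12, 0, (v 1), (v 0), (v 0), [2], [3, 2]⟩,
  ⟨-18, 0, (v 1), (v 0), (v 0), [2], [3, 3]⟩,
  ⟨6, 0, (v 1), (m (v 1) (v 0)), (v 0), [2], [3]⟩,
  ⟨6, 2, (v 0), (v 1), (m (v 1) (v 1)), [2], []⟩,
  ⟨-12, 0, (v 1), (m (v 1) (v 0)), (v 0), [2], [2]⟩,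
  ⟨6, 0, (v 1), (v 0), (v 0), [2, 2], [2]⟩,
  ⟨-18, 0, (v 1), (v 0), (v 0), [2, 2], [3]⟩,
  ⟨6, 0, (v 1), (m (v 1) (v 0)), (v 0), [2, 2], []⟩,
  ⟨6, 1, (v 1), (m (v 1) (v 1)), (m (v 1) (v 0)), [], []⟩,
  ⟨12, 0, (v 1), (v 0), (v 0), [], [2, 2, 2]⟩,
  ⟨-6, 1, (v 1), (m (v 1) (v 1)), (v 0), [2], []⟩,
  ⟨-12, 2, (m (v 0) (v 1)), (v 1), (m (v 1) (v 1)), [], []⟩,
  ⟨12, 0, (v 1), (v 0), (v 0), [], [2, 3, 3]⟩,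
  ⟨-24, 0, (v 1), (v 0), (v 0), [2, 2, 2], []⟩,
  ⟨9, 0, (m (v 1) (v 1)), (m (v 1) (v 1)), (v 0), [], [0]⟩,
  ⟨-3, 0, (m (v 1) (v 1)), (m (v 1) (v 1)), (v 0), [], [1]⟩,
  ⟨-24, 0, (v 1), (v 0), (v 0), [2, 2, 3], []⟩,
  ⟨12, 0, (v 1), (m (v 1) (m (v 1) (v 1))), (v 0), [], [0]⟩,
  ⟨-12, 0, (v 1), (m (v 1) (m (v 1) (v 1))), (v 0), [], [1]⟩,
  ⟨60, 0, (v 1), (m (v 0) (v 1)), (v 0), [2, 3], []⟩,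
  ⟨-120, 0, (v 1), (v 0), (v 0), [2, 3], [2]⟩,
  ⟨-90, 0, (v 1), (v 0), (v 0), [2, 3], [3]⟩,
  ⟨66, 0, (v 1), (m (v 1) (v 0)), (v 0), [2, 3], []⟩,
  ⟨-36, 0, (v 1), (v 0), (v 0), [2, 3, 2], []⟩,
  ⟨-78, 0, (v 1), (v 0), (v 0), [2, 3, 3], []⟩,
  ⟨6, 0, (v 1), (m (v 0) (v 1)), (v 0), [3], [2]⟩,
  ⟨-12, 0, (v 1), (m (v 0) (v 1)), (v 0), [3], [3]⟩,
  ⟨-6, 0, (v 1), (v 0), (v 0), [3], [2, 2]⟩,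
  ⟨66, 0, (v 1), (v 0), (v 0), [3], [2, 3]⟩,
  ⟨60, 0, (v 1), (v 0), (v 0), [3], [3, 2]⟩,
  ⟨12, 0, (v 1), (v 0), (v 0), [3], [3, 3]⟩,
  ⟨6, 0, (v 1), (m (v 1) (v 0)), (v 0), [3], [3]⟩,
  ⟨3, 1, (v 1), (m (v 1) (v 1)), (v 0), [3], []⟩,
  ⟨-12, 2, (v 0), (v 1), (m (v 1) (v 1)), [3], []⟩,
  ⟨66, 0, (v 1), (m (v 0) (v 1)), (v 0), [3, 2], []⟩,
  ⟨-120, 0, (v 1), (v 0), (v 0), [3, 2], [2]⟩,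
  ⟨-90, 0, (v 1), (v 0), (v 0), [3, 2], [3]⟩,
  ⟨60, 0, (v 1), (m (v 1) (v 0)), (v 0), [3, 2], []⟩,
  ⟨6, 0, (v 1), (v 0), (v 0), [3, 2, 2], []⟩,
  ⟨-48, 0, (v 1), (v 0), (v 0), [3, 2, 3], []⟩,
  ⟨6, 0, (v 1), (m (v 0) (v 1)), (v 0), [3, 3], []⟩,
  ⟨-6, 0, (v 1), (v 0), (v 0), [3, 3], [2]⟩,
  ⟨-6, 0, (v 1), (v 0), (v 0), [3, 3], [3]⟩,
  ⟨18, 0, (v 1), (v 0), (v 0), [3, 3, 2], []⟩,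
  ⟨6, 0, (v 1), (v 0), (v 0), [3, 3, 3], []⟩]

def drho6 : ℤ := 1
def itrho6 : List Item := [
  ⟨3, 0, (m (v 1) (v 1)), (m (v 1) (v 1)), (v 0), [0], []⟩,
  ⟨6, 0, (v 1), (m (m (v 0) (v 1)) (v 1)), (v 0), [], [3]⟩,
  ⟨-48, 0, (v 1), (m (v 0) (v 1)), (v 0), [], [2, 3]⟩,
  ⟨-12, 0, (v 1), (m (v 0) (v 1)), (v 0), [], [3, 2]⟩,
  ⟨-6, 0, (v 1), (m (v 0) (v 1)), (v 0), [], [3, 3]⟩,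
  ⟨66, 0, (v 1), (v 0), (v 0), [], [2, 2, 3]⟩,
  ⟨60, 0, (v 1), (v 0), (v 0), [], [2, 3, 2]⟩,
  ⟨-6, 0, (v 1), (v 0), (v 0), [], [3, 2, 2]⟩,
  ⟨-6, 0, (v 1), (m (v 1) (v 0)), (v 0), [], [2, 2]⟩,
  ⟨-12, 0, (v 1), (m (v 1) (v 0)), (v 0), [], [2, 3]⟩,
  ⟨-48, 0, (v 1), (m (v 1) (v 0)), (v 0), [], [3, 2]⟩,
  ⟨18, 0, (v 1), (v 0), (v 0), [], [3, 3, 3]⟩,
  ⟨12, 0, (v 1), (v 0), (v 0), [], [3, 2, 3]⟩,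
  ⟨-9, 0, (m (v 1) (v 1)), (m (v 1) (v 1)), (v 0), [1], []⟩,
  ⟨-6, 0, (v 1), (m (v 1) (m (v 1) (v 0))), (v 0), [], [2]⟩,
  ⟨18, 0, (v 1), (v 0), (v 0), [], [3, 3, 2]⟩,
  ⟨-6, 0, (v 1), (m (m (m (v 0) (v 1)) (v 1)) (v 1)), (v 0), [], []⟩,
  ⟨6, 0, (v 1), (m (v 1) (m (v 1) (m (v 1) (v 0)))), (v 0), [], []⟩,
  ⟨-18, 2, (v 0), (v 1), (m (v 1) (v 1)), [], [3]⟩,
  ⟨-9, 1, (v 1), (m (v 1) (v 1)), (v 0), [], [2]⟩,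
  ⟨-12, 0, (v 1), (m (v 1) (m (v 1) (v 1))), (v 0), [1], []⟩,
  ⟨-18, 0, (v 1), (m (v 0) (v 1)), (v 0), [2], [2]⟩,
  ⟨12, 0, (v 1), (m (v 0) (v 1)), (v 0), [2], [3]⟩,
  ⟨12, 0, (v 1), (v 0), (v 0), [2], [2, 2]⟩,
  ⟨-6, 0, (v 1), (v 0), (v 0), [2], [2, 3]⟩,
  ⟨6, 0, (v 1), (v 0), (v 0), [2], [3, 3]⟩,
  ⟨-18, 0, (v 1), (m (v 1) (v 0)), (v 0), [2], [3]⟩,
  ⟨-6, 2, (v 0), (v 1), (m (v 1) (v 1)), [2], []⟩,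
  ⟨24, 0, (v 1), (m (v 1) (v 0)), (v 0), [2], [2]⟩,
  ⟨12, 0, (v 1), (m (v 1) (m (v 1) (v 0))), (v 0), [], [3]⟩,
  ⟨6, 1, (v 1), (m (m (v 1) (v 1)) (v 1)), (v 0), [], []⟩,
  ⟨-12, 0, (v 1), (m (m (v 0) (v 1)) (v 1)), (v 0), [2], []⟩,
  ⟨-6, 0, (v 1), (m (v 1) (v 0)), (v 0), [2, 2], []⟩,
  ⟨-18, 0, (v 1), (v 0), (v 0), [2, 2], [2]⟩,
  ⟨6, 0, (v 1), (v 0), (v 0), [2, 2], [3]⟩,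
  ⟨-6, 4, (v 0), (v 1), (m (v 1) (m (v 1) (v 1))), [], []⟩,
  ⟨-12, 0, (v 1), (v 0), (v 0), [2, 2, 2], []⟩,
  ⟨3, 0, (m (v 1) (v 1)), (m (v 1) (v 1)), (v 0), [], [0]⟩,
  ⟨9, 0, (m (v 1) (v 1)), (m (v 1) (v 1)), (v 0), [], [1]⟩,
  ⟨-12, 0, (v 1), (v 0), (v 0), [2, 2, 3], []⟩,
  ⟨-6, 0, (v 1), (m (v 1) (m (v 1) (v 1))), (v 0), [], [0]⟩,
  ⟨6, 0, (v 1), (m (v 1) (m (v 1) (v 1))), (v 0), [], [1]⟩,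
  ⟨24, 0, (v 1), (m (v 0) (v 1)), (v 0), [2, 3], []⟩,
  ⟨-60, 0, (v 1), (v 0), (v 0), [2, 3], [2]⟩,
  ⟨-54, 0, (v 1), (v 0), (v 0), [2, 3], [3]⟩,
  ⟨18, 0, (v 1), (m (v 1) (v 0)), (v 0), [2, 3], []⟩,
  ⟨-12, 0, (v 1), (v 0), (v 0), [2, 3, 2], []⟩,
  ⟨-54, 0, (v 1), (v 0), (v 0), [2, 3, 3], []⟩,
  ⟨-12, 0, (v 1), (m (m (v 0) (v 1)) (v 1)), (v 0), [], [2]⟩,
  ⟨12, 0, (v 1), (m (v 1) (m (v 1) (v 1))), (v 0), [0], []⟩,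
  ⟨24, 0, (v 1), (v 0), (v 0), [], [2, 2, 2]⟩,
  ⟨-18, 0, (v 1), (m (v 0) (v 1)), (v 0), [3], [2]⟩,
  ⟨24, 0, (v 1), (m (v 0) (v 1)), (v 0), [3], [3]⟩,
  ⟨6, 0, (v 1), (v 0), (v 0), [3], [2, 2]⟩,
  ⟨18, 0, (v 1), (v 0), (v 0), [3], [2, 3]⟩,
  ⟨12, 0, (v 1), (v 0), (v 0), [3], [3, 2]⟩,
  ⟨12, 0, (v 1), (m (v 1) (v 0)), (v 0), [3], [2]⟩,
  ⟨-18, 0, (v 1), (m (v 1) (v 0)), (v 0), [3], [3]⟩,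
  ⟨-3, 1, (v 1), (m (v 1) (v 1)), (v 0), [3], []⟩,
  ⟨12, 0, (v 1), (v 0), (v 0), [3], [3, 3]⟩,
  ⟨12, 0, (v 1), (m (v 1) (m (v 1) (v 0))), (v 0), [3], []⟩,
  ⟨18, 0, (v 1), (m (v 0) (v 1)), (v 0), [3, 2], []⟩,
  ⟨-72, 0, (v 1), (v 0), (v 0), [3, 2], [2]⟩,
  ⟨-42, 0, (v 1), (v 0), (v 0), [3, 2], [3]⟩,
  ⟨24, 0, (v 1), (m (v 1) (v 0)), (v 0), [3, 2], []⟩,
  ⟨-6, 0, (v 1), (v 0), (v 0), [3, 2, 2], []⟩,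
  ⟨-60, 0, (v 1), (v 0), (v 0), [3, 2, 3], []⟩,
  ⟨-6, 0, (v 1), (m (v 0) (v 1)), (v 0), [3, 3], []⟩,
  ⟨6, 0, (v 1), (v 0), (v 0), [3, 3], [2]⟩,
  ⟨-18, 0, (v 1), (v 0), (v 0), [3, 3], [3]⟩,
  ⟨-6, 0, (v 1), (v 0), (v 0), [3, 3, 2], []⟩,
  ⟨-18, 0, (v 1), (v 0), (v 0), [3, 3, 3], []⟩]

def drho7 : ℤ := 1
def itrho7 : List Item := [
  ⟨-12, 0, (v 1), (m (v 1) (m (v 1) (v 1))), (v 0), [0], []⟩,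
  ⟨-6, 0, (v 1), (m (m (v 0) (v 1)) (v 1)), (v 0), [], [3]⟩,
  ⟨12, 0, (v 1), (m (v 0) (v 1)), (v 0), [], [2, 2]⟩,
  ⟨-12, 0, (v 1), (v 0), (v 0), [], [2, 2, 2]⟩,
  ⟨-6, 0, (v 1), (v 0), (v 0), [], [3, 2, 2]⟩,
  ⟨-6, 0, (v 1), (v 0), (v 0), [], [3, 3, 2]⟩,
  ⟨6, 0, (v 1), (m (v 1) (v 0)), (v 0), [], [2, 2]⟩,
  ⟨12, 0, (v 1), (m (v 1) (v 0)), (v 0), [], [3, 3]⟩,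
  ⟨-6, 0, (v 1), (v 0), (v 0), [], [3, 3, 3]⟩,
  ⟨12, 0, (v 1), (v 0), (v 0), [], [2, 3, 2]⟩,
  ⟨6, 0, (v 1), (m (v 0) (v 1)), (v 0), [], [3, 3]⟩,
  ⟨12, 0, (v 1), (m (v 1) (m (v 1) (v 1))), (v 0), [1], []⟩,
  ⟨6, 0, (v 1), (m (v 1) (m (v 1) (v 0))), (v 0), [], [2]⟩,
  ⟨-12, 0, (v 1), (v 0), (v 0), [], [3, 2, 3]⟩,
  ⟨3, 0, (m (v 1) (v 1)), (m (v 1) (v 1)), (v 0), [1], []⟩,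
  ⟨18, 0, (v 1), (v 0), (v 0), [], [2, 2, 3]⟩,
  ⟨6, 0, (v 1), (m (m (m (v 0) (v 1)) (v 1)) (v 1)), (v 0), [], []⟩,
  ⟨-9, 0, (m (v 1) (v 1)), (m (v 1) (v 1)), (v 0), [0], []⟩,
  ⟨-6, 0, (v 1), (m (v 1) (m (v 1) (m (v 1) (v 0)))), (v 0), [], []⟩,
  ⟨6, 2, (v 0), (v 1), (m (v 1) (v 1)), [], [3]⟩,
  ⟨3, 1, (v 1), (m (v 1) (v 1)), (v 0), [], [2]⟩,
  ⟨6, 0, (v 1), (m (v 0) (v 1)), (v 0), [2], [2]⟩,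
  ⟨12, 0, (v 1), (m (v 0) (v 1)), (v 0), [2], [3]⟩,
  ⟨12, 0, (v 1), (v 0), (v 0), [2], [2, 2]⟩,
  ⟨-18, 0, (v 1), (v 0), (v 0), [2], [2, 3]⟩,
  ⟨-6, 0, (v 1), (v 0), (v 0), [2], [3, 3]⟩,
  ⟨-6, 0, (v 1), (m (v 1) (v 0)), (v 0), [2], [3]⟩,
  ⟨18, 2, (v 0), (v 1), (m (v 1) (v 1)), [2], []⟩,
  ⟨12, 0, (v 1), (m (v 1) (m (v 1) (v 0))), (v 0), [], [3]⟩,
  ⟨6, 1, (v 1), (m (m (v 1) (v 1)) (v 1)), (v 0), [], []⟩,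
  ⟨-12, 0, (v 1), (m (m (v 0) (v 1)) (v 1)), (v 0), [2], []⟩,
  ⟨-12, 0, (v 1), (m (v 0) (v 1)), (v 0), [2, 2], []⟩,
  ⟨18, 0, (v 1), (v 0), (v 0), [2, 2], [2]⟩,
  ⟨6, 0, (v 1), (v 0), (v 0), [2, 2], [3]⟩,
  ⟨6, 0, (v 1), (m (v 1) (v 0)), (v 0), [2, 2], []⟩,
  ⟨-6, 1, (v 1), (m (v 1) (v 1)), (m (v 1) (v 0)), [], []⟩,
  ⟨6, 1, (v 1), (m (v 1) (v 1)), (v 0), [], [3]⟩,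
  ⟨-12, 0, (v 1), (m (v 1) (v 0)), (v 0), [2], [2]⟩,
  ⟨-6, 4, (v 0), (v 1), (m (v 1) (m (v 1) (v 1))), [], []⟩,
  ⟨12, 2, (m (v 0) (v 1)), (v 1), (m (v 1) (v 1)), [], []⟩,
  ⟨12, 2, (v 0), (v 1), (m (v 1) (v 1)), [], [2]⟩,
  ⟨-9, 0, (m (v 1) (v 1)), (m (v 1) (v 1)), (v 0), [], [0]⟩,
  ⟨-3, 0, (m (v 1) (v 1)), (m (v 1) (v 1)), (v 0), [], [1]⟩,
  ⟨12, 0, (v 1), (v 0), (v 0), [2, 2, 3], []⟩,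
  ⟨-6, 0, (v 1), (m (v 1) (m (v 1) (v 1))), (v 0), [], [0]⟩,
  ⟨6, 0, (v 1), (m (v 1) (m (v 1) (v 1))), (v 0), [], [1]⟩,
  ⟨-12, 0, (v 1), (v 0), (v 0), [2, 3], [2]⟩,
  ⟨-6, 0, (v 1), (v 0), (v 0), [2, 3], [3]⟩,
  ⟨18, 0, (v 1), (m (v 1) (v 0)), (v 0), [2, 3], []⟩,
  ⟨12, 0, (v 1), (v 0), (v 0), [2, 3, 2], []⟩,
  ⟨-6, 0, (v 1), (v 0), (v 0), [2, 3, 3], []⟩,
  ⟨-12, 0, (v 1), (m (m (v 0) (v 1)) (v 1)), (v 0), [], [2]⟩,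
  ⟨-12, 0, (v 1), (v 0), (v 0), [], [2, 3, 3]⟩,
  ⟨-6, 0, (v 1), (m (v 0) (v 1)), (v 0), [3], [2]⟩,
  ⟨-12, 0, (v 1), (m (v 0) (v 1)), (v 0), [3], [3]⟩,
  ⟨-6, 0, (v 1), (v 0), (v 0), [3], [2, 2]⟩,
  ⟨12, 0, (v 1), (m (v 1) (v 0)), (v 0), [3], [2]⟩,
  ⟨6, 0, (v 1), (m (v 1) (v 0)), (v 0), [3], [3]⟩,
  ⟨9, 1, (v 1), (m (v 1) (v 1)), (v 0), [3], []⟩,
  ⟨18, 0, (v 1), (v 0), (v 0), [3], [2, 3]⟩,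
  ⟨12, 0, (v 1), (v 0), (v 0), [3], [3, 3]⟩,
  ⟨12, 0, (v 1), (m (v 1) (m (v 1) (v 0))), (v 0), [3], []⟩,
  ⟨18, 0, (v 1), (m (v 0) (v 1)), (v 0), [3, 2], []⟩,
  ⟨-24, 0, (v 1), (v 0), (v 0), [3, 2], [2]⟩,
  ⟨6, 0, (v 1), (v 0), (v 0), [3, 2], [3]⟩,
  ⟨18, 0, (v 1), (v 0), (v 0), [3, 2, 2], []⟩,
  ⟨-12, 0, (v 1), (v 0), (v 0), [3, 2, 3], []⟩,
  ⟨6, 0, (v 1), (m (v 0) (v 1)), (v 0), [3, 3], []⟩,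
  ⟨6, 0, (v 1), (v 0), (v 0), [3, 3], [2]⟩,
  ⟨18, 0, (v 1), (v 0), (v 0), [3, 3], [3]⟩,
  ⟨-12, 0, (v 1), (m (v 1) (v 0)), (v 0), [3, 3], []⟩,
  ⟨6, 0, (v 1), (v 0), (v 0), [3, 3, 2], []⟩,
  ⟨6, 0, (v 1), (v 0), (v 0), [3, 3, 3], []⟩]

def dI1 : ℤ := 1
def itI1 : List Item := [
  ⟨-3, 0, (v 2), (v 1), (v 0), [], []⟩]

def dII1 : ℤ := 1
def itII1 : List Item := [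
  ⟨6, 0, (v 2), (v 1), (v 0), [2], []⟩,
  ⟨-6, 0, (v 1), (m (v 1) (v 2)), (v 0), [], []⟩,
  ⟨6, 0, (v 2), (v 1), (v 0), [], [3]⟩,
  ⟨-6, 0, (v 2), (v 1), (v 0), [3], []⟩]

def ddD1 : ℤ := 1
def itdD1 : List Item := [
  ⟨1, 0, (v 2), (v 1), (v 0), [], []⟩]

def ddE1 : ℤ := 1
def itdE1 : List Item := [
  ⟨1, 0, (v 2), (m (v 1) (v 1)), (v 0), [], []⟩]

def ddC1 : ℤ := 1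
def itdC1 : List Item := [
  ⟨1, 0, (v 2), (v 0), (v 0), [], []⟩]

def ddT1 : ℤ := 1
def itdT1 : List Item := [
  ⟨3, 4, (v 0), (v 2), (v 1), [], []⟩,
  ⟨-3, 0, (v 2), (v 1), (v 0), [1], []⟩,
  ⟨-6, 0, (v 2), (v 0), (v 0), [], [2]⟩,
  ⟨3, 0, (v 2), (v 1), (v 0), [], [1]⟩,
  ⟨-6, 0, (v 2), (v 0), (v 0), [3], []⟩]

end Pool.Agent.N33.SA
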