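import Pool.Agent.N33.SA.Ops
set_option autoImplicit false

/-! Sums of expressions `(u W) ∘ (a w)` with `W`, `w` words in the operators `D, E, C, T`, stored with reduced words. -/

noncomputable section
namespace Pool.Agent.N33.SA
open Pool.Agent.N33.Tor

/-- sparse vectors, sorted by the index -/
inductive V : Type
  | nil : V
  | cons (j : ℕ) (c : ℤ) (r : V) : V

namespace V
/-! The functions are written with recursors, which makes their evaluation in the kernel faster. -/

def app (p q : V) : V := @V.rec (fun _ => V) q (fun j c _ ih => cons j c ih) p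

lemma app_nil (q : V) : app nil q = q := rfl
lemma app_cons (j : ℕ) (c : ℤ) (r q : V) : app (cons j c r) q = cons j c (app r q) := rfl

/-- `cons j c r`, but `r` if `c = 0` -/
def addc (j : ℕ) (c : ℤ) (r : V) : V :=
  @Int.rec (fun _ => V) (fun n => @Nat.rec (fun _ => V) r (fun m _ => cons j (Int.ofNat (Nat.succ m)) r) n)
    (fun n => @Nat.rec (fun _ => V) (cons j (Int.negSucc 0) r) (fun m _ => cons j (Int.negSucc (Nat.succ m)) r) n) c

def add (n : ℕ) : V → V → V :=
  @Nat.rec (fun _ => V → V → V) app
    (fun _ ih p q => @V.rec (fun _ => V) q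
      (fun j c r _ => @V.rec (fun _ => V) p
        (fun k d s _ => @Bool.rec (fun _ => V)
          (@Bool.rec (fun _ => V) (cons k d (ih p s)) (cons j c (ih r q)) (Nat.ble j k))
          (addc j (Int.add c d) (ih r s)) (Nat.beq j k)) q) p) n

lemma add_zero' (p q : V) : add 0 p q = app p q := rfl
lemma add_nil (n : ℕ) (q : V) : add (n + 1) nil q = q := rfl
lemma add_nil' (n : ℕ) (j : ℕ) (c : ℤ) (r : V) : add (n + 1) (cons j c r) nil = cons j c r := rfl
lemma add_cons (n : ℕ) (j : ℕ) (c : ℤ) (r : V) (k : ℕ) (d : ℤ) (s : V) :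
    add (n + 1) (cons j c r) (cons k d s) = cond (Nat.beq j k) (addc j (c + d) (add n r s))
        (cond (Nat.ble j k) (cons j c (add n r (cons k d s))) (cons k d (add n (cons j c r) s))) := by
  show @Bool.rec (fun _ => V) _ _ (Nat.beq j k) = _
  cases Nat.beq j k with
  | true => rfl
  | false =>
    show @Bool.rec (fun _ => V) _ _ (Nat.ble j k) = _
    cases Nat.ble j k <;> rfl

def smul (k : ℤ) (p : V) : V := @V.rec (fun _ => V) nil (fun j c _ ih => cons j (Int.mul k c) ih) p

lemma smul_nil (k : ℤ) : smul k nil = nil := rfl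
lemma smul_cons (k : ℤ) (j : ℕ) (c : ℤ) (r : V) : smul k (cons j c r) = cons j (k * c) (smul k r) := rfl

/-- change the signs of the entries of odd index -/
def tw (p : V) : V :=
  @V.rec (fun _ => V) nil (fun j c _ ih => cons j (@Bool.rec (fun _ => ℤ) c (Int.neg c) (Nat.beq (Nat.mod j 2) 1)) ih) p

lemma tw_nil : tw nil = nil := rfl
lemma tw_cons (j : ℕ) (c : ℤ) (r : V) : tw (cons j c r) = cons j (cond (Nat.beq (j % 2) 1) (-c) c) (tw r) := by
  show cons j (@Bool.rec (fun _ => ℤ) c (Int.neg c) (Nat.beq (j % 2) 1)) (tw r) = _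
  cases Nat.beq (j % 2) 1 <;> rfl

section
variable {M : Type} [AddCommGroup M] (f : ℕ → M)

def ev : V → M
  | nil => 0
  | cons j c r => c • f j + ev r

lemma ev_app (p q : V) : ev f (app p q) = ev f p + ev f q := by
  induction p with
  | nil => simp [app_nil, ev]
  | cons j c r ih => simp only [app_cons, ev, ih, add_assoc]

lemma ev_addc (j : ℕ) (c : ℤ) (r : V) : ev f (addc j c r) = c • f j + ev f r := by
  cases c with
  | ofNat n =>
    cases n with
    | zero =>
      show ev f r = (0 : ℤ) • f j + ev f r
      rw [zero_smul, zero_add]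
    | succ m => rfl
  | negSucc n =>
    cases n with
    | zero => rfl
    | succ m => rfl

lemma ev_add (n : ℕ) (p q : V) : ev f (add n p q) = ev f p + ev f q := by
  induction n generalizing p q with
  | zero => exact ev_app f p q
  | succ n ih =>
    cases p with
    | nil => simp [add_nil, ev]
    | cons j c r =>
      cases q with
      | nil => simp [add_nil', ev]
      | cons k d s =>
        rw [add_cons]
        cases h : Nat.beq j k with
        | true =>
          have hjk : j = k := Nat.eq_of_beq_eq_true h
          subst hjk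
          simp only [cond_true, ev_addc, ih, ev, add_smul]; abel
        | false =>
          simp only [cond_false]
          cases Nat.ble j k with
          | true => simp only [cond_true, ev, ih]; abel
          | false => simp only [cond_false, ev, ih]; abel

lemma ev_smul (k : ℤ) (p : V) : ev f (smul k p) = k • ev f p := by
  induction p with
  | nil => simp [smul_nil, ev]
  | cons j c r ih => simp only [smul_cons, ev, ih, smul_add, mul_smul]

lemma ev_congr (g : ℕ → M) (p : V) (h : ∀ j, f j = g j) : ev f p = ev g p := by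
  have : f = g := funext h
  rw [this]

lemma ev_tw (p : V) : ev f (tw p) = ev (fun j => (cond (Nat.beq (j % 2) 1) (-1) 1 : ℤ) • f j) p := by
  induction p with
  | nil => rfl
  | cons j c r ih =>
    simp only [tw_cons, ev, ih, ← mul_smul]
    cases Nat.beq (j % 2) 1 <;> simp

lemma ev_map {N : Type} [AddCommGroup N] (g : M →+ N) (p : V) : g (ev f p) = ev (fun j => g (f j)) p := by
  induction p with
  | nil => simp [ev]
  | cons j c r ih => simp only [ev, map_add, map_zsmul, ih]
end
end V

/-- sparse matrices -/
inductive Q : Type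
  | nil : Q
  | cons (i : ℕ) (s : V) (r : Q) : Q

namespace Q
def app (p q : Q) : Q := @Q.rec (fun _ => Q) q (fun j c _ ih => cons j c ih) p

lemma app_nil (q : Q) : app nil q = q := rfl
lemma app_cons (j : ℕ) (c : V) (r q : Q) : app (cons j c r) q = cons j c (app r q) := rfl

/-- `cons i s r`, but `r` if `s` is empty -/
def consN (i : ℕ) (s : V) (r : Q) : Q := @V.rec (fun _ => Q) r (fun j c t _ => cons i (V.cons j c t) r) s

def add (n : ℕ) : Q → Q → Q :=
  @Nat.rec (fun _ => Q → Q → Q) app
    (fun _ ih p q => @Q.rec (fun _ => Q) q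
      (fun j c r _ => @Q.rec (fun _ => Q) p
        (fun k d s _ => @Bool.rec (fun _ => Q)
          (@Bool.rec (fun _ => Q) (cons k d (ih p s)) (cons j c (ih r q)) (Nat.ble j k))
          (consN j (V.add 999 c d) (ih r s)) (Nat.beq j k)) q) p) n

lemma add_nil (n : ℕ) (q : Q) : add (n + 1) nil q = q := rfl
lemma add_nil' (n : ℕ) (j : ℕ) (c : V) (r : Q) : add (n + 1) (cons j c r) nil = cons j c r := rfl
lemma add_cons (n : ℕ) (j : ℕ) (c : V) (r : Q) (k : ℕ) (d : V) (s : Q) :
    add (n + 1) (cons j c r) (cons k d s) = cond (Nat.beq j k) (consN j (V.add 999 c d) (add n r s))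
        (cond (Nat.ble j k) (cons j c (add n r (cons k d s))) (cons k d (add n (cons j c r) s))) := by
  show @Bool.rec (fun _ => Q) _ _ (Nat.beq j k) = _
  cases Nat.beq j k with
  | true => rfl
  | false =>
    show @Bool.rec (fun _ => Q) _ _ (Nat.ble j k) = _
    cases Nat.ble j k <;> rfl

def smul (k : ℤ) (p : Q) : Q := @Q.rec (fun _ => Q) nil (fun i s _ ih => cons i (V.smul k s) ih) p

lemma smul_nil (k : ℤ) : smul k nil = nil := rfl
lemma smul_cons (k : ℤ) (i : ℕ) (s : V) (r : Q) : smul k (cons i s r) = cons i (V.smul k s) (smul k r) := rfl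

def mulL (v s : V) : Q := @V.rec (fun _ => Q) nil (fun k c _ ih => cons k (V.smul c s) ih) v

lemma mulL_nil (s : V) : mulL V.nil s = nil := rfl
lemma mulL_cons (k : ℕ) (c : ℤ) (r s : V) : mulL (V.cons k c r) s = cons k (V.smul c s) (mulL r s) := rfl

def isZ : Q → Bool
  | nil => true
  | cons _ V.nil r => isZ r
  | cons _ (V.cons _ _ _) _ => false

section
variable {M : Type} [AddCommGroup M] (f : ℕ → ℕ → M)

def ev : Q → M
  | nil => 0
  | cons i s r => V.ev (f i) s + ev r

lemma ev_app (p q : Q) : ev f (app p q) = ev f p + ev f q := by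
  induction p with
  | nil => simp [app_nil, ev]
  | cons j c r ih => simp only [app_cons, ev, ih, add_assoc]

lemma ev_consN (i : ℕ) (s : V) (r : Q) : ev f (consN i s r) = V.ev (f i) s + ev f r := by
  cases s with
  | nil =>
    show ev f r = 0 + ev f r
    rw [zero_add]
  | cons j c t => rfl

lemma ev_add (n : ℕ) (p q : Q) : ev f (add n p q) = ev f p + ev f q := by
  induction n generalizing p q with
  | zero => exact ev_app f p q
  | succ n ih =>
    cases p with
    | nil => simp [add_nil, ev]
    | cons j c r =>
      cases q with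
      | nil => simp [add_nil', ev]
      | cons k d s =>
        rw [add_cons]
        cases h : Nat.beq j k with
        | true =>
          have hjk : j = k := Nat.eq_of_beq_eq_true h
          subst hjk
          simp only [cond_true, ev_consN, V.ev_add, ih, ev]; abel
        | false =>
          simp only [cond_false]
          cases Nat.ble j k with
          | true => simp only [cond_true, ev, ih]; abel
          | false => simp only [cond_false, ev, ih]; abel

lemma ev_smul (k : ℤ) (p : Q) : ev f (smul k p) = k • ev f p := by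
  induction p with
  | nil => simp [smul_nil, ev]
  | cons j c r ih => simp only [smul_cons, ev, ih, smul_add, V.ev_smul]

lemma ev_mulL (v s : V) : ev f (mulL v s) = V.ev (fun i => V.ev (f i) s) v := by
  induction v with
  | nil => rfl
  | cons k c r ih => simp only [mulL_cons, ev, ih, V.ev_smul, V.ev]

lemma ev_isZ (p : Q) (h : isZ p = true) : ev f p = 0 := by
  induction p with
  | nil => rfl
  | cons i s r ih =>
    cases s with
    | nil => simp only [isZ] at h; simp [ev, V.ev, ih h]
    | cons _ _ _ => simp [isZ] at h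
end
end Q

/-! words and their codes -/

/-- parity of a letter -/
def oddL (X : ℕ) : Bool := Nat.beq X 0 || Nat.ble 3 X

/-- parity of a word -/
def pw : List ℕ → Bool
  | [] => false
  | X :: l => xor (oddL X) (pw l)

lemma pw_append (l m : List ℕ) : pw (l ++ m) = xor (pw l) (pw m) := by
  induction l with
  | nil => simp [pw]
  | cons X l ih => simp [pw, ih]

def dm : ℕ → ℕ → List ℕ
  | 0, _ => []
  | f + 1, m => cond (Nat.beq m 0) [] (dm f ((m - 1) / 4) ++ [(m - 1) % 4])

/-- the word of a code -/
def dw (k : ℕ) : List ℕ := dm (k / 2) (k / 2)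

/-- the code is coherent: its last bit is the parity of the word -/
def wf (k : ℕ) : Bool := Nat.beq (k % 2) (cond (pw (dw k)) 1 0)

/-- the code of the word extended by a letter -/
def nxt (k X : ℕ) : ℕ :=
  Nat.add (Nat.mul 2 (Nat.succ (Nat.add (Nat.mul 4 (Nat.div k 2)) X)))
    (Nat.mod (Nat.add k (@Bool.rec (fun _ => ℕ) 0 1 (oddL X))) 2)

lemma nxt_eq (k X : ℕ) : nxt k X = 2 * (4 * (k / 2) + X + 1) + (k + cond (oddL X) 1 0) % 2 := by
  show 2 * (4 * (k / 2) + X + 1) + (k + @Bool.rec (fun _ => ℕ) 0 1 (oddL X)) % 2 = _
  cases oddL X <;> rfl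

lemma dm_stable : ∀ m f, m ≤ f → dm f m = dm m m := by
  intro m
  induction m using Nat.strong_induction_on with
  | _ m ih =>
    intro f hf
    rcases Nat.eq_zero_or_pos m with rfl | hm
    · cases f with
      | zero => rfl
      | succ f => rfl
    · obtain ⟨m', rfl⟩ : ∃ m', m = m' + 1 := ⟨m - 1, by omega⟩
      obtain ⟨f', rfl⟩ : ∃ f', f = f' + 1 := ⟨f - 1, by omega⟩
      have hb : Nat.beq (m' + 1) 0 = false := rfl
      simp only [dm, hb, cond_false, Nat.add_sub_cancel]
      rw [ih (m' / 4) (by omega) f' (by omega), ih (m' / 4) (by omega) m' (by omega)]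

lemma dw_nxt (k X : ℕ) (hX : X < 4) : dw (nxt k X) = dw k ++ [X] := by
  unfold dw
  have h1 : nxt k X / 2 = 4 * (k / 2) + X + 1 := by rw [nxt_eq]; omega
  rw [h1]
  have hb : Nat.beq (4 * (k / 2) + X + 1) 0 = false := rfl
  have h2 : (4 * (k / 2) + X) / 4 = k / 2 := by omega
  have h3 : (4 * (k / 2) + X) % 4 = X := by omega
  simp only [dm, hb, cond_false, Nat.add_sub_cancel, h2, h3]
  rw [dm_stable (k / 2) (4 * (k / 2) + X) (by omega)]

lemma wf_nxt (k X : ℕ) (hX : X < 4) : wf (nxt k X) = wf k := by
  unfold wf
  rw [dw_nxt k X hX, pw_append]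
  have h1 : nxt k X % 2 = (k + cond (oddL X) 1 0) % 2 := by rw [nxt_eq]; omega
  rw [h1]
  have h2 : pw [X] = oddL X := by simp [pw]
  rw [h2]
  have h3 : k % 2 = 0 ∨ k % 2 = 1 := by omega
  rcases h3 with h3 | h3 <;> cases oddL X <;> cases pw (dw k) <;> simp [h3, Nat.add_mod] <;> rfl

/-- search trees: key, value for the left words, value for the right words, number of the relation -/
inductive Tr : Type
  | leaf : Tr
  | node (l : Tr) (key : ℕ) (vb va : V) (k : ℕ) (r : Tr) : Tr

namespace Tr
def lookB (t : Tr) (key : ℕ) (d : V) : V :=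
  @Tr.rec (fun _ => V) d (fun _ k vb _ _ _ ihl ihr =>
    @Bool.rec (fun _ => V) (@Bool.rec (fun _ => V) ihr ihl (Nat.ble key k)) vb (Nat.beq key k)) t

def lookA (t : Tr) (key : ℕ) (d : V) : V :=
  @Tr.rec (fun _ => V) d (fun _ k _ va _ _ ihl ihr =>
    @Bool.rec (fun _ => V) (@Bool.rec (fun _ => V) ihr ihl (Nat.ble key k)) va (Nat.beq key k)) t

lemma lookB_node (l : Tr) (k : ℕ) (vb va : V) (kk : ℕ) (r : Tr) (key : ℕ) (d : V) : lookB (node l k vb va kk r) key d =
    cond (Nat.beq key k) vb (cond (Nat.ble key k) (lookB l key d) (lookB r key d)) := by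
  show @Bool.rec (fun _ => V) _ _ (Nat.beq key k) = _
  cases Nat.beq key k with
  | true => rfl
  | false =>
    show @Bool.rec (fun _ => V) _ _ (Nat.ble key k) = _
    cases Nat.ble key k <;> rfl

lemma lookA_node (l : Tr) (k : ℕ) (vb va : V) (kk : ℕ) (r : Tr) (key : ℕ) (d : V) : lookA (node l k vb va kk r) key d =
    cond (Nat.beq key k) va (cond (Nat.ble key k) (lookA l key d) (lookA r key d)) := by
  show @Bool.rec (fun _ => V) _ _ (Nat.beq key k) = _
  cases Nat.beq key k with
  | true => rfl
  | false =>
    show @Bool.rec (fun _ => V) _ _ (Nat.ble key k) = _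
    cases Nat.ble key k <;> rfl

def all (f : ℕ → V → V → ℕ → Bool) : Tr → Bool
  | leaf => true
  | node l k vb va kk r => f k vb va kk && (all f l && all f r)

lemma lookB_cases (f : ℕ → V → V → ℕ → Bool) (t : Tr) (h : t.all f = true) (key : ℕ) (d : V) :
    lookB t key d = d ∨ ∃ va k, f key (lookB t key d) va k = true := by
  induction t with
  | leaf => left; rfl
  | node l k vb va kk r ihl ihr =>
    simp only [all, Bool.and_eq_true] at h
    rw [lookB_node]
    cases hb : Nat.beq key k with
    | true =>
      have : key = k := Nat.eq_of_beq_eq_true hb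
      subst this
      right; exact ⟨va, kk, by simpa using h.1⟩
    | false =>
      simp only [cond_false]
      cases Nat.ble key k with
      | true => exact ihl h.2.1
      | false => exact ihr h.2.2

lemma lookA_cases (f : ℕ → V → V → ℕ → Bool) (t : Tr) (h : t.all f = true) (key : ℕ) (d : V) :
    lookA t key d = d ∨ ∃ vb k, f key vb (lookA t key d) k = true := by
  induction t with
  | leaf => left; rfl
  | node l k vb va kk r ihl ihr =>
    simp only [all, Bool.and_eq_true] at h
    rw [lookA_node]
    cases hb : Nat.beq key k with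
    | true =>
      have : key = k := Nat.eq_of_beq_eq_true hb
      subst this
      right; exact ⟨vb, kk, by simpa using h.1⟩
    | false =>
      simp only [cond_false]
      cases Nat.ble key k with
      | true => exact ihl h.2.1
      | false => exact ihr h.2.2
end Tr

/-- the polynomial of a vector of codes -/
def ofV : V → P
  | V.nil => P.nil
  | V.cons k c r => P.add 99 (P.smul c (wP (dw k))) (ofV r)

/-- the codes in the vector are coherent, of nonempty words of parity `p` -/
def okV (p : Bool) : V → Bool
  | V.nil => true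
  | V.cons k _ r => (wf k && (Bool.not (dw k).isEmpty && Nat.beq (cond (pw (dw k)) 1 0) (cond p 1 0))) && okV p r

/-- all words of nonzero coefficient begin with the letters `C`, `T` -/
def zs : P → Bool
  | P.nil => true
  | P.cons x c s r => (Nat.beq x 2 || (Nat.beq x 3 || (decide (c = 0) && isZ s))) && zs r

/-- the test for the entries of a table, with `R` the list of relations -/
def okN (R : List (List (ℤ × List ℕ))) (key : ℕ) (vb va : V) (k : ℕ) : Bool :=
  let w := dw (key / 4) ++ [key % 4]
  let r := P.smul (-1) (ofL (R.getD k []))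
  let w0 := P.add 99 (wP w) r
  (isZ (P.add 99 w0 (P.smul (-1) (ofV vb))) && zs (P.add 99 w0 (P.smul (-1) (ofV va)))) &&
  ((okV (pw w) vb && okV (pw w) va) && wf (key / 4))

lemma wP_ev {M : Type} [AddCommGroup M] (op : ℕ → M →+ M) (w : List ℕ) (h : w ≠ []) (u : M) :
    P.ev op (wP w) u = P.evw op w u := by
  cases w with
  | nil => exact absurd rfl h
  | cons x l => exact P.ev_word op x l u

lemma evw_append {M : Type} [AddCommGroup M] (op : ℕ → M →+ M) (l m : List ℕ) (u : M) :
    P.evw op (l ++ m) u = P.evw op m (P.evw op l u) := by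
  induction l generalizing u with
  | nil => rfl
  | cons x l ih => exact ih _

/-- the action of a word as a homomorphism -/
def hw {M : Type} [AddCommGroup M] (op : ℕ → M →+ M) : List ℕ → M →+ M
  | [] => AddMonoidHom.id M
  | x :: l => (hw op l).comp (op x)

lemma hw_apply {M : Type} [AddCommGroup M] (op : ℕ → M →+ M) (l : List ℕ) (u : M) : hw op l u = P.evw op l u := by
  induction l generalizing u with
  | nil => rfl
  | cons x l ih => exact ih _

lemma ofV_ev {M : Type} [AddCommGroup M] (op : ℕ → M →+ M) (p : Bool) (v : V) (h : okV p v = true) (u : M) :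
    P.ev op (ofV v) u = V.ev (fun k => P.evw op (dw k) u) v := by
  induction v with
  | nil => rfl
  | cons k c r ih =>
    simp only [okV, Bool.and_eq_true] at h
    have hne : dw k ≠ [] := by
      intro h0; have := h.1.2.1; rw [h0] at this; simp at this
    simp only [ofV, P.ev_add, P.ev_smul, V.ev, wP_ev op _ hne, ih h.2]

end Pool.Agent.N33.SA
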