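import Pool.Agent.N33.SA.Bil
set_option autoImplicit false

/-! Soundness of the computation with expressions `(u W) ∘ (a w)`. -/

noncomputable section
namespace Pool.Agent.N33.SA
open Pool.Agent.N33.Tor

structure Row : Type where
  c : ℤ
  pr : List ℕ
  k : ℕ
  sf : List ℕ

structure Step : Type where
  t : List (ℤ × List ℕ)
  d : ℤ
  rows : List Row

def rowsum (R : List P) : List Row → P
  | [] => P.nil
  | r :: l => P.add 99 (P.smul r.c (P.pre r.pr (P.suf (R.getD r.k P.nil) r.sf))) (rowsum R l)

/-- each step is a consequence of the relations in `R` (newest first) -/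
def chain : List P → List Step → Bool
  | _, [] => true
  | R, s :: l => (Bool.not (decide (s.d = 0)) && isZ (P.add 99 (P.smul (-s.d) (ofL s.t)) (rowsum R s.rows))) &&
      chain (ofL s.t :: R) l

section chain
variable {M : Type} [AddCommGroup M] (op : ℕ → M →+ M) (tf : ∀ (k : ℤ) (u : M), k ≠ 0 → k • u = 0 → u = 0)

lemma getD_valid (R : List P) (hR : ∀ p ∈ R, ∀ u, P.ev op p u = 0) (k : ℕ) (u : M) :
    P.ev op (R.getD k P.nil) u = 0 := by
  rw [List.getD_eq_getElem?_getD]
  cases h : R[k]? with
  | none => rfl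
  | some p => exact hR p (List.mem_of_getElem? h) u

lemma rowsum_valid (R : List P) (hR : ∀ p ∈ R, ∀ u, P.ev op p u = 0) (l : List Row) (u : M) :
    P.ev op (rowsum R l) u = 0 := by
  induction l with
  | nil => rfl
  | cons r l ih =>
    simp only [rowsum, P.ev_add, P.ev_smul, P.ev_pre, P.ev_suf, ih, add_zero, getD_valid op R hR, P.evw_vzero,
      smul_zero]

include tf in
lemma chain_sound (l : List Step) : ∀ (R : List P), (∀ p ∈ R, ∀ u, P.ev op p u = 0) → chain R l = true →
    ∀ s ∈ l, ∀ u, P.ev op (ofL s.t) u = 0 := by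
  induction l with
  | nil => intro R _ _ s hs; simp at hs
  | cons s l ih =>
    intro R hR h
    simp only [chain, Bool.and_eq_true, Bool.not_eq_true', decide_eq_false_iff_not] at h
    have hs : ∀ u, P.ev op (ofL s.t) u = 0 := by
      intro u
      have h1 := isZ_ev op _ h.1.2 u
      rw [P.ev_add, P.ev_smul, rowsum_valid op R hR, add_zero] at h1
      exact tf _ _ (neg_ne_zero.mpr h.1.1) h1
    have hl := ih (ofL s.t :: R) (by
      intro p hp
      rcases List.mem_cons.mp hp with rfl | hp
      · exact hs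
      · exact hR p hp) h.2
    intro s' hs'
    rcases List.mem_cons.mp hs' with rfl | hs'
    · exact hs
    · exact hl s' hs'
end chain

/-! the operations -/

section comp
variable (tree : Tr)

def tB (i X : ℕ) : V := tree.lookB (Nat.add (Nat.mul 4 i) X) (V.cons (nxt i X) 1 V.nil)
def tA (i X : ℕ) : V := tree.lookA (Nat.add (Nat.mul 4 i) X) (V.cons (nxt i X) 1 V.nil)

def aB (X : ℕ) (v : V) : V := @V.rec (fun _ => V) V.nil (fun j c _ ih => V.add 999 (V.smul c (tB tree j X)) ih) v
def aA (X : ℕ) (v : V) : V := @V.rec (fun _ => V) V.nil (fun j c _ ih => V.add 999 (V.smul c (tA tree j X)) ih) v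

lemma aB_nil (X : ℕ) : aB tree X V.nil = V.nil := rfl
lemma aB_cons (X j : ℕ) (c : ℤ) (r : V) :
    aB tree X (V.cons j c r) = V.add 999 (V.smul c (tB tree j X)) (aB tree X r) := rfl
lemma aA_nil (X : ℕ) : aA tree X V.nil = V.nil := rfl
lemma aA_cons (X j : ℕ) (c : ℤ) (r : V) :
    aA tree X (V.cons j c r) = V.add 999 (V.smul c (tA tree j X)) (aA tree X r) := rfl

def twX (X : ℕ) (s : V) : V := cond (oddL X) (V.tw s) s

def rmul (X : ℕ) (p : Q) : Q :=
  @Q.rec (fun _ => Q) Q.nil
    (fun i s _ ih => Q.add 999 (Q.mulL (tB tree i X) (twX X s)) (Q.add 999 (Q.consN i (aA tree X s) Q.nil) ih)) p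

lemma rmul_nil (X : ℕ) : rmul tree X Q.nil = Q.nil := rfl
lemma rmul_cons (X i : ℕ) (s : V) (r : Q) : rmul tree X (Q.cons i s r) =
    Q.add 999 (Q.mulL (tB tree i X) (twX X s)) (Q.add 999 (Q.consN i (aA tree X s) Q.nil) (rmul tree X r)) := by
  unfold rmul
  rfl

def rmulw (q : Q) (l : List ℕ) : Q := @List.rec ℕ (fun _ => Q → Q) (fun q => q) (fun X _ ih q => ih (rmul tree X q)) l q

lemma rmulw_nil (q : Q) : rmulw tree q [] = q := rfl
lemma rmulw_cons (q : Q) (X : ℕ) (l : List ℕ) : rmulw tree q (X :: l) = rmulw tree (rmul tree X q) l := rfl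

def izero (c : ℤ) : Bool := @Int.rec (fun _ => Bool) (fun n => Nat.beq n 0) (fun _ => false) c

lemma izero_iff (c : ℤ) : izero c = true ↔ c = 0 := by
  cases c with
  | ofNat n =>
    show Nat.beq n 0 = true ↔ Int.ofNat n = 0
    cases n with
    | zero => exact ⟨fun _ => rfl, fun _ => rfl⟩
    | succ n =>
      refine ⟨fun h => ?_, fun h => ?_⟩
      · have h1 : false = true := h
        simp at h1
      · injection h with h; simp at h
  | negSucc n =>
    refine ⟨fun h => ?_, fun h => ?_⟩
    · have h1 : false = true := h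
      simp at h1
    · injection h

def rmulP (r : P) : Q → Q :=
  @P.rec (fun _ => Q → Q) (fun _ => Q.nil)
    (fun x c _ _ ihs iht p => @Bool.rec (fun _ => Q)
      (Q.add 999 (Q.smul c (rmul tree x p)) (Q.add 999 (ihs (rmul tree x p)) (iht p)))
      (Q.add 999 (ihs (rmul tree x p)) (iht p)) (izero c)) r

lemma rmulP_nil (p : Q) : rmulP tree P.nil p = Q.nil := rfl
lemma rmulP_cons (x : ℕ) (c : ℤ) (s t : P) (p : Q) : rmulP tree (P.cons x c s t) p =
    cond (izero c) (Q.add 999 (rmulP tree s (rmul tree x p)) (rmulP tree t p))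
      (Q.add 999 (Q.smul c (rmul tree x p)) (Q.add 999 (rmulP tree s (rmul tree x p)) (rmulP tree t p))) := by
  have h : ∀ (b : Bool) (X Y : Q), @Bool.rec (fun _ => Q) X Y b = cond b Y X := by
    intro b X Y; cases b <;> rfl
  rw [← h]
  unfold rmulP
  rfl

def nB (v : V) (l : List ℕ) : V := @List.rec ℕ (fun _ => V → V) (fun q => q) (fun X _ ih q => ih (aB tree X q)) l v
def nA (v : V) (l : List ℕ) : V := @List.rec ℕ (fun _ => V → V) (fun q => q) (fun X _ ih q => ih (aA tree X q)) l v

lemma nB_nil (v : V) : nB tree v [] = v := rfl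
lemma nB_cons (v : V) (X : ℕ) (l : List ℕ) : nB tree v (X :: l) = nB tree (aB tree X v) l := rfl
lemma nA_nil (v : V) : nA tree v [] = v := rfl
lemma nA_cons (v : V) (X : ℕ) (l : List ℕ) : nA tree v (X :: l) = nA tree (aA tree X v) l := rfl

end comp

def ltP : P → Bool
  | P.nil => true
  | P.cons x _ s r => decide (x < 4) && (ltP s && ltP r)

def ltw (l : List ℕ) : Bool := l.all (fun x => decide (x < 4))

section sound
variable {B : Type} [NonUnitalNonAssocRing B] (H : SAlg B) (a x : B) (ha : H.g a = a) (hx : H.g x = -x)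
variable (tree : Tr) (RL : List (List (ℤ × List ℕ)))
  (hRL : ∀ k u, P.ev (oU H a x) (ofL (RL.getD k [])) u = 0) (htree : tree.all (okN RL) = true)

lemma oddL_lt {X : ℕ} (hX : X < 4) : oddL X = (Nat.beq X 0 || Nat.beq X 3) := by
  interval_cases X <;> rfl

include ha hx in
lemma der (X : ℕ) (hX : X < 4) (p : Bool) (z : B) (hz : H.g z = sg p • z) (u : B) :
    oU H a x X (H.jz p z u) = H.jz (xor p (oddL X)) (oU H a x X z) u + sg (p && oddL X) • H.jz p z (oU H a x X u) := by
  interval_cases X
  · have h := sDD H a x ha hx p z hz u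
    show H.cz true x (H.jz p z u) = H.jz (xor p true) (H.cz true x z) u + sg (p && true) • H.jz p z (H.cz true x u)
    rw [h, Bool.xor_true, Bool.and_true]
  · have h := sDE H a x ha hx p z hz u
    show H.cz false (x * x) (H.jz p z u) = H.jz (xor p false) (H.cz false (x * x) z) u +
      sg (p && false) • H.jz p z (H.cz false (x * x) u)
    rw [h, Bool.xor_false, Bool.and_false, sg_false, one_smul]
  · have h := sDC H a x ha hx p z hz u
    show H.cz false a (H.jz p z u) = H.jz (xor p false) (H.cz false a z) u +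
      sg (p && false) • H.jz p z (H.cz false a u)
    rw [h, Bool.xor_false, Bool.and_false, sg_false, one_smul]
  · have h := sDT H a x ha hx p z hz u
    show tz x a (H.jz p z u) = H.jz (xor p true) (tz x a z) u + sg (p && true) • H.jz p z (tz x a u)
    rw [h, Bool.xor_true, Bool.and_true]

include ha hx in
lemma oU_par (X : ℕ) (hX : X < 4) (p : Bool) (z : B) (hz : H.g z = sg p • z) :
    H.g (oU H a x X z) = sg (xor p (oddL X)) • oU H a x X z := by
  interval_cases X
  · show H.g (H.cz true x z) = sg (xor p true) • H.cz true x z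
    rw [H.cz_apply, map_sub, H.gm, H.gm, H.gq_true, H.gg, hz, hx]
    cases p <;> simp <;> abel
  · show H.g (H.cz false (x * x) z) = sg (xor p false) • H.cz false (x * x) z
    have hxx : H.g (x * x) = x * x := by rw [H.gm, hx]; simp
    rw [H.cz_apply, map_sub, H.gq_false, H.gm z, H.gm _ z, hz, hxx]
    cases p <;> simp [neg_add_eq_sub]
  · show H.g (H.cz false a z) = sg (xor p false) • H.cz false a z
    rw [H.cz_apply, map_sub, H.gm, H.gm, H.gq_false, hz, ha]
    cases p <;> simp [neg_add_eq_sub]
  · show H.g (tz x a z) = sg (xor p true) • tz x a z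
    rw [tz_apply, map_zsmul]
    unfold as
    rw [map_sub, H.gm, H.gm, H.gm, H.gm, hz, ha, hx]
    cases p
    · simp only [sg_false, one_smul, Bool.false_xor, sg_true, neg_smul, mul_neg]
      rw [← smul_neg]; congr 1; abel
    · simp only [sg_false, one_smul, Bool.true_xor, Bool.not_true, sg_true, neg_smul, mul_neg, neg_mul, neg_neg]

include ha hx in
lemma word_par (w : List ℕ) (hw : ltw w = true) (p : Bool) (z : B) (hz : H.g z = sg p • z) :
    H.g (P.evw (oU H a x) w z) = sg (xor p (pw w)) • P.evw (oU H a x) w z := by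
  induction w generalizing p z with
  | nil =>
    show H.g z = sg (xor p false) • z
    simpa using hz
  | cons X l ih =>
    simp only [ltw, List.all_cons, Bool.and_eq_true, decide_eq_true_eq] at hw
    have h := ih hw.2 (xor p (oddL X)) _ (oU_par H a x ha hx X hw.1 p z hz)
    simp only [P.evw, pw]
    rw [h, Bool.xor_assoc]

lemma zs_ev (p : P) (h : zs p = true) (h2 : oU H a x 2 a = 0) (h3 : oU H a x 3 a = 0) :
    P.ev (oU H a x) p a = 0 := by
  induction p with
  | nil => rfl
  | cons y c s r ihs ihr =>
    simp only [zs, Bool.and_eq_true, Bool.or_eq_true] at h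
    rw [P.ev_cons, ihr h.2, add_zero]
    rcases h.1 with hy | hy | hy
    · have : y = 2 := Nat.eq_of_beq_eq_true hy
      subst this
      rw [h2, P.ev_vzero, smul_zero, zero_add]
    · have : y = 3 := Nat.eq_of_beq_eq_true hy
      subst this
      rw [h3, P.ev_vzero, smul_zero, zero_add]
    · simp only [decide_eq_true_eq] at hy
      rw [hy.1, zero_smul, isZ_ev _ _ hy.2, zero_add]

/-- `v ↦ v ∘ (a w')` for `w'` the word of the code `j` followed by `w` -/
def NN (j : ℕ) (w : List ℕ) : B →+ B :=
  if wf j = true then H.jz (pw (dw j ++ w)) (P.evw (oU H a x) (dw j ++ w) a) else 0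

lemma dw_ne (k : ℕ) : dw k ++ [] = dw k := List.append_nil _

include hRL htree in
lemma tB_sound (i X : ℕ) (hX : X < 4) (u : B) :
    V.ev (fun k => P.evw (oU H a x) (dw k) u) (tB tree i X) = oU H a x X (P.evw (oU H a x) (dw i) u) := by
  have e0 : P.evw (oU H a x) (dw i ++ [X]) u = oU H a x X (P.evw (oU H a x) (dw i) u) := by
    rw [evw_append]; rfl
  rw [← e0]
  unfold tB
  change V.ev _ (tree.lookB (4 * i + X) (V.cons (nxt i X) 1 V.nil)) = _
  rcases Tr.lookB_cases (okN RL) tree htree (4 * i + X) (V.cons (nxt i X) 1 V.nil) with h | ⟨va, k, h⟩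
  · rw [h]
    simp only [V.ev, one_smul, add_zero, dw_nxt i X hX]
  · generalize tree.lookB (4 * i + X) (V.cons (nxt i X) 1 V.nil) = vb at h ⊢
    have e1 : (4 * i + X) / 4 = i := by omega
    have e2 : (4 * i + X) % 4 = X := by omega
    simp only [okN, e1, e2, Bool.and_eq_true] at h
    have h1 := isZ_ev (oU H a x) _ h.1.1 u
    rw [P.ev_add, P.ev_smul, P.ev_add, P.ev_smul, hRL, smul_zero, add_zero, wP_ev _ _ (by simp),
      ofV_ev _ _ _ h.2.1.1, neg_smul, one_smul, ← sub_eq_add_neg, sub_eq_zero] at h1
    exact h1.symm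

lemma NN_okV (w : List ℕ) (v : B) (p : Bool) (s : V) (h : okV p s = true) :
    V.ev (fun k => NN H a x k w v) s =
      H.jz (xor p (pw w)) (V.ev (fun k => P.evw (oU H a x) (dw k ++ w) a) s) v := by
  induction s with
  | nil => simp [V.ev, H.jz_zero]
  | cons k c r ih =>
    simp only [okV, Bool.and_eq_true] at h
    have hp : pw (dw k) = p := by
      have := h.1.2.2
      revert this
      cases pw (dw k) <;> cases p <;> simp
    simp only [V.ev, ih h.2, H.jz_add, H.jz_smul]
    congr 2
    unfold NN
    rw [if_pos h.1.1, pw_append, hp]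

include ha hx hRL htree in
lemma tA_sound (j X : ℕ) (hX : X < 4) (w : List ℕ) (v : B) :
    V.ev (fun k => NN H a x k w v) (tA tree j X) = NN H a x j (X :: w) v := by
  unfold tA
  change V.ev _ (tree.lookA (4 * j + X) (V.cons (nxt j X) 1 V.nil)) = _
  rcases Tr.lookA_cases (okN RL) tree htree (4 * j + X) (V.cons (nxt j X) 1 V.nil) with h | ⟨vb, k, h⟩
  · rw [h]
    simp only [V.ev, one_smul, add_zero]
    unfold NN
    rw [wf_nxt j X hX, dw_nxt j X hX, List.append_assoc, List.singleton_append]
  · generalize tree.lookA (4 * j + X) (V.cons (nxt j X) 1 V.nil) = va at h ⊢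
    have e1 : (4 * j + X) / 4 = j := by omega
    have e2 : (4 * j + X) % 4 = X := by omega
    simp only [okN, e1, e2, Bool.and_eq_true] at h
    have h1 := zs_ev H a x _ h.1.2 (sCa H a) (sTa H a x ha hx)
    rw [P.ev_add, P.ev_smul, P.ev_add, P.ev_smul, hRL, smul_zero, add_zero, wP_ev _ _ (by simp),
      ofV_ev _ _ _ h.2.1.2, neg_smul, one_smul, ← sub_eq_add_neg, sub_eq_zero] at h1
    rw [NN_okV H a x w v _ va h.2.1.2]
    unfold NN
    rw [if_pos h.2.2]
    have e3 : dw j ++ X :: w = (dw j ++ [X]) ++ w := by simp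
    rw [e3, pw_append (dw j ++ [X]) w, evw_append, h1, ← hw_apply, V.ev_map]
    congr 2
    apply V.ev_congr
    intro k
    rw [hw_apply, ← evw_append]

include hRL htree in
lemma aB_sound (X : ℕ) (hX : X < 4) (s : V) (u : B) :
    V.ev (fun k => P.evw (oU H a x) (dw k) u) (aB tree X s) =
      oU H a x X (V.ev (fun k => P.evw (oU H a x) (dw k) u) s) := by
  induction s with
  | nil => simp [aB_nil, V.ev]
  | cons j c r ih =>
    simp only [aB_cons, V.ev_add, V.ev_smul, V.ev, map_add, map_zsmul, ih, tB_sound H a x tree RL hRL htree j X hX]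

include ha hx hRL htree in
lemma aA_sound (X : ℕ) (hX : X < 4) (w : List ℕ) (s : V) (v : B) :
    V.ev (fun k => NN H a x k w v) (aA tree X s) = V.ev (fun k => NN H a x k (X :: w) v) s := by
  induction s with
  | nil => simp [aA_nil, V.ev]
  | cons j c r ih =>
    simp only [aA_cons, V.ev_add, V.ev_smul, V.ev, ih, tA_sound H a x ha hx tree RL hRL htree j X hX]

/-- the value of an entry -/
def FF (u : B) (i j : ℕ) : B := NN H a x j [] (P.evw (oU H a x) (dw i) u)

lemma dw_lt (k : ℕ) : ltw (dw k) = true := by
  unfold dw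
  generalize k / 2 = m
  have : ∀ f m, ltw (dm f m) = true := by
    intro f
    induction f with
    | zero => intro m; rfl
    | succ f ih =>
      intro m
      simp only [dm]
      cases Nat.beq m 0 with
      | true => rfl
      | false =>
        have h1 := ih ((m - 1) / 4)
        simp only [ltw] at h1
        simp only [cond_false, ltw, List.all_append, h1, Bool.true_and, List.all_cons, List.all_nil, Bool.and_true,
          decide_eq_true_eq]
        omega
  exact this m m

include ha hx in
lemma NN_op (X : ℕ) (hX : X < 4) (j : ℕ) (v : B) :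
    oU H a x X (NN H a x j [] v) = NN H a x j [X] v +
      (cond (oddL X) (cond (Nat.beq (j % 2) 1) (-1) 1) 1 : ℤ) • NN H a x j [] (oU H a x X v) := by
  unfold NN
  by_cases hj : wf j = true
  · rw [if_pos hj, if_pos hj, List.append_nil]
    have hpar : H.g (P.evw (oU H a x) (dw j) a) = sg (pw (dw j)) • P.evw (oU H a x) (dw j) a := by
      have := word_par H a x ha hx (dw j) (dw_lt j) false a (by simp [ha])
      simpa using this
    rw [der H a x ha hx X hX _ _ hpar, evw_append, pw_append]
    have h1 : pw [X] = oddL X := by simp [pw]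
    rw [h1]
    congr 2
    unfold wf at hj
    have h3 : j % 2 = 0 ∨ j % 2 = 1 := by omega
    rcases h3 with h3 | h3 <;> rw [h3] at hj ⊢ <;> cases hp : pw (dw j) <;> rw [hp] at hj <;> cases oddL X <;>
      first | rfl | simp at hj
  · rw [if_neg hj, if_neg hj]; simp

lemma NN_V (s : V) (v : V) (u : B) :
    V.ev (fun k => V.ev (FF H a x u k) s) v =
      V.ev (fun j => NN H a x j [] (V.ev (fun k => P.evw (oU H a x) (dw k) u) v)) s := by
  induction v with
  | nil =>
    simp only [V.ev, map_zero]
    induction s with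
    | nil => rfl
    | cons j c r ih => simp [V.ev, ← ih]
  | cons k c r ih =>
    simp only [V.ev, ih, map_add, map_zsmul]
    clear ih
    induction s with
    | nil => simp [V.ev]
    | cons j d t iht =>
      simp only [V.ev, smul_add, ← iht, FF]
      rw [smul_comm c d]
      abel

include ha hx hRL htree in
lemma rmul_sound (X : ℕ) (hX : X < 4) (p : Q) (u : B) :
    Q.ev (FF H a x u) (rmul tree X p) = oU H a x X (Q.ev (FF H a x u) p) := by
  induction p with
  | nil => simp [rmul_nil, Q.ev]
  | cons i s r ih =>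
    simp only [rmul_cons, Q.ev_add, Q.ev_mulL, Q.ev_consN, Q.ev, ih, add_zero, map_add]
    rw [← add_assoc]
    congr 1
    rw [NN_V H a x _ _, tB_sound H a x tree RL hRL htree i X hX]
    have h1 : V.ev (FF H a x u i) (aA tree X s) = V.ev (fun k => NN H a x k [X] (P.evw (oU H a x) (dw i) u)) s :=
      aA_sound H a x ha hx tree RL hRL htree X hX [] s _
    rw [h1]
    have h2 : oU H a x X (V.ev (FF H a x u i) s) = V.ev (fun j => oU H a x X (FF H a x u i j)) s := V.ev_map _ _ _
    rw [h2]
    unfold FF
    generalize P.evw (oU H a x) (dw i) u = v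
    have h3 : V.ev (fun j => NN H a x j [] (oU H a x X v)) (twX X s) =
        V.ev (fun j => (cond (oddL X) (cond (Nat.beq (j % 2) 1) (-1) 1) 1 : ℤ) • NN H a x j [] (oU H a x X v)) s := by
      unfold twX
      cases oddL X with
      | true => simp only [cond_true, V.ev_tw]
      | false => simp only [cond_false, one_smul]
    rw [h3]
    clear h1 h2 h3 ih
    induction s with
    | nil => simp [V.ev]
    | cons j c t iht =>
      simp only [V.ev, NN_op H a x ha hx X hX, smul_add] at iht ⊢
      rw [← iht]
      abel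

include ha hx hRL htree in
lemma rmulw_sound (l : List ℕ) (hl : ltw l = true) (p : Q) (u : B) :
    Q.ev (FF H a x u) (rmulw tree p l) = P.evw (oU H a x) l (Q.ev (FF H a x u) p) := by
  induction l generalizing p with
  | nil => rfl
  | cons X l ih =>
    simp only [ltw, List.all_cons, Bool.and_eq_true, decide_eq_true_eq] at hl
    simp only [rmulw_cons, P.evw]
    rw [ih hl.2, rmul_sound H a x ha hx tree RL hRL htree X hl.1]

include ha hx hRL htree in
lemma rmulP_sound (r : P) (hr : ltP r = true) (p : Q) (u : B) :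
    Q.ev (FF H a x u) (rmulP tree r p) = P.ev (oU H a x) r (Q.ev (FF H a x u) p) := by
  induction r generalizing p with
  | nil => rfl
  | cons y c s t ihs iht =>
    simp only [ltP, Bool.and_eq_true, decide_eq_true_eq] at hr
    have e := rmul_sound H a x ha hx tree RL hRL htree y hr.1 p u
    rw [rmulP_cons]
    cases h : izero c with
    | true =>
      have hc := (izero_iff c).mp h
      simp only [cond_true]
      rw [Q.ev_add, ihs hr.2.1, iht hr.2.2, e, P.ev_cons, hc, zero_smul, zero_add]
    | false =>
      simp only [cond_false]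
      rw [Q.ev_add, Q.ev_add, Q.ev_smul, ihs hr.2.1, iht hr.2.2, e, P.ev_cons, add_assoc]

include hRL htree in
lemma nB_sound (l : List ℕ) (hl : ltw l = true) (v : V) (u : B) :
    V.ev (fun k => P.evw (oU H a x) (dw k) u) (nB tree v l) =
      P.evw (oU H a x) l (V.ev (fun k => P.evw (oU H a x) (dw k) u) v) := by
  induction l generalizing v with
  | nil => rfl
  | cons X l ih =>
    simp only [ltw, List.all_cons, Bool.and_eq_true, decide_eq_true_eq] at hl
    simp only [nB_cons, P.evw]
    rw [ih hl.2, aB_sound H a x tree RL hRL htree X hl.1]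

include ha hx hRL htree in
lemma nA_sound (l : List ℕ) (hl : ltw l = true) (v : V) (u : B) :
    V.ev (fun k => NN H a x k [] u) (nA tree v l) = V.ev (fun k => NN H a x k l u) v := by
  induction l generalizing v with
  | nil => rfl
  | cons X l ih =>
    simp only [ltw, List.all_cons, Bool.and_eq_true, decide_eq_true_eq] at hl
    simp only [nA_cons]
    rw [ih hl.2, aA_sound H a x ha hx tree RL hRL htree X hl.1]

end sound
end Pool.Agent.N33.SA
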