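import Pool.Agent.N33.SA.UChk
set_option autoImplicit false

/-! The certificate checker for identities between expressions `(u W) ∘ (a w)`. -/

noncomputable section
namespace Pool.Agent.N33.SA
open Pool.Agent.N33.Tor

structure BR : Type where
  i : ℕ
  j : ℕ
  k : ℕ
  sf : List ℕ
  l : List ℤ

structure TQ : Type where
  c : ℤ
  W : List ℕ
  w : List ℕ
  V : List ℕ

def rowQ (r : BR) : Q :=
  rmulw tree (rmulP tree (ofL (rhoL.getD r.k [])) (Q.cons r.i (V.cons r.j 1 V.nil) Q.nil)) r.sf

def zipAdd (q : Q) : List ℤ → List Q → List Q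
  | [], ps => ps
  | _ :: _, [] => []
  | c :: cs, p :: ps => (if c = 0 then p else Q.add 999 (Q.smul c q) p) :: zipAdd q cs ps

def accs (n : ℕ) : List BR → List Q
  | [] => List.replicate n Q.nil
  | r :: l => zipAdd (rowQ r) r.l (accs n l)

def tq (t : TQ) : Q :=
  Q.smul t.c (rmulw tree (Q.mulL (nB tree (V.cons 0 1 V.nil) t.W) (nA tree (V.cons 0 1 V.nil) t.w)) t.V)

def tqs : List TQ → Q
  | [] => Q.nil
  | t :: l => Q.add 999 (tq t) (tqs l)

def spc (i : ℕ) : Bool :=
  match dw i with
  | 2 :: _ => true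
  | 3 :: _ => true
  | _ => false

def hasC (i : ℕ) : Bool := (dw i).any (fun x => Nat.ble 2 x)

def sw1 (i j : ℕ) (c : ℤ) : Q :=
  if spc i = true then Q.nil
  else if ((hasC j && Bool.not (hasC i)) && (wf i && wf j)) = true then
    Q.cons j (V.cons i (cond (pw (dw i) && pw (dw j)) (-c) c) V.nil) Q.nil
  else Q.cons i (V.cons j c V.nil) Q.nil

def swV (i : ℕ) : V → Q
  | V.nil => Q.nil
  | V.cons j c r => Q.add 999 (sw1 i j c) (swV i r)

def swQ : Q → Q
  | Q.nil => Q.nil
  | Q.cons i s r => Q.add 999 (swV i s) (swQ r)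

def okT (T : List TQ) : Bool := T.all (fun t => ltw t.W && (ltw t.w && ltw t.V))

/-- the test of one identity -/
def chkT (d : ℤ) (T : List TQ) (q : Q) : Bool :=
  (Bool.not (decide (d = 0)) && okT T) && Q.isZ (Q.add 999 (Q.smul (-d) (tqs T)) q)

/-- the test of one identity for `u = a` -/
def chkS (d : ℤ) (T : List TQ) (q : Q) : Bool :=
  (Bool.not (decide (d = 0)) && okT T) && Q.isZ (swQ (Q.add 999 (Q.smul (-d) (tqs T)) q))

def chkTs : List ℤ → List (List TQ) → List Q → Bool
  | [], [], [] => true
  | d :: ds, T :: Ts, q :: qs => chkT d T q && chkTs ds Ts qs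
  | _, _, _ => false

def chkAll (n : ℕ) (rows : List BR) (ds : List ℤ) (Ts : List (List TQ)) : Bool :=
  rows.all (fun r => ltw r.sf) && chkTs ds Ts (accs n rows)

def chkOne (rows : List BR) (ds : List ℤ) (Ts : List (List TQ)) : Bool :=
  rows.all (fun r => ltw r.sf) &&
  match ds, Ts, accs 1 rows with
  | [d], [T], [q] => chkS d T q
  | _, _, _ => false

section sound
variable {B : Type} [NonUnitalNonAssocRing B] (H : SAlg B) (a x : B) (ha : H.g a = a) (hx : H.g x = -x)

/-- the value of a term -/
def tv (u : B) (t : TQ) : B :=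
  t.c • P.evw (oU H a x) t.V (H.jz (pw t.w) (P.evw (oU H a x) t.w a) (P.evw (oU H a x) t.W u))

/-- the value of a sum of terms -/
def tvs (u : B) : List TQ → B
  | [] => 0
  | t :: l => tv H a x u t + tvs u l

include ha hx in
lemma rho_all (k : ℕ) (u : B) : P.ev (oU H a x) (ofL (rhoL.getD k [])) u = 0 := by
  rcases Nat.lt_or_ge k 8 with hk | hk
  · exact rho_valid H a x ha hx k hk u
  · have : rhoL.getD k [] = [] := by
      apply List.getD_eq_default
      exact hk
    rw [this]; rfl

lemma rho_lt (k : ℕ) : ltP (ofL (rhoL.getD k [])) = true := by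
  rcases Nat.lt_or_ge k 8 with hk | hk
  · interval_cases k <;> decide +kernel
  · have : rhoL.getD k [] = [] := by
      apply List.getD_eq_default
      exact hk
    rw [this]; rfl

include ha hx in
lemma RL_valid (k : ℕ) (u : B) : P.ev (oU H a x) (ofL (RL.getD k [])) u = 0 := by
  have h := chain_sound (oU H a x) H.tf steps ((rhoL.map ofL).reverse) (by
    intro p hp v
    rw [List.mem_reverse, List.mem_map] at hp
    obtain ⟨l, hl, rfl⟩ := hp
    obtain ⟨n, hn, rfl⟩ := List.mem_iff_getElem.mp hl
    have := rho_all H a x ha hx n v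
    rwa [List.getD_eq_getElem _ _ hn] at this) chain_ok
  rw [List.getD_eq_getElem?_getD]
  cases hk : RL[k]? with
  | none => rfl
  | some l =>
    have hm := List.mem_of_getElem? hk
    unfold RL at hm
    rw [List.mem_map] at hm
    obtain ⟨s, hs, rfl⟩ := hm
    exact h s hs u

include ha hx in
lemma rowQ_sound (r : BR) (hr : ltw r.sf = true) (u : B) : Q.ev (FF H a x u) (rowQ r) = 0 := by
  unfold rowQ
  rw [rmulw_sound H a x ha hx tree RL (RL_valid H a x ha hx) tree_ok _ hr,
    rmulP_sound H a x ha hx tree RL (RL_valid H a x ha hx) tree_ok _ (rho_lt _), rho_all H a x ha hx, P.evw_vzero]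

lemma zipAdd_sound (f : ℕ → ℕ → B) (q : Q) (hq : Q.ev f q = 0) (l : List ℤ) (ps : List Q)
    (hp : ∀ p ∈ ps, Q.ev f p = 0) : ∀ p ∈ zipAdd q l ps, Q.ev f p = 0 := by
  induction ps generalizing l with
  | nil => cases l <;> simp [zipAdd]
  | cons p ps ih =>
    cases l with
    | nil => simpa [zipAdd] using hp
    | cons c cs =>
      intro p' hp'
      simp only [zipAdd, List.mem_cons] at hp'
      rcases hp' with rfl | hp'
      · split_ifs
        · exact hp p (by simp)
        · rw [Q.ev_add, Q.ev_smul, hq, smul_zero, hp p (by simp), add_zero]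
      · exact ih cs (fun p hp'' => hp p (by simp [hp''])) p' hp'

include ha hx in
lemma accs_sound (n : ℕ) (l : List BR) (hl : l.all (fun r => ltw r.sf) = true) (u : B) :
    ∀ p ∈ accs n l, Q.ev (FF H a x u) p = 0 := by
  induction l with
  | nil =>
    intro p hp
    simp only [accs, List.mem_replicate] at hp
    rw [hp.2]; rfl
  | cons r l ih =>
    simp only [List.all_cons, Bool.and_eq_true] at hl
    exact zipAdd_sound _ _ (rowQ_sound H a x ha hx r hl.1 u) _ _ (ih hl.2)

include ha hx in
lemma tq_sound (t : TQ) (hW : ltw t.W = true) (hw : ltw t.w = true) (hV : ltw t.V = true) (u : B) :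
    Q.ev (FF H a x u) (tq t) = tv H a x u t := by
  have hR := RL_valid H a x ha hx
  unfold tq tv
  rw [Q.ev_smul, rmulw_sound H a x ha hx tree RL hR tree_ok _ hV, Q.ev_mulL, NN_V H a x,
    nB_sound H a x tree RL hR tree_ok _ hW, nA_sound H a x ha hx tree RL hR tree_ok _ hw]
  simp only [V.ev, one_smul, add_zero]
  rfl

include ha hx in
lemma tqs_sound (T : List TQ) (hT : okT T = true) (u : B) : Q.ev (FF H a x u) (tqs T) = tvs H a x u T := by
  induction T with
  | nil => rfl
  | cons t l ih =>
    simp only [okT, List.all_cons, Bool.and_eq_true] at hT ih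
    rw [tqs, Q.ev_add, tq_sound H a x ha hx t hT.1.1 hT.1.2.1 hT.1.2.2, ih hT.2, tvs]

include ha hx in
lemma chkT_sound (d : ℤ) (T : List TQ) (q : Q) (h : chkT d T q = true) (u : B) (hq : Q.ev (FF H a x u) q = 0) :
    tvs H a x u T = 0 := by
  simp only [chkT, Bool.and_eq_true, Bool.not_eq_true', decide_eq_false_iff_not] at h
  have h1 := Q.ev_isZ (FF H a x u) _ h.2
  rw [Q.ev_add, Q.ev_smul, hq, add_zero, tqs_sound H a x ha hx T h.1.2] at h1
  exact H.tf _ _ (neg_ne_zero.mpr h.1.1) h1

include ha hx in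
lemma chkTs_sound (u : B) (ds : List ℤ) : ∀ (Ts : List (List TQ)) (qs : List Q), chkTs ds Ts qs = true →
    (∀ p ∈ qs, Q.ev (FF H a x u) p = 0) → ∀ T ∈ Ts, tvs H a x u T = 0 := by
  induction ds with
  | nil =>
    intro Ts qs h _
    cases Ts with
    | nil => simp
    | cons T Ts => cases qs <;> simp [chkTs] at h
  | cons d ds ih =>
    intro Ts qs h hq
    cases Ts with
    | nil => simp
    | cons T Ts =>
      cases qs with
      | nil => simp [chkTs] at h
      | cons q qs =>
        simp only [chkTs, Bool.and_eq_true] at h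
        intro T' hT'
        rcases List.mem_cons.mp hT' with rfl | hT'
        · exact chkT_sound H a x ha hx d _ q h.1 u (hq q (by simp))
        · exact ih Ts qs h.2 (fun p hp => hq p (by simp [hp])) T' hT'

include ha hx in
theorem chkAll_sound (n : ℕ) (rows : List BR) (ds : List ℤ) (Ts : List (List TQ)) (h : chkAll n rows ds Ts = true)
    (u : B) : ∀ T ∈ Ts, tvs H a x u T = 0 := by
  simp only [chkAll, Bool.and_eq_true] at h
  exact chkTs_sound H a x ha hx u ds Ts _ h.2 (accs_sound H a x ha hx n rows h.1 u)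

include ha hx in
lemma aw_par (k : ℕ) : H.g (P.evw (oU H a x) (dw k) a) = sg (pw (dw k)) • P.evw (oU H a x) (dw k) a := by
  have := word_par H a x ha hx (dw k) (dw_lt k) false a (by simp [ha])
  simpa using this

include ha hx in
lemma sw1_sound (i j : ℕ) (c : ℤ) : Q.ev (FF H a x a) (sw1 i j c) = c • FF H a x a i j := by
  unfold sw1
  split_ifs with h1 h2
  · have h0 : P.evw (oU H a x) (dw i) a = 0 := by
      unfold spc at h1
      split at h1
      · next l h =>
        rw [h]
        show P.evw (oU H a x) l (H.cz false a a) = 0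
        rw [sCa H a, P.evw_vzero]
      · next l h =>
        rw [h]
        show P.evw (oU H a x) l (tz x a a) = 0
        rw [sTa H a x ha hx, P.evw_vzero]
      · simp at h1
    unfold FF
    rw [h0, map_zero, smul_zero]; rfl
  · simp only [Bool.and_eq_true] at h2
    simp only [Q.ev, V.ev, add_zero]
    unfold FF NN
    rw [if_pos h2.2.1, if_pos h2.2.2, List.append_nil, List.append_nil]
    have hi := aw_par H a x ha hx i
    have hj := aw_par H a x ha hx j
    rw [H.jz_apply, H.jz_apply, H.gq_hom _ _ _ hi, H.gq_hom _ _ _ hj, Bool.and_comm (pw (dw j))]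
    cases pw (dw i) && pw (dw j)
    · simp only [cond_false, sg_false, one_smul]; rw [add_comm]
    · simp only [cond_true, sg_true, neg_smul, one_smul, mul_neg, smul_add, smul_neg, neg_add, neg_neg]
      rw [add_comm]
  · simp only [Q.ev, V.ev, add_zero]

include ha hx in
lemma swV_sound (i : ℕ) (s : V) : Q.ev (FF H a x a) (swV i s) = V.ev (FF H a x a i) s := by
  induction s with
  | nil => rfl
  | cons j c r ih => rw [swV, Q.ev_add, sw1_sound H a x ha hx, ih, V.ev]

include ha hx in
lemma swQ_sound (p : Q) : Q.ev (FF H a x a) (swQ p) = Q.ev (FF H a x a) p := by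
  induction p with
  | nil => rfl
  | cons i s r ih => rw [swQ, Q.ev_add, swV_sound H a x ha hx, ih, Q.ev]

include ha hx in
theorem chkOne_sound (rows : List BR) (ds : List ℤ) (T : List TQ) (h : chkOne rows ds [T] = true) :
    tvs H a x a T = 0 := by
  simp only [chkOne, Bool.and_eq_true] at h
  have hac := accs_sound H a x ha hx 1 rows h.1 a
  revert h hac
  generalize accs 1 rows = qs
  intro h hac
  rcases ds with _ | ⟨d, _ | ⟨d', ds⟩⟩ <;> rcases qs with _ | ⟨q, _ | ⟨q', qs⟩⟩ <;> simp at h
  have h2 := h.2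
  simp only [chkS, Bool.and_eq_true, Bool.not_eq_true', decide_eq_false_iff_not] at h2
  have h1 := Q.ev_isZ (FF H a x a) _ h2.2
  rw [swQ_sound H a x ha hx, Q.ev_add, Q.ev_smul, hac q (by simp), add_zero, tqs_sound H a x ha hx T h2.1.2] at h1
  exact H.tf _ _ (neg_ne_zero.mpr h2.1.1) h1

end sound
end Pool.Agent.N33.SA
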