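import Pool.Agent.N33.SA.Bil3
set_option autoImplicit false

/-! Certificates with precomputed rows. -/

noncomputable section
namespace Pool.Agent.N33.SA
open Pool.Agent.N33.Tor

def V.beq (p : V) : V → Bool :=
  @V.rec (fun _ => V → Bool) (fun q => @V.rec (fun _ => Bool) true (fun _ _ _ _ => false) q)
    (fun j c _ ih q => @V.rec (fun _ => Bool) false
      (fun k d s _ => @Bool.rec (fun _ => Bool) false (@Bool.rec (fun _ => Bool) false (ih s) (izero (Int.sub c d)))
        (Nat.beq j k)) q) p

lemma V.beq_eq (p q : V) (h : V.beq p q = true) : p = q := by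
  induction p generalizing q with
  | nil =>
    cases q with
    | nil => rfl
    | cons _ _ _ => exact Bool.noConfusion h
  | cons j c r ih =>
    cases q with
    | nil => exact Bool.noConfusion h
    | cons k d s =>
      change @Bool.rec (fun _ => Bool) false (@Bool.rec (fun _ => Bool) false (V.beq r s) (izero (Int.sub c d)))
        (Nat.beq j k) = true at h
      cases h1 : Nat.beq j k with
      | false => rw [h1] at h; exact Bool.noConfusion h
      | true =>
        rw [h1] at h
        change @Bool.rec (fun _ => Bool) false (V.beq r s) (izero (Int.sub c d)) = true at h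
        cases h2 : izero (Int.sub c d) with
        | false => rw [h2] at h; exact Bool.noConfusion h
        | true =>
          rw [h2] at h
          have e1 : j = k := Nat.eq_of_beq_eq_true h1
          have e2 : c - d = 0 := (izero_iff _).mp h2
          rw [e1, sub_eq_zero.mp e2, ih s h]

def Q.beq (p : Q) : Q → Bool :=
  @Q.rec (fun _ => Q → Bool) (fun q => @Q.rec (fun _ => Bool) true (fun _ _ _ _ => false) q)
    (fun j c _ ih q => @Q.rec (fun _ => Bool) false
      (fun k d s _ => @Bool.rec (fun _ => Bool) false (@Bool.rec (fun _ => Bool) false (ih s) (V.beq c d))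
        (Nat.beq j k)) q) p

lemma Q.beq_eq (p q : Q) (h : Q.beq p q = true) : p = q := by
  induction p generalizing q with
  | nil =>
    cases q with
    | nil => rfl
    | cons _ _ _ => exact Bool.noConfusion h
  | cons j c r ih =>
    cases q with
    | nil => exact Bool.noConfusion h
    | cons k d s =>
      change @Bool.rec (fun _ => Bool) false (@Bool.rec (fun _ => Bool) false (Q.beq r s) (V.beq c d))
        (Nat.beq j k) = true at h
      cases h1 : Nat.beq j k with
      | false => rw [h1] at h; exact Bool.noConfusion h
      | true =>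
        rw [h1] at h
        change @Bool.rec (fun _ => Bool) false (Q.beq r s) (V.beq c d) = true at h
        cases h2 : V.beq c d with
        | false => rw [h2] at h; exact Bool.noConfusion h
        | true =>
          rw [h2] at h
          have e1 : j = k := Nat.eq_of_beq_eq_true h1
          rw [e1, V.beq_eq c d h2, ih s h]

def chkRows : List BR → List Q → Bool
  | [], [] => true
  | r :: l, q :: qs => (ltw r.sf && Q.beq (rowQ r) q) && chkRows l qs
  | _, _ => false

def pairs : List Q → List Q
  | p :: q :: l => Q.add 999 p q :: pairs l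
  | l => l

def psum : ℕ → List Q → Q
  | 0, l => l.foldr (fun p q => Q.add 999 p q) Q.nil
  | n + 1, l => psum n (pairs l)

def zsm : List Q → List ℤ → List Q
  | q :: qs, c :: cs => @Bool.rec (fun _ => List Q) (Q.smul c q :: zsm qs cs) (zsm qs cs) (izero c)
  | _, _ => []

/-- linear combination of the rows -/
def lsum (l : List Q) (c : List ℤ) : Q := psum 9 (zsm l c)

section
variable {B : Type} [NonUnitalNonAssocRing B] (H : SAlg B) (a x : B) (ha : H.g a = a) (hx : H.g x = -x)

include ha hx in
lemma chkRows_sound (u : B) (rs : List BR) : ∀ (l : List Q), chkRows rs l = true →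
    ∀ p ∈ l, Q.ev (FF H a x u) p = 0 := by
  induction rs with
  | nil =>
    intro l h
    cases l with
    | nil => simp
    | cons q qs => simp [chkRows] at h
  | cons r rs ih =>
    intro l h
    cases l with
    | nil => simp
    | cons q qs =>
      simp only [chkRows, Bool.and_eq_true] at h
      intro p hp
      rcases List.mem_cons.mp hp with rfl | hp
      · rw [← Q.beq_eq _ _ h.1.2]
        exact rowQ_sound H a x ha hx r h.1.1 u
      · exact ih qs h.2 p hp

lemma pairs_sound (f : ℕ → ℕ → B) : ∀ (l : List Q), (∀ p ∈ l, Q.ev f p = 0) → ∀ p ∈ pairs l, Q.ev f p = 0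
  | [], _ => by simp [pairs]
  | [q], h => by simpa [pairs] using h
  | p :: q :: l, h => by
    intro r hr
    simp only [pairs, List.mem_cons] at hr
    rcases hr with rfl | hr
    · rw [Q.ev_add, h p (by simp), h q (by simp), add_zero]
    · exact pairs_sound f l (fun p' hp' => h p' (by simp [hp'])) r hr

lemma psum_sound (f : ℕ → ℕ → B) (n : ℕ) : ∀ (l : List Q), (∀ p ∈ l, Q.ev f p = 0) → Q.ev f (psum n l) = 0 := by
  induction n with
  | zero =>
    intro l
    induction l with
    | nil => intro _; rfl
    | cons q l ih =>
      intro h
      simp only [psum, List.foldr_cons] at ih ⊢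
      rw [Q.ev_add, h q (by simp), ih (fun p hp => h p (by simp [hp])), add_zero]
  | succ n ih =>
    intro l h
    exact ih _ (pairs_sound f l h)

lemma zsm_sound (f : ℕ → ℕ → B) : ∀ (l : List Q) (c : List ℤ), (∀ p ∈ l, Q.ev f p = 0) →
    ∀ p ∈ zsm l c, Q.ev f p = 0
  | [], _, _ => by simp [zsm]
  | _ :: _, [], _ => by simp [zsm]
  | q :: qs, c :: cs, h => by
    intro p hp
    have hr := zsm_sound f qs cs (fun p' hp' => h p' (by simp [hp']))
    simp only [zsm] at hp
    cases hc : izero c with
    | true => rw [hc] at hp; exact hr p hp
    | false =>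
      rw [hc] at hp
      rcases List.mem_cons.mp hp with rfl | hp
      · rw [Q.ev_smul, h q (by simp), smul_zero]
      · exact hr p hp

lemma lsum_sound (f : ℕ → ℕ → B) (l : List Q) (c : List ℤ) (h : ∀ p ∈ l, Q.ev f p = 0) : Q.ev f (lsum l c) = 0 :=
  psum_sound f 9 _ (zsm_sound f l c h)
end
end Pool.Agent.N33.SA
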