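import Pool.Agent.N33.SA.L7
set_option autoImplicit false

namespace Pool.Agent.N33.SA
set_option maxRecDepth 1000000
theorem ok7 : chkOne rows7 ds7 tgs7 = true := by decide +kernel
end Pool.Agent.N33.SA
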