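import Pool.Agent.N33.SA.Main
set_option autoImplicit false

/-! Membership in the verbal subsuperalgebra. -/

namespace Pool.Agent.N33.SA

namespace SAlt
variable {F : Type} [Field F] {A X : Type}
variable [CharZero F]

lemma exists_hom (p : Bool) (u : SAlt F A X) (hu : gam u = sg p • u) :
    ∃ v : FN F A X, gam0 F A X v = sg p • v ∧ mk v = u := by
  obtain ⟨u, rfl⟩ := mk_surj u
  refine ⟨(2 : F)⁻¹ • (u + sg p • gam0 F A X u), ?_, ?_⟩
  · rw [map_smul, map_add, map_zsmul, gam0_gam0, smul_comm (sg p) (2 : F)⁻¹, smul_add (sg p), ← mul_smul,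
      sg_mul_self, one_smul, add_comm]
  · rw [gam_mk] at hu
    rw [map_smul, map_add, map_zsmul, hu, ← mul_smul, sg_mul_self, one_smul, ← two_smul F, ← mul_smul,
      inv_mul_cancel₀ (by norm_num), one_smul]

/-- the free alternative superalgebra is an alternative superalgebra -/
noncomputable def salg : SAlg (SAlt F A X) where
  g := par
  gg := gam_gam
  gm := gam_mul
  tf := by
    intro k u hk h
    have h2 : (k : F) • u = 0 := by rw [← h, Int.cast_smul_eq_zsmul]
    rcases smul_eq_zero.mp h2 with h3 | h3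
    · exact absurd (Int.cast_eq_zero.mp h3) hk
    · exact h3
  l12 := by
    intro p q r u v w hu hv hw
    obtain ⟨u, hu', rfl⟩ := exists_hom p u hu
    obtain ⟨v, hv', rfl⟩ := exists_hom q v hv
    obtain ⟨w, hw', rfl⟩ := exists_hom r w hw
    rw [← mk_as, ← mk_as, ← map_zsmul, ← map_add, mk_zero]
    exact (supIdeal_alt p q r u v w hu' hv' hw').1
  l23 := by
    intro p q r u v w hu hv hw
    obtain ⟨u, hu', rfl⟩ := exists_hom p u hu
    obtain ⟨v, hv', rfl⟩ := exists_hom q v hv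
    obtain ⟨w, hw', rfl⟩ := exists_hom r w hw
    rw [← mk_as, ← mk_as, ← map_zsmul, ← map_add, mk_zero]
    exact (supIdeal_alt p q r u v w hu' hv' hw').2

end SAlt

namespace Gr
section
variable {C : Type} [NonUnitalNonAssocRing C] (γ : C →+ C) (R : Finset ℕ)

/-- `P = u + e_R v` up to terms of no influence -/
def Pr (P : Gr γ) (u v : C) : Prop := P ∅ = u ∧ P R = v ∧ ∀ S, S ⊆ R → S ≠ R → S ≠ ∅ → P S = 0

lemma sgn_empty_left (S : Finset ℕ) : sgn ∅ S = 1 := by simp [sgn]
lemma sgn_empty_right (S : Finset ℕ) : sgn S ∅ = 1 := by simp [sgn]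

variable (hR : R ≠ ∅)
include hR

lemma Pr.mul {P Q : Gr γ} {u v u' v' : C} (h : Pr γ R P u v) (h' : Pr γ R Q u' v') :
    Pr γ R (P * Q) (u * u') (γ^[R.card] u * v' + v * u') := by
  obtain ⟨h1, h2, h3⟩ := h
  obtain ⟨k1, k2, k3⟩ := h'
  refine ⟨?_, ?_, ?_⟩
  · rw [mul_apply, Finset.powerset_empty, Finset.sum_singleton, Finset.sdiff_empty, sgn_empty_left, one_smul,
      Finset.card_empty, h1, k1]
    rfl
  · rw [mul_apply, Finset.sum_eq_add_of_mem ∅ R (Finset.empty_mem_powerset R) (Finset.mem_powerset_self R) hR.symm]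
    · rw [Finset.sdiff_empty, Finset.sdiff_self, sgn_empty_left, sgn_empty_right, one_smul, one_smul,
        Finset.card_empty, h1, h2, k1, k2]
      rfl
    · intro S hS hne
      rw [h3 S (Finset.mem_powerset.mp hS) hne.2 hne.1, iterate_map_zero, zero_mul, smul_zero]
  · intro S hS hSR hS0
    rw [mul_apply]
    refine Finset.sum_eq_zero (fun S' hS' => ?_)
    rw [Finset.mem_powerset] at hS'
    by_cases h0 : S' = ∅
    · rw [h0, Finset.sdiff_empty, k3 S hS hSR hS0, mul_zero, smul_zero]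
    · rw [h3 S' (hS'.trans hS) (fun e => hSR (Finset.Subset.antisymm hS (e ▸ hS'))) h0, iterate_map_zero, zero_mul,
        smul_zero]

omit hR in
lemma Pr.sub {P Q : Gr γ} {u v u' v' : C} (h : Pr γ R P u v) (h' : Pr γ R Q u' v') :
    Pr γ R (P - Q) (u - u') (v - v') := by
  obtain ⟨h1, h2, h3⟩ := h
  obtain ⟨k1, k2, k3⟩ := h'
  exact ⟨by rw [sub_apply, h1, k1], by rw [sub_apply, h2, k2], fun S hS hSR hS0 => by
    rw [sub_apply, h3 S hS hSR hS0, k3 S hS hSR hS0, sub_zero]⟩

omit hR in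
lemma Pr.par {P : Gr γ} {u v : C} (h : Pr γ R P u v) : Pr γ R (Gr.par γ P) (γ u) ((-1 : ℤ) ^ R.card • γ v) := by
  obtain ⟨h1, h2, h3⟩ := h
  refine ⟨?_, ?_, ?_⟩
  · unfold Gr.par; rw [h1, Finset.card_empty, pow_zero, one_smul]
  · unfold Gr.par; rw [h2]
  · intro S hS hSR hS0
    unfold Gr.par; rw [h3 S hS hSR hS0, map_zero, smul_zero]

variable (x : C) (hx : γ x = - x) (Q : Gr γ) (hQ : Pr γ R Q x 0)
include hx hQ

lemma Pr.br {P : Gr γ} {u v : C} (h : Pr γ R P u v) : Pr γ R (br (Gr.par γ) Q P) (br γ x u) (br γ x v) := by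
  have h1 := (Pr.mul γ R hR h hQ).sub γ R (Pr.mul γ R hR hQ (h.par γ R))
  have h2 : ∀ n : ℕ, γ^[n] x = (-1 : ℤ) ^ n • x := by
    intro n
    induction n with
    | zero => simp
    | succ n ih => rw [Function.iterate_succ_apply', ih, map_zsmul, hx, pow_succ, mul_neg, mul_one, neg_smul, smul_neg]
  rw [mul_zero, zero_add, zero_mul, add_zero, h2, smul_mul_assoc, mul_smul_comm, ← mul_smul, ← mul_pow] at h1
  simpa [SA.br] using h1

lemma Pr.sq {P : Gr γ} {u v : C} (h : Pr γ R P u v) (n : ℕ) :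
    Pr γ R (sq (Gr.par γ) Q P n) (sq γ x u n) (sq γ x v n) := by
  induction n with
  | zero => exact h
  | succ n ih => exact Pr.br γ R hR x hx Q hQ ih

lemma Pr.as {P P' : Gr γ} {u v u' v' : C} (h : Pr γ R P u v) (h' : Pr γ R P' u' v') :
    Pr γ R (as P P' Q) (as u u' x) (as (γ^[R.card] u) v' x + as v u' x) := by
  have h1 := (Pr.mul γ R hR (Pr.mul γ R hR h h') hQ).sub γ R (Pr.mul γ R hR h (Pr.mul γ R hR h' hQ))
  have e : γ^[R.card] (u * u') * 0 + (γ^[R.card] u * v' + v * u') * x - (γ^[R.card] u * (γ^[R.card] u' * 0 + v' * x) +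
      v * (u' * x)) = SA.as (γ^[R.card] u) v' x + SA.as v u' x := by
    unfold SA.as
    simp only [mul_zero, zero_add, add_mul]
    abel
  rw [e] at h1
  exact h1
end

section
variable {C : Type} [NonUnitalNonAssocRing C] (H : SAlg C) (R : Finset ℕ) (hR : R ≠ ∅)

/-- `u + e_R v` -/
def two (γ : C →+ C) (R : Finset ℕ) (u v : C) : Gr γ := fun S => if S = ∅ then u else if S = R then v else 0

include hR in
lemma two_Pr (γ : C →+ C) (u v : C) : Pr γ R (two γ R u v) u v := by
  refine ⟨?_, ?_, fun S _ hSR hS0 => ?_⟩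
  · unfold two; rw [if_pos rfl]
  · unfold two; rw [if_neg hR, if_pos rfl]
  · unfold two; rw [if_neg hS0, if_neg hSR]

lemma two_par (γ : C →+ C) (u v : C) (s : ℤ) (hu : γ u = s • u) (hv : (-1 : ℤ) ^ R.card • γ v = s • v) :
    Gr.par γ (two γ R u v) = s • two γ R u v := by
  funext S
  show (-1 : ℤ) ^ S.card • γ (two γ R u v S) = s • two γ R u v S
  unfold two
  split_ifs with h1 h2
  · rw [h1, Finset.card_empty, pow_zero, one_smul, hu]
  · rw [h2, hv]
  · rw [map_zero, smul_zero, smul_zero]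

include hR in
lemma uel_two (a x y : C) (p : Bool) (hp : (-1 : ℤ) ^ R.card = sg p) (ha : H.g a = a) (hx : H.g x = - x) :
    uel (Gr.par H.g) (two H.g R a y) (two H.g R x 0) 4 ∅ = uel H.g a x 4 ∧
    uel (Gr.par H.g) (two H.g R a y) (two H.g R x 0) 4 R = lin H.g a x p y := by
  have hP := two_Pr R hR H.g a y
  have hQ := two_Pr R hR H.g x 0
  have hPP := Pr.mul H.g R hR hP hP
  have e : ∀ (n : ℕ) (q : Bool) (u : C), H.g u = sg q • u → H.g^[n] u = (sg q) ^ n • u := by
    intro n q u hu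
    induction n with
    | zero => simp
    | succ n ih => rw [Function.iterate_succ_apply', ih, map_zsmul, hu, pow_succ, mul_smul]
  have ha' : H.g^[R.card] a = a := by rw [e _ false a (by simp [ha])]; simp
  rw [ha'] at hPP
  have h1 := Pr.as H.g R hR x hx _ hQ (Pr.sq H.g R hR x hx _ hQ hPP 3) hP
  have h2 := Pr.as H.g R hR x hx _ hQ (Pr.sq H.g R hR x hx _ hQ hP 3) hPP
  have h3 := h1.sub H.g R h2
  have hsq : ∀ (u : C) (n : ℕ), sq H.g x u n = dz H x u n := by
    intro u n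
    induction n with
    | zero => rfl
    | succ n ih => show br H.g x (sq H.g x u n) = _; rw [ih]; rfl
  have haa : H.g (a * a) = a * a := by rw [H.gm, ha]
  have g1 : H.g (sq H.g x (a * a) 3) = sg true • sq H.g x (a * a) 3 := by
    rw [hsq]; exact dz_par H x hx false (a * a) (by simp [haa]) 3
  have g2 : H.g (sq H.g x a 3) = sg true • sq H.g x a 3 := by
    rw [hsq]; exact dz_par H x hx false a (by simp [ha]) 3
  have g1' := e R.card true _ g1
  have g2' := e R.card true _ g2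
  have hp' : (sg true : ℤ) ^ R.card = sg p := hp
  rw [hp'] at g1' g2'
  refine ⟨h3.1, ?_⟩
  refine Eq.trans h3.2.1 ?_
  rw [g1', g2', SAlg.as_zsmul1, SAlg.as_zsmul1]
  unfold lin
  abel
end
end Gr

section
variable {C : Type} [NonUnitalNonAssocRing C] (H : SAlg C) (F : Type) [Field F] [CharZero F] [Module F C]
  (a x : C) (ha : H.g a = a) (hx : H.g x = - x)
include ha hx

omit [CharZero F] in
lemma coef_mem (p : Bool) (y : C) (hy : H.g y = sg p • y) :
    lin H.g a x p y ∈ Verb F H.g ∧ uel H.g a x 4 ∈ Verb F H.g := by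
  obtain ⟨R, hR, hp⟩ : ∃ R : Finset ℕ, R ≠ ∅ ∧ (-1 : ℤ) ^ R.card = sg p := by
    cases p
    · exact ⟨{0, 1}, by simp, by simp⟩
    · exact ⟨{0}, by simp, by simp⟩
  have h := Gr.uel_two H R hR a x y p hp ha hx
  have hP : Gr.par H.g (Gr.two H.g R a y) = Gr.two H.g R a y := by
    have := Gr.two_par R H.g a y 1 (by simp [ha]) (by rw [hp, hy, ← mul_smul, sg_mul_self])
    simpa using this
  have hQ : Gr.par H.g (Gr.two H.g R x 0) = - Gr.two H.g R x 0 := by
    have := Gr.two_par R H.g x 0 (-1) (by simp [hx]) (by simp)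
    simpa using this
  unfold Verb
  rw [Submodule.mem_sInf, Submodule.mem_sInf]
  constructor
  · intro V hV
    rw [← h.2]
    exact hV.2 _ _ hP hQ R
  · intro V hV
    rw [← h.1]
    exact hV.2 _ _ hP hQ ∅

omit F [Field F] [CharZero F] [Module F C] in
/-- the elements `u_n` for an even `a` and an odd `x` in an alternative superalgebra -/
theorem main_formulas :
    (∀ n, 1 ≤ n → n ≤ 3 → uel H.g a x n = 0) ∧
    (∀ n, 6 ≤ n → (n % 4 = 2 ∨ n % 4 = 3) → uel H.g a x n = 0) ∧
    (∀ n, 5 ≤ n → n % 4 = 0 → (2 : ℤ) • uel H.g a x n = lin H.g a x false (sq H.g x a (n - 4))) ∧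
    (∀ n, 5 ≤ n → n % 4 = 1 → (2 : ℤ) • uel H.g a x n = lin H.g a x true (sq H.g x a (n - 4))) := by
  have hsq : ∀ (u : C) (n : ℕ), sq H.g x u n = dz H x u n := by
    intro u n
    induction n with
    | zero => rfl
    | succ n ih => show br H.g x (sq H.g x u n) = _; rw [ih]; rfl
  have hu : ∀ N, uel H.g a x (N + 1) = uu H a x N := by
    intro N
    unfold uel uu
    rw [hsq, hsq]; rfl
  have hl : ∀ p y, lin H.g a x p y = L4 H a x p y := by
    intro p y
    unfold lin L4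
    rw [hsq, hsq, hsq, hsq]
  have hd : ∀ n, sq H.g x a n = dn H a x n := fun n => hsq a n
  obtain ⟨h0, h1, h2, h4, h5, h6, hT⟩ := uu_all H a x ha hx
  refine ⟨?_, ?_, ?_, ?_⟩
  · intro n hn1 hn3
    obtain rfl | rfl | rfl : n = 0 + 1 ∨ n = 1 + 1 ∨ n = 2 + 1 := by omega
    · rw [hu, h0]
    · rw [hu, h1]
    · rw [hu, h2]
  · intro n hn hmod
    rcases hmod with hmod | hmod
    · rcases Nat.lt_or_ge n 10 with hlt | hge
      · obtain rfl : n = 5 + 1 := by omega
        rw [hu, h5]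
      · obtain ⟨t, rfl⟩ : ∃ t, n = 4 * t + 9 + 1 := ⟨(n - 10) / 4, by omega⟩
        rw [hu, (hT t).2.2.1]
    · rcases Nat.lt_or_ge n 11 with hlt | hge
      · obtain rfl : n = 6 + 1 := by omega
        rw [hu, h6]
      · obtain ⟨t, rfl⟩ : ∃ t, n = 4 * t + 10 + 1 := ⟨(n - 11) / 4, by omega⟩
        rw [hu, (hT t).2.2.2]
  · intro n hn hmod
    obtain ⟨t, rfl⟩ : ∃ t, n = 4 * t + 7 + 1 := ⟨(n - 8) / 4, by omega⟩
    rw [hu, hl, hd, (hT t).1, show 4 * t + 7 + 1 - 4 = 4 * t + 4 by omega]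
  · intro n hn hmod
    rcases Nat.lt_or_ge n 9 with hlt | hge
    · obtain rfl : n = 4 + 1 := by omega
      rw [hu, hl, hd, h4]
    · obtain ⟨t, rfl⟩ : ∃ t, n = 4 * t + 8 + 1 := ⟨(n - 9) / 4, by omega⟩
      rw [hu, hl, hd, (hT t).2.1, show 4 * t + 8 + 1 - 4 = 4 * t + 5 by omega]

/-- all the elements `u_n` lie in the verbal subsuperalgebra generated by `u_4` -/
theorem main_verbal (n : ℕ) (hn : 1 ≤ n) : uel H.g a x n ∈ Verb F H.g := by
  obtain ⟨h1, h2, h3, h4⟩ := main_formulas H a x ha hx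
  have hsq : ∀ (u : C) (n : ℕ), sq H.g x u n = dz H x u n := by
    intro u n
    induction n with
    | zero => rfl
    | succ n ih => show br H.g x (sq H.g x u n) = _; rw [ih]; rfl
  have hpar : ∀ m, H.g (sq H.g x a m) = sg m.bodd • sq H.g x a m := by
    intro m
    rw [hsq]
    exact dn_par H a x ha hx m
  have half : ∀ u : C, (2 : ℤ) • u ∈ Verb F H.g → u ∈ Verb F H.g := by
    intro u hu
    have h := (Verb F H.g).smul_mem (2 : F)⁻¹ hu
    have e : (2 : F)⁻¹ • ((2 : ℤ) • u) = u := by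
      rw [two_zsmul, ← two_smul F u, ← mul_smul, inv_mul_cancel₀ (by norm_num), one_smul]
    rwa [e] at h
  rcases Nat.lt_or_ge n 5 with h5 | h5
  · rcases Nat.lt_or_ge n 4 with h6 | h6
    · rw [h1 n hn (by omega)]
      exact Submodule.zero_mem _
    · obtain rfl : n = 4 := by omega
      exact (coef_mem H F a x ha hx false 0 (by simp)).2
  · have hm : n % 4 = 0 ∨ n % 4 = 1 ∨ n % 4 = 2 ∨ n % 4 = 3 := by omega
    rcases hm with hm | hm | hm
    · refine half _ ?_
      rw [h3 n h5 hm]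
      refine (coef_mem H F a x ha hx false _ ?_).1
      obtain ⟨s, hs⟩ : ∃ s, n - 4 = 2 * s + 0 := ⟨(n - 4) / 2, by omega⟩
      have h := hpar (n - 4)
      have e : (n - 4).bodd = false := by rw [hs, be]; rfl
      rwa [e] at h
    · refine half _ ?_
      rw [h4 n h5 hm]
      refine (coef_mem H F a x ha hx true _ ?_).1
      obtain ⟨s, hs⟩ : ∃ s, n - 4 = 2 * s + 1 := ⟨(n - 4) / 2, by omega⟩
      have h := hpar (n - 4)
      have e : (n - 4).bodd = true := by rw [hs, be]; rfl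
      rwa [e] at h
    · rw [h2 n (by omega) hm]
      exact Submodule.zero_mem _
end
end Pool.Agent.N33.SA
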