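import Pool.Agent.N33.SA.Bil3
set_option autoImplicit false

/-! Certificate of level 5. -/

namespace Pool.Agent.N33.SA

def rows5_0 : List BR := [
  ⟨0, 3, 0, [2], [-538]⟩,
  ⟨0, 15, 0, [], [672]⟩,
  ⟨9, 0, 0, [], [-122]⟩,
  ⟨0, 0, 1, [2], [479]⟩,
  ⟨0, 43, 2, [], [-187]⟩,
  ⟨0, 13, 2, [], [-975]⟩,
  ⟨0, 19, 2, [], [644]⟩,
  ⟨3, 10, 2, [], [-299]⟩,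
  ⟨3, 4, 2, [], [-2065]⟩,
  ⟨4, 3, 2, [], [1846]⟩,
  ⟨0, 10, 3, [], [262]⟩,
  ⟨4, 0, 3, [], [-1802]⟩,
  ⟨3, 3, 4, [], [-372]⟩,
  ⟨4, 0, 4, [], [1392]⟩,
  ⟨3, 0, 6, [], [-215]⟩,
  ⟨3, 0, 7, [], [327]⟩,
  ⟨0, 0, 0, [3], [-1105]⟩,
  ⟨0, 0, 0, [0,2], [-1363]⟩,
  ⟨0, 0, 0, [2,0], [410]⟩,
  ⟨0, 10, 2, [0], [411]⟩,
  ⟨3, 0, 3, [0], [-476]⟩,
  ⟨3, 0, 4, [0], [140]⟩]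

def rows5 : List BR := rows5_0

def ds5 : List ℤ := [224]

def tg5_0 : List TQ := [
  ⟨1, [0], [], [0,0,0,3]⟩,
  ⟨1, [0,3], [], [0,0,0]⟩,
  ⟨-1, [0], [], [3,0,0,0]⟩,
  ⟨-2, [0,0,0,3], [], [0]⟩,
  ⟨2, [0], [], [0,0,3,0]⟩,
  ⟨-2, [0,0,0,0,2], [], [0]⟩,
  ⟨2, [0], [], [0,0,0,2,0]⟩,
  ⟨4, [0,0,1,2], [], [0]⟩,
  ⟨-4, [0], [], [0,1,2,0]⟩,
  ⟨-2, [0,1,0,2], [], [0]⟩,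
  ⟨2, [0], [], [1,0,2,0]⟩,
  ⟨-2, [0,1,3], [], [0]⟩,
  ⟨2, [0], [], [1,3,0]⟩,
  ⟨2, [0,0,3], [], [0,0]⟩,
  ⟨-2, [0], [], [0,3,0,0]⟩,
  ⟨-2, [0,0,0,0,3], [], []⟩,
  ⟨2, [0], [], [0,0,0,3]⟩,
  ⟨-2, [0,0,0,0,0,2], [], []⟩,
  ⟨2, [0], [], [0,0,0,0,2]⟩,
  ⟨4, [0,0,0,1,2], [], []⟩,
  ⟨-4, [0], [], [0,0,1,2]⟩,
  ⟨-4, [0,0,1,0,2], [], []⟩,
  ⟨4, [0], [], [0,1,0,2]⟩,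
  ⟨-4, [0,0,1,3], [], []⟩,
  ⟨4, [0], [], [0,1,3]⟩,
  ⟨2, [0,0,0,2], [], [0,0]⟩,
  ⟨-2, [0], [], [0,0,2,0,0]⟩,
  ⟨-2, [0,1,2], [], [0,0]⟩,
  ⟨2, [0], [], [1,2,0,0]⟩,
  ⟨-2, [0,1,0,0,2], [], []⟩,
  ⟨2, [0], [], [1,0,0,2]⟩,
  ⟨-2, [0,1,0,3], [], []⟩,
  ⟨2, [0], [], [1,0,3]⟩,
  ⟨4, [0,1,1,2], [], []⟩,
  ⟨-4, [0], [], [1,1,2]⟩,
  ⟨-1, [0,0,0,0,3], [], []⟩,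
  ⟨-4, [0,0], [0,0,3], []⟩]

def tgs5 : List (List TQ) := [tg5_0]

end Pool.Agent.N33.SA
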