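import Pool.Agent.N33.SA.Bil3
set_option autoImplicit false

/-! Certificate of level 6. -/

namespace Pool.Agent.N33.SA

def rows6_0 : List BR := [
  ⟨0, 10, 0, [2], [-3052]⟩,
  ⟨0, 4, 0, [2], [872]⟩,
  ⟨0, 46, 0, [], [2354]⟩,
  ⟨0, 58, 0, [], [360]⟩,
  ⟨0, 22, 0, [], [1136]⟩,
  ⟨3, 15, 0, [], [-360]⟩,
  ⟨9, 3, 0, [], [436]⟩,
  ⟨34, 0, 0, [], [-324]⟩,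
  ⟨46, 0, 0, [], [-2978]⟩,
  ⟨0, 3, 1, [2], [-3004]⟩,
  ⟨0, 15, 1, [], [888]⟩,
  ⟨9, 0, 1, [], [748]⟩,
  ⟨0, 170, 2, [], [-4692]⟩,
  ⟨0, 44, 2, [], [-1124]⟩,
  ⟨0, 74, 2, [], [372]⟩,
  ⟨0, 20, 2, [], [365]⟩,
  ⟨3, 43, 2, [], [516]⟩,
  ⟨3, 13, 2, [], [-1259]⟩,
  ⟨3, 19, 2, [], [-210]⟩,
  ⟨10, 10, 2, [], [24]⟩,
  ⟨10, 4, 2, [], [-922]⟩,
  ⟨4, 4, 2, [], [63]⟩,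
  ⟨43, 3, 2, [], [456]⟩,
  ⟨13, 3, 2, [], [-1168]⟩,
  ⟨19, 3, 2, [], [-112]⟩,
  ⟨170, 0, 2, [], [4656]⟩,
  ⟨0, 43, 3, [], [108]⟩,
  ⟨0, 13, 3, [], [-1486]⟩,
  ⟨0, 19, 3, [], [584]⟩,
  ⟨3, 10, 3, [], [-2436]⟩,
  ⟨3, 4, 3, [], [-956]⟩,
  ⟨10, 3, 3, [], [2424]⟩,
  ⟨4, 3, 3, [], [740]⟩,
  ⟨0, 43, 4, [], [-12]⟩,
  ⟨0, 13, 4, [], [-1156]⟩,
  ⟨0, 19, 4, [], [476]⟩,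
  ⟨3, 10, 4, [], [900]⟩,
  ⟨3, 4, 4, [], [960]⟩,
  ⟨10, 3, 4, [], [-1032]⟩,
  ⟨4, 3, 4, [], [-528]⟩]

def rows6_1 : List BR := [
  ⟨43, 0, 4, [], [-120]⟩,
  ⟨13, 0, 4, [], [2792]⟩,
  ⟨19, 0, 4, [], [-1372]⟩,
  ⟨0, 10, 6, [], [24]⟩,
  ⟨0, 4, 6, [], [-268]⟩,
  ⟨3, 3, 6, [], [582]⟩,
  ⟨0, 10, 7, [], [24]⟩,
  ⟨0, 4, 7, [], [164]⟩,
  ⟨3, 3, 7, [], [-1110]⟩,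
  ⟨0, 3, 0, [3], [-1892]⟩,
  ⟨0, 3, 0, [0,2], [-108]⟩,
  ⟨0, 3, 0, [2,0], [-624]⟩,
  ⟨0, 15, 0, [0], [-168]⟩,
  ⟨9, 0, 0, [0], [-556]⟩,
  ⟨0, 0, 1, [3], [406]⟩,
  ⟨0, 0, 1, [0,2], [692]⟩,
  ⟨0, 0, 1, [2,0], [-480]⟩,
  ⟨0, 43, 2, [0], [60]⟩,
  ⟨0, 13, 2, [0], [-189]⟩,
  ⟨0, 10, 3, [0], [-144]⟩,
  ⟨3, 0, 6, [0], [-48]⟩]

def rows6 : List BR := rows6_0 ++ (rows6_1)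

def ds6 : List ℤ := [48]

def tg6_0 : List TQ := [
  ⟨2, [0,0], [0,0,0,3], []⟩,
  ⟨2, [0,0,0], [0,0,3], []⟩,
  ⟨1, [0,0,0,0], [0,3], []⟩,
  ⟨1, [0], [0,0,0,0,3], []⟩]

def tgs6 : List (List TQ) := [tg6_0]

end Pool.Agent.N33.SA
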