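import Pool.Agent.N33.SA.Bil3
set_option autoImplicit false

/-! Certificate of level 7. -/

namespace Pool.Agent.N33.SA

def rows7_0 : List BR := [
  ⟨0, 43, 0, [2], [1312939968]⟩,
  ⟨0, 13, 0, [2], [5774158080]⟩,
  ⟨0, 19, 0, [2], [1386639248]⟩,
  ⟨0, 25, 0, [], [-58531700497]⟩,
  ⟨0, 175, 0, [], [3038935772]⟩,
  ⟨0, 187, 0, [], [-25928653092]⟩,
  ⟨0, 235, 0, [], [1403908548]⟩,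
  ⟨0, 61, 0, [], [-1346515428]⟩,
  ⟨0, 55, 0, [], [-5819040660]⟩,
  ⟨0, 79, 0, [], [5440949476]⟩,
  ⟨0, 91, 0, [], [-3113635260]⟩,
  ⟨3, 10, 0, [2], [1545012912]⟩,
  ⟨3, 4, 0, [2], [-2517577072]⟩,
  ⟨3, 46, 0, [], [-10583358650]⟩,
  ⟨3, 58, 0, [], [775948416]⟩,
  ⟨3, 22, 0, [], [-1680094408]⟩,
  ⟨9, 10, 0, [], [1496986136]⟩,
  ⟨9, 4, 0, [], [-2452543616]⟩,
  ⟨15, 10, 0, [], [-805197792]⟩,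
  ⟨15, 4, 0, [], [-66651520]⟩,
  ⟨34, 3, 0, [], [-2348639028]⟩,
  ⟨46, 3, 0, [], [11915113898]⟩,
  ⟨25, 0, 0, [], [58546580817]⟩,
  ⟨175, 0, 0, [], [-3136202732]⟩,
  ⟨187, 0, 0, [], [28602493224]⟩,
  ⟨0, 10, 1, [2], [1595554368]⟩,
  ⟨0, 4, 1, [2], [2761896992]⟩,
  ⟨0, 46, 1, [], [2725544592]⟩,
  ⟨0, 58, 1, [], [302143104]⟩,
  ⟨0, 22, 1, [], [-4304857464]⟩,
  ⟨3, 15, 1, [], [1780952160]⟩,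
  ⟨9, 3, 1, [], [1471715408]⟩,
  ⟨34, 0, 1, [], [1582594852]⟩,
  ⟨0, 683, 2, [], [-18050520]⟩,
  ⟨0, 173, 2, [], [252120916]⟩,
  ⟨0, 299, 2, [], [-208624912]⟩,
  ⟨0, 77, 2, [], [516389328]⟩,
  ⟨0, 83, 2, [], [501201122]⟩,
  ⟨3, 170, 2, [], [-335744196]⟩,
  ⟨3, 44, 2, [], [6698446308]⟩]

def rows7_1 : List BR := [
  ⟨3, 74, 2, [], [-2283959368]⟩,
  ⟨3, 20, 2, [], [2078204890]⟩,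
  ⟨10, 43, 2, [], [31460124]⟩,
  ⟨10, 13, 2, [], [1250967416]⟩,
  ⟨10, 19, 2, [], [-608618688]⟩,
  ⟨4, 43, 2, [], [-835223640]⟩,
  ⟨4, 13, 2, [], [-212149560]⟩,
  ⟨4, 19, 2, [], [649186188]⟩,
  ⟨170, 3, 2, [], [383706360]⟩,
  ⟨44, 3, 2, [], [-7818742760]⟩,
  ⟨74, 3, 2, [], [1283821448]⟩,
  ⟨20, 3, 2, [], [-2579431280]⟩,
  ⟨0, 170, 3, [], [-197007240]⟩,
  ⟨0, 44, 3, [], [-533306676]⟩,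
  ⟨0, 74, 3, [], [881869700]⟩,
  ⟨0, 20, 3, [], [-1046478876]⟩,
  ⟨3, 43, 3, [], [-4775452140]⟩,
  ⟨3, 13, 3, [], [6455698268]⟩,
  ⟨3, 19, 3, [], [14736049096]⟩,
  ⟨10, 10, 3, [], [-18050520]⟩,
  ⟨10, 4, 3, [], [-639755968]⟩,
  ⟨4, 4, 3, [], [1073172990]⟩,
  ⟨43, 3, 3, [], [-4853069376]⟩,
  ⟨13, 3, 3, [], [5918680624]⟩,
  ⟨19, 3, 3, [], [14331166848]⟩,
  ⟨0, 170, 4, [], [-55700040]⟩,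
  ⟨0, 44, 4, [], [-2473868908]⟩,
  ⟨0, 74, 4, [], [1532917228]⟩,
  ⟨0, 20, 4, [], [9176228688]⟩,
  ⟨3, 43, 4, [], [5435588028]⟩,
  ⟨3, 13, 4, [], [-4644246164]⟩,
  ⟨3, 19, 4, [], [-4744731480]⟩,
  ⟨10, 10, 4, [], [-46931352]⟩,
  ⟨10, 4, 4, [], [964665328]⟩,
  ⟨4, 4, 4, [], [-205508238]⟩,
  ⟨43, 3, 4, [], [5515266888]⟩,
  ⟨13, 3, 4, [], [-5255007648]⟩,
  ⟨19, 3, 4, [], [-5987857120]⟩,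
  ⟨170, 0, 4, [], [158844576]⟩,
  ⟨44, 0, 4, [], [3886601168]⟩]

def rows7_2 : List BR := [
  ⟨74, 0, 4, [], [-1997537104]⟩,
  ⟨20, 0, 4, [], [-8163977240]⟩,
  ⟨0, 43, 6, [], [-85094016]⟩,
  ⟨0, 13, 6, [], [485304592]⟩,
  ⟨0, 19, 6, [], [-340472028]⟩,
  ⟨3, 10, 6, [], [-4202967484]⟩,
  ⟨3, 4, 6, [], [1822829488]⟩,
  ⟨10, 3, 6, [], [4183111912]⟩,
  ⟨4, 3, 6, [], [-2198563208]⟩,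
  ⟨0, 43, 7, [], [128415264]⟩,
  ⟨0, 13, 7, [], [-409786304]⟩,
  ⟨0, 19, 7, [], [340472028]⟩,
  ⟨3, 10, 7, [], [4623801172]⟩,
  ⟨3, 4, 7, [], [331209104]⟩,
  ⟨10, 3, 7, [], [-4582284976]⟩,
  ⟨0, 10, 0, [3], [-990721440]⟩,
  ⟨0, 10, 0, [0,2], [-3960694560]⟩,
  ⟨0, 10, 0, [2,0], [-649818720]⟩,
  ⟨0, 4, 0, [3], [1680838776]⟩,
  ⟨0, 4, 0, [0,2], [2471629696]⟩,
  ⟨0, 4, 0, [2,0], [-1521451680]⟩,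
  ⟨0, 46, 0, [0], [-1548361488]⟩,
  ⟨0, 58, 0, [0], [-57393120]⟩,
  ⟨0, 22, 0, [0], [2248084104]⟩,
  ⟨3, 15, 0, [0], [-718555296]⟩,
  ⟨9, 3, 0, [0], [-1273159688]⟩,
  ⟨34, 0, 0, [0], [1178974636]⟩,
  ⟨0, 3, 1, [3], [-1944155600]⟩,
  ⟨0, 3, 1, [0,2], [-3751127248]⟩,
  ⟨0, 3, 1, [2,0], [-1459508304]⟩,
  ⟨0, 15, 1, [0], [129963744]⟩,
  ⟨9, 0, 1, [0], [39711144]⟩,
  ⟨0, 170, 2, [0], [18050520]⟩,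
  ⟨0, 44, 2, [0], [153817160]⟩,
  ⟨0, 74, 2, [0], [208624912]⟩,
  ⟨0, 20, 2, [0], [-274035682]⟩,
  ⟨3, 43, 2, [0], [-1030812]⟩,
  ⟨3, 13, 2, [0], [606380500]⟩,
  ⟨3, 19, 2, [0], [791513008]⟩,
  ⟨0, 10, 6, [0], [-64981872]⟩]

def rows7 : List BR := rows7_0 ++ (rows7_1 ++ (rows7_2))

def ds7 : List ℤ := [129963744]

def tg7_0 : List TQ := [
  ⟨1, [0,0], [0,0,0,0,3], []⟩,
  ⟨1, [0,0,0,0], [0,0,3], []⟩]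

def tgs7 : List (List TQ) := [tg7_0]

end Pool.Agent.N33.SA
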