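import Pool.Agent.N33.SA.Bil4
set_option autoImplicit false

/-! Rows of the certificate of level 8, part 1. -/

noncomputable section
namespace Pool.Agent.N33.SA

def rows8_1 : List BR := [
  ⟨0, 44, 0, [2], []⟩,
  ⟨0, 242, 0, [], []⟩,
  ⟨6, 44, 0, [], []⟩,
  ⟨3, 187, 0, [], []⟩,
  ⟨9, 19, 0, [], []⟩,
  ⟨10, 4, 0, [2], []⟩,
  ⟨4, 22, 0, [], []⟩,
  ⟨106, 4, 0, [], []⟩,
  ⟨43, 15, 0, [], []⟩,
  ⟨55, 3, 0, [], []⟩,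
  ⟨74, 0, 0, [2], []⟩,
  ⟨218, 0, 0, [], []⟩,
  ⟨92, 0, 0, [], []⟩,
  ⟨0, 235, 1, [], []⟩,
  ⟨3, 10, 1, [2], []⟩,
  ⟨15, 4, 1, [], []⟩,
  ⟨46, 3, 1, [], []⟩,
  ⟨25, 0, 1, [], []⟩,
  ⟨115, 0, 1, [], []⟩,
  ⟨3, 683, 2, [], []⟩,
  ⟨4, 170, 2, [], []⟩,
  ⟨13, 13, 2, [], []⟩,
  ⟨44, 4, 2, [], []⟩,
  ⟨77, 3, 2, [], []⟩,
  ⟨0, 173, 3, [], []⟩,
  ⟨10, 13, 3, [], []⟩,
  ⟨13, 4, 3, [], []⟩,
  ⟨173, 0, 3, [], []⟩,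
  ⟨3, 44, 4, [], []⟩,
  ⟨4, 19, 4, [], []⟩,
  ⟨44, 3, 4, [], []⟩,
  ⟨0, 170, 6, [], []⟩,
  ⟨4, 10, 6, [], []⟩,
  ⟨20, 0, 6, [], []⟩,
  ⟨10, 4, 7, [], []⟩,
  ⟨0, 13, 0, [3], []⟩,
  ⟨0, 187, 0, [0], []⟩,
  ⟨6, 19, 0, [0], []⟩,
  ⟨3, 58, 0, [0], []⟩,
  ⟨10, 3, 0, [3], []⟩,
  ⟨34, 3, 0, [0], []⟩,
  ⟨43, 0, 0, [2,0], []⟩,
  ⟨175, 0, 0, [0], []⟩,
  ⟨79, 0, 0, [0], []⟩,
  ⟨0, 46, 1, [0], []⟩,
  ⟨3, 15, 1, [0], []⟩,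
  ⟨4, 0, 1, [0,2], []⟩,
  ⟨0, 683, 2, [0], []⟩,
  ⟨3, 10, 6, [0], []⟩,
  ⟨0, 4, 0, [1,2], []⟩,
  ⟨6, 10, 0, [1], []⟩,
  ⟨9, 3, 0, [1], []⟩,
  ⟨4, 0, 0, [2,1], []⟩,
  ⟨22, 0, 0, [0,0], []⟩,
  ⟨6, 3, 1, [1], []⟩,
  ⟨27, 0, 1, [0,0], []⟩]

def lits8_1_0 : List Q := [
  (Q.cons 3 (V.cons 1359 1 (V.cons 5295 (-1) V.nil)) (Q.cons 4 (V.cons 1326 1 V.nil) (Q.cons 10 (V.cons 1326 (-1) V.nil) (Q.cons 13 (V.cons 335 (-1) V.nil) (Q.cons 15 (V.cons 339 1 (V.cons 1323 (-1) V.nil)) (Q.cons 19 (V.cons 335 1 V.nil) (Q.cons 22 (V.cons 330 1 V.nil) (Q.cons 46 (V.cons 330 (-1) V.nil) (Q.cons 55 (V.cons 83 (-1) V.nil) (Q.cons 79 (V.cons 83 1 V.nil) Q.nil)))))))))),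
  (Q.cons 4 (V.cons 342 (-13) (V.cons 348 11 (V.cons 372 36 (V.cons 978 1 (V.cons 1206 10 (V.cons 1242 16 (V.cons 1260 (-7) (V.cons 1266 5 (V.cons 1326 3 (V.cons 1338 (-16) (V.cons 1386 (-11) (V.cons 1452 (-7) (V.cons 1482 (-28) (V.cons 3498 3 (V.cons 5034 (-1) (V.cons 5802 (-1) V.nil)))))))))))))))) (Q.cons 10 (V.cons 342 5 (V.cons 348 (-9) (V.cons 372 (-18) (V.cons 978 (-1) (V.cons 1206 (-4) (V.cons 1242 (-9) (V.cons 1260 3 (V.cons 1266 (-3) (V.cons 1326 (-1) (V.cons 1338 9 (V.cons 1386 9 (V.cons 1452 3 (V.cons 1482 15 V.nil))))))))))))) (Q.cons 13 (V.cons 971 (-1) V.nil) (Q.cons 19 (V.cons 971 1 V.nil) Q.nil)))),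
  (Q.cons 27 (V.cons 339 1 (V.cons 1323 (-1) V.nil)) (Q.cons 28 (V.cons 330 1 V.nil) (Q.cons 106 (V.cons 330 (-1) V.nil) (Q.cons 109 (V.cons 83 (-1) V.nil) (Q.cons 115 (V.cons 83 1 V.nil) Q.nil))))),
  (Q.cons 3 (V.cons 1341 3 (V.cons 1359 (-1) (V.cons 1395 1 (V.cons 5295 1 (V.cons 5355 (-3) (V.cons 5547 (-1) V.nil)))))) (Q.cons 10 (V.cons 342 (-2) (V.cons 348 (-1) (V.cons 372 8 (V.cons 978 (-1) (V.cons 1206 1 (V.cons 1242 2 (V.cons 1260 (-3) (V.cons 1266 3 (V.cons 1326 1 (V.cons 1338 (-2) (V.cons 1386 1 (V.cons 1452 (-3) (V.cons 1482 (-5) (V.cons 3756 1 V.nil)))))))))))))) (Q.cons 13 (V.cons 221 (-4) (V.cons 245 1 (V.cons 311 4 (V.cons 317 6 (V.cons 335 (-4) (V.cons 365 6 (V.cons 371 (-5) (V.cons 875 (-2) (V.cons 941 (-2) (V.cons 3755 1 V.nil)))))))))) (Q.cons 20 (V.cons 86 (-2) (V.cons 182 1 (V.cons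 236 (-1) (V.cons 302 1 (V.cons 362 (-1) (V.cons 938 1 V.nil)))))) (Q.cons 43 (V.cons 221 3 (V.cons 245 (-1) (V.cons 311 (-3) (V.cons 317 (-4) (V.cons 335 3 (V.cons 347 (-1) (V.cons 365 (-4) (V.cons 371 3 (V.cons 941 1 (V.cons 1211 1 (V.cons 1259 1 V.nil))))))))))) (Q.cons 44 (V.cons 86 2 (V.cons 182 (-1) (V.cons 236 1 (V.cons 302 (-1) (V.cons 362 1 (V.cons 938 (-1) V.nil)))))) Q.nil)))))),
  (Q.cons 25 (V.cons 77 (-2) (V.cons 299 1 V.nil)) (Q.cons 34 (V.cons 84 1 (V.cons 300 (-1) V.nil)) (Q.cons 55 (V.cons 77 5 (V.cons 299 (-2) V.nil)) (Q.cons 61 (V.cons 77 1 V.nil) (Q.cons 79 (V.cons 77 (-5) (V.cons 299 2 V.nil)) (Q.cons 91 (V.cons 77 1 V.nil) (Q.cons 92 (V.cons 74 (-2) V.nil) (Q.cons 109 (V.cons 77 5 (V.cons 299 (-2) V.nil)) (Q.cons 115 (V.cons 77 (-3) (V.cons 299 2 V.nil)) (Q.cons 116 (V.cons 74 (-4)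 V.nil) (Q.cons 187 (V.cons 77 (-1) V.nil) (Q.cons 218 (V.cons 74 (-2) V.nil) (Q.cons 235 (V.cons 77 (-1) V.nil) (Q.cons 314 (V.cons 74 2 V.nil) (Q.cons 362 (V.cons 74 2 V.nil) (Q.cons 427 (V.cons 77 (-2) V.nil) (Q.cons 428 (V.cons 74 2 V.nil) (Q.cons 458 (V.cons 74 2 V.nil) Q.nil)))))))))))))))))),
  (Q.cons 43 (V.cons 311 1 (V.cons 335 (-1) V.nil)) (Q.cons 44 (V.cons 86 2 (V.cons 302 (-1) V.nil)) (Q.cons 83 (V.cons 79 1 V.nil) (Q.cons 170 (V.cons 86 (-1) V.nil) (Q.cons 173 (V.cons 79 (-1) V.nil) (Q.cons 175 (V.cons 77 1 (V.cons 83 (-1) V.nil)) (Q.cons 182 (V.cons 20 2 (V.cons 74 (-1) V.nil)) (Q.cons 221 (V.cons 19 3 V.nil) (Q.cons 245 (V.cons 19 1 V.nil) (Q.cons 311 (V.cons 19 (-3) V.nil) (Q.cons 317 (V.cons 19 (-4) V.nil) (Q.cons 335 (V.cons 19 3 V.nil) (Q.cons 347 (V.cons 19 (-2) V.nil) (Q.cons 365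 (V.cons 19 (-4) V.nil) (Q.cons 371 (V.cons 19 3 V.nil) (Q.cons 461 (V.cons 19 (-3) V.nil) (Q.cons 467 (V.cons 19 2 V.nil) (Q.cons 686 (V.cons 20 (-1) V.nil) (Q.cons 875 (V.cons 19 (-2) V.nil) (Q.cons 971 (V.cons 19 (-1) V.nil) (Q.cons 1211 (V.cons 19 2 V.nil) (Q.cons 1259 (V.cons 19 3 V.nil) (Q.cons 1451 (V.cons 19 1 V.nil) (Q.cons 1835 (V.cons 19 1 V.nil) Q.nil)))))))))))))))))))))))),
  (Q.cons 19 (V.cons 365 1 (V.cons 371 (-1) V.nil)) (Q.cons 20 (V.cons 92 2 (V.cons 362 (-1) V.nil)) (Q.cons 74 (V.cons 92 (-1) V.nil) (Q.cons 77 (V.cons 91 (-1) V.nil) (Q.cons 83 (V.cons 91 1 V.nil) Q.nil))))),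
  (Q.cons 427 (V.cons 77 1 (V.cons 83 (-1) V.nil)) (Q.cons 428 (V.cons 20 2 (V.cons 74 (-1) V.nil)) (Q.cons 467 (V.cons 19 1 V.nil) (Q.cons 1706 (V.cons 20 (-1) V.nil) (Q.cons 1709 (V.cons 19 (-1) V.nil) Q.nil))))),
  (Q.cons 170 (V.cons 236 (-1) (V.cons 242 1 V.nil)) (Q.cons 173 (V.cons 61 2 (V.cons 235 (-1) V.nil)) (Q.cons 330 (V.cons 58 (-1) V.nil) (Q.cons 683 (V.cons 61 (-1) V.nil) (Q.cons 684 (V.cons 58 1 V.nil) Q.nil))))),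
  (Q.cons 218 (V.cons 20 1 (V.cons 44 (-1) V.nil)) (Q.cons 221 (V.cons 13 2 (V.cons 43 (-1) V.nil)) (Q.cons 342 (V.cons 10 1 V.nil) (Q.cons 348 (V.cons 10 (-3) V.nil) (Q.cons 372 (V.cons 10 (-6) V.nil) (Q.cons 875 (V.cons 13 (-1) V.nil) (Q.cons 1206 (V.cons 10 (-1) V.nil) (Q.cons 1242 (V.cons 10 (-3) V.nil) (Q.cons 1260 (V.cons 10 1 V.nil) (Q.cons 1266 (V.cons 10 (-1) V.nil) (Q.cons 1338 (V.cons 10 3 V.nil) (Q.cons 1386 (V.cons 10 3 V.nil) (Q.cons 1452 (V.cons 10 1 V.nil) (Q.cons 1482 (V.cons 10 5 V.nil) Q.nil))))))))))))))]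

def lits8_1_1 : List Q := [
  (Q.cons 299 (V.cons 55 1 (V.cons 79 (-1) V.nil)) (Q.cons 300 (V.cons 22 2 (V.cons 46 (-1) V.nil)) (Q.cons 339 (V.cons 15 1 V.nil) (Q.cons 1194 (V.cons 22 (-1) V.nil) (Q.cons 1197 (V.cons 15 (-1) V.nil) (Q.cons 1199 (V.cons 13 1 (V.cons 19 (-1) V.nil)) (Q.cons 1206 (V.cons 4 2 (V.cons 10 (-1) V.nil)) (Q.cons 1341 (V.cons 3 12 V.nil) (Q.cons 1359 (V.cons 3 (-2) V.nil) (Q.cons 1395 (V.cons 3 10 V.nil) (Q.cons 4782 (V.cons 4 (-1) V.nil) (Q.cons 5295 (V.cons 3 2 V.nil) (Q.cons 5355 (V.cons 3 (-12) V.nil) (Q.cons 5547 (V.cons 3 (-10) V.nil) Q.nil)))))))))))))),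
  (Q.cons 342 (V.cons 4 2 (V.cons 10 (-1) V.nil)) (Q.cons 348 (V.cons 4 (-4) (V.cons 10 2 V.nil)) (Q.cons 372 (V.cons 4 (-10) (V.cons 10 5 V.nil)) (Q.cons 875 (V.cons 13 1 (V.cons 19 (-1) V.nil)) (Q.cons 1206 (V.cons 4 (-2) (V.cons 10 1 V.nil)) (Q.cons 1242 (V.cons 4 (-4) (V.cons 10 2 V.nil)) (Q.cons 1260 (V.cons 4 2 (V.cons 10 (-1) V.nil)) (Q.cons 1338 (V.cons 4 4 (V.cons 10 (-2) V.nil)) (Q.cons 1341 (V.cons 3 (-2) V.nil) (Q.cons 1359 (V.cons 3 1 V.nil) (Q.cons 1386 (V.cons 4 4 (V.cons 10 (-2) V.nil)) (Q.cons 1395 (V.cons 3 (-1) V.nil) (Q.cons 1452 (V.cons 4 2 (V.cons 10 (-1) V.nil)) (Q.cons 1482 (V.cons 4 8 (V.cons 10 (-4) V.nil)) (Q.cons 3498 (V.cons 4 (-1) V.nil) (Q.cons 5295 (V.cons 3 (-1) V.nil) (Q.cons 5355 (V.cons 3 2 V.nil) (Q.cons 5547 (V.cons 3 1 V.nil) Q.nil)))))))))))))))))),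
  (Q.cons 371 (V.cons 13 1 (V.cons 19 (-1) V.nil)) (Q.cons 372 (V.cons 4 2 (V.cons 10 (-1) V.nil)) (Q.cons 1341 (V.cons 3 9 V.nil) (Q.cons 1359 (V.cons 3 (-2) V.nil) (Q.cons 1395 (V.cons 3 7 V.nil) (Q.cons 1482 (V.cons 4 (-1) V.nil) (Q.cons 5295 (V.cons 3 2 V.nil) (Q.cons 5355 (V.cons 3 (-9) V.nil) (Q.cons 5547 (V.cons 3 (-7) V.nil) Q.nil))))))))),
  (Q.cons 3 (V.cons 981 1 (V.cons 1395 1 (V.cons 5547 (-1) (V.cons 15021 (-1) V.nil)))) (Q.cons 10 (V.cons 978 1 (V.cons 3756 (-1) V.nil)) (Q.cons 13 (V.cons 3755 1 V.nil) (Q.cons 19 (V.cons 3755 (-1) V.nil) (Q.cons 44 (V.cons 938 1 V.nil) (Q.cons 74 (V.cons 938 (-1) V.nil) Q.nil)))))),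
  (Q.cons 10 (V.cons 348 9 (V.cons 372 8 (V.cons 1206 1 (V.cons 1242 6 (V.cons 1260 (-1) (V.cons 1266 2 (V.cons 1326 (-1) (V.cons 1338 (-6) (V.cons 1386 (-9) (V.cons 1452 (-1) (V.cons 1482 (-8) (V.cons 3498 (-2) (V.cons 5034 1 (V.cons 5802 1 V.nil)))))))))))))) (Q.cons 20 (V.cons 686 1 V.nil) (Q.cons 43 (V.cons 221 3 (V.cons 245 1 (V.cons 311 (-3) (V.cons 317 (-4) (V.cons 335 3 (V.cons 347 (-2) (V.cons 365 (-4) (V.cons 371 3 (V.cons 875 (-2) (V.cons 971 (-1) (V.cons 1211 2 (V.cons 1259 3 (V.cons 1451 1 V.nil))))))))))))) (Q.cons 44 (V.cons 686 (-1) V.nil) (Q.cons 46 (V.cons 330 (-1) (V.cons 684 1 V.nil)) (Q.cons 83 (V.cons 175 (-1) V.nil) (Q.cons 86 (V.cons 170 1 V.nil) (Q.cons 173 (V.cons 175 1 V.nil) (Q.cons 175 (V.cons 83 1 (V.cons 173 (-1) V.nil)) (Q.cons 182 (V.cons 170 (-1) V.nil) (Q.cons 221 (V.cons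 43 (-3) V.nil) (Q.cons 245 (V.cons 43 (-1) V.nil) (Q.cons 311 (V.cons 43 3 V.nil) (Q.cons 317 (V.cons 43 4 V.nil) (Q.cons 335 (V.cons 43 (-3) V.nil) (Q.cons 347 (V.cons 43 2 V.nil) (Q.cons 365 (V.cons 43 4 V.nil) (Q.cons 371 (V.cons 43 (-3) V.nil) (Q.cons 461 (V.cons 43 3 V.nil) (Q.cons 467 (V.cons 43 (-2) V.nil) (Q.cons 875 (V.cons 43 2 V.nil) (Q.cons 971 (V.cons 43 1 V.nil) (Q.cons 1211 (V.cons 43 (-2) V.nil) (Q.cons 1259 (V.cons 43 (-3) V.nil) (Q.cons 1451 (V.cons 43 (-1) V.nil) (Q.cons 1835 (V.cons 43 (-1) V.nil) Q.nil)))))))))))))))))))))))))),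
  (Q.cons 58 (V.cons 300 1 (V.cons 330 (-1) V.nil)) (Q.cons 235 (V.cons 77 (-1) (V.cons 83 1 V.nil)) (Q.cons 236 (V.cons 74 (-1) V.nil) (Q.cons 242 (V.cons 74 1 V.nil) (Q.cons 941 (V.cons 19 1 V.nil) (Q.cons 971 (V.cons 19 (-1) V.nil) Q.nil)))))),
  (Q.cons 86 (V.cons 20 2 (V.cons 44 (-2) V.nil)) (Q.cons 116 (V.cons 20 (-3) (V.cons 44 3 V.nil)) (Q.cons 182 (V.cons 20 (-1) (V.cons 44 1 V.nil)) (Q.cons 187 (V.cons 83 1 (V.cons 173 (-1) V.nil)) (Q.cons 221 (V.cons 43 1 V.nil) (Q.cons 236 (V.cons 20 1 (V.cons 44 (-1) V.nil)) (Q.cons 245 (V.cons 43 2 V.nil) (Q.cons 302 (V.cons 20 (-1) (V.cons 44 1 V.nil)) (Q.cons 311 (V.cons 43 (-1) V.nil) (Q.cons 335 (V.cons 43 1 V.nil) (Q.cons 342 (V.cons 10 1 V.nil) (Q.cons 347 (V.cons 43 (-1) V.nil) (Q.cons 348 (V.cons 10 (-9) V.nil) (Q.cons 362 (V.cons 20 1 (V.cons 44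 (-1) V.nil)) (Q.cons 371 (V.cons 43 (-1) V.nil) (Q.cons 372 (V.cons 10 (-15) V.nil) (Q.cons 428 (V.cons 20 1 (V.cons 44 (-1) V.nil)) (Q.cons 458 (V.cons 20 2 (V.cons 44 (-2) V.nil)) (Q.cons 461 (V.cons 43 1 V.nil) (Q.cons 467 (V.cons 43 (-3) V.nil) (Q.cons 468 (V.cons 10 1 V.nil) (Q.cons 875 (V.cons 43 (-3) V.nil) (Q.cons 938 (V.cons 20 (-1) (V.cons 44 1 V.nil)) (Q.cons 941 (V.cons 43 (-1) V.nil) (Q.cons 971 (V.cons 43 (-1) V.nil) (Q.cons 978 (V.cons 10 1 V.nil) (Q.cons 1211 (V.cons 43 1 V.nil) (Q.cons 1242 (V.cons 10 (-7) V.nil) (Q.cons 1259 (V.cons 43 2 V.nil) (Q.cons 1260 (V.cons 10 3 V.nil) (Q.cons 1266 (V.cons 10 (-3) V.nil) (Q.cons 1326 (V.cons 10 (-1) V.nil) (Q.cons 1338 (V.cons 10 7 V.nil) (Q.cons 1386 (V.cons 10 9 V.nil) (Q.cons 1451 (V.cons 43 1 V.nil) (Q.cons 1452 (V.cons 10 3 V.nil) (Q.cons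 1482 (V.cons 10 12 V.nil) (Q.cons 1835 (V.cons 43 2 V.nil) (Q.cons 3756 (V.cons 10 (-1) V.nil) (Q.cons 7338 (V.cons 10 (-1) V.nil) Q.nil)))))))))))))))))))))))))))))))))))))))),
  (Q.cons 98 (V.cons 44 1 (V.cons 74 (-1) V.nil)) (Q.cons 311 (V.cons 13 1 (V.cons 19 (-1) V.nil)) (Q.cons 317 (V.cons 13 1 (V.cons 19 (-1) V.nil)) (Q.cons 335 (V.cons 13 (-1) (V.cons 19 1 V.nil)) (Q.cons 347 (V.cons 13 1 (V.cons 19 (-1) V.nil)) (Q.cons 348 (V.cons 10 2 V.nil) (Q.cons 365 (V.cons 13 1 (V.cons 19 (-1) V.nil)) (Q.cons 371 (V.cons 13 1 (V.cons 19 (-1) V.nil)) (Q.cons 372 (V.cons 10 4 V.nil) (Q.cons 1211 (V.cons 13 (-1) (V.cons 19 1 V.nil)) (Q.cons 1242 (V.cons 10 2 V.nil) (Q.cons 1259 (V.cons 13 (-1) (V.cons 19 1 V.nil)) (Q.cons 1338 (V.cons 10 (-2) V.nil) (Q.cons 1341 (V.cons 3 24 V.nil) (Q.cons 1359 (V.cons 3 (-6)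 V.nil) (Q.cons 1386 (V.cons 10 (-2) V.nil) (Q.cons 1395 (V.cons 3 18 V.nil) (Q.cons 1451 (V.cons 13 (-2) (V.cons 19 2 V.nil)) (Q.cons 1452 (V.cons 10 (-2) V.nil) (Q.cons 1482 (V.cons 10 (-2) V.nil) (Q.cons 1491 (V.cons 3 (-2) V.nil) (Q.cons 5295 (V.cons 3 6 V.nil) (Q.cons 5355 (V.cons 3 (-24) V.nil) (Q.cons 5547 (V.cons 3 (-18) V.nil) (Q.cons 5805 (V.cons 3 2 V.nil) Q.nil))))))))))))))))))))))))),
  (Q.cons 348 (V.cons 10 1 V.nil) (Q.cons 372 (V.cons 10 2 V.nil) (Q.cons 458 (V.cons 44 1 (V.cons 74 (-1) V.nil)) (Q.cons 1242 (V.cons 10 1 V.nil) (Q.cons 1338 (V.cons 10 (-1) V.nil) (Q.cons 1341 (V.cons 3 (-12) V.nil) (Q.cons 1359 (V.cons 3 2 V.nil) (Q.cons 1386 (V.cons 10 (-1) V.nil) (Q.cons 1395 (V.cons 3 (-10) V.nil) (Q.cons 1482 (V.cons 10 (-2) V.nil) (Q.cons 1835 (V.cons 13 (-1) (V.cons 19 1 V.nil)) (Q.cons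 5295 (V.cons 3 (-2) V.nil) (Q.cons 5355 (V.cons 3 12 V.nil) (Q.cons 5547 (V.cons 3 10 V.nil) Q.nil)))))))))))))),
  (Q.cons 10 (V.cons 342 (-26) (V.cons 348 66 (V.cons 372 124 (V.cons 978 (-4) (V.cons 1206 20 (V.cons 1242 64 (V.cons 1260 (-22) (V.cons 1266 22 (V.cons 1326 2 (V.cons 1338 (-64) (V.cons 1386 (-66) (V.cons 1452 (-22) (V.cons 1482 (-102) (V.cons 3756 4 (V.cons 10926 4 V.nil))))))))))))))) (Q.cons 13 (V.cons 2735 (-4) V.nil) (Q.cons 15 (V.cons 2733 (-4) (V.cons 10923 4 V.nil)) (Q.cons 22 (V.cons 2730 4 V.nil) (Q.cons 28 (V.cons 2730 4 V.nil) (Q.cons 34 (V.cons 2730 2 V.nil) (Q.cons 43 (V.cons 2735 4 V.nil) (Q.cons 46 (V.cons 2730 (-4) V.nil) (Q.cons 106 (V.cons 2730 (-4) V.nil) Q.nil)))))))))]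

def lits8_1_2 : List Q := [
  (Q.cons 4 (V.cons 348 8 (V.cons 372 4 (V.cons 1242 4 (V.cons 1338 (-4) (V.cons 1386 (-8) (V.cons 1482 (-4) V.nil)))))) (Q.cons 19 (V.cons 221 8 (V.cons 245 (-6) (V.cons 311 (-8) (V.cons 317 (-12) (V.cons 335 12 (V.cons 347 (-4) (V.cons 365 (-12) (V.cons 371 10 (V.cons 875 (-2) (V.cons 941 4 (V.cons 971 2 (V.cons 1211 4 (V.cons 1259 6 (V.cons 1451 2 (V.cons 2735 (-4) V.nil))))))))))))))) (Q.cons 20 (V.cons 686 (-4) V.nil) (Q.cons 22 (V.cons 684 (-4) (V.cons 2730 4 V.nil)) (Q.cons 25 (V.cons 683 (-2) V.nil) (Q.cons 74 (V.cons 686 4 V.nil) Q.nil)))))),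
  (Q.cons 20 (V.cons 86 (-4) (V.cons 98 (-2) (V.cons 182 4 (V.cons 218 4 (V.cons 314 (-4) V.nil))))) (Q.cons 86 (V.cons 20 4 V.nil) (Q.cons 98 (V.cons 20 2 V.nil) (Q.cons 116 (V.cons 20 (-8) V.nil) (Q.cons 182 (V.cons 20 (-4) V.nil) (Q.cons 218 (V.cons 20 (-4) V.nil) (Q.cons 314 (V.cons 20 4 V.nil) (Q.cons 458 (V.cons 20 8 V.nil) Q.nil)))))))),
  (Q.cons 83 (V.cons 25 2 V.nil) (Q.cons 182 (V.cons 20 (-4) (V.cons 74 4 V.nil)) (Q.cons 221 (V.cons 19 4 V.nil) (Q.cons 245 (V.cons 19 4 V.nil) (Q.cons 311 (V.cons 19 (-2) V.nil) (Q.cons 317 (V.cons 19 2 V.nil) (Q.cons 335 (V.cons 19 2 V.nil) (Q.cons 347 (V.cons 19 2 V.nil) (Q.cons 365 (V.cons 19 2 V.nil) (Q.cons 371 (V.cons 19 (-2) V.nil) (Q.cons 461 (V.cons 19 4 V.nil) (Q.cons 467 (V.cons 19 (-8) V.nil) (Q.cons 875 (V.cons 19 (-4) V.nil) (Q.cons 971 (V.cons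 19 (-4) V.nil) (Q.cons 1211 (V.cons 19 (-2) V.nil) (Q.cons 1259 (V.cons 19 (-2) V.nil) (Q.cons 1835 (V.cons 19 4 V.nil) Q.nil))))))))))))))))),
  (Q.cons 77 (V.cons 55 (-1) (V.cons 61 (-1) (V.cons 79 1 (V.cons 91 (-1) (V.cons 187 1 (V.cons 235 1 V.nil)))))) (Q.cons 84 (V.cons 22 (-4) (V.cons 46 4 V.nil)) (Q.cons 311 (V.cons 13 (-4) (V.cons 43 4 V.nil)) (Q.cons 348 (V.cons 10 4 V.nil) (Q.cons 372 (V.cons 10 4 V.nil) (Q.cons 1206 (V.cons 10 (-2) V.nil) (Q.cons 1242 (V.cons 10 2 V.nil) (Q.cons 1260 (V.cons 10 (-2) V.nil) (Q.cons 1266 (V.cons 10 2 V.nil) (Q.cons 1326 (V.cons 10 2 V.nil) (Q.cons 1338 (V.cons 10 (-2) V.nil) (Q.cons 1386 (V.cons 10 (-4) V.nil) (Q.cons 1452 (V.cons 10 (-2) V.nil) (Q.cons 1482 (V.cons 10 (-2) V.nil) Q.nil)))))))))))))),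
  (Q.cons 0 (V.cons 1396 4 (V.cons 22186 (-4) V.nil)) (Q.cons 3 (V.cons 1341 46 (V.cons 1359 (-12) (V.cons 1395 34 (V.cons 5295 12 (V.cons 5355 (-46) (V.cons 5547 (-34) V.nil)))))) (Q.cons 4 (V.cons 342 (-2) (V.cons 348 8 (V.cons 372 14 (V.cons 1242 4 (V.cons 1260 (-2) (V.cons 1266 4 (V.cons 1338 (-2) (V.cons 1386 (-8) (V.cons 1452 (-2) (V.cons 1482 (-12) (V.cons 3498 (-2) V.nil))))))))))) (Q.cons 6 (V.cons 340 2 (V.cons 5290 (-2) V.nil)) (Q.cons 9 (V.cons 1323 (-2) V.nil) (Q.cons 10 (V.cons 342 30 (V.cons 348 (-68) (V.cons 372 (-110) (V.cons 1206 (-22) (V.cons 1242 (-54) (V.cons 1260 16 (V.cons 1266 (-22) (V.cons 1326 (-6) (V.cons 1338 52 (V.cons 1386 68 (V.cons 1452 16 (V.cons 1482 94 (V.cons 3498 6 V.nil))))))))))))) (Q.cons 13 (V.cons 221 6 (V.cons 245 2 (V.cons 311 (-6) (V.cons 317 (-8) (V.cons 335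 4 (V.cons 347 (-4) (V.cons 365 (-8) (V.cons 371 6 (V.cons 875 (-4) (V.cons 971 (-2) (V.cons 1211 4 (V.cons 1259 6 (V.cons 1451 2 V.nil))))))))))))) (Q.cons 19 (V.cons 221 (-6) (V.cons 245 (-2) (V.cons 311 6 (V.cons 317 8 (V.cons 335 (-4) (V.cons 347 4 (V.cons 365 8 (V.cons 371 (-6) (V.cons 875 4 (V.cons 971 2 (V.cons 1211 (-4) (V.cons 1259 (-6) (V.cons 1451 (-2) V.nil))))))))))))) (Q.cons 22 (V.cons 330 (-2) V.nil) (Q.cons 28 (V.cons 330 2 V.nil) (Q.cons 46 (V.cons 330 2 V.nil) (Q.cons 106 (V.cons 330 (-2) V.nil) Q.nil)))))))))))),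
  (Q.cons 10 (V.cons 348 (-4) (V.cons 372 (-2) (V.cons 1242 (-2) (V.cons 1338 2 (V.cons 1386 4 (V.cons 1482 2 V.nil)))))) (Q.cons 43 (V.cons 221 (-2) (V.cons 875 2 V.nil)) (Q.cons 44 (V.cons 86 (-2) (V.cons 218 2 V.nil)) (Q.cons 46 (V.cons 84 2 (V.cons 330 (-2) V.nil)) (Q.cons 55 (V.cons 83 (-2) V.nil) (Q.cons 61 (V.cons 83 (-2) V.nil) (Q.cons 79 (V.cons 83 (-2) V.nil) (Q.cons 83 (V.cons 55 2 V.nil) (Q.cons 91 (V.cons 83 (-2) V.nil) (Q.cons 109 (V.cons 83 2 V.nil) (Q.cons 115 (V.cons 83 (-2) V.nil) (Q.cons 116 (V.cons 20 2 V.nil) (Q.cons 170 (V.cons 86 6 (V.cons 98 2 (V.cons 182 (-4) (V.cons 218 (-6) (V.cons 314 4 V.nil))))) (Q.cons 173 (V.cons 55 (-2) V.nil) (Q.cons 175 (V.cons 83 4 V.nil) (Q.cons 182 (V.cons 20 (-4) V.nil) (Q.cons 187 (V.cons 83 2 V.nil) (Q.cons 218 (V.cons 20 (-2) V.nil) (Q.cons 235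 (V.cons 83 2 V.nil) (Q.cons 236 (V.cons 20 (-4) V.nil) (Q.cons 242 (V.cons 20 2 V.nil) (Q.cons 302 (V.cons 20 2 V.nil) (Q.cons 314 (V.cons 20 2 V.nil) (Q.cons 428 (V.cons 20 (-2) V.nil) (Q.cons 686 (V.cons 20 2 V.nil) (Q.cons 938 (V.cons 20 2 V.nil) Q.nil)))))))))))))))))))))))))),
  (Q.cons 20 (V.cons 86 (-2) (V.cons 92 2 (V.cons 302 2 (V.cons 362 (-2) V.nil)))) (Q.cons 55 (V.cons 77 2 (V.cons 83 (-2) V.nil)) (Q.cons 83 (V.cons 25 2 V.nil) (Q.cons 84 (V.cons 22 2 V.nil) (Q.cons 86 (V.cons 20 (-2) (V.cons 74 6 V.nil)) (Q.cons 98 (V.cons 74 2 V.nil) (Q.cons 116 (V.cons 74 (-8) V.nil) (Q.cons 182 (V.cons 74 (-4) V.nil) (Q.cons 218 (V.cons 20 2 (V.cons 74 (-6) V.nil)) (Q.cons 221 (V.cons 19 2 V.nil) (Q.cons 314 (V.cons 74 4 V.nil) (Q.cons 330 (V.cons 22 (-2) V.nil) (Q.cons 458 (V.cons 74 8 V.nil) (Q.cons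 875 (V.cons 19 (-2) V.nil) Q.nil)))))))))))))),
  (Q.cons 173 (V.cons 55 1 (V.cons 61 1 (V.cons 79 (-1) (V.cons 91 1 (V.cons 187 (-1) (V.cons 235 (-1) V.nil)))))) (Q.cons 221 (V.cons 13 (-6) (V.cons 19 6 V.nil)) (Q.cons 245 (V.cons 13 (-2) (V.cons 19 2 V.nil)) (Q.cons 311 (V.cons 13 6 (V.cons 19 (-6) V.nil)) (Q.cons 317 (V.cons 13 8 (V.cons 19 (-8) V.nil)) (Q.cons 330 (V.cons 22 (-2) (V.cons 46 2 V.nil)) (Q.cons 335 (V.cons 13 (-4) (V.cons 19 4 V.nil)) (Q.cons 342 (V.cons 4 (-2) (V.cons 10 30 V.nil)) (Q.cons 347 (V.cons 13 4 (V.cons 19 (-4) V.nil)) (Q.cons 348 (V.cons 4 16 (V.cons 10 (-76) V.nil)) (Q.cons 365 (V.cons 13 8 (V.cons 19 (-8) V.nil)) (Q.cons 371 (V.cons 13 (-6) (V.cons 19 6 V.nil)) (Q.cons 372 (V.cons 4 18 (V.cons 10 (-114) V.nil)) (Q.cons 461 (V.cons 13 6 (V.cons 19 (-6) V.nil)) (Q.cons 467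 (V.cons 13 (-4) (V.cons 19 4 V.nil)) (Q.cons 468 (V.cons 4 (-4) (V.cons 10 4 V.nil)) (Q.cons 875 (V.cons 13 4 (V.cons 19 (-4) V.nil)) (Q.cons 971 (V.cons 13 2 (V.cons 19 (-2) V.nil)) (Q.cons 1206 (V.cons 10 (-22) V.nil) (Q.cons 1211 (V.cons 13 (-4) (V.cons 19 4 V.nil)) (Q.cons 1242 (V.cons 4 8 (V.cons 10 (-58) V.nil)) (Q.cons 1259 (V.cons 13 (-6) (V.cons 19 6 V.nil)) (Q.cons 1260 (V.cons 4 (-2) (V.cons 10 16 V.nil)) (Q.cons 1266 (V.cons 4 4 (V.cons 10 (-22) V.nil)) (Q.cons 1326 (V.cons 10 (-6) V.nil) (Q.cons 1338 (V.cons 4 (-6) (V.cons 10 56 V.nil)) (Q.cons 1341 (V.cons 3 (-10) V.nil) (Q.cons 1359 (V.cons 3 4 V.nil) (Q.cons 1386 (V.cons 4 (-16) (V.cons 10 76 V.nil)) (Q.cons 1395 (V.cons 3 (-10) V.nil) (Q.cons 1451 (V.cons 13 (-2) (V.cons 19 2 V.nil)) (Q.cons 1452 (V.cons 4 (-2) (V.cons 10 16 V.nil)) (Q.cons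 1482 (V.cons 4 (-16) (V.cons 10 98 V.nil)) (Q.cons 1835 (V.cons 13 (-2) (V.cons 19 2 V.nil)) (Q.cons 1875 (V.cons 3 2 V.nil) (Q.cons 3498 (V.cons 4 (-2) (V.cons 10 6 V.nil)) (Q.cons 5295 (V.cons 3 (-4) V.nil) (Q.cons 5355 (V.cons 3 10 V.nil) (Q.cons 5547 (V.cons 3 10 V.nil) (Q.cons 7338 (V.cons 4 4 (V.cons 10 (-4) V.nil)) (Q.cons 29355 (V.cons 3 (-2) V.nil) Q.nil))))))))))))))))))))))))))))))))))))))))),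
  (Q.cons 3 (V.cons 1341 (-42) (V.cons 1359 10 (V.cons 1395 (-26) (V.cons 5295 (-10) (V.cons 5355 42 (V.cons 5547 26 V.nil)))))) (Q.cons 10 (V.cons 342 (-8) (V.cons 348 4 (V.cons 372 18 (V.cons 1206 6 (V.cons 1242 6 (V.cons 1260 (-4) (V.cons 1266 2 (V.cons 1326 2 (V.cons 1338 (-6) (V.cons 1386 (-4) (V.cons 1452 (-4) (V.cons 1482 (-12) (V.cons 3498 4 (V.cons 5034 (-2) (V.cons 5802 (-2) V.nil))))))))))))))) (Q.cons 13 (V.cons 245 (-4) (V.cons 311 (-2) (V.cons 317 (-6) (V.cons 347 (-2) (V.cons 365 (-6) (V.cons 371 4 (V.cons 971 4 (V.cons 1211 4 (V.cons 1259 6 (V.cons 1451 2 V.nil)))))))))) (Q.cons 15 (V.cons 339 (-2) (V.cons 1323 2 V.nil)) (Q.cons 20 (V.cons 182 2 V.nil) (Q.cons 22 (V.cons 330 8 V.nil) (Q.cons 28 (V.cons 330 8 V.nil) (Q.cons 34 (V.cons 330 4 V.nil) (Q.cons 43 (V.cons 221 (-8) (V.cons 245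 (-4) (V.cons 311 6 (V.cons 317 2 (V.cons 335 (-4) (V.cons 347 (-2) (V.cons 365 2 (V.cons 875 8 (V.cons 971 4 (V.cons 1259 (-2) (V.cons 1451 (-2) V.nil))))))))))) (Q.cons 44 (V.cons 182 (-2) V.nil) (Q.cons 46 (V.cons 330 (-8) V.nil) (Q.cons 55 (V.cons 83 (-2) V.nil) (Q.cons 61 (V.cons 83 2 V.nil) (Q.cons 106 (V.cons 330 (-8) V.nil) (Q.cons 175 (V.cons 83 2 V.nil) (Q.cons 235 (V.cons 83 (-2) V.nil) Q.nil)))))))))))))))),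
  (Q.cons 19 (V.cons 311 2 (V.cons 317 (-2) (V.cons 1199 (-2) (V.cons 1259 2 V.nil)))) (Q.cons 20 (V.cons 86 4 (V.cons 92 4 (V.cons 98 2 (V.cons 302 (-6) (V.cons 314 2 (V.cons 362 (-4) V.nil)))))) (Q.cons 22 (V.cons 84 2 (V.cons 300 (-2) V.nil)) (Q.cons 25 (V.cons 77 (-2) (V.cons 299 (-2) V.nil)) (Q.cons 74 (V.cons 86 4 (V.cons 92 4 (V.cons 98 2 (V.cons 302 (-2) (V.cons 314 (-2) (V.cons 362 (-4) V.nil)))))) (Q.cons 77 (V.cons 79 2 V.nil) (Q.cons 79 (V.cons 77 2 (V.cons 299 (-2) V.nil)) (Q.cons 83 (V.cons 79 (-2) V.nil) (Q.cons 86 (V.cons 74 (-2) V.nil) (Q.cons 91 (V.cons 77 (-2) (V.cons 299 2 V.nil)) (Q.cons 92 (V.cons 74 2 V.nil) (Q.cons 302 (V.cons 74 2 V.nil) (Q.cons 362 (V.cons 74 (-2) V.nil) Q.nil)))))))))))))]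

def lits8_1_3 : List Q := [
  (Q.cons 44 (V.cons 86 (-2) (V.cons 92 2 (V.cons 98 1 (V.cons 182 1 (V.cons 218 1 (V.cons 236 (-1) (V.cons 242 1 (V.cons 302 1 (V.cons 314 (-1) (V.cons 362 (-2) V.nil)))))))))) (Q.cons 83 (V.cons 55 2 (V.cons 61 (-2) (V.cons 175 (-2) (V.cons 235 2 V.nil)))) (Q.cons 182 (V.cons 20 2 (V.cons 44 (-2) V.nil)) (Q.cons 221 (V.cons 43 8 V.nil) (Q.cons 245 (V.cons 13 4 (V.cons 43 4 V.nil)) (Q.cons 311 (V.cons 13 2 (V.cons 43 (-6) V.nil)) (Q.cons 317 (V.cons 13 6 (V.cons 43 (-2) V.nil)) (Q.cons 330 (V.cons 22 8 (V.cons 46 (-8) V.nil)) (Q.cons 335 (V.cons 43 4 V.nil) (Q.cons 339 (V.cons 15 2 V.nil) (Q.cons 342 (V.cons 10 (-8) V.nil) (Q.cons 347 (V.cons 13 2 (V.cons 43 2 V.nil)) (Q.cons 365 (V.cons 13 6 (V.cons 43 (-2) V.nil)) (Q.cons 371 (V.cons 13 (-4) V.nil) (Q.cons 372 (V.cons 10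 16 V.nil) (Q.cons 461 (V.cons 13 6 (V.cons 43 2 V.nil)) (Q.cons 467 (V.cons 13 (-6) (V.cons 43 (-10) V.nil)) (Q.cons 468 (V.cons 10 4 V.nil) (Q.cons 875 (V.cons 43 (-8) V.nil) (Q.cons 971 (V.cons 13 (-4) (V.cons 43 (-4) V.nil)) (Q.cons 1206 (V.cons 10 6 V.nil) (Q.cons 1211 (V.cons 13 (-4) V.nil) (Q.cons 1242 (V.cons 10 4 V.nil) (Q.cons 1259 (V.cons 13 (-6) (V.cons 43 2 V.nil)) (Q.cons 1260 (V.cons 10 (-4) V.nil) (Q.cons 1266 (V.cons 10 2 V.nil) (Q.cons 1323 (V.cons 15 (-2) V.nil) (Q.cons 1326 (V.cons 10 2 V.nil) (Q.cons 1338 (V.cons 10 (-4) V.nil) (Q.cons 1451 (V.cons 13 (-2) (V.cons 43 2 V.nil)) (Q.cons 1452 (V.cons 10 (-4) V.nil) (Q.cons 1482 (V.cons 10 (-10) V.nil) (Q.cons 1835 (V.cons 43 8 V.nil) (Q.cons 3498 (V.cons 10 4 V.nil) (Q.cons 5034 (V.cons 10 (-2) V.nil) (Q.cons 5802 (V.cons 10 (-2) V.nil)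 (Q.cons 7338 (V.cons 10 (-4) V.nil) Q.nil))))))))))))))))))))))))))))))))))))),
  (Q.cons 0 (V.cons 1396 (-8) (V.cons 22186 8 V.nil)) (Q.cons 3 (V.cons 981 (-4) (V.cons 1269 (-8) (V.cons 1341 (-454) (V.cons 1359 104 (V.cons 1395 (-390) (V.cons 1491 (-8) (V.cons 5295 (-98) (V.cons 5355 454 (V.cons 5547 390 (V.cons 15021 (-2) (V.cons 20139 8 (V.cons 23211 8 (V.cons 43695 (-6) (V.cons 60075 6 V.nil)))))))))))))) (Q.cons 4 (V.cons 342 12 (V.cons 348 4 (V.cons 372 (-12) (V.cons 978 (-4) (V.cons 1206 (-4) (V.cons 1242 8 (V.cons 1266 (-4) (V.cons 1326 (-12) (V.cons 1338 (-8) (V.cons 1482 8 (V.cons 3756 4 (V.cons 5034 4 (V.cons 5802 4 V.nil))))))))))))) (Q.cons 6 (V.cons 5290 (-4) (V.cons 10924 4 V.nil)) (Q.cons 9 (V.cons 1323 4 (V.cons 2733 (-4) V.nil)) (Q.cons 10 (V.cons 342 100 (V.cons 348 (-230) (V.cons 372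 (-410) (V.cons 1206 (-68) (V.cons 1242 (-192) (V.cons 1260 76 (V.cons 1266 (-62) (V.cons 1326 (-34) (V.cons 1338 192 (V.cons 1386 226 (V.cons 1452 76 (V.cons 1482 328 (V.cons 3498 (-20) (V.cons 3756 (-6) (V.cons 5034 6 (V.cons 5802 6 (V.cons 10926 6 (V.cons 15018 6 V.nil)))))))))))))))))) (Q.cons 13 (V.cons 221 16 (V.cons 245 (-12) (V.cons 311 (-16) (V.cons 317 (-24) (V.cons 335 24 (V.cons 347 (-8) (V.cons 365 (-24) (V.cons 371 20 (V.cons 875 (-4) (V.cons 941 8 (V.cons 971 4 (V.cons 1211 8 (V.cons 1259 12 (V.cons 1451 4 (V.cons 2735 (-8) V.nil))))))))))))))) (Q.cons 19 (V.cons 221 (-16) (V.cons 245 12 (V.cons 311 16 (V.cons 317 24 (V.cons 335 (-24) (V.cons 347 8 (V.cons 365 24 (V.cons 371 (-20) (V.cons 875 4 (V.cons 941 (-8) (V.cons 971 (-4) (V.cons 1211 (-8) (V.cons 1259 (-12) (V.cons 1451 (-4) (V.cons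 2735 8 V.nil))))))))))))))) (Q.cons 22 (V.cons 684 (-4) (V.cons 2730 (-2) V.nil)) (Q.cons 25 (V.cons 683 8 V.nil) (Q.cons 28 (V.cons 684 (-4) (V.cons 2730 6 V.nil)) (Q.cons 34 (V.cons 684 (-4) (V.cons 2730 2 V.nil)) (Q.cons 44 (V.cons 686 4 V.nil) (Q.cons 46 (V.cons 2730 6 V.nil) (Q.cons 55 (V.cons 683 (-14) V.nil) (Q.cons 61 (V.cons 683 (-6) V.nil) (Q.cons 74 (V.cons 686 (-4) V.nil) (Q.cons 79 (V.cons 683 8 V.nil) (Q.cons 91 (V.cons 683 (-6) V.nil) (Q.cons 106 (V.cons 684 8 (V.cons 2730 (-10) V.nil)) (Q.cons 109 (V.cons 683 (-8) V.nil) (Q.cons 115 (V.cons 683 2 V.nil) (Q.cons 175 (V.cons 683 6 V.nil) (Q.cons 187 (V.cons 683 6 V.nil) (Q.cons 235 (V.cons 683 6 V.nil) (Q.cons 427 (V.cons 683 6 V.nil) Q.nil)))))))))))))))))))))))))),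
  (Q.cons 4 (V.cons 348 22 (V.cons 372 20 (V.cons 1242 14 (V.cons 1338 (-14) (V.cons 1386 (-22) (V.cons 1482 (-20) V.nil)))))) (Q.cons 19 (V.cons 221 18 (V.cons 245 6 (V.cons 311 (-10) (V.cons 317 16 (V.cons 335 16 (V.cons 347 (-2) (V.cons 365 16 (V.cons 371 (-22) (V.cons 875 (-42) (V.cons 941 (-2) (V.cons 971 (-10) (V.cons 1211 2 (V.cons 1259 8 (V.cons 1451 6 (V.cons 2735 (-6) (V.cons 3755 6 V.nil)))))))))))))))) (Q.cons 20 (V.cons 86 (-8) (V.cons 218 (-8) (V.cons 302 4 (V.cons 314 8 (V.cons 362 4 V.nil))))) (Q.cons 22 (V.cons 330 (-4) (V.cons 684 4 V.nil)) (Q.cons 25 (V.cons 83 4 (V.cons 173 (-4) V.nil)) (Q.cons 74 (V.cons 182 (-6) (V.cons 236 (-10) (V.cons 242 4 (V.cons 302 4 (V.cons 362 (-4) (V.cons 686 6 (V.cons 938 6 V.nil))))))) (Q.cons 77 (V.cons 55 4 (V.cons 61 4 (V.cons 79 4 (V.cons 91 4 (V.cons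 175 (-8) (V.cons 187 (-4) (V.cons 235 (-4) V.nil))))))) (Q.cons 83 (V.cons 55 (-4) (V.cons 61 (-4) (V.cons 79 (-4) (V.cons 91 (-4) (V.cons 175 8 (V.cons 187 4 (V.cons 235 4 V.nil))))))) (Q.cons 86 (V.cons 44 (-4) (V.cons 170 (-2) V.nil)) (Q.cons 92 (V.cons 44 (-4) (V.cons 170 6 V.nil)) (Q.cons 98 (V.cons 44 (-4) (V.cons 170 2 V.nil)) (Q.cons 221 (V.cons 43 (-16) V.nil) (Q.cons 300 (V.cons 46 4 V.nil) (Q.cons 302 (V.cons 170 6 V.nil) (Q.cons 311 (V.cons 43 10 V.nil) (Q.cons 317 (V.cons 43 18 V.nil) (Q.cons 330 (V.cons 46 (-4) V.nil) (Q.cons 335 (V.cons 43 (-16) V.nil) (Q.cons 347 (V.cons 43 2 V.nil) (Q.cons 362 (V.cons 44 8 (V.cons 170 (-10) V.nil)) (Q.cons 365 (V.cons 43 16 V.nil) (Q.cons 371 (V.cons 43 (-22) V.nil) (Q.cons 461 (V.cons 43 16 V.nil) (Q.cons 467 (V.cons 43 (-16) V.nil) (Q.cons 1199 (V.cons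 43 6 V.nil) (Q.cons 1211 (V.cons 43 (-2) V.nil) (Q.cons 1259 (V.cons 43 (-2) V.nil) (Q.cons 1451 (V.cons 43 6 V.nil) Q.nil)))))))))))))))))))))))))))),
  (Q.cons 20 (V.cons 86 (-2) (V.cons 92 (-4) (V.cons 98 (-2) (V.cons 182 1 (V.cons 218 1 (V.cons 236 (-1) (V.cons 242 1 (V.cons 302 1 (V.cons 314 (-1) (V.cons 362 4 V.nil)))))))))) (Q.cons 83 (V.cons 25 (-4) (V.cons 55 3 (V.cons 61 3 (V.cons 79 3 (V.cons 91 3 (V.cons 175 (-6) (V.cons 187 (-3) (V.cons 235 (-3) V.nil)))))))) (Q.cons 84 (V.cons 22 (-4) V.nil) (Q.cons 86 (V.cons 44 4 (V.cons 74 (-4) V.nil)) (Q.cons 221 (V.cons 13 8 (V.cons 19 (-8) V.nil)) (Q.cons 311 (V.cons 13 (-12) (V.cons 19 12 V.nil)) (Q.cons 317 (V.cons 13 (-12) (V.cons 19 12 V.nil)) (Q.cons 330 (V.cons 22 (-2) (V.cons 46 6 V.nil)) (Q.cons 335 (V.cons 13 12 (V.cons 19 (-12) V.nil)) (Q.cons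 342 (V.cons 4 4 (V.cons 10 (-6) V.nil)) (Q.cons 347 (V.cons 13 (-4) (V.cons 19 4 V.nil)) (Q.cons 348 (V.cons 4 (-12) (V.cons 10 10 V.nil)) (Q.cons 365 (V.cons 13 (-12) (V.cons 19 12 V.nil)) (Q.cons 371 (V.cons 13 12 (V.cons 19 (-12) V.nil)) (Q.cons 372 (V.cons 4 (-24) (V.cons 10 12 V.nil)) (Q.cons 461 (V.cons 13 (-8) (V.cons 19 8 V.nil)) (Q.cons 467 (V.cons 13 8 (V.cons 19 (-8) V.nil)) (Q.cons 1206 (V.cons 4 (-4) (V.cons 10 2 V.nil)) (Q.cons 1211 (V.cons 13 4 (V.cons 19 (-4) V.nil)) (Q.cons 1242 (V.cons 4 (-12) (V.cons 10 6 V.nil)) (Q.cons 1259 (V.cons 13 4 (V.cons 19 (-4) V.nil)) (Q.cons 1260 (V.cons 4 4 (V.cons 10 (-2) V.nil)) (Q.cons 1266 (V.cons 4 (-4) (V.cons 10 2 V.nil)) (Q.cons 1326 (V.cons 4 (-4) (V.cons 10 8 V.nil)) (Q.cons 1338 (V.cons 4 12 (V.cons 10 (-6) V.nil)) (Q.cons 1341 (V.cons 3 (-4)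 V.nil) (Q.cons 1359 (V.cons 3 (-6) V.nil) (Q.cons 1386 (V.cons 4 16 (V.cons 10 (-14) V.nil)) (Q.cons 1395 (V.cons 3 (-10) V.nil) (Q.cons 1452 (V.cons 4 4 (V.cons 10 (-2) V.nil)) (Q.cons 1482 (V.cons 4 20 (V.cons 10 (-10) V.nil)) (Q.cons 5295 (V.cons 3 6 V.nil) (Q.cons 5355 (V.cons 3 4 V.nil) (Q.cons 5547 (V.cons 3 10 V.nil) Q.nil)))))))))))))))))))))))))))))))))),
  (Q.cons 10 (V.cons 348 (-4) (V.cons 372 (-2) (V.cons 1242 (-2) (V.cons 1338 2 (V.cons 1386 4 (V.cons 1482 2 V.nil)))))) (Q.cons 43 (V.cons 221 8 (V.cons 311 2 (V.cons 317 (-6) (V.cons 335 4 (V.cons 347 2 (V.cons 365 (-12) (V.cons 371 18 (V.cons 1199 (-6) (V.cons 1211 (-2) (V.cons 1259 (-2) (V.cons 1451 (-6) V.nil))))))))))) (Q.cons 44 (V.cons 302 (-4) (V.cons 362 4 V.nil)) (Q.cons 55 (V.cons 77 (-2) (V.cons 83 2 V.nil)) (Q.cons 61 (V.cons 77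 (-2) (V.cons 83 2 V.nil)) (Q.cons 79 (V.cons 77 (-2) (V.cons 83 2 V.nil)) (Q.cons 83 (V.cons 25 (-2) (V.cons 79 4 (V.cons 91 (-4) V.nil))) (Q.cons 86 (V.cons 20 8 V.nil) (Q.cons 91 (V.cons 77 (-2) (V.cons 83 2 V.nil)) (Q.cons 109 (V.cons 77 2 (V.cons 83 (-2) V.nil)) (Q.cons 115 (V.cons 77 (-2) (V.cons 83 2 V.nil)) (Q.cons 116 (V.cons 20 (-12) (V.cons 74 10 V.nil)) (Q.cons 170 (V.cons 86 (-2) (V.cons 92 6 (V.cons 98 2 (V.cons 302 6 (V.cons 362 (-10) V.nil))))) (Q.cons 173 (V.cons 25 2 (V.cons 79 (-4) (V.cons 91 4 V.nil))) (Q.cons 175 (V.cons 77 8 (V.cons 83 (-8) V.nil)) (Q.cons 182 (V.cons 20 (-4) (V.cons 74 (-6) V.nil)) (Q.cons 187 (V.cons 77 (-2) (V.cons 83 2 V.nil)) (Q.cons 221 (V.cons 19 (-2) V.nil) (Q.cons 235 (V.cons 77 2 (V.cons 83 (-2) V.nil)) (Q.cons 236 (V.cons 20 4 (V.cons 74 (-10) V.nil)) (Q.cons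 242 (V.cons 74 4 V.nil) (Q.cons 245 (V.cons 19 18 V.nil) (Q.cons 302 (V.cons 20 (-4) (V.cons 74 4 V.nil)) (Q.cons 311 (V.cons 19 (-2) V.nil) (Q.cons 317 (V.cons 19 (-12) V.nil) (Q.cons 335 (V.cons 19 (-4) V.nil) (Q.cons 347 (V.cons 19 (-2) V.nil) (Q.cons 362 (V.cons 20 4 (V.cons 74 (-4) V.nil)) (Q.cons 365 (V.cons 19 (-12) V.nil) (Q.cons 371 (V.cons 19 10 V.nil) (Q.cons 428 (V.cons 20 4 (V.cons 74 (-4) V.nil)) (Q.cons 458 (V.cons 20 8 (V.cons 74 (-6) V.nil)) (Q.cons 461 (V.cons 19 (-14) V.nil) (Q.cons 467 (V.cons 19 20 V.nil) (Q.cons 686 (V.cons 20 (-4) (V.cons 74 6 V.nil)) (Q.cons 875 (V.cons 19 10 V.nil) (Q.cons 938 (V.cons 20 (-4) (V.cons 74 6 V.nil)) (Q.cons 941 (V.cons 19 (-6) V.nil) (Q.cons 971 (V.cons 19 (-6) V.nil) (Q.cons 1211 (V.cons 19 2 V.nil) (Q.cons 1259 (V.cons 19 4 V.nil) (Q.cons 1451 (V.cons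 19 2 V.nil) (Q.cons 1835 (V.cons 19 (-6) V.nil) (Q.cons 2735 (V.cons 19 6 V.nil) (Q.cons 3755 (V.cons 19 (-6) V.nil) Q.nil))))))))))))))))))))))))))))))))))))))))))))),
  (Q.cons 3 (V.cons 1359 2 (V.cons 5295 (-2) V.nil)) (Q.cons 4 (V.cons 348 4 (V.cons 372 6 (V.cons 1206 1 (V.cons 1242 3 (V.cons 1260 (-1) (V.cons 1266 1 (V.cons 1326 (-1) (V.cons 1338 (-3) (V.cons 1386 (-4) (V.cons 1452 (-1) (V.cons 1482 (-5) V.nil))))))))))) (Q.cons 10 (V.cons 348 (-4) (V.cons 372 (-6) (V.cons 1206 (-1) (V.cons 1242 (-3) (V.cons 1260 1 (V.cons 1266 (-1) (V.cons 1326 1 (V.cons 1338 3 (V.cons 1386 4 (V.cons 1452 1 (V.cons 1482 5 V.nil))))))))))) (Q.cons 13 (V.cons 221 (-2) (V.cons 311 3 (V.cons 317 3 (V.cons 335 (-3) (V.cons 347 1 (V.cons 365 3 (V.cons 371 (-3) (V.cons 1211 (-1) (V.cons 1259 (-1) V.nil))))))))) (Q.cons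 19 (V.cons 221 2 (V.cons 311 (-3) (V.cons 317 (-3) (V.cons 335 3 (V.cons 347 (-1) (V.cons 365 (-3) (V.cons 371 3 (V.cons 1211 1 (V.cons 1259 1 V.nil))))))))) (Q.cons 22 (V.cons 84 (-2) (V.cons 330 2 V.nil)) (Q.cons 25 (V.cons 83 (-1) V.nil) (Q.cons 28 (V.cons 84 (-2) (V.cons 330 2 V.nil)) (Q.cons 34 (V.cons 84 (-1) (V.cons 330 1 V.nil)) (Q.cons 46 (V.cons 84 2 (V.cons 330 (-2) V.nil)) (Q.cons 55 (V.cons 83 1 V.nil) (Q.cons 61 (V.cons 83 1 V.nil) (Q.cons 79 (V.cons 83 1 V.nil) (Q.cons 91 (V.cons 83 1 V.nil) (Q.cons 92 (V.cons 20 (-2) V.nil) (Q.cons 106 (V.cons 84 2 (V.cons 330 (-2) V.nil)) (Q.cons 109 (V.cons 83 (-1) V.nil) (Q.cons 115 (V.cons 83 1 V.nil) (Q.cons 116 (V.cons 20 (-4) V.nil) (Q.cons 175 (V.cons 83 (-2) V.nil) (Q.cons 182 (V.cons 20 (-2) V.nil) (Q.cons 187 (V.cons 83 (-1) V.nil) (Q.cons 218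 (V.cons 20 (-2) V.nil) (Q.cons 235 (V.cons 83 (-1) V.nil) (Q.cons 302 (V.cons 20 2 V.nil) (Q.cons 314 (V.cons 20 2 V.nil) (Q.cons 362 (V.cons 20 2 V.nil) (Q.cons 458 (V.cons 20 4 V.nil) Q.nil)))))))))))))))))))))))))))),
  (Q.cons 0 (V.cons 1396 (-1) (V.cons 22186 1 V.nil)) (Q.cons 3 (V.cons 1341 9 (V.cons 1359 (-3) (V.cons 1395 3 (V.cons 5295 3 (V.cons 5355 (-9) (V.cons 5547 (-3) V.nil)))))) (Q.cons 4 (V.cons 348 (-4) (V.cons 372 2 (V.cons 978 (-1) (V.cons 1266 2 (V.cons 1386 4 (V.cons 1482 (-1) (V.cons 3498 (-2) (V.cons 15018 1 V.nil)))))))) (Q.cons 10 (V.cons 348 2 (V.cons 372 4 (V.cons 978 (-1) (V.cons 1242 2 (V.cons 1260 (-2) (V.cons 1266 2 (V.cons 1338 (-2) (V.cons 1386 (-2) (V.cons 1452 (-2) (V.cons 1482 (-3) (V.cons 3756 1 V.nil))))))))))) (Q.cons 13 (V.cons 221 (-2) (V.cons 245 1 (V.cons 311 2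 (V.cons 317 2 (V.cons 335 (-2) (V.cons 347 2 (V.cons 365 2 (V.cons 371 (-1) (V.cons 875 2 (V.cons 1211 (-2) (V.cons 1259 (-2) (V.cons 3755 (-1) V.nil)))))))))))) (Q.cons 19 (V.cons 221 6 (V.cons 245 (-2) (V.cons 311 (-6) (V.cons 317 (-8) (V.cons 335 6 (V.cons 347 (-2) (V.cons 365 (-8) (V.cons 371 6 (V.cons 941 2 (V.cons 1211 2 (V.cons 1259 2 V.nil))))))))))) (Q.cons 20 (V.cons 86 2 (V.cons 182 (-1) (V.cons 236 1 (V.cons 302 (-1) (V.cons 362 1 (V.cons 938 (-1) V.nil)))))) (Q.cons 43 (V.cons 221 (-3) (V.cons 245 1 (V.cons 311 3 (V.cons 317 4 (V.cons 335 (-3) (V.cons 347 1 (V.cons 365 4 (V.cons 371 (-3) (V.cons 941 (-1) (V.cons 1211 (-1) (V.cons 1259 (-1) V.nil))))))))))) (Q.cons 74 (V.cons 86 (-2) (V.cons 182 1 (V.cons 236 (-1) (V.cons 302 1 (V.cons 362 (-1) (V.cons 938 1 V.nil)))))) Q.nil))))))))),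
  (Q.cons 28 (V.cons 84 2 (V.cons 1194 (-1) V.nil)) (Q.cons 106 (V.cons 300 (-1) V.nil) (Q.cons 109 (V.cons 299 1 V.nil) (Q.cons 115 (V.cons 77 (-2) V.nil) (Q.cons 116 (V.cons 74 1 V.nil) (Q.cons 427 (V.cons 77 1 V.nil) (Q.cons 458 (V.cons 74 (-1) V.nil) Q.nil))))))),
  (Q.cons 13 (V.cons 245 2 (V.cons 3755 (-1) V.nil)) (Q.cons 20 (V.cons 236 2 V.nil) (Q.cons 43 (V.cons 941 (-1) V.nil) (Q.cons 44 (V.cons 938 (-1) V.nil) (Q.cons 170 (V.cons 236 (-1) V.nil) Q.nil))))),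
  (Q.cons 43 (V.cons 245 2 (V.cons 311 2 (V.cons 317 4 (V.cons 335 (-2) (V.cons 347 2 (V.cons 365 4 (V.cons 371 (-4) (V.cons 875 (-2) (V.cons 971 (-2) (V.cons 1211 (-2) (V.cons 1259 (-2) V.nil))))))))))) (Q.cons 44 (V.cons 98 2 (V.cons 182 (-3) (V.cons 218 (-5) (V.cons 236 1 (V.cons 242 (-1) (V.cons 302 1 (V.cons 314 5 (V.cons 686 2 V.nil)))))))) (Q.cons 83 (V.cons 55 (-1) (V.cons 61 (-1) (V.cons 79 (-1) (V.cons 91 (-1) (V.cons 175 2 (V.cons 187 1 (V.cons 235 1 V.nil))))))) (Q.cons 86 (V.cons 20 4 (V.cons 44 (-4) V.nil)) (Q.cons 116 (V.cons 20 (-2) (V.cons 44 2 V.nil)) (Q.cons 170 (V.cons 86 (-2) (V.cons 98 (-1) (V.cons 182 2 (V.cons 218 2 (V.cons 314 (-2) V.nil))))) (Q.cons 173 (V.cons 55 1 (V.cons 61 1 (V.cons 79 1 (V.cons 91 1 (V.cons 175 (-2) (V.cons 187 (-1) (V.cons 235 (-1) V.nil))))))) (Q.cons 182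 (V.cons 20 (-1) (V.cons 44 1 V.nil)) (Q.cons 218 (V.cons 20 1 (V.cons 44 (-1) V.nil)) (Q.cons 221 (V.cons 13 8 (V.cons 43 (-2) V.nil)) (Q.cons 236 (V.cons 20 (-1) (V.cons 44 1 V.nil)) (Q.cons 242 (V.cons 20 1 (V.cons 44 (-1) V.nil)) (Q.cons 245 (V.cons 13 1 (V.cons 43 (-2) V.nil)) (Q.cons 302 (V.cons 20 (-1) (V.cons 44 1 V.nil)) (Q.cons 311 (V.cons 13 (-6) (V.cons 43 1 V.nil)) (Q.cons 314 (V.cons 20 (-1) (V.cons 44 1 V.nil)) (Q.cons 317 (V.cons 13 (-4) (V.cons 43 (-1) V.nil)) (Q.cons 335 (V.cons 13 8 (V.cons 43 (-1) V.nil)) (Q.cons 342 (V.cons 10 14 V.nil) (Q.cons 347 (V.cons 43 (-1) V.nil) (Q.cons 348 (V.cons 10 (-34) V.nil) (Q.cons 365 (V.cons 13 (-4) (V.cons 43 (-1) V.nil)) (Q.cons 371 (V.cons 13 3 (V.cons 43 1 V.nil)) (Q.cons 372 (V.cons 10 (-54) V.nil) (Q.cons 428 (V.cons 20 1 (V.cons 44 (-1) V.nil))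 (Q.cons 458 (V.cons 20 1 (V.cons 44 (-1) V.nil)) (Q.cons 461 (V.cons 13 (-1) (V.cons 43 (-2) V.nil)) (Q.cons 467 (V.cons 13 (-4) (V.cons 43 4 V.nil)) (Q.cons 686 (V.cons 20 (-2) (V.cons 44 2 V.nil)) (Q.cons 875 (V.cons 13 (-5) (V.cons 43 2 V.nil)) (Q.cons 941 (V.cons 13 2 V.nil) (Q.cons 971 (V.cons 13 (-3) (V.cons 43 2 V.nil)) (Q.cons 1206 (V.cons 10 (-12) V.nil) (Q.cons 1211 (V.cons 43 1 V.nil) (Q.cons 1242 (V.cons 10 (-28) V.nil) (Q.cons 1259 (V.cons 13 1 (V.cons 43 1 V.nil)) (Q.cons 1260 (V.cons 10 8 V.nil) (Q.cons 1266 (V.cons 10 (-10) V.nil) (Q.cons 1326 (V.cons 10 (-2) V.nil) (Q.cons 1338 (V.cons 10 28 V.nil) (Q.cons 1386 (V.cons 10 34 V.nil) (Q.cons 1451 (V.cons 13 1 V.nil) (Q.cons 1452 (V.cons 10 8 V.nil) (Q.cons 1482 (V.cons 10 46 V.nil) (Q.cons 1835 (V.cons 13 5 (V.cons 43 (-2) V.nil)) (Q.cons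 2735 (V.cons 13 (-2) V.nil) (Q.cons 3498 (V.cons 10 2 V.nil) Q.nil)))))))))))))))))))))))))))))))))))))))))))))))]

def lits8_1_4 : List Q := [
  (Q.cons 86 (V.cons 44 (-2) V.nil) (Q.cons 92 (V.cons 20 (-4) (V.cons 170 2 V.nil)) (Q.cons 98 (V.cons 20 (-2) (V.cons 170 1 V.nil)) (Q.cons 116 (V.cons 20 (-4) (V.cons 44 4 (V.cons 170 2 V.nil))) (Q.cons 182 (V.cons 44 1 V.nil) (Q.cons 218 (V.cons 44 1 V.nil) (Q.cons 221 (V.cons 13 (-2) (V.cons 43 (-4) V.nil)) (Q.cons 236 (V.cons 44 (-1) V.nil) (Q.cons 242 (V.cons 44 1 V.nil) (Q.cons 245 (V.cons 13 1 V.nil) (Q.cons 302 (V.cons 44 1 V.nil) (Q.cons 311 (V.cons 43 3 V.nil) (Q.cons 314 (V.cons 44 (-1) V.nil) (Q.cons 317 (V.cons 43 5 V.nil) (Q.cons 335 (V.cons 43 (-3) V.nil) (Q.cons 347 (V.cons 43 1 V.nil) (Q.cons 362 (V.cons 20 4 (V.cons 170 (-2) V.nil)) (Q.cons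 365 (V.cons 43 3 V.nil) (Q.cons 371 (V.cons 13 1 (V.cons 43 (-3) V.nil)) (Q.cons 428 (V.cons 20 4 (V.cons 44 (-1) (V.cons 170 (-2) V.nil))) (Q.cons 458 (V.cons 44 (-1) V.nil) (Q.cons 461 (V.cons 13 1 (V.cons 43 2 V.nil)) (Q.cons 467 (V.cons 13 (-2) (V.cons 43 (-4) V.nil)) (Q.cons 875 (V.cons 13 1 V.nil) (Q.cons 971 (V.cons 13 (-1) V.nil) (Q.cons 1211 (V.cons 43 (-1) V.nil) (Q.cons 1259 (V.cons 13 1 (V.cons 43 (-1) V.nil)) (Q.cons 1451 (V.cons 13 (-1) V.nil) (Q.cons 1706 (V.cons 44 (-2) V.nil) (Q.cons 1709 (V.cons 43 2 V.nil) (Q.cons 1835 (V.cons 13 (-1) V.nil) (Q.cons 6827 (V.cons 13 2 V.nil) Q.nil)))))))))))))))))))))))))))))))),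
  (Q.cons 170 (V.cons 218 1 (V.cons 314 (-1) V.nil)) (Q.cons 173 (V.cons 91 2 (V.cons 187 (-1) V.nil)) (Q.cons 221 (V.cons 13 5 (V.cons 19 (-11) (V.cons 43 3 V.nil))) (Q.cons 245 (V.cons 19 (-2) (V.cons 43 1 V.nil)) (Q.cons 311 (V.cons 13 (-5) (V.cons 19 11 (V.cons 43 (-3) V.nil))) (Q.cons 317 (V.cons 13 (-4) (V.cons 19 12 (V.cons 43 (-4) V.nil))) (Q.cons 330 (V.cons 22 2 (V.cons 46 (-1) (V.cons 58 1 V.nil))) (Q.cons 335 (V.cons 13 5 (V.cons 19 (-9) (V.cons 43 2 V.nil))) (Q.cons 342 (V.cons 4 (-22) (V.cons 10 1 V.nil)) (Q.cons 347 (V.cons 13 (-6) (V.cons 19 10 (V.cons 43 (-2) V.nil))) (Q.cons 348 (V.cons 4 28 (V.cons 10 (-17) V.nil)) (Q.cons 365 (V.cons 13 (-4) (V.cons 19 12 (V.cons 43 (-4) V.nil))) (Q.cons 371 (V.cons 13 1 (V.cons 19 (-7) (V.cons 43 3 V.nil))) (Q.cons 372 (V.cons 4 70 (V.cons 10 (-17)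 V.nil)) (Q.cons 461 (V.cons 13 (-1) (V.cons 19 7 (V.cons 43 (-3) V.nil))) (Q.cons 467 (V.cons 13 (-4) (V.cons 43 2 V.nil)) (Q.cons 468 (V.cons 10 4 V.nil) (Q.cons 683 (V.cons 55 (-1) (V.cons 79 1 (V.cons 91 (-1) V.nil))) (Q.cons 684 (V.cons 58 (-1) V.nil) (Q.cons 686 (V.cons 20 1 (V.cons 74 (-1) V.nil)) (Q.cons 875 (V.cons 13 (-9) (V.cons 19 13 (V.cons 43 (-2) V.nil))) (Q.cons 971 (V.cons 13 (-1) (V.cons 19 3 (V.cons 43 (-1) V.nil))) (Q.cons 978 (V.cons 4 1 V.nil) (Q.cons 1206 (V.cons 4 11 (V.cons 10 (-1) V.nil)) (Q.cons 1211 (V.cons 13 5 (V.cons 19 (-9) (V.cons 43 2 V.nil))) (Q.cons 1242 (V.cons 4 23 (V.cons 10 (-10) V.nil)) (Q.cons 1259 (V.cons 13 8 (V.cons 19 (-14) (V.cons 43 3 V.nil))) (Q.cons 1260 (V.cons 4 (-13) (V.cons 10 2 V.nil)) (Q.cons 1266 (V.cons 4 11 (V.cons 10 (-4) V.nil)) (Q.cons 1269 (V.cons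 3 (-1) V.nil) (Q.cons 1326 (V.cons 4 11 V.nil) (Q.cons 1338 (V.cons 4 (-22) (V.cons 10 9 V.nil)) (Q.cons 1341 (V.cons 3 (-19) V.nil) (Q.cons 1359 (V.cons 3 4 V.nil) (Q.cons 1386 (V.cons 4 (-28) (V.cons 10 17 V.nil)) (Q.cons 1395 (V.cons 3 (-15) V.nil) (Q.cons 1451 (V.cons 13 3 (V.cons 19 (-5) (V.cons 43 1 V.nil))) (Q.cons 1452 (V.cons 4 (-13) (V.cons 10 2 V.nil)) (Q.cons 1482 (V.cons 4 (-53) (V.cons 10 16 V.nil)) (Q.cons 1491 (V.cons 3 (-1) V.nil) (Q.cons 1835 (V.cons 13 5 (V.cons 19 (-7) (V.cons 43 1 V.nil))) (Q.cons 2730 (V.cons 22 (-1) V.nil) (Q.cons 2735 (V.cons 19 (-1) V.nil) (Q.cons 3498 (V.cons 4 6 (V.cons 10 3 V.nil)) (Q.cons 3755 (V.cons 13 1 (V.cons 19 (-1) V.nil)) (Q.cons 5034 (V.cons 4 (-4) (V.cons 10 (-1) V.nil)) (Q.cons 5295 (V.cons 3 (-4) V.nil) (Q.cons 5355 (V.cons 3 19 V.nil) (Q.cons 5547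 (V.cons 3 15 V.nil) (Q.cons 5802 (V.cons 4 (-4) (V.cons 10 (-1) V.nil)) (Q.cons 7338 (V.cons 10 (-4) V.nil) (Q.cons 15018 (V.cons 4 (-1) V.nil) (Q.cons 20139 (V.cons 3 1 V.nil) (Q.cons 23211 (V.cons 3 1 V.nil) Q.nil)))))))))))))))))))))))))))))))))))))))))))))))))))))),
  (Q.cons 86 (V.cons 20 (-3) (V.cons 74 3 V.nil)) (Q.cons 116 (V.cons 20 3 (V.cons 74 (-3) V.nil)) (Q.cons 182 (V.cons 20 1 (V.cons 74 (-1) V.nil)) (Q.cons 218 (V.cons 20 (-1) (V.cons 74 1 V.nil)) (Q.cons 221 (V.cons 13 (-2) (V.cons 19 6 (V.cons 43 (-3) V.nil))) (Q.cons 236 (V.cons 20 (-2) (V.cons 74 2 V.nil)) (Q.cons 242 (V.cons 20 1 (V.cons 74 (-1) V.nil)) (Q.cons 245 (V.cons 13 2 (V.cons 19 (-4) (V.cons 43 2 V.nil))) (Q.cons 302 (V.cons 20 2 (V.cons 74 (-2) V.nil)) (Q.cons 311 (V.cons 13 2 (V.cons 19 (-6) (V.cons 43 3 V.nil))) (Q.cons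 314 (V.cons 20 2 (V.cons 74 (-2) V.nil)) (Q.cons 317 (V.cons 13 2 (V.cons 19 (-12) (V.cons 43 6 V.nil))) (Q.cons 335 (V.cons 13 (-2) (V.cons 19 6 (V.cons 43 (-3) V.nil))) (Q.cons 342 (V.cons 4 5 (V.cons 10 4 V.nil)) (Q.cons 347 (V.cons 13 3 (V.cons 19 (-4) (V.cons 43 2 V.nil))) (Q.cons 348 (V.cons 4 (-21) (V.cons 10 (-17) V.nil)) (Q.cons 365 (V.cons 13 2 (V.cons 19 (-12) (V.cons 43 6 V.nil))) (Q.cons 371 (V.cons 13 (-1) (V.cons 19 12 (V.cons 43 (-6) V.nil))) (Q.cons 372 (V.cons 4 (-25) (V.cons 10 (-29) V.nil)) (Q.cons 428 (V.cons 20 (-2) (V.cons 74 2 V.nil)) (Q.cons 458 (V.cons 20 (-1) (V.cons 74 1 V.nil)) (Q.cons 461 (V.cons 13 1 (V.cons 19 (-12) (V.cons 43 6 V.nil))) (Q.cons 467 (V.cons 19 16 (V.cons 43 (-8) V.nil)) (Q.cons 468 (V.cons 4 2 V.nil) (Q.cons 875 (V.cons 13 3 (V.cons 19 4 (V.cons 43 (-2)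 V.nil))) (Q.cons 938 (V.cons 20 1 (V.cons 74 (-1) V.nil)) (Q.cons 941 (V.cons 19 2 (V.cons 43 (-1) V.nil)) (Q.cons 971 (V.cons 13 (-1) (V.cons 19 2 (V.cons 43 (-1) V.nil))) (Q.cons 978 (V.cons 4 1 (V.cons 10 1 V.nil)) (Q.cons 1206 (V.cons 4 (-3) (V.cons 10 (-3) V.nil)) (Q.cons 1211 (V.cons 13 (-3) (V.cons 19 4 (V.cons 43 (-2) V.nil))) (Q.cons 1242 (V.cons 4 (-14) (V.cons 10 (-15) V.nil)) (Q.cons 1259 (V.cons 13 (-4) (V.cons 19 4 (V.cons 43 (-2) V.nil))) (Q.cons 1260 (V.cons 4 2 (V.cons 10 5 V.nil)) (Q.cons 1266 (V.cons 4 (-5) (V.cons 10 (-6) V.nil)) (Q.cons 1269 (V.cons 3 1 V.nil) (Q.cons 1326 (V.cons 4 (-2) (V.cons 10 (-1) V.nil)) (Q.cons 1338 (V.cons 4 14 (V.cons 10 15 V.nil)) (Q.cons 1341 (V.cons 3 17 V.nil) (Q.cons 1359 (V.cons 3 (-4) V.nil) (Q.cons 1386 (V.cons 4 21 (V.cons 10 17 V.nil)) (Q.cons 1395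 (V.cons 3 13 V.nil) (Q.cons 1451 (V.cons 13 (-1) V.nil) (Q.cons 1452 (V.cons 4 2 (V.cons 10 5 V.nil)) (Q.cons 1482 (V.cons 4 23 (V.cons 10 24 V.nil)) (Q.cons 1491 (V.cons 3 1 V.nil) (Q.cons 1835 (V.cons 13 (-1) (V.cons 19 (-4) (V.cons 43 2 V.nil))) (Q.cons 3498 (V.cons 4 4 V.nil) (Q.cons 3755 (V.cons 13 (-1) V.nil) (Q.cons 3756 (V.cons 10 (-1) V.nil) (Q.cons 5295 (V.cons 3 4 V.nil) (Q.cons 5355 (V.cons 3 (-17) V.nil) (Q.cons 5547 (V.cons 3 (-13) V.nil) (Q.cons 7338 (V.cons 4 (-2) V.nil) (Q.cons 15018 (V.cons 4 (-1) V.nil) (Q.cons 20139 (V.cons 3 (-1) V.nil) (Q.cons 23211 (V.cons 3 (-1) V.nil) Q.nil))))))))))))))))))))))))))))))))))))))))))))))))))))))))),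
  (Q.cons 314 (V.cons 20 1 (V.cons 74 (-1) V.nil)) (Q.cons 317 (V.cons 19 2 (V.cons 43 (-1) V.nil)) (Q.cons 1259 (V.cons 13 (-1) V.nil) (Q.cons 1260 (V.cons 10 (-1) V.nil) (Q.cons 1266 (V.cons 4 2 V.nil) (Q.cons 1341 (V.cons 3 (-2) V.nil) (Q.cons 1359 (V.cons 3 1 V.nil) (Q.cons 1395 (V.cons 3 (-1) V.nil) (Q.cons 5034 (V.cons 4 (-1) V.nil) (Q.cons 5295 (V.cons 3 (-1) V.nil) (Q.cons 5355 (V.cons 3 2 V.nil) (Q.cons 5547 (V.cons 3 1 V.nil) Q.nil)))))))))))),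
  (Q.cons 0 (V.cons 1396 4 (V.cons 22186 (-4) V.nil)) (Q.cons 3 (V.cons 1341 6 (V.cons 1359 (-2) (V.cons 5295 2 (V.cons 5355 (-6) V.nil)))) (Q.cons 10 (V.cons 342 2 (V.cons 348 1 (V.cons 372 (-8) (V.cons 978 1 (V.cons 1206 (-1) (V.cons 1242 (-2) (V.cons 1260 3 (V.cons 1266 (-3) (V.cons 1326 (-1) (V.cons 1338 2 (V.cons 1386 (-1) (V.cons 1452 3 (V.cons 1482 5 (V.cons 3756 (-1) V.nil)))))))))))))) (Q.cons 13 (V.cons 221 2 (V.cons 245 (-1) (V.cons 311 (-2) (V.cons 317 (-2) (V.cons 335 2 (V.cons 347 (-2) (V.cons 365 (-2) (V.cons 371 1 (V.cons 875 (-2) (V.cons 1211 2 (V.cons 1259 2 (V.cons 3755 1 V.nil)))))))))))) (Q.cons 19 (V.cons 221 (-2) (V.cons 245 1 (V.cons 311 2 (V.cons 317 2 (V.cons 335 (-2) (V.cons 347 2 (V.cons 365 2 (V.cons 371 (-1) (V.cons 875 2 (V.cons 1211 (-2) (V.cons 1259 (-2) (V.cons 3755 (-1)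 V.nil)))))))))))) (Q.cons 20 (V.cons 86 (-2) (V.cons 182 1 (V.cons 236 (-1) (V.cons 302 1 (V.cons 362 (-1) (V.cons 938 1 V.nil)))))) (Q.cons 43 (V.cons 221 1 (V.cons 245 2 (V.cons 311 (-1) (V.cons 335 1 (V.cons 347 (-1) (V.cons 371 (-1) (V.cons 875 (-3) (V.cons 941 (-1) (V.cons 971 (-1) (V.cons 1211 1 (V.cons 1259 2 (V.cons 1451 1 V.nil)))))))))))) (Q.cons 44 (V.cons 86 2 (V.cons 182 (-1) (V.cons 236 1 (V.cons 302 (-1) (V.cons 362 1 (V.cons 938 (-1) V.nil)))))) (Q.cons 83 (V.cons 187 (-1) V.nil) (Q.cons 299 (V.cons 187 1 V.nil) Q.nil)))))))))),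
  (Q.cons 10 (V.cons 342 3 (V.cons 348 7 (V.cons 1206 (-2) (V.cons 1242 2 (V.cons 1260 1 (V.cons 1266 1 (V.cons 1326 (-1) (V.cons 1338 (-2) (V.cons 1386 (-7) (V.cons 1452 1 (V.cons 1482 (-2) (V.cons 3498 (-3) (V.cons 5034 1 (V.cons 5802 1 V.nil)))))))))))))) (Q.cons 20 (V.cons 938 (-1) V.nil) (Q.cons 43 (V.cons 245 (-1) (V.cons 941 1 V.nil)) (Q.cons 44 (V.cons 938 1 V.nil) (Q.cons 83 (V.cons 235 (-1) V.nil) (Q.cons 170 (V.cons 236 (-1) (V.cons 242 1 V.nil)) (Q.cons 173 (V.cons 235 1 V.nil) Q.nil))))))),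
  (Q.cons 19 (V.cons 335 1 (V.cons 1199 (-1) V.nil)) (Q.cons 74 (V.cons 86 (-1) (V.cons 182 1 V.nil)) (Q.cons 77 (V.cons 175 (-1) V.nil) (Q.cons 79 (V.cons 83 1 (V.cons 299 (-1) V.nil)) (Q.cons 83 (V.cons 175 1 V.nil) (Q.cons 84 (V.cons 46 (-1) V.nil) (Q.cons 299 (V.cons 55 1 (V.cons 79 (-1) V.nil)) (Q.cons 300 (V.cons 46 1 V.nil) (Q.cons 302 (V.cons 20 (-1) (V.cons 44 1 V.nil)) (Q.cons 311 (V.cons 43 (-1) V.nil) (Q.cons 335 (V.cons 43 1 V.nil) (Q.cons 339 (V.cons 15 (-1) V.nil) (Q.cons 342 (V.cons 10 (-1) V.nil) (Q.cons 1199 (V.cons 13 1 (V.cons 19 (-1) V.nil)) (Q.cons 1206 (V.cons 10 1 V.nil) (Q.cons 1323 (V.cons 15 1 V.nil) (Q.cons 1359 (V.cons 3 (-1) V.nil) (Q.cons 5295 (V.cons 3 1 V.nil) Q.nil)))))))))))))))))),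
  (Q.cons 3 (V.cons 981 4 (V.cons 1269 16 (V.cons 1341 432 (V.cons 1359 (-100) (V.cons 1395 356 (V.cons 1491 16 (V.cons 5295 100 (V.cons 5355 (-432) (V.cons 5547 (-356) (V.cons 20139 (-16) (V.cons 23211 (-16) (V.cons 60075 (-4) V.nil)))))))))))) (Q.cons 4 (V.cons 342 (-80) (V.cons 348 48 (V.cons 372 208 (V.cons 978 4 (V.cons 1206 44 (V.cons 1242 60 (V.cons 1260 (-44) (V.cons 1266 28 (V.cons 1326 36 (V.cons 1338 (-64) (V.cons 1386 (-48) (V.cons 1452 (-44) (V.cons 1482 (-148) (V.cons 3498 32 (V.cons 5034 (-16) (V.cons 5802 (-16) (V.cons 15018 (-4) V.nil))))))))))))))))) (Q.cons 6 (V.cons 5290 (-4) (V.cons 43690 4 V.nil)) (Q.cons 9 (V.cons 10923 2 V.nil) (Q.cons 10 (V.cons 342 54 (V.cons 348 18 (V.cons 372 (-84) (V.cons 978 (-8) (V.cons 1206 (-24) (V.cons 1242 4 (V.cons 1260 22 (V.cons 1266 (-6) (V.cons 1326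 (-34) (V.cons 1386 (-18) (V.cons 1452 22 (V.cons 1482 46 (V.cons 3498 (-32) (V.cons 3756 4 (V.cons 5034 16 (V.cons 5802 16 (V.cons 10926 4 (V.cons 15018 4 V.nil)))))))))))))))))) (Q.cons 19 (V.cons 2735 4 V.nil) (Q.cons 27 (V.cons 2733 4 (V.cons 10923 (-4) V.nil)) (Q.cons 34 (V.cons 2730 2 V.nil) (Q.cons 43 (V.cons 2735 (-4) V.nil) Q.nil))))))))),
  (Q.cons 3 (V.cons 1341 (-24) (V.cons 1359 8 (V.cons 1395 (-8) (V.cons 5295 (-8) (V.cons 5355 24 (V.cons 5547 8 V.nil)))))) (Q.cons 10 (V.cons 342 (-146) (V.cons 348 42 (V.cons 372 360 (V.cons 1206 84 (V.cons 1242 92 (V.cons 1260 (-74) (V.cons 1266 66 (V.cons 1326 62 (V.cons 1338 (-92) (V.cons 1386 (-42) (V.cons 1452 (-74) (V.cons 1482 (-258) (V.cons 3498 36 (V.cons 5034 (-28) (V.cons 5802 (-28) V.nil))))))))))))))) (Q.cons 13 (V.cons 347 (-8) (V.cons 875 (-8)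 (V.cons 1211 4 (V.cons 1259 8 (V.cons 1451 4 V.nil))))) (Q.cons 20 (V.cons 86 (-24) (V.cons 182 4 (V.cons 218 (-20) (V.cons 236 (-12) (V.cons 242 4 (V.cons 302 16 (V.cons 314 20 (V.cons 362 4 (V.cons 938 8 V.nil))))))))) (Q.cons 43 (V.cons 221 (-60) (V.cons 245 (-16) (V.cons 311 52 (V.cons 317 20 (V.cons 335 (-58) (V.cons 347 38 (V.cons 365 20 (V.cons 371 10 (V.cons 875 108 (V.cons 941 2 (V.cons 971 20 (V.cons 1211 (-34) (V.cons 1259 (-68) (V.cons 1451 (-34) (V.cons 2735 6 (V.cons 3755 (-6) V.nil)))))))))))))))) (Q.cons 44 (V.cons 86 16 (V.cons 182 (-4) (V.cons 218 12 (V.cons 236 12 (V.cons 242 (-4) (V.cons 302 (-12) (V.cons 314 (-12) (V.cons 938 (-8) V.nil)))))))) (Q.cons 55 (V.cons 83 4 (V.cons 173 (-4) (V.cons 683 (-4) V.nil))) (Q.cons 58 (V.cons 330 (-4) (V.cons 684 4 V.nil)) (Q.cons 61 (V.cons 83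 4 (V.cons 173 (-4) (V.cons 683 4 V.nil))) (Q.cons 79 (V.cons 83 (-8) (V.cons 173 4 (V.cons 683 2 V.nil))) (Q.cons 83 (V.cons 187 (-4) V.nil) (Q.cons 86 (V.cons 44 8 (V.cons 170 (-16) V.nil)) (Q.cons 91 (V.cons 83 (-8) (V.cons 173 4 (V.cons 683 2 V.nil))) (Q.cons 98 (V.cons 170 8 V.nil) (Q.cons 109 (V.cons 83 8 (V.cons 173 (-4) (V.cons 683 (-2) V.nil))) (Q.cons 115 (V.cons 83 (-8) (V.cons 173 4 (V.cons 683 2 V.nil))) (Q.cons 116 (V.cons 44 (-8) (V.cons 170 2 V.nil)) (Q.cons 170 (V.cons 182 (-6) (V.cons 236 (-10) (V.cons 242 4 (V.cons 302 4 (V.cons 362 (-4) (V.cons 686 6 (V.cons 938 6 V.nil))))))) (Q.cons 173 (V.cons 187 4 V.nil) (Q.cons 175 (V.cons 683 6 V.nil) (Q.cons 182 (V.cons 44 (-4) (V.cons 170 (-10) V.nil)) (Q.cons 187 (V.cons 83 8 (V.cons 173 (-4) (V.cons 683 (-2) V.nil))) (Q.cons 218 (V.cons 170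 (-32) V.nil) (Q.cons 221 (V.cons 43 66 V.nil) (Q.cons 235 (V.cons 173 4 (V.cons 683 (-8) V.nil)) (Q.cons 236 (V.cons 44 4 (V.cons 170 (-22) V.nil)) (Q.cons 242 (V.cons 170 12 V.nil) (Q.cons 245 (V.cons 43 8 V.nil) (Q.cons 302 (V.cons 44 (-4) (V.cons 170 20 V.nil)) (Q.cons 311 (V.cons 43 (-58) V.nil) (Q.cons 314 (V.cons 44 (-4) (V.cons 170 36 V.nil)) (Q.cons 317 (V.cons 43 (-52) V.nil) (Q.cons 335 (V.cons 43 58 V.nil) (Q.cons 347 (V.cons 43 (-34) V.nil) (Q.cons 365 (V.cons 43 (-52) V.nil) (Q.cons 371 (V.cons 43 32 V.nil) (Q.cons 428 (V.cons 44 4 (V.cons 170 (-20) V.nil)) (Q.cons 458 (V.cons 44 4 (V.cons 170 18 V.nil)) (Q.cons 461 (V.cons 43 (-24) V.nil) (Q.cons 467 (V.cons 43 (-16) V.nil) (Q.cons 686 (V.cons 170 6 V.nil) (Q.cons 875 (V.cons 43 (-68) V.nil) (Q.cons 938 (V.cons 170 6 V.nil) (Q.cons 971 (V.cons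 43 (-8) V.nil) (Q.cons 1211 (V.cons 43 34 V.nil) (Q.cons 1259 (V.cons 43 54 V.nil) (Q.cons 1451 (V.cons 43 20 V.nil) (Q.cons 1835 (V.cons 43 40 V.nil) Q.nil)))))))))))))))))))))))))))))))))))))))))))))))),
  (Q.cons 4 (V.cons 342 2 (V.cons 1206 (-1) V.nil)) (Q.cons 10 (V.cons 342 (-1) V.nil) (Q.cons 13 (V.cons 335 (-1) V.nil) (Q.cons 19 (V.cons 311 1 V.nil) (Q.cons 20 (V.cons 86 2 (V.cons 302 (-1) V.nil)) (Q.cons 22 (V.cons 84 2 (V.cons 300 (-1) V.nil)) (Q.cons 44 (V.cons 86 (-1) V.nil) (Q.cons 46 (V.cons 84 (-1) V.nil) (Q.cons 55 (V.cons 83 (-1) V.nil) (Q.cons 77 (V.cons 79 1 V.nil) (Q.cons 79 (V.cons 77 1 V.nil) (Q.cons 83 (V.cons 79 (-1) V.nil) (Q.cons 86 (V.cons 20 2 (V.cons 74 (-1) V.nil)) (Q.cons 182 (V.cons 20 (-1) V.nil) (Q.cons 311 (V.cons 19 1 V.nil) (Q.cons 335 (V.cons 19 (-1) V.nil) Q.nil))))))))))))))))]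

def lits8_1_5 : List Q := [
  (Q.cons 27 (V.cons 339 (-1) (V.cons 1323 1 V.nil)) (Q.cons 28 (V.cons 330 2 (V.cons 684 (-1) V.nil)) (Q.cons 106 (V.cons 330 (-1) V.nil) (Q.cons 109 (V.cons 83 (-1) V.nil) (Q.cons 115 (V.cons 173 1 V.nil) (Q.cons 116 (V.cons 44 2 (V.cons 170 (-1) V.nil)) (Q.cons 428 (V.cons 44 (-1) V.nil) (Q.cons 461 (V.cons 43 1 V.nil) (Q.cons 467 (V.cons 43 (-1) V.nil) Q.nil))))))))),
  (Q.cons 25 (V.cons 83 (-2) (V.cons 173 1 V.nil)) (Q.cons 34 (V.cons 84 1 (V.cons 330 (-1) V.nil)) (Q.cons 55 (V.cons 83 5 (V.cons 173 (-2) V.nil)) (Q.cons 61 (V.cons 83 1 V.nil) (Q.cons 79 (V.cons 83 (-5) (V.cons 173 2 V.nil)) (Q.cons 91 (V.cons 83 1 V.nil) (Q.cons 92 (V.cons 20 (-2) V.nil) (Q.cons 98 (V.cons 20 (-1) (V.cons 44 1 V.nil)) (Q.cons 109 (V.cons 83 5 (V.cons 173 (-2) V.nil)) (Q.cons 115 (V.cons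 83 (-3) (V.cons 173 2 V.nil)) (Q.cons 116 (V.cons 20 (-2) (V.cons 44 (-2) V.nil)) (Q.cons 187 (V.cons 83 (-1) V.nil) (Q.cons 218 (V.cons 44 (-2) V.nil) (Q.cons 221 (V.cons 13 4 V.nil) (Q.cons 235 (V.cons 83 (-1) V.nil) (Q.cons 311 (V.cons 13 (-1) (V.cons 43 (-1) V.nil)) (Q.cons 314 (V.cons 44 2 V.nil) (Q.cons 317 (V.cons 13 (-3) (V.cons 43 (-1) V.nil)) (Q.cons 335 (V.cons 13 1 (V.cons 43 1 V.nil)) (Q.cons 342 (V.cons 10 (-2) V.nil) (Q.cons 347 (V.cons 13 1 (V.cons 43 (-1) V.nil)) (Q.cons 348 (V.cons 10 (-2) V.nil) (Q.cons 362 (V.cons 20 2 V.nil) (Q.cons 365 (V.cons 13 (-1) (V.cons 43 (-1) V.nil)) (Q.cons 371 (V.cons 13 1 (V.cons 43 1 V.nil)) (Q.cons 372 (V.cons 10 2 V.nil) (Q.cons 427 (V.cons 83 (-2) V.nil) (Q.cons 428 (V.cons 20 2 V.nil) (Q.cons 458 (V.cons 44 2 V.nil) (Q.cons 461 (V.cons 13 (-2) V.nil)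 (Q.cons 467 (V.cons 13 4 V.nil) (Q.cons 1206 (V.cons 10 2 V.nil) (Q.cons 1211 (V.cons 13 (-1) (V.cons 43 1 V.nil)) (Q.cons 1259 (V.cons 13 (-1) (V.cons 43 1 V.nil)) (Q.cons 1386 (V.cons 10 2 V.nil) (Q.cons 1482 (V.cons 10 (-2) V.nil) (Q.cons 1709 (V.cons 13 (-2) V.nil) Q.nil))))))))))))))))))))))))))))))))))))),
  (Q.cons 19 (V.cons 221 1 (V.cons 317 (-1) V.nil)) (Q.cons 20 (V.cons 86 (-2) (V.cons 92 2 (V.cons 182 2 (V.cons 218 1 (V.cons 236 1 (V.cons 242 (-1) (V.cons 314 (-1) (V.cons 362 (-1) V.nil)))))))) (Q.cons 74 (V.cons 92 (-1) V.nil) (Q.cons 77 (V.cons 55 1 (V.cons 61 (-1) (V.cons 79 (-1) V.nil))) (Q.cons 79 (V.cons 77 (-1) (V.cons 83 1 V.nil)) (Q.cons 83 (V.cons 61 1 V.nil) (Q.cons 84 (V.cons 22 2 (V.cons 46 (-1) V.nil)) (Q.cons 86 (V.cons 20 2 (V.cons 44 (-1) V.nil)) (Q.cons 300 (V.cons 22 (-1)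 V.nil) (Q.cons 302 (V.cons 20 (-1) V.nil) (Q.cons 311 (V.cons 13 (-1) V.nil) (Q.cons 317 (V.cons 13 1 (V.cons 19 (-1) V.nil)) (Q.cons 335 (V.cons 13 1 V.nil) (Q.cons 342 (V.cons 4 (-2) V.nil) (Q.cons 348 (V.cons 4 2 (V.cons 10 (-1) V.nil)) (Q.cons 372 (V.cons 4 2 V.nil) (Q.cons 1206 (V.cons 4 2 V.nil) (Q.cons 1242 (V.cons 4 1 V.nil) (Q.cons 1260 (V.cons 4 1 V.nil) (Q.cons 1266 (V.cons 4 (-1) V.nil) (Q.cons 1338 (V.cons 4 (-1) V.nil) (Q.cons 1341 (V.cons 3 9 V.nil) (Q.cons 1359 (V.cons 3 (-2) V.nil) (Q.cons 1386 (V.cons 4 (-1) V.nil) (Q.cons 1395 (V.cons 3 7 V.nil) (Q.cons 1482 (V.cons 4 (-2) V.nil) (Q.cons 5295 (V.cons 3 2 V.nil) (Q.cons 5355 (V.cons 3 (-9) V.nil) (Q.cons 5547 (V.cons 3 (-7) V.nil) Q.nil))))))))))))))))))))))))))))),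
  (Q.cons 91 (V.cons 83 1 (V.cons 299 (-1) V.nil)) (Q.cons 92 (V.cons 74 2 (V.cons 170 (-1) V.nil)) (Q.cons 362 (V.cons 74 (-1) V.nil) (Q.cons 365 (V.cons 43 (-1) V.nil) (Q.cons 371 (V.cons 43 1 V.nil) (Q.cons 1341 (V.cons 3 (-3) V.nil) (Q.cons 1359 (V.cons 3 1 V.nil) (Q.cons 1395 (V.cons 3 (-2) V.nil) (Q.cons 1451 (V.cons 13 1 (V.cons 19 (-1) V.nil)) (Q.cons 1482 (V.cons 4 2 (V.cons 10 (-1) V.nil)) (Q.cons 5295 (V.cons 3 (-1) V.nil) (Q.cons 5355 (V.cons 3 3 V.nil) (Q.cons 5547 (V.cons 3 2 V.nil) (Q.cons 5802 (V.cons 4 (-1) V.nil) Q.nil)))))))))))))),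
  (Q.cons 27 (V.cons 339 1 (V.cons 1323 (-1) V.nil)) (Q.cons 106 (V.cons 84 1 (V.cons 330 (-1) V.nil)) (Q.cons 109 (V.cons 83 1 V.nil) (Q.cons 115 (V.cons 173 (-1) V.nil) (Q.cons 348 (V.cons 10 (-1) V.nil) (Q.cons 372 (V.cons 10 1 V.nil) (Q.cons 428 (V.cons 20 1 V.nil) (Q.cons 458 (V.cons 44 (-1) V.nil) (Q.cons 461 (V.cons 43 (-1) V.nil) (Q.cons 467 (V.cons 43 1 V.nil) (Q.cons 1386 (V.cons 10 1 V.nil) (Q.cons 1482 (V.cons 10 (-1) V.nil) Q.nil)))))))))))),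
  (Q.cons 106 (V.cons 330 1 (V.cons 1194 (-1) V.nil)) (Q.cons 116 (V.cons 170 1 V.nil) (Q.cons 427 (V.cons 83 (-1) (V.cons 299 1 V.nil)) (Q.cons 428 (V.cons 170 (-1) V.nil) (Q.cons 467 (V.cons 43 (-1) V.nil) (Q.cons 1706 (V.cons 44 1 (V.cons 74 (-1) V.nil)) (Q.cons 1709 (V.cons 43 1 V.nil) (Q.cons 6827 (V.cons 13 (-1) (V.cons 19 1 V.nil)) Q.nil))))))))]

def lits8_1 : List Q := lits8_1_0 ++ (lits8_1_1 ++ (lits8_1_2 ++ (lits8_1_3 ++ (lits8_1_4 ++ (lits8_1_5)))))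

set_option maxRecDepth 1000000
theorem rows8_1_ok : chkRows rows8_1 lits8_1 = true := by decide +kernel

end Pool.Agent.N33.SA
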