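import Pool.Agent.N33.SA.Bil4
set_option autoImplicit false

/-! Rows of the certificate of level 8, part 2. -/

noncomputable section
namespace Pool.Agent.N33.SA

def rows8_2 : List BR := [
  ⟨0, 74, 0, [2], []⟩,
  ⟨0, 218, 0, [], []⟩,
  ⟨6, 74, 0, [], []⟩,
  ⟨3, 235, 0, [], []⟩,
  ⟨15, 43, 0, [], []⟩,
  ⟨4, 10, 0, [2], []⟩,
  ⟨34, 10, 0, [], []⟩,
  ⟨28, 10, 0, [], []⟩,
  ⟨13, 15, 0, [], []⟩,
  ⟨427, 3, 0, [], []⟩,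
  ⟨20, 0, 0, [2], []⟩,
  ⟨1706, 0, 0, [], []⟩,
  ⟨86, 0, 0, [], []⟩,
  ⟨0, 61, 1, [], []⟩,
  ⟨3, 4, 1, [2], []⟩,
  ⟨27, 10, 1, [], []⟩,
  ⟨58, 3, 1, [], []⟩,
  ⟨175, 0, 1, [], []⟩,
  ⟨79, 0, 1, [], []⟩,
  ⟨3, 173, 2, [], []⟩,
  ⟨4, 44, 2, [], []⟩,
  ⟨13, 19, 2, [], []⟩,
  ⟨74, 10, 2, [], []⟩,
  ⟨83, 3, 2, [], []⟩,
  ⟨0, 77, 3, [], []⟩,
  ⟨10, 19, 3, [], []⟩,
  ⟨19, 10, 3, [], []⟩,
  ⟨77, 0, 3, [], []⟩,
  ⟨3, 74, 4, [], []⟩,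
  ⟨43, 10, 4, [], []⟩,
  ⟨74, 3, 4, [], []⟩,
  ⟨0, 44, 6, [], []⟩,
  ⟨4, 4, 6, [], []⟩,
  ⟨0, 170, 7, [], []⟩,
  ⟨4, 10, 7, [], []⟩,
  ⟨0, 13, 0, [0,2], []⟩,
  ⟨0, 235, 0, [0], []⟩,
  ⟨3, 10, 0, [3], []⟩,
  ⟨3, 22, 0, [0], []⟩,
  ⟨10, 3, 0, [0,2], []⟩,
  ⟨46, 3, 0, [0], []⟩,
  ⟨13, 0, 0, [3], []⟩,
  ⟨187, 0, 0, [0], []⟩,
  ⟨91, 0, 0, [0], []⟩,
  ⟨0, 58, 1, [0], []⟩,
  ⟨9, 3, 1, [0], []⟩,
  ⟨4, 0, 1, [2,0], []⟩,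
  ⟨3, 170, 2, [0], []⟩,
  ⟨10, 3, 6, [0], []⟩,
  ⟨0, 46, 0, [0,0], []⟩,
  ⟨6, 4, 0, [0,0], []⟩,
  ⟨15, 3, 0, [0,0], []⟩,
  ⟨4, 0, 0, [1,2], []⟩,
  ⟨22, 0, 0, [1], []⟩,
  ⟨3, 0, 1, [3,0], []⟩,
  ⟨27, 0, 1, [1], []⟩]

def lits8_2_0 : List Q := [
  (Q.cons 3 (V.cons 1341 (-12) (V.cons 1359 2 (V.cons 1395 (-10) (V.cons 5295 (-2) (V.cons 5355 12 (V.cons 5547 10 V.nil)))))) (Q.cons 4 (V.cons 1206 2 (V.cons 4782 (-1) V.nil)) (Q.cons 10 (V.cons 1206 (-1) V.nil) (Q.cons 13 (V.cons 1199 (-1) V.nil) (Q.cons 15 (V.cons 339 (-1) (V.cons 1197 1 V.nil)) (Q.cons 19 (V.cons 1199 1 V.nil) (Q.cons 22 (V.cons 300 2 (V.cons 1194 (-1) V.nil)) (Q.cons 46 (V.cons 300 (-1) V.nil) (Q.cons 55 (V.cons 299 (-1) V.nil) (Q.cons 79 (V.cons 299 1 V.nil) Q.nil)))))))))),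
  (Q.cons 3 (V.cons 1341 2 (V.cons 1359 (-1) (V.cons 1395 1 (V.cons 5295 1 (V.cons 5355 (-2) (V.cons 5547 (-1) V.nil)))))) (Q.cons 4 (V.cons 342 2 (V.cons 348 (-4) (V.cons 372 (-10) (V.cons 1206 (-2) (V.cons 1242 (-4) (V.cons 1260 2 (V.cons 1338 4 (V.cons 1386 4 (V.cons 1452 2 (V.cons 1482 8 (V.cons 3498 (-1) V.nil))))))))))) (Q.cons 10 (V.cons 342 (-1) (V.cons 348 2 (V.cons 372 5 (V.cons 1206 1 (V.cons 1242 2 (V.cons 1260 (-1) (V.cons 1338 (-2) (V.cons 1386 (-2) (V.cons 1452 (-1) (V.cons 1482 (-4) V.nil)))))))))) (Q.cons 13 (V.cons 875 (-1) V.nil) (Q.cons 19 (V.cons 875 1 V.nil) Q.nil))))),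
  (Q.cons 27 (V.cons 339 (-1) (V.cons 1197 1 V.nil)) (Q.cons 28 (V.cons 300 2 (V.cons 1194 (-1) V.nil)) (Q.cons 106 (V.cons 300 (-1) V.nil) (Q.cons 109 (V.cons 299 (-1) V.nil) (Q.cons 115 (V.cons 299 1 V.nil) Q.nil))))),
  (Q.cons 10 (V.cons 978 1 (V.cons 3756 (-1) V.nil)) (Q.cons 13 (V.cons 941 2 (V.cons 3755 (-1) V.nil)) (Q.cons 20 (V.cons 938 (-1) V.nil) (Q.cons 43 (V.cons 941 (-1) V.nil) (Q.cons 44 (V.cons 938 1 V.nil) Q.nil))))),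
  (Q.cons 58 (V.cons 330 1 (V.cons 684 (-1) V.nil)) (Q.cons 61 (V.cons 173 2 (V.cons 683 (-1) V.nil)) (Q.cons 235 (V.cons 173 (-1) V.nil) (Q.cons 236 (V.cons 170 1 V.nil) (Q.cons 242 (V.cons 170 (-1) V.nil) Q.nil))))),
  (Q.cons 19 (V.cons 221 (-3) (V.cons 245 (-1) (V.cons 311 3 (V.cons 317 4 (V.cons 335 (-3) (V.cons 347 2 (V.cons 365 4 (V.cons 371 (-3) (V.cons 875 2 (V.cons 971 1 (V.cons 1211 (-2) (V.cons 1259 (-3) (V.cons 1451 (-1) V.nil))))))))))))) (Q.cons 20 (V.cons 182 2 (V.cons 686 (-1) V.nil)) (Q.cons 74 (V.cons 182 (-1) V.nil) (Q.cons 77 (V.cons 175 (-1) V.nil) (Q.cons 79 (V.cons 83 (-1) (V.cons 173 1 V.nil)) (Q.cons 83 (V.cons 175 1 V.nil) (Q.cons 86 (V.cons 44 2 (V.cons 170 (-1) V.nil)) (Q.cons 302 (V.cons 44 (-1) V.nil) (Q.cons 311 (V.cons 43 (-1) V.nil) (Q.cons 335 (V.cons 43 1 V.nil) Q.nil)))))))))),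
  (Q.cons 55 (V.cons 83 1 (V.cons 173 (-1) V.nil)) (Q.cons 61 (V.cons 83 1 (V.cons 173 (-1) V.nil)) (Q.cons 79 (V.cons 83 (-1) (V.cons 173 1 V.nil)) (Q.cons 86 (V.cons 44 (-2) V.nil) (Q.cons 91 (V.cons 83 1 (V.cons 173 (-1) V.nil)) (Q.cons 92 (V.cons 44 (-4) (V.cons 170 2 V.nil)) (Q.cons 98 (V.cons 44 (-2) (V.cons 170 1 V.nil)) (Q.cons 109 (V.cons 83 1 (V.cons 173 (-1) V.nil)) (Q.cons 115 (V.cons 83 1 (V.cons 173 (-1) V.nil)) (Q.cons 116 (V.cons 170 2 V.nil) (Q.cons 182 (V.cons 44 1 V.nil) (Q.cons 187 (V.cons 83 (-1) (V.cons 173 1 V.nil)) (Q.cons 218 (V.cons 44 1 V.nil) (Q.cons 221 (V.cons 43 4 V.nil) (Q.cons 235 (V.cons 83 (-1) (V.cons 173 1 V.nil)) (Q.cons 236 (V.cons 44 (-1) V.nil) (Q.cons 242 (V.cons 44 1 V.nil) (Q.cons 302 (V.cons 44 1 V.nil) (Q.cons 311 (V.cons 43 (-2) V.nil) (Q.cons 314 (V.cons 44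 (-1) V.nil) (Q.cons 317 (V.cons 43 (-4) V.nil) (Q.cons 335 (V.cons 43 2 V.nil) (Q.cons 362 (V.cons 44 4 (V.cons 170 (-2) V.nil)) (Q.cons 365 (V.cons 43 (-2) V.nil) (Q.cons 371 (V.cons 43 2 V.nil) (Q.cons 427 (V.cons 83 (-2) (V.cons 173 2 V.nil)) (Q.cons 428 (V.cons 44 3 (V.cons 170 (-2) V.nil)) (Q.cons 458 (V.cons 44 (-1) V.nil) (Q.cons 461 (V.cons 43 (-2) V.nil) (Q.cons 467 (V.cons 43 4 V.nil) (Q.cons 1706 (V.cons 44 (-2) V.nil) (Q.cons 1709 (V.cons 43 (-2) V.nil) Q.nil)))))))))))))))))))))))))))))))),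
  (Q.cons 115 (V.cons 83 (-1) (V.cons 173 1 V.nil)) (Q.cons 116 (V.cons 44 2 (V.cons 170 (-1) V.nil)) (Q.cons 458 (V.cons 44 (-1) V.nil) (Q.cons 461 (V.cons 43 (-1) V.nil) (Q.cons 467 (V.cons 43 1 V.nil) Q.nil))))),
  (Q.cons 20 (V.cons 236 (-1) (V.cons 242 1 V.nil)) (Q.cons 83 (V.cons 61 1 (V.cons 235 (-1) V.nil)) (Q.cons 84 (V.cons 58 1 V.nil) (Q.cons 330 (V.cons 58 (-1) V.nil) Q.nil)))),
  (Q.cons 348 (V.cons 10 2 V.nil) (Q.cons 372 (V.cons 10 1 V.nil) (Q.cons 468 (V.cons 10 (-1) V.nil) (Q.cons 1242 (V.cons 10 1 V.nil) (Q.cons 1338 (V.cons 10 (-1) V.nil) (Q.cons 1386 (V.cons 10 (-2) V.nil) (Q.cons 1482 (V.cons 10 (-1) V.nil) (Q.cons 1706 (V.cons 20 1 (V.cons 44 (-1) V.nil)) (Q.cons 1709 (V.cons 13 2 (V.cons 43 (-1) V.nil)) (Q.cons 6827 (V.cons 13 (-1) V.nil) (Q.cons 6828 (V.cons 10 1 V.nil) Q.nil)))))))))))]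

def lits8_2_1 : List Q := [
  (Q.cons 83 (V.cons 55 1 (V.cons 79 (-1) V.nil)) (Q.cons 84 (V.cons 22 2 (V.cons 46 (-1) V.nil)) (Q.cons 330 (V.cons 22 (-1) V.nil) (Q.cons 335 (V.cons 13 1 (V.cons 19 (-1) V.nil)) (Q.cons 342 (V.cons 4 2 (V.cons 10 (-1) V.nil)) (Q.cons 1326 (V.cons 4 (-1) V.nil) Q.nil)))))),
  (Q.cons 1341 (V.cons 3 3 V.nil) (Q.cons 1359 (V.cons 3 (-1) V.nil) (Q.cons 1395 (V.cons 3 1 V.nil) (Q.cons 1875 (V.cons 3 1 V.nil) (Q.cons 5295 (V.cons 3 1 V.nil) (Q.cons 5355 (V.cons 3 (-3) V.nil) (Q.cons 5547 (V.cons 3 (-1) V.nil) (Q.cons 6827 (V.cons 13 1 (V.cons 19 (-1) V.nil)) (Q.cons 6828 (V.cons 4 2 (V.cons 10 (-1) V.nil)) (Q.cons 27306 (V.cons 4 (-1) V.nil) (Q.cons 27309 (V.cons 3 (-1) V.nil) Q.nil))))))))))),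
  (Q.cons 347 (V.cons 13 1 (V.cons 19 (-1) V.nil)) (Q.cons 348 (V.cons 4 2 (V.cons 10 (-1) V.nil)) (Q.cons 1386 (V.cons 4 (-1) V.nil) Q.nil))),
  (Q.cons 3 (V.cons 1395 1 (V.cons 5547 (-1) V.nil)) (Q.cons 10 (V.cons 342 5 (V.cons 348 (-9) (V.cons 372 (-18) (V.cons 1206 (-4) (V.cons 1242 (-9) (V.cons 1260 3 (V.cons 1266 (-3) (V.cons 1326 (-1) (V.cons 1338 9 (V.cons 1386 9 (V.cons 1452 3 (V.cons 1482 15 V.nil)))))))))))) (Q.cons 13 (V.cons 971 1 V.nil) (Q.cons 19 (V.cons 971 (-1) V.nil) (Q.cons 44 (V.cons 242 1 V.nil) (Q.cons 74 (V.cons 242 (-1) V.nil) Q.nil)))))),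
  (Q.cons 10 (V.cons 1206 1 (V.cons 1326 (-1) V.nil)) (Q.cons 20 (V.cons 302 1 V.nil) (Q.cons 43 (V.cons 311 (-1) (V.cons 335 1 V.nil)) (Q.cons 44 (V.cons 302 (-1) V.nil) (Q.cons 46 (V.cons 300 1 (V.cons 330 (-1) V.nil)) (Q.cons 83 (V.cons 79 (-1) V.nil) (Q.cons 86 (V.cons 74 1 V.nil) (Q.cons 173 (V.cons 79 1 V.nil) (Q.cons 175 (V.cons 77 (-1) (V.cons 83 1 V.nil)) (Q.cons 182 (V.cons 74 (-1) V.nil) (Q.cons 221 (V.cons 19 (-3) V.nil) (Q.cons 245 (V.cons 19 (-1) V.nil) (Q.cons 311 (V.cons 19 3 V.nil) (Q.cons 317 (V.cons 19 4 V.nil) (Q.cons 335 (V.cons 19 (-3) V.nil) (Q.cons 347 (V.cons 19 2 V.nil) (Q.cons 365 (V.cons 19 4 V.nil) (Q.cons 371 (V.cons 19 (-3) V.nil) (Q.cons 461 (V.cons 19 3 V.nil) (Q.cons 467 (V.cons 19 (-2) V.nil) (Q.cons 875 (V.cons 19 2 V.nil) (Q.cons 971 (V.cons 19 1 V.nil) (Q.cons 1211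 (V.cons 19 (-2) V.nil) (Q.cons 1259 (V.cons 19 (-3) V.nil) (Q.cons 1451 (V.cons 19 (-1) V.nil) (Q.cons 1835 (V.cons 19 (-1) V.nil) Q.nil)))))))))))))))))))))))))),
  (Q.cons 106 (V.cons 330 (-1) (V.cons 684 1 V.nil)) (Q.cons 116 (V.cons 170 1 V.nil) (Q.cons 427 (V.cons 83 1 (V.cons 173 (-1) V.nil)) (Q.cons 428 (V.cons 170 (-1) V.nil) (Q.cons 467 (V.cons 43 (-1) V.nil) (Q.cons 1709 (V.cons 43 1 V.nil) Q.nil)))))),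
  (Q.cons 235 (V.cons 83 1 (V.cons 173 (-1) V.nil)) (Q.cons 245 (V.cons 43 (-1) V.nil) (Q.cons 938 (V.cons 20 1 (V.cons 44 (-1) V.nil)) (Q.cons 941 (V.cons 43 1 V.nil) (Q.cons 978 (V.cons 10 (-1) V.nil) (Q.cons 3756 (V.cons 10 1 V.nil) Q.nil)))))),
  (Q.cons 86 (V.cons 44 (-3) (V.cons 74 3 V.nil)) (Q.cons 116 (V.cons 44 3 (V.cons 74 (-3) V.nil)) (Q.cons 182 (V.cons 44 1 (V.cons 74 (-1) V.nil)) (Q.cons 218 (V.cons 44 (-1) (V.cons 74 1 V.nil)) (Q.cons 221 (V.cons 13 (-2) (V.cons 19 2 V.nil)) (Q.cons 236 (V.cons 44 (-2) (V.cons 74 2 V.nil)) (Q.cons 242 (V.cons 44 1 (V.cons 74 (-1) V.nil)) (Q.cons 245 (V.cons 13 2 (V.cons 19 (-2) V.nil)) (Q.cons 302 (V.cons 44 2 (V.cons 74 (-2) V.nil)) (Q.cons 311 (V.cons 13 2 (V.cons 19 (-2) V.nil)) (Q.cons 314 (V.cons 44 2 (V.cons 74 (-2) V.nil)) (Q.cons 317 (V.cons 13 2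 (V.cons 19 (-2) V.nil)) (Q.cons 335 (V.cons 13 (-2) (V.cons 19 2 V.nil)) (Q.cons 342 (V.cons 10 11 V.nil) (Q.cons 347 (V.cons 13 3 (V.cons 19 (-3) V.nil)) (Q.cons 348 (V.cons 10 (-23) V.nil) (Q.cons 365 (V.cons 13 2 (V.cons 19 (-2) V.nil)) (Q.cons 371 (V.cons 13 (-1) (V.cons 19 1 V.nil)) (Q.cons 372 (V.cons 10 (-46) V.nil) (Q.cons 428 (V.cons 44 (-2) (V.cons 74 2 V.nil)) (Q.cons 458 (V.cons 44 (-1) (V.cons 74 1 V.nil)) (Q.cons 461 (V.cons 13 1 (V.cons 19 (-1) V.nil)) (Q.cons 468 (V.cons 10 (-1) V.nil) (Q.cons 875 (V.cons 13 3 (V.cons 19 (-3) V.nil)) (Q.cons 938 (V.cons 44 1 (V.cons 74 (-1) V.nil)) (Q.cons 971 (V.cons 13 (-1) (V.cons 19 1 V.nil)) (Q.cons 978 (V.cons 10 1 V.nil) (Q.cons 981 (V.cons 3 (-1) V.nil) (Q.cons 1206 (V.cons 10 (-7) V.nil) (Q.cons 1211 (V.cons 13 (-3) (V.cons 19 3 V.nil)) (Q.cons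 1242 (V.cons 10 (-21) V.nil) (Q.cons 1259 (V.cons 13 (-4) (V.cons 19 4 V.nil)) (Q.cons 1260 (V.cons 10 8 V.nil) (Q.cons 1266 (V.cons 10 (-8) V.nil) (Q.cons 1269 (V.cons 3 1 V.nil) (Q.cons 1326 (V.cons 10 (-4) V.nil) (Q.cons 1338 (V.cons 10 21 V.nil) (Q.cons 1341 (V.cons 3 28 V.nil) (Q.cons 1359 (V.cons 3 (-6) V.nil) (Q.cons 1386 (V.cons 10 23 V.nil) (Q.cons 1395 (V.cons 3 21 V.nil) (Q.cons 1451 (V.cons 13 (-1) (V.cons 19 1 V.nil)) (Q.cons 1452 (V.cons 10 8 V.nil) (Q.cons 1482 (V.cons 10 37 V.nil) (Q.cons 1491 (V.cons 3 1 V.nil) (Q.cons 1835 (V.cons 13 (-1) (V.cons 19 1 V.nil)) (Q.cons 3498 (V.cons 10 (-1) V.nil) (Q.cons 3755 (V.cons 13 (-1) (V.cons 19 1 V.nil)) (Q.cons 3756 (V.cons 10 (-1) V.nil) (Q.cons 5034 (V.cons 10 1 V.nil) (Q.cons 5295 (V.cons 3 6 V.nil) (Q.cons 5355 (V.cons 3 (-28) V.nil) (Q.cons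 5547 (V.cons 3 (-21) V.nil) (Q.cons 5802 (V.cons 10 1 V.nil) (Q.cons 7338 (V.cons 10 1 V.nil) (Q.cons 15021 (V.cons 3 1 V.nil) (Q.cons 20139 (V.cons 3 (-1) V.nil) (Q.cons 23211 (V.cons 3 (-1) V.nil) Q.nil)))))))))))))))))))))))))))))))))))))))))))))))))))))))))),
  (Q.cons 314 (V.cons 44 1 (V.cons 74 (-1) V.nil)) (Q.cons 1259 (V.cons 13 (-1) (V.cons 19 1 V.nil)) (Q.cons 1260 (V.cons 10 (-1) V.nil) (Q.cons 1266 (V.cons 10 1 V.nil) (Q.cons 1341 (V.cons 3 21 V.nil) (Q.cons 1359 (V.cons 3 (-4) V.nil) (Q.cons 1395 (V.cons 3 17 V.nil) (Q.cons 1491 (V.cons 3 1 V.nil) (Q.cons 5295 (V.cons 3 4 V.nil) (Q.cons 5355 (V.cons 3 (-21) V.nil) (Q.cons 5547 (V.cons 3 (-17) V.nil) (Q.cons 5805 (V.cons 3 (-1) V.nil) Q.nil)))))))))))),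
  (Q.cons 3 (V.cons 1341 36 (V.cons 1359 (-8) (V.cons 1395 24 (V.cons 5295 8 (V.cons 5355 (-36) (V.cons 5547 (-24) V.nil)))))) (Q.cons 10 (V.cons 342 (-28) (V.cons 348 60 (V.cons 372 96 (V.cons 1206 22 (V.cons 1242 50 (V.cons 1260 (-14) (V.cons 1266 18 (V.cons 1326 6 (V.cons 1338 (-50) (V.cons 1386 (-60) (V.cons 1452 (-14) (V.cons 1482 (-82) (V.cons 3498 (-4) V.nil))))))))))))) (Q.cons 13 (V.cons 221 12 (V.cons 245 4 (V.cons 311 (-12) (V.cons 317 (-16) (V.cons 335 8 (V.cons 347 (-8) (V.cons 365 (-16) (V.cons 371 12 (V.cons 875 (-8) (V.cons 971 (-4) (V.cons 1211 8 (V.cons 1259 12 (V.cons 1451 4 V.nil))))))))))))) (Q.cons 22 (V.cons 330 4 V.nil) (Q.cons 28 (V.cons 330 4 V.nil) (Q.cons 34 (V.cons 330 2 V.nil) (Q.cons 43 (V.cons 221 (-12) (V.cons 245 (-4) (V.cons 311 12 (V.cons 317 16 (V.cons 335 (-8) (V.cons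 347 8 (V.cons 365 16 (V.cons 371 (-12) (V.cons 875 8 (V.cons 971 4 (V.cons 1211 (-8) (V.cons 1259 (-12) (V.cons 1451 (-4) V.nil))))))))))))) (Q.cons 46 (V.cons 330 (-4) V.nil) (Q.cons 106 (V.cons 330 (-4) V.nil) Q.nil)))))))))]

def lits8_2_2 : List Q := [
  (Q.cons 4 (V.cons 348 (-12) (V.cons 372 (-6) (V.cons 1242 (-6) (V.cons 1338 6 (V.cons 1386 12 (V.cons 1482 6 V.nil)))))) (Q.cons 19 (V.cons 221 (-4) (V.cons 245 (-4) (V.cons 311 2 (V.cons 317 (-2) (V.cons 335 (-2) (V.cons 347 (-2) (V.cons 365 (-2) (V.cons 371 2 (V.cons 875 4 (V.cons 971 4 (V.cons 1211 2 (V.cons 1259 2 V.nil)))))))))))) (Q.cons 20 (V.cons 182 (-4) V.nil) (Q.cons 25 (V.cons 83 (-2) V.nil) (Q.cons 74 (V.cons 182 4 V.nil) Q.nil))))),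
  (Q.cons 20 (V.cons 86 (-4) (V.cons 92 (-4) (V.cons 98 (-2) (V.cons 302 4 (V.cons 362 4 V.nil))))) (Q.cons 55 (V.cons 77 (-4) (V.cons 299 4 V.nil)) (Q.cons 86 (V.cons 74 4 V.nil) (Q.cons 98 (V.cons 74 2 V.nil) (Q.cons 116 (V.cons 74 (-8) V.nil) (Q.cons 182 (V.cons 74 (-4) V.nil) (Q.cons 218 (V.cons 74 (-4) V.nil) (Q.cons 314 (V.cons 74 4 V.nil) (Q.cons 458 (V.cons 74 8 V.nil) Q.nil))))))))),
  (Q.cons 299 (V.cons 55 2 (V.cons 61 2 (V.cons 79 2 (V.cons 91 2 (V.cons 175 (-4) (V.cons 187 (-2) (V.cons 235 (-2) V.nil))))))) (Q.cons 300 (V.cons 46 (-4) V.nil) (Q.cons 302 (V.cons 44 (-4) (V.cons 170 4 V.nil)) (Q.cons 311 (V.cons 43 (-2) V.nil) (Q.cons 317 (V.cons 43 (-2) V.nil) (Q.cons 335 (V.cons 43 (-2) V.nil) (Q.cons 347 (V.cons 43 (-2) V.nil) (Q.cons 365 (V.cons 43 2 V.nil) (Q.cons 371 (V.cons 43 (-2) V.nil)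 (Q.cons 1194 (V.cons 46 4 V.nil) (Q.cons 1199 (V.cons 43 4 V.nil) (Q.cons 1211 (V.cons 43 2 V.nil) (Q.cons 1259 (V.cons 43 2 V.nil) Q.nil))))))))))))),
  (Q.cons 83 (V.cons 55 (-1) (V.cons 61 (-1) (V.cons 79 1 (V.cons 91 (-1) (V.cons 187 1 (V.cons 235 1 V.nil)))))) (Q.cons 330 (V.cons 22 (-4) (V.cons 46 4 V.nil)) (Q.cons 335 (V.cons 13 (-4) (V.cons 43 4 V.nil)) (Q.cons 339 (V.cons 15 (-4) V.nil) (Q.cons 348 (V.cons 10 8 V.nil) (Q.cons 372 (V.cons 10 12 V.nil) (Q.cons 1206 (V.cons 10 2 V.nil) (Q.cons 1242 (V.cons 10 6 V.nil) (Q.cons 1260 (V.cons 10 (-2) V.nil) (Q.cons 1266 (V.cons 10 2 V.nil) (Q.cons 1323 (V.cons 15 4 V.nil) (Q.cons 1326 (V.cons 10 (-2) V.nil) (Q.cons 1338 (V.cons 10 (-6) V.nil) (Q.cons 1386 (V.cons 10 (-8) V.nil) (Q.cons 1452 (V.cons 10 (-2) V.nil) (Q.cons 1482 (V.cons 10 (-10) V.nil) Q.nil)))))))))))))))),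
  (Q.cons 3 (V.cons 1341 4 (V.cons 1395 4 (V.cons 5355 (-4) (V.cons 5547 (-4) V.nil)))) (Q.cons 4 (V.cons 342 (-2) (V.cons 1242 2 V.nil)) (Q.cons 9 (V.cons 339 (-2) V.nil) (Q.cons 10 (V.cons 342 2 (V.cons 348 4 (V.cons 372 4 (V.cons 1206 (-2) (V.cons 1260 (-2) (V.cons 1266 2 (V.cons 1326 2 (V.cons 1338 (-2) (V.cons 1386 (-4) (V.cons 1452 (-2) (V.cons 1482 (-2) V.nil))))))))))) (Q.cons 13 (V.cons 311 (-2) V.nil) (Q.cons 19 (V.cons 311 2 V.nil) (Q.cons 22 (V.cons 84 (-2) V.nil) (Q.cons 28 (V.cons 84 2 V.nil) (Q.cons 46 (V.cons 84 2 V.nil) (Q.cons 106 (V.cons 84 (-2) V.nil) Q.nil)))))))))),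
  (Q.cons 43 (V.cons 311 2 (V.cons 317 (-2) (V.cons 1199 (-2) (V.cons 1259 2 V.nil)))) (Q.cons 44 (V.cons 302 (-2) (V.cons 314 2 V.nil)) (Q.cons 46 (V.cons 84 (-2) (V.cons 300 2 V.nil)) (Q.cons 55 (V.cons 299 (-2) V.nil) (Q.cons 61 (V.cons 299 (-2) V.nil) (Q.cons 79 (V.cons 299 (-2) V.nil) (Q.cons 83 (V.cons 79 2 V.nil) (Q.cons 91 (V.cons 299 (-2) V.nil) (Q.cons 109 (V.cons 299 2 V.nil) (Q.cons 115 (V.cons 299 (-2) V.nil) (Q.cons 116 (V.cons 74 2 V.nil) (Q.cons 170 (V.cons 86 4 (V.cons 92 4 (V.cons 98 2 (V.cons 302 (-2) (V.cons 314 (-2) (V.cons 362 (-4) V.nil)))))) (Q.cons 173 (V.cons 79 (-2) V.nil) (Q.cons 175 (V.cons 77 2 (V.cons 299 2 V.nil)) (Q.cons 182 (V.cons 74 (-4) V.nil) (Q.cons 187 (V.cons 77 (-2) (V.cons 299 4 V.nil)) (Q.cons 218 (V.cons 74 (-2) V.nil) (Q.cons 235 (V.cons 299 2 V.nil) (Q.cons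 236 (V.cons 74 (-4) V.nil) (Q.cons 242 (V.cons 74 2 V.nil) (Q.cons 302 (V.cons 74 2 V.nil) (Q.cons 314 (V.cons 74 2 V.nil) (Q.cons 428 (V.cons 74 (-2) V.nil) (Q.cons 686 (V.cons 74 2 V.nil) (Q.cons 938 (V.cons 74 2 V.nil) Q.nil))))))))))))))))))))))))),
  (Q.cons 74 (V.cons 182 (-4) (V.cons 218 (-2) (V.cons 236 (-4) (V.cons 242 2 (V.cons 302 2 (V.cons 314 2 (V.cons 686 2 (V.cons 938 2 V.nil)))))))) (Q.cons 77 (V.cons 175 (-2) (V.cons 187 2 V.nil)) (Q.cons 79 (V.cons 83 (-2) (V.cons 173 2 V.nil)) (Q.cons 84 (V.cons 46 (-2) V.nil) (Q.cons 86 (V.cons 170 4 V.nil) (Q.cons 92 (V.cons 170 4 V.nil) (Q.cons 98 (V.cons 170 2 V.nil) (Q.cons 299 (V.cons 55 2 (V.cons 61 2 (V.cons 79 2 (V.cons 91 2 (V.cons 175 (-2) (V.cons 187 (-4) (V.cons 235 (-2) V.nil))))))) (Q.cons 300 (V.cons 46 2 V.nil) (Q.cons 302 (V.cons 44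 (-2) (V.cons 170 (-2) V.nil)) (Q.cons 311 (V.cons 43 (-2) V.nil) (Q.cons 314 (V.cons 44 2 (V.cons 170 (-2) V.nil)) (Q.cons 317 (V.cons 43 2 V.nil) (Q.cons 362 (V.cons 170 (-4) V.nil) (Q.cons 1199 (V.cons 43 2 V.nil) (Q.cons 1259 (V.cons 43 (-2) V.nil) Q.nil)))))))))))))))),
  (Q.cons 77 (V.cons 55 1 (V.cons 61 1 (V.cons 79 (-1) (V.cons 91 1 (V.cons 187 (-1) (V.cons 235 (-1) V.nil)))))) (Q.cons 84 (V.cons 22 (-2) (V.cons 46 2 V.nil)) (Q.cons 311 (V.cons 13 2 (V.cons 19 (-2) V.nil)) (Q.cons 342 (V.cons 4 (-2) (V.cons 10 2 V.nil)) (Q.cons 348 (V.cons 10 4 V.nil) (Q.cons 372 (V.cons 10 4 V.nil) (Q.cons 1206 (V.cons 10 (-2) V.nil) (Q.cons 1242 (V.cons 4 2 V.nil) (Q.cons 1260 (V.cons 10 (-2) V.nil) (Q.cons 1266 (V.cons 10 2 V.nil) (Q.cons 1326 (V.cons 10 2 V.nil) (Q.cons 1338 (V.cons 10 (-2) V.nil) (Q.cons 1341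 (V.cons 3 (-4) V.nil) (Q.cons 1386 (V.cons 10 (-4) V.nil) (Q.cons 1395 (V.cons 3 (-4) V.nil) (Q.cons 1452 (V.cons 10 (-2) V.nil) (Q.cons 1482 (V.cons 10 (-2) V.nil) (Q.cons 5355 (V.cons 3 4 V.nil) (Q.cons 5547 (V.cons 3 4 V.nil) Q.nil))))))))))))))))))),
  (Q.cons 10 (V.cons 372 2 (V.cons 1206 (-4) (V.cons 1242 (-2) (V.cons 1260 (-4) (V.cons 1266 2 (V.cons 1326 2 (V.cons 1338 2 (V.cons 1452 (-2) (V.cons 4782 2 (V.cons 5034 2 V.nil)))))))))) (Q.cons 13 (V.cons 311 2 (V.cons 317 2 (V.cons 335 2 (V.cons 347 2 (V.cons 365 (-2) (V.cons 371 2 (V.cons 1199 (-6) (V.cons 1259 (-2) V.nil)))))))) (Q.cons 15 (V.cons 339 2 (V.cons 1197 (-2) V.nil)) (Q.cons 20 (V.cons 302 2 V.nil) (Q.cons 22 (V.cons 300 4 (V.cons 1194 4 V.nil)) (Q.cons 28 (V.cons 300 4 (V.cons 1194 4 V.nil)) (Q.cons 34 (V.cons 300 2 (V.cons 1194 2 V.nil))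 (Q.cons 43 (V.cons 311 2 (V.cons 317 2 (V.cons 335 2 (V.cons 347 2 (V.cons 365 (-2) (V.cons 371 2 (V.cons 1199 (-2) (V.cons 1211 (-4) (V.cons 1259 (-2) V.nil))))))))) (Q.cons 44 (V.cons 302 (-2) V.nil) (Q.cons 46 (V.cons 300 (-6) (V.cons 1194 (-2) V.nil)) (Q.cons 55 (V.cons 299 (-2) V.nil) (Q.cons 58 (V.cons 300 2 (V.cons 1194 (-2) V.nil)) (Q.cons 61 (V.cons 299 2 V.nil) (Q.cons 106 (V.cons 300 (-4) (V.cons 1194 (-4) V.nil)) (Q.cons 175 (V.cons 299 2 V.nil) (Q.cons 235 (V.cons 299 (-2) V.nil) Q.nil)))))))))))))))),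
  (Q.cons 86 (V.cons 44 2 (V.cons 170 14 V.nil)) (Q.cons 116 (V.cons 44 2 (V.cons 170 (-10) V.nil)) (Q.cons 170 (V.cons 182 (-4) (V.cons 218 (-2) (V.cons 236 (-4) (V.cons 242 2 (V.cons 302 2 (V.cons 314 2 (V.cons 686 2 (V.cons 938 2 V.nil)))))))) (Q.cons 173 (V.cons 55 2 (V.cons 61 2 (V.cons 79 2 (V.cons 91 2 (V.cons 175 (-6) (V.cons 235 (-2) V.nil)))))) (Q.cons 175 (V.cons 83 2 (V.cons 173 (-2) V.nil)) (Q.cons 182 (V.cons 170 (-4) V.nil) (Q.cons 218 (V.cons 170 4 V.nil) (Q.cons 221 (V.cons 43 8 V.nil) (Q.cons 236 (V.cons 44 (-6) (V.cons 170 2 V.nil)) (Q.cons 242 (V.cons 44 4 V.nil) (Q.cons 245 (V.cons 43 2 V.nil) (Q.cons 302 (V.cons 44 2 (V.cons 170 (-6) V.nil)) (Q.cons 311 (V.cons 43 (-8) V.nil) (Q.cons 314 (V.cons 44 2 (V.cons 170 (-6) V.nil)) (Q.cons 317 (V.cons 43 (-16) V.nil) (Q.cons 330 (V.cons 46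 2 V.nil) (Q.cons 335 (V.cons 43 6 V.nil) (Q.cons 347 (V.cons 43 (-2) V.nil) (Q.cons 365 (V.cons 43 (-16) V.nil) (Q.cons 371 (V.cons 43 16 V.nil) (Q.cons 428 (V.cons 44 (-2) (V.cons 170 6 V.nil)) (Q.cons 458 (V.cons 170 4 V.nil) (Q.cons 461 (V.cons 43 (-16) V.nil) (Q.cons 467 (V.cons 43 20 V.nil) (Q.cons 683 (V.cons 55 2 (V.cons 61 2 (V.cons 79 2 (V.cons 91 2 (V.cons 175 (-2) (V.cons 187 (-4) (V.cons 235 (-2) V.nil))))))) (Q.cons 684 (V.cons 46 (-2) V.nil) (Q.cons 686 (V.cons 44 (-6) (V.cons 170 (-2) V.nil)) (Q.cons 875 (V.cons 43 6 V.nil) (Q.cons 938 (V.cons 44 2 (V.cons 170 (-2) V.nil)) (Q.cons 941 (V.cons 43 2 V.nil) (Q.cons 971 (V.cons 43 (-2) V.nil) (Q.cons 1211 (V.cons 43 2 V.nil) (Q.cons 1259 (V.cons 43 2 V.nil) (Q.cons 1835 (V.cons 43 (-4) V.nil) (Q.cons 2735 (V.cons 43 2 V.nil) (Q.cons 3755 (V.cons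 43 (-2) V.nil) Q.nil))))))))))))))))))))))))))))))))))))]

def lits8_2_3 : List Q := [
  (Q.cons 74 (V.cons 86 (-2) (V.cons 92 2 (V.cons 98 1 (V.cons 182 1 (V.cons 218 1 (V.cons 236 (-1) (V.cons 242 1 (V.cons 302 1 (V.cons 314 (-1) (V.cons 362 (-2) V.nil)))))))))) (Q.cons 299 (V.cons 55 2 (V.cons 61 (-2) (V.cons 175 (-2) (V.cons 235 2 V.nil)))) (Q.cons 300 (V.cons 22 4 (V.cons 46 (-6) (V.cons 58 2 V.nil))) (Q.cons 302 (V.cons 20 2 (V.cons 44 (-2) V.nil)) (Q.cons 311 (V.cons 13 (-2) (V.cons 43 (-2) V.nil)) (Q.cons 317 (V.cons 13 (-2) (V.cons 43 (-2) V.nil)) (Q.cons 335 (V.cons 13 (-2) (V.cons 43 (-2) V.nil)) (Q.cons 339 (V.cons 15 (-2) V.nil) (Q.cons 347 (V.cons 13 (-2) (V.cons 43 (-2) V.nil)) (Q.cons 365 (V.cons 13 2 (V.cons 43 2 V.nil)) (Q.cons 371 (V.cons 13 (-2) (V.cons 43 (-2) V.nil)) (Q.cons 372 (V.cons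 10 2 V.nil) (Q.cons 1194 (V.cons 22 4 (V.cons 46 (-2) (V.cons 58 (-2) V.nil))) (Q.cons 1197 (V.cons 15 2 V.nil) (Q.cons 1199 (V.cons 13 6 (V.cons 43 2 V.nil)) (Q.cons 1206 (V.cons 10 (-4) V.nil) (Q.cons 1211 (V.cons 43 4 V.nil) (Q.cons 1242 (V.cons 10 (-2) V.nil) (Q.cons 1259 (V.cons 13 2 (V.cons 43 2 V.nil)) (Q.cons 1260 (V.cons 10 (-4) V.nil) (Q.cons 1266 (V.cons 10 2 V.nil) (Q.cons 1326 (V.cons 10 2 V.nil) (Q.cons 1338 (V.cons 10 2 V.nil) (Q.cons 1452 (V.cons 10 (-2) V.nil) (Q.cons 4782 (V.cons 10 2 V.nil) (Q.cons 5034 (V.cons 10 2 V.nil) Q.nil)))))))))))))))))))))))))),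
  (Q.cons 0 (V.cons 1396 12 (V.cons 22186 (-12) V.nil)) (Q.cons 3 (V.cons 1269 6 (V.cons 1341 82 (V.cons 1359 (-30) (V.cons 1395 42 (V.cons 1491 6 (V.cons 5295 30 (V.cons 5355 (-82) (V.cons 5547 (-42) (V.cons 20139 (-6) (V.cons 23211 (-6) V.nil)))))))))) (Q.cons 4 (V.cons 342 (-8) (V.cons 348 (-24) (V.cons 372 (-12) (V.cons 1206 4 (V.cons 1242 (-12) (V.cons 1338 12 (V.cons 1386 28 (V.cons 1482 12 V.nil)))))))) (Q.cons 6 (V.cons 340 4 (V.cons 5290 (-4) V.nil)) (Q.cons 9 (V.cons 339 (-4) (V.cons 1323 4 V.nil)) (Q.cons 10 (V.cons 342 (-16) (V.cons 348 16 (V.cons 372 48 (V.cons 1206 12 (V.cons 1242 18 (V.cons 1260 (-10) (V.cons 1266 4 (V.cons 1326 8 (V.cons 1338 (-18) (V.cons 1386 (-20) (V.cons 1452 (-10) (V.cons 1482 (-32) (V.cons 3498 12 (V.cons 5034 (-6) (V.cons 5802 (-6) V.nil))))))))))))))) (Q.cons 13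 (V.cons 221 (-8) (V.cons 245 (-8) (V.cons 311 4 (V.cons 317 (-4) (V.cons 335 (-4) (V.cons 347 (-4) (V.cons 365 (-4) (V.cons 371 4 (V.cons 875 8 (V.cons 971 8 (V.cons 1211 4 (V.cons 1259 4 V.nil)))))))))))) (Q.cons 19 (V.cons 221 8 (V.cons 245 8 (V.cons 311 (-4) (V.cons 317 4 (V.cons 335 4 (V.cons 347 4 (V.cons 365 4 (V.cons 371 (-4) (V.cons 875 (-8) (V.cons 971 (-8) (V.cons 1211 (-4) (V.cons 1259 (-4) V.nil)))))))))))) (Q.cons 22 (V.cons 330 (-6) V.nil) (Q.cons 25 (V.cons 83 8 V.nil) (Q.cons 28 (V.cons 330 2 V.nil) (Q.cons 34 (V.cons 330 (-2) V.nil) (Q.cons 44 (V.cons 182 4 V.nil) (Q.cons 46 (V.cons 330 6 V.nil) (Q.cons 55 (V.cons 83 (-14) V.nil) (Q.cons 61 (V.cons 83 (-6) V.nil) (Q.cons 74 (V.cons 182 (-4) V.nil) (Q.cons 79 (V.cons 83 8 V.nil) (Q.cons 91 (V.cons 83 (-6) V.nil) (Q.cons 106 (V.cons 330 (-2)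 V.nil) (Q.cons 109 (V.cons 83 (-8) V.nil) (Q.cons 115 (V.cons 83 2 V.nil) (Q.cons 175 (V.cons 83 6 V.nil) (Q.cons 187 (V.cons 83 6 V.nil) (Q.cons 235 (V.cons 83 6 V.nil) (Q.cons 427 (V.cons 83 6 V.nil) Q.nil)))))))))))))))))))))))))),
  (Q.cons 4 (V.cons 348 (-4) (V.cons 372 (-2) (V.cons 1242 (-2) (V.cons 1338 2 (V.cons 1386 4 (V.cons 1482 2 V.nil)))))) (Q.cons 19 (V.cons 221 16 (V.cons 311 (-10) (V.cons 317 (-18) (V.cons 335 16 (V.cons 347 (-2) (V.cons 365 (-16) (V.cons 371 22 (V.cons 1199 (-6) (V.cons 1211 2 (V.cons 1259 2 (V.cons 1451 (-6) V.nil))))))))))) (Q.cons 20 (V.cons 86 (-4) (V.cons 92 (-4) (V.cons 98 (-4) (V.cons 362 8 V.nil)))) (Q.cons 22 (V.cons 300 4 (V.cons 330 (-4) V.nil)) (Q.cons 25 (V.cons 77 (-4) (V.cons 83 4 V.nil)) (Q.cons 74 (V.cons 86 (-2) (V.cons 92 6 (V.cons 98 2 (V.cons 302 6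 (V.cons 362 (-10) V.nil))))) (Q.cons 77 (V.cons 25 4 V.nil) (Q.cons 83 (V.cons 25 (-4) V.nil) (Q.cons 86 (V.cons 20 (-4) (V.cons 74 (-2) V.nil)) (Q.cons 92 (V.cons 20 (-4) (V.cons 74 6 V.nil)) (Q.cons 98 (V.cons 20 (-4) (V.cons 74 2 V.nil)) (Q.cons 221 (V.cons 19 (-16) V.nil) (Q.cons 300 (V.cons 22 4 V.nil) (Q.cons 302 (V.cons 74 6 V.nil) (Q.cons 311 (V.cons 19 10 V.nil) (Q.cons 317 (V.cons 19 18 V.nil) (Q.cons 330 (V.cons 22 (-4) V.nil) (Q.cons 335 (V.cons 19 (-16) V.nil) (Q.cons 347 (V.cons 19 2 V.nil) (Q.cons 362 (V.cons 20 8 (V.cons 74 (-10) V.nil)) (Q.cons 365 (V.cons 19 16 V.nil) (Q.cons 371 (V.cons 19 (-22) V.nil) (Q.cons 461 (V.cons 19 16 V.nil) (Q.cons 467 (V.cons 19 (-16) V.nil) (Q.cons 1199 (V.cons 19 6 V.nil) (Q.cons 1211 (V.cons 19 (-2) V.nil) (Q.cons 1259 (V.cons 19 (-2) V.nil) (Q.cons 1451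 (V.cons 19 6 V.nil) Q.nil)))))))))))))))))))))))))))),
  (Q.cons 0 (V.cons 1396 (-8) (V.cons 22186 8 V.nil)) (Q.cons 3 (V.cons 981 (-12) (V.cons 1269 (-16) (V.cons 1341 (-110) (V.cons 1359 44 (V.cons 1395 (-106) (V.cons 1491 (-16) (V.cons 5295 (-38) (V.cons 5355 110 (V.cons 5547 106 (V.cons 15021 6 (V.cons 20139 16 (V.cons 23211 16 (V.cons 43695 (-6) (V.cons 60075 6 V.nil)))))))))))))) (Q.cons 4 (V.cons 342 (-28) (V.cons 348 8 (V.cons 372 56 (V.cons 978 4 (V.cons 1206 12 (V.cons 1242 8 (V.cons 1260 (-16) (V.cons 1326 16 (V.cons 1338 (-8) (V.cons 1386 (-4) (V.cons 1452 (-16) (V.cons 1482 (-32) (V.cons 3498 24 (V.cons 5034 (-8) (V.cons 5802 (-8) (V.cons 10926 (-4) (V.cons 15018 (-4) V.nil))))))))))))))))) (Q.cons 9 (V.cons 1323 2 (V.cons 2733 (-2) V.nil)) (Q.cons 10 (V.cons 342 100 (V.cons 348 (-230) (V.cons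 372 (-410) (V.cons 1206 (-68) (V.cons 1242 (-192) (V.cons 1260 76 (V.cons 1266 (-62) (V.cons 1326 (-34) (V.cons 1338 192 (V.cons 1386 226 (V.cons 1452 76 (V.cons 1482 328 (V.cons 3498 (-20) (V.cons 3756 (-6) (V.cons 5034 6 (V.cons 5802 6 (V.cons 10926 6 (V.cons 15018 6 V.nil)))))))))))))))))) (Q.cons 13 (V.cons 221 (-12) (V.cons 245 (-6) (V.cons 311 12 (V.cons 317 4 (V.cons 335 (-8) (V.cons 347 20 (V.cons 365 4 (V.cons 371 6 (V.cons 875 34 (V.cons 941 4 (V.cons 971 6 (V.cons 1211 (-16) (V.cons 1259 (-26) (V.cons 1451 (-10) (V.cons 2735 (-8) (V.cons 3755 (-4) V.nil)))))))))))))))) (Q.cons 15 (V.cons 1323 (-4) (V.cons 2733 4 V.nil)) (Q.cons 19 (V.cons 221 12 (V.cons 245 6 (V.cons 311 (-12) (V.cons 317 (-4) (V.cons 335 8 (V.cons 347 (-20) (V.cons 365 (-4) (V.cons 371 (-6) (V.cons 875 (-34) (V.cons 941 (-4)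 (V.cons 971 (-6) (V.cons 1211 16 (V.cons 1259 26 (V.cons 1451 10 (V.cons 2735 8 (V.cons 3755 4 V.nil)))))))))))))))) (Q.cons 22 (V.cons 2730 (-2) V.nil) (Q.cons 25 (V.cons 683 4 V.nil) (Q.cons 27 (V.cons 1323 4 (V.cons 2733 (-4) V.nil)) (Q.cons 28 (V.cons 2730 6 V.nil) (Q.cons 34 (V.cons 2730 2 V.nil) (Q.cons 46 (V.cons 684 (-4) (V.cons 2730 6 V.nil)) (Q.cons 55 (V.cons 683 (-14) V.nil) (Q.cons 61 (V.cons 683 (-6) V.nil) (Q.cons 79 (V.cons 683 8 V.nil) (Q.cons 91 (V.cons 683 (-6) V.nil) (Q.cons 106 (V.cons 684 4 (V.cons 2730 (-10) V.nil)) (Q.cons 115 (V.cons 683 (-6) V.nil) (Q.cons 175 (V.cons 683 6 V.nil) (Q.cons 187 (V.cons 683 6 V.nil) (Q.cons 235 (V.cons 683 6 V.nil) (Q.cons 427 (V.cons 683 6 V.nil) Q.nil)))))))))))))))))))))))),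
  (Q.cons 4 (V.cons 348 (-4) (V.cons 372 (-2) (V.cons 1242 (-2) (V.cons 1338 2 (V.cons 1386 4 (V.cons 1482 2 V.nil)))))) (Q.cons 19 (V.cons 221 2 (V.cons 245 (-18) (V.cons 311 2 (V.cons 317 12 (V.cons 335 4 (V.cons 347 2 (V.cons 365 12 (V.cons 371 (-10) (V.cons 875 (-10) (V.cons 941 6 (V.cons 971 6 (V.cons 1211 (-2) (V.cons 1259 (-4) (V.cons 1451 (-2) (V.cons 2735 (-6) (V.cons 3755 6 V.nil)))))))))))))))) (Q.cons 20 (V.cons 86 8 (V.cons 182 (-4) (V.cons 236 4 (V.cons 302 (-4) (V.cons 362 4 (V.cons 686 (-4) (V.cons 938 (-4) V.nil))))))) (Q.cons 25 (V.cons 83 2 (V.cons 173 (-2) V.nil)) (Q.cons 74 (V.cons 182 (-6) (V.cons 236 (-10) (V.cons 242 4 (V.cons 302 4 (V.cons 362 (-4) (V.cons 686 6 (V.cons 938 6 V.nil))))))) (Q.cons 77 (V.cons 55 2 (V.cons 61 2 (V.cons 79 2 (V.cons 91 2 (V.cons 175 (-8) (V.cons 187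 2 (V.cons 235 (-2) V.nil))))))) (Q.cons 79 (V.cons 83 (-4) (V.cons 173 4 V.nil)) (Q.cons 83 (V.cons 55 (-2) (V.cons 61 (-2) (V.cons 79 (-2) (V.cons 91 (-2) (V.cons 175 8 (V.cons 187 (-2) (V.cons 235 2 V.nil))))))) (Q.cons 86 (V.cons 170 (-2) V.nil) (Q.cons 91 (V.cons 83 4 (V.cons 173 (-4) V.nil)) (Q.cons 92 (V.cons 170 6 V.nil) (Q.cons 98 (V.cons 170 2 V.nil) (Q.cons 221 (V.cons 43 (-8) V.nil) (Q.cons 302 (V.cons 44 (-4) (V.cons 170 6 V.nil)) (Q.cons 311 (V.cons 43 (-2) V.nil) (Q.cons 317 (V.cons 43 6 V.nil) (Q.cons 335 (V.cons 43 (-4) V.nil) (Q.cons 347 (V.cons 43 (-2) V.nil) (Q.cons 362 (V.cons 44 4 (V.cons 170 (-10) V.nil)) (Q.cons 365 (V.cons 43 12 V.nil) (Q.cons 371 (V.cons 43 (-18) V.nil) (Q.cons 461 (V.cons 43 8 V.nil) (Q.cons 467 (V.cons 43 (-8) V.nil) (Q.cons 1199 (V.cons 43 6 V.nil) (Q.cons 1211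 (V.cons 43 2 V.nil) (Q.cons 1259 (V.cons 43 2 V.nil) (Q.cons 1451 (V.cons 43 6 V.nil) Q.nil))))))))))))))))))))))))))),
  (Q.cons 3 (V.cons 1359 (-1) (V.cons 5295 1 V.nil)) (Q.cons 4 (V.cons 1326 1 V.nil) (Q.cons 10 (V.cons 342 (-1) V.nil) (Q.cons 13 (V.cons 335 1 V.nil) (Q.cons 15 (V.cons 339 (-1) (V.cons 1323 1 V.nil)) (Q.cons 19 (V.cons 335 (-2) V.nil) (Q.cons 20 (V.cons 86 1 V.nil) (Q.cons 22 (V.cons 330 1 V.nil) (Q.cons 43 (V.cons 335 1 V.nil) (Q.cons 46 (V.cons 84 (-1) V.nil) (Q.cons 55 (V.cons 83 1 V.nil) (Q.cons 74 (V.cons 86 (-1) V.nil) (Q.cons 79 (V.cons 83 (-2) V.nil) (Q.cons 86 (V.cons 20 1 V.nil) (Q.cons 175 (V.cons 83 1 V.nil) (Q.cons 302 (V.cons 20 (-1) V.nil) Q.nil)))))))))))))))),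
  (Q.cons 4 (V.cons 978 2 (V.cons 15018 (-1) V.nil)) (Q.cons 10 (V.cons 3756 (-1) V.nil) (Q.cons 13 (V.cons 3755 1 V.nil) (Q.cons 19 (V.cons 941 (-2) V.nil) (Q.cons 20 (V.cons 938 1 V.nil) (Q.cons 43 (V.cons 941 1 V.nil) (Q.cons 74 (V.cons 938 (-1) V.nil) Q.nil))))))),
  (Q.cons 10 (V.cons 342 14 (V.cons 348 (-34) (V.cons 372 (-54) (V.cons 1206 (-12) (V.cons 1242 (-28) (V.cons 1260 8 (V.cons 1266 (-10) (V.cons 1326 (-2) (V.cons 1338 28 (V.cons 1386 34 (V.cons 1452 8 (V.cons 1482 46 (V.cons 3498 2 V.nil))))))))))))) (Q.cons 13 (V.cons 221 (-8) (V.cons 245 (-1) (V.cons 311 6 (V.cons 317 4 (V.cons 335 (-8) (V.cons 365 4 (V.cons 371 (-3) (V.cons 875 5 (V.cons 941 (-2) (V.cons 971 3 (V.cons 1259 (-1) (V.cons 1451 (-1) (V.cons 2735 2 V.nil))))))))))))) (Q.cons 20 (V.cons 86 4 (V.cons 182 (-1) (V.cons 218 1 (V.cons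 236 (-1) (V.cons 242 1 (V.cons 302 (-1) (V.cons 314 (-1) (V.cons 686 (-2) V.nil)))))))) (Q.cons 43 (V.cons 221 2 (V.cons 245 2 (V.cons 311 (-1) (V.cons 317 1 (V.cons 335 1 (V.cons 347 1 (V.cons 365 1 (V.cons 371 (-1) (V.cons 875 (-2) (V.cons 971 (-2) (V.cons 1211 (-1) (V.cons 1259 (-1) V.nil)))))))))))) (Q.cons 44 (V.cons 86 (-4) (V.cons 182 1 (V.cons 218 (-1) (V.cons 236 1 (V.cons 242 (-1) (V.cons 302 1 (V.cons 314 1 (V.cons 686 2 V.nil)))))))) (Q.cons 55 (V.cons 83 1 (V.cons 173 (-1) V.nil)) (Q.cons 61 (V.cons 83 1 (V.cons 173 (-1) V.nil)) (Q.cons 79 (V.cons 83 1 (V.cons 173 (-1) V.nil)) (Q.cons 86 (V.cons 170 (-2) V.nil) (Q.cons 91 (V.cons 83 1 (V.cons 173 (-1) V.nil)) (Q.cons 98 (V.cons 44 2 (V.cons 170 (-1) V.nil)) (Q.cons 109 (V.cons 83 (-1) (V.cons 173 1 V.nil)) (Q.cons 115 (V.cons 83 1 (V.cons 173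 (-1) V.nil)) (Q.cons 116 (V.cons 44 (-6) (V.cons 170 4 V.nil)) (Q.cons 175 (V.cons 83 (-2) (V.cons 173 2 V.nil)) (Q.cons 182 (V.cons 44 (-3) (V.cons 170 2 V.nil)) (Q.cons 187 (V.cons 83 (-1) (V.cons 173 1 V.nil)) (Q.cons 218 (V.cons 44 (-5) (V.cons 170 2 V.nil)) (Q.cons 235 (V.cons 83 (-1) (V.cons 173 1 V.nil)) (Q.cons 236 (V.cons 44 1 V.nil) (Q.cons 242 (V.cons 44 (-1) V.nil) (Q.cons 245 (V.cons 43 (-2) V.nil) (Q.cons 302 (V.cons 44 1 V.nil) (Q.cons 311 (V.cons 43 (-2) V.nil) (Q.cons 314 (V.cons 44 5 (V.cons 170 (-2) V.nil)) (Q.cons 317 (V.cons 43 (-4) V.nil) (Q.cons 335 (V.cons 43 2 V.nil) (Q.cons 347 (V.cons 43 (-2) V.nil) (Q.cons 365 (V.cons 43 (-4) V.nil) (Q.cons 371 (V.cons 43 4 V.nil) (Q.cons 428 (V.cons 44 (-1) V.nil) (Q.cons 458 (V.cons 44 7 (V.cons 170 (-4) V.nil)) (Q.cons 461 (V.cons 43 (-4)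 V.nil) (Q.cons 467 (V.cons 43 6 V.nil) (Q.cons 686 (V.cons 44 2 V.nil) (Q.cons 875 (V.cons 43 2 V.nil) (Q.cons 971 (V.cons 43 2 V.nil) (Q.cons 1211 (V.cons 43 2 V.nil) (Q.cons 1259 (V.cons 43 2 V.nil) (Q.cons 1835 (V.cons 43 (-2) V.nil) Q.nil)))))))))))))))))))))))))))))))))))))))),
  (Q.cons 10 (V.cons 372 1 (V.cons 1482 (-1) V.nil)) (Q.cons 13 (V.cons 371 2 (V.cons 1451 (-1) V.nil)) (Q.cons 20 (V.cons 92 2 V.nil) (Q.cons 43 (V.cons 365 (-1) V.nil) (Q.cons 44 (V.cons 362 (-1) V.nil) (Q.cons 170 (V.cons 92 (-1) V.nil) Q.nil)))))),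
  (Q.cons 44 (V.cons 86 2 (V.cons 686 (-1) V.nil)) (Q.cons 83 (V.cons 55 (-2) V.nil) (Q.cons 170 (V.cons 182 (-1) V.nil) (Q.cons 173 (V.cons 175 1 V.nil) (Q.cons 182 (V.cons 20 2 (V.cons 170 (-1) V.nil)) (Q.cons 221 (V.cons 43 (-3) V.nil) (Q.cons 245 (V.cons 43 (-1) V.nil) (Q.cons 311 (V.cons 43 3 V.nil) (Q.cons 317 (V.cons 43 4 V.nil) (Q.cons 335 (V.cons 13 (-2) (V.cons 43 (-2) V.nil)) (Q.cons 347 (V.cons 43 2 V.nil) (Q.cons 365 (V.cons 43 4 V.nil) (Q.cons 371 (V.cons 43 (-3) V.nil) (Q.cons 461 (V.cons 43 3 V.nil) (Q.cons 467 (V.cons 43 (-2) V.nil) (Q.cons 683 (V.cons 55 1 V.nil) (Q.cons 686 (V.cons 44 (-1) V.nil) (Q.cons 875 (V.cons 43 2 V.nil) (Q.cons 971 (V.cons 43 1 V.nil) (Q.cons 1211 (V.cons 43 (-2) V.nil) (Q.cons 1259 (V.cons 43 (-3) V.nil) (Q.cons 1451 (V.cons 43 (-1) V.nil) (Q.cons 1835 (V.cons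 43 (-1) V.nil) (Q.cons 2735 (V.cons 13 1 V.nil) Q.nil))))))))))))))))))))))))]

def lits8_2_4 : List Q := [
  (Q.cons 86 (V.cons 20 4 (V.cons 44 (-2) (V.cons 170 (-2) V.nil))) (Q.cons 116 (V.cons 20 (-4) (V.cons 44 3 (V.cons 170 2 V.nil))) (Q.cons 182 (V.cons 20 (-4) (V.cons 44 1 (V.cons 170 2 V.nil))) (Q.cons 218 (V.cons 20 (-2) (V.cons 170 1 V.nil)) (Q.cons 221 (V.cons 13 6 (V.cons 43 (-3) V.nil)) (Q.cons 236 (V.cons 20 (-2) (V.cons 44 (-1) (V.cons 170 1 V.nil))) (Q.cons 242 (V.cons 20 2 (V.cons 170 (-1) V.nil)) (Q.cons 245 (V.cons 13 3 (V.cons 43 1 V.nil)) (Q.cons 302 (V.cons 44 1 V.nil) (Q.cons 311 (V.cons 13 (-6) (V.cons 43 3 V.nil)) (Q.cons 314 (V.cons 20 2 (V.cons 170 (-1) V.nil)) (Q.cons 317 (V.cons 13 (-6) (V.cons 43 4 V.nil)) (Q.cons 335 (V.cons 13 6 (V.cons 43 (-3) V.nil)) (Q.cons 342 (V.cons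 10 (-1) V.nil) (Q.cons 347 (V.cons 13 (-2) (V.cons 43 1 V.nil)) (Q.cons 362 (V.cons 20 2 (V.cons 44 (-1) (V.cons 170 (-1) V.nil))) (Q.cons 365 (V.cons 13 (-6) (V.cons 43 4 V.nil)) (Q.cons 371 (V.cons 13 3 (V.cons 43 (-3) V.nil)) (Q.cons 372 (V.cons 10 1 V.nil) (Q.cons 428 (V.cons 44 (-1) V.nil) (Q.cons 458 (V.cons 20 4 (V.cons 44 (-2) (V.cons 170 (-2) V.nil))) (Q.cons 461 (V.cons 13 (-3) (V.cons 43 3 V.nil)) (Q.cons 467 (V.cons 13 (-1) (V.cons 43 (-3) V.nil)) (Q.cons 468 (V.cons 10 1 V.nil) (Q.cons 875 (V.cons 13 (-4) V.nil) (Q.cons 938 (V.cons 44 1 V.nil) (Q.cons 941 (V.cons 43 (-1) V.nil) (Q.cons 971 (V.cons 13 (-2) V.nil) (Q.cons 1206 (V.cons 10 1 V.nil) (Q.cons 1211 (V.cons 13 2 (V.cons 43 (-1) V.nil)) (Q.cons 1242 (V.cons 10 1 V.nil) (Q.cons 1259 (V.cons 13 4 (V.cons 43 (-1) V.nil)) (Q.cons 1338 (V.cons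 10 (-1) V.nil) (Q.cons 1451 (V.cons 13 2 V.nil) (Q.cons 1482 (V.cons 10 (-1) V.nil) (Q.cons 1835 (V.cons 13 4 V.nil) (Q.cons 3755 (V.cons 13 (-1) V.nil) (Q.cons 7338 (V.cons 10 (-1) V.nil) Q.nil)))))))))))))))))))))))))))))))))))))),
  (Q.cons 20 (V.cons 92 (-2) (V.cons 182 (-2) (V.cons 218 (-2) (V.cons 302 2 (V.cons 314 2 (V.cons 362 2 V.nil)))))) (Q.cons 83 (V.cons 25 1 (V.cons 55 (-1) (V.cons 61 (-1) (V.cons 79 (-1) (V.cons 91 (-1) (V.cons 175 2 (V.cons 187 1 (V.cons 235 1 V.nil)))))))) (Q.cons 84 (V.cons 22 (-2) (V.cons 46 2 V.nil)) (Q.cons 221 (V.cons 13 2 (V.cons 19 (-2) V.nil)) (Q.cons 311 (V.cons 13 (-3) (V.cons 19 3 V.nil)) (Q.cons 317 (V.cons 13 (-3) (V.cons 19 3 V.nil)) (Q.cons 330 (V.cons 22 2 (V.cons 46 (-2) V.nil)) (Q.cons 335 (V.cons 13 3 (V.cons 19 (-3) V.nil)) (Q.cons 347 (V.cons 13 (-1)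 (V.cons 19 1 V.nil)) (Q.cons 348 (V.cons 4 4 (V.cons 10 (-4) V.nil)) (Q.cons 365 (V.cons 13 (-3) (V.cons 19 3 V.nil)) (Q.cons 371 (V.cons 13 3 (V.cons 19 (-3) V.nil)) (Q.cons 372 (V.cons 4 6 (V.cons 10 (-6) V.nil)) (Q.cons 461 (V.cons 13 (-2) (V.cons 19 2 V.nil)) (Q.cons 467 (V.cons 13 2 (V.cons 19 (-2) V.nil)) (Q.cons 1206 (V.cons 4 1 (V.cons 10 (-1) V.nil)) (Q.cons 1211 (V.cons 13 1 (V.cons 19 (-1) V.nil)) (Q.cons 1242 (V.cons 4 3 (V.cons 10 (-3) V.nil)) (Q.cons 1259 (V.cons 13 1 (V.cons 19 (-1) V.nil)) (Q.cons 1260 (V.cons 4 (-1) (V.cons 10 1 V.nil)) (Q.cons 1266 (V.cons 4 1 (V.cons 10 (-1) V.nil)) (Q.cons 1326 (V.cons 4 (-1) (V.cons 10 1 V.nil)) (Q.cons 1338 (V.cons 4 (-3) (V.cons 10 3 V.nil)) (Q.cons 1359 (V.cons 3 (-2) V.nil) (Q.cons 1386 (V.cons 4 (-4) (V.cons 10 4 V.nil)) (Q.cons 1452 (V.cons 4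 (-1) (V.cons 10 1 V.nil)) (Q.cons 1482 (V.cons 4 (-5) (V.cons 10 5 V.nil)) (Q.cons 5295 (V.cons 3 2 V.nil) Q.nil)))))))))))))))))))))))))))),
  (Q.cons 86 (V.cons 20 2 (V.cons 74 (-2) V.nil)) (Q.cons 116 (V.cons 20 (-3) (V.cons 74 3 V.nil)) (Q.cons 182 (V.cons 20 (-1) (V.cons 74 1 V.nil)) (Q.cons 221 (V.cons 13 2 (V.cons 19 (-6) (V.cons 43 3 V.nil))) (Q.cons 236 (V.cons 20 1 (V.cons 74 (-1) V.nil)) (Q.cons 245 (V.cons 13 (-1) (V.cons 19 2 (V.cons 43 (-1) V.nil))) (Q.cons 302 (V.cons 20 (-1) (V.cons 74 1 V.nil)) (Q.cons 311 (V.cons 13 (-2) (V.cons 19 6 (V.cons 43 (-3) V.nil))) (Q.cons 317 (V.cons 13 (-2) (V.cons 19 8 (V.cons 43 (-4) V.nil))) (Q.cons 335 (V.cons 13 2 (V.cons 19 (-6) (V.cons 43 3 V.nil))) (Q.cons 347 (V.cons 13 (-2) (V.cons 19 2 (V.cons 43 (-1) V.nil))) (Q.cons 348 (V.cons 4 6 (V.cons 10 6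 V.nil)) (Q.cons 362 (V.cons 20 1 (V.cons 74 (-1) V.nil)) (Q.cons 365 (V.cons 13 (-2) (V.cons 19 8 (V.cons 43 (-4) V.nil))) (Q.cons 371 (V.cons 13 1 (V.cons 19 (-6) (V.cons 43 3 V.nil))) (Q.cons 372 (V.cons 4 7 (V.cons 10 9 V.nil)) (Q.cons 428 (V.cons 20 1 (V.cons 74 (-1) V.nil)) (Q.cons 458 (V.cons 20 2 (V.cons 74 (-2) V.nil)) (Q.cons 461 (V.cons 13 (-1) (V.cons 19 6 (V.cons 43 (-3) V.nil))) (Q.cons 467 (V.cons 13 1 (V.cons 19 (-6) (V.cons 43 3 V.nil))) (Q.cons 875 (V.cons 13 (-2) V.nil) (Q.cons 938 (V.cons 20 (-1) (V.cons 74 1 V.nil)) (Q.cons 941 (V.cons 19 (-2) (V.cons 43 1 V.nil)) (Q.cons 978 (V.cons 4 (-1) (V.cons 10 (-1) V.nil)) (Q.cons 1211 (V.cons 13 2 (V.cons 19 (-2) (V.cons 43 1 V.nil))) (Q.cons 1242 (V.cons 4 5 (V.cons 10 5 V.nil)) (Q.cons 1259 (V.cons 13 2 (V.cons 19 (-2) (V.cons 43 1 V.nil)))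 (Q.cons 1260 (V.cons 10 (-2) V.nil) (Q.cons 1266 (V.cons 4 2 (V.cons 10 2 V.nil)) (Q.cons 1338 (V.cons 4 (-5) (V.cons 10 (-5) V.nil)) (Q.cons 1386 (V.cons 4 (-6) (V.cons 10 (-6) V.nil)) (Q.cons 1452 (V.cons 10 (-2) V.nil) (Q.cons 1482 (V.cons 4 (-6) (V.cons 10 (-8) V.nil)) (Q.cons 3498 (V.cons 4 (-2) V.nil) (Q.cons 3755 (V.cons 13 1 V.nil) (Q.cons 3756 (V.cons 10 1 V.nil) (Q.cons 15018 (V.cons 4 1 V.nil) Q.nil))))))))))))))))))))))))))))))))))))),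
  (Q.cons 362 (V.cons 20 1 (V.cons 74 (-1) V.nil)) (Q.cons 365 (V.cons 19 2 (V.cons 43 (-1) V.nil)) (Q.cons 372 (V.cons 4 2 V.nil) (Q.cons 1451 (V.cons 13 (-1) V.nil) (Q.cons 1452 (V.cons 10 (-1) V.nil) (Q.cons 5802 (V.cons 4 (-1) V.nil) Q.nil)))))),
  (Q.cons 10 (V.cons 978 (-1) (V.cons 3756 1 V.nil)) (Q.cons 13 (V.cons 3755 (-1) V.nil) (Q.cons 19 (V.cons 3755 1 V.nil) (Q.cons 20 (V.cons 938 (-1) V.nil) (Q.cons 43 (V.cons 245 (-1) (V.cons 941 1 V.nil)) (Q.cons 44 (V.cons 938 1 V.nil) (Q.cons 83 (V.cons 235 (-1) V.nil) (Q.cons 299 (V.cons 235 1 V.nil) Q.nil)))))))),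
  (Q.cons 55 (V.cons 83 1 (V.cons 173 (-1) V.nil)) (Q.cons 61 (V.cons 83 1 (V.cons 173 (-1) V.nil)) (Q.cons 79 (V.cons 83 (-1) (V.cons 173 1 V.nil)) (Q.cons 86 (V.cons 20 2 (V.cons 44 (-2) V.nil)) (Q.cons 91 (V.cons 83 1 (V.cons 173 (-1) V.nil)) (Q.cons 92 (V.cons 170 (-2) V.nil) (Q.cons 109 (V.cons 83 1 (V.cons 173 (-1) V.nil)) (Q.cons 115 (V.cons 83 1 (V.cons 173 (-1) V.nil)) (Q.cons 116 (V.cons 20 (-4) (V.cons 44 4 (V.cons 170 (-4) V.nil))) (Q.cons 182 (V.cons 20 (-1) (V.cons 44 1 V.nil)) (Q.cons 187 (V.cons 83 (-1) (V.cons 173 1 V.nil)) (Q.cons 218 (V.cons 20 (-1) (V.cons 44 1 (V.cons 170 (-2) V.nil))) (Q.cons 221 (V.cons 43 (-4) V.nil) (Q.cons 235 (V.cons 83 (-1) (V.cons 173 1 V.nil)) (Q.cons 236 (V.cons 20 1 (V.cons 44 (-1) V.nil)) (Q.cons 242 (V.cons 20 (-1) (V.cons 44 1 V.nil)) (Q.cons 302 (V.cons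 20 (-1) (V.cons 44 1 V.nil)) (Q.cons 311 (V.cons 43 2 V.nil) (Q.cons 314 (V.cons 20 1 (V.cons 44 (-1) (V.cons 170 2 V.nil))) (Q.cons 317 (V.cons 43 4 V.nil) (Q.cons 335 (V.cons 43 (-2) V.nil) (Q.cons 348 (V.cons 10 4 V.nil) (Q.cons 362 (V.cons 170 2 V.nil) (Q.cons 365 (V.cons 43 2 V.nil) (Q.cons 371 (V.cons 43 (-2) V.nil) (Q.cons 372 (V.cons 10 2 V.nil) (Q.cons 427 (V.cons 83 (-2) (V.cons 173 2 V.nil)) (Q.cons 428 (V.cons 20 1 (V.cons 44 (-1) (V.cons 170 2 V.nil))) (Q.cons 458 (V.cons 20 1 (V.cons 44 (-1) (V.cons 170 2 V.nil))) (Q.cons 461 (V.cons 43 2 V.nil) (Q.cons 467 (V.cons 43 (-4) V.nil) (Q.cons 468 (V.cons 10 (-2) V.nil) (Q.cons 1242 (V.cons 10 2 V.nil) (Q.cons 1338 (V.cons 10 (-2) V.nil) (Q.cons 1386 (V.cons 10 (-4) V.nil) (Q.cons 1482 (V.cons 10 (-4) V.nil) (Q.cons 1706 (V.cons 20 2 (V.cons 44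 (-2) V.nil)) (Q.cons 1709 (V.cons 43 2 V.nil) (Q.cons 3498 (V.cons 10 (-2) V.nil) (Q.cons 5034 (V.cons 10 2 V.nil) (Q.cons 5802 (V.cons 10 2 V.nil) (Q.cons 7338 (V.cons 10 2 V.nil) Q.nil)))))))))))))))))))))))))))))))))))))))))),
  (Q.cons 19 (V.cons 221 2 (V.cons 311 (-2) (V.cons 317 (-2) (V.cons 335 2 (V.cons 365 (-2) (V.cons 371 1 (V.cons 875 (-2) (V.cons 1259 2 (V.cons 1451 1 V.nil))))))))) (Q.cons 74 (V.cons 182 1 (V.cons 218 (-1) (V.cons 302 (-1) (V.cons 314 1 V.nil)))) (Q.cons 77 (V.cons 187 (-1) V.nil) (Q.cons 79 (V.cons 83 1 (V.cons 299 (-1) V.nil)) (Q.cons 83 (V.cons 187 1 V.nil) (Q.cons 84 (V.cons 46 (-1) V.nil) (Q.cons 299 (V.cons 55 1 (V.cons 79 (-1) V.nil)) (Q.cons 300 (V.cons 58 1 V.nil) (Q.cons 302 (V.cons 20 (-1) (V.cons 74 1 V.nil)) (Q.cons 311 (V.cons 43 (-1) V.nil) (Q.cons 314 (V.cons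 44 1 (V.cons 74 (-1) V.nil)) (Q.cons 330 (V.cons 46 1 (V.cons 58 (-1) V.nil)) (Q.cons 335 (V.cons 43 1 V.nil) (Q.cons 339 (V.cons 15 (-1) V.nil) (Q.cons 1206 (V.cons 10 1 V.nil) (Q.cons 1211 (V.cons 13 1 (V.cons 19 (-1) V.nil)) (Q.cons 1242 (V.cons 10 (-1) V.nil) (Q.cons 1323 (V.cons 15 1 V.nil) (Q.cons 1326 (V.cons 10 (-1) V.nil) (Q.cons 1338 (V.cons 10 1 V.nil) (Q.cons 1341 (V.cons 3 3 V.nil) (Q.cons 1395 (V.cons 3 2 V.nil) (Q.cons 5355 (V.cons 3 (-3) V.nil) (Q.cons 5547 (V.cons 3 (-2) V.nil) Q.nil)))))))))))))))))))))))),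
  (Q.cons 3 (V.cons 1341 (-12) (V.cons 1359 4 (V.cons 1395 (-4) (V.cons 5295 (-4) (V.cons 5355 12 (V.cons 5547 4 V.nil)))))) (Q.cons 10 (V.cons 342 (-66) (V.cons 348 78 (V.cons 372 196 (V.cons 978 4 (V.cons 1206 36 (V.cons 1242 68 (V.cons 1260 (-38) (V.cons 1266 26 (V.cons 1326 30 (V.cons 1338 (-68) (V.cons 1386 (-78) (V.cons 1452 (-38) (V.cons 1482 (-146) (V.cons 3498 24 (V.cons 5034 (-12) (V.cons 5802 (-12) (V.cons 15018 (-4) V.nil))))))))))))))))) (Q.cons 13 (V.cons 221 20 (V.cons 311 (-20) (V.cons 317 (-16) (V.cons 335 20 (V.cons 347 (-24) (V.cons 365 (-16) (V.cons 371 4 (V.cons 875 (-36) (V.cons 971 (-4) (V.cons 1211 20 (V.cons 1259 32 (V.cons 1451 12 (V.cons 3755 4 V.nil))))))))))))) (Q.cons 15 (V.cons 1323 (-4) (V.cons 10923 4 V.nil)) (Q.cons 20 (V.cons 686 (-4) V.nil) (Q.cons 22 (V.cons 2730 (-4)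 V.nil) (Q.cons 28 (V.cons 2730 (-4) V.nil) (Q.cons 34 (V.cons 2730 (-2) V.nil) (Q.cons 43 (V.cons 221 (-28) (V.cons 245 6 (V.cons 311 28 (V.cons 317 28 (V.cons 335 (-32) (V.cons 347 28 (V.cons 365 28 (V.cons 371 (-14) (V.cons 875 38 (V.cons 941 (-4) (V.cons 971 2 (V.cons 1211 (-24) (V.cons 1259 (-38) (V.cons 1451 (-14) (V.cons 2735 4 (V.cons 3755 (-4) V.nil)))))))))))))))) (Q.cons 46 (V.cons 2730 4 V.nil) (Q.cons 55 (V.cons 683 (-2) V.nil) (Q.cons 58 (V.cons 684 (-4) (V.cons 2730 4 V.nil)) (Q.cons 61 (V.cons 683 (-2) V.nil) (Q.cons 79 (V.cons 683 2 V.nil) (Q.cons 91 (V.cons 683 2 V.nil) (Q.cons 106 (V.cons 2730 4 V.nil) (Q.cons 109 (V.cons 683 (-2) V.nil) (Q.cons 115 (V.cons 683 2 V.nil) (Q.cons 170 (V.cons 686 4 V.nil) (Q.cons 187 (V.cons 683 (-2) V.nil) (Q.cons 235 (V.cons 683 2 V.nil) Q.nil))))))))))))))))))))),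
  (Q.cons 10 (V.cons 342 8 (V.cons 348 6 (V.cons 372 (-6) (V.cons 1206 (-5) (V.cons 1242 1 (V.cons 1260 3 (V.cons 1266 5 (V.cons 1326 (-3) (V.cons 1338 (-1) (V.cons 1386 (-6) (V.cons 1452 3 (V.cons 1482 (-1) (V.cons 3498 (-8) (V.cons 5802 4 V.nil)))))))))))))) (Q.cons 43 (V.cons 221 (-52) (V.cons 245 (-9) (V.cons 311 51 (V.cons 317 39 (V.cons 335 (-51) (V.cons 347 33 (V.cons 365 45 (V.cons 371 (-26) (V.cons 875 67 (V.cons 971 9 (V.cons 1211 (-33) (V.cons 1259 (-54) (V.cons 1451 (-19) V.nil))))))))))))) (Q.cons 44 (V.cons 86 12 (V.cons 182 (-6) (V.cons 218 (-2) (V.cons 236 6 (V.cons 242 (-2) (V.cons 302 (-6) (V.cons 314 (-2) V.nil))))))) (Q.cons 83 (V.cons 55 2 (V.cons 61 2 (V.cons 79 2 (V.cons 91 14 (V.cons 187 (-14) (V.cons 235 (-6) V.nil)))))) (Q.cons 86 (V.cons 20 (-24) (V.cons 44 16 V.nil)) (Q.cons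 116 (V.cons 20 16 (V.cons 44 (-16) (V.cons 170 10 V.nil))) (Q.cons 170 (V.cons 86 (-24) (V.cons 92 (-8) (V.cons 98 4 (V.cons 182 (-6) (V.cons 218 (-28) (V.cons 236 (-26) (V.cons 242 16 (V.cons 302 24 (V.cons 314 32 (V.cons 362 8 (V.cons 686 6 (V.cons 938 6 V.nil)))))))))))) (Q.cons 173 (V.cons 91 (-8) (V.cons 187 8 V.nil)) (Q.cons 182 (V.cons 20 4 (V.cons 44 (-4) (V.cons 170 (-6) V.nil))) (Q.cons 187 (V.cons 83 4 (V.cons 173 (-4) V.nil)) (Q.cons 218 (V.cons 20 (-20) (V.cons 44 12 V.nil)) (Q.cons 221 (V.cons 43 60 V.nil) (Q.cons 236 (V.cons 20 (-12) (V.cons 44 12 (V.cons 170 (-10) V.nil))) (Q.cons 242 (V.cons 20 4 (V.cons 44 (-4) (V.cons 170 4 V.nil))) (Q.cons 245 (V.cons 43 16 V.nil) (Q.cons 302 (V.cons 20 16 (V.cons 44 (-12) (V.cons 170 4 V.nil))) (Q.cons 311 (V.cons 43 (-52) V.nil) (Q.cons 314 (V.cons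 20 20 (V.cons 44 (-12) V.nil)) (Q.cons 317 (V.cons 43 (-20) V.nil) (Q.cons 330 (V.cons 58 (-4) V.nil) (Q.cons 335 (V.cons 43 58 V.nil) (Q.cons 342 (V.cons 10 (-146) V.nil) (Q.cons 347 (V.cons 13 8 (V.cons 43 (-38) V.nil)) (Q.cons 348 (V.cons 10 140 V.nil) (Q.cons 362 (V.cons 20 4 (V.cons 170 (-4) V.nil)) (Q.cons 365 (V.cons 43 (-20) V.nil) (Q.cons 371 (V.cons 43 (-10) V.nil) (Q.cons 372 (V.cons 10 400 V.nil) (Q.cons 428 (V.cons 20 (-16) (V.cons 44 12 (V.cons 170 (-4) V.nil))) (Q.cons 458 (V.cons 44 4 (V.cons 170 (-6) V.nil)) (Q.cons 461 (V.cons 43 18 V.nil) (Q.cons 467 (V.cons 13 4 (V.cons 43 (-96) V.nil)) (Q.cons 468 (V.cons 10 24 V.nil) (Q.cons 683 (V.cons 55 3 (V.cons 61 (-5) (V.cons 79 (-1) (V.cons 91 (-3) (V.cons 175 (-6) (V.cons 187 3 (V.cons 235 9 V.nil))))))) (Q.cons 684 (V.cons 58 4 V.nil) (Q.cons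 686 (V.cons 170 6 V.nil) (Q.cons 875 (V.cons 13 8 (V.cons 43 (-108) V.nil)) (Q.cons 938 (V.cons 20 8 (V.cons 44 (-8) (V.cons 170 6 V.nil))) (Q.cons 941 (V.cons 43 (-2) V.nil) (Q.cons 971 (V.cons 43 (-20) V.nil) (Q.cons 1206 (V.cons 10 84 V.nil) (Q.cons 1211 (V.cons 13 (-4) (V.cons 43 34 V.nil)) (Q.cons 1242 (V.cons 10 138 V.nil) (Q.cons 1259 (V.cons 13 (-8) (V.cons 43 68 V.nil)) (Q.cons 1260 (V.cons 10 (-74) V.nil) (Q.cons 1266 (V.cons 10 66 V.nil) (Q.cons 1326 (V.cons 10 62 V.nil) (Q.cons 1338 (V.cons 10 (-138) V.nil) (Q.cons 1386 (V.cons 10 (-140) V.nil) (Q.cons 1451 (V.cons 13 (-4) (V.cons 43 34 V.nil)) (Q.cons 1452 (V.cons 10 (-74) V.nil) (Q.cons 1482 (V.cons 10 (-298) V.nil) (Q.cons 1835 (V.cons 13 (-4) (V.cons 43 78 V.nil)) (Q.cons 2735 (V.cons 43 (-6) V.nil) (Q.cons 3498 (V.cons 10 36 V.nil) (Q.cons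 3755 (V.cons 43 6 V.nil) (Q.cons 5034 (V.cons 10 (-28) V.nil) (Q.cons 5802 (V.cons 10 (-28) V.nil) (Q.cons 7338 (V.cons 10 (-24) V.nil) Q.nil))))))))))))))))))))))))))))))))))))))))))))))))))))))))))),
  (Q.cons 0 (V.cons 1396 3 (V.cons 22186 (-3) V.nil)) (Q.cons 3 (V.cons 1341 6 (V.cons 1359 (-2) (V.cons 5295 2 (V.cons 5355 (-6) V.nil)))) (Q.cons 4 (V.cons 342 2 (V.cons 348 8 (V.cons 372 6 (V.cons 978 (-1) (V.cons 1206 (-2) (V.cons 1242 4 (V.cons 1266 2 (V.cons 1338 (-4) (V.cons 1386 (-8) (V.cons 1482 (-5) (V.cons 3498 (-2) (V.cons 15018 1 V.nil)))))))))))) (Q.cons 10 (V.cons 342 1 (V.cons 348 5 (V.cons 372 1 (V.cons 1242 3 (V.cons 1260 1 (V.cons 1266 (-1) (V.cons 1326 (-1) (V.cons 1338 (-3) (V.cons 1386 (-5) (V.cons 1452 1 (V.cons 1482 (-3) V.nil))))))))))) (Q.cons 13 (V.cons 221 2 (V.cons 245 (-1) (V.cons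 311 (-2) (V.cons 317 (-2) (V.cons 335 2 (V.cons 347 (-2) (V.cons 365 (-2) (V.cons 371 1 (V.cons 875 (-2) (V.cons 1211 2 (V.cons 1259 2 (V.cons 3755 1 V.nil)))))))))))) (Q.cons 19 (V.cons 221 (-2) (V.cons 245 1 (V.cons 311 2 (V.cons 317 2 (V.cons 335 (-2) (V.cons 347 2 (V.cons 365 2 (V.cons 371 (-1) (V.cons 875 2 (V.cons 1211 (-2) (V.cons 1259 (-2) (V.cons 3755 (-1) V.nil)))))))))))) (Q.cons 43 (V.cons 221 1 (V.cons 245 2 (V.cons 311 (-1) (V.cons 335 1 (V.cons 347 (-1) (V.cons 371 (-1) (V.cons 875 (-3) (V.cons 941 (-1) (V.cons 971 (-1) (V.cons 1211 1 (V.cons 1259 2 (V.cons 1451 1 V.nil)))))))))))) (Q.cons 74 (V.cons 86 2 (V.cons 182 (-3) (V.cons 218 (-2) (V.cons 236 (-3) (V.cons 242 2 (V.cons 302 1 (V.cons 314 2 (V.cons 362 1 (V.cons 938 1 V.nil))))))))) (Q.cons 83 (V.cons 187 (-1) V.nil) (Q.cons 170 (V.cons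 86 (-2) (V.cons 182 2 (V.cons 218 1 (V.cons 236 1 (V.cons 242 (-1) (V.cons 314 (-1) (V.cons 362 (-1) V.nil))))))) (Q.cons 299 (V.cons 187 1 V.nil) Q.nil)))))))))))]

def lits8_2_5 : List Q := [
  (Q.cons 27 (V.cons 339 1 (V.cons 1323 (-1) V.nil)) (Q.cons 28 (V.cons 330 2 (V.cons 1194 (-1) V.nil)) (Q.cons 106 (V.cons 330 (-1) V.nil) (Q.cons 109 (V.cons 299 (-1) V.nil) (Q.cons 115 (V.cons 299 1 V.nil) (Q.cons 427 (V.cons 77 1 (V.cons 83 (-1) V.nil)) (Q.cons 458 (V.cons 20 2 (V.cons 74 (-1) V.nil)) (Q.cons 467 (V.cons 19 (-1) V.nil) (Q.cons 1706 (V.cons 20 (-1) V.nil) (Q.cons 1835 (V.cons 19 1 V.nil) Q.nil)))))))))),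
  (Q.cons 61 (V.cons 83 2 (V.cons 683 (-1) V.nil)) (Q.cons 235 (V.cons 83 (-1) V.nil) (Q.cons 236 (V.cons 170 1 V.nil) (Q.cons 242 (V.cons 170 (-1) V.nil) (Q.cons 342 (V.cons 10 (-3) V.nil) (Q.cons 348 (V.cons 10 (-7) V.nil) (Q.cons 468 (V.cons 10 3 V.nil) (Q.cons 938 (V.cons 20 1 (V.cons 44 (-1) V.nil)) (Q.cons 971 (V.cons 13 2 (V.cons 43 (-1) V.nil)) (Q.cons 1206 (V.cons 10 2 V.nil) (Q.cons 1242 (V.cons 10 (-2) V.nil) (Q.cons 1260 (V.cons 10 (-1) V.nil) (Q.cons 1266 (V.cons 10 (-1) V.nil) (Q.cons 1326 (V.cons 10 1 V.nil) (Q.cons 1338 (V.cons 10 2 V.nil) (Q.cons 1386 (V.cons 10 7 V.nil) (Q.cons 1452 (V.cons 10 (-1) V.nil) (Q.cons 1482 (V.cons 10 2 V.nil) (Q.cons 3498 (V.cons 10 3 V.nil) (Q.cons 3755 (V.cons 13 (-1) V.nil) (Q.cons 5034 (V.cons 10 (-1) V.nil) (Q.cons 5802 (V.cons 10 (-1) V.nil) (Q.cons 7338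 (V.cons 10 (-3) V.nil) Q.nil))))))))))))))))))))))),
  (Q.cons 19 (V.cons 311 (-1) (V.cons 335 1 V.nil)) (Q.cons 20 (V.cons 86 2 (V.cons 182 (-1) V.nil)) (Q.cons 74 (V.cons 86 (-1) V.nil) (Q.cons 77 (V.cons 79 (-1) V.nil) (Q.cons 79 (V.cons 77 (-1) (V.cons 83 1 V.nil)) (Q.cons 83 (V.cons 55 1 V.nil) (Q.cons 84 (V.cons 22 2 (V.cons 46 (-1) V.nil)) (Q.cons 86 (V.cons 20 2 (V.cons 44 (-1) V.nil)) (Q.cons 300 (V.cons 22 (-1) V.nil) (Q.cons 302 (V.cons 20 (-1) V.nil) (Q.cons 311 (V.cons 19 (-1) V.nil) (Q.cons 335 (V.cons 13 1 V.nil) (Q.cons 342 (V.cons 4 2 (V.cons 10 (-1) V.nil)) (Q.cons 1206 (V.cons 4 (-1) V.nil) Q.nil)))))))))))))),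
  (Q.cons 91 (V.cons 77 (-1) (V.cons 83 1 V.nil)) (Q.cons 92 (V.cons 20 2 (V.cons 44 (-1) V.nil)) (Q.cons 362 (V.cons 20 (-1) V.nil) (Q.cons 365 (V.cons 19 (-1) V.nil) (Q.cons 371 (V.cons 13 1 V.nil) (Q.cons 372 (V.cons 4 2 (V.cons 10 (-1) V.nil)) (Q.cons 1341 (V.cons 3 (-9) V.nil) (Q.cons 1359 (V.cons 3 2 V.nil) (Q.cons 1395 (V.cons 3 (-7) V.nil) (Q.cons 1452 (V.cons 4 (-1) V.nil) (Q.cons 5295 (V.cons 3 (-2) V.nil) (Q.cons 5355 (V.cons 3 9 V.nil) (Q.cons 5547 (V.cons 3 7 V.nil) Q.nil))))))))))))),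
  (Q.cons 10 (V.cons 342 4 (V.cons 348 12 (V.cons 372 (-2) (V.cons 1206 (-4) (V.cons 1386 (-12) (V.cons 3498 (-4) (V.cons 5034 4 (V.cons 5802 2 V.nil)))))))) (Q.cons 20 (V.cons 86 4 (V.cons 182 (-1) (V.cons 218 3 (V.cons 236 3 (V.cons 242 (-1) (V.cons 302 (-3) (V.cons 314 (-3) (V.cons 938 (-2) V.nil)))))))) (Q.cons 43 (V.cons 221 6 (V.cons 245 2 (V.cons 311 (-4) (V.cons 317 (-2) (V.cons 335 6 (V.cons 347 2 (V.cons 365 (-4) (V.cons 371 4 (V.cons 875 (-4) (V.cons 971 (-2) (V.cons 1199 (-2) (V.cons 1211 (-2) V.nil)))))))))))) (Q.cons 44 (V.cons 86 (-4) (V.cons 182 1 (V.cons 218 (-3) (V.cons 236 (-3) (V.cons 242 1 (V.cons 302 3 (V.cons 314 3 (V.cons 938 2 V.nil)))))))) (Q.cons 55 (V.cons 83 1 (V.cons 299 (-1) V.nil)) (Q.cons 61 (V.cons 83 1 (V.cons 299 (-1) V.nil)) (Q.cons 79 (V.cons 83 1 (V.cons 299 (-1) V.nil))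 (Q.cons 83 (V.cons 91 (-2) (V.cons 187 2 V.nil)) (Q.cons 86 (V.cons 20 4 (V.cons 44 4 (V.cons 74 (-8) V.nil))) (Q.cons 91 (V.cons 83 1 (V.cons 299 (-1) V.nil)) (Q.cons 109 (V.cons 83 (-1) (V.cons 299 1 V.nil)) (Q.cons 115 (V.cons 83 1 (V.cons 299 (-1) V.nil)) (Q.cons 116 (V.cons 20 (-2) (V.cons 44 (-4) (V.cons 74 6 V.nil))) (Q.cons 170 (V.cons 92 2 (V.cons 182 2 (V.cons 218 2 (V.cons 302 (-2) (V.cons 314 (-2) (V.cons 362 (-2) V.nil)))))) (Q.cons 173 (V.cons 91 2 (V.cons 187 (-2) V.nil)) (Q.cons 175 (V.cons 83 (-2) (V.cons 299 2 V.nil)) (Q.cons 182 (V.cons 20 (-1) (V.cons 44 (-1) (V.cons 74 2 V.nil))) (Q.cons 187 (V.cons 83 (-1) (V.cons 299 1 V.nil)) (Q.cons 218 (V.cons 20 1 (V.cons 44 3 (V.cons 74 (-4) V.nil))) (Q.cons 221 (V.cons 13 (-8) (V.cons 19 8 V.nil)) (Q.cons 235 (V.cons 83 (-1) (V.cons 299 1 V.nil))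 (Q.cons 236 (V.cons 20 (-1) (V.cons 44 3 (V.cons 74 (-2) V.nil))) (Q.cons 242 (V.cons 20 1 (V.cons 44 (-1) V.nil)) (Q.cons 245 (V.cons 13 1 (V.cons 19 (-1) (V.cons 43 2 V.nil))) (Q.cons 302 (V.cons 20 (-1) (V.cons 44 (-3) (V.cons 74 4 V.nil))) (Q.cons 311 (V.cons 13 8 (V.cons 19 (-8) (V.cons 43 2 V.nil))) (Q.cons 314 (V.cons 20 (-1) (V.cons 44 (-3) (V.cons 74 4 V.nil))) (Q.cons 317 (V.cons 13 6 (V.cons 19 (-6) (V.cons 43 4 V.nil))) (Q.cons 335 (V.cons 13 (-8) (V.cons 19 8 (V.cons 43 (-2) V.nil))) (Q.cons 342 (V.cons 10 (-24) V.nil) (Q.cons 347 (V.cons 13 8 (V.cons 19 (-8) (V.cons 43 2 V.nil))) (Q.cons 348 (V.cons 10 32 V.nil) (Q.cons 365 (V.cons 13 6 (V.cons 19 (-6) (V.cons 43 4 V.nil))) (Q.cons 371 (V.cons 13 (-1) (V.cons 19 1 (V.cons 43 (-4) V.nil))) (Q.cons 372 (V.cons 10 70 V.nil) (Q.cons 428 (V.cons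 20 1 (V.cons 44 3 (V.cons 74 (-4) V.nil))) (Q.cons 458 (V.cons 20 1 (V.cons 44 1 (V.cons 74 (-2) V.nil))) (Q.cons 461 (V.cons 13 1 (V.cons 19 (-1) (V.cons 43 4 V.nil))) (Q.cons 467 (V.cons 13 8 (V.cons 19 (-8) (V.cons 43 (-6) V.nil))) (Q.cons 468 (V.cons 10 4 V.nil) (Q.cons 686 (V.cons 20 (-2) (V.cons 74 2 V.nil)) (Q.cons 875 (V.cons 13 15 (V.cons 19 (-15) (V.cons 43 (-2) V.nil))) (Q.cons 938 (V.cons 44 (-2) (V.cons 74 2 V.nil)) (Q.cons 971 (V.cons 13 1 (V.cons 19 (-1) (V.cons 43 (-2) V.nil))) (Q.cons 1206 (V.cons 10 18 V.nil) (Q.cons 1211 (V.cons 13 (-8) (V.cons 19 8 (V.cons 43 (-2) V.nil))) (Q.cons 1242 (V.cons 10 32 V.nil) (Q.cons 1259 (V.cons 13 (-13) (V.cons 19 13 (V.cons 43 (-2) V.nil))) (Q.cons 1260 (V.cons 10 (-12) V.nil) (Q.cons 1266 (V.cons 10 12 V.nil) (Q.cons 1326 (V.cons 10 6 V.nil) (Q.cons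 1338 (V.cons 10 (-32) V.nil) (Q.cons 1341 (V.cons 3 12 V.nil) (Q.cons 1359 (V.cons 3 (-2) V.nil) (Q.cons 1386 (V.cons 10 (-32) V.nil) (Q.cons 1395 (V.cons 3 10 V.nil) (Q.cons 1451 (V.cons 13 (-5) (V.cons 19 5 V.nil)) (Q.cons 1452 (V.cons 10 (-12) V.nil) (Q.cons 1482 (V.cons 10 (-56) V.nil) (Q.cons 1835 (V.cons 13 (-9) (V.cons 19 9 (V.cons 43 2 V.nil))) (Q.cons 1875 (V.cons 3 (-2) V.nil) (Q.cons 3498 (V.cons 10 2 V.nil) (Q.cons 3755 (V.cons 13 (-2) (V.cons 19 2 V.nil)) (Q.cons 5034 (V.cons 10 (-2) V.nil) (Q.cons 5295 (V.cons 3 2 V.nil) (Q.cons 5355 (V.cons 3 (-12) V.nil) (Q.cons 5547 (V.cons 3 (-10) V.nil) (Q.cons 5802 (V.cons 10 (-2) V.nil) (Q.cons 7338 (V.cons 10 (-4) V.nil) (Q.cons 29355 (V.cons 3 2 V.nil) Q.nil)))))))))))))))))))))))))))))))))))))))))))))))))))))))))))))))))))))),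
  (Q.cons 106 (V.cons 300 (-1) (V.cons 330 1 V.nil)) (Q.cons 116 (V.cons 44 1 V.nil) (Q.cons 348 (V.cons 10 2 V.nil) (Q.cons 372 (V.cons 10 1 V.nil) (Q.cons 427 (V.cons 77 1 (V.cons 83 (-1) V.nil)) (Q.cons 428 (V.cons 74 (-1) V.nil) (Q.cons 467 (V.cons 13 (-1) V.nil) (Q.cons 1242 (V.cons 10 1 V.nil) (Q.cons 1338 (V.cons 10 (-1) V.nil) (Q.cons 1341 (V.cons 3 3 V.nil) (Q.cons 1359 (V.cons 3 (-1) V.nil) (Q.cons 1386 (V.cons 10 (-2) V.nil) (Q.cons 1395 (V.cons 3 1 V.nil) (Q.cons 1482 (V.cons 10 (-1) V.nil) (Q.cons 1709 (V.cons 19 1 V.nil) (Q.cons 5295 (V.cons 3 1 V.nil) (Q.cons 5355 (V.cons 3 (-3) V.nil) (Q.cons 5547 (V.cons 3 (-1) V.nil) Q.nil))))))))))))))))))]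

def lits8_2 : List Q := lits8_2_0 ++ (lits8_2_1 ++ (lits8_2_2 ++ (lits8_2_3 ++ (lits8_2_4 ++ (lits8_2_5)))))

set_option maxRecDepth 1000000
theorem rows8_2_ok : chkRows rows8_2 lits8_2 = true := by decide +kernel

end Pool.Agent.N33.SA
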