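import Pool.Agent.N33.SA.Bil4
set_option autoImplicit false

/-! Rows of the certificate of level 8, part 3. -/

noncomputable section
namespace Pool.Agent.N33.SA

def rows8_3 : List BR := [
  ⟨0, 20, 0, [2], []⟩,
  ⟨0, 302, 0, [], []⟩,
  ⟨6, 20, 0, [], []⟩,
  ⟨3, 61, 0, [], []⟩,
  ⟨15, 13, 0, [], []⟩,
  ⟨4, 4, 0, [2], []⟩,
  ⟨34, 4, 0, [], []⟩,
  ⟨28, 4, 0, [], []⟩,
  ⟨19, 15, 0, [], []⟩,
  ⟨109, 3, 0, [], []⟩,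
  ⟨98, 0, 0, [], []⟩,
  ⟨428, 0, 0, [], []⟩,
  ⟨0, 43, 1, [2], []⟩,
  ⟨0, 55, 1, [], []⟩,
  ⟨3, 46, 1, [], []⟩,
  ⟨27, 4, 1, [], []⟩,
  ⟨106, 3, 1, [], []⟩,
  ⟨187, 0, 1, [], []⟩,
  ⟨91, 0, 1, [], []⟩,
  ⟨3, 77, 2, [], []⟩,
  ⟨4, 74, 2, [], []⟩,
  ⟨19, 43, 2, [], []⟩,
  ⟨74, 4, 2, [], []⟩,
  ⟨2730, 0, 2, [], []⟩,
  ⟨0, 83, 3, [], []⟩,
  ⟨4, 43, 3, [], []⟩,
  ⟨19, 4, 3, [], []⟩,
  ⟨83, 0, 3, [], []⟩,
  ⟨3, 20, 4, [], []⟩,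
  ⟨43, 4, 4, [], []⟩,
  ⟨20, 3, 4, [], []⟩,
  ⟨0, 20, 6, [], []⟩,
  ⟨43, 3, 6, [], []⟩,
  ⟨0, 44, 7, [], []⟩,
  ⟨4, 4, 7, [], []⟩,
  ⟨0, 13, 0, [2,0], []⟩,
  ⟨0, 61, 0, [0], []⟩,
  ⟨3, 10, 0, [0,2], []⟩,
  ⟨9, 10, 0, [0], []⟩,
  ⟨10, 3, 0, [2,0], []⟩,
  ⟨58, 3, 0, [0], []⟩,
  ⟨13, 0, 0, [0,2], []⟩,
  ⟨235, 0, 0, [0], []⟩,
  ⟨0, 10, 1, [3], []⟩,
  ⟨0, 22, 1, [0], []⟩,
  ⟨15, 3, 1, [0], []⟩,
  ⟨34, 0, 1, [0], []⟩,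
  ⟨10, 43, 2, [0], []⟩,
  ⟨43, 0, 6, [0], []⟩,
  ⟨0, 46, 0, [1], []⟩,
  ⟨6, 4, 0, [1], []⟩,
  ⟨15, 3, 0, [1], []⟩,
  ⟨34, 0, 0, [1], []⟩,
  ⟨0, 3, 1, [3,0], []⟩,
  ⟨3, 0, 1, [2,1], []⟩,
  ⟨3, 3, 5, [0,0], []⟩]

def lits8_3_0 : List Q := [
  (Q.cons 4 (V.cons 342 2 (V.cons 1326 (-1) V.nil)) (Q.cons 10 (V.cons 342 (-1) V.nil) (Q.cons 13 (V.cons 335 (-1) V.nil) (Q.cons 19 (V.cons 335 1 V.nil) (Q.cons 22 (V.cons 84 2 (V.cons 330 (-1) V.nil)) (Q.cons 46 (V.cons 84 (-1) V.nil) (Q.cons 55 (V.cons 83 (-1) V.nil) (Q.cons 79 (V.cons 83 1 V.nil) Q.nil)))))))),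
  (Q.cons 3 (V.cons 1341 (-27) (V.cons 1359 6 (V.cons 1395 (-21) (V.cons 1491 (-1) (V.cons 5295 (-6) (V.cons 5355 27 (V.cons 5547 21 (V.cons 5805 1 V.nil)))))))) (Q.cons 4 (V.cons 342 2 (V.cons 372 (-1) (V.cons 1206 (-3) (V.cons 1242 (-2) (V.cons 1260 (-3) (V.cons 1266 2 (V.cons 1326 1 (V.cons 1338 2 (V.cons 1386 1 (V.cons 1452 (-1) (V.cons 1482 2 (V.cons 5034 1 V.nil)))))))))))) (Q.cons 10 (V.cons 342 (-2) (V.cons 372 2 (V.cons 1206 2 (V.cons 1242 1 (V.cons 1260 1 (V.cons 1266 (-1) (V.cons 1338 (-1) (V.cons 1386 (-1) (V.cons 1482 (-2) V.nil))))))))) (Q.cons 13 (V.cons 1211 (-1) V.nil) (Q.cons 19 (V.cons 1211 1 V.nil) Q.nil))))),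
  (Q.cons 28 (V.cons 84 2 (V.cons 330 (-1) V.nil)) (Q.cons 106 (V.cons 84 (-1) V.nil) (Q.cons 109 (V.cons 83 (-1) V.nil) (Q.cons 115 (V.cons 83 1 V.nil) Q.nil)))),
  (Q.cons 10 (V.cons 342 5 (V.cons 348 (-9) (V.cons 372 (-18) (V.cons 1206 (-4) (V.cons 1242 (-9) (V.cons 1260 3 (V.cons 1266 (-3) (V.cons 1326 (-1) (V.cons 1338 9 (V.cons 1386 9 (V.cons 1452 3 (V.cons 1482 15 V.nil)))))))))))) (Q.cons 13 (V.cons 245 2 (V.cons 971 (-1) V.nil)) (Q.cons 20 (V.cons 242 (-1) V.nil) (Q.cons 43 (V.cons 245 (-1) V.nil) (Q.cons 44 (V.cons 242 1 V.nil) Q.nil))))),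
  (Q.cons 58 (V.cons 84 (-1) (V.cons 330 1 V.nil)) (Q.cons 61 (V.cons 83 1 V.nil) (Q.cons 235 (V.cons 83 (-1) V.nil) (Q.cons 236 (V.cons 20 1 V.nil) (Q.cons 242 (V.cons 20 (-1) V.nil) Q.nil))))),
  (Q.cons 19 (V.cons 311 1 (V.cons 335 (-1) V.nil)) (Q.cons 20 (V.cons 86 2 (V.cons 302 (-1) V.nil)) (Q.cons 74 (V.cons 86 (-1) V.nil) (Q.cons 77 (V.cons 79 (-1) V.nil) (Q.cons 79 (V.cons 77 1 (V.cons 83 (-1) V.nil)) (Q.cons 83 (V.cons 79 1 V.nil) (Q.cons 86 (V.cons 20 2 (V.cons 74 (-1) V.nil)) (Q.cons 302 (V.cons 20 (-1) V.nil) (Q.cons 311 (V.cons 19 (-1) V.nil) (Q.cons 335 (V.cons 19 1 V.nil) Q.nil)))))))))),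
  (Q.cons 55 (V.cons 77 (-1) (V.cons 83 1 V.nil)) (Q.cons 61 (V.cons 77 (-1) (V.cons 83 1 V.nil)) (Q.cons 79 (V.cons 77 1 (V.cons 83 (-1) V.nil)) (Q.cons 86 (V.cons 20 (-2) V.nil) (Q.cons 91 (V.cons 77 (-1) (V.cons 83 1 V.nil)) (Q.cons 92 (V.cons 20 (-4) (V.cons 74 2 V.nil)) (Q.cons 98 (V.cons 20 (-2) (V.cons 74 1 V.nil)) (Q.cons 109 (V.cons 77 (-1) (V.cons 83 1 V.nil)) (Q.cons 115 (V.cons 77 (-1) (V.cons 83 1 V.nil)) (Q.cons 116 (V.cons 74 2 V.nil) (Q.cons 182 (V.cons 20 1 V.nil) (Q.cons 187 (V.cons 77 1 (V.cons 83 (-1) V.nil)) (Q.cons 218 (V.cons 20 1 V.nil) (Q.cons 221 (V.cons 19 4 V.nil) (Q.cons 235 (V.cons 77 1 (V.cons 83 (-1) V.nil)) (Q.cons 236 (V.cons 20 (-1) V.nil) (Q.cons 242 (V.cons 20 1 V.nil) (Q.cons 302 (V.cons 20 1 V.nil) (Q.cons 311 (V.cons 19 (-2) V.nil) (Q.cons 314 (V.cons 20 (-1) V.nil)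 (Q.cons 317 (V.cons 19 (-4) V.nil) (Q.cons 335 (V.cons 19 2 V.nil) (Q.cons 362 (V.cons 20 4 (V.cons 74 (-2) V.nil)) (Q.cons 365 (V.cons 19 (-2) V.nil) (Q.cons 371 (V.cons 19 2 V.nil) (Q.cons 427 (V.cons 77 2 (V.cons 83 (-2) V.nil)) (Q.cons 428 (V.cons 20 3 (V.cons 74 (-2) V.nil)) (Q.cons 458 (V.cons 20 (-1) V.nil) (Q.cons 461 (V.cons 19 (-2) V.nil) (Q.cons 467 (V.cons 19 4 V.nil) (Q.cons 1706 (V.cons 20 (-2) V.nil) (Q.cons 1709 (V.cons 19 (-2) V.nil) Q.nil)))))))))))))))))))))))))))))))),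
  (Q.cons 115 (V.cons 77 1 (V.cons 83 (-1) V.nil)) (Q.cons 116 (V.cons 20 2 (V.cons 74 (-1) V.nil)) (Q.cons 458 (V.cons 20 (-1) V.nil) (Q.cons 461 (V.cons 19 (-1) V.nil) (Q.cons 467 (V.cons 19 1 V.nil) Q.nil))))),
  (Q.cons 74 (V.cons 236 (-1) (V.cons 242 1 V.nil)) (Q.cons 77 (V.cons 61 2 (V.cons 235 (-1) V.nil)) (Q.cons 84 (V.cons 58 (-1) V.nil) (Q.cons 299 (V.cons 61 (-1) V.nil) (Q.cons 300 (V.cons 58 1 V.nil) Q.nil))))),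
  (Q.cons 116 (V.cons 20 1 (V.cons 44 (-1) V.nil)) (Q.cons 348 (V.cons 10 2 V.nil) (Q.cons 372 (V.cons 10 1 V.nil) (Q.cons 467 (V.cons 13 1 (V.cons 43 (-1) V.nil)) (Q.cons 1242 (V.cons 10 1 V.nil) (Q.cons 1338 (V.cons 10 (-1) V.nil) (Q.cons 1386 (V.cons 10 (-2) V.nil) (Q.cons 1482 (V.cons 10 (-1) V.nil) Q.nil))))))))]

def lits8_3_1 : List Q := [
  (Q.cons 311 (V.cons 13 (-1) (V.cons 19 1 V.nil)) (Q.cons 317 (V.cons 13 (-1) (V.cons 19 1 V.nil)) (Q.cons 335 (V.cons 13 1 (V.cons 19 (-1) V.nil)) (Q.cons 342 (V.cons 4 2 (V.cons 10 (-2) V.nil)) (Q.cons 347 (V.cons 13 (-1) (V.cons 19 1 V.nil)) (Q.cons 348 (V.cons 4 (-8) (V.cons 10 4 V.nil)) (Q.cons 365 (V.cons 13 (-1) (V.cons 19 1 V.nil)) (Q.cons 371 (V.cons 13 (-1) (V.cons 19 1 V.nil)) (Q.cons 372 (V.cons 4 (-12) (V.cons 10 8 V.nil)) (Q.cons 1206 (V.cons 4 (-1)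 (V.cons 10 1 V.nil)) (Q.cons 1211 (V.cons 13 1 (V.cons 19 (-1) V.nil)) (Q.cons 1242 (V.cons 4 (-5) (V.cons 10 3 V.nil)) (Q.cons 1259 (V.cons 13 1 (V.cons 19 (-1) V.nil)) (Q.cons 1260 (V.cons 4 1 (V.cons 10 (-1) V.nil)) (Q.cons 1266 (V.cons 4 (-1) (V.cons 10 1 V.nil)) (Q.cons 1326 (V.cons 4 (-1) (V.cons 10 1 V.nil)) (Q.cons 1338 (V.cons 4 5 (V.cons 10 (-3) V.nil)) (Q.cons 1341 (V.cons 3 (-18) V.nil) (Q.cons 1359 (V.cons 3 4 V.nil) (Q.cons 1386 (V.cons 4 8 (V.cons 10 (-4) V.nil)) (Q.cons 1395 (V.cons 3 (-14) V.nil) (Q.cons 1451 (V.cons 13 2 (V.cons 19 (-2) V.nil)) (Q.cons 1452 (V.cons 4 5 (V.cons 10 (-3) V.nil)) (Q.cons 1482 (V.cons 4 9 (V.cons 10 (-5) V.nil)) (Q.cons 1491 (V.cons 3 2 V.nil) (Q.cons 5295 (V.cons 3 (-4) V.nil) (Q.cons 5355 (V.cons 3 18 V.nil) (Q.cons 5547 (V.cons 3 14 V.nil) (Q.cons 5802 (V.cons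 4 (-2) V.nil) (Q.cons 5805 (V.cons 3 (-2) V.nil) Q.nil)))))))))))))))))))))))))))))),
  (Q.cons 348 (V.cons 4 (-2) (V.cons 10 2 V.nil)) (Q.cons 372 (V.cons 4 (-1) (V.cons 10 1 V.nil)) (Q.cons 467 (V.cons 13 1 (V.cons 19 (-1) V.nil)) (Q.cons 468 (V.cons 4 1 (V.cons 10 (-1) V.nil)) (Q.cons 1242 (V.cons 4 (-1) (V.cons 10 1 V.nil)) (Q.cons 1338 (V.cons 4 1 (V.cons 10 (-1) V.nil)) (Q.cons 1341 (V.cons 3 3 V.nil) (Q.cons 1359 (V.cons 3 (-1) V.nil) (Q.cons 1386 (V.cons 4 2 (V.cons 10 (-2) V.nil)) (Q.cons 1395 (V.cons 3 1 V.nil) (Q.cons 1482 (V.cons 4 1 (V.cons 10 (-1) V.nil)) (Q.cons 5295 (V.cons 3 1 V.nil) (Q.cons 5355 (V.cons 3 (-3) V.nil) (Q.cons 5547 (V.cons 3 (-1) V.nil) Q.nil)))))))))))))),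
  (Q.cons 3 (V.cons 1341 3 (V.cons 1359 (-1) (V.cons 1395 1 (V.cons 5295 1 (V.cons 5355 (-3) (V.cons 5547 (-1) V.nil)))))) (Q.cons 10 (V.cons 348 (-9) (V.cons 372 (-8) (V.cons 1206 (-1) (V.cons 1242 (-6) (V.cons 1260 1 (V.cons 1266 (-2) (V.cons 1326 1 (V.cons 1338 6 (V.cons 1386 9 (V.cons 1452 1 (V.cons 1482 8 (V.cons 3498 2 (V.cons 5034 (-1) (V.cons 5802 (-1) V.nil)))))))))))))) (Q.cons 13 (V.cons 2735 1 V.nil) (Q.cons 15 (V.cons 1323 1 (V.cons 2733 (-1) V.nil)) (Q.cons 19 (V.cons 2735 (-1) V.nil) (Q.cons 44 (V.cons 686 1 V.nil) (Q.cons 46 (V.cons 330 1 (V.cons 684 (-1) V.nil)) (Q.cons 55 (V.cons 683 1 V.nil) (Q.cons 74 (V.cons 686 (-1) V.nil) (Q.cons 79 (V.cons 683 (-1) V.nil) (Q.cons 182 (V.cons 170 1 V.nil) (Q.cons 302 (V.cons 170 (-1) V.nil) Q.nil)))))))))))),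
  (Q.cons 3 (V.cons 1341 (-3) (V.cons 1359 1 (V.cons 1395 (-2) (V.cons 5295 (-1) (V.cons 5355 3 (V.cons 5547 2 V.nil)))))) (Q.cons 10 (V.cons 342 (-1) (V.cons 348 3 (V.cons 372 6 (V.cons 1206 1 (V.cons 1242 3 (V.cons 1260 (-1) (V.cons 1266 1 (V.cons 1338 (-3) (V.cons 1386 (-3) (V.cons 1452 (-1) (V.cons 1482 (-5) V.nil))))))))))) (Q.cons 13 (V.cons 875 1 V.nil) (Q.cons 19 (V.cons 875 (-1) V.nil) (Q.cons 44 (V.cons 218 1 V.nil) (Q.cons 74 (V.cons 218 (-1) V.nil) Q.nil)))))),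
  (Q.cons 3 (V.cons 1341 (-12) (V.cons 1359 4 (V.cons 1395 (-4) (V.cons 5295 (-4) (V.cons 5355 12 (V.cons 5547 4 V.nil)))))) (Q.cons 10 (V.cons 342 1 (V.cons 348 (-5) (V.cons 372 (-10) (V.cons 978 1 (V.cons 1242 (-4) (V.cons 1260 3 (V.cons 1266 (-3) (V.cons 1326 (-1) (V.cons 1338 4 (V.cons 1386 5 (V.cons 1452 3 (V.cons 1482 7 (V.cons 3756 (-1) V.nil))))))))))))) (Q.cons 20 (V.cons 86 2 (V.cons 182 (-1) (V.cons 236 1 (V.cons 302 (-1) (V.cons 362 1 (V.cons 938 (-1) V.nil)))))) (Q.cons 43 (V.cons 221 (-1) (V.cons 245 (-2) (V.cons 311 1 (V.cons 335 (-1) (V.cons 347 1 (V.cons 371 1 (V.cons 875 3 (V.cons 941 1 (V.cons 971 1 (V.cons 1211 (-1) (V.cons 1259 (-2) (V.cons 1451 (-1) V.nil)))))))))))) (Q.cons 44 (V.cons 86 (-2) (V.cons 182 1 (V.cons 236 (-1) (V.cons 302 1 (V.cons 362 (-1) (V.cons 938 1 V.nil)))))) (Q.cons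 83 (V.cons 187 (-1) V.nil) (Q.cons 173 (V.cons 187 1 V.nil) Q.nil))))))),
  (Q.cons 106 (V.cons 300 1 (V.cons 330 (-1) V.nil)) (Q.cons 116 (V.cons 74 1 V.nil) (Q.cons 427 (V.cons 77 (-1) (V.cons 83 1 V.nil)) (Q.cons 428 (V.cons 74 (-1) V.nil) (Q.cons 467 (V.cons 19 (-1) V.nil) (Q.cons 1709 (V.cons 19 1 V.nil) Q.nil)))))),
  (Q.cons 348 (V.cons 10 2 V.nil) (Q.cons 372 (V.cons 10 1 V.nil) (Q.cons 427 (V.cons 83 1 (V.cons 173 (-1) V.nil)) (Q.cons 467 (V.cons 43 (-1) V.nil) (Q.cons 468 (V.cons 10 (-1) V.nil) (Q.cons 1242 (V.cons 10 1 V.nil) (Q.cons 1338 (V.cons 10 (-1) V.nil) (Q.cons 1386 (V.cons 10 (-2) V.nil) (Q.cons 1482 (V.cons 10 (-1) V.nil) (Q.cons 1706 (V.cons 20 1 (V.cons 44 (-1) V.nil)) (Q.cons 1709 (V.cons 43 1 V.nil) (Q.cons 6828 (V.cons 10 1 V.nil) Q.nil)))))))))))),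
  (Q.cons 86 (V.cons 44 2 (V.cons 74 (-2) V.nil)) (Q.cons 116 (V.cons 44 (-3) (V.cons 74 3 V.nil)) (Q.cons 182 (V.cons 44 (-1) (V.cons 74 1 V.nil)) (Q.cons 221 (V.cons 13 2 (V.cons 19 (-2) V.nil)) (Q.cons 236 (V.cons 44 1 (V.cons 74 (-1) V.nil)) (Q.cons 245 (V.cons 13 (-1) (V.cons 19 1 V.nil)) (Q.cons 302 (V.cons 44 (-1) (V.cons 74 1 V.nil)) (Q.cons 311 (V.cons 13 (-2) (V.cons 19 2 V.nil)) (Q.cons 317 (V.cons 13 (-2) (V.cons 19 2 V.nil)) (Q.cons 335 (V.cons 13 2 (V.cons 19 (-2) V.nil)) (Q.cons 342 (V.cons 10 (-2) V.nil) (Q.cons 347 (V.cons 13 (-2) (V.cons 19 2 V.nil)) (Q.cons 348 (V.cons 10 9 V.nil) (Q.cons 362 (V.cons 44 1 (V.cons 74 (-1) V.nil)) (Q.cons 365 (V.cons 13 (-2) (V.cons 19 2 V.nil)) (Q.cons 371 (V.cons 13 1 (V.cons 19 (-1) V.nil)) (Q.cons 372 (V.cons 10 16 V.nil) (Q.cons 428 (V.cons 44 1 (V.cons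 74 (-1) V.nil)) (Q.cons 458 (V.cons 44 2 (V.cons 74 (-2) V.nil)) (Q.cons 461 (V.cons 13 (-1) (V.cons 19 1 V.nil)) (Q.cons 467 (V.cons 13 1 (V.cons 19 (-1) V.nil)) (Q.cons 875 (V.cons 13 (-2) (V.cons 19 2 V.nil)) (Q.cons 938 (V.cons 44 (-1) (V.cons 74 1 V.nil)) (Q.cons 978 (V.cons 10 (-1) V.nil) (Q.cons 981 (V.cons 3 1 V.nil) (Q.cons 1206 (V.cons 10 1 V.nil) (Q.cons 1211 (V.cons 13 2 (V.cons 19 (-2) V.nil)) (Q.cons 1242 (V.cons 10 8 V.nil) (Q.cons 1259 (V.cons 13 2 (V.cons 19 (-2) V.nil)) (Q.cons 1260 (V.cons 10 (-3) V.nil) (Q.cons 1266 (V.cons 10 3 V.nil) (Q.cons 1326 (V.cons 10 1 V.nil) (Q.cons 1338 (V.cons 10 (-8) V.nil) (Q.cons 1341 (V.cons 3 (-3) V.nil) (Q.cons 1386 (V.cons 10 (-9) V.nil) (Q.cons 1395 (V.cons 3 (-2) V.nil) (Q.cons 1452 (V.cons 10 (-3) V.nil) (Q.cons 1482 (V.cons 10 (-13) V.nil) (Q.cons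 3755 (V.cons 13 1 (V.cons 19 (-1) V.nil)) (Q.cons 3756 (V.cons 10 1 V.nil) (Q.cons 5355 (V.cons 3 3 V.nil) (Q.cons 5547 (V.cons 3 2 V.nil) (Q.cons 15021 (V.cons 3 (-1) V.nil) Q.nil))))))))))))))))))))))))))))))))))))))))))),
  (Q.cons 362 (V.cons 44 1 (V.cons 74 (-1) V.nil)) (Q.cons 372 (V.cons 10 1 V.nil) (Q.cons 1451 (V.cons 13 (-1) (V.cons 19 1 V.nil)) (Q.cons 1452 (V.cons 10 (-1) V.nil) (Q.cons 1491 (V.cons 3 (-1) V.nil) (Q.cons 5805 (V.cons 3 1 V.nil) Q.nil)))))),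
  (Q.cons 10 (V.cons 348 (-4) (V.cons 372 (-4) (V.cons 1206 2 (V.cons 1242 (-2) (V.cons 1260 2 (V.cons 1266 (-2) (V.cons 1326 (-2) (V.cons 1338 2 (V.cons 1386 4 (V.cons 1452 2 (V.cons 1482 2 V.nil))))))))))) (Q.cons 13 (V.cons 311 (-4) V.nil) (Q.cons 22 (V.cons 84 4 V.nil) (Q.cons 28 (V.cons 84 4 V.nil) (Q.cons 34 (V.cons 84 2 V.nil) (Q.cons 43 (V.cons 311 4 V.nil) (Q.cons 46 (V.cons 84 (-4) V.nil) (Q.cons 106 (V.cons 84 (-4) V.nil) Q.nil))))))))]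

def lits8_3_2 : List Q := [
  (Q.cons 19 (V.cons 311 2 (V.cons 317 2 (V.cons 335 2 (V.cons 347 2 (V.cons 365 (-2) (V.cons 371 2 (V.cons 1199 (-4) (V.cons 1211 (-2) (V.cons 1259 (-2) V.nil))))))))) (Q.cons 20 (V.cons 302 (-4) V.nil) (Q.cons 22 (V.cons 300 (-4) (V.cons 1194 4 V.nil)) (Q.cons 25 (V.cons 299 (-2) V.nil) (Q.cons 74 (V.cons 302 4 V.nil) Q.nil))))),
  (Q.cons 74 (V.cons 86 (-8) (V.cons 182 2 (V.cons 218 (-2) (V.cons 236 2 (V.cons 242 (-2) (V.cons 302 2 (V.cons 314 2 (V.cons 686 4 V.nil)))))))) (Q.cons 77 (V.cons 175 (-4) V.nil) (Q.cons 79 (V.cons 173 (-4) (V.cons 683 4 V.nil)) (Q.cons 86 (V.cons 170 4 V.nil) (Q.cons 92 (V.cons 170 4 V.nil) (Q.cons 98 (V.cons 170 2 V.nil) (Q.cons 299 (V.cons 175 4 V.nil) (Q.cons 302 (V.cons 170 (-4) V.nil) (Q.cons 362 (V.cons 170 (-4) V.nil) Q.nil))))))))),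
  (Q.cons 299 (V.cons 25 2 V.nil) (Q.cons 300 (V.cons 22 (-4) V.nil) (Q.cons 302 (V.cons 20 (-4) (V.cons 74 4 V.nil)) (Q.cons 311 (V.cons 19 (-2) V.nil) (Q.cons 317 (V.cons 19 (-2) V.nil) (Q.cons 335 (V.cons 19 (-2) V.nil) (Q.cons 347 (V.cons 19 (-2) V.nil) (Q.cons 365 (V.cons 19 2 V.nil) (Q.cons 371 (V.cons 19 (-2) V.nil) (Q.cons 1194 (V.cons 22 4 V.nil) (Q.cons 1199 (V.cons 19 4 V.nil) (Q.cons 1211 (V.cons 19 2 V.nil) (Q.cons 1259 (V.cons 19 2 V.nil) Q.nil))))))))))))),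
  (Q.cons 981 (V.cons 3 4 V.nil) (Q.cons 1269 (V.cons 3 4 V.nil) (Q.cons 1341 (V.cons 3 (-4) V.nil) (Q.cons 1491 (V.cons 3 4 V.nil) (Q.cons 5295 (V.cons 3 (-4) V.nil) (Q.cons 5355 (V.cons 3 4 V.nil) (Q.cons 10926 (V.cons 4 (-4) (V.cons 10 4 V.nil)) (Q.cons 15021 (V.cons 3 (-4) V.nil) (Q.cons 20139 (V.cons 3 (-4) V.nil) (Q.cons 23211 (V.cons 3 (-4) V.nil) (Q.cons 43695 (V.cons 3 4 V.nil) Q.nil))))))))))),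
  (Q.cons 3 (V.cons 1341 (-2) (V.cons 1359 2 (V.cons 5295 (-2) (V.cons 5355 2 V.nil)))) (Q.cons 4 (V.cons 1326 (-2) (V.cons 1338 2 V.nil)) (Q.cons 9 (V.cons 1323 (-2) V.nil) (Q.cons 10 (V.cons 348 8 (V.cons 372 12 (V.cons 1206 2 (V.cons 1242 6 (V.cons 1260 (-2) (V.cons 1266 2 (V.cons 1338 (-8) (V.cons 1386 (-8) (V.cons 1452 (-2) (V.cons 1482 (-10) V.nil)))))))))) (Q.cons 13 (V.cons 335 (-2) V.nil) (Q.cons 15 (V.cons 339 2 (V.cons 1323 (-2) V.nil)) (Q.cons 19 (V.cons 335 2 V.nil) (Q.cons 22 (V.cons 330 (-2) V.nil) (Q.cons 27 (V.cons 339 (-2) (V.cons 1323 2 V.nil)) (Q.cons 28 (V.cons 330 2 V.nil) (Q.cons 46 (V.cons 330 2 V.nil) (Q.cons 106 (V.cons 330 (-2) V.nil) Q.nil)))))))))))),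
  (Q.cons 4 (V.cons 348 (-26) (V.cons 372 (-16) (V.cons 1242 (-14) (V.cons 1338 14 (V.cons 1386 26 (V.cons 1482 16 V.nil)))))) (Q.cons 19 (V.cons 221 (-8) (V.cons 245 (-2) (V.cons 311 8 (V.cons 317 16 (V.cons 335 (-6) (V.cons 347 2 (V.cons 365 16 (V.cons 371 (-16) (V.cons 875 (-6) (V.cons 941 (-2) (V.cons 971 2 (V.cons 1211 (-2) (V.cons 1259 (-2) (V.cons 2735 (-2) (V.cons 3755 2 V.nil))))))))))))))) (Q.cons 20 (V.cons 86 (-6) (V.cons 182 2 (V.cons 218 (-2) (V.cons 236 (-4) (V.cons 242 2 (V.cons 302 4 (V.cons 314 4 (V.cons 686 (-2) (V.cons 938 2 V.nil))))))))) (Q.cons 22 (V.cons 330 (-2) (V.cons 684 2 V.nil)) (Q.cons 25 (V.cons 683 (-2) V.nil) (Q.cons 74 (V.cons 86 14 (V.cons 182 (-4) (V.cons 218 4 (V.cons 236 2 (V.cons 302 (-6) (V.cons 314 (-6) (V.cons 686 (-2) (V.cons 938 (-2) V.nil)))))))) (Q.cons 77 (V.cons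 175 (-2) V.nil) (Q.cons 79 (V.cons 173 2 (V.cons 683 (-2) V.nil)) (Q.cons 83 (V.cons 175 2 V.nil) (Q.cons 86 (V.cons 170 (-2) V.nil) (Q.cons 91 (V.cons 173 (-2) (V.cons 683 2 V.nil)) (Q.cons 92 (V.cons 170 2 V.nil) (Q.cons 302 (V.cons 170 2 V.nil) (Q.cons 362 (V.cons 170 (-2) V.nil) Q.nil)))))))))))))),
  (Q.cons 74 (V.cons 86 (-2) (V.cons 92 2 (V.cons 302 2 (V.cons 362 (-2) V.nil)))) (Q.cons 77 (V.cons 79 (-2) (V.cons 91 2 V.nil)) (Q.cons 79 (V.cons 77 2 (V.cons 83 (-2) V.nil)) (Q.cons 84 (V.cons 22 (-2) V.nil) (Q.cons 86 (V.cons 74 4 V.nil) (Q.cons 92 (V.cons 74 4 V.nil) (Q.cons 98 (V.cons 74 2 V.nil) (Q.cons 299 (V.cons 25 2 (V.cons 79 2 (V.cons 91 (-2) V.nil))) (Q.cons 300 (V.cons 22 2 V.nil) (Q.cons 302 (V.cons 20 (-2) (V.cons 74 (-2) V.nil)) (Q.cons 311 (V.cons 19 (-2) V.nil) (Q.cons 314 (V.cons 20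 2 (V.cons 74 (-2) V.nil)) (Q.cons 317 (V.cons 19 2 V.nil) (Q.cons 362 (V.cons 74 (-4) V.nil) (Q.cons 1199 (V.cons 19 2 V.nil) (Q.cons 1259 (V.cons 19 (-2) V.nil) Q.nil)))))))))))))))),
  (Q.cons 83 (V.cons 55 1 (V.cons 61 1 (V.cons 79 (-1) (V.cons 91 1 (V.cons 187 (-1) (V.cons 235 (-1) V.nil)))))) (Q.cons 330 (V.cons 22 (-2) (V.cons 46 2 V.nil)) (Q.cons 335 (V.cons 13 2 (V.cons 19 (-2) V.nil)) (Q.cons 339 (V.cons 15 (-2) V.nil) (Q.cons 348 (V.cons 10 8 V.nil) (Q.cons 372 (V.cons 10 12 V.nil) (Q.cons 1206 (V.cons 10 2 V.nil) (Q.cons 1242 (V.cons 10 6 V.nil) (Q.cons 1260 (V.cons 10 (-2) V.nil) (Q.cons 1266 (V.cons 10 2 V.nil) (Q.cons 1323 (V.cons 15 2 V.nil) (Q.cons 1326 (V.cons 4 (-2) V.nil) (Q.cons 1338 (V.cons 4 2 (V.cons 10 (-8) V.nil)) (Q.cons 1341 (V.cons 3 2 V.nil) (Q.cons 1359 (V.cons 3 (-2) V.nil)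 (Q.cons 1386 (V.cons 10 (-8) V.nil) (Q.cons 1452 (V.cons 10 (-2) V.nil) (Q.cons 1482 (V.cons 10 (-10) V.nil) (Q.cons 5295 (V.cons 3 2 V.nil) (Q.cons 5355 (V.cons 3 (-2) V.nil) Q.nil)))))))))))))))))))),
  (Q.cons 3 (V.cons 1341 6 (V.cons 1359 (-2) (V.cons 1395 2 (V.cons 5295 2 (V.cons 5355 (-6) (V.cons 5547 (-2) V.nil)))))) (Q.cons 10 (V.cons 342 (-2) (V.cons 348 2 (V.cons 1326 2 (V.cons 1386 (-2) V.nil)))) (Q.cons 13 (V.cons 221 (-4) (V.cons 311 6 (V.cons 317 6 (V.cons 335 (-8) (V.cons 347 4 (V.cons 365 6 (V.cons 371 (-6) (V.cons 1211 (-2) (V.cons 1259 (-2) V.nil))))))))) (Q.cons 20 (V.cons 86 2 V.nil) (Q.cons 22 (V.cons 84 4 (V.cons 330 4 V.nil)) (Q.cons 28 (V.cons 84 4 (V.cons 330 4 V.nil)) (Q.cons 34 (V.cons 84 2 (V.cons 330 2 V.nil)) (Q.cons 43 (V.cons 221 (-4) (V.cons 311 6 (V.cons 317 6 (V.cons 335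 (-4) (V.cons 365 6 (V.cons 371 (-6) (V.cons 1211 (-2) (V.cons 1259 (-2) V.nil)))))))) (Q.cons 44 (V.cons 86 (-2) V.nil) (Q.cons 46 (V.cons 84 (-6) (V.cons 330 (-2) V.nil)) (Q.cons 55 (V.cons 83 (-2) V.nil) (Q.cons 58 (V.cons 84 2 (V.cons 330 (-2) V.nil)) (Q.cons 61 (V.cons 83 2 V.nil) (Q.cons 106 (V.cons 84 (-4) (V.cons 330 (-4) V.nil)) (Q.cons 175 (V.cons 83 2 V.nil) (Q.cons 235 (V.cons 83 (-2) V.nil) Q.nil)))))))))))))))),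
  (Q.cons 86 (V.cons 20 2 (V.cons 74 14 V.nil)) (Q.cons 116 (V.cons 20 2 (V.cons 74 (-10) V.nil)) (Q.cons 170 (V.cons 86 (-2) (V.cons 92 2 (V.cons 302 2 (V.cons 362 (-2) V.nil)))) (Q.cons 173 (V.cons 25 2 (V.cons 79 (-2) (V.cons 91 2 V.nil))) (Q.cons 175 (V.cons 77 (-2) (V.cons 83 2 V.nil)) (Q.cons 182 (V.cons 74 (-4) V.nil) (Q.cons 218 (V.cons 74 4 V.nil) (Q.cons 221 (V.cons 19 8 V.nil) (Q.cons 236 (V.cons 20 (-6) (V.cons 74 2 V.nil)) (Q.cons 242 (V.cons 20 4 V.nil) (Q.cons 245 (V.cons 19 2 V.nil) (Q.cons 302 (V.cons 20 2 (V.cons 74 (-6) V.nil)) (Q.cons 311 (V.cons 19 (-8) V.nil) (Q.cons 314 (V.cons 20 2 (V.cons 74 (-6) V.nil)) (Q.cons 317 (V.cons 19 (-16) V.nil) (Q.cons 330 (V.cons 22 2 V.nil) (Q.cons 335 (V.cons 19 6 V.nil) (Q.cons 347 (V.cons 19 (-2) V.nil) (Q.cons 365 (V.cons 19 (-16) V.nil) (Q.cons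 371 (V.cons 19 16 V.nil) (Q.cons 428 (V.cons 20 (-2) (V.cons 74 6 V.nil)) (Q.cons 458 (V.cons 74 4 V.nil) (Q.cons 461 (V.cons 19 (-16) V.nil) (Q.cons 467 (V.cons 19 20 V.nil) (Q.cons 683 (V.cons 25 2 (V.cons 79 2 (V.cons 91 (-2) V.nil))) (Q.cons 684 (V.cons 22 (-2) V.nil) (Q.cons 686 (V.cons 20 (-6) (V.cons 74 (-2) V.nil)) (Q.cons 875 (V.cons 19 6 V.nil) (Q.cons 938 (V.cons 20 2 (V.cons 74 (-2) V.nil)) (Q.cons 941 (V.cons 19 2 V.nil) (Q.cons 971 (V.cons 19 (-2) V.nil) (Q.cons 1211 (V.cons 19 2 V.nil) (Q.cons 1259 (V.cons 19 2 V.nil) (Q.cons 1835 (V.cons 19 (-4) V.nil) (Q.cons 2735 (V.cons 19 2 V.nil) (Q.cons 3755 (V.cons 19 (-2) V.nil) Q.nil))))))))))))))))))))))))))))))))))))]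

def lits8_3_3 : List Q := [
  (Q.cons 20 (V.cons 86 (-2) (V.cons 92 2 (V.cons 98 1 (V.cons 182 1 (V.cons 218 1 (V.cons 236 (-1) (V.cons 242 1 (V.cons 302 1 (V.cons 314 (-1) (V.cons 362 (-2) V.nil)))))))))) (Q.cons 83 (V.cons 55 2 (V.cons 61 (-2) (V.cons 175 (-2) (V.cons 235 2 V.nil)))) (Q.cons 84 (V.cons 22 4 (V.cons 46 (-6) (V.cons 58 2 V.nil))) (Q.cons 86 (V.cons 20 2 (V.cons 44 (-2) V.nil)) (Q.cons 221 (V.cons 13 4 (V.cons 43 4 V.nil)) (Q.cons 311 (V.cons 13 (-6) (V.cons 43 (-6) V.nil)) (Q.cons 317 (V.cons 13 (-6) (V.cons 43 (-6) V.nil)) (Q.cons 330 (V.cons 22 4 (V.cons 46 (-2) (V.cons 58 (-2) V.nil))) (Q.cons 335 (V.cons 13 8 (V.cons 43 4 V.nil)) (Q.cons 342 (V.cons 10 (-2) V.nil) (Q.cons 347 (V.cons 13 (-4) V.nil) (Q.cons 348 (V.cons 10 2 V.nil) (Q.cons 365 (V.cons 13 (-6) (V.cons 43 (-6) V.nil)) (Q.cons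 371 (V.cons 13 6 (V.cons 43 6 V.nil)) (Q.cons 461 (V.cons 13 (-4) (V.cons 43 (-4) V.nil)) (Q.cons 467 (V.cons 13 4 (V.cons 43 4 V.nil)) (Q.cons 1211 (V.cons 13 2 (V.cons 43 2 V.nil)) (Q.cons 1259 (V.cons 13 2 (V.cons 43 2 V.nil)) (Q.cons 1326 (V.cons 10 2 V.nil) (Q.cons 1386 (V.cons 10 (-2) V.nil) Q.nil)))))))))))))))))))),
  (Q.cons 0 (V.cons 1396 (-4) (V.cons 22186 4 V.nil)) (Q.cons 3 (V.cons 1341 (-14) (V.cons 1359 12 (V.cons 1395 4 (V.cons 5295 (-12) (V.cons 5355 14 (V.cons 5547 (-4) V.nil)))))) (Q.cons 4 (V.cons 342 4 (V.cons 348 (-4) (V.cons 372 (-20) (V.cons 1206 (-4) (V.cons 1242 (-8) (V.cons 1260 4 (V.cons 1266 (-4) (V.cons 1326 (-4) (V.cons 1338 8 (V.cons 1386 8 (V.cons 1452 4 (V.cons 1482 16 V.nil)))))))))))) (Q.cons 10 (V.cons 342 (-6) (V.cons 348 6 (V.cons 372 10 (V.cons 1206 2 (V.cons 1242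 4 (V.cons 1260 (-2) (V.cons 1266 2 (V.cons 1326 8 (V.cons 1338 (-4) (V.cons 1386 (-10) (V.cons 1452 (-2) (V.cons 1482 (-8) V.nil)))))))))))) (Q.cons 13 (V.cons 221 (-8) (V.cons 311 12 (V.cons 317 12 (V.cons 335 (-12) (V.cons 347 4 (V.cons 365 12 (V.cons 371 (-12) (V.cons 1211 (-4) (V.cons 1259 (-4) V.nil))))))))) (Q.cons 19 (V.cons 221 8 (V.cons 311 (-12) (V.cons 317 (-12) (V.cons 335 12 (V.cons 347 (-4) (V.cons 365 (-12) (V.cons 371 12 (V.cons 1211 4 (V.cons 1259 4 V.nil))))))))) (Q.cons 22 (V.cons 84 (-4) (V.cons 330 (-2) V.nil)) (Q.cons 25 (V.cons 83 8 V.nil) (Q.cons 28 (V.cons 84 (-4) (V.cons 330 6 V.nil)) (Q.cons 34 (V.cons 84 (-4) (V.cons 330 2 V.nil)) (Q.cons 44 (V.cons 86 4 V.nil) (Q.cons 46 (V.cons 330 6 V.nil) (Q.cons 55 (V.cons 83 (-14) V.nil) (Q.cons 61 (V.cons 83 (-6) V.nil) (Q.cons 74 (V.cons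 86 (-4) V.nil) (Q.cons 79 (V.cons 83 8 V.nil) (Q.cons 91 (V.cons 83 (-6) V.nil) (Q.cons 106 (V.cons 84 8 (V.cons 330 (-10) V.nil)) (Q.cons 109 (V.cons 83 (-8) V.nil) (Q.cons 115 (V.cons 83 2 V.nil) (Q.cons 175 (V.cons 83 6 V.nil) (Q.cons 187 (V.cons 83 6 V.nil) (Q.cons 235 (V.cons 83 6 V.nil) (Q.cons 427 (V.cons 83 6 V.nil) Q.nil)))))))))))))))))))))))),
  (Q.cons 43 (V.cons 221 (-8) (V.cons 245 (-2) (V.cons 311 5 (V.cons 317 11 (V.cons 335 (-5) (V.cons 347 (-1) (V.cons 365 5 (V.cons 371 (-7) (V.cons 875 (-2) (V.cons 971 2 (V.cons 1211 1 (V.cons 1259 (-1) (V.cons 1451 2 V.nil))))))))))))) (Q.cons 86 (V.cons 20 (-16) (V.cons 44 16 V.nil)) (Q.cons 116 (V.cons 20 8 (V.cons 44 (-8) V.nil)) (Q.cons 170 (V.cons 92 (-8) (V.cons 98 4 (V.cons 182 (-15) (V.cons 218 (-19) (V.cons 236 (-11) (V.cons 242 5 (V.cons 302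 9 (V.cons 314 19 (V.cons 362 8 (V.cons 686 6 (V.cons 938 6 V.nil))))))))))) (Q.cons 173 (V.cons 55 (-2) (V.cons 61 (-2) (V.cons 79 (-2) (V.cons 91 (-6) (V.cons 187 6 (V.cons 235 6 V.nil)))))) (Q.cons 175 (V.cons 83 (-4) (V.cons 173 4 V.nil)) (Q.cons 182 (V.cons 20 4 (V.cons 44 (-4) V.nil)) (Q.cons 218 (V.cons 20 (-4) (V.cons 44 4 V.nil)) (Q.cons 221 (V.cons 13 (-16) (V.cons 43 20 V.nil)) (Q.cons 236 (V.cons 20 4 (V.cons 44 (-4) V.nil)) (Q.cons 242 (V.cons 20 (-4) (V.cons 44 4 V.nil)) (Q.cons 245 (V.cons 43 8 V.nil) (Q.cons 302 (V.cons 20 4 (V.cons 44 (-4) V.nil)) (Q.cons 311 (V.cons 13 16 (V.cons 43 (-20) V.nil)) (Q.cons 314 (V.cons 20 4 (V.cons 44 (-4) V.nil)) (Q.cons 317 (V.cons 13 16 (V.cons 43 (-36) V.nil)) (Q.cons 330 (V.cons 22 8 (V.cons 46 (-8) V.nil)) (Q.cons 335 (V.cons 13 (-20) (V.cons 43 18 V.nil))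 (Q.cons 342 (V.cons 10 (-200) V.nil) (Q.cons 347 (V.cons 13 8 (V.cons 43 (-2) V.nil)) (Q.cons 348 (V.cons 10 346 V.nil) (Q.cons 365 (V.cons 13 16 (V.cons 43 (-36) V.nil)) (Q.cons 371 (V.cons 13 (-8) (V.cons 43 34 V.nil)) (Q.cons 372 (V.cons 10 672 V.nil) (Q.cons 428 (V.cons 20 (-4) (V.cons 44 4 V.nil)) (Q.cons 458 (V.cons 20 (-4) (V.cons 44 4 V.nil)) (Q.cons 461 (V.cons 13 8 (V.cons 43 (-34) V.nil)) (Q.cons 467 (V.cons 13 8 (V.cons 43 36 V.nil)) (Q.cons 468 (V.cons 10 4 V.nil) (Q.cons 683 (V.cons 55 (-3) (V.cons 61 5 (V.cons 79 1 (V.cons 91 3 (V.cons 175 6 (V.cons 187 (-3) (V.cons 235 (-9) V.nil))))))) (Q.cons 684 (V.cons 22 (-8) (V.cons 46 8 V.nil)) (Q.cons 686 (V.cons 20 8 (V.cons 44 (-8) V.nil)) (Q.cons 875 (V.cons 13 20 (V.cons 43 8 V.nil)) (Q.cons 941 (V.cons 13 (-4) (V.cons 43 6 V.nil)) (Q.cons 971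 (V.cons 13 4 (V.cons 43 (-8) V.nil)) (Q.cons 978 (V.cons 10 4 V.nil) (Q.cons 1206 (V.cons 10 140 V.nil) (Q.cons 1211 (V.cons 13 (-8) (V.cons 43 2 V.nil)) (Q.cons 1242 (V.cons 10 302 V.nil) (Q.cons 1259 (V.cons 13 (-16) (V.cons 43 4 V.nil)) (Q.cons 1260 (V.cons 10 (-116) V.nil) (Q.cons 1266 (V.cons 10 116 V.nil) (Q.cons 1323 (V.cons 15 (-4) V.nil) (Q.cons 1326 (V.cons 10 66 V.nil) (Q.cons 1338 (V.cons 10 (-302) V.nil) (Q.cons 1386 (V.cons 10 (-346) V.nil) (Q.cons 1451 (V.cons 13 (-8) (V.cons 43 2 V.nil)) (Q.cons 1452 (V.cons 10 (-116) V.nil) (Q.cons 1482 (V.cons 10 (-544) V.nil) (Q.cons 1835 (V.cons 13 (-16) (V.cons 43 (-2) V.nil)) (Q.cons 2733 (V.cons 15 4 V.nil) (Q.cons 2735 (V.cons 43 6 V.nil) (Q.cons 3498 (V.cons 10 12 V.nil) (Q.cons 3755 (V.cons 43 (-6) V.nil) (Q.cons 3756 (V.cons 10 2 V.nil) (Q.cons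 5034 (V.cons 10 (-12) V.nil) (Q.cons 5802 (V.cons 10 (-12) V.nil) (Q.cons 7338 (V.cons 10 (-4) V.nil) (Q.cons 10926 (V.cons 10 (-6) V.nil) (Q.cons 15018 (V.cons 10 (-6) V.nil) Q.nil)))))))))))))))))))))))))))))))))))))))))))))))))))))))))))),
  (Q.cons 0 (V.cons 1396 12 (V.cons 22186 (-12) V.nil)) (Q.cons 3 (V.cons 1269 6 (V.cons 1341 2 (V.cons 1359 (-6) (V.cons 1395 (-22) (V.cons 1491 6 (V.cons 5295 6 (V.cons 5355 (-2) (V.cons 5547 22 (V.cons 20139 (-6) (V.cons 23211 (-6) V.nil)))))))))) (Q.cons 4 (V.cons 342 8 (V.cons 348 8 (V.cons 372 (-12) (V.cons 1206 (-4) (V.cons 1260 4 (V.cons 1326 (-8) (V.cons 1386 (-4) (V.cons 1452 4 (V.cons 1482 4 (V.cons 3498 (-8) (V.cons 5034 4 (V.cons 5802 4 V.nil)))))))))))) (Q.cons 9 (V.cons 339 (-2) (V.cons 1323 2 V.nil)) (Q.cons 10 (V.cons 342 (-16) (V.cons 348 16 (V.cons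 372 48 (V.cons 1206 12 (V.cons 1242 18 (V.cons 1260 (-10) (V.cons 1266 4 (V.cons 1326 8 (V.cons 1338 (-18) (V.cons 1386 (-20) (V.cons 1452 (-10) (V.cons 1482 (-32) (V.cons 3498 12 (V.cons 5034 (-6) (V.cons 5802 (-6) V.nil))))))))))))))) (Q.cons 13 (V.cons 221 4 (V.cons 245 (-4) (V.cons 311 (-6) (V.cons 317 (-10) (V.cons 335 2 (V.cons 347 (-2) (V.cons 365 (-10) (V.cons 371 6 (V.cons 875 (-4) (V.cons 971 4 (V.cons 1211 6 (V.cons 1259 10 (V.cons 1451 4 V.nil))))))))))))) (Q.cons 15 (V.cons 339 4 (V.cons 1323 (-4) V.nil)) (Q.cons 19 (V.cons 221 (-4) (V.cons 245 4 (V.cons 311 6 (V.cons 317 10 (V.cons 335 (-2) (V.cons 347 2 (V.cons 365 10 (V.cons 371 (-6) (V.cons 875 4 (V.cons 971 (-4) (V.cons 1211 (-6) (V.cons 1259 (-10) (V.cons 1451 (-4) V.nil))))))))))))) (Q.cons 22 (V.cons 330 (-2) V.nil) (Q.cons 25 (V.cons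 83 4 V.nil) (Q.cons 27 (V.cons 339 (-4) (V.cons 1323 4 V.nil)) (Q.cons 28 (V.cons 330 6 V.nil) (Q.cons 34 (V.cons 330 2 V.nil) (Q.cons 46 (V.cons 330 2 V.nil) (Q.cons 55 (V.cons 83 (-14) V.nil) (Q.cons 61 (V.cons 83 (-6) V.nil) (Q.cons 79 (V.cons 83 8 V.nil) (Q.cons 91 (V.cons 83 (-6) V.nil) (Q.cons 106 (V.cons 330 (-6) V.nil) (Q.cons 115 (V.cons 83 (-6) V.nil) (Q.cons 175 (V.cons 83 6 V.nil) (Q.cons 187 (V.cons 83 6 V.nil) (Q.cons 235 (V.cons 83 6 V.nil) (Q.cons 427 (V.cons 83 6 V.nil) Q.nil)))))))))))))))))))))))),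
  (Q.cons 4 (V.cons 348 (-4) (V.cons 372 (-2) (V.cons 1242 (-2) (V.cons 1338 2 (V.cons 1386 4 (V.cons 1482 2 V.nil)))))) (Q.cons 19 (V.cons 221 8 (V.cons 311 2 (V.cons 317 (-6) (V.cons 335 4 (V.cons 347 2 (V.cons 365 (-12) (V.cons 371 18 (V.cons 1199 (-6) (V.cons 1211 (-2) (V.cons 1259 (-2) (V.cons 1451 (-6) V.nil))))))))))) (Q.cons 20 (V.cons 302 (-4) (V.cons 362 4 V.nil)) (Q.cons 25 (V.cons 77 (-2) (V.cons 83 2 V.nil)) (Q.cons 74 (V.cons 86 (-2) (V.cons 92 6 (V.cons 98 2 (V.cons 302 6 (V.cons 362 (-10) V.nil))))) (Q.cons 77 (V.cons 25 2 (V.cons 79 (-4) (V.cons 91 4 V.nil))) (Q.cons 79 (V.cons 77 4 (V.cons 83 (-4) V.nil)) (Q.cons 83 (V.cons 25 (-2) (V.cons 79 4 (V.cons 91 (-4) V.nil))) (Q.cons 86 (V.cons 74 (-2) V.nil) (Q.cons 91 (V.cons 77 (-4) (V.cons 83 4 V.nil)) (Q.cons 92 (V.cons 74 6 V.nil) (Q.cons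 98 (V.cons 74 2 V.nil) (Q.cons 221 (V.cons 19 (-8) V.nil) (Q.cons 302 (V.cons 20 (-4) (V.cons 74 6 V.nil)) (Q.cons 311 (V.cons 19 (-2) V.nil) (Q.cons 317 (V.cons 19 6 V.nil) (Q.cons 335 (V.cons 19 (-4) V.nil) (Q.cons 347 (V.cons 19 (-2) V.nil) (Q.cons 362 (V.cons 20 4 (V.cons 74 (-10) V.nil)) (Q.cons 365 (V.cons 19 12 V.nil) (Q.cons 371 (V.cons 19 (-18) V.nil) (Q.cons 461 (V.cons 19 8 V.nil) (Q.cons 467 (V.cons 19 (-8) V.nil) (Q.cons 1199 (V.cons 19 6 V.nil) (Q.cons 1211 (V.cons 19 2 V.nil) (Q.cons 1259 (V.cons 19 2 V.nil) (Q.cons 1451 (V.cons 19 6 V.nil) Q.nil))))))))))))))))))))))))))),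
  (Q.cons 3 (V.cons 1341 3 (V.cons 1395 2 (V.cons 5355 (-3) (V.cons 5547 (-2) V.nil)))) (Q.cons 4 (V.cons 1338 1 V.nil) (Q.cons 10 (V.cons 342 (-1) (V.cons 1326 1 (V.cons 1338 (-1) V.nil))) (Q.cons 13 (V.cons 347 1 V.nil) (Q.cons 15 (V.cons 339 (-1) (V.cons 1323 1 V.nil)) (Q.cons 19 (V.cons 335 (-1) (V.cons 347 (-1) V.nil)) (Q.cons 20 (V.cons 86 1 V.nil) (Q.cons 22 (V.cons 330 1 V.nil) (Q.cons 43 (V.cons 335 1 V.nil) (Q.cons 46 (V.cons 330 (-1) V.nil) (Q.cons 55 (V.cons 83 1 V.nil) (Q.cons 58 (V.cons 84 (-1) (V.cons 330 1 V.nil)) (Q.cons 74 (V.cons 86 (-1) V.nil) (Q.cons 79 (V.cons 83 (-1) V.nil) (Q.cons 91 (V.cons 83 (-1) V.nil) (Q.cons 187 (V.cons 83 1 V.nil) (Q.cons 218 (V.cons 20 1 V.nil) (Q.cons 314 (V.cons 20 (-1) V.nil) Q.nil)))))))))))))))))),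
  (Q.cons 3 (V.cons 1395 1 (V.cons 5547 (-1) V.nil)) (Q.cons 4 (V.cons 342 (-3) (V.cons 348 (-7) (V.cons 978 1 (V.cons 1206 2 (V.cons 1242 (-2) (V.cons 1260 (-1) (V.cons 1266 (-1) (V.cons 1326 1 (V.cons 1338 2 (V.cons 1386 7 (V.cons 1452 (-1) (V.cons 1482 2 (V.cons 3498 3 (V.cons 5034 (-1) (V.cons 5802 (-1) V.nil))))))))))))))) (Q.cons 10 (V.cons 342 5 (V.cons 348 (-9) (V.cons 372 (-18) (V.cons 978 (-1) (V.cons 1206 (-4) (V.cons 1242 (-9) (V.cons 1260 3 (V.cons 1266 (-3) (V.cons 1326 (-1) (V.cons 1338 9 (V.cons 1386 9 (V.cons 1452 3 (V.cons 1482 15 V.nil))))))))))))) (Q.cons 13 (V.cons 971 1 V.nil) (Q.cons 19 (V.cons 245 (-2) V.nil) (Q.cons 20 (V.cons 242 1 V.nil) (Q.cons 43 (V.cons 245 1 V.nil) (Q.cons 74 (V.cons 242 (-1) V.nil) Q.nil)))))))),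
  (Q.cons 13 (V.cons 335 2 (V.cons 2735 (-1) V.nil)) (Q.cons 20 (V.cons 182 2 V.nil) (Q.cons 43 (V.cons 221 3 (V.cons 245 1 (V.cons 311 (-3) (V.cons 317 (-4) (V.cons 335 2 (V.cons 347 (-2) (V.cons 365 (-4) (V.cons 371 3 (V.cons 875 (-2) (V.cons 971 (-1) (V.cons 1211 2 (V.cons 1259 3 (V.cons 1451 1 V.nil))))))))))))) (Q.cons 44 (V.cons 686 (-1) V.nil) (Q.cons 55 (V.cons 83 2 (V.cons 683 (-1) V.nil)) (Q.cons 86 (V.cons 44 2 V.nil) (Q.cons 170 (V.cons 182 (-1) V.nil) (Q.cons 175 (V.cons 173 (-1) V.nil) (Q.cons 182 (V.cons 170 (-1) V.nil) (Q.cons 686 (V.cons 44 (-1) V.nil) Q.nil)))))))))),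
  (Q.cons 25 (V.cons 83 (-2) (V.cons 683 1 V.nil)) (Q.cons 55 (V.cons 83 4 (V.cons 173 1 (V.cons 683 (-2) V.nil))) (Q.cons 61 (V.cons 173 1 V.nil) (Q.cons 79 (V.cons 83 (-4) (V.cons 173 (-1) (V.cons 683 2 V.nil))) (Q.cons 86 (V.cons 44 (-2) V.nil) (Q.cons 91 (V.cons 173 1 V.nil) (Q.cons 92 (V.cons 170 2 V.nil) (Q.cons 98 (V.cons 44 (-2) (V.cons 170 1 V.nil)) (Q.cons 109 (V.cons 83 4 (V.cons 173 1 (V.cons 683 (-2) V.nil))) (Q.cons 115 (V.cons 83 (-4) (V.cons 173 1 (V.cons 683 2 V.nil))) (Q.cons 116 (V.cons 44 8 (V.cons 170 2 V.nil)) (Q.cons 182 (V.cons 44 1 V.nil) (Q.cons 187 (V.cons 173 (-1) V.nil) (Q.cons 218 (V.cons 44 5 V.nil) (Q.cons 235 (V.cons 173 (-1) V.nil) (Q.cons 236 (V.cons 44 (-1) V.nil) (Q.cons 242 (V.cons 44 1 V.nil) (Q.cons 302 (V.cons 44 1 V.nil) (Q.cons 314 (V.cons 44 (-5) V.nil) (Q.cons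 362 (V.cons 170 (-2) V.nil) (Q.cons 371 (V.cons 43 (-2) V.nil) (Q.cons 427 (V.cons 173 (-2) V.nil) (Q.cons 428 (V.cons 44 (-1) (V.cons 170 (-2) V.nil)) (Q.cons 458 (V.cons 44 (-5) V.nil) (Q.cons 467 (V.cons 43 (-2) V.nil) (Q.cons 875 (V.cons 43 (-2) V.nil) (Q.cons 1259 (V.cons 43 2 V.nil) (Q.cons 1451 (V.cons 43 2 V.nil) (Q.cons 1706 (V.cons 44 (-2) V.nil) (Q.cons 1835 (V.cons 43 2 V.nil) Q.nil)))))))))))))))))))))))))))))),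
  (Q.cons 43 (V.cons 221 (-2) (V.cons 311 2 (V.cons 317 2 (V.cons 335 (-2) (V.cons 347 1 (V.cons 365 2 (V.cons 371 (-1) (V.cons 875 2 (V.cons 1211 (-1) (V.cons 1259 (-2) (V.cons 1451 (-1) V.nil))))))))))) (Q.cons 44 (V.cons 86 3 (V.cons 182 (-1) (V.cons 218 3 (V.cons 236 2 (V.cons 242 (-1) (V.cons 302 (-2) (V.cons 314 (-2) (V.cons 938 (-1) V.nil)))))))) (Q.cons 83 (V.cons 55 (-2) (V.cons 175 1 (V.cons 187 (-1) V.nil))) (Q.cons 86 (V.cons 20 (-3) (V.cons 44 3 V.nil)) (Q.cons 116 (V.cons 20 3 (V.cons 44 (-3) V.nil)) (Q.cons 170 (V.cons 86 1 (V.cons 182 (-1) (V.cons 218 (-1) V.nil))) (Q.cons 173 (V.cons 187 1 V.nil) (Q.cons 182 (V.cons 20 3 (V.cons 44 (-1) (V.cons 170 (-1) V.nil))) (Q.cons 218 (V.cons 20 (-1) (V.cons 44 1 V.nil)) (Q.cons 221 (V.cons 13 (-9) (V.cons 43 (-1) V.nil)) (Q.cons 236 (V.cons 20 (-2)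 (V.cons 44 2 V.nil)) (Q.cons 242 (V.cons 20 1 (V.cons 44 (-1) V.nil)) (Q.cons 245 (V.cons 43 (-1) V.nil) (Q.cons 302 (V.cons 20 2 (V.cons 44 (-2) V.nil)) (Q.cons 311 (V.cons 13 9 (V.cons 43 1 V.nil)) (Q.cons 314 (V.cons 20 2 (V.cons 44 (-2) V.nil)) (Q.cons 317 (V.cons 13 8 (V.cons 43 2 V.nil)) (Q.cons 335 (V.cons 13 (-9) (V.cons 43 (-1) V.nil)) (Q.cons 342 (V.cons 10 (-1) V.nil) (Q.cons 347 (V.cons 13 6 (V.cons 43 2 V.nil)) (Q.cons 348 (V.cons 10 8 V.nil) (Q.cons 365 (V.cons 13 8 (V.cons 43 2 V.nil)) (Q.cons 371 (V.cons 13 (-3) (V.cons 43 (-2) V.nil)) (Q.cons 372 (V.cons 10 9 V.nil) (Q.cons 428 (V.cons 20 (-2) (V.cons 44 2 V.nil)) (Q.cons 458 (V.cons 20 (-1) (V.cons 44 1 V.nil)) (Q.cons 461 (V.cons 13 3 (V.cons 43 2 V.nil)) (Q.cons 467 (V.cons 13 6 (V.cons 43 (-3) V.nil)) (Q.cons 468 (V.cons 10 (-2) V.nil)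 (Q.cons 683 (V.cons 55 1 V.nil) (Q.cons 686 (V.cons 20 (-1) V.nil) (Q.cons 875 (V.cons 13 13 V.nil) (Q.cons 938 (V.cons 20 1 (V.cons 44 (-1) V.nil)) (Q.cons 971 (V.cons 13 1 (V.cons 43 1 V.nil)) (Q.cons 1211 (V.cons 13 (-7) (V.cons 43 (-1) V.nil)) (Q.cons 1242 (V.cons 10 4 V.nil) (Q.cons 1259 (V.cons 13 (-12) (V.cons 43 (-1) V.nil)) (Q.cons 1260 (V.cons 10 (-1) V.nil) (Q.cons 1266 (V.cons 10 2 V.nil) (Q.cons 1326 (V.cons 10 1 V.nil) (Q.cons 1338 (V.cons 10 (-4) V.nil) (Q.cons 1386 (V.cons 10 (-8) V.nil) (Q.cons 1451 (V.cons 13 (-5) V.nil) (Q.cons 1452 (V.cons 10 (-1) V.nil) (Q.cons 1482 (V.cons 10 (-8) V.nil) (Q.cons 1835 (V.cons 13 (-9) (V.cons 43 1 V.nil)) (Q.cons 3498 (V.cons 10 (-1) V.nil) (Q.cons 3755 (V.cons 13 (-1) V.nil) (Q.cons 7338 (V.cons 10 2 V.nil) Q.nil)))))))))))))))))))))))))))))))))))))))))))))))))]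

def lits8_3_4 : List Q := [
  (Q.cons 236 (V.cons 20 2 (V.cons 170 (-1) V.nil)) (Q.cons 245 (V.cons 13 (-2) V.nil) (Q.cons 938 (V.cons 44 (-1) V.nil) (Q.cons 941 (V.cons 43 1 V.nil) (Q.cons 3755 (V.cons 13 1 V.nil) Q.nil))))),
  (Q.cons 20 (V.cons 86 1 (V.cons 302 (-1) V.nil)) (Q.cons 83 (V.cons 55 (-1) (V.cons 79 2 (V.cons 175 (-1) V.nil))) (Q.cons 84 (V.cons 46 (-1) V.nil) (Q.cons 86 (V.cons 20 1 (V.cons 74 (-1) V.nil)) (Q.cons 330 (V.cons 22 1 V.nil) (Q.cons 335 (V.cons 13 (-1) (V.cons 19 2 (V.cons 43 (-1) V.nil))) (Q.cons 339 (V.cons 15 1 V.nil) (Q.cons 342 (V.cons 10 (-1) V.nil) (Q.cons 1323 (V.cons 15 (-1) V.nil) (Q.cons 1326 (V.cons 4 1 V.nil) (Q.cons 1359 (V.cons 3 1 V.nil) (Q.cons 5295 (V.cons 3 (-1) V.nil) Q.nil)))))))))))),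
  (Q.cons 938 (V.cons 20 1 (V.cons 74 (-1) V.nil)) (Q.cons 941 (V.cons 19 2 (V.cons 43 (-1) V.nil)) (Q.cons 978 (V.cons 4 2 V.nil) (Q.cons 3755 (V.cons 13 (-1) V.nil) (Q.cons 3756 (V.cons 10 (-1) V.nil) (Q.cons 15018 (V.cons 4 (-1) V.nil) Q.nil)))))),
  (Q.cons 3 (V.cons 1269 (-2) (V.cons 1341 (-14) (V.cons 1359 2 (V.cons 1395 (-10) (V.cons 1491 (-2) (V.cons 5295 (-2) (V.cons 5355 14 (V.cons 5547 10 (V.cons 20139 2 (V.cons 23211 2 V.nil)))))))))) (Q.cons 10 (V.cons 342 (-14) (V.cons 348 34 (V.cons 372 54 (V.cons 1206 12 (V.cons 1242 28 (V.cons 1260 (-8) (V.cons 1266 10 (V.cons 1326 2 (V.cons 1338 (-28) (V.cons 1386 (-34) (V.cons 1452 (-8) (V.cons 1482 (-46) (V.cons 3498 (-2) V.nil))))))))))))) (Q.cons 13 (V.cons 221 (-4) (V.cons 245 3 (V.cons 311 4 (V.cons 317 6 (V.cons 335 (-6) (V.cons 347 2 (V.cons 365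 6 (V.cons 371 (-5) (V.cons 875 1 (V.cons 941 (-2) (V.cons 971 (-1) (V.cons 1211 (-2) (V.cons 1259 (-3) (V.cons 1451 (-1) (V.cons 2735 2 V.nil))))))))))))))) (Q.cons 19 (V.cons 221 4 (V.cons 245 (-3) (V.cons 311 (-4) (V.cons 317 (-6) (V.cons 335 6 (V.cons 347 (-2) (V.cons 365 (-6) (V.cons 371 5 (V.cons 875 (-1) (V.cons 941 2 (V.cons 971 1 (V.cons 1211 2 (V.cons 1259 3 (V.cons 1451 1 (V.cons 2735 (-2) V.nil))))))))))))))) (Q.cons 22 (V.cons 330 (-2) (V.cons 684 2 V.nil)) (Q.cons 28 (V.cons 330 (-2) (V.cons 684 2 V.nil)) (Q.cons 34 (V.cons 330 (-1) (V.cons 684 1 V.nil)) (Q.cons 44 (V.cons 86 4 (V.cons 182 (-1) (V.cons 218 1 (V.cons 236 (-1) (V.cons 242 1 (V.cons 302 (-1) (V.cons 314 (-1) (V.cons 686 (-2) V.nil)))))))) (Q.cons 46 (V.cons 330 2 (V.cons 684 (-2) V.nil)) (Q.cons 55 (V.cons 83 (-1) (V.cons 173 1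 V.nil)) (Q.cons 61 (V.cons 83 (-1) (V.cons 173 1 V.nil)) (Q.cons 74 (V.cons 86 (-4) (V.cons 182 1 (V.cons 218 (-1) (V.cons 236 1 (V.cons 242 (-1) (V.cons 302 1 (V.cons 314 1 (V.cons 686 2 V.nil)))))))) (Q.cons 79 (V.cons 83 (-1) (V.cons 173 1 V.nil)) (Q.cons 91 (V.cons 83 (-1) (V.cons 173 1 V.nil)) (Q.cons 92 (V.cons 170 2 V.nil) (Q.cons 106 (V.cons 330 2 (V.cons 684 (-2) V.nil)) (Q.cons 109 (V.cons 83 1 (V.cons 173 (-1) V.nil)) (Q.cons 115 (V.cons 83 (-1) (V.cons 173 1 V.nil)) (Q.cons 116 (V.cons 170 4 V.nil) (Q.cons 175 (V.cons 83 2 (V.cons 173 (-2) V.nil)) (Q.cons 182 (V.cons 170 2 V.nil) (Q.cons 187 (V.cons 83 1 (V.cons 173 (-1) V.nil)) (Q.cons 218 (V.cons 170 2 V.nil) (Q.cons 221 (V.cons 43 2 V.nil) (Q.cons 235 (V.cons 83 1 (V.cons 173 (-1) V.nil)) (Q.cons 245 (V.cons 43 2 V.nil) (Q.cons 302 (V.cons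 170 (-2) V.nil) (Q.cons 314 (V.cons 170 (-2) V.nil) (Q.cons 317 (V.cons 43 2 V.nil) (Q.cons 335 (V.cons 43 2 V.nil) (Q.cons 347 (V.cons 43 2 V.nil) (Q.cons 362 (V.cons 170 (-2) V.nil) (Q.cons 458 (V.cons 170 (-4) V.nil) (Q.cons 461 (V.cons 43 2 V.nil) (Q.cons 467 (V.cons 43 (-4) V.nil) (Q.cons 875 (V.cons 43 (-2) V.nil) (Q.cons 971 (V.cons 43 (-2) V.nil) (Q.cons 1199 (V.cons 43 (-2) V.nil) (Q.cons 1211 (V.cons 43 (-2) V.nil) (Q.cons 1259 (V.cons 43 (-2) V.nil) (Q.cons 1835 (V.cons 43 2 V.nil) Q.nil))))))))))))))))))))))))))))))))))))))))),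
  (Q.cons 3 (V.cons 1341 3 (V.cons 1359 (-1) (V.cons 1395 2 (V.cons 5295 1 (V.cons 5355 (-3) (V.cons 5547 (-2) V.nil)))))) (Q.cons 10 (V.cons 372 (-1) (V.cons 1452 1 V.nil)) (Q.cons 13 (V.cons 1451 (-1) V.nil) (Q.cons 19 (V.cons 1451 1 V.nil) (Q.cons 20 (V.cons 362 (-1) V.nil) (Q.cons 43 (V.cons 365 1 (V.cons 371 (-1) V.nil)) (Q.cons 44 (V.cons 362 1 V.nil) (Q.cons 83 (V.cons 91 (-1) V.nil) (Q.cons 299 (V.cons 91 1 V.nil) Q.nil))))))))),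
  (Q.cons 235 (V.cons 83 (-1) (V.cons 173 1 V.nil)) (Q.cons 236 (V.cons 170 1 V.nil) (Q.cons 242 (V.cons 170 (-1) V.nil) (Q.cons 245 (V.cons 43 (-1) V.nil) (Q.cons 342 (V.cons 10 (-3) V.nil) (Q.cons 348 (V.cons 10 (-7) V.nil) (Q.cons 468 (V.cons 10 3 V.nil) (Q.cons 938 (V.cons 20 1 (V.cons 44 (-1) V.nil)) (Q.cons 941 (V.cons 43 1 V.nil) (Q.cons 1206 (V.cons 10 2 V.nil) (Q.cons 1242 (V.cons 10 (-2) V.nil) (Q.cons 1260 (V.cons 10 (-1) V.nil) (Q.cons 1266 (V.cons 10 (-1) V.nil) (Q.cons 1326 (V.cons 10 1 V.nil) (Q.cons 1338 (V.cons 10 2 V.nil) (Q.cons 1386 (V.cons 10 7 V.nil) (Q.cons 1452 (V.cons 10 (-1) V.nil) (Q.cons 1482 (V.cons 10 2 V.nil) (Q.cons 3498 (V.cons 10 3 V.nil) (Q.cons 5034 (V.cons 10 (-1) V.nil) (Q.cons 5802 (V.cons 10 (-1) V.nil) (Q.cons 7338 (V.cons 10 (-3) V.nil) Q.nil)))))))))))))))))))))),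
  (Q.cons 55 (V.cons 83 (-1) (V.cons 299 1 V.nil)) (Q.cons 61 (V.cons 83 (-1) (V.cons 299 1 V.nil)) (Q.cons 79 (V.cons 83 1 (V.cons 299 (-1) V.nil)) (Q.cons 86 (V.cons 20 (-2) (V.cons 44 2 V.nil)) (Q.cons 91 (V.cons 83 (-1) (V.cons 299 1 V.nil)) (Q.cons 109 (V.cons 83 (-1) (V.cons 299 1 V.nil)) (Q.cons 115 (V.cons 83 (-1) (V.cons 299 1 V.nil)) (Q.cons 116 (V.cons 20 4 (V.cons 44 (-4) V.nil)) (Q.cons 182 (V.cons 20 1 (V.cons 44 (-1) V.nil)) (Q.cons 187 (V.cons 83 1 (V.cons 299 (-1) V.nil)) (Q.cons 218 (V.cons 20 1 (V.cons 44 (-1) V.nil)) (Q.cons 221 (V.cons 13 (-2) (V.cons 19 2 (V.cons 43 4 V.nil))) (Q.cons 235 (V.cons 83 1 (V.cons 299 (-1) V.nil)) (Q.cons 236 (V.cons 20 (-1) (V.cons 44 1 V.nil)) (Q.cons 242 (V.cons 20 1 (V.cons 44 (-1) V.nil)) (Q.cons 245 (V.cons 13 1 (V.cons 19 (-1) V.nil)) (Q.cons 302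 (V.cons 20 1 (V.cons 44 (-1) V.nil)) (Q.cons 311 (V.cons 13 2 (V.cons 19 (-2) (V.cons 43 (-2) V.nil))) (Q.cons 314 (V.cons 20 (-1) (V.cons 44 1 V.nil)) (Q.cons 317 (V.cons 13 2 (V.cons 19 (-2) (V.cons 43 (-4) V.nil))) (Q.cons 335 (V.cons 13 (-2) (V.cons 19 2 (V.cons 43 2 V.nil))) (Q.cons 342 (V.cons 10 6 V.nil) (Q.cons 347 (V.cons 13 2 (V.cons 19 (-2) V.nil)) (Q.cons 348 (V.cons 10 (-12) V.nil) (Q.cons 365 (V.cons 13 2 (V.cons 19 (-2) (V.cons 43 (-2) V.nil))) (Q.cons 371 (V.cons 13 (-1) (V.cons 19 1 (V.cons 43 2 V.nil))) (Q.cons 372 (V.cons 10 (-24) V.nil) (Q.cons 427 (V.cons 83 2 (V.cons 299 (-2) V.nil)) (Q.cons 428 (V.cons 20 (-1) (V.cons 44 1 V.nil)) (Q.cons 458 (V.cons 20 (-1) (V.cons 44 1 V.nil)) (Q.cons 461 (V.cons 13 1 (V.cons 19 (-1) (V.cons 43 (-2) V.nil))) (Q.cons 467 (V.cons 13 (-2) (V.cons 19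 2 (V.cons 43 4 V.nil))) (Q.cons 468 (V.cons 10 (-2) V.nil) (Q.cons 875 (V.cons 13 1 (V.cons 19 (-1) V.nil)) (Q.cons 971 (V.cons 13 (-1) (V.cons 19 1 V.nil)) (Q.cons 1206 (V.cons 10 (-4) V.nil) (Q.cons 1211 (V.cons 13 (-2) (V.cons 19 2 V.nil)) (Q.cons 1242 (V.cons 10 (-12) V.nil) (Q.cons 1259 (V.cons 13 (-1) (V.cons 19 1 V.nil)) (Q.cons 1260 (V.cons 10 6 V.nil) (Q.cons 1266 (V.cons 10 (-6) V.nil) (Q.cons 1326 (V.cons 10 (-2) V.nil) (Q.cons 1338 (V.cons 10 12 V.nil) (Q.cons 1386 (V.cons 10 12 V.nil) (Q.cons 1451 (V.cons 13 (-1) (V.cons 19 1 V.nil)) (Q.cons 1452 (V.cons 10 4 V.nil) (Q.cons 1482 (V.cons 10 20 V.nil) (Q.cons 1706 (V.cons 20 (-2) (V.cons 44 2 V.nil)) (Q.cons 1709 (V.cons 43 (-2) V.nil) (Q.cons 1835 (V.cons 13 (-1) (V.cons 19 1 V.nil)) (Q.cons 6827 (V.cons 13 2 (V.cons 19 (-2) V.nil)) (Q.cons 6828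 (V.cons 10 2 V.nil) Q.nil)))))))))))))))))))))))))))))))))))))))))))))))))))),
  (Q.cons 43 (V.cons 221 (-16) (V.cons 245 2 (V.cons 311 16 (V.cons 317 12 (V.cons 335 (-16) (V.cons 347 16 (V.cons 365 12 (V.cons 371 (-2) (V.cons 875 30 (V.cons 971 2 (V.cons 1211 (-16) (V.cons 1259 (-26) (V.cons 1451 (-10) (V.cons 3755 (-4) V.nil)))))))))))))) (Q.cons 44 (V.cons 86 12 (V.cons 182 (-4) (V.cons 218 4 (V.cons 236 8 (V.cons 242 (-4) (V.cons 302 (-8) (V.cons 314 (-8) (V.cons 938 (-4) V.nil)))))))) (Q.cons 46 (V.cons 330 (-4) (V.cons 2730 4 V.nil)) (Q.cons 55 (V.cons 683 2 V.nil) (Q.cons 61 (V.cons 683 2 V.nil) (Q.cons 79 (V.cons 683 2 V.nil) (Q.cons 83 (V.cons 175 4 V.nil) (Q.cons 86 (V.cons 170 8 V.nil) (Q.cons 91 (V.cons 683 2 V.nil) (Q.cons 109 (V.cons 683 (-2) V.nil) (Q.cons 115 (V.cons 683 2 V.nil) (Q.cons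 116 (V.cons 170 (-8) V.nil) (Q.cons 170 (V.cons 86 (-20) (V.cons 182 6 (V.cons 218 (-6) (V.cons 236 (-6) (V.cons 242 2 (V.cons 302 10 (V.cons 314 10 (V.cons 686 4 (V.cons 938 4 V.nil))))))))) (Q.cons 175 (V.cons 683 (-4) V.nil) (Q.cons 182 (V.cons 170 (-2) V.nil) (Q.cons 187 (V.cons 173 4 (V.cons 683 (-6) V.nil)) (Q.cons 218 (V.cons 170 6 V.nil) (Q.cons 235 (V.cons 683 (-2) V.nil) (Q.cons 236 (V.cons 170 6 V.nil) (Q.cons 242 (V.cons 170 (-2) V.nil) (Q.cons 302 (V.cons 170 (-6) V.nil) (Q.cons 314 (V.cons 170 (-6) V.nil) (Q.cons 428 (V.cons 170 6 V.nil) (Q.cons 458 (V.cons 170 2 V.nil) (Q.cons 683 (V.cons 175 (-4) V.nil) (Q.cons 938 (V.cons 170 (-4) V.nil) Q.nil)))))))))))))))))))))))))),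
  (Q.cons 43 (V.cons 221 2 (V.cons 245 (-1) (V.cons 371 (-1) (V.cons 875 (-1) (V.cons 971 1 (V.cons 1259 (-1) (V.cons 1451 1 V.nil))))))) (Q.cons 86 (V.cons 20 (-16) (V.cons 44 (-12) (V.cons 74 28 V.nil))) (Q.cons 116 (V.cons 20 8 (V.cons 44 12 (V.cons 74 (-20) V.nil))) (Q.cons 170 (V.cons 86 10 (V.cons 92 (-4) (V.cons 98 (-6) (V.cons 182 (-2) (V.cons 218 10 (V.cons 236 8 (V.cons 242 (-2) (V.cons 302 (-8) (V.cons 314 (-10) (V.cons 362 4 (V.cons 938 (-6) V.nil))))))))))) (Q.cons 173 (V.cons 91 (-4) V.nil) (Q.cons 175 (V.cons 83 4 (V.cons 299 (-4) V.nil)) (Q.cons 182 (V.cons 20 4 (V.cons 44 4 (V.cons 74 (-8) V.nil))) (Q.cons 218 (V.cons 20 (-4) (V.cons 44 (-4) (V.cons 74 8 V.nil))) (Q.cons 221 (V.cons 13 32 (V.cons 19 (-48) (V.cons 43 20 V.nil))) (Q.cons 236 (V.cons 20 4 (V.cons 44 (-8) (V.cons 74 4 V.nil)))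 (Q.cons 242 (V.cons 20 (-4) (V.cons 44 4 V.nil)) (Q.cons 245 (V.cons 13 (-4) (V.cons 19 4 (V.cons 43 8 V.nil))) (Q.cons 302 (V.cons 20 4 (V.cons 44 8 (V.cons 74 (-12) V.nil))) (Q.cons 311 (V.cons 13 (-32) (V.cons 19 48 (V.cons 43 (-20) V.nil))) (Q.cons 314 (V.cons 20 4 (V.cons 44 8 (V.cons 74 (-12) V.nil))) (Q.cons 317 (V.cons 13 (-24) (V.cons 19 40 (V.cons 43 (-36) V.nil))) (Q.cons 330 (V.cons 22 (-4) V.nil) (Q.cons 335 (V.cons 13 32 (V.cons 19 (-52) (V.cons 43 18 V.nil))) (Q.cons 342 (V.cons 4 (-4) (V.cons 10 300 V.nil)) (Q.cons 347 (V.cons 13 (-32) (V.cons 19 40 (V.cons 43 (-2) V.nil))) (Q.cons 348 (V.cons 4 (-4) (V.cons 10 (-526) V.nil)) (Q.cons 365 (V.cons 13 (-24) (V.cons 19 40 (V.cons 43 (-36) V.nil))) (Q.cons 371 (V.cons 13 4 (V.cons 19 (-12) (V.cons 43 34 V.nil))) (Q.cons 372 (V.cons 4 16 (V.cons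 10 (-1042) V.nil)) (Q.cons 428 (V.cons 20 (-4) (V.cons 44 (-8) (V.cons 74 12 V.nil))) (Q.cons 458 (V.cons 20 (-4) (V.cons 44 (-4) (V.cons 74 8 V.nil))) (Q.cons 461 (V.cons 13 (-4) (V.cons 19 12 (V.cons 43 (-34) V.nil))) (Q.cons 467 (V.cons 13 (-32) (V.cons 19 40 (V.cons 43 36 V.nil))) (Q.cons 468 (V.cons 4 4 (V.cons 10 (-2) V.nil)) (Q.cons 683 (V.cons 25 4 (V.cons 55 (-3) (V.cons 61 (-3) (V.cons 79 (-3) (V.cons 91 (-5) (V.cons 175 6 (V.cons 187 9 (V.cons 235 3 V.nil)))))))) (Q.cons 686 (V.cons 20 8 (V.cons 74 (-8) V.nil)) (Q.cons 875 (V.cons 13 (-60) (V.cons 19 80 (V.cons 43 8 V.nil))) (Q.cons 938 (V.cons 44 4 (V.cons 74 (-4) V.nil)) (Q.cons 941 (V.cons 19 (-4) (V.cons 43 6 V.nil)) (Q.cons 971 (V.cons 13 (-4) (V.cons 19 8 (V.cons 43 (-8) V.nil))) (Q.cons 978 (V.cons 10 (-4) V.nil) (Q.cons 1206 (V.cons 10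 (-192) V.nil) (Q.cons 1211 (V.cons 13 32 (V.cons 19 (-40) (V.cons 43 2 V.nil))) (Q.cons 1242 (V.cons 10 (-444) V.nil) (Q.cons 1259 (V.cons 13 52 (V.cons 19 (-68) (V.cons 43 4 V.nil))) (Q.cons 1260 (V.cons 4 (-4) (V.cons 10 176 V.nil)) (Q.cons 1266 (V.cons 4 4 (V.cons 10 (-182) V.nil)) (Q.cons 1269 (V.cons 3 (-12) V.nil) (Q.cons 1326 (V.cons 4 4 (V.cons 10 (-114) V.nil)) (Q.cons 1338 (V.cons 4 (-4) (V.cons 10 448 V.nil)) (Q.cons 1341 (V.cons 3 (-392) V.nil) (Q.cons 1359 (V.cons 3 88 V.nil) (Q.cons 1386 (V.cons 4 4 (V.cons 10 526 V.nil)) (Q.cons 1395 (V.cons 3 (-332) V.nil) (Q.cons 1451 (V.cons 13 20 (V.cons 19 (-28) (V.cons 43 2 V.nil))) (Q.cons 1452 (V.cons 4 (-4) (V.cons 10 176 V.nil)) (Q.cons 1482 (V.cons 4 (-8) (V.cons 10 836 V.nil)) (Q.cons 1491 (V.cons 3 (-12) V.nil) (Q.cons 1835 (V.cons 13 36 (V.cons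 19 (-52) (V.cons 43 (-2) V.nil))) (Q.cons 1875 (V.cons 3 28 V.nil) (Q.cons 2730 (V.cons 22 (-2) (V.cons 46 6 V.nil)) (Q.cons 2735 (V.cons 43 6 V.nil) (Q.cons 3498 (V.cons 4 8 (V.cons 10 (-28) V.nil)) (Q.cons 3755 (V.cons 13 8 (V.cons 19 (-8) (V.cons 43 (-6) V.nil))) (Q.cons 3756 (V.cons 10 (-2) V.nil) (Q.cons 5034 (V.cons 4 (-4) (V.cons 10 30 V.nil)) (Q.cons 5295 (V.cons 3 (-88) V.nil) (Q.cons 5355 (V.cons 3 392 V.nil) (Q.cons 5547 (V.cons 3 332 V.nil) (Q.cons 5802 (V.cons 4 (-4) (V.cons 10 30 V.nil)) (Q.cons 7338 (V.cons 4 (-4) (V.cons 10 2 V.nil)) (Q.cons 10926 (V.cons 10 6 V.nil) (Q.cons 15018 (V.cons 10 6 V.nil) (Q.cons 20139 (V.cons 3 12 V.nil) (Q.cons 23211 (V.cons 3 12 V.nil) (Q.cons 29355 (V.cons 3 (-28) V.nil) Q.nil))))))))))))))))))))))))))))))))))))))))))))))))))))))))))))))))))))))),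
  (Q.cons 3 (V.cons 1341 33 (V.cons 1359 (-6) (V.cons 1395 26 (V.cons 5295 6 (V.cons 5355 (-33) (V.cons 5547 (-26) V.nil)))))) (Q.cons 4 (V.cons 342 (-4) (V.cons 348 20 (V.cons 372 33 (V.cons 978 (-1) (V.cons 1206 2 (V.cons 1242 17 (V.cons 1260 (-4) (V.cons 1266 4 (V.cons 1326 2 (V.cons 1338 (-17) (V.cons 1386 (-20) (V.cons 1452 (-4) (V.cons 1482 (-28) (V.cons 3756 1 V.nil)))))))))))))) (Q.cons 10 (V.cons 342 2 (V.cons 348 (-5) (V.cons 372 (-11) (V.cons 1206 (-1) (V.cons 1242 (-5) (V.cons 1260 1 (V.cons 1266 (-1) (V.cons 1326 (-1) (V.cons 1338 5 (V.cons 1386 5 (V.cons 1452 1 (V.cons 1482 9 V.nil)))))))))))) (Q.cons 13 (V.cons 221 4 (V.cons 245 1 (V.cons 311 (-4) (V.cons 317 (-4) (V.cons 335 4 (V.cons 347 (-2) (V.cons 365 (-4) (V.cons 371 2 (V.cons 875 (-3) (V.cons 971 (-1) (V.cons 1211 2 (V.cons 1259 3 (V.cons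 1451 1 V.nil))))))))))))) (Q.cons 19 (V.cons 221 (-3) (V.cons 245 1 (V.cons 311 3 (V.cons 317 4 (V.cons 335 (-3) (V.cons 347 1 (V.cons 365 4 (V.cons 371 (-3) (V.cons 941 (-1) (V.cons 1211 (-1) (V.cons 1259 (-1) V.nil))))))))))) (Q.cons 20 (V.cons 86 2 (V.cons 182 (-3) (V.cons 218 (-2) (V.cons 236 (-3) (V.cons 242 2 (V.cons 302 1 (V.cons 314 2 (V.cons 362 1 (V.cons 938 1 V.nil))))))))) (Q.cons 44 (V.cons 86 (-2) (V.cons 182 2 (V.cons 218 1 (V.cons 236 1 (V.cons 242 (-1) (V.cons 314 (-1) (V.cons 362 (-1) V.nil))))))) (Q.cons 77 (V.cons 187 1 V.nil) (Q.cons 83 (V.cons 187 (-1) V.nil) Q.nil)))))))))]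

def lits8_3_5 : List Q := [
  (Q.cons 28 (V.cons 84 2 (V.cons 300 (-1) V.nil)) (Q.cons 106 (V.cons 84 (-1) V.nil) (Q.cons 109 (V.cons 83 (-1) V.nil) (Q.cons 115 (V.cons 77 1 V.nil) (Q.cons 116 (V.cons 20 2 (V.cons 74 (-1) V.nil)) (Q.cons 428 (V.cons 20 (-1) V.nil) (Q.cons 461 (V.cons 19 1 V.nil) (Q.cons 467 (V.cons 19 (-1) V.nil) Q.nil)))))))),
  (Q.cons 58 (V.cons 84 1 (V.cons 330 (-1) V.nil)) (Q.cons 61 (V.cons 83 2 (V.cons 173 (-1) V.nil)) (Q.cons 235 (V.cons 83 (-1) V.nil) (Q.cons 236 (V.cons 20 1 V.nil) (Q.cons 242 (V.cons 44 (-1) V.nil) (Q.cons 245 (V.cons 13 2 (V.cons 43 (-1) V.nil)) (Q.cons 342 (V.cons 10 5 V.nil) (Q.cons 348 (V.cons 10 (-9) V.nil) (Q.cons 372 (V.cons 10 (-18) V.nil) (Q.cons 941 (V.cons 13 (-1) V.nil) (Q.cons 1206 (V.cons 10 (-4) V.nil) (Q.cons 1242 (V.cons 10 (-9) V.nil) (Q.cons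 1260 (V.cons 10 3 V.nil) (Q.cons 1266 (V.cons 10 (-3) V.nil) (Q.cons 1326 (V.cons 10 (-1) V.nil) (Q.cons 1338 (V.cons 10 9 V.nil) (Q.cons 1386 (V.cons 10 9 V.nil) (Q.cons 1452 (V.cons 10 3 V.nil) (Q.cons 1482 (V.cons 10 15 V.nil) Q.nil))))))))))))))))))),
  (Q.cons 55 (V.cons 77 1 (V.cons 83 (-1) V.nil)) (Q.cons 61 (V.cons 77 1 (V.cons 83 (-1) V.nil)) (Q.cons 79 (V.cons 77 (-1) (V.cons 83 1 V.nil)) (Q.cons 86 (V.cons 20 (-2) V.nil) (Q.cons 91 (V.cons 77 1 (V.cons 83 (-1) V.nil)) (Q.cons 92 (V.cons 20 (-4) (V.cons 44 2 V.nil)) (Q.cons 98 (V.cons 20 (-2) (V.cons 44 1 V.nil)) (Q.cons 109 (V.cons 77 1 (V.cons 83 (-1) V.nil)) (Q.cons 115 (V.cons 77 1 (V.cons 83 (-1) V.nil)) (Q.cons 116 (V.cons 44 2 V.nil) (Q.cons 182 (V.cons 20 1 V.nil) (Q.cons 187 (V.cons 77 (-1) (V.cons 83 1 V.nil)) (Q.cons 218 (V.cons 20 1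 V.nil) (Q.cons 221 (V.cons 19 4 V.nil) (Q.cons 235 (V.cons 77 (-1) (V.cons 83 1 V.nil)) (Q.cons 236 (V.cons 20 (-1) V.nil) (Q.cons 242 (V.cons 20 1 V.nil) (Q.cons 302 (V.cons 20 1 V.nil) (Q.cons 311 (V.cons 13 1 (V.cons 19 (-3) V.nil)) (Q.cons 314 (V.cons 20 (-1) V.nil) (Q.cons 317 (V.cons 13 1 (V.cons 19 (-5) V.nil)) (Q.cons 335 (V.cons 13 (-1) (V.cons 19 3 V.nil)) (Q.cons 342 (V.cons 4 (-8) (V.cons 10 2 V.nil)) (Q.cons 347 (V.cons 13 1 (V.cons 19 (-1) V.nil)) (Q.cons 348 (V.cons 4 12 V.nil) (Q.cons 362 (V.cons 20 4 (V.cons 44 (-2) V.nil)) (Q.cons 365 (V.cons 13 1 (V.cons 19 (-3) V.nil)) (Q.cons 371 (V.cons 13 (-1) (V.cons 19 3 V.nil)) (Q.cons 372 (V.cons 4 28 (V.cons 10 (-4) V.nil)) (Q.cons 427 (V.cons 77 (-2) (V.cons 83 2 V.nil)) (Q.cons 428 (V.cons 20 3 (V.cons 44 (-2) V.nil)) (Q.cons 458 (V.cons 20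 (-1) V.nil) (Q.cons 461 (V.cons 19 (-2) V.nil) (Q.cons 467 (V.cons 19 4 V.nil) (Q.cons 468 (V.cons 4 2 V.nil) (Q.cons 1206 (V.cons 4 5 (V.cons 10 (-1) V.nil)) (Q.cons 1211 (V.cons 13 (-1) (V.cons 19 1 V.nil)) (Q.cons 1242 (V.cons 4 13 (V.cons 10 (-1) V.nil)) (Q.cons 1259 (V.cons 13 (-1) (V.cons 19 1 V.nil)) (Q.cons 1260 (V.cons 4 (-7) (V.cons 10 1 V.nil)) (Q.cons 1266 (V.cons 4 7 (V.cons 10 (-1) V.nil)) (Q.cons 1326 (V.cons 4 3 (V.cons 10 (-1) V.nil)) (Q.cons 1338 (V.cons 4 (-13) (V.cons 10 1 V.nil)) (Q.cons 1341 (V.cons 3 (-6) V.nil) (Q.cons 1359 (V.cons 3 2 V.nil) (Q.cons 1386 (V.cons 4 (-12) V.nil) (Q.cons 1395 (V.cons 3 (-2) V.nil) (Q.cons 1452 (V.cons 4 (-5) (V.cons 10 1 V.nil)) (Q.cons 1482 (V.cons 4 (-23) (V.cons 10 3 V.nil)) (Q.cons 1706 (V.cons 20 (-2) V.nil) (Q.cons 1709 (V.cons 19 (-2) V.nil)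 (Q.cons 5295 (V.cons 3 (-2) V.nil) (Q.cons 5355 (V.cons 3 6 V.nil) (Q.cons 5547 (V.cons 3 2 V.nil) (Q.cons 6828 (V.cons 4 (-2) V.nil) Q.nil))))))))))))))))))))))))))))))))))))))))))))))))))))))),
  (Q.cons 3 (V.cons 1341 (-12) (V.cons 1359 2 (V.cons 1395 (-10) (V.cons 5295 (-2) (V.cons 5355 12 (V.cons 5547 10 V.nil)))))) (Q.cons 10 (V.cons 342 (-24) (V.cons 348 20 (V.cons 372 64 (V.cons 1206 18 (V.cons 1242 26 (V.cons 1260 (-12) (V.cons 1266 12 (V.cons 1326 6 (V.cons 1338 (-26) (V.cons 1386 (-20) (V.cons 1452 (-12) (V.cons 1482 (-50) (V.cons 3498 2 (V.cons 5034 (-2) (V.cons 5802 (-2) V.nil))))))))))))))) (Q.cons 13 (V.cons 221 8 (V.cons 245 (-1) (V.cons 311 (-8) (V.cons 317 (-6) (V.cons 335 8 (V.cons 347 (-8) (V.cons 365 (-6) (V.cons 371 1 (V.cons 875 (-15) (V.cons 971 (-1) (V.cons 1211 8 (V.cons 1259 13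 (V.cons 1451 5 (V.cons 3755 2 V.nil)))))))))))))) (Q.cons 19 (V.cons 221 (-8) (V.cons 245 1 (V.cons 311 8 (V.cons 317 6 (V.cons 335 (-8) (V.cons 347 8 (V.cons 365 6 (V.cons 371 (-1) (V.cons 875 15 (V.cons 971 1 (V.cons 1211 (-8) (V.cons 1259 (-13) (V.cons 1451 (-5) (V.cons 3755 (-2) V.nil)))))))))))))) (Q.cons 20 (V.cons 86 4 (V.cons 182 (-1) (V.cons 218 1 (V.cons 236 (-1) (V.cons 242 1 (V.cons 302 (-1) (V.cons 314 (-1) (V.cons 686 (-2) V.nil)))))))) (Q.cons 43 (V.cons 245 (-2) (V.cons 311 (-2) (V.cons 317 (-4) (V.cons 335 2 (V.cons 347 (-2) (V.cons 365 (-4) (V.cons 371 4 (V.cons 875 2 (V.cons 971 2 (V.cons 1211 2 (V.cons 1259 2 V.nil))))))))))) (Q.cons 44 (V.cons 86 4 (V.cons 182 (-1) (V.cons 218 3 (V.cons 236 3 (V.cons 242 (-1) (V.cons 302 (-3) (V.cons 314 (-3) (V.cons 938 (-2) V.nil)))))))) (Q.cons 55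 (V.cons 83 (-1) (V.cons 173 1 V.nil)) (Q.cons 61 (V.cons 83 (-1) (V.cons 173 1 V.nil)) (Q.cons 74 (V.cons 86 (-8) (V.cons 182 2 (V.cons 218 (-4) (V.cons 236 (-2) (V.cons 302 4 (V.cons 314 4 (V.cons 686 2 (V.cons 938 2 V.nil)))))))) (Q.cons 79 (V.cons 83 1 (V.cons 173 (-1) V.nil)) (Q.cons 83 (V.cons 55 (-1) (V.cons 61 (-1) (V.cons 79 (-1) (V.cons 91 (-1) (V.cons 175 2 (V.cons 187 1 (V.cons 235 1 V.nil))))))) (Q.cons 86 (V.cons 20 4 (V.cons 44 (-4) V.nil)) (Q.cons 91 (V.cons 83 1 (V.cons 173 (-1) V.nil)) (Q.cons 92 (V.cons 170 2 V.nil) (Q.cons 109 (V.cons 83 (-1) (V.cons 173 1 V.nil)) (Q.cons 115 (V.cons 83 1 (V.cons 173 (-1) V.nil)) (Q.cons 116 (V.cons 20 (-4) (V.cons 44 4 (V.cons 170 4 V.nil))) (Q.cons 182 (V.cons 20 (-1) (V.cons 44 1 (V.cons 170 2 V.nil))) (Q.cons 187 (V.cons 83 (-1) (V.cons 173 1 V.nil))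 (Q.cons 218 (V.cons 20 3 (V.cons 44 (-3) (V.cons 170 2 V.nil))) (Q.cons 221 (V.cons 43 (-6) V.nil) (Q.cons 235 (V.cons 83 1 (V.cons 173 (-1) V.nil)) (Q.cons 236 (V.cons 20 3 (V.cons 44 (-3) V.nil)) (Q.cons 242 (V.cons 20 (-1) (V.cons 44 1 V.nil)) (Q.cons 245 (V.cons 43 (-2) V.nil) (Q.cons 299 (V.cons 55 1 (V.cons 61 1 (V.cons 79 1 (V.cons 91 1 (V.cons 175 (-2) (V.cons 187 (-1) (V.cons 235 (-1) V.nil))))))) (Q.cons 302 (V.cons 20 (-3) (V.cons 44 3 (V.cons 170 (-2) V.nil))) (Q.cons 311 (V.cons 43 4 V.nil) (Q.cons 314 (V.cons 20 (-3) (V.cons 44 3 (V.cons 170 (-2) V.nil))) (Q.cons 317 (V.cons 43 2 V.nil) (Q.cons 335 (V.cons 43 (-6) V.nil) (Q.cons 342 (V.cons 10 4 V.nil) (Q.cons 347 (V.cons 43 (-2) V.nil) (Q.cons 348 (V.cons 10 4 V.nil) (Q.cons 362 (V.cons 170 (-2) V.nil) (Q.cons 365 (V.cons 43 4 V.nil) (Q.cons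 371 (V.cons 43 (-4) V.nil) (Q.cons 372 (V.cons 10 (-6) V.nil) (Q.cons 428 (V.cons 20 3 (V.cons 44 (-3) V.nil)) (Q.cons 458 (V.cons 20 1 (V.cons 44 (-1) (V.cons 170 (-4) V.nil))) (Q.cons 467 (V.cons 43 2 V.nil) (Q.cons 468 (V.cons 10 (-4) V.nil) (Q.cons 875 (V.cons 43 4 V.nil) (Q.cons 938 (V.cons 20 (-2) (V.cons 44 2 V.nil)) (Q.cons 971 (V.cons 43 2 V.nil) (Q.cons 1199 (V.cons 43 2 V.nil) (Q.cons 1206 (V.cons 10 (-4) V.nil) (Q.cons 1211 (V.cons 43 2 V.nil) (Q.cons 1242 (V.cons 10 (-4) V.nil) (Q.cons 1338 (V.cons 10 4 V.nil) (Q.cons 1386 (V.cons 10 (-4) V.nil) (Q.cons 1482 (V.cons 10 4 V.nil) (Q.cons 1835 (V.cons 43 (-2) V.nil) (Q.cons 3498 (V.cons 10 (-4) V.nil) (Q.cons 5034 (V.cons 10 4 V.nil) (Q.cons 5802 (V.cons 10 2 V.nil) (Q.cons 7338 (V.cons 10 4 V.nil) Q.nil)))))))))))))))))))))))))))))))))))))))))))))))))))))))))),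
  (Q.cons 10 (V.cons 342 (-4) (V.cons 348 4 (V.cons 372 8 (V.cons 1206 4 (V.cons 1242 4 (V.cons 1338 (-4) (V.cons 1386 (-4) (V.cons 1452 (-1) (V.cons 1482 (-7) V.nil))))))))) (Q.cons 20 (V.cons 86 2 (V.cons 182 (-2) (V.cons 218 (-1) (V.cons 236 (-1) (V.cons 242 1 (V.cons 314 1 (V.cons 362 1 V.nil))))))) (Q.cons 43 (V.cons 221 (-1) (V.cons 317 1 V.nil)) (Q.cons 44 (V.cons 86 (-2) (V.cons 182 3 (V.cons 218 1 (V.cons 236 1 (V.cons 242 (-1) (V.cons 302 (-1) (V.cons 314 (-1) (V.cons 362 (-1) V.nil)))))))) (Q.cons 46 (V.cons 300 (-1) (V.cons 330 1 V.nil)) (Q.cons 83 (V.cons 61 (-1) V.nil) (Q.cons 84 (V.cons 46 1 V.nil) (Q.cons 86 (V.cons 44 3 (V.cons 74 (-2) V.nil)) (Q.cons 116 (V.cons 44 (-2) (V.cons 74 2 V.nil)) (Q.cons 173 (V.cons 55 (-1) (V.cons 61 1 (V.cons 79 1 V.nil))) (Q.cons 175 (V.cons 77 1 (V.cons 83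 (-1) V.nil)) (Q.cons 182 (V.cons 44 (-3) (V.cons 74 2 V.nil)) (Q.cons 218 (V.cons 44 (-1) (V.cons 74 1 V.nil)) (Q.cons 221 (V.cons 13 (-6) (V.cons 19 3 V.nil)) (Q.cons 236 (V.cons 44 (-1) (V.cons 74 1 V.nil)) (Q.cons 242 (V.cons 44 1 (V.cons 74 (-1) V.nil)) (Q.cons 245 (V.cons 13 1 (V.cons 19 (-2) V.nil)) (Q.cons 311 (V.cons 13 6 (V.cons 19 (-3) V.nil)) (Q.cons 314 (V.cons 44 1 (V.cons 74 (-1) V.nil)) (Q.cons 317 (V.cons 13 10 (V.cons 19 (-6) V.nil)) (Q.cons 330 (V.cons 46 (-1) V.nil) (Q.cons 335 (V.cons 13 (-6) (V.cons 19 3 V.nil)) (Q.cons 339 (V.cons 15 (-1) V.nil) (Q.cons 342 (V.cons 10 2 V.nil) (Q.cons 347 (V.cons 13 4 (V.cons 19 (-2) V.nil)) (Q.cons 348 (V.cons 10 (-3) V.nil) (Q.cons 362 (V.cons 44 1 (V.cons 74 (-1) V.nil)) (Q.cons 365 (V.cons 13 10 (V.cons 19 (-6) V.nil)) (Q.cons 371 (V.cons 13 (-9)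 (V.cons 19 6 V.nil)) (Q.cons 372 (V.cons 10 (-6) V.nil) (Q.cons 458 (V.cons 44 2 (V.cons 74 (-2) V.nil)) (Q.cons 461 (V.cons 13 9 (V.cons 19 (-6) V.nil)) (Q.cons 467 (V.cons 13 (-10) (V.cons 19 8 V.nil)) (Q.cons 875 (V.cons 19 2 V.nil) (Q.cons 941 (V.cons 13 (-1) (V.cons 19 1 V.nil)) (Q.cons 971 (V.cons 19 1 V.nil) (Q.cons 1206 (V.cons 10 (-2) V.nil) (Q.cons 1211 (V.cons 13 (-4) (V.cons 19 2 V.nil)) (Q.cons 1242 (V.cons 10 (-3) V.nil) (Q.cons 1259 (V.cons 13 (-5) (V.cons 19 2 V.nil)) (Q.cons 1260 (V.cons 10 1 V.nil) (Q.cons 1266 (V.cons 10 (-1) V.nil) (Q.cons 1323 (V.cons 15 1 V.nil) (Q.cons 1338 (V.cons 10 3 V.nil) (Q.cons 1341 (V.cons 3 (-3) V.nil) (Q.cons 1359 (V.cons 3 1 V.nil) (Q.cons 1386 (V.cons 10 3 V.nil) (Q.cons 1395 (V.cons 3 (-2) V.nil) (Q.cons 1451 (V.cons 13 (-1) V.nil) (Q.cons 1452 (V.cons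 10 1 V.nil) (Q.cons 1482 (V.cons 10 5 V.nil) (Q.cons 1835 (V.cons 13 1 (V.cons 19 (-2) V.nil)) (Q.cons 5295 (V.cons 3 (-1) V.nil) (Q.cons 5355 (V.cons 3 3 V.nil) (Q.cons 5547 (V.cons 3 2 V.nil) Q.nil))))))))))))))))))))))))))))))))))))))))))))))))))))))),
  (Q.cons 3 (V.cons 1341 42 (V.cons 1359 (-12) (V.cons 1395 18 (V.cons 5295 12 (V.cons 5355 (-42) (V.cons 5547 (-18) V.nil)))))) (Q.cons 10 (V.cons 342 (-59) (V.cons 348 109 (V.cons 372 214 (V.cons 978 8 (V.cons 1206 14 (V.cons 1242 62 (V.cons 1260 (-45) (V.cons 1266 17 (V.cons 1326 45 (V.cons 1338 (-62) (V.cons 1386 (-109) (V.cons 1452 (-45) (V.cons 1482 (-155) (V.cons 3498 48 (V.cons 5034 (-20) (V.cons 5802 (-14) (V.cons 15018 (-8) V.nil))))))))))))))))) (Q.cons 13 (V.cons 221 (-52) (V.cons 245 54 (V.cons 311 52 (V.cons 317 52 (V.cons 335 (-52) (V.cons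 347 80 (V.cons 365 52 (V.cons 371 (-26) (V.cons 875 102 (V.cons 971 (-22) (V.cons 1211 (-80) (V.cons 1259 (-102) (V.cons 1451 (-26) (V.cons 3755 (-32) V.nil)))))))))))))) (Q.cons 15 (V.cons 1323 (-8) (V.cons 10923 8 V.nil)) (Q.cons 20 (V.cons 86 (-16) (V.cons 182 8 (V.cons 236 (-8) (V.cons 302 8 V.nil)))) (Q.cons 22 (V.cons 330 16 (V.cons 2730 8 V.nil)) (Q.cons 28 (V.cons 330 16 (V.cons 2730 8 V.nil)) (Q.cons 34 (V.cons 330 8 (V.cons 2730 4 V.nil)) (Q.cons 43 (V.cons 221 6 (V.cons 245 (-23) (V.cons 311 (-9) (V.cons 317 (-3) (V.cons 335 9 (V.cons 347 (-29) (V.cons 365 (-9) (V.cons 875 (-47) (V.cons 971 15 (V.cons 1211 29 (V.cons 1259 44 (V.cons 1451 9 (V.cons 3755 8 V.nil))))))))))))) (Q.cons 44 (V.cons 86 48 (V.cons 182 (-24) (V.cons 236 24 (V.cons 302 (-24) (V.cons 938 (-16) V.nil))))) (Q.cons 46 (V.cons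 330 (-16) (V.cons 2730 (-8) V.nil)) (Q.cons 55 (V.cons 83 24 (V.cons 683 (-12) V.nil)) (Q.cons 61 (V.cons 83 8 (V.cons 683 4 V.nil)) (Q.cons 79 (V.cons 83 4 (V.cons 683 (-2) V.nil)) (Q.cons 83 (V.cons 55 22 (V.cons 61 6 (V.cons 79 6 (V.cons 91 2 (V.cons 175 (-28) (V.cons 187 (-2) (V.cons 235 (-14) V.nil))))))) (Q.cons 86 (V.cons 20 8 (V.cons 44 (-24) (V.cons 170 (-6) V.nil))) (Q.cons 91 (V.cons 83 4 (V.cons 683 (-2) V.nil)) (Q.cons 98 (V.cons 170 (-8) V.nil) (Q.cons 106 (V.cons 330 (-16) (V.cons 2730 (-8) V.nil)) (Q.cons 109 (V.cons 83 (-4) (V.cons 683 2 V.nil)) (Q.cons 115 (V.cons 83 4 (V.cons 683 (-2) V.nil)) (Q.cons 116 (V.cons 20 (-8) (V.cons 44 24 (V.cons 170 20 V.nil))) (Q.cons 170 (V.cons 86 8 (V.cons 92 (-16) (V.cons 182 (-27) (V.cons 218 (-23) (V.cons 236 (-15) (V.cons 242 17 (V.cons 302 5 (V.cons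 314 23 (V.cons 362 16 (V.cons 686 14 (V.cons 938 (-2) V.nil))))))))))) (Q.cons 175 (V.cons 83 (-28) (V.cons 683 14 V.nil)) (Q.cons 182 (V.cons 20 (-4) (V.cons 44 12 (V.cons 170 26 V.nil))) (Q.cons 187 (V.cons 83 (-4) (V.cons 683 2 V.nil)) (Q.cons 218 (V.cons 20 4 (V.cons 44 (-12) (V.cons 170 22 V.nil))) (Q.cons 221 (V.cons 13 (-48) (V.cons 43 24 V.nil)) (Q.cons 235 (V.cons 83 (-16) (V.cons 683 4 V.nil)) (Q.cons 236 (V.cons 20 4 (V.cons 44 (-12) (V.cons 170 16 V.nil))) (Q.cons 242 (V.cons 20 4 (V.cons 44 (-12) (V.cons 170 (-18) V.nil))) (Q.cons 245 (V.cons 13 52 (V.cons 43 (-26) V.nil)) (Q.cons 302 (V.cons 20 (-4) (V.cons 44 12 (V.cons 170 (-6) V.nil))) (Q.cons 311 (V.cons 13 48 (V.cons 43 (-24) V.nil)) (Q.cons 314 (V.cons 20 (-4) (V.cons 44 12 (V.cons 170 (-22) V.nil))) (Q.cons 317 (V.cons 13 48 (V.cons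 43 (-24) V.nil)) (Q.cons 330 (V.cons 22 (-16) (V.cons 46 16 V.nil)) (Q.cons 335 (V.cons 13 (-48) (V.cons 43 24 V.nil)) (Q.cons 342 (V.cons 10 64 V.nil) (Q.cons 347 (V.cons 13 76 (V.cons 43 (-38) V.nil)) (Q.cons 348 (V.cons 10 30 V.nil) (Q.cons 365 (V.cons 13 48 (V.cons 43 (-24) V.nil)) (Q.cons 371 (V.cons 13 (-24) (V.cons 43 12 V.nil)) (Q.cons 372 (V.cons 10 (-144) V.nil) (Q.cons 428 (V.cons 20 4 (V.cons 44 (-12) (V.cons 170 6 V.nil))) (Q.cons 458 (V.cons 20 4 (V.cons 44 (-12) (V.cons 170 (-26) V.nil))) (Q.cons 461 (V.cons 13 24 (V.cons 43 (-12) V.nil)) (Q.cons 468 (V.cons 10 (-8) V.nil) (Q.cons 683 (V.cons 55 (-15) (V.cons 61 1 (V.cons 79 1 (V.cons 91 (-5) (V.cons 175 14 (V.cons 187 5 (V.cons 235 7 V.nil))))))) (Q.cons 686 (V.cons 170 (-14) V.nil) (Q.cons 875 (V.cons 13 100 (V.cons 43 (-50) V.nil)) (Q.cons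 938 (V.cons 44 16 (V.cons 170 2 V.nil)) (Q.cons 971 (V.cons 13 (-20) (V.cons 43 18 V.nil)) (Q.cons 978 (V.cons 10 (-8) V.nil) (Q.cons 1206 (V.cons 10 (-18) V.nil) (Q.cons 1211 (V.cons 13 (-76) (V.cons 43 38 V.nil)) (Q.cons 1242 (V.cons 10 8 V.nil) (Q.cons 1259 (V.cons 13 (-100) (V.cons 43 50 V.nil)) (Q.cons 1260 (V.cons 10 46 V.nil) (Q.cons 1266 (V.cons 10 (-6) V.nil) (Q.cons 1323 (V.cons 15 (-8) V.nil) (Q.cons 1326 (V.cons 10 (-46) V.nil) (Q.cons 1338 (V.cons 10 (-8) V.nil) (Q.cons 1386 (V.cons 10 (-30) V.nil) (Q.cons 1451 (V.cons 13 (-24) (V.cons 43 12 V.nil)) (Q.cons 1452 (V.cons 10 46 V.nil) (Q.cons 1482 (V.cons 10 78 V.nil) (Q.cons 1835 (V.cons 13 (-24) (V.cons 43 12 V.nil)) (Q.cons 2730 (V.cons 22 (-8) (V.cons 46 8 V.nil)) (Q.cons 3498 (V.cons 10 (-60) V.nil) (Q.cons 3755 (V.cons 13 (-32) (V.cons 43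 8 V.nil)) (Q.cons 5034 (V.cons 10 20 V.nil) (Q.cons 5802 (V.cons 10 20 V.nil) (Q.cons 7338 (V.cons 10 8 V.nil) (Q.cons 10923 (V.cons 15 8 V.nil) (Q.cons 15018 (V.cons 10 8 V.nil) Q.nil))))))))))))))))))))))))))))))))))))))))))))))))))))))))))))))))))))))))))))]

def lits8_3 : List Q := lits8_3_0 ++ (lits8_3_1 ++ (lits8_3_2 ++ (lits8_3_3 ++ (lits8_3_4 ++ (lits8_3_5)))))

set_option maxRecDepth 1000000
theorem rows8_3_ok : chkRows rows8_3 lits8_3 = true := by decide +kernel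

end Pool.Agent.N33.SA
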