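import Pool.Agent.N33.SA.Bil4
set_option autoImplicit false

/-! Rows of the certificate of level 8, part 4. -/

noncomputable section
namespace Pool.Agent.N33.SA

def rows8_4 : List BR := [
  ⟨0, 98, 0, [], []⟩,
  ⟨0, 314, 0, [], []⟩,
  ⟨3, 43, 0, [2], []⟩,
  ⟨3, 55, 0, [], []⟩,
  ⟨15, 19, 0, [], []⟩,
  ⟨10, 46, 0, [], []⟩,
  ⟨46, 10, 0, [], []⟩,
  ⟨22, 10, 0, [], []⟩,
  ⟨25, 3, 0, [], []⟩,
  ⟨115, 3, 0, [], []⟩,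
  ⟨686, 0, 0, [], []⟩,
  ⟨458, 0, 0, [], []⟩,
  ⟨0, 13, 1, [2], []⟩,
  ⟨0, 79, 1, [], []⟩,
  ⟨3, 58, 1, [], []⟩,
  ⟨10, 3, 1, [2], []⟩,
  ⟨28, 3, 1, [], []⟩,
  ⟨235, 0, 1, [], []⟩,
  ⟨0, 2730, 2, [], []⟩,
  ⟨3, 83, 2, [], []⟩,
  ⟨4, 20, 2, [], []⟩,
  ⟨19, 13, 2, [], []⟩,
  ⟨20, 10, 2, [], []⟩,
  ⟨684, 0, 2, [], []⟩,
  ⟨3, 170, 3, [], []⟩,
  ⟨4, 13, 3, [], []⟩,
  ⟨170, 3, 3, [], []⟩,
  ⟨0, 683, 4, [], []⟩,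
  ⟨10, 43, 4, [], []⟩,
  ⟨13, 10, 4, [], []⟩,
  ⟨683, 0, 4, [], []⟩,
  ⟨3, 43, 6, [], []⟩,
  ⟨13, 3, 6, [], []⟩,
  ⟨0, 20, 7, [], []⟩,
  ⟨43, 3, 7, [], []⟩,
  ⟨0, 19, 0, [3], []⟩,
  ⟨0, 55, 0, [0], []⟩,
  ⟨3, 10, 0, [2,0], []⟩,
  ⟨9, 4, 0, [0], []⟩,
  ⟨4, 3, 0, [3], []⟩,
  ⟨106, 3, 0, [0], []⟩,
  ⟨13, 0, 0, [2,0], []⟩,
  ⟨61, 0, 0, [0], []⟩,
  ⟨0, 10, 1, [0,2], []⟩,
  ⟨6, 10, 1, [0], []⟩,
  ⟨27, 3, 1, [0], []⟩,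
  ⟨46, 0, 1, [0], []⟩,
  ⟨43, 10, 2, [0], []⟩,
  ⟨0, 10, 0, [3,0], []⟩,
  ⟨0, 58, 0, [0,0], []⟩,
  ⟨3, 3, 0, [3,0], []⟩,
  ⟨27, 3, 0, [1], []⟩,
  ⟨46, 0, 0, [0,0], []⟩,
  ⟨0, 3, 1, [2,1], []⟩,
  ⟨3, 0, 1, [1,2], []⟩,
  ⟨10, 0, 6, [0,0], []⟩]

def lits8_4_0 : List Q := [
  (Q.cons 3 (V.cons 1341 18 (V.cons 1359 (-4) (V.cons 1395 14 (V.cons 1491 (-2) (V.cons 5295 4 (V.cons 5355 (-18) (V.cons 5547 (-14) (V.cons 5805 2 V.nil)))))))) (Q.cons 4 (V.cons 342 2 (V.cons 348 (-8) (V.cons 372 (-12) (V.cons 1206 (-1) (V.cons 1242 (-5) (V.cons 1260 1 (V.cons 1266 (-1) (V.cons 1326 (-1) (V.cons 1338 5 (V.cons 1386 8 (V.cons 1452 5 (V.cons 1482 9 (V.cons 5802 (-2) V.nil))))))))))))) (Q.cons 10 (V.cons 342 (-2) (V.cons 348 4 (V.cons 372 8 (V.cons 1206 1 (V.cons 1242 3 (V.cons 1260 (-1) (V.cons 1266 1 (V.cons 1326 1 (V.cons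 1338 (-3) (V.cons 1386 (-4) (V.cons 1452 (-3) (V.cons 1482 (-5) V.nil)))))))))))) (Q.cons 13 (V.cons 311 1 (V.cons 317 1 (V.cons 335 (-1) (V.cons 347 1 (V.cons 365 1 (V.cons 371 1 (V.cons 1211 (-1) (V.cons 1259 (-1) (V.cons 1451 (-2) V.nil))))))))) (Q.cons 19 (V.cons 311 (-1) (V.cons 317 (-1) (V.cons 335 1 (V.cons 347 (-1) (V.cons 365 (-1) (V.cons 371 (-1) (V.cons 1211 1 (V.cons 1259 1 (V.cons 1451 2 V.nil))))))))) Q.nil))))),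
  (Q.cons 3 (V.cons 1341 23 (V.cons 1359 (-5) (V.cons 1395 18 (V.cons 1491 1 (V.cons 5295 5 (V.cons 5355 (-23) (V.cons 5547 (-18) (V.cons 5805 (-1) V.nil)))))))) (Q.cons 4 (V.cons 1260 2 (V.cons 5034 (-1) V.nil)) (Q.cons 10 (V.cons 1260 (-1) V.nil) (Q.cons 13 (V.cons 1259 (-1) V.nil) (Q.cons 19 (V.cons 1259 1 V.nil) Q.nil))))),
  (Q.cons 10 (V.cons 348 (-9) (V.cons 372 (-8) (V.cons 1206 (-1) (V.cons 1242 (-6) (V.cons 1260 1 (V.cons 1266 (-2) (V.cons 1326 1 (V.cons 1338 6 (V.cons 1386 9 (V.cons 1452 1 (V.cons 1482 8 (V.cons 3498 2 (V.cons 5034 (-1) (V.cons 5802 (-1) V.nil)))))))))))))) (Q.cons 13 (V.cons 221 (-6) (V.cons 245 (-2) (V.cons 311 6 (V.cons 317 8 (V.cons 335 (-4) (V.cons 347 4 (V.cons 365 8 (V.cons 371 (-6) (V.cons 875 4 (V.cons 971 2 (V.cons 1211 (-4) (V.cons 1259 (-6) (V.cons 1451 (-2) (V.cons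 2735 (-1) V.nil)))))))))))))) (Q.cons 20 (V.cons 686 (-1) V.nil) (Q.cons 43 (V.cons 221 3 (V.cons 245 1 (V.cons 311 (-3) (V.cons 317 (-4) (V.cons 335 2 (V.cons 347 (-2) (V.cons 365 (-4) (V.cons 371 3 (V.cons 875 (-2) (V.cons 971 (-1) (V.cons 1211 2 (V.cons 1259 3 (V.cons 1451 1 V.nil))))))))))))) (Q.cons 44 (V.cons 686 1 V.nil) (Q.cons 46 (V.cons 330 1 (V.cons 684 (-1) V.nil)) (Q.cons 55 (V.cons 173 2 (V.cons 683 (-1) V.nil)) (Q.cons 86 (V.cons 170 (-1) V.nil) (Q.cons 175 (V.cons 173 (-1) V.nil) (Q.cons 182 (V.cons 170 1 V.nil) Q.nil)))))))))),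
  (Q.cons 10 (V.cons 342 (-1) (V.cons 348 3 (V.cons 372 6 (V.cons 1206 1 (V.cons 1242 3 (V.cons 1260 (-1) (V.cons 1266 1 (V.cons 1338 (-3) (V.cons 1386 (-3) (V.cons 1452 (-1) (V.cons 1482 (-5) V.nil))))))))))) (Q.cons 13 (V.cons 221 2 (V.cons 875 (-1) V.nil)) (Q.cons 20 (V.cons 218 (-1) V.nil) (Q.cons 43 (V.cons 221 (-1) V.nil) (Q.cons 44 (V.cons 218 1 V.nil) Q.nil))))),
  (Q.cons 58 (V.cons 84 1 (V.cons 300 (-1) V.nil)) (Q.cons 61 (V.cons 77 2 (V.cons 299 (-1) V.nil)) (Q.cons 235 (V.cons 77 (-1) V.nil) (Q.cons 236 (V.cons 74 1 V.nil) (Q.cons 242 (V.cons 74 (-1) V.nil) Q.nil))))),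
  (Q.cons 10 (V.cons 348 8 (V.cons 372 7 (V.cons 1242 5 (V.cons 1338 (-5) (V.cons 1386 (-8) (V.cons 1482 (-7) V.nil)))))) (Q.cons 43 (V.cons 221 1 (V.cons 245 2 (V.cons 311 (-1) (V.cons 335 1 (V.cons 347 (-1) (V.cons 371 (-1) (V.cons 875 (-3) (V.cons 941 (-1) (V.cons 971 (-1) (V.cons 1211 1 (V.cons 1259 2 (V.cons 1451 1 V.nil)))))))))))) (Q.cons 44 (V.cons 86 2 (V.cons 182 (-3) (V.cons 218 (-2) (V.cons 236 (-3) (V.cons 242 2 (V.cons 302 1 (V.cons 314 2 (V.cons 362 1 (V.cons 938 1 V.nil))))))))) (Q.cons 83 (V.cons 187 1 V.nil) (Q.cons 170 (V.cons 86 (-2) (V.cons 182 2 (V.cons 218 1 (V.cons 236 1 (V.cons 242 (-1) (V.cons 314 (-1) (V.cons 362 (-1) V.nil))))))) (Q.cons 173 (V.cons 187 (-1) V.nil) Q.nil)))))),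
  (Q.cons 86 (V.cons 44 2 (V.cons 170 (-2) V.nil)) (Q.cons 116 (V.cons 44 (-1) (V.cons 170 2 V.nil)) (Q.cons 182 (V.cons 44 (-3) (V.cons 170 2 V.nil)) (Q.cons 187 (V.cons 83 (-1) (V.cons 173 1 V.nil)) (Q.cons 218 (V.cons 44 (-2) (V.cons 170 1 V.nil)) (Q.cons 221 (V.cons 43 (-1) V.nil) (Q.cons 236 (V.cons 44 (-3) (V.cons 170 1 V.nil)) (Q.cons 242 (V.cons 44 2 (V.cons 170 (-1) V.nil)) (Q.cons 245 (V.cons 43 (-2) V.nil) (Q.cons 302 (V.cons 44 1 V.nil) (Q.cons 311 (V.cons 43 1 V.nil) (Q.cons 314 (V.cons 44 2 (V.cons 170 (-1) V.nil)) (Q.cons 335 (V.cons 43 (-1) V.nil) (Q.cons 347 (V.cons 43 1 V.nil) (Q.cons 362 (V.cons 44 1 (V.cons 170 (-1) V.nil)) (Q.cons 371 (V.cons 43 1 V.nil) (Q.cons 428 (V.cons 44 (-1) V.nil) (Q.cons 458 (V.cons 44 2 (V.cons 170 (-2) V.nil)) (Q.cons 461 (V.cons 43 (-1) V.nil) (Q.cons 467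 (V.cons 43 3 V.nil) (Q.cons 875 (V.cons 43 3 V.nil) (Q.cons 938 (V.cons 44 1 V.nil) (Q.cons 941 (V.cons 43 1 V.nil) (Q.cons 971 (V.cons 43 1 V.nil) (Q.cons 1211 (V.cons 43 (-1) V.nil) (Q.cons 1259 (V.cons 43 (-2) V.nil) (Q.cons 1451 (V.cons 43 (-1) V.nil) (Q.cons 1835 (V.cons 43 (-2) V.nil) Q.nil)))))))))))))))))))))))))))),
  (Q.cons 91 (V.cons 83 (-1) (V.cons 173 1 V.nil)) (Q.cons 92 (V.cons 44 2 (V.cons 170 (-1) V.nil)) (Q.cons 362 (V.cons 44 (-1) V.nil) (Q.cons 365 (V.cons 43 (-1) V.nil) (Q.cons 371 (V.cons 43 1 V.nil) Q.nil))))),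
  (Q.cons 98 (V.cons 20 1 (V.cons 44 (-1) V.nil)) (Q.cons 221 (V.cons 13 4 (V.cons 43 (-2) V.nil)) (Q.cons 311 (V.cons 13 (-1) (V.cons 43 1 V.nil)) (Q.cons 317 (V.cons 13 (-5) (V.cons 43 3 V.nil)) (Q.cons 335 (V.cons 13 1 (V.cons 43 (-1) V.nil)) (Q.cons 347 (V.cons 13 (-1) (V.cons 43 1 V.nil)) (Q.cons 348 (V.cons 10 (-2) V.nil) (Q.cons 365 (V.cons 13 (-1) (V.cons 43 1 V.nil)) (Q.cons 371 (V.cons 13 3 (V.cons 43 (-1) V.nil)) (Q.cons 372 (V.cons 10 (-4) V.nil) (Q.cons 461 (V.cons 13 (-4) (V.cons 43 2 V.nil)) (Q.cons 467 (V.cons 13 4 (V.cons 43 (-2) V.nil)) (Q.cons 1211 (V.cons 13 1 (V.cons 43 (-1) V.nil)) (Q.cons 1242 (V.cons 10 (-2) V.nil) (Q.cons 1259 (V.cons 13 1 (V.cons 43 (-1) V.nil)) (Q.cons 1338 (V.cons 10 2 V.nil) (Q.cons 1386 (V.cons 10 2 V.nil) (Q.cons 1451 (V.cons 13 (-2) V.nil) (Q.cons 1452 (V.cons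 10 2 V.nil) (Q.cons 1482 (V.cons 10 2 V.nil) Q.nil)))))))))))))))))))),
  (Q.cons 348 (V.cons 10 (-1) V.nil) (Q.cons 372 (V.cons 10 (-2) V.nil) (Q.cons 458 (V.cons 20 1 (V.cons 44 (-1) V.nil)) (Q.cons 461 (V.cons 13 2 (V.cons 43 (-1) V.nil)) (Q.cons 1242 (V.cons 10 (-1) V.nil) (Q.cons 1338 (V.cons 10 1 V.nil) (Q.cons 1386 (V.cons 10 1 V.nil) (Q.cons 1482 (V.cons 10 2 V.nil) (Q.cons 1835 (V.cons 13 (-1) V.nil) Q.nil)))))))))]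

def lits8_4_1 : List Q := [
  (Q.cons 221 (V.cons 13 (-5) (V.cons 19 5 V.nil)) (Q.cons 311 (V.cons 13 5 (V.cons 19 (-5) V.nil)) (Q.cons 317 (V.cons 13 4 (V.cons 19 (-4) V.nil)) (Q.cons 335 (V.cons 13 (-5) (V.cons 19 5 V.nil)) (Q.cons 342 (V.cons 4 39 (V.cons 10 (-16) V.nil)) (Q.cons 347 (V.cons 13 6 (V.cons 19 (-6) V.nil)) (Q.cons 348 (V.cons 4 (-84) (V.cons 10 45 V.nil)) (Q.cons 365 (V.cons 13 4 (V.cons 19 (-4) V.nil)) (Q.cons 371 (V.cons 13 (-1) (V.cons 19 1 V.nil)) (Q.cons 372 (V.cons 4 (-160) (V.cons 10 75 V.nil)) (Q.cons 461 (V.cons 13 1 (V.cons 19 (-1) V.nil)) (Q.cons 467 (V.cons 13 4 (V.cons 19 (-4) V.nil)) (Q.cons 468 (V.cons 10 (-1) V.nil) (Q.cons 875 (V.cons 13 9 (V.cons 19 (-9) V.nil)) (Q.cons 971 (V.cons 13 1 (V.cons 19 (-1) V.nil)) (Q.cons 978 (V.cons 4 1 (V.cons 10 (-1) V.nil)) (Q.cons 981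 (V.cons 3 (-1) V.nil) (Q.cons 1206 (V.cons 4 (-27) (V.cons 10 12 V.nil)) (Q.cons 1211 (V.cons 13 (-5) (V.cons 19 5 V.nil)) (Q.cons 1242 (V.cons 4 (-74) (V.cons 10 38 V.nil)) (Q.cons 1259 (V.cons 13 (-8) (V.cons 19 8 V.nil)) (Q.cons 1260 (V.cons 4 28 (V.cons 10 (-12) V.nil)) (Q.cons 1266 (V.cons 4 (-28) (V.cons 10 14 V.nil)) (Q.cons 1326 (V.cons 4 (-12) (V.cons 10 4 V.nil)) (Q.cons 1338 (V.cons 4 74 (V.cons 10 (-38) V.nil)) (Q.cons 1341 (V.cons 3 24 V.nil) (Q.cons 1359 (V.cons 3 (-5) V.nil) (Q.cons 1386 (V.cons 4 85 (V.cons 10 (-46) V.nil)) (Q.cons 1395 (V.cons 3 19 V.nil) (Q.cons 1451 (V.cons 13 (-3) (V.cons 19 3 V.nil)) (Q.cons 1452 (V.cons 4 28 (V.cons 10 (-12) V.nil)) (Q.cons 1482 (V.cons 4 130 (V.cons 10 (-63) V.nil)) (Q.cons 1835 (V.cons 13 (-5) (V.cons 19 5 V.nil)) (Q.cons 1875 (V.cons 3 (-1) V.nil)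 (Q.cons 3498 (V.cons 4 (-2) (V.cons 10 (-2) V.nil)) (Q.cons 3755 (V.cons 13 (-1) (V.cons 19 1 V.nil)) (Q.cons 3756 (V.cons 4 (-2) (V.cons 10 1 V.nil)) (Q.cons 5034 (V.cons 4 2 V.nil) (Q.cons 5295 (V.cons 3 5 V.nil) (Q.cons 5355 (V.cons 3 (-24) V.nil) (Q.cons 5547 (V.cons 3 (-19) V.nil) (Q.cons 5802 (V.cons 4 2 V.nil) (Q.cons 7338 (V.cons 10 1 V.nil) (Q.cons 15018 (V.cons 4 1 V.nil) (Q.cons 15021 (V.cons 3 1 V.nil) (Q.cons 29355 (V.cons 3 1 V.nil) Q.nil)))))))))))))))))))))))))))))))))))))))))))))),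
  (Q.cons 348 (V.cons 4 (-2) (V.cons 10 1 V.nil)) (Q.cons 372 (V.cons 4 (-4) (V.cons 10 2 V.nil)) (Q.cons 468 (V.cons 4 2 (V.cons 10 (-1) V.nil)) (Q.cons 1242 (V.cons 4 (-2) (V.cons 10 1 V.nil)) (Q.cons 1338 (V.cons 4 2 (V.cons 10 (-1) V.nil)) (Q.cons 1341 (V.cons 3 12 V.nil) (Q.cons 1359 (V.cons 3 (-2) V.nil) (Q.cons 1386 (V.cons 4 2 (V.cons 10 (-1) V.nil)) (Q.cons 1395 (V.cons 3 10 V.nil) (Q.cons 1482 (V.cons 4 4 (V.cons 10 (-2) V.nil)) (Q.cons 1835 (V.cons 13 1 (V.cons 19 (-1) V.nil)) (Q.cons 5295 (V.cons 3 2 V.nil) (Q.cons 5355 (V.cons 3 (-12) V.nil) (Q.cons 5547 (V.cons 3 (-10) V.nil) (Q.cons 7338 (V.cons 4 (-1) V.nil) Q.nil))))))))))))))),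
  (Q.cons 3 (V.cons 1359 (-1) (V.cons 5295 1 V.nil)) (Q.cons 10 (V.cons 342 (-1) (V.cons 1326 1 V.nil)) (Q.cons 13 (V.cons 335 1 V.nil) (Q.cons 15 (V.cons 339 (-1) (V.cons 1323 1 V.nil)) (Q.cons 19 (V.cons 335 (-1) V.nil) (Q.cons 44 (V.cons 86 1 V.nil) (Q.cons 46 (V.cons 84 (-1) (V.cons 330 1 V.nil)) (Q.cons 55 (V.cons 83 1 V.nil) (Q.cons 74 (V.cons 86 (-1) V.nil) (Q.cons 79 (V.cons 83 (-1) V.nil) (Q.cons 182 (V.cons 20 1 V.nil) (Q.cons 302 (V.cons 20 (-1) V.nil) Q.nil)))))))))))),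
  (Q.cons 3 (V.cons 1341 (-21) (V.cons 1359 4 (V.cons 1395 (-17) (V.cons 1491 (-1) (V.cons 5295 (-4) (V.cons 5355 21 (V.cons 5547 17 (V.cons 5805 1 V.nil)))))))) (Q.cons 10 (V.cons 1260 (-1) (V.cons 1266 1 V.nil)) (Q.cons 13 (V.cons 1259 1 V.nil) (Q.cons 19 (V.cons 1259 (-1) V.nil) (Q.cons 44 (V.cons 314 1 V.nil) (Q.cons 74 (V.cons 314 (-1) V.nil) Q.nil)))))),
  (Q.cons 10 (V.cons 978 (-1) (V.cons 3756 1 V.nil)) (Q.cons 20 (V.cons 938 1 V.nil) (Q.cons 43 (V.cons 245 1 (V.cons 941 (-1) V.nil)) (Q.cons 44 (V.cons 938 (-1) V.nil) (Q.cons 83 (V.cons 235 (-1) V.nil) (Q.cons 173 (V.cons 235 1 V.nil) Q.nil)))))),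
  (Q.cons 43 (V.cons 221 3 (V.cons 245 1 (V.cons 311 (-3) (V.cons 317 (-4) (V.cons 335 3 (V.cons 347 (-2) (V.cons 365 (-4) (V.cons 371 3 (V.cons 875 (-2) (V.cons 971 (-1) (V.cons 1211 2 (V.cons 1259 3 (V.cons 1451 1 V.nil))))))))))))) (Q.cons 83 (V.cons 175 (-1) V.nil) (Q.cons 170 (V.cons 86 1 (V.cons 182 (-1) V.nil)) (Q.cons 173 (V.cons 175 1 V.nil) (Q.cons 175 (V.cons 83 1 (V.cons 173 (-1) V.nil)) (Q.cons 221 (V.cons 43 (-3) V.nil) (Q.cons 245 (V.cons 43 (-1) V.nil) (Q.cons 311 (V.cons 43 3 V.nil) (Q.cons 317 (V.cons 43 4 V.nil) (Q.cons 330 (V.cons 46 (-1) V.nil) (Q.cons 335 (V.cons 43 (-3) V.nil) (Q.cons 347 (V.cons 43 2 V.nil) (Q.cons 348 (V.cons 10 9 V.nil) (Q.cons 365 (V.cons 43 4 V.nil) (Q.cons 371 (V.cons 43 (-3) V.nil) (Q.cons 372 (V.cons 10 8 V.nil) (Q.cons 461 (V.cons 43 3 V.nil) (Q.cons 467 (V.cons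 43 (-2) V.nil) (Q.cons 468 (V.cons 10 (-2) V.nil) (Q.cons 684 (V.cons 46 1 V.nil) (Q.cons 686 (V.cons 20 1 (V.cons 44 (-1) V.nil)) (Q.cons 875 (V.cons 43 2 V.nil) (Q.cons 971 (V.cons 43 1 V.nil) (Q.cons 1206 (V.cons 10 1 V.nil) (Q.cons 1211 (V.cons 43 (-2) V.nil) (Q.cons 1242 (V.cons 10 6 V.nil) (Q.cons 1259 (V.cons 43 (-3) V.nil) (Q.cons 1260 (V.cons 10 (-1) V.nil) (Q.cons 1266 (V.cons 10 2 V.nil) (Q.cons 1326 (V.cons 10 (-1) V.nil) (Q.cons 1338 (V.cons 10 (-6) V.nil) (Q.cons 1386 (V.cons 10 (-9) V.nil) (Q.cons 1451 (V.cons 43 (-1) V.nil) (Q.cons 1452 (V.cons 10 (-1) V.nil) (Q.cons 1482 (V.cons 10 (-8) V.nil) (Q.cons 1835 (V.cons 43 (-1) V.nil) (Q.cons 3498 (V.cons 10 (-2) V.nil) (Q.cons 5034 (V.cons 10 1 V.nil) (Q.cons 5802 (V.cons 10 1 V.nil) (Q.cons 7338 (V.cons 10 2 V.nil) Q.nil)))))))))))))))))))))))))))))))))))))))),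
  (Q.cons 115 (V.cons 83 1 (V.cons 173 (-1) V.nil)) (Q.cons 348 (V.cons 10 1 V.nil) (Q.cons 372 (V.cons 10 (-1) V.nil) (Q.cons 458 (V.cons 20 1 (V.cons 44 (-1) V.nil)) (Q.cons 461 (V.cons 43 1 V.nil) (Q.cons 467 (V.cons 43 (-1) V.nil) (Q.cons 1386 (V.cons 10 (-1) V.nil) (Q.cons 1482 (V.cons 10 1 V.nil) Q.nil)))))))),
  (Q.cons 938 (V.cons 44 1 (V.cons 74 (-1) V.nil)) (Q.cons 978 (V.cons 10 1 V.nil) (Q.cons 981 (V.cons 3 (-1) V.nil) (Q.cons 1395 (V.cons 3 (-1) V.nil) (Q.cons 3755 (V.cons 13 (-1) (V.cons 19 1 V.nil)) (Q.cons 3756 (V.cons 10 (-1) V.nil) (Q.cons 5547 (V.cons 3 1 V.nil) (Q.cons 15021 (V.cons 3 1 V.nil) Q.nil)))))))),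
  (Q.cons 3 (V.cons 981 (-4) (V.cons 1269 (-4) (V.cons 1341 4 (V.cons 1491 (-4) (V.cons 5295 4 (V.cons 5355 (-4) (V.cons 15021 4 (V.cons 20139 4 (V.cons 23211 4 (V.cons 43695 (-4) V.nil)))))))))) (Q.cons 4 (V.cons 10926 (-4) V.nil) (Q.cons 6 (V.cons 10924 (-4) (V.cons 43690 4 V.nil)) (Q.cons 9 (V.cons 10923 (-2) V.nil) (Q.cons 10 (V.cons 10926 4 V.nil) Q.nil))))),
  (Q.cons 10 (V.cons 348 (-8) (V.cons 372 (-12) (V.cons 1206 (-2) (V.cons 1242 (-6) (V.cons 1260 2 (V.cons 1266 (-2) (V.cons 1326 2 (V.cons 1338 6 (V.cons 1386 8 (V.cons 1452 2 (V.cons 1482 10 V.nil))))))))))) (Q.cons 13 (V.cons 335 (-4) V.nil) (Q.cons 15 (V.cons 339 (-4) (V.cons 1323 4 V.nil)) (Q.cons 22 (V.cons 330 4 V.nil) (Q.cons 28 (V.cons 330 4 V.nil) (Q.cons 34 (V.cons 330 2 V.nil) (Q.cons 43 (V.cons 335 4 V.nil) (Q.cons 46 (V.cons 330 (-4)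 V.nil) (Q.cons 106 (V.cons 330 (-4) V.nil) Q.nil)))))))))]

def lits8_4_2 : List Q := [
  (Q.cons 4 (V.cons 348 4 (V.cons 372 2 (V.cons 1242 2 (V.cons 1338 (-2) (V.cons 1386 (-4) (V.cons 1482 (-2) V.nil)))))) (Q.cons 19 (V.cons 221 (-4) (V.cons 311 6 (V.cons 317 6 (V.cons 335 (-6) (V.cons 347 2 (V.cons 365 6 (V.cons 371 (-6) (V.cons 1211 (-2) (V.cons 1259 (-2) V.nil))))))))) (Q.cons 20 (V.cons 86 (-4) V.nil) (Q.cons 22 (V.cons 84 (-4) (V.cons 330 4 V.nil)) (Q.cons 25 (V.cons 83 (-2) V.nil) (Q.cons 74 (V.cons 86 4 V.nil) Q.nil)))))),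
  (Q.cons 74 (V.cons 86 (-4) (V.cons 98 (-2) (V.cons 182 4 (V.cons 218 4 (V.cons 314 (-4) V.nil))))) (Q.cons 77 (V.cons 55 (-4) V.nil) (Q.cons 86 (V.cons 20 4 V.nil) (Q.cons 92 (V.cons 20 4 V.nil) (Q.cons 98 (V.cons 20 2 V.nil) (Q.cons 299 (V.cons 55 4 V.nil) (Q.cons 302 (V.cons 20 (-4) V.nil) (Q.cons 362 (V.cons 20 (-4) V.nil) Q.nil)))))))),
  (Q.cons 83 (V.cons 55 2 (V.cons 61 2 (V.cons 79 2 (V.cons 91 2 (V.cons 175 (-4) (V.cons 187 (-2) (V.cons 235 (-2) V.nil))))))) (Q.cons 84 (V.cons 46 (-4) V.nil) (Q.cons 86 (V.cons 44 (-4) (V.cons 170 4 V.nil)) (Q.cons 221 (V.cons 43 4 V.nil) (Q.cons 311 (V.cons 43 (-6) V.nil) (Q.cons 317 (V.cons 43 (-6) V.nil) (Q.cons 330 (V.cons 46 4 V.nil) (Q.cons 335 (V.cons 43 6 V.nil) (Q.cons 347 (V.cons 43 (-2) V.nil) (Q.cons 365 (V.cons 43 (-6) V.nil) (Q.cons 371 (V.cons 43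 6 V.nil) (Q.cons 461 (V.cons 43 (-4) V.nil) (Q.cons 467 (V.cons 43 4 V.nil) (Q.cons 1211 (V.cons 43 2 V.nil) (Q.cons 1259 (V.cons 43 2 V.nil) Q.nil))))))))))))))),
  (Q.cons 348 (V.cons 4 (-36) (V.cons 10 36 V.nil)) (Q.cons 372 (V.cons 4 (-32) (V.cons 10 32 V.nil)) (Q.cons 468 (V.cons 4 8 (V.cons 10 (-8) V.nil)) (Q.cons 1206 (V.cons 4 (-4) (V.cons 10 4 V.nil)) (Q.cons 1242 (V.cons 4 (-24) (V.cons 10 24 V.nil)) (Q.cons 1260 (V.cons 4 4 (V.cons 10 (-4) V.nil)) (Q.cons 1266 (V.cons 4 (-8) (V.cons 10 8 V.nil)) (Q.cons 1269 (V.cons 3 4 V.nil) (Q.cons 1338 (V.cons 4 24 (V.cons 10 (-24) V.nil)) (Q.cons 1341 (V.cons 3 32 V.nil) (Q.cons 1359 (V.cons 3 (-8) V.nil) (Q.cons 1386 (V.cons 4 36 (V.cons 10 (-36) V.nil)) (Q.cons 1395 (V.cons 3 24 V.nil) (Q.cons 1452 (V.cons 4 4 (V.cons 10 (-4) V.nil)) (Q.cons 1482 (V.cons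 4 32 (V.cons 10 (-32) V.nil)) (Q.cons 1491 (V.cons 3 4 V.nil) (Q.cons 3498 (V.cons 4 8 (V.cons 10 (-8) V.nil)) (Q.cons 5034 (V.cons 4 (-4) (V.cons 10 4 V.nil)) (Q.cons 5295 (V.cons 3 8 V.nil) (Q.cons 5355 (V.cons 3 (-32) V.nil) (Q.cons 5547 (V.cons 3 (-24) V.nil) (Q.cons 5802 (V.cons 4 (-4) (V.cons 10 4 V.nil)) (Q.cons 7338 (V.cons 4 (-8) (V.cons 10 8 V.nil)) (Q.cons 20139 (V.cons 3 (-4) V.nil) (Q.cons 23211 (V.cons 3 (-4) V.nil) Q.nil))))))))))))))))))))))))),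
  (Q.cons 3 (V.cons 1341 (-108) (V.cons 1359 16 (V.cons 1395 (-96) (V.cons 5295 (-16) (V.cons 5355 108 (V.cons 5547 96 V.nil)))))) (Q.cons 10 (V.cons 342 46 (V.cons 348 (-112) (V.cons 372 (-194) (V.cons 1206 (-32) (V.cons 1242 (-92) (V.cons 1260 34 (V.cons 1266 (-32) (V.cons 1326 (-16) (V.cons 1338 92 (V.cons 1386 112 (V.cons 1452 34 (V.cons 1482 158 (V.cons 3498 (-4) (V.cons 3756 (-2) (V.cons 5034 2 (V.cons 5802 2 (V.cons 10926 2 (V.cons 15018 2 V.nil)))))))))))))))))) (Q.cons 13 (V.cons 221 (-10) (V.cons 311 10 (V.cons 317 8 (V.cons 335 (-10) (V.cons 347 12 (V.cons 365 8 (V.cons 371 (-2) (V.cons 875 18 (V.cons 971 2 (V.cons 1211 (-10) (V.cons 1259 (-16) (V.cons 1451 (-6) (V.cons 2735 (-2) (V.cons 3755 (-2) V.nil)))))))))))))) (Q.cons 15 (V.cons 1323 (-2) (V.cons 2733 2 V.nil)) (Q.cons 20 (V.cons 686 (-2)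 V.nil) (Q.cons 22 (V.cons 2730 4 V.nil) (Q.cons 28 (V.cons 2730 4 V.nil) (Q.cons 34 (V.cons 2730 2 V.nil) (Q.cons 43 (V.cons 221 18 (V.cons 245 (-6) (V.cons 311 (-18) (V.cons 317 (-20) (V.cons 335 22 (V.cons 347 (-16) (V.cons 365 (-20) (V.cons 371 12 (V.cons 875 (-20) (V.cons 941 4 (V.cons 1211 14 (V.cons 1259 22 (V.cons 1451 8 (V.cons 2735 (-2) (V.cons 3755 2 V.nil))))))))))))))) (Q.cons 44 (V.cons 686 2 V.nil) (Q.cons 46 (V.cons 684 (-2) (V.cons 2730 (-2) V.nil)) (Q.cons 55 (V.cons 683 (-2) V.nil) (Q.cons 58 (V.cons 684 2 (V.cons 2730 (-2) V.nil)) (Q.cons 61 (V.cons 683 2 V.nil) (Q.cons 106 (V.cons 2730 (-4) V.nil) (Q.cons 175 (V.cons 683 2 V.nil) (Q.cons 235 (V.cons 683 (-2) V.nil) Q.nil))))))))))))))))),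
  (Q.cons 4 (V.cons 348 (-4) (V.cons 372 (-2) (V.cons 1242 (-2) (V.cons 1338 2 (V.cons 1386 4 (V.cons 1482 2 V.nil)))))) (Q.cons 19 (V.cons 221 (-2) (V.cons 875 2 V.nil)) (Q.cons 20 (V.cons 86 (-2) (V.cons 218 2 V.nil)) (Q.cons 22 (V.cons 84 2 (V.cons 330 (-2) V.nil)) (Q.cons 25 (V.cons 83 (-2) V.nil) (Q.cons 74 (V.cons 86 6 (V.cons 98 2 (V.cons 182 (-4) (V.cons 218 (-6) (V.cons 314 4 V.nil))))) (Q.cons 77 (V.cons 55 (-2) V.nil) (Q.cons 83 (V.cons 55 2 V.nil) (Q.cons 86 (V.cons 20 (-2) V.nil) (Q.cons 92 (V.cons 20 2 V.nil) (Q.cons 302 (V.cons 20 2 V.nil) (Q.cons 362 (V.cons 20 (-2) V.nil) Q.nil)))))))))))),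
  (Q.cons 170 (V.cons 86 (-2) (V.cons 182 1 (V.cons 218 1 (V.cons 236 (-1) (V.cons 242 1 (V.cons 302 1 (V.cons 314 (-1) V.nil))))))) (Q.cons 221 (V.cons 13 10 (V.cons 43 (-18) V.nil)) (Q.cons 245 (V.cons 43 6 V.nil) (Q.cons 311 (V.cons 13 (-10) (V.cons 43 18 V.nil)) (Q.cons 317 (V.cons 13 (-8) (V.cons 43 20 V.nil)) (Q.cons 335 (V.cons 13 10 (V.cons 43 (-22) V.nil)) (Q.cons 342 (V.cons 10 46 V.nil) (Q.cons 347 (V.cons 13 (-12) (V.cons 43 16 V.nil)) (Q.cons 348 (V.cons 10 (-96) V.nil) (Q.cons 365 (V.cons 13 (-8) (V.cons 43 20 V.nil)) (Q.cons 371 (V.cons 13 2 (V.cons 43 (-12) V.nil)) (Q.cons 372 (V.cons 10 (-186) V.nil) (Q.cons 461 (V.cons 13 (-2) (V.cons 43 12 V.nil)) (Q.cons 467 (V.cons 13 (-8) V.nil) (Q.cons 468 (V.cons 10 2 V.nil) (Q.cons 683 (V.cons 55 2 (V.cons 61 (-2) (V.cons 175 (-2) (V.cons 235 2 V.nil))))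 (Q.cons 684 (V.cons 46 (-2) (V.cons 58 2 V.nil)) (Q.cons 686 (V.cons 20 (-2) (V.cons 44 2 V.nil)) (Q.cons 875 (V.cons 13 (-18) (V.cons 43 20 V.nil)) (Q.cons 941 (V.cons 43 (-4) V.nil) (Q.cons 971 (V.cons 13 (-2) V.nil) (Q.cons 1206 (V.cons 10 (-32) V.nil) (Q.cons 1211 (V.cons 13 10 (V.cons 43 (-14) V.nil)) (Q.cons 1242 (V.cons 10 (-84) V.nil) (Q.cons 1259 (V.cons 13 16 (V.cons 43 (-22) V.nil)) (Q.cons 1260 (V.cons 10 34 V.nil) (Q.cons 1266 (V.cons 10 (-32) V.nil) (Q.cons 1323 (V.cons 15 2 V.nil) (Q.cons 1326 (V.cons 10 (-16) V.nil) (Q.cons 1338 (V.cons 10 84 V.nil) (Q.cons 1386 (V.cons 10 96 V.nil) (Q.cons 1451 (V.cons 13 6 (V.cons 43 (-8) V.nil)) (Q.cons 1452 (V.cons 10 34 V.nil) (Q.cons 1482 (V.cons 10 150 V.nil) (Q.cons 1835 (V.cons 13 10 (V.cons 43 (-12) V.nil)) (Q.cons 2730 (V.cons 22 4 (V.cons 46 (-2)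 (V.cons 58 (-2) V.nil))) (Q.cons 2733 (V.cons 15 (-2) V.nil) (Q.cons 2735 (V.cons 13 2 (V.cons 43 2 V.nil)) (Q.cons 3498 (V.cons 10 (-4) V.nil) (Q.cons 3755 (V.cons 13 2 (V.cons 43 (-2) V.nil)) (Q.cons 3756 (V.cons 10 (-2) V.nil) (Q.cons 5034 (V.cons 10 2 V.nil) (Q.cons 5802 (V.cons 10 2 V.nil) (Q.cons 7338 (V.cons 10 (-2) V.nil) (Q.cons 10926 (V.cons 10 2 V.nil) (Q.cons 15018 (V.cons 10 2 V.nil) Q.nil)))))))))))))))))))))))))))))))))))))))))))))),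
  (Q.cons 3 (V.cons 1269 (-6) (V.cons 1341 (-230) (V.cons 1359 54 (V.cons 1395 (-182) (V.cons 1491 (-6) (V.cons 5295 (-52) (V.cons 5355 230 (V.cons 5547 182 (V.cons 15021 (-2) (V.cons 20139 6 (V.cons 23211 6 (V.cons 43695 (-2) (V.cons 60075 2 V.nil))))))))))))) (Q.cons 4 (V.cons 342 66 (V.cons 348 (-90) (V.cons 372 (-228) (V.cons 978 2 (V.cons 1206 (-42) (V.cons 1242 (-94) (V.cons 1260 44 (V.cons 1266 (-36) (V.cons 1326 (-20) (V.cons 1338 96 (V.cons 1386 90 (V.cons 1452 44 (V.cons 1482 176 (V.cons 3498 (-16) (V.cons 3756 (-4) (V.cons 5034 8 (V.cons 5802 8 (V.cons 10926 (-6) (V.cons 15018 2 V.nil))))))))))))))))))) (Q.cons 6 (V.cons 5290 2 (V.cons 10924 (-2) V.nil)) (Q.cons 9 (V.cons 2733 (-2) (V.cons 10923 (-2) V.nil)) (Q.cons 10 (V.cons 342 (-14) (V.cons 348 (-42) (V.cons 372 (-20) (V.cons 978 6 (V.cons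 1206 2 (V.cons 1242 (-34) (V.cons 1266 (-8) (V.cons 1326 16 (V.cons 1338 32 (V.cons 1386 42 (V.cons 1482 28 (V.cons 3498 16 (V.cons 3756 (-4) (V.cons 5034 (-8) (V.cons 5802 (-8) (V.cons 10926 (-2) (V.cons 15018 (-2) V.nil))))))))))))))))) (Q.cons 13 (V.cons 2735 2 V.nil) (Q.cons 15 (V.cons 2733 2 (V.cons 10923 (-2) V.nil)) (Q.cons 19 (V.cons 2735 (-2) V.nil) (Q.cons 22 (V.cons 2730 (-2) V.nil) (Q.cons 27 (V.cons 2733 (-2) (V.cons 10923 2 V.nil)) (Q.cons 28 (V.cons 2730 2 V.nil) (Q.cons 46 (V.cons 2730 2 V.nil) (Q.cons 106 (V.cons 2730 (-2) V.nil) Q.nil))))))))))))),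
  (Q.cons 10 (V.cons 348 19 (V.cons 372 11 (V.cons 1242 10 (V.cons 1338 (-10) (V.cons 1386 (-19) (V.cons 1482 (-11) V.nil)))))) (Q.cons 43 (V.cons 221 (-8) (V.cons 245 (-2) (V.cons 311 8 (V.cons 317 16 (V.cons 335 (-6) (V.cons 347 2 (V.cons 365 16 (V.cons 371 (-16) (V.cons 875 (-6) (V.cons 941 (-2) (V.cons 971 2 (V.cons 1211 (-2) (V.cons 1259 (-2) (V.cons 2735 (-2) (V.cons 3755 2 V.nil))))))))))))))) (Q.cons 44 (V.cons 86 2 (V.cons 236 (-6) (V.cons 242 4 (V.cons 302 2 (V.cons 314 2 (V.cons 686 (-6) (V.cons 938 2 V.nil))))))) (Q.cons 46 (V.cons 330 2 (V.cons 684 (-2) V.nil)) (Q.cons 55 (V.cons 173 (-2) (V.cons 683 (-2) V.nil)) (Q.cons 61 (V.cons 173 (-2) (V.cons 683 (-2) V.nil)) (Q.cons 79 (V.cons 173 (-2) (V.cons 683 (-2) V.nil)) (Q.cons 83 (V.cons 175 (-2) V.nil) (Q.cons 91 (V.cons 173 (-2) (V.cons 683 (-2)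 V.nil)) (Q.cons 109 (V.cons 173 2 (V.cons 683 2 V.nil)) (Q.cons 115 (V.cons 173 (-2) (V.cons 683 (-2) V.nil)) (Q.cons 116 (V.cons 170 2 V.nil) (Q.cons 170 (V.cons 86 14 (V.cons 182 (-4) (V.cons 218 4 (V.cons 236 2 (V.cons 302 (-6) (V.cons 314 (-6) (V.cons 686 (-2) (V.cons 938 (-2) V.nil)))))))) (Q.cons 173 (V.cons 175 2 V.nil) (Q.cons 175 (V.cons 173 6 (V.cons 683 2 V.nil)) (Q.cons 182 (V.cons 170 (-4) V.nil) (Q.cons 187 (V.cons 683 4 V.nil) (Q.cons 218 (V.cons 170 (-2) V.nil) (Q.cons 235 (V.cons 173 2 (V.cons 683 2 V.nil)) (Q.cons 236 (V.cons 170 (-4) V.nil) (Q.cons 242 (V.cons 170 2 V.nil) (Q.cons 302 (V.cons 170 2 V.nil) (Q.cons 314 (V.cons 170 2 V.nil) (Q.cons 428 (V.cons 170 (-2) V.nil) (Q.cons 686 (V.cons 170 2 V.nil) (Q.cons 938 (V.cons 170 2 V.nil) Q.nil)))))))))))))))))))))))))),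
  (Q.cons 20 (V.cons 182 (-4) (V.cons 218 (-2) (V.cons 236 (-4) (V.cons 242 2 (V.cons 302 2 (V.cons 314 2 (V.cons 686 2 (V.cons 938 2 V.nil)))))))) (Q.cons 55 (V.cons 83 2 (V.cons 173 (-2) V.nil)) (Q.cons 83 (V.cons 55 4 (V.cons 61 4 (V.cons 79 4 (V.cons 91 4 (V.cons 175 (-8) (V.cons 187 (-4) (V.cons 235 (-4) V.nil))))))) (Q.cons 84 (V.cons 46 (-2) V.nil) (Q.cons 86 (V.cons 44 2 (V.cons 170 6 V.nil)) (Q.cons 98 (V.cons 44 2 (V.cons 170 2 V.nil)) (Q.cons 116 (V.cons 44 (-8) (V.cons 170 (-8) V.nil)) (Q.cons 182 (V.cons 44 (-4) (V.cons 170 (-4) V.nil)) (Q.cons 218 (V.cons 44 (-2) (V.cons 170 (-6) V.nil)) (Q.cons 221 (V.cons 43 2 V.nil) (Q.cons 314 (V.cons 44 4 (V.cons 170 4 V.nil)) (Q.cons 330 (V.cons 46 2 V.nil) (Q.cons 458 (V.cons 44 8 (V.cons 170 8 V.nil)) (Q.cons 875 (V.cons 43 (-2) V.nil) Q.nil))))))))))))))]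

def lits8_4_3 : List Q := [
  (Q.cons 342 (V.cons 4 66 (V.cons 10 (-14) V.nil)) (Q.cons 348 (V.cons 4 (-90) (V.cons 10 (-42) V.nil)) (Q.cons 372 (V.cons 4 (-228) (V.cons 10 (-20) V.nil)) (Q.cons 468 (V.cons 4 (-12) (V.cons 10 4 V.nil)) (Q.cons 683 (V.cons 25 1 (V.cons 55 (-1) (V.cons 61 1 (V.cons 79 1 (V.cons 91 1 (V.cons 187 (-1) (V.cons 235 (-1) V.nil))))))) (Q.cons 978 (V.cons 4 2 (V.cons 10 6 V.nil)) (Q.cons 1206 (V.cons 4 (-42) (V.cons 10 2 V.nil)) (Q.cons 1242 (V.cons 4 (-94) (V.cons 10 (-34) V.nil)) (Q.cons 1260 (V.cons 4 44 V.nil) (Q.cons 1266 (V.cons 4 (-36) (V.cons 10 (-8) V.nil)) (Q.cons 1269 (V.cons 3 6 V.nil) (Q.cons 1326 (V.cons 4 (-20) (V.cons 10 16 V.nil)) (Q.cons 1338 (V.cons 4 96 (V.cons 10 32 V.nil)) (Q.cons 1341 (V.cons 3 230 V.nil) (Q.cons 1359 (V.cons 3 (-54) V.nil) (Q.cons 1386 (V.cons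 4 90 (V.cons 10 42 V.nil)) (Q.cons 1395 (V.cons 3 182 V.nil) (Q.cons 1452 (V.cons 4 44 V.nil) (Q.cons 1482 (V.cons 4 176 (V.cons 10 28 V.nil)) (Q.cons 1491 (V.cons 3 6 V.nil) (Q.cons 1875 (V.cons 3 (-6) V.nil) (Q.cons 2730 (V.cons 22 (-2) (V.cons 46 2 V.nil)) (Q.cons 2733 (V.cons 15 (-2) V.nil) (Q.cons 2735 (V.cons 13 (-2) (V.cons 19 2 V.nil)) (Q.cons 3498 (V.cons 4 (-16) (V.cons 10 16 V.nil)) (Q.cons 3756 (V.cons 4 (-4) (V.cons 10 (-4) V.nil)) (Q.cons 5034 (V.cons 4 8 (V.cons 10 (-8) V.nil)) (Q.cons 5295 (V.cons 3 52 V.nil) (Q.cons 5355 (V.cons 3 (-230) V.nil) (Q.cons 5547 (V.cons 3 (-182) V.nil) (Q.cons 5802 (V.cons 4 8 (V.cons 10 (-8) V.nil)) (Q.cons 7338 (V.cons 4 12 (V.cons 10 (-4) V.nil)) (Q.cons 10923 (V.cons 15 2 V.nil) (Q.cons 10926 (V.cons 4 (-6) (V.cons 10 (-2) V.nil)) (Q.cons 15018 (V.cons 4 2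 (V.cons 10 (-2) V.nil)) (Q.cons 15021 (V.cons 3 2 V.nil) (Q.cons 20139 (V.cons 3 (-6) V.nil) (Q.cons 23211 (V.cons 3 (-6) V.nil) (Q.cons 29355 (V.cons 3 6 V.nil) (Q.cons 43695 (V.cons 3 2 V.nil) (Q.cons 60075 (V.cons 3 (-2) V.nil) Q.nil))))))))))))))))))))))))))))))))))))))))),
  (Q.cons 3 (V.cons 1341 (-204) (V.cons 1359 24 (V.cons 1395 (-200) (V.cons 5295 (-24) (V.cons 5355 204 (V.cons 5547 200 V.nil)))))) (Q.cons 10 (V.cons 342 200 (V.cons 348 (-406) (V.cons 372 (-708) (V.cons 978 (-4) (V.cons 1206 (-140) (V.cons 1242 (-334) (V.cons 1260 116 (V.cons 1266 (-116) (V.cons 1326 (-66) (V.cons 1338 334 (V.cons 1386 406 (V.cons 1452 116 (V.cons 1482 580 (V.cons 3498 (-12) (V.cons 3756 (-2) (V.cons 5034 12 (V.cons 5802 12 (V.cons 10926 6 (V.cons 15018 6 V.nil))))))))))))))))))) (Q.cons 13 (V.cons 221 (-16) (V.cons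 311 16 (V.cons 317 16 (V.cons 335 (-20) (V.cons 347 8 (V.cons 365 16 (V.cons 371 (-8) (V.cons 875 20 (V.cons 941 (-4) (V.cons 971 4 (V.cons 1211 (-8) (V.cons 1259 (-16) (V.cons 1451 (-8) V.nil))))))))))))) (Q.cons 15 (V.cons 1323 (-4) (V.cons 2733 4 V.nil)) (Q.cons 20 (V.cons 86 16 (V.cons 182 (-4) (V.cons 218 4 (V.cons 236 (-4) (V.cons 242 4 (V.cons 302 (-4) (V.cons 314 (-4) (V.cons 686 (-8) V.nil)))))))) (Q.cons 22 (V.cons 330 (-8) (V.cons 684 8 V.nil)) (Q.cons 28 (V.cons 330 (-8) (V.cons 684 8 V.nil)) (Q.cons 34 (V.cons 330 (-4) (V.cons 684 4 V.nil)) (Q.cons 43 (V.cons 221 20 (V.cons 245 8 (V.cons 311 (-20) (V.cons 317 (-36) (V.cons 335 18 (V.cons 347 (-2) (V.cons 365 (-36) (V.cons 371 34 (V.cons 875 8 (V.cons 941 6 (V.cons 971 (-8) (V.cons 1211 2 (V.cons 1259 4 (V.cons 1451 2 (V.cons 2735 6 (V.cons 3755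 (-6) V.nil)))))))))))))))) (Q.cons 44 (V.cons 86 (-16) (V.cons 182 4 (V.cons 218 (-4) (V.cons 236 4 (V.cons 242 (-4) (V.cons 302 4 (V.cons 314 4 (V.cons 686 8 V.nil)))))))) (Q.cons 46 (V.cons 330 8 (V.cons 684 (-8) V.nil)) (Q.cons 55 (V.cons 683 (-4) V.nil) (Q.cons 61 (V.cons 683 4 V.nil) (Q.cons 79 (V.cons 173 (-4) (V.cons 683 2 V.nil)) (Q.cons 83 (V.cons 175 (-4) V.nil) (Q.cons 86 (V.cons 170 (-6) V.nil) (Q.cons 91 (V.cons 173 (-4) (V.cons 683 2 V.nil)) (Q.cons 98 (V.cons 170 (-8) V.nil) (Q.cons 106 (V.cons 330 8 (V.cons 684 (-8) V.nil)) (Q.cons 109 (V.cons 173 4 (V.cons 683 (-2) V.nil)) (Q.cons 115 (V.cons 173 (-4) (V.cons 683 2 V.nil)) (Q.cons 116 (V.cons 170 20 V.nil) (Q.cons 173 (V.cons 175 4 V.nil) (Q.cons 175 (V.cons 683 6 V.nil) (Q.cons 182 (V.cons 170 18 V.nil) (Q.cons 187 (V.cons 173 4 (V.cons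 683 (-2) V.nil)) (Q.cons 218 (V.cons 170 22 V.nil) (Q.cons 235 (V.cons 173 4 (V.cons 683 (-8) V.nil)) (Q.cons 236 (V.cons 170 8 V.nil) (Q.cons 242 (V.cons 170 (-2) V.nil) (Q.cons 302 (V.cons 170 (-6) V.nil) (Q.cons 314 (V.cons 170 (-22) V.nil) (Q.cons 428 (V.cons 170 6 V.nil) (Q.cons 458 (V.cons 170 (-26) V.nil) (Q.cons 686 (V.cons 170 (-6) V.nil) (Q.cons 938 (V.cons 170 (-6) V.nil) Q.nil)))))))))))))))))))))))))))))))))))),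
  (Q.cons 13 (V.cons 221 (-8) (V.cons 245 (-2) (V.cons 311 5 (V.cons 317 11 (V.cons 335 (-5) (V.cons 347 (-1) (V.cons 365 5 (V.cons 371 (-7) (V.cons 875 (-2) (V.cons 971 2 (V.cons 1211 1 (V.cons 1259 (-1) (V.cons 1451 2 V.nil))))))))))))) (Q.cons 20 (V.cons 92 (-8) (V.cons 98 4 (V.cons 182 (-15) (V.cons 218 (-19) (V.cons 236 (-11) (V.cons 242 5 (V.cons 302 9 (V.cons 314 19 (V.cons 362 8 (V.cons 686 6 (V.cons 938 6 V.nil))))))))))) (Q.cons 55 (V.cons 83 (-4) (V.cons 173 4 V.nil)) (Q.cons 83 (V.cons 55 (-5) (V.cons 61 3 (V.cons 79 (-1) (V.cons 91 (-3) (V.cons 175 6 (V.cons 187 3 (V.cons 235 (-3) V.nil))))))) (Q.cons 84 (V.cons 22 (-8) (V.cons 46 8 V.nil)) (Q.cons 86 (V.cons 20 (-8) (V.cons 44 8 V.nil)) (Q.cons 98 (V.cons 20 (-4) (V.cons 44 4 V.nil)) (Q.cons 116 (V.cons 20 16 (V.cons 44 (-16) V.nil)) (Q.cons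 182 (V.cons 20 8 (V.cons 44 (-8) V.nil)) (Q.cons 218 (V.cons 20 8 (V.cons 44 (-8) V.nil)) (Q.cons 221 (V.cons 13 12 (V.cons 43 (-2) V.nil)) (Q.cons 311 (V.cons 13 (-12) (V.cons 43 6 V.nil)) (Q.cons 314 (V.cons 20 (-8) (V.cons 44 8 V.nil)) (Q.cons 317 (V.cons 13 (-12) (V.cons 43 6 V.nil)) (Q.cons 330 (V.cons 22 8 (V.cons 46 (-8) V.nil)) (Q.cons 335 (V.cons 13 8 (V.cons 43 (-2) V.nil)) (Q.cons 339 (V.cons 15 4 V.nil) (Q.cons 342 (V.cons 10 22 V.nil) (Q.cons 347 (V.cons 13 (-4) (V.cons 43 2 V.nil)) (Q.cons 348 (V.cons 10 (-44) V.nil) (Q.cons 365 (V.cons 13 (-12) (V.cons 43 6 V.nil)) (Q.cons 371 (V.cons 13 12 (V.cons 43 (-6) V.nil)) (Q.cons 372 (V.cons 10 (-90) V.nil) (Q.cons 458 (V.cons 20 (-16) (V.cons 44 16 V.nil)) (Q.cons 461 (V.cons 13 (-8) (V.cons 43 4 V.nil)) (Q.cons 467 (V.cons 13 8 (V.cons 43 (-4) V.nil))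 (Q.cons 875 (V.cons 43 (-6) V.nil) (Q.cons 1206 (V.cons 10 (-16) V.nil) (Q.cons 1211 (V.cons 13 4 (V.cons 43 (-2) V.nil)) (Q.cons 1242 (V.cons 10 (-42) V.nil) (Q.cons 1259 (V.cons 13 4 (V.cons 43 (-2) V.nil)) (Q.cons 1260 (V.cons 10 16 V.nil) (Q.cons 1266 (V.cons 10 (-10) V.nil) (Q.cons 1323 (V.cons 15 (-4) V.nil) (Q.cons 1326 (V.cons 10 (-6) V.nil) (Q.cons 1338 (V.cons 10 42 V.nil) (Q.cons 1386 (V.cons 10 44 V.nil) (Q.cons 1452 (V.cons 10 16 V.nil) (Q.cons 1482 (V.cons 10 74 V.nil) (Q.cons 3498 (V.cons 10 (-6) V.nil) Q.nil)))))))))))))))))))))))))))))))))))))))),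
  (Q.cons 0 (V.cons 1396 (-4) (V.cons 22186 4 V.nil)) (Q.cons 3 (V.cons 1341 (-22) (V.cons 1359 12 (V.cons 1395 (-4) (V.cons 5295 (-12) (V.cons 5355 22 (V.cons 5547 4 V.nil)))))) (Q.cons 4 (V.cons 1326 (-4) (V.cons 1386 4 V.nil)) (Q.cons 10 (V.cons 342 (-6) (V.cons 348 6 (V.cons 372 10 (V.cons 1206 2 (V.cons 1242 4 (V.cons 1260 (-2) (V.cons 1266 2 (V.cons 1326 8 (V.cons 1338 (-4) (V.cons 1386 (-10) (V.cons 1452 (-2) (V.cons 1482 (-8) V.nil)))))))))))) (Q.cons 13 (V.cons 221 (-4) (V.cons 311 6 (V.cons 317 6 (V.cons 335 (-10) (V.cons 347 6 (V.cons 365 6 (V.cons 371 (-6) (V.cons 1211 (-2) (V.cons 1259 (-2) V.nil))))))))) (Q.cons 19 (V.cons 221 4 (V.cons 311 (-6) (V.cons 317 (-6) (V.cons 335 10 (V.cons 347 (-6) (V.cons 365 (-6) (V.cons 371 6 (V.cons 1211 2 (V.cons 1259 2 V.nil))))))))) (Q.cons 22 (V.cons 330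 (-2) V.nil) (Q.cons 25 (V.cons 83 4 V.nil) (Q.cons 28 (V.cons 330 6 V.nil) (Q.cons 34 (V.cons 330 2 V.nil) (Q.cons 46 (V.cons 84 (-4) (V.cons 330 6 V.nil)) (Q.cons 55 (V.cons 83 (-14) V.nil) (Q.cons 61 (V.cons 83 (-6) V.nil) (Q.cons 79 (V.cons 83 8 V.nil) (Q.cons 91 (V.cons 83 (-6) V.nil) (Q.cons 106 (V.cons 84 4 (V.cons 330 (-10) V.nil)) (Q.cons 115 (V.cons 83 (-6) V.nil) (Q.cons 175 (V.cons 83 6 V.nil) (Q.cons 187 (V.cons 83 6 V.nil) (Q.cons 235 (V.cons 83 6 V.nil) (Q.cons 427 (V.cons 83 6 V.nil) Q.nil))))))))))))))))))))),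
  (Q.cons 43 (V.cons 245 (-2) (V.cons 311 (-1) (V.cons 317 1 (V.cons 335 1 (V.cons 347 (-3) (V.cons 365 (-1) (V.cons 371 (-1) (V.cons 875 (-2) (V.cons 971 2 (V.cons 1211 3 (V.cons 1259 1 (V.cons 1451 2 V.nil)))))))))))) (Q.cons 86 (V.cons 20 4 (V.cons 44 (-4) V.nil)) (Q.cons 116 (V.cons 20 (-8) (V.cons 44 8 V.nil)) (Q.cons 170 (V.cons 86 (-8) (V.cons 92 (-4) (V.cons 98 2 (V.cons 182 (-7) (V.cons 218 (-11) (V.cons 236 (-3) (V.cons 242 (-3) (V.cons 302 9 (V.cons 314 11 (V.cons 362 4 (V.cons 686 6 (V.cons 938 6 V.nil)))))))))))) (Q.cons 173 (V.cons 175 (-4) (V.cons 235 4 V.nil)) (Q.cons 182 (V.cons 20 (-2) (V.cons 44 2 V.nil)) (Q.cons 218 (V.cons 20 2 (V.cons 44 (-2) V.nil)) (Q.cons 221 (V.cons 13 8 (V.cons 43 20 V.nil)) (Q.cons 236 (V.cons 20 10 (V.cons 44 (-10) V.nil)) (Q.cons 242 (V.cons 20 (-6) (V.cons 44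 6 V.nil)) (Q.cons 245 (V.cons 13 (-8) (V.cons 43 8 V.nil)) (Q.cons 302 (V.cons 20 (-6) (V.cons 44 6 V.nil)) (Q.cons 311 (V.cons 13 (-8) (V.cons 43 (-20) V.nil)) (Q.cons 314 (V.cons 20 (-6) (V.cons 44 6 V.nil)) (Q.cons 317 (V.cons 13 (-8) (V.cons 43 (-36) V.nil)) (Q.cons 330 (V.cons 22 4 (V.cons 46 (-8) (V.cons 58 4 V.nil))) (Q.cons 335 (V.cons 13 8 (V.cons 43 18 V.nil)) (Q.cons 342 (V.cons 10 (-56) V.nil) (Q.cons 347 (V.cons 13 (-12) (V.cons 43 (-2) V.nil)) (Q.cons 348 (V.cons 10 42 V.nil) (Q.cons 365 (V.cons 13 (-8) (V.cons 43 (-36) V.nil)) (Q.cons 371 (V.cons 13 4 (V.cons 43 34 V.nil)) (Q.cons 372 (V.cons 10 112 V.nil) (Q.cons 428 (V.cons 20 6 (V.cons 44 (-6) V.nil)) (Q.cons 458 (V.cons 20 2 (V.cons 44 (-2) V.nil)) (Q.cons 461 (V.cons 13 (-4) (V.cons 43 (-34) V.nil)) (Q.cons 467 (V.cons 43 36 V.nil) (Q.cons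 468 (V.cons 10 (-4) V.nil) (Q.cons 683 (V.cons 55 (-3) (V.cons 61 5 (V.cons 79 1 (V.cons 91 3 (V.cons 175 6 (V.cons 187 (-3) (V.cons 235 (-9) V.nil))))))) (Q.cons 684 (V.cons 22 (-4) (V.cons 46 8 (V.cons 58 (-4) V.nil))) (Q.cons 686 (V.cons 20 8 (V.cons 44 (-8) V.nil)) (Q.cons 875 (V.cons 13 (-12) (V.cons 43 8 V.nil)) (Q.cons 938 (V.cons 20 (-4) (V.cons 44 4 V.nil)) (Q.cons 941 (V.cons 43 6 V.nil) (Q.cons 971 (V.cons 13 4 (V.cons 43 (-8) V.nil)) (Q.cons 978 (V.cons 10 12 V.nil) (Q.cons 1206 (V.cons 10 40 V.nil) (Q.cons 1211 (V.cons 13 12 (V.cons 43 2 V.nil)) (Q.cons 1242 (V.cons 10 34 V.nil) (Q.cons 1259 (V.cons 13 16 (V.cons 43 4 V.nil)) (Q.cons 1260 (V.cons 10 (-24) V.nil) (Q.cons 1266 (V.cons 10 16 V.nil) (Q.cons 1326 (V.cons 10 22 V.nil) (Q.cons 1338 (V.cons 10 (-34) V.nil) (Q.cons 1386 (V.cons 10 (-42)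 V.nil) (Q.cons 1451 (V.cons 13 4 (V.cons 43 2 V.nil)) (Q.cons 1452 (V.cons 10 (-24) V.nil) (Q.cons 1482 (V.cons 10 (-84) V.nil) (Q.cons 1835 (V.cons 13 4 (V.cons 43 (-2) V.nil)) (Q.cons 2735 (V.cons 13 (-4) (V.cons 43 6 V.nil)) (Q.cons 3498 (V.cons 10 12 V.nil) (Q.cons 3755 (V.cons 13 4 (V.cons 43 (-6) V.nil)) (Q.cons 3756 (V.cons 10 (-6) V.nil) (Q.cons 5034 (V.cons 10 (-4) V.nil) (Q.cons 5802 (V.cons 10 (-4) V.nil) (Q.cons 7338 (V.cons 10 4 V.nil) (Q.cons 10926 (V.cons 10 (-6) V.nil) (Q.cons 15018 (V.cons 10 (-6) V.nil) Q.nil)))))))))))))))))))))))))))))))))))))))))))))))))))))))))),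
  (Q.cons 3 (V.cons 1341 (-36) (V.cons 1359 8 (V.cons 1395 (-28) (V.cons 5295 (-8) (V.cons 5355 36 (V.cons 5547 28 V.nil)))))) (Q.cons 4 (V.cons 342 (-4) (V.cons 348 4 (V.cons 372 6 (V.cons 1206 (-1) (V.cons 1242 1 (V.cons 1260 (-1) (V.cons 1266 1 (V.cons 1326 3 (V.cons 1338 (-1) (V.cons 1386 (-4) (V.cons 1452 (-3) (V.cons 1482 (-3) (V.cons 4782 2 V.nil))))))))))))) (Q.cons 10 (V.cons 348 (-2) (V.cons 372 (-2) (V.cons 1206 1 (V.cons 1242 (-1) (V.cons 1260 1 (V.cons 1266 (-1) (V.cons 1326 (-1) (V.cons 1338 1 (V.cons 1386 2 (V.cons 1452 1 (V.cons 1482 1 V.nil))))))))))) (Q.cons 13 (V.cons 311 1 (V.cons 317 1 (V.cons 335 1 (V.cons 347 1 (V.cons 365 (-1) (V.cons 371 1 (V.cons 1199 (-2) (V.cons 1211 (-1) (V.cons 1259 (-1) V.nil))))))))) (Q.cons 19 (V.cons 311 (-1) (V.cons 317 (-1) (V.cons 335 (-1) (V.cons 347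 (-1) (V.cons 365 1 (V.cons 371 (-1) (V.cons 1199 2 (V.cons 1211 1 (V.cons 1259 1 V.nil))))))))) (Q.cons 22 (V.cons 84 2 (V.cons 300 (-2) V.nil)) (Q.cons 25 (V.cons 77 (-2) (V.cons 299 1 V.nil)) (Q.cons 28 (V.cons 84 2 (V.cons 300 (-2) V.nil)) (Q.cons 34 (V.cons 84 1 (V.cons 300 (-1) V.nil)) (Q.cons 46 (V.cons 84 (-2) (V.cons 300 2 V.nil)) (Q.cons 55 (V.cons 77 1 V.nil) (Q.cons 61 (V.cons 77 1 V.nil) (Q.cons 79 (V.cons 77 1 V.nil) (Q.cons 91 (V.cons 77 1 V.nil) (Q.cons 92 (V.cons 74 (-2) V.nil) (Q.cons 106 (V.cons 84 (-2) (V.cons 300 2 V.nil)) (Q.cons 109 (V.cons 77 (-1) V.nil) (Q.cons 115 (V.cons 77 1 V.nil) (Q.cons 116 (V.cons 74 (-4) V.nil) (Q.cons 175 (V.cons 77 (-2) V.nil) (Q.cons 182 (V.cons 74 (-2) V.nil) (Q.cons 187 (V.cons 77 (-1) V.nil) (Q.cons 218 (V.cons 74 (-2) V.nil) (Q.cons 235 (V.cons 77 (-1)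 V.nil) (Q.cons 302 (V.cons 74 2 V.nil) (Q.cons 314 (V.cons 74 2 V.nil) (Q.cons 362 (V.cons 74 2 V.nil) (Q.cons 458 (V.cons 74 4 V.nil) Q.nil)))))))))))))))))))))))))))),
  (Q.cons 3 (V.cons 1341 (-1) (V.cons 1395 (-1) (V.cons 5355 1 (V.cons 5547 1 V.nil)))) (Q.cons 4 (V.cons 348 2 (V.cons 372 2 (V.cons 1242 2 (V.cons 1266 2 (V.cons 1338 (-2) (V.cons 1386 (-2) (V.cons 1482 (-2) (V.cons 3498 (-1) V.nil)))))))) (Q.cons 10 (V.cons 342 (-1) (V.cons 348 2 (V.cons 372 5 (V.cons 1206 1 (V.cons 1242 2 (V.cons 1260 (-1) (V.cons 1338 (-2) (V.cons 1386 (-2) (V.cons 1452 (-1) (V.cons 1482 (-4) V.nil)))))))))) (Q.cons 13 (V.cons 875 1 V.nil) (Q.cons 19 (V.cons 221 (-2) V.nil) (Q.cons 20 (V.cons 218 1 V.nil) (Q.cons 43 (V.cons 221 1 V.nil) (Q.cons 74 (V.cons 218 (-1) V.nil) Q.nil)))))))),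
  (Q.cons 10 (V.cons 342 (-1) (V.cons 348 4 (V.cons 372 7 (V.cons 1242 2 (V.cons 1260 (-1) (V.cons 1266 2 (V.cons 1326 1 (V.cons 1338 (-2) (V.cons 1386 (-4) (V.cons 1452 (-1) (V.cons 1482 (-6) (V.cons 3498 (-1) V.nil)))))))))))) (Q.cons 13 (V.cons 221 9 (V.cons 311 (-9) (V.cons 317 (-8) (V.cons 335 9 (V.cons 347 (-6) (V.cons 365 (-8) (V.cons 371 3 (V.cons 875 (-13) (V.cons 971 (-1) (V.cons 1211 7 (V.cons 1259 12 (V.cons 1451 5 (V.cons 3755 1 V.nil))))))))))))) (Q.cons 20 (V.cons 86 (-3) (V.cons 182 3 (V.cons 218 (-1) (V.cons 236 (-2) (V.cons 242 1 (V.cons 302 2 (V.cons 314 2 (V.cons 686 (-1) (V.cons 938 1 V.nil))))))))) (Q.cons 43 (V.cons 221 1 (V.cons 245 1 (V.cons 311 (-1) (V.cons 317 (-2) (V.cons 335 1 (V.cons 347 (-2) (V.cons 365 (-2) (V.cons 371 2 (V.cons 971 (-1) (V.cons 1211 1 (V.cons 1259 1 V.nil)))))))))))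 (Q.cons 44 (V.cons 86 3 (V.cons 182 (-1) (V.cons 218 1 (V.cons 236 2 (V.cons 242 (-1) (V.cons 302 (-2) (V.cons 314 (-2) (V.cons 938 (-1) V.nil)))))))) (Q.cons 55 (V.cons 83 2 (V.cons 683 (-1) V.nil)) (Q.cons 86 (V.cons 44 3 (V.cons 170 1 V.nil)) (Q.cons 116 (V.cons 44 (-3) V.nil) (Q.cons 170 (V.cons 182 (-1) V.nil) (Q.cons 175 (V.cons 83 (-1) V.nil) (Q.cons 182 (V.cons 44 (-1) (V.cons 170 (-1) V.nil)) (Q.cons 187 (V.cons 83 1 (V.cons 173 (-1) V.nil)) (Q.cons 218 (V.cons 44 3 (V.cons 170 (-1) V.nil)) (Q.cons 221 (V.cons 43 2 V.nil) (Q.cons 236 (V.cons 44 2 V.nil) (Q.cons 242 (V.cons 44 (-1) V.nil) (Q.cons 302 (V.cons 44 (-2) V.nil) (Q.cons 311 (V.cons 43 (-2) V.nil) (Q.cons 314 (V.cons 44 (-2) V.nil) (Q.cons 317 (V.cons 43 (-2) V.nil) (Q.cons 335 (V.cons 43 2 V.nil) (Q.cons 347 (V.cons 43 (-1) V.nil) (Q.cons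 365 (V.cons 43 (-2) V.nil) (Q.cons 371 (V.cons 43 1 V.nil) (Q.cons 428 (V.cons 44 2 V.nil) (Q.cons 458 (V.cons 44 1 V.nil) (Q.cons 461 (V.cons 43 (-1) V.nil) (Q.cons 467 (V.cons 43 (-1) V.nil) (Q.cons 875 (V.cons 43 (-2) V.nil) (Q.cons 938 (V.cons 44 (-1) V.nil) (Q.cons 1211 (V.cons 43 1 V.nil) (Q.cons 1259 (V.cons 43 2 V.nil) (Q.cons 1451 (V.cons 43 1 V.nil) (Q.cons 1835 (V.cons 43 2 V.nil) Q.nil)))))))))))))))))))))))))))))))))),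
  (Q.cons 25 (V.cons 83 (-2) (V.cons 299 1 V.nil)) (Q.cons 34 (V.cons 84 1 (V.cons 330 (-1) V.nil)) (Q.cons 55 (V.cons 77 1 (V.cons 83 4 (V.cons 299 (-2) V.nil))) (Q.cons 61 (V.cons 77 1 V.nil) (Q.cons 79 (V.cons 77 (-1) (V.cons 83 (-4) (V.cons 299 2 V.nil))) (Q.cons 86 (V.cons 20 (-2) V.nil) (Q.cons 91 (V.cons 77 1 V.nil) (Q.cons 92 (V.cons 74 2 V.nil) (Q.cons 98 (V.cons 20 (-2) (V.cons 74 1 V.nil)) (Q.cons 109 (V.cons 77 1 (V.cons 83 4 (V.cons 299 (-2) V.nil))) (Q.cons 115 (V.cons 77 1 (V.cons 83 (-4) (V.cons 299 2 V.nil))) (Q.cons 116 (V.cons 20 8 (V.cons 74 2 V.nil)) (Q.cons 182 (V.cons 20 1 V.nil) (Q.cons 187 (V.cons 77 (-1) V.nil) (Q.cons 218 (V.cons 20 5 V.nil) (Q.cons 235 (V.cons 77 (-1) V.nil) (Q.cons 236 (V.cons 20 (-1) V.nil) (Q.cons 242 (V.cons 20 1 V.nil) (Q.cons 302 (V.cons 20 1 V.nil) (Q.cons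 314 (V.cons 20 (-5) V.nil) (Q.cons 362 (V.cons 74 (-2) V.nil) (Q.cons 371 (V.cons 19 (-2) V.nil) (Q.cons 427 (V.cons 77 (-2) V.nil) (Q.cons 428 (V.cons 20 (-1) (V.cons 74 (-2) V.nil)) (Q.cons 458 (V.cons 20 (-5) V.nil) (Q.cons 467 (V.cons 19 (-2) V.nil) (Q.cons 875 (V.cons 19 (-2) V.nil) (Q.cons 1259 (V.cons 19 2 V.nil) (Q.cons 1451 (V.cons 19 2 V.nil) (Q.cons 1706 (V.cons 20 (-2) V.nil) (Q.cons 1835 (V.cons 19 2 V.nil) Q.nil))))))))))))))))))))))))))))))),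
  (Q.cons 19 (V.cons 245 2 (V.cons 311 2 (V.cons 317 4 (V.cons 335 (-2) (V.cons 347 2 (V.cons 365 4 (V.cons 371 (-4) (V.cons 875 (-2) (V.cons 971 (-2) (V.cons 1211 (-2) (V.cons 1259 (-2) V.nil))))))))))) (Q.cons 20 (V.cons 98 2 (V.cons 182 (-3) (V.cons 218 (-5) (V.cons 236 1 (V.cons 242 (-1) (V.cons 302 1 (V.cons 314 5 (V.cons 686 2 V.nil)))))))) (Q.cons 74 (V.cons 86 (-2) (V.cons 98 (-1) (V.cons 182 2 (V.cons 218 2 (V.cons 314 (-2) V.nil))))) (Q.cons 77 (V.cons 55 1 (V.cons 61 1 (V.cons 79 1 (V.cons 91 1 (V.cons 175 (-2) (V.cons 187 (-1) (V.cons 235 (-1) V.nil))))))) (Q.cons 83 (V.cons 55 (-1) (V.cons 61 (-1) (V.cons 79 (-1) (V.cons 91 (-1) (V.cons 175 2 (V.cons 187 1 (V.cons 235 1 V.nil))))))) (Q.cons 86 (V.cons 20 2 (V.cons 44 (-2) V.nil)) (Q.cons 92 (V.cons 20 2 (V.cons 44 (-2) V.nil)) (Q.cons 98 (V.cons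 20 1 (V.cons 44 (-1) V.nil)) (Q.cons 221 (V.cons 13 4 (V.cons 43 (-2) V.nil)) (Q.cons 302 (V.cons 20 (-2) (V.cons 44 2 V.nil)) (Q.cons 311 (V.cons 13 (-5) (V.cons 43 3 V.nil)) (Q.cons 317 (V.cons 13 (-5) (V.cons 43 3 V.nil)) (Q.cons 335 (V.cons 13 7 (V.cons 43 (-3) V.nil)) (Q.cons 347 (V.cons 13 (-1) (V.cons 43 1 V.nil)) (Q.cons 348 (V.cons 10 (-2) V.nil) (Q.cons 362 (V.cons 20 (-2) (V.cons 44 2 V.nil)) (Q.cons 365 (V.cons 13 (-7) (V.cons 43 3 V.nil)) (Q.cons 371 (V.cons 13 7 (V.cons 43 (-3) V.nil)) (Q.cons 372 (V.cons 10 (-4) V.nil) (Q.cons 461 (V.cons 13 (-4) (V.cons 43 2 V.nil)) (Q.cons 467 (V.cons 13 4 (V.cons 43 (-2) V.nil)) (Q.cons 1199 (V.cons 13 (-2) V.nil) (Q.cons 1206 (V.cons 10 (-2) V.nil) (Q.cons 1211 (V.cons 13 1 (V.cons 43 (-1) V.nil)) (Q.cons 1242 (V.cons 10 (-2) V.nil) (Q.cons 1259 (V.cons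 13 1 (V.cons 43 (-1) V.nil)) (Q.cons 1326 (V.cons 10 2 V.nil) (Q.cons 1338 (V.cons 10 2 V.nil) (Q.cons 1386 (V.cons 10 2 V.nil) (Q.cons 1482 (V.cons 10 4 V.nil) Q.nil))))))))))))))))))))))))))))))]

def lits8_4_4 : List Q := [
  (Q.cons 428 (V.cons 20 2 (V.cons 170 (-1) V.nil)) (Q.cons 467 (V.cons 13 (-2) V.nil) (Q.cons 1706 (V.cons 44 (-1) V.nil) (Q.cons 1709 (V.cons 43 1 V.nil) (Q.cons 6827 (V.cons 13 1 V.nil) Q.nil))))),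
  (Q.cons 20 (V.cons 218 1 (V.cons 314 (-1) V.nil)) (Q.cons 83 (V.cons 55 (-1) (V.cons 79 1 (V.cons 91 1 (V.cons 187 (-1) V.nil)))) (Q.cons 84 (V.cons 58 (-1) V.nil) (Q.cons 86 (V.cons 20 1 (V.cons 74 (-1) V.nil)) (Q.cons 330 (V.cons 22 1 (V.cons 46 (-1) (V.cons 58 1 V.nil))) (Q.cons 335 (V.cons 19 1 (V.cons 43 (-1) V.nil)) (Q.cons 339 (V.cons 15 1 V.nil) (Q.cons 342 (V.cons 10 (-1) V.nil) (Q.cons 347 (V.cons 13 (-1) (V.cons 19 1 V.nil)) (Q.cons 1323 (V.cons 15 (-1) V.nil) (Q.cons 1326 (V.cons 10 1 V.nil) (Q.cons 1338 (V.cons 4 1 (V.cons 10 (-1) V.nil)) (Q.cons 1341 (V.cons 3 (-3) V.nil) (Q.cons 1395 (V.cons 3 (-2) V.nil) (Q.cons 5355 (V.cons 3 3 V.nil) (Q.cons 5547 (V.cons 3 2 V.nil) Q.nil)))))))))))))))),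
  (Q.cons 242 (V.cons 20 1 (V.cons 74 (-1) V.nil)) (Q.cons 245 (V.cons 19 2 (V.cons 43 (-1) V.nil)) (Q.cons 342 (V.cons 4 (-3) (V.cons 10 5 V.nil)) (Q.cons 348 (V.cons 4 (-7) (V.cons 10 (-9) V.nil)) (Q.cons 372 (V.cons 10 (-18) V.nil) (Q.cons 468 (V.cons 4 3 V.nil) (Q.cons 971 (V.cons 13 (-1) V.nil) (Q.cons 978 (V.cons 4 1 (V.cons 10 (-1) V.nil)) (Q.cons 1206 (V.cons 4 2 (V.cons 10 (-4) V.nil)) (Q.cons 1242 (V.cons 4 (-2) (V.cons 10 (-9) V.nil)) (Q.cons 1260 (V.cons 4 (-1) (V.cons 10 3 V.nil)) (Q.cons 1266 (V.cons 4 (-1) (V.cons 10 (-3) V.nil)) (Q.cons 1326 (V.cons 4 1 (V.cons 10 (-1) V.nil)) (Q.cons 1338 (V.cons 4 2 (V.cons 10 9 V.nil)) (Q.cons 1386 (V.cons 4 7 (V.cons 10 9 V.nil)) (Q.cons 1395 (V.cons 3 (-1) V.nil) (Q.cons 1452 (V.cons 4 (-1) (V.cons 10 3 V.nil)) (Q.cons 1482 (V.cons 4 2 (V.cons 10 15 V.nil))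 (Q.cons 3498 (V.cons 4 3 V.nil) (Q.cons 5034 (V.cons 4 (-1) V.nil) (Q.cons 5547 (V.cons 3 1 V.nil) (Q.cons 5802 (V.cons 4 (-1) V.nil) (Q.cons 7338 (V.cons 4 (-3) V.nil) Q.nil))))))))))))))))))))))),
  (Q.cons 10 (V.cons 348 9 (V.cons 372 8 (V.cons 1206 1 (V.cons 1242 6 (V.cons 1260 (-1) (V.cons 1266 2 (V.cons 1326 (-1) (V.cons 1338 (-6) (V.cons 1386 (-9) (V.cons 1452 (-1) (V.cons 1482 (-8) (V.cons 3498 (-2) (V.cons 5034 1 (V.cons 5802 1 V.nil)))))))))))))) (Q.cons 13 (V.cons 2735 (-1) V.nil) (Q.cons 19 (V.cons 2735 1 V.nil) (Q.cons 20 (V.cons 686 (-1) V.nil) (Q.cons 43 (V.cons 221 (-3) (V.cons 245 (-1) (V.cons 311 3 (V.cons 317 4 (V.cons 335 (-3) (V.cons 347 2 (V.cons 365 4 (V.cons 371 (-3) (V.cons 875 2 (V.cons 971 1 (V.cons 1211 (-2) (V.cons 1259 (-3) (V.cons 1451 (-1) V.nil))))))))))))) (Q.cons 44 (V.cons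 686 1 V.nil) (Q.cons 46 (V.cons 330 (-1) (V.cons 684 1 V.nil)) (Q.cons 55 (V.cons 683 (-1) V.nil) (Q.cons 79 (V.cons 683 1 V.nil) (Q.cons 83 (V.cons 175 (-1) V.nil) (Q.cons 86 (V.cons 170 (-1) V.nil) (Q.cons 175 (V.cons 83 (-1) (V.cons 173 1 V.nil)) (Q.cons 182 (V.cons 170 1 V.nil) (Q.cons 299 (V.cons 175 1 V.nil) (Q.cons 335 (V.cons 43 (-1) V.nil) (Q.cons 1199 (V.cons 43 1 V.nil) Q.nil)))))))))))))))),
  (Q.cons 106 (V.cons 330 (-1) (V.cons 684 1 V.nil)) (Q.cons 109 (V.cons 683 (-1) V.nil) (Q.cons 115 (V.cons 683 1 V.nil) (Q.cons 116 (V.cons 170 (-1) V.nil) (Q.cons 427 (V.cons 83 (-1) (V.cons 173 1 V.nil)) (Q.cons 428 (V.cons 170 1 V.nil) (Q.cons 467 (V.cons 43 (-1) V.nil) (Q.cons 1835 (V.cons 43 1 V.nil) Q.nil)))))))),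
  (Q.cons 116 (V.cons 170 (-1) V.nil) (Q.cons 427 (V.cons 83 (-1) (V.cons 173 1 V.nil)) (Q.cons 428 (V.cons 170 1 V.nil) (Q.cons 467 (V.cons 43 (-1) V.nil) (Q.cons 1706 (V.cons 20 1 (V.cons 44 (-1) V.nil)) (Q.cons 1709 (V.cons 43 1 V.nil) Q.nil)))))),
  (Q.cons 86 (V.cons 20 (-2) (V.cons 44 2 V.nil)) (Q.cons 116 (V.cons 20 3 (V.cons 44 (-3) V.nil)) (Q.cons 182 (V.cons 20 1 (V.cons 44 (-1) V.nil)) (Q.cons 187 (V.cons 83 1 (V.cons 299 (-1) V.nil)) (Q.cons 221 (V.cons 13 (-2) (V.cons 19 2 (V.cons 43 (-1) V.nil))) (Q.cons 236 (V.cons 20 (-1) (V.cons 44 1 V.nil)) (Q.cons 245 (V.cons 13 1 (V.cons 19 (-1) (V.cons 43 (-2) V.nil))) (Q.cons 302 (V.cons 20 1 (V.cons 44 (-1) V.nil)) (Q.cons 311 (V.cons 13 2 (V.cons 19 (-2) (V.cons 43 1 V.nil))) (Q.cons 317 (V.cons 13 2 (V.cons 19 (-2) V.nil)) (Q.cons 335 (V.cons 13 (-2)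 (V.cons 19 2 (V.cons 43 (-1) V.nil))) (Q.cons 342 (V.cons 10 2 V.nil) (Q.cons 347 (V.cons 13 2 (V.cons 19 (-2) (V.cons 43 1 V.nil))) (Q.cons 348 (V.cons 10 (-9) V.nil) (Q.cons 362 (V.cons 20 (-1) (V.cons 44 1 V.nil)) (Q.cons 365 (V.cons 13 2 (V.cons 19 (-2) V.nil)) (Q.cons 371 (V.cons 13 (-1) (V.cons 19 1 (V.cons 43 1 V.nil))) (Q.cons 372 (V.cons 10 (-16) V.nil) (Q.cons 428 (V.cons 20 (-1) (V.cons 44 1 V.nil)) (Q.cons 458 (V.cons 20 (-2) (V.cons 44 2 V.nil)) (Q.cons 461 (V.cons 13 1 (V.cons 19 (-1) (V.cons 43 (-1) V.nil))) (Q.cons 467 (V.cons 13 (-1) (V.cons 19 1 (V.cons 43 3 V.nil))) (Q.cons 875 (V.cons 13 2 (V.cons 19 (-2) (V.cons 43 3 V.nil))) (Q.cons 938 (V.cons 20 1 (V.cons 44 (-1) V.nil)) (Q.cons 941 (V.cons 43 1 V.nil) (Q.cons 971 (V.cons 43 1 V.nil) (Q.cons 978 (V.cons 10 1 V.nil) (Q.cons 1206 (V.cons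 10 (-1) V.nil) (Q.cons 1211 (V.cons 13 (-2) (V.cons 19 2 (V.cons 43 (-1) V.nil))) (Q.cons 1242 (V.cons 10 (-8) V.nil) (Q.cons 1259 (V.cons 13 (-2) (V.cons 19 2 (V.cons 43 (-2) V.nil))) (Q.cons 1260 (V.cons 10 3 V.nil) (Q.cons 1266 (V.cons 10 (-3) V.nil) (Q.cons 1326 (V.cons 10 (-1) V.nil) (Q.cons 1338 (V.cons 10 8 V.nil) (Q.cons 1341 (V.cons 3 3 V.nil) (Q.cons 1359 (V.cons 3 (-1) V.nil) (Q.cons 1386 (V.cons 10 9 V.nil) (Q.cons 1395 (V.cons 3 3 V.nil) (Q.cons 1451 (V.cons 43 (-1) V.nil) (Q.cons 1452 (V.cons 10 3 V.nil) (Q.cons 1482 (V.cons 10 13 V.nil) (Q.cons 1835 (V.cons 43 (-2) V.nil) (Q.cons 1875 (V.cons 3 (-1) V.nil) (Q.cons 3755 (V.cons 13 (-1) (V.cons 19 1 V.nil)) (Q.cons 3756 (V.cons 10 (-1) V.nil) (Q.cons 5295 (V.cons 3 1 V.nil) (Q.cons 5355 (V.cons 3 (-3) V.nil) (Q.cons 5547 (V.cons 3 (-3) V.nil)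 (Q.cons 29355 (V.cons 3 1 V.nil) Q.nil)))))))))))))))))))))))))))))))))))))))))))))))))),
  (Q.cons 86 (V.cons 44 12 (V.cons 170 (-20) V.nil)) (Q.cons 116 (V.cons 44 (-12) (V.cons 170 16 V.nil)) (Q.cons 170 (V.cons 86 8 (V.cons 182 (-2) (V.cons 218 6 (V.cons 236 6 (V.cons 242 (-2) (V.cons 302 (-6) (V.cons 314 (-6) (V.cons 938 (-4) V.nil)))))))) (Q.cons 173 (V.cons 187 (-4) V.nil) (Q.cons 175 (V.cons 83 (-4) (V.cons 683 4 V.nil)) (Q.cons 182 (V.cons 44 (-4) (V.cons 170 6 V.nil)) (Q.cons 218 (V.cons 44 4 (V.cons 170 (-6) V.nil)) (Q.cons 221 (V.cons 43 16 V.nil) (Q.cons 236 (V.cons 44 8 (V.cons 170 (-6) V.nil)) (Q.cons 242 (V.cons 44 (-4) (V.cons 170 2 V.nil)) (Q.cons 245 (V.cons 43 (-2) V.nil) (Q.cons 302 (V.cons 44 (-8) (V.cons 170 10 V.nil)) (Q.cons 311 (V.cons 43 (-16) V.nil) (Q.cons 314 (V.cons 44 (-8)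 (V.cons 170 10 V.nil)) (Q.cons 317 (V.cons 43 (-12) V.nil) (Q.cons 330 (V.cons 46 (-4) V.nil) (Q.cons 335 (V.cons 43 16 V.nil) (Q.cons 347 (V.cons 43 (-16) V.nil) (Q.cons 365 (V.cons 43 (-12) V.nil) (Q.cons 371 (V.cons 43 2 V.nil) (Q.cons 428 (V.cons 44 8 (V.cons 170 (-10) V.nil)) (Q.cons 458 (V.cons 44 4 (V.cons 170 (-6) V.nil)) (Q.cons 461 (V.cons 43 (-2) V.nil) (Q.cons 467 (V.cons 43 (-16) V.nil) (Q.cons 683 (V.cons 55 (-2) (V.cons 61 (-2) (V.cons 79 (-2) (V.cons 91 (-2) (V.cons 175 4 (V.cons 187 6 (V.cons 235 2 V.nil))))))) (Q.cons 686 (V.cons 170 4 V.nil) (Q.cons 875 (V.cons 43 (-30) V.nil) (Q.cons 938 (V.cons 44 (-4) (V.cons 170 4 V.nil)) (Q.cons 971 (V.cons 43 (-2) V.nil) (Q.cons 1211 (V.cons 43 16 V.nil) (Q.cons 1259 (V.cons 43 26 V.nil) (Q.cons 1451 (V.cons 43 10 V.nil) (Q.cons 1835 (V.cons 43 18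 V.nil) (Q.cons 2730 (V.cons 46 4 V.nil) (Q.cons 3755 (V.cons 43 4 V.nil) Q.nil))))))))))))))))))))))))))))))))))),
  (Q.cons 3 (V.cons 1341 12 (V.cons 1359 (-2) (V.cons 1395 10 (V.cons 5295 2 (V.cons 5355 (-12) (V.cons 5547 (-10) V.nil)))))) (Q.cons 4 (V.cons 342 49 (V.cons 348 (-11) (V.cons 372 (-108) (V.cons 978 (-2) (V.cons 1206 (-28) (V.cons 1242 (-26) (V.cons 1260 25 (V.cons 1266 (-15) (V.cons 1326 (-21) (V.cons 1338 26 (V.cons 1386 11 (V.cons 1452 25 (V.cons 1482 73 (V.cons 3498 (-20) (V.cons 5034 10 (V.cons 5802 10 (V.cons 15018 2 V.nil))))))))))))))))) (Q.cons 10 (V.cons 342 6 (V.cons 348 (-46) (V.cons 372 (-48) (V.cons 1206 (-7) (V.cons 1242 (-31) (V.cons 1260 5 (V.cons 1266 (-9) (V.cons 1326 1 (V.cons 1338 31 (V.cons 1386 46 (V.cons 1452 5 (V.cons 1482 45 (V.cons 3498 6 (V.cons 5034 (-2) (V.cons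 5802 (-2) V.nil))))))))))))))) (Q.cons 13 (V.cons 221 (-8) (V.cons 245 1 (V.cons 311 8 (V.cons 317 6 (V.cons 335 (-8) (V.cons 347 8 (V.cons 365 6 (V.cons 371 (-1) (V.cons 875 15 (V.cons 971 1 (V.cons 1211 (-8) (V.cons 1259 (-13) (V.cons 1451 (-5) (V.cons 3755 (-2) V.nil)))))))))))))) (Q.cons 19 (V.cons 221 16 (V.cons 311 (-14) (V.cons 317 (-10) (V.cons 335 16 (V.cons 347 (-8) (V.cons 365 (-10) (V.cons 371 4 (V.cons 875 (-20) (V.cons 941 2 (V.cons 971 (-4) (V.cons 1211 8 (V.cons 1259 14 (V.cons 1451 6 (V.cons 2735 (-2) (V.cons 3755 2 V.nil))))))))))))))) (Q.cons 20 (V.cons 86 (-4) (V.cons 182 1 (V.cons 218 (-1) (V.cons 236 1 (V.cons 242 (-1) (V.cons 302 1 (V.cons 314 1 (V.cons 686 2 V.nil)))))))) (Q.cons 25 (V.cons 83 2 (V.cons 683 (-1) V.nil)) (Q.cons 43 (V.cons 221 (-2) (V.cons 245 (-2) (V.cons 311 1 (V.cons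 317 (-1) (V.cons 335 (-1) (V.cons 347 (-1) (V.cons 365 (-1) (V.cons 371 1 (V.cons 875 2 (V.cons 971 2 (V.cons 1211 1 (V.cons 1259 1 V.nil)))))))))))) (Q.cons 55 (V.cons 173 (-1) V.nil) (Q.cons 61 (V.cons 173 (-1) V.nil) (Q.cons 74 (V.cons 86 4 (V.cons 182 (-1) (V.cons 218 1 (V.cons 236 (-1) (V.cons 242 1 (V.cons 302 (-1) (V.cons 314 (-1) (V.cons 686 (-2) V.nil)))))))) (Q.cons 79 (V.cons 83 (-2) (V.cons 173 1 V.nil)) (Q.cons 86 (V.cons 44 (-4) V.nil) (Q.cons 91 (V.cons 83 (-2) (V.cons 173 1 V.nil)) (Q.cons 92 (V.cons 170 (-2) V.nil) (Q.cons 98 (V.cons 44 2 (V.cons 170 (-1) V.nil)) (Q.cons 109 (V.cons 83 2 (V.cons 173 (-1) V.nil)) (Q.cons 115 (V.cons 83 (-2) (V.cons 173 1 V.nil)) (Q.cons 116 (V.cons 44 4 (V.cons 170 (-4) V.nil)) (Q.cons 175 (V.cons 83 2 V.nil) (Q.cons 182 (V.cons 44 1 (V.cons 170 (-2) V.nil))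 (Q.cons 187 (V.cons 83 2 (V.cons 173 (-1) V.nil)) (Q.cons 218 (V.cons 44 (-3) (V.cons 170 (-2) V.nil)) (Q.cons 221 (V.cons 43 4 V.nil) (Q.cons 235 (V.cons 173 1 V.nil) (Q.cons 236 (V.cons 44 (-3) V.nil) (Q.cons 242 (V.cons 44 1 V.nil) (Q.cons 302 (V.cons 44 3 (V.cons 170 2 V.nil)) (Q.cons 311 (V.cons 43 (-4) V.nil) (Q.cons 314 (V.cons 44 3 (V.cons 170 2 V.nil)) (Q.cons 317 (V.cons 43 (-4) V.nil) (Q.cons 335 (V.cons 43 4 V.nil) (Q.cons 362 (V.cons 170 2 V.nil) (Q.cons 365 (V.cons 43 (-4) V.nil) (Q.cons 371 (V.cons 43 4 V.nil) (Q.cons 428 (V.cons 44 (-3) V.nil) (Q.cons 458 (V.cons 44 (-1) (V.cons 170 4 V.nil)) (Q.cons 461 (V.cons 43 (-2) V.nil) (Q.cons 467 (V.cons 43 2 V.nil) (Q.cons 875 (V.cons 43 (-2) V.nil) (Q.cons 938 (V.cons 44 2 V.nil) (Q.cons 1259 (V.cons 43 2 V.nil) Q.nil)))))))))))))))))))))))))))))))))))))))))),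
  (Q.cons 4 (V.cons 978 2 (V.cons 15018 (-1) V.nil)) (Q.cons 10 (V.cons 978 (-1) V.nil) (Q.cons 13 (V.cons 3755 (-1) V.nil) (Q.cons 19 (V.cons 3755 1 V.nil) (Q.cons 43 (V.cons 245 (-1) (V.cons 941 1 V.nil)) (Q.cons 74 (V.cons 236 2 (V.cons 938 (-1) V.nil)) (Q.cons 83 (V.cons 235 (-1) V.nil) (Q.cons 170 (V.cons 236 (-1) V.nil) (Q.cons 299 (V.cons 235 1 V.nil) Q.nil)))))))))]

def lits8_4_5 : List Q := [
  (Q.cons 10 (V.cons 342 (-10) (V.cons 348 (-14) (V.cons 372 10 (V.cons 1206 6 (V.cons 1242 (-2) (V.cons 1260 (-4) (V.cons 1266 2 (V.cons 1326 4 (V.cons 1338 2 (V.cons 1386 14 (V.cons 1452 (-4) (V.cons 1482 (-4) (V.cons 3498 4 (V.cons 5034 (-2) (V.cons 5802 (-2) V.nil))))))))))))))) (Q.cons 13 (V.cons 221 (-16) (V.cons 245 1 (V.cons 311 14 (V.cons 317 12 (V.cons 335 (-14) (V.cons 347 10 (V.cons 365 12 (V.cons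 371 (-7) (V.cons 875 19 (V.cons 971 1 (V.cons 1211 (-10) (V.cons 1259 (-15) (V.cons 1451 (-5) (V.cons 3755 (-2) V.nil)))))))))))))) (Q.cons 20 (V.cons 86 (-4) (V.cons 98 2 (V.cons 182 (-2) (V.cons 218 (-8) (V.cons 236 (-2) (V.cons 302 4 (V.cons 314 8 (V.cons 686 2 (V.cons 938 2 V.nil))))))))) (Q.cons 43 (V.cons 221 4 (V.cons 245 (-2) (V.cons 311 (-5) (V.cons 317 (-7) (V.cons 335 5 (V.cons 347 (-3) (V.cons 365 (-7) (V.cons 371 7 (V.cons 971 2 (V.cons 1211 3 (V.cons 1259 3 V.nil))))))))))) (Q.cons 44 (V.cons 86 4 (V.cons 182 (-1) (V.cons 218 3 (V.cons 236 3 (V.cons 242 (-1) (V.cons 302 (-3) (V.cons 314 (-3) (V.cons 938 (-2) V.nil)))))))) (Q.cons 86 (V.cons 20 4 (V.cons 44 (-4) (V.cons 170 2 V.nil))) (Q.cons 98 (V.cons 20 (-2) (V.cons 170 1 V.nil)) (Q.cons 116 (V.cons 20 2 (V.cons 44 4 (V.cons 170 (-4) V.nil)))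 (Q.cons 170 (V.cons 86 (-2) (V.cons 98 (-1) (V.cons 182 2 (V.cons 218 2 (V.cons 314 (-2) V.nil))))) (Q.cons 182 (V.cons 20 2 (V.cons 44 1 (V.cons 170 (-2) V.nil))) (Q.cons 218 (V.cons 20 8 (V.cons 44 (-3) (V.cons 170 (-2) V.nil))) (Q.cons 221 (V.cons 13 (-16) (V.cons 43 4 V.nil)) (Q.cons 236 (V.cons 20 2 (V.cons 44 (-3) V.nil)) (Q.cons 242 (V.cons 44 1 V.nil) (Q.cons 245 (V.cons 13 1 (V.cons 43 (-2) V.nil)) (Q.cons 302 (V.cons 20 (-4) (V.cons 44 3 V.nil)) (Q.cons 311 (V.cons 13 14 (V.cons 43 (-5) V.nil)) (Q.cons 314 (V.cons 20 (-8) (V.cons 44 3 (V.cons 170 2 V.nil))) (Q.cons 317 (V.cons 13 12 (V.cons 43 (-7) V.nil)) (Q.cons 335 (V.cons 13 (-14) (V.cons 43 5 V.nil)) (Q.cons 342 (V.cons 10 10 V.nil) (Q.cons 347 (V.cons 13 10 (V.cons 43 (-3) V.nil)) (Q.cons 348 (V.cons 10 2 V.nil) (Q.cons 365 (V.cons 13 12 (V.cons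 43 (-7) V.nil)) (Q.cons 371 (V.cons 13 (-7) (V.cons 43 7 V.nil)) (Q.cons 372 (V.cons 10 (-16) V.nil) (Q.cons 428 (V.cons 20 4 (V.cons 44 (-3) V.nil)) (Q.cons 458 (V.cons 20 (-6) (V.cons 44 (-1) (V.cons 170 4 V.nil))) (Q.cons 461 (V.cons 13 5 (V.cons 43 (-6) V.nil)) (Q.cons 467 (V.cons 13 4 (V.cons 43 8 V.nil)) (Q.cons 468 (V.cons 10 (-4) V.nil) (Q.cons 686 (V.cons 20 (-2) V.nil) (Q.cons 875 (V.cons 13 19 V.nil) (Q.cons 938 (V.cons 20 (-2) (V.cons 44 2 V.nil)) (Q.cons 971 (V.cons 13 1 (V.cons 43 2 V.nil)) (Q.cons 1206 (V.cons 10 (-6) V.nil) (Q.cons 1211 (V.cons 13 (-10) (V.cons 43 3 V.nil)) (Q.cons 1242 (V.cons 10 (-4) V.nil) (Q.cons 1259 (V.cons 13 (-15) (V.cons 43 3 V.nil)) (Q.cons 1260 (V.cons 10 4 V.nil) (Q.cons 1266 (V.cons 10 (-2) V.nil) (Q.cons 1326 (V.cons 10 (-4) V.nil) (Q.cons 1338 (V.cons 10 4 V.nil)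 (Q.cons 1386 (V.cons 10 (-2) V.nil) (Q.cons 1451 (V.cons 13 (-5) V.nil) (Q.cons 1452 (V.cons 10 4 V.nil) (Q.cons 1482 (V.cons 10 10 V.nil) (Q.cons 1835 (V.cons 13 (-9) (V.cons 43 (-2) V.nil)) (Q.cons 3498 (V.cons 10 (-4) V.nil) (Q.cons 3755 (V.cons 13 (-2) V.nil) (Q.cons 5034 (V.cons 10 2 V.nil) (Q.cons 5802 (V.cons 10 2 V.nil) (Q.cons 7338 (V.cons 10 4 V.nil) Q.nil))))))))))))))))))))))))))))))))))))))))))))))))))))),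
  (Q.cons 106 (V.cons 84 1 (V.cons 330 (-1) V.nil)) (Q.cons 109 (V.cons 83 2 (V.cons 173 (-1) V.nil)) (Q.cons 116 (V.cons 44 (-1) V.nil) (Q.cons 348 (V.cons 10 (-2) V.nil) (Q.cons 372 (V.cons 10 (-1) V.nil) (Q.cons 427 (V.cons 83 (-1) V.nil) (Q.cons 428 (V.cons 20 1 V.nil) (Q.cons 467 (V.cons 13 2 (V.cons 43 (-1) V.nil)) (Q.cons 1242 (V.cons 10 (-1) V.nil) (Q.cons 1338 (V.cons 10 1 V.nil) (Q.cons 1386 (V.cons 10 2 V.nil) (Q.cons 1482 (V.cons 10 1 V.nil) (Q.cons 1709 (V.cons 13 (-1) V.nil) Q.nil))))))))))))),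
  (Q.cons 86 (V.cons 74 2 (V.cons 170 (-2) V.nil)) (Q.cons 116 (V.cons 74 (-1) (V.cons 170 2 V.nil)) (Q.cons 182 (V.cons 74 (-3) (V.cons 170 2 V.nil)) (Q.cons 187 (V.cons 83 1 (V.cons 299 (-1) V.nil)) (Q.cons 218 (V.cons 74 (-2) (V.cons 170 1 V.nil)) (Q.cons 221 (V.cons 13 (-2) (V.cons 19 2 (V.cons 43 (-1) V.nil))) (Q.cons 236 (V.cons 74 (-3) (V.cons 170 1 V.nil)) (Q.cons 242 (V.cons 74 2 (V.cons 170 (-1) V.nil)) (Q.cons 245 (V.cons 13 1 (V.cons 19 (-1) (V.cons 43 (-2) V.nil))) (Q.cons 302 (V.cons 74 1 V.nil) (Q.cons 311 (V.cons 13 2 (V.cons 19 (-2) (V.cons 43 1 V.nil))) (Q.cons 314 (V.cons 74 2 (V.cons 170 (-1) V.nil)) (Q.cons 317 (V.cons 13 2 (V.cons 19 (-2) V.nil)) (Q.cons 335 (V.cons 13 (-2) (V.cons 19 2 (V.cons 43 (-1) V.nil))) (Q.cons 342 (V.cons 4 2 (V.cons 10 1 V.nil)) (Q.cons 347 (V.cons 13 2 (V.cons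 19 (-2) (V.cons 43 1 V.nil))) (Q.cons 348 (V.cons 4 6 (V.cons 10 (-3) V.nil)) (Q.cons 362 (V.cons 74 1 (V.cons 170 (-1) V.nil)) (Q.cons 365 (V.cons 13 2 (V.cons 19 (-2) V.nil)) (Q.cons 371 (V.cons 13 (-1) (V.cons 19 1 (V.cons 43 1 V.nil))) (Q.cons 372 (V.cons 4 5 (V.cons 10 (-6) V.nil)) (Q.cons 428 (V.cons 74 (-1) V.nil) (Q.cons 458 (V.cons 74 2 (V.cons 170 (-2) V.nil)) (Q.cons 461 (V.cons 13 1 (V.cons 19 (-1) (V.cons 43 (-1) V.nil))) (Q.cons 467 (V.cons 13 (-1) (V.cons 19 1 (V.cons 43 3 V.nil))) (Q.cons 468 (V.cons 4 (-2) (V.cons 10 1 V.nil)) (Q.cons 875 (V.cons 13 2 (V.cons 19 (-2) (V.cons 43 3 V.nil))) (Q.cons 938 (V.cons 74 1 V.nil) (Q.cons 941 (V.cons 43 1 V.nil) (Q.cons 971 (V.cons 43 1 V.nil) (Q.cons 978 (V.cons 4 (-1) V.nil) (Q.cons 1206 (V.cons 4 (-2) V.nil) (Q.cons 1211 (V.cons 13 (-2) (V.cons 19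 2 (V.cons 43 (-1) V.nil))) (Q.cons 1242 (V.cons 4 3 (V.cons 10 (-2) V.nil)) (Q.cons 1259 (V.cons 13 (-2) (V.cons 19 2 (V.cons 43 (-2) V.nil))) (Q.cons 1260 (V.cons 10 1 V.nil) (Q.cons 1266 (V.cons 4 2 (V.cons 10 (-1) V.nil)) (Q.cons 1326 (V.cons 10 (-1) V.nil) (Q.cons 1338 (V.cons 4 (-3) (V.cons 10 2 V.nil)) (Q.cons 1341 (V.cons 3 3 V.nil) (Q.cons 1359 (V.cons 3 (-1) V.nil) (Q.cons 1386 (V.cons 4 (-6) (V.cons 10 3 V.nil)) (Q.cons 1395 (V.cons 3 3 V.nil) (Q.cons 1451 (V.cons 43 (-1) V.nil) (Q.cons 1452 (V.cons 10 1 V.nil) (Q.cons 1482 (V.cons 4 (-4) (V.cons 10 4 V.nil)) (Q.cons 1835 (V.cons 43 (-2) V.nil) (Q.cons 1875 (V.cons 3 (-1) V.nil) (Q.cons 3498 (V.cons 4 (-2) V.nil) (Q.cons 3755 (V.cons 13 (-1) (V.cons 19 1 V.nil)) (Q.cons 5295 (V.cons 3 1 V.nil) (Q.cons 5355 (V.cons 3 (-3) V.nil) (Q.cons 5547 (V.cons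 3 (-3) V.nil) (Q.cons 7338 (V.cons 4 2 (V.cons 10 (-1) V.nil)) (Q.cons 15018 (V.cons 4 1 V.nil) (Q.cons 29355 (V.cons 3 1 V.nil) Q.nil)))))))))))))))))))))))))))))))))))))))))))))))))))))))),
  (Q.cons 3 (V.cons 1341 15 (V.cons 1359 (-3) (V.cons 1395 12 (V.cons 5295 3 (V.cons 5355 (-15) (V.cons 5547 (-12) V.nil)))))) (Q.cons 10 (V.cons 342 2 (V.cons 348 (-3) (V.cons 372 (-6) (V.cons 1206 (-2) (V.cons 1242 (-3) (V.cons 1260 1 (V.cons 1266 (-1) (V.cons 1338 3 (V.cons 1386 3 (V.cons 1452 1 (V.cons 1482 5 V.nil))))))))))) (Q.cons 13 (V.cons 221 6 (V.cons 245 (-1) (V.cons 311 (-6) (V.cons 317 (-10) (V.cons 335 6 (V.cons 347 (-4) (V.cons 365 (-10) (V.cons 371 9 (V.cons 941 1 (V.cons 1211 4 (V.cons 1259 5 (V.cons 1451 1 V.nil)))))))))))) (Q.cons 15 (V.cons 339 1 (V.cons 1323 (-1) V.nil)) (Q.cons 19 (V.cons 221 (-3)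 (V.cons 245 2 (V.cons 311 3 (V.cons 317 6 (V.cons 335 (-3) (V.cons 347 2 (V.cons 365 6 (V.cons 371 (-6) (V.cons 875 (-2) (V.cons 941 (-1) (V.cons 971 (-1) (V.cons 1211 (-2) (V.cons 1259 (-2) V.nil))))))))))))) (Q.cons 44 (V.cons 86 3 (V.cons 182 (-3) (V.cons 218 (-1) (V.cons 236 (-1) (V.cons 242 1 (V.cons 314 1 (V.cons 362 1 V.nil))))))) (Q.cons 46 (V.cons 84 1 (V.cons 330 (-1) V.nil)) (Q.cons 55 (V.cons 173 1 V.nil) (Q.cons 61 (V.cons 83 1 (V.cons 173 (-1) V.nil)) (Q.cons 74 (V.cons 86 (-2) (V.cons 182 2 (V.cons 218 1 (V.cons 236 1 (V.cons 242 (-1) (V.cons 314 (-1) (V.cons 362 (-1) V.nil))))))) (Q.cons 77 (V.cons 175 (-1) V.nil) (Q.cons 79 (V.cons 173 (-1) V.nil) (Q.cons 83 (V.cons 175 1 V.nil) (Q.cons 86 (V.cons 20 2 (V.cons 44 (-2) V.nil)) (Q.cons 116 (V.cons 20 (-2) (V.cons 44 2 V.nil)) (Q.cons 182 (V.cons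 20 (-2) (V.cons 44 3 V.nil)) (Q.cons 218 (V.cons 20 (-1) (V.cons 44 1 V.nil)) (Q.cons 221 (V.cons 43 1 V.nil) (Q.cons 236 (V.cons 20 (-1) (V.cons 44 1 V.nil)) (Q.cons 242 (V.cons 20 1 (V.cons 44 (-1) V.nil)) (Q.cons 300 (V.cons 46 (-1) V.nil) (Q.cons 302 (V.cons 44 (-1) V.nil) (Q.cons 314 (V.cons 20 1 (V.cons 44 (-1) V.nil)) (Q.cons 317 (V.cons 43 (-1) V.nil) (Q.cons 330 (V.cons 46 1 V.nil) (Q.cons 342 (V.cons 10 (-4) V.nil) (Q.cons 348 (V.cons 10 4 V.nil) (Q.cons 362 (V.cons 20 1 (V.cons 44 (-1) V.nil)) (Q.cons 372 (V.cons 10 8 V.nil) (Q.cons 458 (V.cons 20 2 (V.cons 44 (-2) V.nil)) (Q.cons 1206 (V.cons 10 4 V.nil) (Q.cons 1242 (V.cons 10 4 V.nil) (Q.cons 1338 (V.cons 10 (-4) V.nil) (Q.cons 1386 (V.cons 10 (-4) V.nil) (Q.cons 1452 (V.cons 10 (-1) V.nil) (Q.cons 1482 (V.cons 10 (-7) V.nil) Q.nil)))))))))))))))))))))))))))))))))))),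
  (Q.cons 10 (V.cons 1206 (-1) (V.cons 1326 1 V.nil)) (Q.cons 20 (V.cons 182 1 V.nil) (Q.cons 43 (V.cons 311 1 (V.cons 335 (-1) V.nil)) (Q.cons 44 (V.cons 302 (-1) V.nil) (Q.cons 46 (V.cons 300 (-1) (V.cons 330 1 V.nil)) (Q.cons 83 (V.cons 55 (-1) V.nil) (Q.cons 84 (V.cons 46 1 V.nil) (Q.cons 86 (V.cons 44 1 V.nil) (Q.cons 173 (V.cons 79 1 V.nil) (Q.cons 175 (V.cons 77 1 (V.cons 83 (-1) V.nil)) (Q.cons 182 (V.cons 74 (-1) V.nil) (Q.cons 221 (V.cons 19 (-3) V.nil) (Q.cons 245 (V.cons 19 (-1) V.nil) (Q.cons 311 (V.cons 19 3 V.nil) (Q.cons 317 (V.cons 19 4 V.nil) (Q.cons 330 (V.cons 46 (-1) V.nil) (Q.cons 335 (V.cons 13 (-1) (V.cons 19 (-2) V.nil)) (Q.cons 339 (V.cons 15 (-1) V.nil) (Q.cons 342 (V.cons 10 1 V.nil) (Q.cons 347 (V.cons 19 2 V.nil) (Q.cons 365 (V.cons 19 4 V.nil) (Q.cons 371 (V.cons 19 (-3) V.nil)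 (Q.cons 461 (V.cons 19 3 V.nil) (Q.cons 467 (V.cons 19 (-2) V.nil) (Q.cons 875 (V.cons 19 2 V.nil) (Q.cons 971 (V.cons 19 1 V.nil) (Q.cons 1211 (V.cons 19 (-2) V.nil) (Q.cons 1259 (V.cons 19 (-3) V.nil) (Q.cons 1323 (V.cons 15 1 V.nil) (Q.cons 1326 (V.cons 10 (-1) V.nil) (Q.cons 1359 (V.cons 3 (-1) V.nil) (Q.cons 1451 (V.cons 19 (-1) V.nil) (Q.cons 1835 (V.cons 19 (-1) V.nil) (Q.cons 5295 (V.cons 3 1 V.nil) Q.nil)))))))))))))))))))))))))))))))))),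
  (Q.cons 10 (V.cons 342 3 (V.cons 348 9 (V.cons 372 2 (V.cons 1206 (-2) (V.cons 1242 4 (V.cons 1260 1 (V.cons 1266 3 (V.cons 1326 (-1) (V.cons 1338 (-4) (V.cons 1386 (-9) (V.cons 1452 1 (V.cons 1482 (-5) (V.cons 3498 (-4) (V.cons 5802 2 V.nil)))))))))))))) (Q.cons 43 (V.cons 221 (-6) (V.cons 245 9 (V.cons 311 10 (V.cons 317 10 (V.cons 335 (-10) (V.cons 347 16 (V.cons 365 10 (V.cons 371 1 (V.cons 875 15 (V.cons 971 (-3) (V.cons 1211 (-16) (V.cons 1259 (-19) (V.cons 1451 (-11) (V.cons 3755 (-6) V.nil)))))))))))))) (Q.cons 44 (V.cons 362 (-4) V.nil) (Q.cons 46 (V.cons 330 4 (V.cons 1194 (-4) V.nil)) (Q.cons 55 (V.cons 83 (-4) (V.cons 299 4 V.nil)) (Q.cons 61 (V.cons 83 (-4) (V.cons 299 4 V.nil)) (Q.cons 79 (V.cons 83 (-4) (V.cons 299 4 V.nil)) (Q.cons 86 (V.cons 44 8 (V.cons 74 (-16) V.nil)) (Q.cons 91 (V.cons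 83 (-4) (V.cons 299 4 V.nil)) (Q.cons 109 (V.cons 83 4 (V.cons 299 (-4) V.nil)) (Q.cons 115 (V.cons 83 (-4) (V.cons 299 4 V.nil)) (Q.cons 116 (V.cons 44 (-12) (V.cons 74 12 (V.cons 170 10 V.nil))) (Q.cons 170 (V.cons 86 10 (V.cons 92 (-4) (V.cons 98 (-2) (V.cons 182 (-5) (V.cons 218 1 (V.cons 236 5 (V.cons 242 1 (V.cons 302 (-5) (V.cons 314 (-1) (V.cons 362 8 (V.cons 938 (-6) V.nil))))))))))) (Q.cons 175 (V.cons 83 8 (V.cons 299 (-8) V.nil)) (Q.cons 182 (V.cons 44 (-4) (V.cons 74 4 (V.cons 170 (-6) V.nil))) (Q.cons 187 (V.cons 83 4 (V.cons 299 (-4) V.nil)) (Q.cons 218 (V.cons 74 (-8) V.nil) (Q.cons 221 (V.cons 13 8 (V.cons 19 (-8) (V.cons 43 (-18) V.nil))) (Q.cons 235 (V.cons 83 4 (V.cons 299 (-4) V.nil)) (Q.cons 236 (V.cons 44 4 (V.cons 74 (-4) (V.cons 170 (-10) V.nil))) (Q.cons 242 (V.cons 170 4 V.nil)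 (Q.cons 245 (V.cons 13 (-12) (V.cons 19 12 (V.cons 43 (-6) V.nil))) (Q.cons 302 (V.cons 44 (-4) (V.cons 74 8 (V.cons 170 4 V.nil))) (Q.cons 311 (V.cons 13 (-8) (V.cons 19 8 (V.cons 43 10 V.nil))) (Q.cons 314 (V.cons 74 8 V.nil) (Q.cons 317 (V.cons 13 (-8) (V.cons 19 8 (V.cons 43 (-16) V.nil))) (Q.cons 330 (V.cons 22 (-4) V.nil) (Q.cons 335 (V.cons 13 8 (V.cons 19 (-8) (V.cons 43 (-16) V.nil))) (Q.cons 342 (V.cons 4 8 (V.cons 10 (-34) V.nil)) (Q.cons 347 (V.cons 13 (-16) (V.cons 19 16 (V.cons 43 2 V.nil))) (Q.cons 348 (V.cons 4 8 (V.cons 10 (-44) V.nil)) (Q.cons 362 (V.cons 44 4 (V.cons 170 (-4) V.nil)) (Q.cons 365 (V.cons 13 (-8) (V.cons 19 8 (V.cons 43 (-16) V.nil))) (Q.cons 371 (V.cons 13 4 (V.cons 19 (-4) (V.cons 43 22 V.nil))) (Q.cons 372 (V.cons 4 (-8) (V.cons 10 54 V.nil)) (Q.cons 428 (V.cons 44 4 (V.cons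 74 (-8) (V.cons 170 (-4) V.nil))) (Q.cons 458 (V.cons 44 8 (V.cons 74 (-4) (V.cons 170 (-6) V.nil))) (Q.cons 461 (V.cons 13 (-4) (V.cons 19 4 (V.cons 43 (-30) V.nil))) (Q.cons 467 (V.cons 43 60 V.nil) (Q.cons 468 (V.cons 4 (-4) (V.cons 10 18 V.nil)) (Q.cons 683 (V.cons 25 (-4) (V.cons 55 3 (V.cons 61 3 (V.cons 79 3 (V.cons 91 3 (V.cons 175 (-6) (V.cons 187 (-3) (V.cons 235 (-3) V.nil)))))))) (Q.cons 686 (V.cons 170 6 V.nil) (Q.cons 875 (V.cons 13 (-20) (V.cons 19 20 (V.cons 43 42 V.nil))) (Q.cons 938 (V.cons 44 (-4) (V.cons 74 4 (V.cons 170 6 V.nil))) (Q.cons 941 (V.cons 43 2 V.nil) (Q.cons 971 (V.cons 13 4 (V.cons 19 (-4) (V.cons 43 10 V.nil))) (Q.cons 1206 (V.cons 4 (-4) (V.cons 10 12 V.nil)) (Q.cons 1211 (V.cons 13 16 (V.cons 19 (-16) (V.cons 43 (-2) V.nil))) (Q.cons 1242 (V.cons 4 4 (V.cons 10 (-16) V.nil))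 (Q.cons 1259 (V.cons 13 20 (V.cons 19 (-20) (V.cons 43 (-8) V.nil))) (Q.cons 1260 (V.cons 4 4 (V.cons 10 (-22) V.nil)) (Q.cons 1266 (V.cons 10 4 V.nil) (Q.cons 1269 (V.cons 3 (-28) V.nil) (Q.cons 1326 (V.cons 4 (-4) (V.cons 10 22 V.nil)) (Q.cons 1338 (V.cons 4 (-4) (V.cons 10 16 V.nil)) (Q.cons 1341 (V.cons 3 (-528) V.nil) (Q.cons 1359 (V.cons 3 124 V.nil) (Q.cons 1386 (V.cons 4 (-12) (V.cons 10 48 V.nil)) (Q.cons 1395 (V.cons 3 (-416) V.nil) (Q.cons 1451 (V.cons 13 4 (V.cons 19 (-4) (V.cons 43 (-6) V.nil))) (Q.cons 1452 (V.cons 4 4 (V.cons 10 (-22) V.nil)) (Q.cons 1482 (V.cons 4 4 (V.cons 10 (-18) V.nil)) (Q.cons 1491 (V.cons 3 (-28) V.nil) (Q.cons 1835 (V.cons 13 4 (V.cons 19 (-4) (V.cons 43 (-30) V.nil))) (Q.cons 1875 (V.cons 3 12 V.nil) (Q.cons 2730 (V.cons 22 (-2) (V.cons 46 6 V.nil)) (Q.cons 2735 (V.cons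 43 6 V.nil) (Q.cons 3498 (V.cons 4 (-8) (V.cons 10 36 V.nil)) (Q.cons 3755 (V.cons 13 8 (V.cons 19 (-8) (V.cons 43 (-6) V.nil))) (Q.cons 5034 (V.cons 4 4 (V.cons 10 (-18) V.nil)) (Q.cons 5295 (V.cons 3 (-124) V.nil) (Q.cons 5355 (V.cons 3 528 V.nil) (Q.cons 5547 (V.cons 3 416 V.nil) (Q.cons 5802 (V.cons 4 4 (V.cons 10 (-18) V.nil)) (Q.cons 7338 (V.cons 4 4 (V.cons 10 (-18) V.nil)) (Q.cons 20139 (V.cons 3 28 V.nil) (Q.cons 23211 (V.cons 3 28 V.nil) (Q.cons 29355 (V.cons 3 (-12) V.nil) Q.nil))))))))))))))))))))))))))))))))))))))))))))))))))))))))))))))))))))))))))))))]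

def lits8_4 : List Q := lits8_4_0 ++ (lits8_4_1 ++ (lits8_4_2 ++ (lits8_4_3 ++ (lits8_4_4 ++ (lits8_4_5)))))

set_option maxRecDepth 1000000
theorem rows8_4_ok : chkRows rows8_4 lits8_4 = true := by decide +kernel

end Pool.Agent.N33.SA
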