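import Pool.Agent.N33.SA.Bil4
set_option autoImplicit false

/-! Rows of the certificate of level 8, part 5. -/

noncomputable section
namespace Pool.Agent.N33.SA

def rows8_5 : List BR := [
  ⟨0, 686, 0, [], []⟩,
  ⟨0, 362, 0, [], []⟩,
  ⟨3, 13, 0, [2], []⟩,
  ⟨3, 79, 0, [], []⟩,
  ⟨27, 43, 0, [], []⟩,
  ⟨10, 58, 0, [], []⟩,
  ⟨46, 4, 0, [], []⟩,
  ⟨22, 4, 0, [], []⟩,
  ⟨175, 3, 0, [], []⟩,
  ⟨79, 3, 0, [], []⟩,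
  ⟨182, 0, 0, [], []⟩,
  ⟨116, 0, 0, [], []⟩,
  ⟨0, 19, 1, [2], []⟩,
  ⟨0, 91, 1, [], []⟩,
  ⟨3, 22, 1, [], []⟩,
  ⟨4, 3, 1, [2], []⟩,
  ⟨22, 3, 1, [], []⟩,
  ⟨61, 0, 1, [], []⟩,
  ⟨0, 684, 2, [], []⟩,
  ⟨10, 170, 2, [], []⟩,
  ⟨43, 43, 2, [], []⟩,
  ⟨19, 19, 2, [], []⟩,
  ⟨20, 4, 2, [], []⟩,
  ⟨300, 0, 2, [], []⟩,
  ⟨3, 44, 3, [], []⟩,
  ⟨4, 19, 3, [], []⟩,
  ⟨44, 3, 3, [], []⟩,
  ⟨0, 173, 4, [], []⟩,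
  ⟨10, 13, 4, [], []⟩,
  ⟨13, 4, 4, [], []⟩,
  ⟨173, 0, 4, [], []⟩,
  ⟨3, 13, 6, [], []⟩,
  ⟨19, 3, 6, [], []⟩,
  ⟨3, 43, 7, [], []⟩,
  ⟨170, 0, 7, [], []⟩,
  ⟨0, 19, 0, [0,2], []⟩,
  ⟨0, 79, 0, [0], []⟩,
  ⟨3, 4, 0, [3], []⟩,
  ⟨15, 10, 0, [0], []⟩,
  ⟨4, 3, 0, [0,2], []⟩,
  ⟨28, 3, 0, [0], []⟩,
  ⟨19, 0, 0, [3], []⟩,
  ⟨55, 0, 0, [0], []⟩,
  ⟨0, 10, 1, [2,0], []⟩,
  ⟨6, 4, 1, [0], []⟩,
  ⟨10, 0, 1, [3], []⟩,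
  ⟨58, 0, 1, [0], []⟩,
  ⟨170, 3, 2, [0], []⟩,
  ⟨0, 10, 0, [2,1], []⟩,
  ⟨0, 58, 0, [1], []⟩,
  ⟨3, 3, 0, [2,1], []⟩,
  ⟨10, 0, 0, [3,0], []⟩,
  ⟨46, 0, 0, [1], []⟩,
  ⟨0, 3, 1, [1,2], []⟩,
  ⟨9, 0, 1, [0,0], []⟩]

def lits8_5_0 : List Q := [
  (Q.cons 3 (V.cons 981 1 (V.cons 1341 (-84) (V.cons 1359 15 (V.cons 1395 (-69) (V.cons 5295 (-15) (V.cons 5355 84 (V.cons 5547 69 (V.cons 15021 (-1) V.nil)))))))) (Q.cons 4 (V.cons 342 39 (V.cons 348 (-92) (V.cons 372 (-164) (V.cons 978 1 (V.cons 1206 (-27) (V.cons 1242 (-78) (V.cons 1260 28 (V.cons 1266 (-28) (V.cons 1326 (-12) (V.cons 1338 78 (V.cons 1386 93 (V.cons 1452 28 (V.cons 1482 134 (V.cons 3498 (-2) (V.cons 3756 (-2) (V.cons 5034 2 (V.cons 5802 2 (V.cons 15018 1 V.nil)))))))))))))))))) (Q.cons 10 (V.cons 342 (-16) (V.cons 348 45 (V.cons 372 75 (V.cons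 978 (-1) (V.cons 1206 12 (V.cons 1242 38 (V.cons 1260 (-12) (V.cons 1266 14 (V.cons 1326 4 (V.cons 1338 (-38) (V.cons 1386 (-46) (V.cons 1452 (-12) (V.cons 1482 (-63) (V.cons 3498 (-2) (V.cons 3756 1 V.nil))))))))))))))) (Q.cons 13 (V.cons 221 5 (V.cons 311 (-5) (V.cons 317 (-4) (V.cons 335 5 (V.cons 347 (-6) (V.cons 365 (-4) (V.cons 371 1 (V.cons 875 (-9) (V.cons 971 (-1) (V.cons 1211 5 (V.cons 1259 8 (V.cons 1451 3 (V.cons 3755 1 V.nil))))))))))))) (Q.cons 19 (V.cons 221 (-5) (V.cons 311 5 (V.cons 317 4 (V.cons 335 (-5) (V.cons 347 6 (V.cons 365 4 (V.cons 371 (-1) (V.cons 875 9 (V.cons 971 1 (V.cons 1211 (-5) (V.cons 1259 (-8) (V.cons 1451 (-3) (V.cons 3755 (-1) V.nil))))))))))))) Q.nil))))),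
  (Q.cons 3 (V.cons 1491 (-1) (V.cons 5805 1 V.nil)) (Q.cons 4 (V.cons 1452 2 (V.cons 5802 (-1) V.nil)) (Q.cons 10 (V.cons 1452 (-1) V.nil) (Q.cons 13 (V.cons 1451 (-1) V.nil) (Q.cons 19 (V.cons 1451 1 V.nil) Q.nil))))),
  (Q.cons 10 (V.cons 342 (-1) (V.cons 1326 1 V.nil)) (Q.cons 13 (V.cons 335 1 V.nil) (Q.cons 20 (V.cons 86 (-1) V.nil) (Q.cons 43 (V.cons 335 (-1) V.nil) (Q.cons 44 (V.cons 86 1 V.nil) (Q.cons 46 (V.cons 84 (-1) (V.cons 330 1 V.nil)) (Q.cons 55 (V.cons 83 1 V.nil) (Q.cons 86 (V.cons 20 (-1) V.nil) (Q.cons 175 (V.cons 83 (-1) V.nil) (Q.cons 182 (V.cons 20 1 V.nil) Q.nil)))))))))),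
  (Q.cons 10 (V.cons 1260 (-1) (V.cons 1266 1 V.nil)) (Q.cons 13 (V.cons 317 2 (V.cons 1259 (-1) V.nil)) (Q.cons 20 (V.cons 314 (-1) V.nil) (Q.cons 43 (V.cons 317 (-1) V.nil) (Q.cons 44 (V.cons 314 1 V.nil) Q.nil))))),
  (Q.cons 106 (V.cons 330 1 (V.cons 684 (-1) V.nil)) (Q.cons 109 (V.cons 173 2 (V.cons 683 (-1) V.nil)) (Q.cons 116 (V.cons 170 (-1) V.nil) (Q.cons 427 (V.cons 173 (-1) V.nil) (Q.cons 428 (V.cons 170 1 V.nil) Q.nil))))),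
  (Q.cons 43 (V.cons 245 (-1) (V.cons 941 1 V.nil)) (Q.cons 44 (V.cons 236 2 (V.cons 938 (-1) V.nil)) (Q.cons 83 (V.cons 235 1 V.nil) (Q.cons 170 (V.cons 236 (-1) V.nil) (Q.cons 173 (V.cons 235 (-1) V.nil) Q.nil))))),
  (Q.cons 86 (V.cons 20 2 (V.cons 74 (-2) V.nil)) (Q.cons 116 (V.cons 20 (-1) (V.cons 74 2 V.nil)) (Q.cons 182 (V.cons 20 (-3) (V.cons 74 2 V.nil)) (Q.cons 187 (V.cons 77 1 (V.cons 83 (-1) V.nil)) (Q.cons 218 (V.cons 20 (-2) (V.cons 74 1 V.nil)) (Q.cons 221 (V.cons 19 (-1) V.nil) (Q.cons 236 (V.cons 20 (-3) (V.cons 74 1 V.nil)) (Q.cons 242 (V.cons 20 2 (V.cons 74 (-1) V.nil)) (Q.cons 245 (V.cons 19 (-2) V.nil) (Q.cons 302 (V.cons 20 1 V.nil) (Q.cons 311 (V.cons 19 1 V.nil) (Q.cons 314 (V.cons 20 2 (V.cons 74 (-1) V.nil)) (Q.cons 335 (V.cons 19 (-1) V.nil) (Q.cons 347 (V.cons 19 1 V.nil)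 (Q.cons 362 (V.cons 20 1 (V.cons 74 (-1) V.nil)) (Q.cons 371 (V.cons 19 1 V.nil) (Q.cons 428 (V.cons 20 (-1) V.nil) (Q.cons 458 (V.cons 20 2 (V.cons 74 (-2) V.nil)) (Q.cons 461 (V.cons 19 (-1) V.nil) (Q.cons 467 (V.cons 19 3 V.nil) (Q.cons 875 (V.cons 19 3 V.nil) (Q.cons 938 (V.cons 20 1 V.nil) (Q.cons 941 (V.cons 19 1 V.nil) (Q.cons 971 (V.cons 19 1 V.nil) (Q.cons 1211 (V.cons 19 (-1) V.nil) (Q.cons 1259 (V.cons 19 (-2) V.nil) (Q.cons 1451 (V.cons 19 (-1) V.nil) (Q.cons 1835 (V.cons 19 (-2) V.nil) Q.nil)))))))))))))))))))))))))))),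
  (Q.cons 91 (V.cons 77 1 (V.cons 83 (-1) V.nil)) (Q.cons 92 (V.cons 20 2 (V.cons 74 (-1) V.nil)) (Q.cons 362 (V.cons 20 (-1) V.nil) (Q.cons 365 (V.cons 19 (-1) V.nil) (Q.cons 371 (V.cons 19 1 V.nil) Q.nil))))),
  (Q.cons 86 (V.cons 20 (-3) (V.cons 44 3 V.nil)) (Q.cons 116 (V.cons 20 3 (V.cons 44 (-3) V.nil)) (Q.cons 182 (V.cons 20 1 (V.cons 44 (-1) V.nil)) (Q.cons 218 (V.cons 20 (-1) (V.cons 44 1 V.nil)) (Q.cons 221 (V.cons 13 4 (V.cons 43 (-3) V.nil)) (Q.cons 236 (V.cons 20 (-2) (V.cons 44 2 V.nil)) (Q.cons 242 (V.cons 20 1 (V.cons 44 (-1) V.nil)) (Q.cons 245 (V.cons 13 (-2) (V.cons 43 2 V.nil)) (Q.cons 302 (V.cons 20 2 (V.cons 44 (-2) V.nil)) (Q.cons 311 (V.cons 13 (-4) (V.cons 43 3 V.nil)) (Q.cons 314 (V.cons 20 2 (V.cons 44 (-2) V.nil)) (Q.cons 317 (V.cons 13 (-10) (V.cons 43 6 V.nil)) (Q.cons 335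 (V.cons 13 4 (V.cons 43 (-3) V.nil)) (Q.cons 342 (V.cons 10 (-11) V.nil) (Q.cons 347 (V.cons 13 (-1) (V.cons 43 2 V.nil)) (Q.cons 348 (V.cons 10 23 V.nil) (Q.cons 365 (V.cons 13 (-10) (V.cons 43 6 V.nil)) (Q.cons 371 (V.cons 13 11 (V.cons 43 (-6) V.nil)) (Q.cons 372 (V.cons 10 46 V.nil) (Q.cons 428 (V.cons 20 (-2) (V.cons 44 2 V.nil)) (Q.cons 458 (V.cons 20 (-1) (V.cons 44 1 V.nil)) (Q.cons 461 (V.cons 13 (-11) (V.cons 43 6 V.nil)) (Q.cons 467 (V.cons 13 16 (V.cons 43 (-8) V.nil)) (Q.cons 468 (V.cons 10 1 V.nil) (Q.cons 875 (V.cons 13 7 (V.cons 43 (-2) V.nil)) (Q.cons 938 (V.cons 20 1 (V.cons 44 (-1) V.nil)) (Q.cons 941 (V.cons 13 2 (V.cons 43 (-1) V.nil)) (Q.cons 971 (V.cons 13 1 (V.cons 43 (-1) V.nil)) (Q.cons 978 (V.cons 10 (-1) V.nil) (Q.cons 1206 (V.cons 10 7 V.nil) (Q.cons 1211 (V.cons 13 1 (V.cons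 43 (-2) V.nil)) (Q.cons 1242 (V.cons 10 21 V.nil) (Q.cons 1259 (V.cons 43 (-2) V.nil) (Q.cons 1260 (V.cons 10 (-8) V.nil) (Q.cons 1266 (V.cons 10 8 V.nil) (Q.cons 1326 (V.cons 10 4 V.nil) (Q.cons 1338 (V.cons 10 (-21) V.nil) (Q.cons 1386 (V.cons 10 (-23) V.nil) (Q.cons 1451 (V.cons 13 (-1) V.nil) (Q.cons 1452 (V.cons 10 (-8) V.nil) (Q.cons 1482 (V.cons 10 (-37) V.nil) (Q.cons 1835 (V.cons 13 (-5) (V.cons 43 2 V.nil)) (Q.cons 3498 (V.cons 10 1 V.nil) (Q.cons 3755 (V.cons 13 (-1) V.nil) (Q.cons 3756 (V.cons 10 1 V.nil) (Q.cons 5034 (V.cons 10 (-1) V.nil) (Q.cons 5802 (V.cons 10 (-1) V.nil) (Q.cons 7338 (V.cons 10 (-1) V.nil) Q.nil)))))))))))))))))))))))))))))))))))))))))))))))),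
  (Q.cons 314 (V.cons 20 1 (V.cons 44 (-1) V.nil)) (Q.cons 317 (V.cons 13 2 (V.cons 43 (-1) V.nil)) (Q.cons 1259 (V.cons 13 (-1) V.nil) (Q.cons 1260 (V.cons 10 1 V.nil) (Q.cons 1266 (V.cons 10 (-1) V.nil) Q.nil)))))]

def lits8_5_1 : List Q := [
  (Q.cons 221 (V.cons 13 2 (V.cons 19 (-2) V.nil)) (Q.cons 311 (V.cons 13 (-2) (V.cons 19 2 V.nil)) (Q.cons 317 (V.cons 13 (-2) (V.cons 19 2 V.nil)) (Q.cons 335 (V.cons 13 2 (V.cons 19 (-2) V.nil)) (Q.cons 342 (V.cons 4 (-6) (V.cons 10 2 V.nil)) (Q.cons 348 (V.cons 4 4 (V.cons 10 (-4) V.nil)) (Q.cons 365 (V.cons 13 (-2) (V.cons 19 2 V.nil)) (Q.cons 371 (V.cons 13 1 (V.cons 19 (-1) V.nil)) (Q.cons 372 (V.cons 4 14 (V.cons 10 (-6) V.nil)) (Q.cons 461 (V.cons 13 (-1) (V.cons 19 1 V.nil)) (Q.cons 467 (V.cons 13 (-1) (V.cons 19 1 V.nil)) (Q.cons 468 (V.cons 4 2 V.nil)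 (Q.cons 875 (V.cons 13 (-2) (V.cons 19 2 V.nil)) (Q.cons 1206 (V.cons 4 5 (V.cons 10 (-2) V.nil)) (Q.cons 1211 (V.cons 13 1 (V.cons 19 (-1) V.nil)) (Q.cons 1242 (V.cons 4 5 (V.cons 10 (-3) V.nil)) (Q.cons 1259 (V.cons 13 2 (V.cons 19 (-2) V.nil)) (Q.cons 1260 (V.cons 4 (-3) (V.cons 10 1 V.nil)) (Q.cons 1266 (V.cons 4 2 (V.cons 10 (-1) V.nil)) (Q.cons 1326 (V.cons 4 1 V.nil) (Q.cons 1338 (V.cons 4 (-5) (V.cons 10 3 V.nil)) (Q.cons 1341 (V.cons 3 (-3) V.nil) (Q.cons 1359 (V.cons 3 1 V.nil) (Q.cons 1386 (V.cons 4 (-3) (V.cons 10 3 V.nil)) (Q.cons 1395 (V.cons 3 (-2) V.nil) (Q.cons 1451 (V.cons 13 1 (V.cons 19 (-1) V.nil)) (Q.cons 1452 (V.cons 4 (-3) (V.cons 10 1 V.nil)) (Q.cons 1482 (V.cons 4 (-10) (V.cons 10 5 V.nil)) (Q.cons 1835 (V.cons 13 2 (V.cons 19 (-2) V.nil)) (Q.cons 3498 (V.cons 4 2 V.nil) (Q.cons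 5034 (V.cons 4 (-1) V.nil) (Q.cons 5295 (V.cons 3 (-1) V.nil) (Q.cons 5355 (V.cons 3 3 V.nil) (Q.cons 5547 (V.cons 3 2 V.nil) (Q.cons 5802 (V.cons 4 (-1) V.nil) (Q.cons 7338 (V.cons 4 (-2) V.nil) Q.nil)))))))))))))))))))))))))))))))))))),
  (Q.cons 348 (V.cons 4 2 V.nil) (Q.cons 372 (V.cons 4 1 V.nil) (Q.cons 467 (V.cons 13 1 (V.cons 19 (-1) V.nil)) (Q.cons 468 (V.cons 4 1 (V.cons 10 (-1) V.nil)) (Q.cons 1242 (V.cons 4 1 V.nil) (Q.cons 1338 (V.cons 4 (-1) V.nil) (Q.cons 1386 (V.cons 4 (-2) V.nil) (Q.cons 1482 (V.cons 4 (-1) V.nil) Q.nil)))))))),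
  (Q.cons 3 (V.cons 1341 12 (V.cons 1359 (-2) (V.cons 1395 10 (V.cons 5295 2 (V.cons 5355 (-12) (V.cons 5547 (-10) V.nil)))))) (Q.cons 10 (V.cons 342 1 (V.cons 1206 (-1) V.nil)) (Q.cons 13 (V.cons 1199 1 V.nil) (Q.cons 15 (V.cons 339 1 (V.cons 1197 (-1) V.nil)) (Q.cons 19 (V.cons 1199 (-1) V.nil) (Q.cons 44 (V.cons 302 1 V.nil) (Q.cons 46 (V.cons 84 1 (V.cons 300 (-1) V.nil)) (Q.cons 55 (V.cons 299 1 V.nil) (Q.cons 74 (V.cons 302 (-1) V.nil) (Q.cons 79 (V.cons 299 (-1) V.nil) (Q.cons 182 (V.cons 74 1 V.nil) (Q.cons 302 (V.cons 74 (-1) V.nil) Q.nil)))))))))))),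
  (Q.cons 3 (V.cons 1491 1 (V.cons 5805 (-1) V.nil)) (Q.cons 10 (V.cons 372 1 (V.cons 1452 (-1) V.nil)) (Q.cons 13 (V.cons 1451 1 V.nil) (Q.cons 19 (V.cons 1451 (-1) V.nil) (Q.cons 44 (V.cons 362 1 V.nil) (Q.cons 74 (V.cons 362 (-1) V.nil) Q.nil)))))),
  (Q.cons 10 (V.cons 1452 1 (V.cons 1482 (-1) V.nil)) (Q.cons 20 (V.cons 362 1 V.nil) (Q.cons 43 (V.cons 365 (-1) (V.cons 371 1 V.nil)) (Q.cons 44 (V.cons 362 (-1) V.nil) (Q.cons 83 (V.cons 91 (-1) V.nil) (Q.cons 173 (V.cons 91 1 V.nil) Q.nil)))))),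
  (Q.cons 19 (V.cons 221 3 (V.cons 245 1 (V.cons 311 (-3) (V.cons 317 (-4) (V.cons 335 3 (V.cons 347 (-2) (V.cons 365 (-4) (V.cons 371 3 (V.cons 875 (-2) (V.cons 971 (-1) (V.cons 1211 2 (V.cons 1259 3 (V.cons 1451 1 V.nil))))))))))))) (Q.cons 74 (V.cons 86 1 (V.cons 182 (-1) V.nil)) (Q.cons 77 (V.cons 175 1 V.nil) (Q.cons 79 (V.cons 83 1 (V.cons 173 (-1) V.nil)) (Q.cons 83 (V.cons 175 (-1) V.nil) (Q.cons 300 (V.cons 46 1 V.nil) (Q.cons 302 (V.cons 20 1 (V.cons 44 (-1) V.nil)) (Q.cons 311 (V.cons 43 1 V.nil) (Q.cons 330 (V.cons 46 (-1) V.nil) (Q.cons 335 (V.cons 43 (-1) V.nil) (Q.cons 1206 (V.cons 10 1 V.nil) (Q.cons 1326 (V.cons 10 (-1) V.nil) Q.nil)))))))))))),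
  (Q.cons 91 (V.cons 83 1 (V.cons 173 (-1) V.nil)) (Q.cons 362 (V.cons 20 1 (V.cons 44 (-1) V.nil)) (Q.cons 365 (V.cons 43 1 V.nil) (Q.cons 371 (V.cons 43 (-1) V.nil) (Q.cons 1452 (V.cons 10 1 V.nil) (Q.cons 1482 (V.cons 10 (-1) V.nil) Q.nil)))))),
  (Q.cons 242 (V.cons 44 1 (V.cons 74 (-1) V.nil)) (Q.cons 342 (V.cons 10 5 V.nil) (Q.cons 348 (V.cons 10 (-9) V.nil) (Q.cons 372 (V.cons 10 (-18) V.nil) (Q.cons 971 (V.cons 13 (-1) (V.cons 19 1 V.nil)) (Q.cons 1206 (V.cons 10 (-4) V.nil) (Q.cons 1242 (V.cons 10 (-9) V.nil) (Q.cons 1260 (V.cons 10 3 V.nil) (Q.cons 1266 (V.cons 10 (-3) V.nil) (Q.cons 1326 (V.cons 10 (-1) V.nil) (Q.cons 1338 (V.cons 10 9 V.nil) (Q.cons 1386 (V.cons 10 9 V.nil) (Q.cons 1395 (V.cons 3 (-1) V.nil) (Q.cons 1452 (V.cons 10 3 V.nil) (Q.cons 1482 (V.cons 10 15 V.nil) (Q.cons 5547 (V.cons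 3 1 V.nil) Q.nil)))))))))))))))),
  (Q.cons 3 (V.cons 1269 (-4) (V.cons 1341 (-32) (V.cons 1359 8 (V.cons 1395 (-24) (V.cons 1491 (-4) (V.cons 5295 (-8) (V.cons 5355 32 (V.cons 5547 24 (V.cons 20139 4 (V.cons 23211 4 V.nil)))))))))) (Q.cons 4 (V.cons 348 (-36) (V.cons 372 (-32) (V.cons 1206 (-4) (V.cons 1242 (-24) (V.cons 1260 4 (V.cons 1266 (-8) (V.cons 1338 24 (V.cons 1386 36 (V.cons 1452 4 (V.cons 1482 32 (V.cons 3498 8 (V.cons 5034 (-4) (V.cons 5802 (-4) V.nil))))))))))))) (Q.cons 9 (V.cons 1323 (-2) V.nil) (Q.cons 10 (V.cons 348 36 (V.cons 372 32 (V.cons 1206 4 (V.cons 1242 24 (V.cons 1260 (-4) (V.cons 1266 8 (V.cons 1338 (-24) (V.cons 1386 (-36) (V.cons 1452 (-4) (V.cons 1482 (-32) (V.cons 3498 (-8) (V.cons 5034 4 (V.cons 5802 4 V.nil))))))))))))) Q.nil)))),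
  (Q.cons 10 (V.cons 348 8 (V.cons 372 4 (V.cons 1242 4 (V.cons 1338 (-4) (V.cons 1386 (-8) (V.cons 1482 (-4) V.nil)))))) (Q.cons 43 (V.cons 221 8 (V.cons 245 (-6) (V.cons 311 (-8) (V.cons 317 (-12) (V.cons 335 12 (V.cons 347 (-4) (V.cons 365 (-12) (V.cons 371 10 (V.cons 875 (-2) (V.cons 941 4 (V.cons 971 2 (V.cons 1211 4 (V.cons 1259 6 (V.cons 1451 2 (V.cons 2735 (-4) V.nil))))))))))))))) (Q.cons 44 (V.cons 686 (-4) V.nil) (Q.cons 46 (V.cons 684 (-4) (V.cons 2730 4 V.nil)) (Q.cons 55 (V.cons 683 (-2) V.nil) (Q.cons 61 (V.cons 683 (-2) V.nil) (Q.cons 79 (V.cons 683 (-2) V.nil) (Q.cons 91 (V.cons 683 (-2) V.nil) (Q.cons 109 (V.cons 683 2 V.nil) (Q.cons 115 (V.cons 683 (-2) V.nil) (Q.cons 170 (V.cons 686 4 V.nil) (Q.cons 175 (V.cons 683 4 V.nil) (Q.cons 187 (V.cons 683 2 V.nil) (Q.cons 235 (V.cons 683 2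 V.nil) Q.nil))))))))))))))]

def lits8_5_2 : List Q := [
  (Q.cons 86 (V.cons 170 8 V.nil) (Q.cons 116 (V.cons 170 (-4) V.nil) (Q.cons 170 (V.cons 86 (-8) (V.cons 182 2 (V.cons 218 (-2) (V.cons 236 2 (V.cons 242 (-2) (V.cons 302 2 (V.cons 314 2 (V.cons 686 4 V.nil)))))))) (Q.cons 173 (V.cons 175 (-4) V.nil) (Q.cons 175 (V.cons 173 (-4) (V.cons 683 4 V.nil)) (Q.cons 182 (V.cons 170 (-2) V.nil) (Q.cons 218 (V.cons 170 2 V.nil) (Q.cons 236 (V.cons 170 (-2) V.nil) (Q.cons 242 (V.cons 170 2 V.nil) (Q.cons 302 (V.cons 170 (-2) V.nil) (Q.cons 314 (V.cons 170 (-2) V.nil) (Q.cons 428 (V.cons 170 2 V.nil) (Q.cons 458 (V.cons 170 2 V.nil) (Q.cons 683 (V.cons 175 4 V.nil) (Q.cons 686 (V.cons 170 (-4) V.nil) Q.nil))))))))))))))),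
  (Q.cons 74 (V.cons 86 (-4) (V.cons 92 (-4) (V.cons 98 (-2) (V.cons 302 4 (V.cons 362 4 V.nil))))) (Q.cons 77 (V.cons 79 (-4) V.nil) (Q.cons 79 (V.cons 77 (-4) (V.cons 299 4 V.nil)) (Q.cons 86 (V.cons 74 4 V.nil) (Q.cons 92 (V.cons 74 4 V.nil) (Q.cons 98 (V.cons 74 2 V.nil) (Q.cons 299 (V.cons 79 4 V.nil) (Q.cons 302 (V.cons 74 (-4) V.nil) (Q.cons 362 (V.cons 74 (-4) V.nil) Q.nil))))))))),
  (Q.cons 83 (V.cons 25 2 V.nil) (Q.cons 84 (V.cons 22 (-4) V.nil) (Q.cons 86 (V.cons 20 (-4) (V.cons 74 4 V.nil)) (Q.cons 221 (V.cons 19 4 V.nil) (Q.cons 311 (V.cons 19 (-6) V.nil) (Q.cons 317 (V.cons 19 (-6) V.nil) (Q.cons 330 (V.cons 22 4 V.nil) (Q.cons 335 (V.cons 19 6 V.nil) (Q.cons 347 (V.cons 19 (-2) V.nil) (Q.cons 365 (V.cons 19 (-6) V.nil) (Q.cons 371 (V.cons 19 6 V.nil) (Q.cons 461 (V.cons 19 (-4) V.nil)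 (Q.cons 467 (V.cons 19 4 V.nil) (Q.cons 1211 (V.cons 19 2 V.nil) (Q.cons 1259 (V.cons 19 2 V.nil) Q.nil))))))))))))))),
  (Q.cons 1206 (V.cons 4 (-4) (V.cons 10 4 V.nil)) (Q.cons 1341 (V.cons 3 (-68) V.nil) (Q.cons 1359 (V.cons 3 16 V.nil) (Q.cons 1395 (V.cons 3 (-52) V.nil) (Q.cons 5295 (V.cons 3 (-16) V.nil) (Q.cons 5355 (V.cons 3 68 V.nil) (Q.cons 5547 (V.cons 3 52 V.nil) Q.nil))))))),
  (Q.cons 3 (V.cons 1341 30 (V.cons 1359 (-2) (V.cons 1395 34 (V.cons 5295 2 (V.cons 5355 (-30) (V.cons 5547 (-34) V.nil)))))) (Q.cons 10 (V.cons 342 (-8) (V.cons 348 4 (V.cons 372 18 (V.cons 1206 6 (V.cons 1242 6 (V.cons 1260 (-4) (V.cons 1266 2 (V.cons 1326 2 (V.cons 1338 (-6) (V.cons 1386 (-4) (V.cons 1452 (-4) (V.cons 1482 (-12) (V.cons 3498 4 (V.cons 5034 (-2) (V.cons 5802 (-2) V.nil))))))))))))))) (Q.cons 13 (V.cons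 221 4 (V.cons 311 (-4) (V.cons 317 (-4) (V.cons 335 2 (V.cons 365 (-4) (V.cons 371 2 (V.cons 875 (-4) (V.cons 1211 2 (V.cons 1259 4 (V.cons 1451 2 V.nil)))))))))) (Q.cons 15 (V.cons 339 2 (V.cons 1323 (-2) V.nil)) (Q.cons 20 (V.cons 182 (-2) V.nil) (Q.cons 22 (V.cons 330 4 V.nil) (Q.cons 28 (V.cons 330 4 V.nil) (Q.cons 34 (V.cons 330 2 V.nil) (Q.cons 43 (V.cons 221 (-8) (V.cons 245 (-4) (V.cons 311 6 (V.cons 317 2 (V.cons 335 (-4) (V.cons 347 (-2) (V.cons 365 2 (V.cons 875 8 (V.cons 971 4 (V.cons 1259 (-2) (V.cons 1451 (-2) V.nil))))))))))) (Q.cons 44 (V.cons 182 2 V.nil) (Q.cons 46 (V.cons 330 (-4) V.nil) (Q.cons 55 (V.cons 83 (-2) V.nil) (Q.cons 61 (V.cons 83 2 V.nil) (Q.cons 106 (V.cons 330 (-4) V.nil) (Q.cons 175 (V.cons 83 2 V.nil) (Q.cons 235 (V.cons 83 (-2) V.nil) Q.nil)))))))))))))))),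
  (Q.cons 19 (V.cons 311 2 (V.cons 317 (-2) (V.cons 1199 (-2) (V.cons 1259 2 V.nil)))) (Q.cons 20 (V.cons 302 (-2) (V.cons 314 2 V.nil)) (Q.cons 22 (V.cons 84 (-2) (V.cons 300 2 V.nil)) (Q.cons 25 (V.cons 299 (-2) V.nil) (Q.cons 74 (V.cons 86 4 (V.cons 92 4 (V.cons 98 2 (V.cons 302 (-2) (V.cons 314 (-2) (V.cons 362 (-4) V.nil)))))) (Q.cons 77 (V.cons 79 (-2) V.nil) (Q.cons 79 (V.cons 77 2 (V.cons 299 (-2) V.nil)) (Q.cons 83 (V.cons 79 2 V.nil) (Q.cons 86 (V.cons 74 (-2) V.nil) (Q.cons 91 (V.cons 77 (-2) (V.cons 299 2 V.nil)) (Q.cons 92 (V.cons 74 2 V.nil) (Q.cons 302 (V.cons 74 2 V.nil) (Q.cons 362 (V.cons 74 (-2) V.nil) Q.nil))))))))))))),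
  (Q.cons 44 (V.cons 86 (-2) (V.cons 182 1 (V.cons 218 1 (V.cons 236 (-1) (V.cons 242 1 (V.cons 302 1 (V.cons 314 (-1) V.nil))))))) (Q.cons 83 (V.cons 55 2 (V.cons 61 (-2) (V.cons 175 (-2) (V.cons 235 2 V.nil)))) (Q.cons 182 (V.cons 20 (-2) (V.cons 44 2 V.nil)) (Q.cons 221 (V.cons 13 (-4) (V.cons 43 8 V.nil)) (Q.cons 245 (V.cons 43 4 V.nil) (Q.cons 311 (V.cons 13 4 (V.cons 43 (-6) V.nil)) (Q.cons 317 (V.cons 13 4 (V.cons 43 (-2) V.nil)) (Q.cons 330 (V.cons 22 4 (V.cons 46 (-4) V.nil)) (Q.cons 335 (V.cons 13 (-2) (V.cons 43 4 V.nil)) (Q.cons 339 (V.cons 15 (-2) V.nil) (Q.cons 342 (V.cons 10 (-8) V.nil) (Q.cons 347 (V.cons 43 2 V.nil) (Q.cons 365 (V.cons 13 4 (V.cons 43 (-2) V.nil)) (Q.cons 371 (V.cons 13 (-2) V.nil) (Q.cons 372 (V.cons 10 16 V.nil) (Q.cons 461 (V.cons 13 2 (V.cons 43 2 V.nil)) (Q.cons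 467 (V.cons 13 2 (V.cons 43 (-10) V.nil)) (Q.cons 468 (V.cons 10 4 V.nil) (Q.cons 875 (V.cons 13 4 (V.cons 43 (-8) V.nil)) (Q.cons 971 (V.cons 43 (-4) V.nil) (Q.cons 1206 (V.cons 10 6 V.nil) (Q.cons 1211 (V.cons 13 (-2) V.nil) (Q.cons 1242 (V.cons 10 4 V.nil) (Q.cons 1259 (V.cons 13 (-4) (V.cons 43 2 V.nil)) (Q.cons 1260 (V.cons 10 (-4) V.nil) (Q.cons 1266 (V.cons 10 2 V.nil) (Q.cons 1323 (V.cons 15 2 V.nil) (Q.cons 1326 (V.cons 10 2 V.nil) (Q.cons 1338 (V.cons 10 (-4) V.nil) (Q.cons 1451 (V.cons 13 (-2) (V.cons 43 2 V.nil)) (Q.cons 1452 (V.cons 10 (-4) V.nil) (Q.cons 1482 (V.cons 10 (-10) V.nil) (Q.cons 1835 (V.cons 13 (-4) (V.cons 43 8 V.nil)) (Q.cons 3498 (V.cons 10 4 V.nil) (Q.cons 5034 (V.cons 10 (-2) V.nil) (Q.cons 5802 (V.cons 10 (-2) V.nil) (Q.cons 7338 (V.cons 10 (-4) V.nil) Q.nil))))))))))))))))))))))))))))))))))))),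
  (Q.cons 0 (V.cons 1396 4 (V.cons 22186 (-4) V.nil)) (Q.cons 3 (V.cons 1341 46 (V.cons 1359 (-12) (V.cons 1395 34 (V.cons 5295 12 (V.cons 5355 (-46) (V.cons 5547 (-34) V.nil)))))) (Q.cons 4 (V.cons 342 26 (V.cons 348 (-52) (V.cons 372 (-82) (V.cons 1206 (-22) (V.cons 1242 (-46) (V.cons 1260 12 (V.cons 1266 (-14) (V.cons 1326 (-6) (V.cons 1338 48 (V.cons 1386 52 (V.cons 1452 12 (V.cons 1482 70 (V.cons 3498 2 V.nil))))))))))))) (Q.cons 6 (V.cons 340 (-2) (V.cons 5290 2 V.nil)) (Q.cons 9 (V.cons 1323 (-4) V.nil) (Q.cons 10 (V.cons 342 30 (V.cons 348 (-68) (V.cons 372 (-110) (V.cons 1206 (-22) (V.cons 1242 (-54) (V.cons 1260 16 (V.cons 1266 (-22) (V.cons 1326 (-6) (V.cons 1338 52 (V.cons 1386 68 (V.cons 1452 16 (V.cons 1482 94 (V.cons 3498 6 V.nil))))))))))))) (Q.cons 13 (V.cons 221 (-6) (V.cons 245 (-2)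 (V.cons 311 6 (V.cons 317 8 (V.cons 335 (-4) (V.cons 347 4 (V.cons 365 8 (V.cons 371 (-6) (V.cons 875 4 (V.cons 971 2 (V.cons 1211 (-4) (V.cons 1259 (-6) (V.cons 1451 (-2) V.nil))))))))))))) (Q.cons 19 (V.cons 221 6 (V.cons 245 2 (V.cons 311 (-6) (V.cons 317 (-8) (V.cons 335 4 (V.cons 347 (-4) (V.cons 365 (-8) (V.cons 371 6 (V.cons 875 (-4) (V.cons 971 (-2) (V.cons 1211 4 (V.cons 1259 6 (V.cons 1451 2 V.nil))))))))))))) (Q.cons 22 (V.cons 330 (-2) V.nil) (Q.cons 28 (V.cons 330 2 V.nil) (Q.cons 46 (V.cons 330 2 V.nil) (Q.cons 106 (V.cons 330 (-2) V.nil) Q.nil)))))))))))),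
  (Q.cons 10 (V.cons 372 6 (V.cons 1242 2 (V.cons 1338 (-2) (V.cons 1482 (-6) V.nil)))) (Q.cons 43 (V.cons 221 (-2) (V.cons 875 2 V.nil)) (Q.cons 44 (V.cons 86 2 (V.cons 98 2 (V.cons 182 (-4) (V.cons 218 (-2) (V.cons 314 4 V.nil))))) (Q.cons 46 (V.cons 84 (-2) (V.cons 330 2 V.nil)) (Q.cons 55 (V.cons 83 (-4) V.nil) (Q.cons 61 (V.cons 83 (-4) V.nil) (Q.cons 79 (V.cons 83 (-4) V.nil) (Q.cons 83 (V.cons 55 (-2) V.nil) (Q.cons 91 (V.cons 83 (-4) V.nil) (Q.cons 109 (V.cons 83 4 V.nil) (Q.cons 115 (V.cons 83 (-4) V.nil) (Q.cons 116 (V.cons 20 2 V.nil) (Q.cons 170 (V.cons 86 6 (V.cons 98 2 (V.cons 182 (-4) (V.cons 218 (-6) (V.cons 314 4 V.nil))))) (Q.cons 173 (V.cons 55 2 V.nil) (Q.cons 175 (V.cons 83 8 V.nil) (Q.cons 182 (V.cons 20 (-4) V.nil) (Q.cons 187 (V.cons 83 4 V.nil) (Q.cons 218 (V.cons 20 (-2) V.nil)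 (Q.cons 235 (V.cons 83 4 V.nil) (Q.cons 236 (V.cons 20 (-4) V.nil) (Q.cons 242 (V.cons 20 2 V.nil) (Q.cons 302 (V.cons 20 2 V.nil) (Q.cons 314 (V.cons 20 2 V.nil) (Q.cons 428 (V.cons 20 (-2) V.nil) (Q.cons 686 (V.cons 20 2 V.nil) (Q.cons 938 (V.cons 20 2 V.nil) Q.nil)))))))))))))))))))))))))),
  (Q.cons 20 (V.cons 86 (-2) (V.cons 92 2 (V.cons 302 2 (V.cons 362 (-2) V.nil)))) (Q.cons 55 (V.cons 77 (-2) (V.cons 83 2 V.nil)) (Q.cons 83 (V.cons 25 4 V.nil) (Q.cons 84 (V.cons 22 (-2) V.nil) (Q.cons 86 (V.cons 20 2 (V.cons 74 6 V.nil)) (Q.cons 98 (V.cons 20 2 (V.cons 74 2 V.nil)) (Q.cons 116 (V.cons 20 (-8) (V.cons 74 (-8) V.nil)) (Q.cons 182 (V.cons 20 (-4) (V.cons 74 (-4) V.nil)) (Q.cons 218 (V.cons 20 (-2) (V.cons 74 (-6) V.nil)) (Q.cons 221 (V.cons 19 2 V.nil) (Q.cons 314 (V.cons 20 4 (V.cons 74 4 V.nil))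 (Q.cons 330 (V.cons 22 2 V.nil) (Q.cons 458 (V.cons 20 8 (V.cons 74 8 V.nil)) (Q.cons 875 (V.cons 19 (-2) V.nil) Q.nil))))))))))))))]

def lits8_5_3 : List Q := [
  (Q.cons 173 (V.cons 25 1 (V.cons 55 (-1) (V.cons 61 1 (V.cons 79 1 (V.cons 91 1 (V.cons 187 (-1) (V.cons 235 (-1) V.nil))))))) (Q.cons 221 (V.cons 13 6 (V.cons 19 (-6) V.nil)) (Q.cons 245 (V.cons 13 2 (V.cons 19 (-2) V.nil)) (Q.cons 311 (V.cons 13 (-6) (V.cons 19 6 V.nil)) (Q.cons 317 (V.cons 13 (-8) (V.cons 19 8 V.nil)) (Q.cons 330 (V.cons 22 (-2) (V.cons 46 2 V.nil)) (Q.cons 335 (V.cons 13 4 (V.cons 19 (-4) V.nil)) (Q.cons 342 (V.cons 4 26 (V.cons 10 30 V.nil)) (Q.cons 347 (V.cons 13 (-4) (V.cons 19 4 V.nil)) (Q.cons 348 (V.cons 4 (-44) (V.cons 10 (-76) V.nil)) (Q.cons 365 (V.cons 13 (-8) (V.cons 19 8 V.nil)) (Q.cons 371 (V.cons 13 6 (V.cons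 19 (-6) V.nil)) (Q.cons 372 (V.cons 4 (-78) (V.cons 10 (-114) V.nil)) (Q.cons 461 (V.cons 13 (-6) (V.cons 19 6 V.nil)) (Q.cons 467 (V.cons 13 4 (V.cons 19 (-4) V.nil)) (Q.cons 468 (V.cons 4 (-4) (V.cons 10 4 V.nil)) (Q.cons 875 (V.cons 13 (-4) (V.cons 19 4 V.nil)) (Q.cons 971 (V.cons 13 (-2) (V.cons 19 2 V.nil)) (Q.cons 1206 (V.cons 4 (-22) (V.cons 10 (-22) V.nil)) (Q.cons 1211 (V.cons 13 4 (V.cons 19 (-4) V.nil)) (Q.cons 1242 (V.cons 4 (-42) (V.cons 10 (-58) V.nil)) (Q.cons 1259 (V.cons 13 6 (V.cons 19 (-6) V.nil)) (Q.cons 1260 (V.cons 4 12 (V.cons 10 16 V.nil)) (Q.cons 1266 (V.cons 4 (-14) (V.cons 10 (-22) V.nil)) (Q.cons 1326 (V.cons 4 (-6) (V.cons 10 (-6) V.nil)) (Q.cons 1338 (V.cons 4 44 (V.cons 10 56 V.nil)) (Q.cons 1341 (V.cons 3 (-10) V.nil) (Q.cons 1359 (V.cons 3 4 V.nil) (Q.cons 1386 (V.cons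 4 44 (V.cons 10 76 V.nil)) (Q.cons 1395 (V.cons 3 (-10) V.nil) (Q.cons 1451 (V.cons 13 2 (V.cons 19 (-2) V.nil)) (Q.cons 1452 (V.cons 4 12 (V.cons 10 16 V.nil)) (Q.cons 1482 (V.cons 4 66 (V.cons 10 98 V.nil)) (Q.cons 1835 (V.cons 13 2 (V.cons 19 (-2) V.nil)) (Q.cons 1875 (V.cons 3 2 V.nil) (Q.cons 3498 (V.cons 4 2 (V.cons 10 6 V.nil)) (Q.cons 5295 (V.cons 3 (-4) V.nil) (Q.cons 5355 (V.cons 3 10 V.nil) (Q.cons 5547 (V.cons 3 10 V.nil) (Q.cons 7338 (V.cons 4 4 (V.cons 10 (-4) V.nil)) (Q.cons 29355 (V.cons 3 (-2) V.nil) Q.nil))))))))))))))))))))))))))))))))))))))))),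
  (Q.cons 3 (V.cons 1341 6 (V.cons 1359 (-2) (V.cons 1395 2 (V.cons 5295 2 (V.cons 5355 (-6) (V.cons 5547 (-2) V.nil)))))) (Q.cons 10 (V.cons 342 (-22) (V.cons 348 16 (V.cons 372 52 (V.cons 1206 16 (V.cons 1242 20 (V.cons 1260 (-16) (V.cons 1266 10 (V.cons 1326 6 (V.cons 1338 (-20) (V.cons 1386 (-16) (V.cons 1452 (-16) (V.cons 1482 (-36) (V.cons 3498 6 V.nil))))))))))))) (Q.cons 13 (V.cons 221 12 (V.cons 311 (-12) (V.cons 317 (-12) (V.cons 335 8 (V.cons 347 (-4) (V.cons 365 (-12) (V.cons 371 12 (V.cons 1211 4 (V.cons 1259 4 V.nil))))))))) (Q.cons 15 (V.cons 339 4 (V.cons 1323 (-4) V.nil)) (Q.cons 20 (V.cons 86 8 (V.cons 98 4 (V.cons 182 (-8) (V.cons 218 (-8) (V.cons 314 8 V.nil))))) (Q.cons 22 (V.cons 84 8 (V.cons 330 (-8) V.nil)) (Q.cons 28 (V.cons 84 8 (V.cons 330 (-8) V.nil)) (Q.cons 34 (V.cons 84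 4 (V.cons 330 (-4) V.nil)) (Q.cons 43 (V.cons 221 (-2) (V.cons 311 6 (V.cons 317 6 (V.cons 335 (-2) (V.cons 347 2 (V.cons 365 6 (V.cons 371 (-6) (V.cons 875 (-6) (V.cons 1211 (-2) (V.cons 1259 (-2) V.nil)))))))))) (Q.cons 44 (V.cons 86 (-8) (V.cons 98 (-4) (V.cons 182 8 (V.cons 218 8 (V.cons 314 (-8) V.nil))))) (Q.cons 46 (V.cons 84 (-8) (V.cons 330 8 V.nil)) (Q.cons 55 (V.cons 83 (-4) V.nil) (Q.cons 61 (V.cons 83 4 V.nil) (Q.cons 79 (V.cons 83 (-2) V.nil) (Q.cons 83 (V.cons 55 (-4) V.nil) (Q.cons 86 (V.cons 20 (-6) V.nil) (Q.cons 91 (V.cons 83 (-2) V.nil) (Q.cons 98 (V.cons 20 (-8) V.nil) (Q.cons 106 (V.cons 84 (-8) (V.cons 330 8 V.nil)) (Q.cons 109 (V.cons 83 2 V.nil) (Q.cons 115 (V.cons 83 (-2) V.nil) (Q.cons 116 (V.cons 20 20 V.nil) (Q.cons 173 (V.cons 55 4 V.nil) (Q.cons 175 (V.cons 83 6 V.nil) (Q.cons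 182 (V.cons 20 18 V.nil) (Q.cons 187 (V.cons 83 2 V.nil) (Q.cons 218 (V.cons 20 22 V.nil) (Q.cons 235 (V.cons 83 (-4) V.nil) (Q.cons 236 (V.cons 20 8 V.nil) (Q.cons 242 (V.cons 20 (-2) V.nil) (Q.cons 302 (V.cons 20 (-6) V.nil) (Q.cons 314 (V.cons 20 (-22) V.nil) (Q.cons 428 (V.cons 20 6 V.nil) (Q.cons 458 (V.cons 20 (-26) V.nil) (Q.cons 686 (V.cons 20 (-6) V.nil) (Q.cons 938 (V.cons 20 (-6) V.nil) Q.nil)))))))))))))))))))))))))))))))))))),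
  (Q.cons 19 (V.cons 221 (-8) (V.cons 245 (-2) (V.cons 311 5 (V.cons 317 11 (V.cons 335 (-5) (V.cons 347 (-1) (V.cons 365 5 (V.cons 371 (-7) (V.cons 875 (-2) (V.cons 971 2 (V.cons 1211 1 (V.cons 1259 (-1) (V.cons 1451 2 V.nil))))))))))))) (Q.cons 74 (V.cons 92 (-8) (V.cons 98 4 (V.cons 182 (-15) (V.cons 218 (-19) (V.cons 236 (-11) (V.cons 242 5 (V.cons 302 9 (V.cons 314 19 (V.cons 362 8 (V.cons 686 6 (V.cons 938 6 V.nil))))))))))) (Q.cons 77 (V.cons 55 (-2) (V.cons 61 (-2) (V.cons 79 (-2) (V.cons 91 (-6) (V.cons 187 6 (V.cons 235 6 V.nil)))))) (Q.cons 79 (V.cons 83 (-4) (V.cons 173 4 V.nil)) (Q.cons 84 (V.cons 22 8 (V.cons 46 (-8) V.nil)) (Q.cons 86 (V.cons 20 (-8) (V.cons 44 8 V.nil)) (Q.cons 92 (V.cons 20 (-8) (V.cons 44 8 V.nil)) (Q.cons 98 (V.cons 20 (-4) (V.cons 44 4 V.nil)) (Q.cons 299 (V.cons 55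 (-3) (V.cons 61 5 (V.cons 79 1 (V.cons 91 3 (V.cons 175 6 (V.cons 187 (-3) (V.cons 235 (-9) V.nil))))))) (Q.cons 300 (V.cons 22 (-8) (V.cons 46 8 V.nil)) (Q.cons 302 (V.cons 20 8 (V.cons 44 (-8) V.nil)) (Q.cons 311 (V.cons 43 (-4) V.nil) (Q.cons 317 (V.cons 43 4 V.nil) (Q.cons 335 (V.cons 13 (-4) (V.cons 43 2 V.nil)) (Q.cons 339 (V.cons 15 (-4) V.nil) (Q.cons 342 (V.cons 10 10 V.nil) (Q.cons 347 (V.cons 13 (-4) (V.cons 43 2 V.nil)) (Q.cons 348 (V.cons 10 (-16) V.nil) (Q.cons 362 (V.cons 20 8 (V.cons 44 (-8) V.nil)) (Q.cons 365 (V.cons 13 4 (V.cons 43 (-2) V.nil)) (Q.cons 371 (V.cons 13 (-4) (V.cons 43 2 V.nil)) (Q.cons 372 (V.cons 10 (-28) V.nil) (Q.cons 1197 (V.cons 15 4 V.nil) (Q.cons 1199 (V.cons 43 6 V.nil) (Q.cons 1206 (V.cons 10 10 V.nil) (Q.cons 1211 (V.cons 13 4 (V.cons 43 (-2) V.nil)) (Q.cons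 1242 (V.cons 10 (-2) V.nil) (Q.cons 1259 (V.cons 13 4 (V.cons 43 (-8) V.nil)) (Q.cons 1260 (V.cons 10 16 V.nil) (Q.cons 1266 (V.cons 10 (-10) V.nil) (Q.cons 1326 (V.cons 10 (-14) V.nil) (Q.cons 1338 (V.cons 10 2 V.nil) (Q.cons 1386 (V.cons 10 16 V.nil) (Q.cons 1452 (V.cons 10 14 V.nil) (Q.cons 1482 (V.cons 10 14 V.nil) (Q.cons 4782 (V.cons 10 (-6) V.nil) (Q.cons 5034 (V.cons 10 (-6) V.nil) Q.nil))))))))))))))))))))))))))))))))))))),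
  (Q.cons 3 (V.cons 1341 (-12) (V.cons 1359 (-12) (V.cons 1395 (-52) (V.cons 5295 12 (V.cons 5355 12 (V.cons 5547 52 V.nil)))))) (Q.cons 10 (V.cons 342 56 (V.cons 348 (-180) (V.cons 372 (-190) (V.cons 978 (-12) (V.cons 1206 (-40) (V.cons 1242 (-106) (V.cons 1260 24 (V.cons 1266 (-16) (V.cons 1326 (-22) (V.cons 1338 106 (V.cons 1386 180 (V.cons 1452 24 (V.cons 1482 162 (V.cons 3498 (-12) (V.cons 3756 6 (V.cons 5034 4 (V.cons 5802 4 (V.cons 10926 6 (V.cons 15018 6 V.nil))))))))))))))))))) (Q.cons 13 (V.cons 221 8 (V.cons 245 (-8) (V.cons 311 (-8) (V.cons 317 (-8) (V.cons 335 8 (V.cons 347 (-12) (V.cons 365 (-8) (V.cons 371 4 (V.cons 875 (-12) (V.cons 971 4 (V.cons 1211 12 (V.cons 1259 16 (V.cons 1451 4 (V.cons 2735 (-4) (V.cons 3755 4 V.nil))))))))))))))) (Q.cons 20 (V.cons 86 (-4) (V.cons 182 2 (V.cons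 218 (-2) (V.cons 236 (-10) (V.cons 242 6 (V.cons 302 6 (V.cons 314 6 (V.cons 686 (-8) (V.cons 938 4 V.nil))))))))) (Q.cons 22 (V.cons 330 (-4) (V.cons 684 4 V.nil)) (Q.cons 28 (V.cons 330 (-4) (V.cons 684 4 V.nil)) (Q.cons 34 (V.cons 330 (-2) (V.cons 684 2 V.nil)) (Q.cons 43 (V.cons 221 20 (V.cons 245 8 (V.cons 311 (-20) (V.cons 317 (-36) (V.cons 335 18 (V.cons 347 (-2) (V.cons 365 (-36) (V.cons 371 34 (V.cons 875 8 (V.cons 941 6 (V.cons 971 (-8) (V.cons 1211 2 (V.cons 1259 4 (V.cons 1451 2 (V.cons 2735 6 (V.cons 3755 (-6) V.nil)))))))))))))))) (Q.cons 44 (V.cons 86 4 (V.cons 182 (-2) (V.cons 218 2 (V.cons 236 10 (V.cons 242 (-6) (V.cons 302 (-6) (V.cons 314 (-6) (V.cons 686 8 (V.cons 938 (-4) V.nil))))))))) (Q.cons 46 (V.cons 330 8 (V.cons 684 (-8) V.nil)) (Q.cons 55 (V.cons 683 (-4) V.nil) (Q.cons 58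 (V.cons 330 (-4) (V.cons 684 4 V.nil)) (Q.cons 61 (V.cons 683 4 V.nil) (Q.cons 79 (V.cons 683 2 V.nil) (Q.cons 86 (V.cons 170 2 V.nil) (Q.cons 91 (V.cons 683 2 V.nil) (Q.cons 98 (V.cons 170 (-4) V.nil) (Q.cons 106 (V.cons 330 4 (V.cons 684 (-4) V.nil)) (Q.cons 109 (V.cons 683 (-2) V.nil) (Q.cons 115 (V.cons 683 2 V.nil) (Q.cons 116 (V.cons 170 4 V.nil) (Q.cons 175 (V.cons 173 (-4) (V.cons 683 6 V.nil)) (Q.cons 182 (V.cons 170 10 V.nil) (Q.cons 187 (V.cons 683 (-2) V.nil) (Q.cons 218 (V.cons 170 14 V.nil) (Q.cons 235 (V.cons 173 4 (V.cons 683 (-8) V.nil)) (Q.cons 242 (V.cons 170 6 V.nil) (Q.cons 302 (V.cons 170 (-6) V.nil) (Q.cons 314 (V.cons 170 (-14) V.nil) (Q.cons 428 (V.cons 170 6 V.nil) (Q.cons 458 (V.cons 170 (-10) V.nil) (Q.cons 686 (V.cons 170 (-6) V.nil) (Q.cons 938 (V.cons 170 (-6) V.nil) Q.nil))))))))))))))))))))))))))))))))),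
  (Q.cons 170 (V.cons 86 (-2) (V.cons 182 1 (V.cons 218 1 (V.cons 236 (-1) (V.cons 242 1 (V.cons 302 1 (V.cons 314 (-1) V.nil))))))) (Q.cons 221 (V.cons 13 12 (V.cons 19 (-12) V.nil)) (Q.cons 245 (V.cons 13 6 (V.cons 19 (-6) V.nil)) (Q.cons 311 (V.cons 13 (-12) (V.cons 19 12 V.nil)) (Q.cons 317 (V.cons 13 (-4) (V.cons 19 4 V.nil)) (Q.cons 335 (V.cons 13 8 (V.cons 19 (-8) V.nil)) (Q.cons 342 (V.cons 4 (-28) (V.cons 10 100 V.nil)) (Q.cons 347 (V.cons 13 (-20) (V.cons 19 20 V.nil)) (Q.cons 348 (V.cons 4 (-24) (V.cons 10 (-174) V.nil)) (Q.cons 365 (V.cons 13 (-4) (V.cons 19 4 V.nil)) (Q.cons 371 (V.cons 13 (-6) (V.cons 19 6 V.nil)) (Q.cons 372 (V.cons 4 40 (V.cons 10 (-382) V.nil)) (Q.cons 461 (V.cons 13 6 (V.cons 19 (-6) V.nil)) (Q.cons 467 (V.cons 13 (-24) (V.cons 19 24 V.nil)) (Q.cons 468 (V.cons 4 8 (V.cons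 10 (-2) V.nil)) (Q.cons 683 (V.cons 25 (-2) (V.cons 55 7 (V.cons 61 3 (V.cons 79 (-1) (V.cons 91 3 (V.cons 175 (-6) (V.cons 187 (-3) (V.cons 235 (-3) V.nil)))))))) (Q.cons 684 (V.cons 46 (-4) V.nil) (Q.cons 875 (V.cons 13 (-34) (V.cons 19 34 V.nil)) (Q.cons 941 (V.cons 13 (-4) (V.cons 19 4 V.nil)) (Q.cons 971 (V.cons 13 (-6) (V.cons 19 6 V.nil)) (Q.cons 978 (V.cons 4 4 V.nil) (Q.cons 981 (V.cons 3 12 V.nil) (Q.cons 1206 (V.cons 4 12 (V.cons 10 (-68) V.nil)) (Q.cons 1211 (V.cons 13 16 (V.cons 19 (-16) V.nil)) (Q.cons 1242 (V.cons 4 (-8) (V.cons 10 (-164) V.nil)) (Q.cons 1259 (V.cons 13 26 (V.cons 19 (-26) V.nil)) (Q.cons 1260 (V.cons 4 (-16) (V.cons 10 76 V.nil)) (Q.cons 1266 (V.cons 10 (-62) V.nil) (Q.cons 1269 (V.cons 3 16 V.nil) (Q.cons 1323 (V.cons 15 4 V.nil) (Q.cons 1326 (V.cons 4 16 (V.cons 10 (-34)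 V.nil)) (Q.cons 1338 (V.cons 4 8 (V.cons 10 164 V.nil)) (Q.cons 1341 (V.cons 3 410 V.nil) (Q.cons 1359 (V.cons 3 (-100) V.nil) (Q.cons 1386 (V.cons 4 28 (V.cons 10 170 V.nil)) (Q.cons 1395 (V.cons 3 338 V.nil) (Q.cons 1451 (V.cons 13 10 (V.cons 19 (-10) V.nil)) (Q.cons 1452 (V.cons 4 (-16) (V.cons 10 76 V.nil)) (Q.cons 1482 (V.cons 4 (-16) (V.cons 10 300 V.nil)) (Q.cons 1491 (V.cons 3 16 V.nil) (Q.cons 1835 (V.cons 13 18 (V.cons 19 (-18) V.nil)) (Q.cons 1875 (V.cons 3 (-16) V.nil) (Q.cons 2730 (V.cons 22 (-2) (V.cons 46 6 V.nil)) (Q.cons 2733 (V.cons 15 (-4) V.nil) (Q.cons 2735 (V.cons 13 8 (V.cons 19 (-8) V.nil)) (Q.cons 3498 (V.cons 4 24 (V.cons 10 (-20) V.nil)) (Q.cons 3755 (V.cons 13 4 (V.cons 19 (-4) V.nil)) (Q.cons 3756 (V.cons 10 (-6) V.nil) (Q.cons 5034 (V.cons 4 (-8) (V.cons 10 6 V.nil)) (Q.cons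 5295 (V.cons 3 94 V.nil) (Q.cons 5355 (V.cons 3 (-410) V.nil) (Q.cons 5547 (V.cons 3 (-338) V.nil) (Q.cons 5802 (V.cons 4 (-8) (V.cons 10 6 V.nil)) (Q.cons 7338 (V.cons 4 (-8) (V.cons 10 2 V.nil)) (Q.cons 10926 (V.cons 4 (-4) (V.cons 10 6 V.nil)) (Q.cons 15018 (V.cons 4 (-4) (V.cons 10 6 V.nil)) (Q.cons 15021 (V.cons 3 (-6) V.nil) (Q.cons 20139 (V.cons 3 (-16) V.nil) (Q.cons 23211 (V.cons 3 (-16) V.nil) (Q.cons 29355 (V.cons 3 16 V.nil) (Q.cons 43695 (V.cons 3 6 V.nil) (Q.cons 60075 (V.cons 3 (-6) V.nil) Q.nil)))))))))))))))))))))))))))))))))))))))))))))))))))))))))))))),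
  (Q.cons 4 (V.cons 342 2 (V.cons 4782 (-1) V.nil)) (Q.cons 10 (V.cons 1206 (-1) V.nil) (Q.cons 13 (V.cons 1199 1 V.nil) (Q.cons 19 (V.cons 311 (-2) V.nil) (Q.cons 20 (V.cons 302 1 V.nil) (Q.cons 22 (V.cons 84 2 (V.cons 1194 (-1) V.nil)) (Q.cons 43 (V.cons 311 1 V.nil) (Q.cons 46 (V.cons 300 (-1) V.nil) (Q.cons 55 (V.cons 299 1 V.nil) (Q.cons 74 (V.cons 302 (-1) V.nil) (Q.cons 79 (V.cons 77 (-2) V.nil) (Q.cons 86 (V.cons 74 1 V.nil) (Q.cons 175 (V.cons 77 1 V.nil) (Q.cons 302 (V.cons 74 (-1) V.nil) Q.nil)))))))))))))),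
  (Q.cons 3 (V.cons 1341 2 (V.cons 1359 (-1) (V.cons 1395 1 (V.cons 5295 1 (V.cons 5355 (-2) (V.cons 5547 (-1) V.nil)))))) (Q.cons 4 (V.cons 1266 2 (V.cons 5034 (-1) V.nil)) (Q.cons 10 (V.cons 1260 (-1) V.nil) (Q.cons 13 (V.cons 1259 1 V.nil) (Q.cons 19 (V.cons 317 (-2) V.nil) (Q.cons 20 (V.cons 314 1 V.nil) (Q.cons 43 (V.cons 317 1 V.nil) (Q.cons 74 (V.cons 314 (-1) V.nil) Q.nil)))))))),
  (Q.cons 10 (V.cons 348 (-2) (V.cons 372 (-4) (V.cons 1206 (-2) (V.cons 1242 (-2) (V.cons 1326 2 (V.cons 1338 2 (V.cons 1386 2 (V.cons 1482 4 V.nil)))))))) (Q.cons 13 (V.cons 221 (-4) (V.cons 311 5 (V.cons 317 5 (V.cons 335 (-7) (V.cons 347 1 (V.cons 365 7 (V.cons 371 (-7) (V.cons 1199 2 (V.cons 1211 (-1) (V.cons 1259 (-1) V.nil)))))))))) (Q.cons 20 (V.cons 86 2 (V.cons 92 2 (V.cons 98 1 (V.cons 302 (-2) (V.cons 362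 (-2) V.nil))))) (Q.cons 43 (V.cons 221 2 (V.cons 311 (-3) (V.cons 317 (-3) (V.cons 335 3 (V.cons 347 (-1) (V.cons 365 (-3) (V.cons 371 3 (V.cons 1211 1 (V.cons 1259 1 V.nil))))))))) (Q.cons 44 (V.cons 86 (-2) (V.cons 92 (-2) (V.cons 98 (-1) (V.cons 302 2 (V.cons 362 2 V.nil))))) (Q.cons 55 (V.cons 77 (-1) (V.cons 83 1 V.nil)) (Q.cons 61 (V.cons 77 (-1) (V.cons 83 1 V.nil)) (Q.cons 79 (V.cons 77 (-1) (V.cons 83 1 V.nil)) (Q.cons 86 (V.cons 74 (-2) V.nil) (Q.cons 91 (V.cons 77 (-1) (V.cons 83 1 V.nil)) (Q.cons 98 (V.cons 20 2 (V.cons 74 (-1) V.nil)) (Q.cons 109 (V.cons 77 1 (V.cons 83 (-1) V.nil)) (Q.cons 115 (V.cons 77 (-1) (V.cons 83 1 V.nil)) (Q.cons 116 (V.cons 20 (-6) (V.cons 74 4 V.nil)) (Q.cons 175 (V.cons 77 2 (V.cons 83 (-2) V.nil)) (Q.cons 182 (V.cons 20 (-3) (V.cons 74 2 V.nil)) (Q.cons 187 (V.cons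 77 1 (V.cons 83 (-1) V.nil)) (Q.cons 218 (V.cons 20 (-5) (V.cons 74 2 V.nil)) (Q.cons 235 (V.cons 77 1 (V.cons 83 (-1) V.nil)) (Q.cons 236 (V.cons 20 1 V.nil) (Q.cons 242 (V.cons 20 (-1) V.nil) (Q.cons 245 (V.cons 19 (-2) V.nil) (Q.cons 302 (V.cons 20 1 V.nil) (Q.cons 311 (V.cons 19 (-2) V.nil) (Q.cons 314 (V.cons 20 5 (V.cons 74 (-2) V.nil)) (Q.cons 317 (V.cons 19 (-4) V.nil) (Q.cons 335 (V.cons 19 2 V.nil) (Q.cons 347 (V.cons 19 (-2) V.nil) (Q.cons 365 (V.cons 19 (-4) V.nil) (Q.cons 371 (V.cons 19 4 V.nil) (Q.cons 428 (V.cons 20 (-1) V.nil) (Q.cons 458 (V.cons 20 7 (V.cons 74 (-4) V.nil)) (Q.cons 461 (V.cons 19 (-4) V.nil) (Q.cons 467 (V.cons 19 6 V.nil) (Q.cons 686 (V.cons 20 2 V.nil) (Q.cons 875 (V.cons 19 2 V.nil) (Q.cons 971 (V.cons 19 2 V.nil) (Q.cons 1211 (V.cons 19 2 V.nil) (Q.cons 1259 (V.cons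 19 2 V.nil) (Q.cons 1835 (V.cons 19 (-2) V.nil) Q.nil)))))))))))))))))))))))))))))))))))))))),
  (Q.cons 61 (V.cons 83 2 (V.cons 683 (-1) V.nil)) (Q.cons 235 (V.cons 173 (-1) V.nil) (Q.cons 236 (V.cons 170 (-1) V.nil) (Q.cons 242 (V.cons 44 2 V.nil) (Q.cons 245 (V.cons 43 1 V.nil) (Q.cons 938 (V.cons 44 (-1) V.nil) (Q.cons 971 (V.cons 43 (-1) V.nil) Q.nil))))))),
  (Q.cons 20 (V.cons 86 2 (V.cons 686 (-1) V.nil)) (Q.cons 74 (V.cons 182 (-1) V.nil) (Q.cons 77 (V.cons 175 1 V.nil) (Q.cons 83 (V.cons 55 (-2) V.nil) (Q.cons 84 (V.cons 46 1 V.nil) (Q.cons 86 (V.cons 20 2 (V.cons 170 (-1) V.nil)) (Q.cons 299 (V.cons 55 1 V.nil) (Q.cons 302 (V.cons 44 (-1) V.nil) (Q.cons 311 (V.cons 43 1 V.nil) (Q.cons 330 (V.cons 46 (-1) V.nil) (Q.cons 335 (V.cons 13 (-2) V.nil) (Q.cons 342 (V.cons 10 1 V.nil) (Q.cons 1199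 (V.cons 13 1 V.nil) (Q.cons 1326 (V.cons 10 (-1) V.nil) Q.nil))))))))))))))]

def lits8_5_4 : List Q := [
  (Q.cons 116 (V.cons 20 2 (V.cons 170 (-1) V.nil)) (Q.cons 348 (V.cons 10 2 V.nil) (Q.cons 372 (V.cons 10 1 V.nil) (Q.cons 458 (V.cons 44 (-1) V.nil) (Q.cons 461 (V.cons 43 1 V.nil) (Q.cons 467 (V.cons 13 (-2) V.nil) (Q.cons 1242 (V.cons 10 1 V.nil) (Q.cons 1338 (V.cons 10 (-1) V.nil) (Q.cons 1386 (V.cons 10 (-2) V.nil) (Q.cons 1482 (V.cons 10 (-1) V.nil) (Q.cons 1835 (V.cons 13 1 V.nil) Q.nil))))))))))),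
  (Q.cons 74 (V.cons 92 (-2) (V.cons 182 (-2) (V.cons 218 (-2) (V.cons 302 2 (V.cons 314 2 (V.cons 362 2 V.nil)))))) (Q.cons 77 (V.cons 25 2 (V.cons 55 (-1) (V.cons 61 (-1) (V.cons 79 (-1) (V.cons 91 (-1) (V.cons 175 2 (V.cons 187 1 (V.cons 235 1 V.nil)))))))) (Q.cons 84 (V.cons 22 2 (V.cons 46 (-2) V.nil)) (Q.cons 299 (V.cons 25 (-1) V.nil) (Q.cons 300 (V.cons 22 (-2) (V.cons 46 2 V.nil)) (Q.cons 311 (V.cons 13 (-1) (V.cons 19 1 V.nil)) (Q.cons 317 (V.cons 13 (-1) (V.cons 19 1 V.nil)) (Q.cons 335 (V.cons 13 (-1) (V.cons 19 1 V.nil)) (Q.cons 342 (V.cons 4 (-4) V.nil) (Q.cons 347 (V.cons 13 (-1) (V.cons 19 1 V.nil)) (Q.cons 348 (V.cons 4 4 (V.cons 10 (-2) V.nil)) (Q.cons 365 (V.cons 13 1 (V.cons 19 (-1) V.nil)) (Q.cons 371 (V.cons 13 (-1) (V.cons 19 1 V.nil)) (Q.cons 372 (V.cons 4 6 (V.cons 10 (-2) V.nil))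 (Q.cons 1199 (V.cons 13 2 (V.cons 19 (-2) V.nil)) (Q.cons 1206 (V.cons 4 (-1) (V.cons 10 1 V.nil)) (Q.cons 1211 (V.cons 13 1 (V.cons 19 (-1) V.nil)) (Q.cons 1242 (V.cons 4 1 (V.cons 10 (-1) V.nil)) (Q.cons 1259 (V.cons 13 1 (V.cons 19 (-1) V.nil)) (Q.cons 1260 (V.cons 4 (-1) (V.cons 10 1 V.nil)) (Q.cons 1266 (V.cons 4 1 (V.cons 10 (-1) V.nil)) (Q.cons 1326 (V.cons 4 3 (V.cons 10 (-1) V.nil)) (Q.cons 1338 (V.cons 4 (-1) (V.cons 10 1 V.nil)) (Q.cons 1341 (V.cons 3 36 V.nil) (Q.cons 1359 (V.cons 3 (-8) V.nil) (Q.cons 1386 (V.cons 4 (-4) (V.cons 10 2 V.nil)) (Q.cons 1395 (V.cons 3 28 V.nil) (Q.cons 1452 (V.cons 4 (-3) (V.cons 10 1 V.nil)) (Q.cons 1482 (V.cons 4 (-3) (V.cons 10 1 V.nil)) (Q.cons 4782 (V.cons 4 2 V.nil) (Q.cons 5295 (V.cons 3 8 V.nil) (Q.cons 5355 (V.cons 3 (-36) V.nil) (Q.cons 5547 (V.cons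 3 (-28) V.nil) Q.nil))))))))))))))))))))))))))))))))),
  (Q.cons 218 (V.cons 20 1 (V.cons 74 (-1) V.nil)) (Q.cons 221 (V.cons 19 2 (V.cons 43 (-1) V.nil)) (Q.cons 342 (V.cons 10 (-1) V.nil) (Q.cons 348 (V.cons 4 2 (V.cons 10 2 V.nil)) (Q.cons 372 (V.cons 4 2 (V.cons 10 5 V.nil)) (Q.cons 875 (V.cons 13 (-1) V.nil) (Q.cons 1206 (V.cons 10 1 V.nil) (Q.cons 1242 (V.cons 4 2 (V.cons 10 2 V.nil)) (Q.cons 1260 (V.cons 10 (-1) V.nil) (Q.cons 1266 (V.cons 4 2 V.nil) (Q.cons 1338 (V.cons 4 (-2) (V.cons 10 (-2) V.nil)) (Q.cons 1341 (V.cons 3 1 V.nil) (Q.cons 1386 (V.cons 4 (-2) (V.cons 10 (-2) V.nil)) (Q.cons 1395 (V.cons 3 1 V.nil) (Q.cons 1452 (V.cons 10 (-1) V.nil) (Q.cons 1482 (V.cons 4 (-2) (V.cons 10 (-4) V.nil)) (Q.cons 3498 (V.cons 4 (-1) V.nil) (Q.cons 5355 (V.cons 3 (-1) V.nil) (Q.cons 5547 (V.cons 3 (-1)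 V.nil) Q.nil))))))))))))))))))),
  (Q.cons 3 (V.cons 1269 (-1) (V.cons 1341 (-19) (V.cons 1359 4 (V.cons 1395 (-15) (V.cons 1491 (-1) (V.cons 5295 (-4) (V.cons 5355 19 (V.cons 5547 15 (V.cons 20139 1 (V.cons 23211 1 V.nil)))))))))) (Q.cons 10 (V.cons 342 1 (V.cons 348 5 (V.cons 372 1 (V.cons 1206 1 (V.cons 1242 4 (V.cons 1326 (-2) (V.cons 1338 (-4) (V.cons 1386 (-5) (V.cons 1482 (-2) (V.cons 3498 (-1) (V.cons 5034 1 (V.cons 5802 1 V.nil)))))))))))) (Q.cons 13 (V.cons 221 5 (V.cons 311 (-5) (V.cons 317 (-4) (V.cons 335 5 (V.cons 347 (-6) (V.cons 365 (-4) (V.cons 371 1 (V.cons 875 (-9) (V.cons 971 (-1) (V.cons 1211 5 (V.cons 1259 8 (V.cons 1451 3 (V.cons 3755 1 V.nil))))))))))))) (Q.cons 19 (V.cons 221 (-5) (V.cons 311 5 (V.cons 317 4 (V.cons 335 (-5) (V.cons 347 6 (V.cons 365 4 (V.cons 371 (-1) (V.cons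 875 9 (V.cons 971 1 (V.cons 1211 (-5) (V.cons 1259 (-8) (V.cons 1451 (-3) (V.cons 3755 (-1) V.nil))))))))))))) (Q.cons 20 (V.cons 686 (-1) V.nil) (Q.cons 43 (V.cons 221 (-3) (V.cons 245 (-1) (V.cons 311 3 (V.cons 317 4 (V.cons 335 (-3) (V.cons 347 2 (V.cons 365 4 (V.cons 371 (-3) (V.cons 875 2 (V.cons 971 1 (V.cons 1211 (-2) (V.cons 1259 (-3) (V.cons 1451 (-1) V.nil))))))))))))) (Q.cons 44 (V.cons 86 (-3) (V.cons 182 1 (V.cons 218 (-1) (V.cons 236 (-2) (V.cons 242 1 (V.cons 302 2 (V.cons 314 2 (V.cons 938 1 V.nil)))))))) (Q.cons 55 (V.cons 683 (-1) V.nil) (Q.cons 58 (V.cons 330 (-1) (V.cons 684 1 V.nil)) (Q.cons 74 (V.cons 86 3 (V.cons 182 (-1) (V.cons 218 1 (V.cons 236 2 (V.cons 242 (-1) (V.cons 302 (-2) (V.cons 314 (-2) (V.cons 686 1 (V.cons 938 (-1) V.nil))))))))) (Q.cons 79 (V.cons 683 1 V.nil) (Q.cons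 83 (V.cons 175 (-1) V.nil) (Q.cons 182 (V.cons 170 1 V.nil) (Q.cons 187 (V.cons 83 (-1) (V.cons 173 1 V.nil)) (Q.cons 218 (V.cons 170 (-1) V.nil) (Q.cons 221 (V.cons 43 (-2) V.nil) (Q.cons 299 (V.cons 175 1 V.nil) (Q.cons 302 (V.cons 170 (-1) V.nil) (Q.cons 311 (V.cons 43 2 V.nil) (Q.cons 314 (V.cons 170 1 V.nil) (Q.cons 317 (V.cons 43 2 V.nil) (Q.cons 335 (V.cons 43 (-2) V.nil) (Q.cons 365 (V.cons 43 2 V.nil) (Q.cons 371 (V.cons 43 (-1) V.nil) (Q.cons 461 (V.cons 43 1 V.nil) (Q.cons 467 (V.cons 43 1 V.nil) (Q.cons 875 (V.cons 43 2 V.nil) (Q.cons 1259 (V.cons 43 (-2) V.nil) (Q.cons 1451 (V.cons 43 (-1) V.nil) (Q.cons 1835 (V.cons 43 (-2) V.nil) Q.nil)))))))))))))))))))))))))))))),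
  (Q.cons 27 (V.cons 339 1 (V.cons 1323 (-1) V.nil)) (Q.cons 106 (V.cons 84 (-1) (V.cons 300 1 V.nil)) (Q.cons 109 (V.cons 299 (-1) V.nil) (Q.cons 115 (V.cons 299 1 V.nil) (Q.cons 116 (V.cons 74 (-1) V.nil) (Q.cons 427 (V.cons 77 1 (V.cons 83 (-1) V.nil)) (Q.cons 428 (V.cons 74 1 V.nil) (Q.cons 467 (V.cons 19 (-1) V.nil) (Q.cons 1835 (V.cons 19 1 V.nil) Q.nil))))))))),
  (Q.cons 43 (V.cons 221 (-2) (V.cons 245 (-2) (V.cons 317 (-2) (V.cons 335 (-2) (V.cons 347 (-2) (V.cons 875 2 (V.cons 971 2 (V.cons 1199 2 (V.cons 1211 2 (V.cons 1259 2 V.nil)))))))))) (Q.cons 83 (V.cons 55 1 (V.cons 61 1 (V.cons 79 1 (V.cons 91 1 (V.cons 175 (-2) (V.cons 187 (-1) (V.cons 235 (-1) V.nil))))))) (Q.cons 86 (V.cons 44 4 (V.cons 74 (-4) V.nil)) (Q.cons 116 (V.cons 44 (-2) (V.cons 74 2 V.nil)) (Q.cons 170 (V.cons 92 2 (V.cons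 182 2 (V.cons 218 2 (V.cons 302 (-2) (V.cons 314 (-2) (V.cons 362 (-2) V.nil)))))) (Q.cons 173 (V.cons 55 (-1) (V.cons 61 (-1) (V.cons 79 (-1) (V.cons 91 (-1) (V.cons 175 2 (V.cons 187 1 (V.cons 235 1 V.nil))))))) (Q.cons 182 (V.cons 44 (-1) (V.cons 74 1 V.nil)) (Q.cons 218 (V.cons 44 1 (V.cons 74 (-1) V.nil)) (Q.cons 221 (V.cons 13 4 (V.cons 19 (-4) V.nil)) (Q.cons 236 (V.cons 44 (-1) (V.cons 74 1 V.nil)) (Q.cons 242 (V.cons 44 1 (V.cons 74 (-1) V.nil)) (Q.cons 245 (V.cons 13 (-3) (V.cons 19 3 V.nil)) (Q.cons 302 (V.cons 44 (-1) (V.cons 74 1 V.nil)) (Q.cons 311 (V.cons 13 (-4) (V.cons 19 4 V.nil)) (Q.cons 314 (V.cons 44 (-1) (V.cons 74 1 V.nil)) (Q.cons 317 (V.cons 13 (-6) (V.cons 19 6 V.nil)) (Q.cons 330 (V.cons 22 (-2) (V.cons 46 2 V.nil)) (Q.cons 335 (V.cons 13 6 (V.cons 19 (-6) V.nil)) (Q.cons 342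 (V.cons 10 (-14) V.nil) (Q.cons 347 (V.cons 13 (-2) (V.cons 19 2 V.nil)) (Q.cons 348 (V.cons 10 34 V.nil) (Q.cons 365 (V.cons 13 (-6) (V.cons 19 6 V.nil)) (Q.cons 371 (V.cons 13 5 (V.cons 19 (-5) V.nil)) (Q.cons 372 (V.cons 10 54 V.nil) (Q.cons 428 (V.cons 44 1 (V.cons 74 (-1) V.nil)) (Q.cons 458 (V.cons 44 1 (V.cons 74 (-1) V.nil)) (Q.cons 461 (V.cons 13 (-5) (V.cons 19 5 V.nil)) (Q.cons 467 (V.cons 13 4 (V.cons 19 (-4) V.nil)) (Q.cons 684 (V.cons 22 2 (V.cons 46 (-2) V.nil)) (Q.cons 686 (V.cons 44 (-2) (V.cons 74 2 V.nil)) (Q.cons 875 (V.cons 13 (-1) (V.cons 19 1 V.nil)) (Q.cons 941 (V.cons 13 2 (V.cons 19 (-2) V.nil)) (Q.cons 971 (V.cons 13 1 (V.cons 19 (-1) V.nil)) (Q.cons 1206 (V.cons 10 12 V.nil) (Q.cons 1211 (V.cons 13 2 (V.cons 19 (-2) V.nil)) (Q.cons 1242 (V.cons 10 28 V.nil) (Q.cons 1259 (V.cons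 13 3 (V.cons 19 (-3) V.nil)) (Q.cons 1260 (V.cons 10 (-8) V.nil) (Q.cons 1266 (V.cons 10 10 V.nil) (Q.cons 1269 (V.cons 3 2 V.nil) (Q.cons 1326 (V.cons 10 2 V.nil) (Q.cons 1338 (V.cons 10 (-28) V.nil) (Q.cons 1341 (V.cons 3 14 V.nil) (Q.cons 1359 (V.cons 3 (-2) V.nil) (Q.cons 1386 (V.cons 10 (-34) V.nil) (Q.cons 1395 (V.cons 3 10 V.nil) (Q.cons 1451 (V.cons 13 1 (V.cons 19 (-1) V.nil)) (Q.cons 1452 (V.cons 10 (-8) V.nil) (Q.cons 1482 (V.cons 10 (-46) V.nil) (Q.cons 1491 (V.cons 3 2 V.nil) (Q.cons 1835 (V.cons 13 1 (V.cons 19 (-1) V.nil)) (Q.cons 2735 (V.cons 13 (-2) (V.cons 19 2 V.nil)) (Q.cons 3498 (V.cons 10 (-2) V.nil) (Q.cons 5295 (V.cons 3 2 V.nil) (Q.cons 5355 (V.cons 3 (-14) V.nil) (Q.cons 5547 (V.cons 3 (-10) V.nil) (Q.cons 20139 (V.cons 3 (-2) V.nil) (Q.cons 23211 (V.cons 3 (-2) V.nil) Q.nil)))))))))))))))))))))))))))))))))))))))))))))))))))))))))),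
  (Q.cons 235 (V.cons 83 1 (V.cons 299 (-1) V.nil)) (Q.cons 245 (V.cons 43 1 V.nil) (Q.cons 938 (V.cons 20 (-1) (V.cons 44 1 V.nil)) (Q.cons 941 (V.cons 43 (-1) V.nil) (Q.cons 978 (V.cons 10 (-1) V.nil) (Q.cons 3755 (V.cons 13 1 (V.cons 19 (-1) V.nil)) (Q.cons 3756 (V.cons 10 1 V.nil) Q.nil))))))),
  (Q.cons 170 (V.cons 86 2 (V.cons 182 (-1) (V.cons 218 (-1) (V.cons 236 1 (V.cons 242 (-1) (V.cons 302 (-1) (V.cons 314 1 V.nil))))))) (Q.cons 221 (V.cons 13 (-20) (V.cons 43 28 V.nil)) (Q.cons 245 (V.cons 43 (-6) V.nil) (Q.cons 311 (V.cons 13 20 (V.cons 43 (-28) V.nil)) (Q.cons 317 (V.cons 13 16 (V.cons 43 (-28) V.nil)) (Q.cons 335 (V.cons 13 (-20) (V.cons 43 32 V.nil)) (Q.cons 342 (V.cons 10 (-66) V.nil) (Q.cons 347 (V.cons 13 24 (V.cons 43 (-28) V.nil)) (Q.cons 348 (V.cons 10 54 V.nil) (Q.cons 365 (V.cons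 13 16 (V.cons 43 (-28) V.nil)) (Q.cons 371 (V.cons 13 (-4) (V.cons 43 14 V.nil)) (Q.cons 372 (V.cons 10 184 V.nil) (Q.cons 461 (V.cons 13 4 (V.cons 43 (-14) V.nil)) (Q.cons 467 (V.cons 13 16 (V.cons 43 (-8) V.nil)) (Q.cons 468 (V.cons 10 8 V.nil) (Q.cons 683 (V.cons 55 1 (V.cons 61 1 (V.cons 79 (-1) (V.cons 91 (-3) (V.cons 187 3 (V.cons 235 (-1) V.nil)))))) (Q.cons 684 (V.cons 58 (-4) V.nil) (Q.cons 686 (V.cons 20 (-4) (V.cons 170 4 V.nil)) (Q.cons 875 (V.cons 13 36 (V.cons 43 (-38) V.nil)) (Q.cons 941 (V.cons 43 4 V.nil) (Q.cons 971 (V.cons 13 4 (V.cons 43 (-2) V.nil)) (Q.cons 978 (V.cons 10 4 V.nil) (Q.cons 1206 (V.cons 10 36 V.nil) (Q.cons 1211 (V.cons 13 (-20) (V.cons 43 24 V.nil)) (Q.cons 1242 (V.cons 10 56 V.nil) (Q.cons 1259 (V.cons 13 (-32) (V.cons 43 38 V.nil)) (Q.cons 1260 (V.cons 10 (-38) V.nil)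 (Q.cons 1266 (V.cons 10 26 V.nil) (Q.cons 1323 (V.cons 15 4 V.nil) (Q.cons 1326 (V.cons 10 30 V.nil) (Q.cons 1338 (V.cons 10 (-56) V.nil) (Q.cons 1386 (V.cons 10 (-54) V.nil) (Q.cons 1451 (V.cons 13 (-12) (V.cons 43 14 V.nil)) (Q.cons 1452 (V.cons 10 (-38) V.nil) (Q.cons 1482 (V.cons 10 (-134) V.nil) (Q.cons 1835 (V.cons 13 (-20) (V.cons 43 22 V.nil)) (Q.cons 2730 (V.cons 22 (-4) (V.cons 46 4 (V.cons 58 4 V.nil))) (Q.cons 2735 (V.cons 43 (-4) V.nil) (Q.cons 3498 (V.cons 10 24 V.nil) (Q.cons 3755 (V.cons 13 (-4) (V.cons 43 4 V.nil)) (Q.cons 5034 (V.cons 10 (-12) V.nil) (Q.cons 5802 (V.cons 10 (-12) V.nil) (Q.cons 7338 (V.cons 10 (-8) V.nil) (Q.cons 10923 (V.cons 15 (-4) V.nil) (Q.cons 15018 (V.cons 10 (-4) V.nil) Q.nil))))))))))))))))))))))))))))))))))))))))))))),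
  (Q.cons 3 (V.cons 1341 (-15) (V.cons 1359 3 (V.cons 1395 (-12) (V.cons 5295 (-3) (V.cons 5355 15 (V.cons 5547 12 V.nil)))))) (Q.cons 4 (V.cons 342 (-20) (V.cons 348 53 (V.cons 372 87 (V.cons 978 (-1) (V.cons 1206 16 (V.cons 1242 44 (V.cons 1260 (-14) (V.cons 1266 16 (V.cons 1326 4 (V.cons 1338 (-44) (V.cons 1386 (-52) (V.cons 1452 (-14) (V.cons 1482 (-73) (V.cons 3498 (-2) (V.cons 3756 1 V.nil))))))))))))))) (Q.cons 10 (V.cons 342 2 (V.cons 348 (-4) (V.cons 372 (-6) (V.cons 1206 (-2) (V.cons 1242 (-3) (V.cons 1260 1 (V.cons 1266 (-1) (V.cons 1338 3 (V.cons 1386 3 (V.cons 1452 1 (V.cons 1482 5 V.nil))))))))))) (Q.cons 13 (V.cons 221 (-6) (V.cons 245 1 (V.cons 311 6 (V.cons 317 10 (V.cons 335 (-6) (V.cons 347 4 (V.cons 365 10 (V.cons 371 (-9) (V.cons 941 (-1) (V.cons 1211 (-4) (V.cons 1259 (-5) (V.cons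 1451 (-1) V.nil)))))))))))) (Q.cons 15 (V.cons 339 (-1) (V.cons 1323 1 V.nil)) (Q.cons 19 (V.cons 221 3 (V.cons 245 (-2) (V.cons 311 (-3) (V.cons 317 (-6) (V.cons 335 3 (V.cons 347 (-2) (V.cons 365 (-6) (V.cons 371 6 (V.cons 875 2 (V.cons 941 1 (V.cons 971 1 (V.cons 1211 2 (V.cons 1259 2 V.nil))))))))))))) (Q.cons 20 (V.cons 182 2 (V.cons 686 (-1) V.nil)) (Q.cons 22 (V.cons 330 2 (V.cons 684 (-1) V.nil)) (Q.cons 44 (V.cons 182 (-1) V.nil) (Q.cons 46 (V.cons 330 (-1) V.nil) (Q.cons 55 (V.cons 173 (-1) V.nil) (Q.cons 61 (V.cons 83 (-1) (V.cons 173 1 V.nil)) (Q.cons 77 (V.cons 175 1 V.nil) (Q.cons 79 (V.cons 173 1 V.nil) (Q.cons 83 (V.cons 175 (-1) V.nil) (Q.cons 86 (V.cons 44 (-2) V.nil) (Q.cons 92 (V.cons 44 2 (V.cons 170 (-1) V.nil)) (Q.cons 116 (V.cons 44 2 V.nil) (Q.cons 182 (V.cons 44 2 V.nil) (Q.cons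 218 (V.cons 44 1 V.nil) (Q.cons 221 (V.cons 43 (-1) V.nil) (Q.cons 236 (V.cons 44 1 V.nil) (Q.cons 242 (V.cons 44 (-1) V.nil) (Q.cons 314 (V.cons 44 (-1) V.nil) (Q.cons 317 (V.cons 43 1 V.nil) (Q.cons 362 (V.cons 44 (-1) V.nil) (Q.cons 458 (V.cons 44 (-2) V.nil) Q.nil))))))))))))))))))))))))))),
  (Q.cons 3 (V.cons 1395 1 (V.cons 5547 (-1) V.nil)) (Q.cons 4 (V.cons 978 2 (V.cons 3756 (-1) V.nil)) (Q.cons 10 (V.cons 978 (-1) V.nil) (Q.cons 13 (V.cons 245 (-1) V.nil) (Q.cons 19 (V.cons 941 1 V.nil) (Q.cons 20 (V.cons 236 2 (V.cons 938 (-1) V.nil)) (Q.cons 44 (V.cons 236 (-1) V.nil) (Q.cons 77 (V.cons 235 1 V.nil) (Q.cons 83 (V.cons 235 (-1) V.nil) Q.nil)))))))))]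

def lits8_5_5 : List Q := [
  (Q.cons 10 (V.cons 342 2 (V.cons 348 (-3) (V.cons 372 (-6) (V.cons 1206 (-2) (V.cons 1242 (-3) (V.cons 1260 1 (V.cons 1266 (-1) (V.cons 1338 3 (V.cons 1386 3 (V.cons 1452 1 (V.cons 1482 5 V.nil))))))))))) (Q.cons 13 (V.cons 221 (-1) (V.cons 245 2 (V.cons 311 3 (V.cons 317 6 (V.cons 335 (-3) (V.cons 347 2 (V.cons 365 6 (V.cons 371 (-6) (V.cons 875 (-2) (V.cons 941 (-1) (V.cons 971 (-1) (V.cons 1211 (-2) (V.cons 1259 (-2) V.nil))))))))))))) (Q.cons 20 (V.cons 86 (-2) (V.cons 182 2 (V.cons 218 1 (V.cons 236 1 (V.cons 242 (-1) (V.cons 314 (-1) (V.cons 362 (-1) V.nil))))))) (Q.cons 43 (V.cons 221 (-1) V.nil) (Q.cons 44 (V.cons 86 3 (V.cons 182 (-3) (V.cons 218 (-1) (V.cons 236 (-1) (V.cons 242 1 (V.cons 314 1 (V.cons 362 1 V.nil))))))) (Q.cons 46 (V.cons 84 1 (V.cons 330 (-1)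 V.nil)) (Q.cons 55 (V.cons 83 2 (V.cons 173 (-1) V.nil)) (Q.cons 83 (V.cons 55 2 (V.cons 175 (-1) V.nil)) (Q.cons 84 (V.cons 46 (-1) V.nil) (Q.cons 86 (V.cons 20 2 (V.cons 44 (-3) V.nil)) (Q.cons 116 (V.cons 20 (-2) (V.cons 44 2 V.nil)) (Q.cons 173 (V.cons 55 (-1) V.nil) (Q.cons 175 (V.cons 83 (-1) V.nil) (Q.cons 182 (V.cons 20 (-2) (V.cons 44 3 V.nil)) (Q.cons 218 (V.cons 20 (-1) (V.cons 44 1 V.nil)) (Q.cons 221 (V.cons 13 (-1) (V.cons 43 (-1) V.nil)) (Q.cons 236 (V.cons 20 (-1) (V.cons 44 1 V.nil)) (Q.cons 242 (V.cons 20 1 (V.cons 44 (-1) V.nil)) (Q.cons 245 (V.cons 13 2 V.nil) (Q.cons 311 (V.cons 13 3 V.nil) (Q.cons 314 (V.cons 20 1 (V.cons 44 (-1) V.nil)) (Q.cons 317 (V.cons 13 6 V.nil) (Q.cons 330 (V.cons 46 1 V.nil) (Q.cons 335 (V.cons 13 (-3) V.nil) (Q.cons 342 (V.cons 10 (-2) V.nil) (Q.cons 347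 (V.cons 13 2 V.nil) (Q.cons 348 (V.cons 10 3 V.nil) (Q.cons 362 (V.cons 20 1 (V.cons 44 (-1) V.nil)) (Q.cons 365 (V.cons 13 6 V.nil) (Q.cons 371 (V.cons 13 (-6) V.nil) (Q.cons 372 (V.cons 10 6 V.nil) (Q.cons 458 (V.cons 20 2 (V.cons 44 (-2) V.nil)) (Q.cons 461 (V.cons 13 6 V.nil) (Q.cons 467 (V.cons 13 (-8) V.nil) (Q.cons 875 (V.cons 13 (-2) V.nil) (Q.cons 941 (V.cons 13 (-1) V.nil) (Q.cons 971 (V.cons 13 (-1) V.nil) (Q.cons 1206 (V.cons 10 2 V.nil) (Q.cons 1211 (V.cons 13 (-2) V.nil) (Q.cons 1242 (V.cons 10 3 V.nil) (Q.cons 1259 (V.cons 13 (-2) V.nil) (Q.cons 1260 (V.cons 10 (-1) V.nil) (Q.cons 1266 (V.cons 10 1 V.nil) (Q.cons 1338 (V.cons 10 (-3) V.nil) (Q.cons 1386 (V.cons 10 (-3) V.nil) (Q.cons 1452 (V.cons 10 (-1) V.nil) (Q.cons 1482 (V.cons 10 (-5) V.nil) (Q.cons 1835 (V.cons 13 2 V.nil) Q.nil)))))))))))))))))))))))))))))))))))))))))))))))),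
  (Q.cons 43 (V.cons 221 (-4) (V.cons 311 4 (V.cons 317 4 (V.cons 335 (-4) (V.cons 365 4 (V.cons 371 (-4) (V.cons 875 2 (V.cons 1259 (-2) V.nil)))))))) (Q.cons 44 (V.cons 86 (-4) (V.cons 98 2 (V.cons 182 1 (V.cons 218 (-3) (V.cons 236 (-3) (V.cons 242 1 (V.cons 302 3 (V.cons 314 3 (V.cons 938 2 V.nil))))))))) (Q.cons 83 (V.cons 25 (-2) (V.cons 55 1 (V.cons 61 1 (V.cons 79 1 (V.cons 91 3 (V.cons 175 (-2) (V.cons 187 (-3) (V.cons 235 (-1) V.nil)))))))) (Q.cons 86 (V.cons 20 (-4) (V.cons 74 4 V.nil)) (Q.cons 116 (V.cons 20 2 (V.cons 74 (-2) V.nil)) (Q.cons 170 (V.cons 92 (-2) (V.cons 98 (-1) (V.cons 182 (-2) (V.cons 218 (-2) (V.cons 302 2 (V.cons 314 2 (V.cons 362 2 V.nil))))))) (Q.cons 173 (V.cons 91 (-2) (V.cons 187 2 V.nil)) (Q.cons 182 (V.cons 20 1 (V.cons 74 (-1) V.nil)) (Q.cons 218 (V.cons 20 (-1)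 (V.cons 74 1 V.nil)) (Q.cons 221 (V.cons 13 8 (V.cons 19 (-16) (V.cons 43 2 V.nil))) (Q.cons 236 (V.cons 20 1 (V.cons 74 (-1) V.nil)) (Q.cons 242 (V.cons 20 (-1) (V.cons 74 1 V.nil)) (Q.cons 245 (V.cons 13 (-1) (V.cons 43 2 V.nil)) (Q.cons 302 (V.cons 20 1 (V.cons 74 (-1) V.nil)) (Q.cons 311 (V.cons 13 (-8) (V.cons 19 14 (V.cons 43 (-1) V.nil))) (Q.cons 314 (V.cons 20 1 (V.cons 74 (-1) V.nil)) (Q.cons 317 (V.cons 13 (-6) (V.cons 19 10 (V.cons 43 1 V.nil))) (Q.cons 335 (V.cons 13 8 (V.cons 19 (-16) (V.cons 43 1 V.nil))) (Q.cons 342 (V.cons 4 49 (V.cons 10 6 V.nil)) (Q.cons 347 (V.cons 13 (-8) (V.cons 19 8 (V.cons 43 1 V.nil))) (Q.cons 348 (V.cons 4 (-19) (V.cons 10 (-38) V.nil)) (Q.cons 365 (V.cons 13 (-6) (V.cons 19 10 (V.cons 43 1 V.nil))) (Q.cons 371 (V.cons 13 1 (V.cons 19 (-4) (V.cons 43 (-1) V.nil)))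 (Q.cons 372 (V.cons 4 (-112) (V.cons 10 (-44) V.nil)) (Q.cons 428 (V.cons 20 (-1) (V.cons 74 1 V.nil)) (Q.cons 458 (V.cons 20 (-1) (V.cons 74 1 V.nil)) (Q.cons 461 (V.cons 13 (-1) (V.cons 19 2 (V.cons 43 2 V.nil))) (Q.cons 467 (V.cons 13 (-8) (V.cons 19 12 (V.cons 43 (-4) V.nil))) (Q.cons 468 (V.cons 4 (-12) (V.cons 10 4 V.nil)) (Q.cons 683 (V.cons 25 1 V.nil) (Q.cons 686 (V.cons 20 2 (V.cons 74 (-2) V.nil)) (Q.cons 875 (V.cons 13 (-15) (V.cons 19 20 (V.cons 43 (-2) V.nil))) (Q.cons 941 (V.cons 19 (-2) V.nil) (Q.cons 971 (V.cons 13 (-1) (V.cons 19 4 (V.cons 43 (-2) V.nil))) (Q.cons 978 (V.cons 4 (-2) V.nil) (Q.cons 1206 (V.cons 4 (-28) (V.cons 10 (-7) V.nil)) (Q.cons 1211 (V.cons 13 8 (V.cons 19 (-8) (V.cons 43 (-1) V.nil))) (Q.cons 1242 (V.cons 4 (-30) (V.cons 10 (-27) V.nil)) (Q.cons 1259 (V.cons 13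 13 (V.cons 19 (-14) (V.cons 43 (-1) V.nil))) (Q.cons 1260 (V.cons 4 25 (V.cons 10 5 V.nil)) (Q.cons 1266 (V.cons 4 (-15) (V.cons 10 (-9) V.nil)) (Q.cons 1326 (V.cons 4 (-21) (V.cons 10 1 V.nil)) (Q.cons 1338 (V.cons 4 30 (V.cons 10 27 V.nil)) (Q.cons 1341 (V.cons 3 (-12) V.nil) (Q.cons 1359 (V.cons 3 2 V.nil) (Q.cons 1386 (V.cons 4 19 (V.cons 10 38 V.nil)) (Q.cons 1395 (V.cons 3 (-10) V.nil) (Q.cons 1451 (V.cons 13 5 (V.cons 19 (-6) V.nil)) (Q.cons 1452 (V.cons 4 25 (V.cons 10 5 V.nil)) (Q.cons 1482 (V.cons 4 77 (V.cons 10 41 V.nil)) (Q.cons 1835 (V.cons 13 9 (V.cons 19 (-14) (V.cons 43 2 V.nil))) (Q.cons 1875 (V.cons 3 2 V.nil) (Q.cons 2735 (V.cons 19 2 V.nil) (Q.cons 3498 (V.cons 4 (-20) (V.cons 10 6 V.nil)) (Q.cons 3755 (V.cons 13 2 (V.cons 19 (-2) V.nil)) (Q.cons 5034 (V.cons 4 10 (V.cons 10 (-2)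 V.nil)) (Q.cons 5295 (V.cons 3 (-2) V.nil) (Q.cons 5355 (V.cons 3 12 V.nil) (Q.cons 5547 (V.cons 3 10 V.nil) (Q.cons 5802 (V.cons 4 10 (V.cons 10 (-2) V.nil)) (Q.cons 7338 (V.cons 4 12 (V.cons 10 (-4) V.nil)) (Q.cons 15018 (V.cons 4 2 V.nil) (Q.cons 29355 (V.cons 3 (-2) V.nil) Q.nil))))))))))))))))))))))))))))))))))))))))))))))))))))))))))))))),
  (Q.cons 86 (V.cons 20 2 (V.cons 44 (-2) V.nil)) (Q.cons 116 (V.cons 20 (-1) (V.cons 44 2 V.nil)) (Q.cons 182 (V.cons 20 (-3) (V.cons 44 2 V.nil)) (Q.cons 187 (V.cons 77 (-1) (V.cons 83 1 V.nil)) (Q.cons 218 (V.cons 20 (-2) (V.cons 44 1 V.nil)) (Q.cons 221 (V.cons 13 (-4) (V.cons 19 3 V.nil)) (Q.cons 236 (V.cons 20 (-3) (V.cons 44 1 V.nil)) (Q.cons 242 (V.cons 20 2 (V.cons 44 (-1) V.nil)) (Q.cons 245 (V.cons 13 (-1) (V.cons 19 (-1) V.nil)) (Q.cons 302 (V.cons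 20 1 V.nil) (Q.cons 311 (V.cons 13 4 (V.cons 19 (-3) V.nil)) (Q.cons 314 (V.cons 20 2 (V.cons 44 (-1) V.nil)) (Q.cons 317 (V.cons 13 4 (V.cons 19 (-4) V.nil)) (Q.cons 335 (V.cons 13 (-4) (V.cons 19 3 V.nil)) (Q.cons 342 (V.cons 4 (-4) (V.cons 10 2 V.nil)) (Q.cons 347 (V.cons 13 2 (V.cons 19 (-1) V.nil)) (Q.cons 348 (V.cons 4 12 (V.cons 10 (-3) V.nil)) (Q.cons 362 (V.cons 20 1 (V.cons 44 (-1) V.nil)) (Q.cons 365 (V.cons 13 4 (V.cons 19 (-4) V.nil)) (Q.cons 371 (V.cons 13 (-2) (V.cons 19 3 V.nil)) (Q.cons 372 (V.cons 4 23 (V.cons 10 (-7) V.nil)) (Q.cons 428 (V.cons 20 (-1) V.nil) (Q.cons 458 (V.cons 20 2 (V.cons 44 (-2) V.nil)) (Q.cons 461 (V.cons 13 2 (V.cons 19 (-3) V.nil)) (Q.cons 467 (V.cons 19 3 V.nil) (Q.cons 875 (V.cons 13 3 V.nil) (Q.cons 938 (V.cons 20 1 V.nil) (Q.cons 941 (V.cons 19 1 V.nil) (Q.cons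 971 (V.cons 13 1 V.nil) (Q.cons 978 (V.cons 4 (-1) V.nil) (Q.cons 1206 (V.cons 4 2 (V.cons 10 (-1) V.nil)) (Q.cons 1211 (V.cons 13 (-2) (V.cons 19 1 V.nil)) (Q.cons 1242 (V.cons 4 11 (V.cons 10 (-3) V.nil)) (Q.cons 1259 (V.cons 13 (-3) (V.cons 19 1 V.nil)) (Q.cons 1260 (V.cons 4 (-4) (V.cons 10 1 V.nil)) (Q.cons 1266 (V.cons 4 4 (V.cons 10 (-1) V.nil)) (Q.cons 1326 (V.cons 4 2 (V.cons 10 (-1) V.nil)) (Q.cons 1338 (V.cons 4 (-11) (V.cons 10 3 V.nil)) (Q.cons 1341 (V.cons 3 (-9) V.nil) (Q.cons 1359 (V.cons 3 2 V.nil) (Q.cons 1386 (V.cons 4 (-12) (V.cons 10 3 V.nil)) (Q.cons 1395 (V.cons 3 (-6) V.nil) (Q.cons 1451 (V.cons 13 (-1) V.nil) (Q.cons 1452 (V.cons 4 (-4) (V.cons 10 1 V.nil)) (Q.cons 1482 (V.cons 4 (-18) (V.cons 10 5 V.nil)) (Q.cons 1835 (V.cons 13 (-2) V.nil) (Q.cons 3756 (V.cons 4 1 V.nil) (Q.cons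 5295 (V.cons 3 (-2) V.nil) (Q.cons 5355 (V.cons 3 9 V.nil) (Q.cons 5547 (V.cons 3 6 V.nil) Q.nil)))))))))))))))))))))))))))))))))))))))))))))))))),
  (Q.cons 3 (V.cons 1359 1 (V.cons 5295 (-1) V.nil)) (Q.cons 10 (V.cons 342 1 (V.cons 1326 (-1) V.nil)) (Q.cons 13 (V.cons 335 1 V.nil) (Q.cons 15 (V.cons 339 1 (V.cons 1323 (-1) V.nil)) (Q.cons 19 (V.cons 221 3 (V.cons 245 1 (V.cons 311 (-3) (V.cons 317 (-4) (V.cons 335 2 (V.cons 347 (-2) (V.cons 365 (-4) (V.cons 371 3 (V.cons 875 (-2) (V.cons 971 (-1) (V.cons 1211 2 (V.cons 1259 3 (V.cons 1451 1 V.nil))))))))))))) (Q.cons 44 (V.cons 86 1 V.nil) (Q.cons 46 (V.cons 84 1 (V.cons 330 (-1) V.nil)) (Q.cons 55 (V.cons 83 1 V.nil) (Q.cons 74 (V.cons 182 (-1) V.nil) (Q.cons 77 (V.cons 175 (-1) V.nil) (Q.cons 79 (V.cons 173 (-1) V.nil) (Q.cons 83 (V.cons 175 1 V.nil)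 (Q.cons 182 (V.cons 20 1 V.nil) (Q.cons 300 (V.cons 46 (-1) V.nil) (Q.cons 302 (V.cons 44 (-1) V.nil) (Q.cons 311 (V.cons 43 (-1) V.nil) (Q.cons 330 (V.cons 46 1 V.nil) (Q.cons 335 (V.cons 43 1 V.nil) (Q.cons 1206 (V.cons 10 (-1) V.nil) (Q.cons 1326 (V.cons 10 1 V.nil) Q.nil)))))))))))))))))))),
  (Q.cons 34 (V.cons 330 1 (V.cons 1194 (-1) V.nil)) (Q.cons 55 (V.cons 83 1 (V.cons 299 (-1) V.nil)) (Q.cons 61 (V.cons 83 1 (V.cons 299 (-1) V.nil)) (Q.cons 79 (V.cons 83 (-1) (V.cons 299 1 V.nil)) (Q.cons 86 (V.cons 44 2 (V.cons 74 (-2) V.nil)) (Q.cons 91 (V.cons 83 1 (V.cons 299 (-1) V.nil)) (Q.cons 92 (V.cons 170 2 V.nil) (Q.cons 109 (V.cons 83 1 (V.cons 299 (-1) V.nil)) (Q.cons 115 (V.cons 83 1 (V.cons 299 (-1) V.nil)) (Q.cons 116 (V.cons 44 (-4) (V.cons 74 4 (V.cons 170 4 V.nil))) (Q.cons 182 (V.cons 44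 (-1) (V.cons 74 1 V.nil)) (Q.cons 187 (V.cons 83 (-1) (V.cons 299 1 V.nil)) (Q.cons 218 (V.cons 44 (-1) (V.cons 74 1 (V.cons 170 2 V.nil))) (Q.cons 221 (V.cons 13 2 (V.cons 19 (-2) (V.cons 43 (-4) V.nil))) (Q.cons 235 (V.cons 83 (-1) (V.cons 299 1 V.nil)) (Q.cons 236 (V.cons 44 1 (V.cons 74 (-1) V.nil)) (Q.cons 242 (V.cons 44 (-1) (V.cons 74 1 V.nil)) (Q.cons 245 (V.cons 13 (-1) (V.cons 19 1 V.nil)) (Q.cons 302 (V.cons 44 (-1) (V.cons 74 1 V.nil)) (Q.cons 311 (V.cons 13 (-2) (V.cons 19 2 (V.cons 43 2 V.nil))) (Q.cons 314 (V.cons 44 1 (V.cons 74 (-1) (V.cons 170 (-2) V.nil))) (Q.cons 317 (V.cons 13 (-2) (V.cons 19 2 (V.cons 43 4 V.nil))) (Q.cons 335 (V.cons 13 2 (V.cons 19 (-2) (V.cons 43 (-2) V.nil))) (Q.cons 347 (V.cons 13 (-2) (V.cons 19 2 V.nil)) (Q.cons 348 (V.cons 10 (-4) V.nil) (Q.cons 362 (V.cons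 170 (-2) V.nil) (Q.cons 365 (V.cons 13 (-2) (V.cons 19 2 (V.cons 43 2 V.nil))) (Q.cons 371 (V.cons 13 1 (V.cons 19 (-1) (V.cons 43 (-4) V.nil))) (Q.cons 372 (V.cons 10 (-2) V.nil) (Q.cons 427 (V.cons 83 (-2) (V.cons 299 2 V.nil)) (Q.cons 428 (V.cons 44 1 (V.cons 74 (-1) (V.cons 170 (-2) V.nil))) (Q.cons 458 (V.cons 44 1 (V.cons 74 (-1) (V.cons 170 (-2) V.nil))) (Q.cons 461 (V.cons 13 (-1) (V.cons 19 1 (V.cons 43 2 V.nil))) (Q.cons 467 (V.cons 13 2 (V.cons 19 (-2) (V.cons 43 (-6) V.nil))) (Q.cons 468 (V.cons 10 2 V.nil) (Q.cons 875 (V.cons 13 (-1) (V.cons 19 1 (V.cons 43 (-2) V.nil))) (Q.cons 971 (V.cons 13 1 (V.cons 19 (-1) V.nil)) (Q.cons 1211 (V.cons 13 2 (V.cons 19 (-2) V.nil)) (Q.cons 1242 (V.cons 10 (-2) V.nil) (Q.cons 1259 (V.cons 13 1 (V.cons 19 (-1) (V.cons 43 2 V.nil))) (Q.cons 1269 (V.cons 3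 (-2) V.nil) (Q.cons 1338 (V.cons 10 2 V.nil) (Q.cons 1341 (V.cons 3 (-8) V.nil) (Q.cons 1359 (V.cons 3 2 V.nil) (Q.cons 1386 (V.cons 10 4 V.nil) (Q.cons 1395 (V.cons 3 (-8) V.nil) (Q.cons 1451 (V.cons 13 1 (V.cons 19 (-1) (V.cons 43 2 V.nil))) (Q.cons 1482 (V.cons 10 4 V.nil) (Q.cons 1491 (V.cons 3 (-2) V.nil) (Q.cons 1706 (V.cons 44 2 (V.cons 74 (-2) V.nil)) (Q.cons 1709 (V.cons 43 2 V.nil) (Q.cons 1835 (V.cons 13 1 (V.cons 19 (-1) (V.cons 43 2 V.nil))) (Q.cons 3498 (V.cons 10 2 V.nil) (Q.cons 5034 (V.cons 10 (-2) V.nil) (Q.cons 5295 (V.cons 3 (-2) V.nil) (Q.cons 5355 (V.cons 3 8 V.nil) (Q.cons 5547 (V.cons 3 8 V.nil) (Q.cons 5802 (V.cons 10 (-2) V.nil) (Q.cons 6827 (V.cons 13 (-2) (V.cons 19 2 V.nil)) (Q.cons 7338 (V.cons 10 (-2) V.nil) (Q.cons 20139 (V.cons 3 2 V.nil) (Q.cons 23211 (V.cons 3 2 V.nil)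 Q.nil))))))))))))))))))))))))))))))))))))))))))))))))))))))))))))))]

def lits8_5 : List Q := lits8_5_0 ++ (lits8_5_1 ++ (lits8_5_2 ++ (lits8_5_3 ++ (lits8_5_4 ++ (lits8_5_5)))))

set_option maxRecDepth 1000000
theorem rows8_5_ok : chkRows rows8_5 lits8_5 = true := by decide +kernel

end Pool.Agent.N33.SA
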