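import Pool.Agent.N33.SA.Bil4
set_option autoImplicit false

/-! Rows of the certificate of level 8, part 6. -/

noncomputable section
namespace Pool.Agent.N33.SA

def rows8_6 : List BR := [
  ⟨0, 182, 0, [], []⟩,
  ⟨0, 92, 0, [], []⟩,
  ⟨3, 19, 0, [2], []⟩,
  ⟨3, 91, 0, [], []⟩,
  ⟨27, 13, 0, [], []⟩,
  ⟨10, 22, 0, [], []⟩,
  ⟨58, 10, 0, [], []⟩,
  ⟨43, 3, 0, [2], []⟩,
  ⟨187, 3, 0, [], []⟩,
  ⟨91, 3, 0, [], []⟩,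
  ⟨938, 0, 0, [], []⟩,
  ⟨302, 0, 0, [], []⟩,
  ⟨0, 25, 1, [], []⟩,
  ⟨6, 43, 1, [], []⟩,
  ⟨9, 10, 1, [], []⟩,
  ⟨10, 15, 1, [], []⟩,
  ⟨43, 0, 1, [2], []⟩,
  ⟨55, 0, 1, [], []⟩,
  ⟨0, 300, 2, [], []⟩,
  ⟨10, 44, 2, [], []⟩,
  ⟨43, 13, 2, [], []⟩,
  ⟨170, 10, 2, [], []⟩,
  ⟨683, 3, 2, [], []⟩,
  ⟨330, 0, 2, [], []⟩,
  ⟨3, 74, 3, [], []⟩,
  ⟨43, 10, 3, [], []⟩,
  ⟨74, 3, 3, [], []⟩,
  ⟨0, 77, 4, [], []⟩,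
  ⟨10, 19, 4, [], []⟩,
  ⟨19, 10, 4, [], []⟩,
  ⟨299, 0, 4, [], []⟩,
  ⟨3, 19, 6, [], []⟩,
  ⟨170, 0, 6, [], []⟩,
  ⟨3, 13, 7, [], []⟩,
  ⟨0, 43, 0, [3], []⟩,
  ⟨0, 19, 0, [2,0], []⟩,
  ⟨0, 91, 0, [0], []⟩,
  ⟨3, 4, 0, [0,2], []⟩,
  ⟨15, 4, 0, [0], []⟩,
  ⟨4, 3, 0, [2,0], []⟩,
  ⟨22, 3, 0, [0], []⟩,
  ⟨19, 0, 0, [0,2], []⟩,
  ⟨427, 0, 0, [0], []⟩,
  ⟨0, 4, 1, [3], []⟩,
  ⟨3, 3, 1, [3], []⟩,
  ⟨10, 0, 1, [0,2], []⟩,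
  ⟨106, 0, 1, [0], []⟩,
  ⟨683, 0, 2, [0], []⟩,
  ⟨0, 10, 0, [1,2], []⟩,
  ⟨0, 22, 0, [0,0], []⟩,
  ⟨3, 3, 0, [1,2], []⟩,
  ⟨10, 0, 0, [2,1], []⟩,
  ⟨58, 0, 0, [1], []⟩,
  ⟨0, 15, 1, [0,0], []⟩,
  ⟨9, 0, 1, [1], []⟩]

def lits8_6_0 : List Q := [
  (Q.cons 3 (V.cons 1341 27 (V.cons 1359 (-5) (V.cons 1395 22 (V.cons 5295 5 (V.cons 5355 (-27) (V.cons 5547 (-22) V.nil)))))) (Q.cons 4 (V.cons 342 (-6) (V.cons 348 6 (V.cons 372 15 (V.cons 1206 5 (V.cons 1242 6 (V.cons 1260 (-3) (V.cons 1266 2 (V.cons 1326 1 (V.cons 1338 (-6) (V.cons 1386 (-5) (V.cons 1452 (-3) (V.cons 1482 (-11) (V.cons 3498 2 (V.cons 5034 (-1) (V.cons 5802 (-1) V.nil))))))))))))))) (Q.cons 10 (V.cons 342 2 (V.cons 348 (-4) (V.cons 372 (-6) (V.cons 1206 (-2) (V.cons 1242 (-3) (V.cons 1260 1 (V.cons 1266 (-1) (V.cons 1338 3 (V.cons 1386 3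 (V.cons 1452 1 (V.cons 1482 5 V.nil))))))))))) (Q.cons 13 (V.cons 221 (-2) (V.cons 311 2 (V.cons 317 2 (V.cons 335 (-2) (V.cons 365 2 (V.cons 371 (-1) (V.cons 875 2 (V.cons 1211 (-1) (V.cons 1259 (-2) (V.cons 1451 (-1) V.nil)))))))))) (Q.cons 19 (V.cons 221 2 (V.cons 311 (-2) (V.cons 317 (-2) (V.cons 335 2 (V.cons 365 (-2) (V.cons 371 1 (V.cons 875 (-2) (V.cons 1211 1 (V.cons 1259 2 (V.cons 1451 1 V.nil)))))))))) Q.nil))))),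
  (Q.cons 3 (V.cons 1341 (-9) (V.cons 1359 2 (V.cons 1395 (-7) (V.cons 5295 (-2) (V.cons 5355 9 (V.cons 5547 7 V.nil)))))) (Q.cons 4 (V.cons 372 2 (V.cons 1482 (-1) V.nil)) (Q.cons 10 (V.cons 372 (-1) V.nil) (Q.cons 13 (V.cons 371 (-1) V.nil) (Q.cons 19 (V.cons 371 1 V.nil) Q.nil))))),
  (Q.cons 10 (V.cons 342 1 (V.cons 1206 (-1) V.nil)) (Q.cons 13 (V.cons 311 2 (V.cons 1199 (-1) V.nil)) (Q.cons 20 (V.cons 302 (-1) V.nil) (Q.cons 43 (V.cons 311 (-1) V.nil) (Q.cons 44 (V.cons 302 1 V.nil) (Q.cons 46 (V.cons 84 1 (V.cons 300 (-1) V.nil)) (Q.cons 55 (V.cons 77 2 (V.cons 299 (-1) V.nil)) (Q.cons 86 (V.cons 74 (-1) V.nil) (Q.cons 175 (V.cons 77 (-1) V.nil) (Q.cons 182 (V.cons 74 1 V.nil) Q.nil)))))))))),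
  (Q.cons 10 (V.cons 372 1 (V.cons 1452 (-1) V.nil)) (Q.cons 13 (V.cons 365 2 (V.cons 1451 (-1) V.nil)) (Q.cons 20 (V.cons 362 (-1) V.nil) (Q.cons 43 (V.cons 365 (-1) V.nil) (Q.cons 44 (V.cons 362 1 V.nil) Q.nil))))),
  (Q.cons 106 (V.cons 84 (-1) (V.cons 330 1 V.nil)) (Q.cons 109 (V.cons 83 1 V.nil) (Q.cons 116 (V.cons 20 (-1) V.nil) (Q.cons 427 (V.cons 83 (-1) V.nil) (Q.cons 428 (V.cons 20 1 V.nil) Q.nil))))),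
  (Q.cons 43 (V.cons 365 1 (V.cons 371 (-1) V.nil)) (Q.cons 44 (V.cons 92 2 (V.cons 362 (-1) V.nil)) (Q.cons 83 (V.cons 91 1 V.nil) (Q.cons 170 (V.cons 92 (-1) V.nil) (Q.cons 173 (V.cons 91 (-1) V.nil) Q.nil))))),
  (Q.cons 235 (V.cons 83 (-1) (V.cons 173 1 V.nil)) (Q.cons 236 (V.cons 44 2 (V.cons 170 (-1) V.nil)) (Q.cons 245 (V.cons 43 1 V.nil) (Q.cons 938 (V.cons 44 (-1) V.nil) (Q.cons 941 (V.cons 43 (-1) V.nil) Q.nil))))),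
  (Q.cons 170 (V.cons 86 1 (V.cons 182 (-1) V.nil)) (Q.cons 173 (V.cons 55 2 (V.cons 175 (-1) V.nil)) (Q.cons 221 (V.cons 13 (-6) (V.cons 43 3 V.nil)) (Q.cons 245 (V.cons 13 (-2) (V.cons 43 1 V.nil)) (Q.cons 311 (V.cons 13 6 (V.cons 43 (-3) V.nil)) (Q.cons 317 (V.cons 13 8 (V.cons 43 (-4) V.nil)) (Q.cons 330 (V.cons 46 (-1) V.nil) (Q.cons 335 (V.cons 13 (-4) (V.cons 43 2 V.nil)) (Q.cons 347 (V.cons 13 4 (V.cons 43 (-2) V.nil)) (Q.cons 348 (V.cons 10 9 V.nil) (Q.cons 365 (V.cons 13 8 (V.cons 43 (-4) V.nil)) (Q.cons 371 (V.cons 13 (-6) (V.cons 43 3 V.nil)) (Q.cons 372 (V.cons 10 8 V.nil) (Q.cons 461 (V.cons 13 6 (V.cons 43 (-3) V.nil)) (Q.cons 467 (V.cons 13 (-4) (V.cons 43 2 V.nil)) (Q.cons 468 (V.cons 10 (-2) V.nil) (Q.cons 683 (V.cons 55 (-1) V.nil) (Q.cons 684 (V.cons 46 1 V.nil) (Q.cons 686 (V.cons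 20 1 (V.cons 44 (-1) V.nil)) (Q.cons 875 (V.cons 13 4 (V.cons 43 (-2) V.nil)) (Q.cons 971 (V.cons 13 2 (V.cons 43 (-1) V.nil)) (Q.cons 1206 (V.cons 10 1 V.nil) (Q.cons 1211 (V.cons 13 (-4) (V.cons 43 2 V.nil)) (Q.cons 1242 (V.cons 10 6 V.nil) (Q.cons 1259 (V.cons 13 (-6) (V.cons 43 3 V.nil)) (Q.cons 1260 (V.cons 10 (-1) V.nil) (Q.cons 1266 (V.cons 10 2 V.nil) (Q.cons 1326 (V.cons 10 (-1) V.nil) (Q.cons 1338 (V.cons 10 (-6) V.nil) (Q.cons 1386 (V.cons 10 (-9) V.nil) (Q.cons 1451 (V.cons 13 (-2) (V.cons 43 1 V.nil)) (Q.cons 1452 (V.cons 10 (-1) V.nil) (Q.cons 1482 (V.cons 10 (-8) V.nil) (Q.cons 1835 (V.cons 13 (-2) (V.cons 43 1 V.nil)) (Q.cons 2735 (V.cons 13 (-1) V.nil) (Q.cons 3498 (V.cons 10 (-2) V.nil) (Q.cons 5034 (V.cons 10 1 V.nil) (Q.cons 5802 (V.cons 10 1 V.nil) (Q.cons 7338 (V.cons 10 2 V.nil)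 Q.nil))))))))))))))))))))))))))))))))))))))),
  (Q.cons 86 (V.cons 20 2 (V.cons 44 (-2) V.nil)) (Q.cons 116 (V.cons 20 (-3) (V.cons 44 3 V.nil)) (Q.cons 182 (V.cons 20 (-1) (V.cons 44 1 V.nil)) (Q.cons 221 (V.cons 13 (-4) (V.cons 43 3 V.nil)) (Q.cons 236 (V.cons 20 1 (V.cons 44 (-1) V.nil)) (Q.cons 245 (V.cons 13 1 (V.cons 43 (-1) V.nil)) (Q.cons 302 (V.cons 20 (-1) (V.cons 44 1 V.nil)) (Q.cons 311 (V.cons 13 4 (V.cons 43 (-3) V.nil)) (Q.cons 317 (V.cons 13 6 (V.cons 43 (-4) V.nil)) (Q.cons 335 (V.cons 13 (-4) (V.cons 43 3 V.nil)) (Q.cons 342 (V.cons 10 2 V.nil) (Q.cons 347 (V.cons 43 (-1) V.nil) (Q.cons 348 (V.cons 10 (-9) V.nil) (Q.cons 362 (V.cons 20 1 (V.cons 44 (-1) V.nil)) (Q.cons 365 (V.cons 13 6 (V.cons 43 (-4) V.nil)) (Q.cons 371 (V.cons 13 (-5) (V.cons 43 3 V.nil)) (Q.cons 372 (V.cons 10 (-16)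 V.nil) (Q.cons 428 (V.cons 20 1 (V.cons 44 (-1) V.nil)) (Q.cons 458 (V.cons 20 2 (V.cons 44 (-2) V.nil)) (Q.cons 461 (V.cons 13 5 (V.cons 43 (-3) V.nil)) (Q.cons 467 (V.cons 13 (-5) (V.cons 43 3 V.nil)) (Q.cons 875 (V.cons 13 (-2) V.nil) (Q.cons 938 (V.cons 20 (-1) (V.cons 44 1 V.nil)) (Q.cons 941 (V.cons 13 (-2) (V.cons 43 1 V.nil)) (Q.cons 978 (V.cons 10 1 V.nil) (Q.cons 1206 (V.cons 10 (-1) V.nil) (Q.cons 1211 (V.cons 43 1 V.nil) (Q.cons 1242 (V.cons 10 (-8) V.nil) (Q.cons 1259 (V.cons 43 1 V.nil) (Q.cons 1260 (V.cons 10 3 V.nil) (Q.cons 1266 (V.cons 10 (-3) V.nil) (Q.cons 1326 (V.cons 10 (-1) V.nil) (Q.cons 1338 (V.cons 10 8 V.nil) (Q.cons 1386 (V.cons 10 9 V.nil) (Q.cons 1452 (V.cons 10 3 V.nil) (Q.cons 1482 (V.cons 10 13 V.nil) (Q.cons 3755 (V.cons 13 1 V.nil) (Q.cons 3756 (V.cons 10 (-1) V.nil)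 Q.nil)))))))))))))))))))))))))))))))))))))),
  (Q.cons 362 (V.cons 20 1 (V.cons 44 (-1) V.nil)) (Q.cons 365 (V.cons 13 2 (V.cons 43 (-1) V.nil)) (Q.cons 372 (V.cons 10 (-1) V.nil) (Q.cons 1451 (V.cons 13 (-1) V.nil) (Q.cons 1452 (V.cons 10 1 V.nil) Q.nil)))))]

def lits8_6_1 : List Q := [
  (Q.cons 981 (V.cons 3 1 V.nil) (Q.cons 1395 (V.cons 3 1 V.nil) (Q.cons 3755 (V.cons 13 1 (V.cons 19 (-1) V.nil)) (Q.cons 3756 (V.cons 4 2 (V.cons 10 (-1) V.nil)) (Q.cons 5547 (V.cons 3 (-1) V.nil) (Q.cons 15018 (V.cons 4 (-1) V.nil) (Q.cons 15021 (V.cons 3 (-1) V.nil) Q.nil))))))),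
  (Q.cons 342 (V.cons 4 2 (V.cons 10 (-2) V.nil)) (Q.cons 372 (V.cons 4 (-1) (V.cons 10 2 V.nil)) (Q.cons 1206 (V.cons 4 (-3) (V.cons 10 2 V.nil)) (Q.cons 1211 (V.cons 13 1 (V.cons 19 (-1) V.nil)) (Q.cons 1242 (V.cons 4 (-2) (V.cons 10 1 V.nil)) (Q.cons 1260 (V.cons 4 (-3) (V.cons 10 1 V.nil)) (Q.cons 1266 (V.cons 4 2 (V.cons 10 (-1) V.nil)) (Q.cons 1326 (V.cons 4 1 V.nil) (Q.cons 1338 (V.cons 4 2 (V.cons 10 (-1) V.nil)) (Q.cons 1341 (V.cons 3 27 V.nil) (Q.cons 1359 (V.cons 3 (-6) V.nil) (Q.cons 1386 (V.cons 4 1 (V.cons 10 (-1) V.nil)) (Q.cons 1395 (V.cons 3 21 V.nil) (Q.cons 1452 (V.cons 4 (-1) V.nil) (Q.cons 1482 (V.cons 4 2 (V.cons 10 (-2) V.nil)) (Q.cons 1491 (V.cons 3 1 V.nil) (Q.cons 5034 (V.cons 4 1 V.nil) (Q.cons 5295 (V.cons 3 6 V.nil) (Q.cons 5355 (V.cons 3 (-27) V.nil) (Q.cons 5547 (V.cons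 3 (-21) V.nil) (Q.cons 5805 (V.cons 3 (-1) V.nil) Q.nil))))))))))))))))))))),
  (Q.cons 3 (V.cons 1341 (-30) (V.cons 1359 8 (V.cons 1395 (-20) (V.cons 1491 2 (V.cons 5295 (-8) (V.cons 5355 30 (V.cons 5547 20 (V.cons 5805 (-2) V.nil)))))))) (Q.cons 10 (V.cons 348 6 (V.cons 372 6 (V.cons 1242 4 (V.cons 1338 (-4) (V.cons 1386 (-6) (V.cons 1452 (-2) (V.cons 1482 (-4) V.nil))))))) (Q.cons 13 (V.cons 311 (-1) (V.cons 317 (-1) (V.cons 335 1 (V.cons 347 (-1) (V.cons 365 (-1) (V.cons 371 (-1) (V.cons 1211 1 (V.cons 1259 1 (V.cons 1451 2 V.nil))))))))) (Q.cons 19 (V.cons 311 1 (V.cons 317 1 (V.cons 335 (-1) (V.cons 347 1 (V.cons 365 1 (V.cons 371 1 (V.cons 1211 (-1) (V.cons 1259 (-1) (V.cons 1451 (-2) V.nil))))))))) (Q.cons 44 (V.cons 98 1 V.nil) (Q.cons 74 (V.cons 98 (-1) V.nil) Q.nil)))))),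
  (Q.cons 27 (V.cons 1323 1 (V.cons 2733 (-1) V.nil)) (Q.cons 106 (V.cons 330 1 (V.cons 684 (-1) V.nil)) (Q.cons 109 (V.cons 683 1 V.nil) (Q.cons 115 (V.cons 683 (-1) V.nil) (Q.cons 428 (V.cons 170 1 V.nil) (Q.cons 458 (V.cons 170 (-1) V.nil) Q.nil)))))),
  (Q.cons 34 (V.cons 330 (-1) (V.cons 684 1 V.nil)) (Q.cons 55 (V.cons 83 (-1) (V.cons 173 1 V.nil)) (Q.cons 61 (V.cons 83 (-1) (V.cons 173 1 V.nil)) (Q.cons 79 (V.cons 83 1 (V.cons 173 (-1) V.nil)) (Q.cons 91 (V.cons 83 (-1) (V.cons 173 1 V.nil)) (Q.cons 92 (V.cons 170 2 V.nil) (Q.cons 109 (V.cons 83 (-1) (V.cons 173 1 V.nil)) (Q.cons 115 (V.cons 83 (-1) (V.cons 173 1 V.nil)) (Q.cons 116 (V.cons 170 4 V.nil) (Q.cons 187 (V.cons 83 1 (V.cons 173 (-1) V.nil)) (Q.cons 218 (V.cons 170 2 V.nil) (Q.cons 221 (V.cons 43 (-4) V.nil) (Q.cons 235 (V.cons 83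 1 (V.cons 173 (-1) V.nil)) (Q.cons 311 (V.cons 43 2 V.nil) (Q.cons 314 (V.cons 170 (-2) V.nil) (Q.cons 317 (V.cons 43 4 V.nil) (Q.cons 335 (V.cons 43 (-2) V.nil) (Q.cons 362 (V.cons 170 (-2) V.nil) (Q.cons 365 (V.cons 43 2 V.nil) (Q.cons 371 (V.cons 43 (-4) V.nil) (Q.cons 427 (V.cons 83 2 (V.cons 173 (-2) V.nil)) (Q.cons 428 (V.cons 170 (-2) V.nil) (Q.cons 458 (V.cons 170 (-2) V.nil) (Q.cons 461 (V.cons 43 2 V.nil) (Q.cons 467 (V.cons 43 (-6) V.nil) (Q.cons 875 (V.cons 43 (-2) V.nil) (Q.cons 1259 (V.cons 43 2 V.nil) (Q.cons 1451 (V.cons 43 2 V.nil) (Q.cons 1709 (V.cons 43 2 V.nil) (Q.cons 1835 (V.cons 43 2 V.nil) Q.nil)))))))))))))))))))))))))))))),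
  (Q.cons 43 (V.cons 941 (-1) (V.cons 971 1 V.nil)) (Q.cons 83 (V.cons 235 (-1) V.nil) (Q.cons 170 (V.cons 236 (-1) (V.cons 242 1 V.nil)) (Q.cons 173 (V.cons 235 1 V.nil) (Q.cons 330 (V.cons 58 (-1) V.nil) (Q.cons 684 (V.cons 58 1 V.nil) Q.nil)))))),
  (Q.cons 170 (V.cons 182 1 (V.cons 302 (-1) V.nil)) (Q.cons 330 (V.cons 46 1 V.nil) (Q.cons 348 (V.cons 10 (-9) V.nil) (Q.cons 372 (V.cons 10 (-8) V.nil) (Q.cons 468 (V.cons 10 2 V.nil) (Q.cons 683 (V.cons 55 (-1) (V.cons 79 1 V.nil)) (Q.cons 684 (V.cons 46 (-1) V.nil) (Q.cons 686 (V.cons 44 1 (V.cons 74 (-1) V.nil)) (Q.cons 1206 (V.cons 10 (-1) V.nil) (Q.cons 1242 (V.cons 10 (-6) V.nil) (Q.cons 1260 (V.cons 10 1 V.nil) (Q.cons 1266 (V.cons 10 (-2) V.nil) (Q.cons 1323 (V.cons 15 (-1) V.nil) (Q.cons 1326 (V.cons 10 1 V.nil) (Q.cons 1338 (V.cons 10 6 V.nil)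 (Q.cons 1341 (V.cons 3 (-3) V.nil) (Q.cons 1359 (V.cons 3 1 V.nil) (Q.cons 1386 (V.cons 10 9 V.nil) (Q.cons 1395 (V.cons 3 (-1) V.nil) (Q.cons 1452 (V.cons 10 1 V.nil) (Q.cons 1482 (V.cons 10 8 V.nil) (Q.cons 1875 (V.cons 3 (-1) V.nil) (Q.cons 2733 (V.cons 15 1 V.nil) (Q.cons 2735 (V.cons 13 (-1) (V.cons 19 1 V.nil)) (Q.cons 3498 (V.cons 10 2 V.nil) (Q.cons 5034 (V.cons 10 (-1) V.nil) (Q.cons 5295 (V.cons 3 (-1) V.nil) (Q.cons 5355 (V.cons 3 3 V.nil) (Q.cons 5547 (V.cons 3 1 V.nil) (Q.cons 5802 (V.cons 10 (-1) V.nil) (Q.cons 7338 (V.cons 10 (-2) V.nil) (Q.cons 29355 (V.cons 3 1 V.nil) Q.nil)))))))))))))))))))))))))))))))),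
  (Q.cons 218 (V.cons 44 1 (V.cons 74 (-1) V.nil)) (Q.cons 342 (V.cons 10 (-1) V.nil) (Q.cons 348 (V.cons 10 3 V.nil) (Q.cons 372 (V.cons 10 6 V.nil) (Q.cons 875 (V.cons 13 (-1) (V.cons 19 1 V.nil)) (Q.cons 1206 (V.cons 10 1 V.nil) (Q.cons 1242 (V.cons 10 3 V.nil) (Q.cons 1260 (V.cons 10 (-1) V.nil) (Q.cons 1266 (V.cons 10 1 V.nil) (Q.cons 1338 (V.cons 10 (-3) V.nil) (Q.cons 1341 (V.cons 3 3 V.nil) (Q.cons 1359 (V.cons 3 (-1) V.nil) (Q.cons 1386 (V.cons 10 (-3) V.nil) (Q.cons 1395 (V.cons 3 2 V.nil) (Q.cons 1452 (V.cons 10 (-1) V.nil) (Q.cons 1482 (V.cons 10 (-5) V.nil) (Q.cons 5295 (V.cons 3 1 V.nil) (Q.cons 5355 (V.cons 3 (-3) V.nil) (Q.cons 5547 (V.cons 3 (-2) V.nil) Q.nil))))))))))))))))))),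
  (Q.cons 3 (V.cons 1341 68 (V.cons 1359 (-16) (V.cons 1395 52 (V.cons 5295 16 (V.cons 5355 (-68) (V.cons 5547 (-52) V.nil)))))) (Q.cons 4 (V.cons 1206 (-4) V.nil) (Q.cons 9 (V.cons 339 (-2) V.nil) (Q.cons 10 (V.cons 1206 4 V.nil) Q.nil)))),
  (Q.cons 10 (V.cons 348 (-12) (V.cons 372 (-6) (V.cons 1242 (-6) (V.cons 1338 6 (V.cons 1386 12 (V.cons 1482 6 V.nil)))))) (Q.cons 43 (V.cons 221 (-4) (V.cons 245 (-4) (V.cons 311 2 (V.cons 317 (-2) (V.cons 335 (-2) (V.cons 347 (-2) (V.cons 365 (-2) (V.cons 371 2 (V.cons 875 4 (V.cons 971 4 (V.cons 1211 2 (V.cons 1259 2 V.nil)))))))))))) (Q.cons 44 (V.cons 182 (-4) V.nil) (Q.cons 55 (V.cons 83 (-2) V.nil) (Q.cons 61 (V.cons 83 (-2) V.nil) (Q.cons 79 (V.cons 83 (-2) V.nil) (Q.cons 91 (V.cons 83 (-2) V.nil) (Q.cons 109 (V.cons 83 2 V.nil) (Q.cons 115 (V.cons 83 (-2)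 V.nil) (Q.cons 170 (V.cons 182 4 V.nil) (Q.cons 175 (V.cons 83 4 V.nil) (Q.cons 187 (V.cons 83 2 V.nil) (Q.cons 235 (V.cons 83 2 V.nil) Q.nil)))))))))))))]

def lits8_6_2 : List Q := [
  (Q.cons 86 (V.cons 20 8 V.nil) (Q.cons 116 (V.cons 20 (-4) V.nil) (Q.cons 170 (V.cons 86 (-4) (V.cons 98 (-2) (V.cons 182 4 (V.cons 218 4 (V.cons 314 (-4) V.nil))))) (Q.cons 173 (V.cons 55 (-4) V.nil) (Q.cons 182 (V.cons 20 (-2) V.nil) (Q.cons 218 (V.cons 20 2 V.nil) (Q.cons 236 (V.cons 20 (-2) V.nil) (Q.cons 242 (V.cons 20 2 V.nil) (Q.cons 302 (V.cons 20 (-2) V.nil) (Q.cons 314 (V.cons 20 (-2) V.nil) (Q.cons 428 (V.cons 20 2 V.nil) (Q.cons 458 (V.cons 20 2 V.nil) (Q.cons 683 (V.cons 55 4 V.nil) (Q.cons 686 (V.cons 20 (-4) V.nil) Q.nil)))))))))))))),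
  (Q.cons 221 (V.cons 43 (-8) V.nil) (Q.cons 245 (V.cons 43 6 V.nil) (Q.cons 311 (V.cons 43 8 V.nil) (Q.cons 317 (V.cons 43 12 V.nil) (Q.cons 335 (V.cons 43 (-12) V.nil) (Q.cons 347 (V.cons 43 4 V.nil) (Q.cons 365 (V.cons 43 12 V.nil) (Q.cons 371 (V.cons 43 (-10) V.nil) (Q.cons 461 (V.cons 43 10 V.nil) (Q.cons 467 (V.cons 43 (-8) V.nil) (Q.cons 683 (V.cons 55 2 (V.cons 61 2 (V.cons 79 2 (V.cons 91 2 (V.cons 175 (-4) (V.cons 187 (-2) (V.cons 235 (-2) V.nil))))))) (Q.cons 684 (V.cons 46 (-4) V.nil) (Q.cons 686 (V.cons 44 (-4) (V.cons 170 4 V.nil)) (Q.cons 875 (V.cons 43 2 V.nil) (Q.cons 941 (V.cons 43 (-4) V.nil) (Q.cons 971 (V.cons 43 (-2) V.nil) (Q.cons 1211 (V.cons 43 (-4) V.nil) (Q.cons 1259 (V.cons 43 (-6) V.nil) (Q.cons 1451 (V.cons 43 (-2) V.nil) (Q.cons 1835 (V.cons 43 (-2) V.nil) (Q.cons 2730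 (V.cons 46 4 V.nil) (Q.cons 2735 (V.cons 43 4 V.nil) Q.nil)))))))))))))))))))))),
  (Q.cons 342 (V.cons 10 26 V.nil) (Q.cons 348 (V.cons 10 (-66) V.nil) (Q.cons 372 (V.cons 10 (-124) V.nil) (Q.cons 468 (V.cons 10 (-4) V.nil) (Q.cons 683 (V.cons 55 (-1) (V.cons 61 (-1) (V.cons 79 1 (V.cons 91 (-1) (V.cons 187 1 (V.cons 235 1 V.nil)))))) (Q.cons 978 (V.cons 10 4 V.nil) (Q.cons 1206 (V.cons 10 (-20) V.nil) (Q.cons 1242 (V.cons 10 (-64) V.nil) (Q.cons 1260 (V.cons 10 22 V.nil) (Q.cons 1266 (V.cons 10 (-22) V.nil) (Q.cons 1326 (V.cons 10 (-2) V.nil) (Q.cons 1338 (V.cons 10 64 V.nil) (Q.cons 1386 (V.cons 10 66 V.nil) (Q.cons 1452 (V.cons 10 22 V.nil) (Q.cons 1482 (V.cons 10 102 V.nil) (Q.cons 2730 (V.cons 22 (-4) (V.cons 46 4 V.nil)) (Q.cons 2733 (V.cons 15 (-4) V.nil) (Q.cons 2735 (V.cons 13 (-4) (V.cons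 43 4 V.nil)) (Q.cons 3756 (V.cons 10 (-4) V.nil) (Q.cons 7338 (V.cons 10 4 V.nil) (Q.cons 10923 (V.cons 15 4 V.nil) (Q.cons 10926 (V.cons 10 (-4) V.nil) Q.nil)))))))))))))))))))))),
  (Q.cons 1326 (V.cons 4 (-4) (V.cons 10 4 V.nil)) (Q.cons 1341 (V.cons 3 4 V.nil) (Q.cons 1359 (V.cons 3 (-4) V.nil) (Q.cons 1395 (V.cons 3 4 V.nil) (Q.cons 5295 (V.cons 3 4 V.nil) (Q.cons 5355 (V.cons 3 (-4) V.nil) (Q.cons 5547 (V.cons 3 (-4) V.nil) Q.nil))))))),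
  (Q.cons 10 (V.cons 372 2 (V.cons 1206 (-4) (V.cons 1242 (-2) (V.cons 1260 (-4) (V.cons 1266 2 (V.cons 1326 2 (V.cons 1338 2 (V.cons 1452 (-2) (V.cons 4782 2 (V.cons 5034 2 V.nil)))))))))) (Q.cons 13 (V.cons 1199 (-2) (V.cons 1211 2 V.nil)) (Q.cons 15 (V.cons 339 (-2) (V.cons 1197 2 V.nil)) (Q.cons 20 (V.cons 302 (-2) V.nil) (Q.cons 22 (V.cons 1194 4 V.nil) (Q.cons 28 (V.cons 1194 4 V.nil) (Q.cons 34 (V.cons 1194 2 V.nil) (Q.cons 43 (V.cons 311 2 (V.cons 317 2 (V.cons 335 2 (V.cons 347 2 (V.cons 365 (-2) (V.cons 371 2 (V.cons 1199 (-2) (V.cons 1211 (-4) (V.cons 1259 (-2) V.nil))))))))) (Q.cons 44 (V.cons 302 2 V.nil) (Q.cons 46 (V.cons 300 (-2) (V.cons 1194 (-2) V.nil)) (Q.cons 55 (V.cons 299 (-2) V.nil) (Q.cons 58 (V.cons 300 2 (V.cons 1194 (-2) V.nil)) (Q.cons 61 (V.cons 299 2 V.nil) (Q.cons 106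 (V.cons 1194 (-4) V.nil) (Q.cons 175 (V.cons 299 2 V.nil) (Q.cons 235 (V.cons 299 (-2) V.nil) Q.nil)))))))))))))))),
  (Q.cons 86 (V.cons 44 (-6) (V.cons 170 14 V.nil)) (Q.cons 116 (V.cons 44 6 (V.cons 170 (-10) V.nil)) (Q.cons 170 (V.cons 182 (-4) (V.cons 218 (-2) (V.cons 236 (-4) (V.cons 242 2 (V.cons 302 2 (V.cons 314 2 (V.cons 686 2 (V.cons 938 2 V.nil)))))))) (Q.cons 173 (V.cons 175 (-2) (V.cons 187 2 V.nil)) (Q.cons 175 (V.cons 83 (-2) (V.cons 173 2 V.nil)) (Q.cons 182 (V.cons 44 2 (V.cons 170 (-4) V.nil)) (Q.cons 218 (V.cons 44 (-2) (V.cons 170 4 V.nil)) (Q.cons 221 (V.cons 43 8 V.nil) (Q.cons 236 (V.cons 44 (-4) (V.cons 170 2 V.nil)) (Q.cons 242 (V.cons 44 2 V.nil) (Q.cons 245 (V.cons 43 2 V.nil) (Q.cons 302 (V.cons 44 4 (V.cons 170 (-6) V.nil)) (Q.cons 311 (V.cons 43 (-8) V.nil) (Q.cons 314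 (V.cons 44 4 (V.cons 170 (-6) V.nil)) (Q.cons 317 (V.cons 43 (-16) V.nil) (Q.cons 330 (V.cons 46 (-2) V.nil) (Q.cons 335 (V.cons 43 6 V.nil) (Q.cons 347 (V.cons 43 (-2) V.nil) (Q.cons 365 (V.cons 43 (-16) V.nil) (Q.cons 371 (V.cons 43 16 V.nil) (Q.cons 428 (V.cons 44 (-4) (V.cons 170 6 V.nil)) (Q.cons 458 (V.cons 44 (-2) (V.cons 170 4 V.nil)) (Q.cons 461 (V.cons 43 (-16) V.nil) (Q.cons 467 (V.cons 43 20 V.nil) (Q.cons 683 (V.cons 55 2 (V.cons 61 2 (V.cons 79 2 (V.cons 91 2 (V.cons 175 (-2) (V.cons 187 (-4) (V.cons 235 (-2) V.nil))))))) (Q.cons 684 (V.cons 46 2 V.nil) (Q.cons 686 (V.cons 44 (-2) (V.cons 170 (-2) V.nil)) (Q.cons 875 (V.cons 43 6 V.nil) (Q.cons 938 (V.cons 44 2 (V.cons 170 (-2) V.nil)) (Q.cons 941 (V.cons 43 2 V.nil) (Q.cons 971 (V.cons 43 (-2) V.nil) (Q.cons 1211 (V.cons 43 2 V.nil) (Q.cons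 1259 (V.cons 43 2 V.nil) (Q.cons 1835 (V.cons 43 (-4) V.nil) (Q.cons 2735 (V.cons 43 2 V.nil) (Q.cons 3755 (V.cons 43 (-2) V.nil) Q.nil)))))))))))))))))))))))))))))))))))),
  (Q.cons 74 (V.cons 86 (-2) (V.cons 182 1 (V.cons 218 1 (V.cons 236 (-1) (V.cons 242 1 (V.cons 302 1 (V.cons 314 (-1) V.nil))))))) (Q.cons 299 (V.cons 55 2 (V.cons 61 (-2) (V.cons 175 (-2) (V.cons 235 2 V.nil)))) (Q.cons 300 (V.cons 46 (-2) (V.cons 58 2 V.nil)) (Q.cons 302 (V.cons 20 (-2) (V.cons 44 2 V.nil)) (Q.cons 311 (V.cons 43 (-2) V.nil) (Q.cons 317 (V.cons 43 (-2) V.nil) (Q.cons 335 (V.cons 43 (-2) V.nil) (Q.cons 339 (V.cons 15 2 V.nil) (Q.cons 347 (V.cons 43 (-2) V.nil) (Q.cons 365 (V.cons 43 2 V.nil) (Q.cons 371 (V.cons 43 (-2) V.nil) (Q.cons 372 (V.cons 10 2 V.nil) (Q.cons 1194 (V.cons 22 4 (V.cons 46 (-2) (V.cons 58 (-2)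 V.nil))) (Q.cons 1197 (V.cons 15 (-2) V.nil) (Q.cons 1199 (V.cons 13 2 (V.cons 43 2 V.nil)) (Q.cons 1206 (V.cons 10 (-4) V.nil) (Q.cons 1211 (V.cons 13 (-2) (V.cons 43 4 V.nil)) (Q.cons 1242 (V.cons 10 (-2) V.nil) (Q.cons 1259 (V.cons 43 2 V.nil) (Q.cons 1260 (V.cons 10 (-4) V.nil) (Q.cons 1266 (V.cons 10 2 V.nil) (Q.cons 1326 (V.cons 10 2 V.nil) (Q.cons 1338 (V.cons 10 2 V.nil) (Q.cons 1452 (V.cons 10 (-2) V.nil) (Q.cons 4782 (V.cons 10 2 V.nil) (Q.cons 5034 (V.cons 10 2 V.nil) Q.nil)))))))))))))))))))))))))),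
  (Q.cons 3 (V.cons 1341 4 (V.cons 1395 4 (V.cons 5355 (-4) (V.cons 5547 (-4) V.nil)))) (Q.cons 4 (V.cons 342 (-2) (V.cons 348 4 (V.cons 372 4 (V.cons 1206 (-2) (V.cons 1242 4 (V.cons 1260 (-2) (V.cons 1266 2 (V.cons 1326 2 (V.cons 1338 (-2) (V.cons 1386 (-4) (V.cons 1452 (-2) (V.cons 1482 (-2) V.nil)))))))))))) (Q.cons 9 (V.cons 339 (-4) V.nil) (Q.cons 10 (V.cons 342 2 (V.cons 348 4 (V.cons 372 4 (V.cons 1206 (-2) (V.cons 1260 (-2) (V.cons 1266 2 (V.cons 1326 2 (V.cons 1338 (-2) (V.cons 1386 (-4) (V.cons 1452 (-2) (V.cons 1482 (-2) V.nil))))))))))) (Q.cons 13 (V.cons 311 2 V.nil) (Q.cons 19 (V.cons 311 (-2) V.nil) (Q.cons 22 (V.cons 84 (-2) V.nil) (Q.cons 28 (V.cons 84 2 V.nil) (Q.cons 46 (V.cons 84 2 V.nil) (Q.cons 106 (V.cons 84 (-2) V.nil) Q.nil)))))))))),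
  (Q.cons 43 (V.cons 311 2 (V.cons 317 (-2) (V.cons 1199 (-2) (V.cons 1259 2 V.nil)))) (Q.cons 44 (V.cons 86 4 (V.cons 92 4 (V.cons 98 2 (V.cons 302 (-6) (V.cons 314 2 (V.cons 362 (-4) V.nil)))))) (Q.cons 46 (V.cons 84 2 (V.cons 300 (-2) V.nil)) (Q.cons 55 (V.cons 77 (-2) (V.cons 299 (-2) V.nil)) (Q.cons 61 (V.cons 77 (-2) (V.cons 299 (-2) V.nil)) (Q.cons 79 (V.cons 77 (-2) (V.cons 299 (-2) V.nil)) (Q.cons 83 (V.cons 79 (-2) V.nil) (Q.cons 91 (V.cons 77 (-2) (V.cons 299 (-2) V.nil)) (Q.cons 109 (V.cons 77 2 (V.cons 299 2 V.nil)) (Q.cons 115 (V.cons 77 (-2) (V.cons 299 (-2) V.nil)) (Q.cons 116 (V.cons 74 2 V.nil) (Q.cons 170 (V.cons 86 4 (V.cons 92 4 (V.cons 98 2 (V.cons 302 (-2) (V.cons 314 (-2) (V.cons 362 (-4) V.nil)))))) (Q.cons 173 (V.cons 79 2 V.nil) (Q.cons 175 (V.cons 77 6 (V.cons 299 2 V.nil))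 (Q.cons 182 (V.cons 74 (-4) V.nil) (Q.cons 187 (V.cons 299 4 V.nil) (Q.cons 218 (V.cons 74 (-2) V.nil) (Q.cons 235 (V.cons 77 2 (V.cons 299 2 V.nil)) (Q.cons 236 (V.cons 74 (-4) V.nil) (Q.cons 242 (V.cons 74 2 V.nil) (Q.cons 302 (V.cons 74 2 V.nil) (Q.cons 314 (V.cons 74 2 V.nil) (Q.cons 428 (V.cons 74 (-2) V.nil) (Q.cons 686 (V.cons 74 2 V.nil) (Q.cons 938 (V.cons 74 2 V.nil) Q.nil))))))))))))))))))))))))),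
  (Q.cons 74 (V.cons 182 (-4) (V.cons 218 (-2) (V.cons 236 (-4) (V.cons 242 2 (V.cons 302 2 (V.cons 314 2 (V.cons 686 2 (V.cons 938 2 V.nil)))))))) (Q.cons 77 (V.cons 55 2 (V.cons 61 2 (V.cons 79 2 (V.cons 91 2 (V.cons 175 (-6) (V.cons 235 (-2) V.nil)))))) (Q.cons 79 (V.cons 83 2 (V.cons 173 (-2) V.nil)) (Q.cons 84 (V.cons 46 2 V.nil) (Q.cons 86 (V.cons 44 4 (V.cons 170 4 V.nil)) (Q.cons 92 (V.cons 44 4 (V.cons 170 4 V.nil)) (Q.cons 98 (V.cons 44 2 (V.cons 170 2 V.nil)) (Q.cons 299 (V.cons 55 2 (V.cons 61 2 (V.cons 79 2 (V.cons 91 2 (V.cons 175 (-2) (V.cons 187 (-4) (V.cons 235 (-2) V.nil))))))) (Q.cons 300 (V.cons 46 (-2) V.nil) (Q.cons 302 (V.cons 44 (-6) (V.cons 170 (-2) V.nil)) (Q.cons 311 (V.cons 43 (-2) V.nil) (Q.cons 314 (V.cons 44 2 (V.cons 170 (-2) V.nil)) (Q.cons 317 (V.cons 43 2 V.nil) (Q.cons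 362 (V.cons 44 (-4) (V.cons 170 (-4) V.nil)) (Q.cons 1199 (V.cons 43 2 V.nil) (Q.cons 1259 (V.cons 43 (-2) V.nil) Q.nil))))))))))))))))]

def lits8_6_3 : List Q := [
  (Q.cons 299 (V.cons 25 1 (V.cons 55 (-1) (V.cons 61 1 (V.cons 79 1 (V.cons 91 1 (V.cons 187 (-1) (V.cons 235 (-1) V.nil))))))) (Q.cons 342 (V.cons 4 2 (V.cons 10 14 V.nil)) (Q.cons 372 (V.cons 4 2 (V.cons 10 (-10) V.nil)) (Q.cons 1194 (V.cons 22 (-2) (V.cons 46 2 V.nil)) (Q.cons 1197 (V.cons 15 (-2) V.nil) (Q.cons 1199 (V.cons 13 (-2) (V.cons 19 2 V.nil)) (Q.cons 1206 (V.cons 10 (-4) V.nil) (Q.cons 1242 (V.cons 10 4 V.nil) (Q.cons 1260 (V.cons 4 (-6) (V.cons 10 2 V.nil)) (Q.cons 1266 (V.cons 4 4 V.nil) (Q.cons 1269 (V.cons 3 2 V.nil) (Q.cons 1326 (V.cons 4 2 (V.cons 10 (-6) V.nil)) (Q.cons 1338 (V.cons 4 2 (V.cons 10 (-6) V.nil)) (Q.cons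 1341 (V.cons 3 88 V.nil) (Q.cons 1359 (V.cons 3 (-18) V.nil) (Q.cons 1395 (V.cons 3 72 V.nil) (Q.cons 1452 (V.cons 4 (-2) (V.cons 10 6 V.nil)) (Q.cons 1482 (V.cons 10 4 V.nil) (Q.cons 1491 (V.cons 3 2 V.nil) (Q.cons 4779 (V.cons 15 2 V.nil) (Q.cons 4782 (V.cons 4 (-6) (V.cons 10 (-2) V.nil)) (Q.cons 5034 (V.cons 4 2 (V.cons 10 (-2) V.nil)) (Q.cons 5295 (V.cons 3 16 V.nil) (Q.cons 5355 (V.cons 3 (-88) V.nil) (Q.cons 5547 (V.cons 3 (-72) V.nil) (Q.cons 5805 (V.cons 3 (-2) V.nil) (Q.cons 19119 (V.cons 3 2 V.nil) (Q.cons 20139 (V.cons 3 (-2) V.nil) Q.nil)))))))))))))))))))))))))))),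
  (Q.cons 10 (V.cons 342 (-10) (V.cons 348 16 (V.cons 372 28 (V.cons 1206 (-10) (V.cons 1242 2 (V.cons 1260 (-16) (V.cons 1266 10 (V.cons 1326 14 (V.cons 1338 (-2) (V.cons 1386 (-16) (V.cons 1452 (-14) (V.cons 1482 (-14) (V.cons 4782 6 (V.cons 5034 6 V.nil)))))))))))))) (Q.cons 13 (V.cons 335 (-4) (V.cons 347 (-4) (V.cons 365 4 (V.cons 371 (-4) (V.cons 1211 4 (V.cons 1259 4 V.nil)))))) (Q.cons 15 (V.cons 339 (-4) (V.cons 1197 4 V.nil)) (Q.cons 20 (V.cons 86 8 (V.cons 92 8 (V.cons 98 4 (V.cons 302 (-8) (V.cons 362 (-8) V.nil))))) (Q.cons 22 (V.cons 84 (-8) (V.cons 300 8 V.nil)) (Q.cons 28 (V.cons 84 (-8) (V.cons 300 8 V.nil)) (Q.cons 34 (V.cons 84 (-4) (V.cons 300 4 V.nil)) (Q.cons 43 (V.cons 311 (-4) (V.cons 317 4 (V.cons 335 2 (V.cons 347 2 (V.cons 365 (-2) (V.cons 371 2 (V.cons 1199 6 (V.cons 1211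 (-2) (V.cons 1259 (-8) V.nil))))))))) (Q.cons 44 (V.cons 86 (-8) (V.cons 92 (-8) (V.cons 98 (-4) (V.cons 302 8 (V.cons 362 8 V.nil))))) (Q.cons 46 (V.cons 84 8 (V.cons 300 (-8) V.nil)) (Q.cons 55 (V.cons 299 (-4) V.nil) (Q.cons 61 (V.cons 299 4 V.nil) (Q.cons 79 (V.cons 77 (-4) (V.cons 299 2 V.nil)) (Q.cons 83 (V.cons 79 (-4) V.nil) (Q.cons 86 (V.cons 74 (-6) V.nil) (Q.cons 91 (V.cons 77 (-4) (V.cons 299 2 V.nil)) (Q.cons 98 (V.cons 74 (-8) V.nil) (Q.cons 106 (V.cons 84 8 (V.cons 300 (-8) V.nil)) (Q.cons 109 (V.cons 77 4 (V.cons 299 (-2) V.nil)) (Q.cons 115 (V.cons 77 (-4) (V.cons 299 2 V.nil)) (Q.cons 116 (V.cons 74 20 V.nil) (Q.cons 173 (V.cons 79 4 V.nil) (Q.cons 175 (V.cons 299 6 V.nil) (Q.cons 182 (V.cons 74 18 V.nil) (Q.cons 187 (V.cons 77 4 (V.cons 299 (-2) V.nil)) (Q.cons 218 (V.cons 74 22 V.nil)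 (Q.cons 235 (V.cons 77 4 (V.cons 299 (-8) V.nil)) (Q.cons 236 (V.cons 74 8 V.nil) (Q.cons 242 (V.cons 74 (-2) V.nil) (Q.cons 302 (V.cons 74 (-6) V.nil) (Q.cons 314 (V.cons 74 (-22) V.nil) (Q.cons 428 (V.cons 74 6 V.nil) (Q.cons 458 (V.cons 74 (-26) V.nil) (Q.cons 686 (V.cons 74 (-6) V.nil) (Q.cons 938 (V.cons 74 (-6) V.nil) Q.nil))))))))))))))))))))))))))))))))))),
  (Q.cons 170 (V.cons 86 (-2) (V.cons 92 (-4) (V.cons 98 (-2) (V.cons 182 1 (V.cons 218 1 (V.cons 236 (-1) (V.cons 242 1 (V.cons 302 1 (V.cons 314 (-1) (V.cons 362 4 V.nil)))))))))) (Q.cons 221 (V.cons 13 (-16) (V.cons 19 16 V.nil)) (Q.cons 245 (V.cons 13 12 (V.cons 19 (-12) V.nil)) (Q.cons 311 (V.cons 13 16 (V.cons 19 (-16) V.nil)) (Q.cons 317 (V.cons 13 24 (V.cons 19 (-24) V.nil)) (Q.cons 335 (V.cons 13 (-24) (V.cons 19 24 V.nil)) (Q.cons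 342 (V.cons 4 12 (V.cons 10 100 V.nil)) (Q.cons 347 (V.cons 13 8 (V.cons 19 (-8) V.nil)) (Q.cons 348 (V.cons 4 (-12) (V.cons 10 (-174) V.nil)) (Q.cons 365 (V.cons 13 24 (V.cons 19 (-24) V.nil)) (Q.cons 371 (V.cons 13 (-20) (V.cons 19 20 V.nil)) (Q.cons 372 (V.cons 4 (-20) (V.cons 10 (-382) V.nil)) (Q.cons 461 (V.cons 13 20 (V.cons 19 (-20) V.nil)) (Q.cons 467 (V.cons 13 (-16) (V.cons 19 16 V.nil)) (Q.cons 468 (V.cons 4 4 (V.cons 10 (-2) V.nil)) (Q.cons 683 (V.cons 25 (-4) (V.cons 55 3 (V.cons 61 3 (V.cons 79 3 (V.cons 91 3 (V.cons 175 (-6) (V.cons 187 (-3) (V.cons 235 (-3) V.nil)))))))) (Q.cons 684 (V.cons 22 (-4) V.nil) (Q.cons 686 (V.cons 44 4 (V.cons 74 (-4) V.nil)) (Q.cons 875 (V.cons 13 4 (V.cons 19 (-4) V.nil)) (Q.cons 941 (V.cons 13 (-8) (V.cons 19 8 V.nil)) (Q.cons 971 (V.cons 13 (-4) (V.cons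 19 4 V.nil)) (Q.cons 978 (V.cons 4 (-4) V.nil) (Q.cons 981 (V.cons 3 4 V.nil) (Q.cons 1206 (V.cons 4 (-4) (V.cons 10 (-68) V.nil)) (Q.cons 1211 (V.cons 13 (-8) (V.cons 19 8 V.nil)) (Q.cons 1242 (V.cons 10 (-164) V.nil) (Q.cons 1259 (V.cons 13 (-12) (V.cons 19 12 V.nil)) (Q.cons 1260 (V.cons 10 76 V.nil) (Q.cons 1266 (V.cons 4 (-4) (V.cons 10 (-62) V.nil)) (Q.cons 1269 (V.cons 3 8 V.nil) (Q.cons 1326 (V.cons 4 (-12) (V.cons 10 (-34) V.nil)) (Q.cons 1338 (V.cons 10 164 V.nil) (Q.cons 1341 (V.cons 3 538 V.nil) (Q.cons 1359 (V.cons 3 (-124) V.nil) (Q.cons 1386 (V.cons 4 16 (V.cons 10 170 V.nil)) (Q.cons 1395 (V.cons 3 442 V.nil) (Q.cons 1451 (V.cons 13 (-4) (V.cons 19 4 V.nil)) (Q.cons 1452 (V.cons 10 76 V.nil) (Q.cons 1482 (V.cons 4 16 (V.cons 10 300 V.nil)) (Q.cons 1491 (V.cons 3 8 V.nil) (Q.cons 1835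 (V.cons 13 (-4) (V.cons 19 4 V.nil)) (Q.cons 1875 (V.cons 3 (-24) V.nil) (Q.cons 2730 (V.cons 22 (-2) (V.cons 46 6 V.nil)) (Q.cons 2735 (V.cons 13 8 (V.cons 19 (-8) V.nil)) (Q.cons 3498 (V.cons 10 (-20) V.nil) (Q.cons 3756 (V.cons 4 4 (V.cons 10 (-6) V.nil)) (Q.cons 5034 (V.cons 4 4 (V.cons 10 6 V.nil)) (Q.cons 5295 (V.cons 3 118 V.nil) (Q.cons 5355 (V.cons 3 (-538) V.nil) (Q.cons 5547 (V.cons 3 (-442) V.nil) (Q.cons 5802 (V.cons 4 4 (V.cons 10 6 V.nil)) (Q.cons 7338 (V.cons 4 (-4) (V.cons 10 2 V.nil)) (Q.cons 10926 (V.cons 10 6 V.nil) (Q.cons 15018 (V.cons 10 6 V.nil) (Q.cons 15021 (V.cons 3 2 V.nil) (Q.cons 20139 (V.cons 3 (-8) V.nil) (Q.cons 23211 (V.cons 3 (-8) V.nil) (Q.cons 29355 (V.cons 3 24 V.nil) (Q.cons 43695 (V.cons 3 6 V.nil) (Q.cons 60075 (V.cons 3 (-6) V.nil) Q.nil)))))))))))))))))))))))))))))))))))))))))))))))))))))))))))),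
  (Q.cons 3 (V.cons 1341 6 (V.cons 1359 (-2) (V.cons 1395 2 (V.cons 5295 2 (V.cons 5355 (-6) (V.cons 5547 (-2) V.nil)))))) (Q.cons 10 (V.cons 342 (-14) (V.cons 348 (-16) (V.cons 372 (-4) (V.cons 1206 4 (V.cons 1242 (-8) (V.cons 1260 (-4) (V.cons 1266 (-2) (V.cons 1326 10 (V.cons 1338 8 (V.cons 1386 16 (V.cons 1452 (-4) (V.cons 1482 8 (V.cons 3498 6 V.nil))))))))))))) (Q.cons 13 (V.cons 335 (-4) (V.cons 875 4 V.nil)) (Q.cons 20 (V.cons 98 2 (V.cons 182 (-4) (V.cons 314 4 V.nil))) (Q.cons 22 (V.cons 84 4 (V.cons 330 (-4) V.nil)) (Q.cons 28 (V.cons 84 4 (V.cons 330 (-4) V.nil)) (Q.cons 34 (V.cons 84 2 (V.cons 330 (-2) V.nil)) (Q.cons 43 (V.cons 221 (-2) (V.cons 311 6 (V.cons 317 6 (V.cons 335 (-2) (V.cons 347 2 (V.cons 365 6 (V.cons 371 (-6) (V.cons 875 (-6) (V.cons 1211 (-2) (V.cons 1259 (-2) V.nil))))))))))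 (Q.cons 44 (V.cons 98 (-2) (V.cons 182 4 (V.cons 314 (-4) V.nil))) (Q.cons 46 (V.cons 84 (-8) (V.cons 330 8 V.nil)) (Q.cons 55 (V.cons 83 (-4) V.nil) (Q.cons 58 (V.cons 84 4 (V.cons 330 (-4) V.nil)) (Q.cons 61 (V.cons 83 4 V.nil) (Q.cons 79 (V.cons 83 2 V.nil) (Q.cons 86 (V.cons 20 2 V.nil) (Q.cons 91 (V.cons 83 2 V.nil) (Q.cons 98 (V.cons 20 (-4) V.nil) (Q.cons 106 (V.cons 84 (-4) (V.cons 330 4 V.nil)) (Q.cons 109 (V.cons 83 (-2) V.nil) (Q.cons 115 (V.cons 83 2 V.nil) (Q.cons 116 (V.cons 20 4 V.nil) (Q.cons 175 (V.cons 83 2 V.nil) (Q.cons 182 (V.cons 20 10 V.nil) (Q.cons 187 (V.cons 83 (-2) V.nil) (Q.cons 218 (V.cons 20 14 V.nil) (Q.cons 235 (V.cons 83 (-4) V.nil) (Q.cons 242 (V.cons 20 6 V.nil) (Q.cons 302 (V.cons 20 (-6) V.nil) (Q.cons 314 (V.cons 20 (-14) V.nil) (Q.cons 428 (V.cons 20 6 V.nil) (Q.cons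 458 (V.cons 20 (-10) V.nil) (Q.cons 686 (V.cons 20 (-6) V.nil) (Q.cons 938 (V.cons 20 (-6) V.nil) Q.nil))))))))))))))))))))))))))))))))),
  (Q.cons 3 (V.cons 1269 2 (V.cons 1341 14 (V.cons 1359 (-2) (V.cons 1395 10 (V.cons 1491 2 (V.cons 5295 2 (V.cons 5355 (-14) (V.cons 5547 (-10) (V.cons 20139 (-2) (V.cons 23211 (-2) V.nil)))))))))) (Q.cons 4 (V.cons 342 15 (V.cons 348 (-27) (V.cons 372 (-34) (V.cons 978 (-2) (V.cons 1206 (-12) (V.cons 1242 (-18) (V.cons 1260 3 (V.cons 1266 (-7) (V.cons 1326 (-5) (V.cons 1338 18 (V.cons 1386 27 (V.cons 1452 3 (V.cons 1482 31 (V.cons 3498 4 (V.cons 3756 2 (V.cons 10926 2 V.nil)))))))))))))))) (Q.cons 10 (V.cons 342 (-14) (V.cons 348 30 (V.cons 372 48 (V.cons 1206 11 (V.cons 1242 25 (V.cons 1260 (-7) (V.cons 1266 9 (V.cons 1326 3 (V.cons 1338 (-25) (V.cons 1386 (-30)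 (V.cons 1452 (-7) (V.cons 1482 (-41) (V.cons 3498 (-2) V.nil))))))))))))) (Q.cons 13 (V.cons 221 4 (V.cons 245 (-3) (V.cons 311 (-4) (V.cons 317 (-6) (V.cons 335 6 (V.cons 347 (-2) (V.cons 365 (-6) (V.cons 371 5 (V.cons 875 (-1) (V.cons 941 2 (V.cons 971 1 (V.cons 1211 2 (V.cons 1259 3 (V.cons 1451 1 (V.cons 2735 (-2) V.nil))))))))))))))) (Q.cons 19 (V.cons 221 (-4) (V.cons 245 3 (V.cons 311 4 (V.cons 317 6 (V.cons 335 (-6) (V.cons 347 2 (V.cons 365 6 (V.cons 371 (-5) (V.cons 875 1 (V.cons 941 (-2) (V.cons 971 (-1) (V.cons 1211 (-2) (V.cons 1259 (-3) (V.cons 1451 (-1) (V.cons 2735 2 V.nil))))))))))))))) (Q.cons 22 (V.cons 330 2 (V.cons 684 (-2) V.nil)) (Q.cons 25 (V.cons 173 (-2) (V.cons 683 1 V.nil)) (Q.cons 28 (V.cons 330 2 (V.cons 684 (-2) V.nil)) (Q.cons 34 (V.cons 330 1 (V.cons 684 (-1) V.nil))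 (Q.cons 46 (V.cons 330 (-2) (V.cons 684 2 V.nil)) (Q.cons 55 (V.cons 173 1 V.nil) (Q.cons 61 (V.cons 173 1 V.nil) (Q.cons 79 (V.cons 173 1 V.nil) (Q.cons 91 (V.cons 173 1 V.nil) (Q.cons 92 (V.cons 170 (-2) V.nil) (Q.cons 106 (V.cons 330 (-2) (V.cons 684 2 V.nil)) (Q.cons 109 (V.cons 173 (-1) V.nil) (Q.cons 115 (V.cons 173 1 V.nil) (Q.cons 116 (V.cons 170 (-4) V.nil) (Q.cons 175 (V.cons 173 (-2) V.nil) (Q.cons 182 (V.cons 170 (-2) V.nil) (Q.cons 187 (V.cons 173 (-1) V.nil) (Q.cons 218 (V.cons 170 (-2) V.nil) (Q.cons 235 (V.cons 173 (-1) V.nil) (Q.cons 302 (V.cons 170 2 V.nil) (Q.cons 314 (V.cons 170 2 V.nil) (Q.cons 362 (V.cons 170 2 V.nil) (Q.cons 458 (V.cons 170 4 V.nil) Q.nil)))))))))))))))))))))))))))),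
  (Q.cons 4 (V.cons 342 3 (V.cons 372 (-3) (V.cons 1206 (-1) (V.cons 1242 3 (V.cons 1260 2 (V.cons 1266 (-1) (V.cons 1326 (-2) (V.cons 1338 (-2) (V.cons 1452 2 (V.cons 1482 1 (V.cons 5034 (-1) V.nil))))))))))) (Q.cons 10 (V.cons 342 1 (V.cons 1206 (-1) (V.cons 1242 (-1) V.nil))) (Q.cons 13 (V.cons 1211 1 V.nil) (Q.cons 19 (V.cons 311 (-2) (V.cons 1199 1 (V.cons 1211 (-1) V.nil))) (Q.cons 20 (V.cons 302 1 V.nil) (Q.cons 22 (V.cons 84 2 (V.cons 1194 (-1) V.nil)) (Q.cons 43 (V.cons 311 1 V.nil) (Q.cons 46 (V.cons 84 (-1) V.nil) (Q.cons 55 (V.cons 299 1 V.nil) (Q.cons 58 (V.cons 84 1 (V.cons 300 (-1) V.nil)) (Q.cons 74 (V.cons 302 (-1) V.nil) (Q.cons 79 (V.cons 299 (-1) V.nil) (Q.cons 91 (V.cons 77 (-2) (V.cons 299 1 V.nil)) (Q.cons 187 (V.cons 77 1 V.nil) (Q.cons 218 (V.cons 74 1 V.nil) (Q.cons 314 (V.cons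 74 (-1) V.nil) Q.nil)))))))))))))))),
  (Q.cons 4 (V.cons 372 2 (V.cons 5802 (-1) V.nil)) (Q.cons 10 (V.cons 1452 (-1) V.nil) (Q.cons 13 (V.cons 1451 1 V.nil) (Q.cons 19 (V.cons 365 (-2) V.nil) (Q.cons 20 (V.cons 362 1 V.nil) (Q.cons 43 (V.cons 365 1 V.nil) (Q.cons 74 (V.cons 362 (-1) V.nil) Q.nil))))))),
  (Q.cons 10 (V.cons 342 1 (V.cons 1326 (-1) V.nil)) (Q.cons 13 (V.cons 335 2 (V.cons 1199 (-1) V.nil)) (Q.cons 20 (V.cons 86 2 V.nil) (Q.cons 43 (V.cons 311 (-1) V.nil) (Q.cons 44 (V.cons 302 (-1) V.nil) (Q.cons 46 (V.cons 84 1 (V.cons 330 (-1) V.nil)) (Q.cons 55 (V.cons 83 2 (V.cons 299 (-1) V.nil)) (Q.cons 86 (V.cons 20 2 V.nil) (Q.cons 170 (V.cons 86 (-1) V.nil) (Q.cons 175 (V.cons 77 (-1) V.nil) (Q.cons 182 (V.cons 74 (-1) V.nil) (Q.cons 686 (V.cons 20 (-1) V.nil) Q.nil)))))))))))),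
  (Q.cons 58 (V.cons 84 1 (V.cons 330 (-1) V.nil)) (Q.cons 61 (V.cons 83 2 (V.cons 299 (-1) V.nil)) (Q.cons 235 (V.cons 77 (-1) V.nil) (Q.cons 236 (V.cons 74 (-1) V.nil) (Q.cons 242 (V.cons 20 2 V.nil) (Q.cons 245 (V.cons 19 1 V.nil) (Q.cons 938 (V.cons 20 (-1) V.nil) (Q.cons 971 (V.cons 19 (-1) V.nil) Q.nil)))))))),
  (Q.cons 19 (V.cons 221 (-2) (V.cons 311 2 (V.cons 317 2 (V.cons 335 (-2) (V.cons 347 1 (V.cons 365 2 (V.cons 371 (-1) (V.cons 875 2 (V.cons 1211 (-1) (V.cons 1259 (-2) (V.cons 1451 (-1) V.nil))))))))))) (Q.cons 20 (V.cons 86 3 (V.cons 182 (-1) (V.cons 218 3 (V.cons 236 2 (V.cons 242 (-1) (V.cons 302 (-2) (V.cons 314 (-2) (V.cons 938 (-1) V.nil)))))))) (Q.cons 74 (V.cons 86 1 (V.cons 182 (-1) (V.cons 218 (-1) V.nil))) (Q.cons 77 (V.cons 187 1 V.nil) (Q.cons 83 (V.cons 55 (-2) (V.cons 175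 1 (V.cons 187 (-1) V.nil))) (Q.cons 84 (V.cons 46 1 V.nil) (Q.cons 86 (V.cons 20 2 (V.cons 170 (-1) V.nil)) (Q.cons 299 (V.cons 55 1 V.nil) (Q.cons 302 (V.cons 20 (-1) V.nil) (Q.cons 311 (V.cons 43 1 V.nil) (Q.cons 314 (V.cons 20 1 (V.cons 44 (-1) V.nil)) (Q.cons 330 (V.cons 46 (-1) V.nil) (Q.cons 335 (V.cons 43 (-1) V.nil) (Q.cons 347 (V.cons 13 (-2) (V.cons 43 1 V.nil)) (Q.cons 1211 (V.cons 13 1 V.nil) (Q.cons 1242 (V.cons 10 1 V.nil) (Q.cons 1338 (V.cons 10 (-1) V.nil) Q.nil)))))))))))))))))]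

def lits8_6_4 : List Q := [
  (Q.cons 92 (V.cons 20 2 (V.cons 170 (-1) V.nil)) (Q.cons 362 (V.cons 44 (-1) V.nil) (Q.cons 365 (V.cons 43 1 V.nil) (Q.cons 371 (V.cons 13 (-2) V.nil) (Q.cons 372 (V.cons 10 1 V.nil) (Q.cons 1451 (V.cons 13 1 V.nil) (Q.cons 1482 (V.cons 10 (-1) V.nil) Q.nil))))))),
  (Q.cons 74 (V.cons 86 1 (V.cons 302 (-1) V.nil)) (Q.cons 77 (V.cons 79 2 (V.cons 175 (-1) V.nil)) (Q.cons 84 (V.cons 22 2 V.nil) (Q.cons 299 (V.cons 55 (-1) V.nil) (Q.cons 300 (V.cons 46 (-1) V.nil) (Q.cons 302 (V.cons 20 1 (V.cons 74 (-1) V.nil)) (Q.cons 311 (V.cons 19 2 (V.cons 43 (-1) V.nil)) (Q.cons 342 (V.cons 4 2 V.nil) (Q.cons 1194 (V.cons 22 (-1) V.nil) (Q.cons 1199 (V.cons 13 (-1) V.nil) (Q.cons 1206 (V.cons 10 (-1) V.nil) (Q.cons 4782 (V.cons 4 (-1) V.nil) Q.nil)))))))))))),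
  (Q.cons 348 (V.cons 4 (-4) V.nil) (Q.cons 372 (V.cons 4 (-2) V.nil) (Q.cons 468 (V.cons 4 2 V.nil) (Q.cons 1242 (V.cons 4 (-2) V.nil) (Q.cons 1338 (V.cons 4 2 V.nil) (Q.cons 1386 (V.cons 4 4 V.nil) (Q.cons 1482 (V.cons 4 2 V.nil) (Q.cons 1706 (V.cons 20 1 (V.cons 74 (-1) V.nil)) (Q.cons 1709 (V.cons 19 2 (V.cons 43 (-1) V.nil)) (Q.cons 6827 (V.cons 13 (-1) V.nil) (Q.cons 6828 (V.cons 10 (-1) V.nil) (Q.cons 27306 (V.cons 4 (-1) V.nil) Q.nil)))))))))))),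
  (Q.cons 3 (V.cons 1341 36 (V.cons 1359 (-10) (V.cons 1395 28 (V.cons 5295 10 (V.cons 5355 (-36) (V.cons 5547 (-28) V.nil)))))) (Q.cons 10 (V.cons 348 2 (V.cons 372 4 (V.cons 1206 2 (V.cons 1242 2 (V.cons 1326 (-2) (V.cons 1338 (-2) (V.cons 1386 (-2) (V.cons 1482 (-4) V.nil)))))))) (Q.cons 13 (V.cons 311 (-1) (V.cons 317 (-1) (V.cons 335 (-1) (V.cons 347 (-1) (V.cons 365 1 (V.cons 371 (-1) (V.cons 1199 2 (V.cons 1211 1 (V.cons 1259 1 V.nil))))))))) (Q.cons 19 (V.cons 311 1 (V.cons 317 1 (V.cons 335 1 (V.cons 347 1 (V.cons 365 (-1) (V.cons 371 1 (V.cons 1199 (-2) (V.cons 1211 (-1) (V.cons 1259 (-1) V.nil))))))))) (Q.cons 22 (V.cons 300 2 (V.cons 330 (-2) V.nil)) (Q.cons 28 (V.cons 300 2 (V.cons 330 (-2) V.nil)) (Q.cons 34 (V.cons 300 1 (V.cons 330 (-1) V.nil)) (Q.cons 44 (V.cons 86 2 (V.cons 92 2 (V.cons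 98 1 (V.cons 302 (-2) (V.cons 362 (-2) V.nil))))) (Q.cons 46 (V.cons 300 (-2) (V.cons 330 2 V.nil)) (Q.cons 55 (V.cons 77 1 (V.cons 83 (-1) V.nil)) (Q.cons 61 (V.cons 77 1 (V.cons 83 (-1) V.nil)) (Q.cons 74 (V.cons 86 (-2) (V.cons 92 (-2) (V.cons 98 (-1) (V.cons 302 2 (V.cons 362 2 V.nil))))) (Q.cons 79 (V.cons 77 1 (V.cons 83 (-1) V.nil)) (Q.cons 91 (V.cons 77 1 (V.cons 83 (-1) V.nil)) (Q.cons 92 (V.cons 74 2 V.nil) (Q.cons 106 (V.cons 300 (-2) (V.cons 330 2 V.nil)) (Q.cons 109 (V.cons 77 (-1) (V.cons 83 1 V.nil)) (Q.cons 115 (V.cons 77 1 (V.cons 83 (-1) V.nil)) (Q.cons 116 (V.cons 74 4 V.nil) (Q.cons 175 (V.cons 77 (-2) (V.cons 83 2 V.nil)) (Q.cons 182 (V.cons 74 2 V.nil) (Q.cons 187 (V.cons 77 (-1) (V.cons 83 1 V.nil)) (Q.cons 218 (V.cons 74 2 V.nil) (Q.cons 221 (V.cons 19 2 V.nil) (Q.cons 235 (V.cons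 77 (-1) (V.cons 83 1 V.nil)) (Q.cons 245 (V.cons 19 2 V.nil) (Q.cons 302 (V.cons 74 (-2) V.nil) (Q.cons 314 (V.cons 74 (-2) V.nil) (Q.cons 317 (V.cons 19 2 V.nil) (Q.cons 335 (V.cons 19 2 V.nil) (Q.cons 347 (V.cons 19 2 V.nil) (Q.cons 362 (V.cons 74 (-2) V.nil) (Q.cons 458 (V.cons 74 (-4) V.nil) (Q.cons 461 (V.cons 19 2 V.nil) (Q.cons 467 (V.cons 19 (-4) V.nil) (Q.cons 875 (V.cons 19 (-2) V.nil) (Q.cons 971 (V.cons 19 (-2) V.nil) (Q.cons 1199 (V.cons 19 (-2) V.nil) (Q.cons 1211 (V.cons 19 (-2) V.nil) (Q.cons 1259 (V.cons 19 (-2) V.nil) (Q.cons 1835 (V.cons 19 2 V.nil) Q.nil))))))))))))))))))))))))))))))))))))))))),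
  (Q.cons 10 (V.cons 342 (-14) (V.cons 348 34 (V.cons 372 54 (V.cons 1206 12 (V.cons 1242 28 (V.cons 1260 (-8) (V.cons 1266 10 (V.cons 1326 2 (V.cons 1338 (-28) (V.cons 1386 (-34) (V.cons 1452 (-8) (V.cons 1482 (-46) (V.cons 3498 (-2) V.nil))))))))))))) (Q.cons 20 (V.cons 86 (-4) (V.cons 182 1 (V.cons 218 (-1) (V.cons 236 1 (V.cons 242 (-1) (V.cons 302 1 (V.cons 314 1 (V.cons 686 2 V.nil)))))))) (Q.cons 43 (V.cons 245 2 (V.cons 311 2 (V.cons 317 4 (V.cons 335 (-2) (V.cons 347 2 (V.cons 365 4 (V.cons 371 (-4) (V.cons 875 (-2) (V.cons 971 (-2) (V.cons 1211 (-2) (V.cons 1259 (-2) V.nil))))))))))) (Q.cons 44 (V.cons 86 4 (V.cons 182 (-1) (V.cons 218 1 (V.cons 236 (-1) (V.cons 242 1 (V.cons 302 (-1) (V.cons 314 (-1) (V.cons 686 (-2) V.nil)))))))) (Q.cons 55 (V.cons 83 (-1) (V.cons 173 1 V.nil)) (Q.cons 61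 (V.cons 83 (-1) (V.cons 173 1 V.nil)) (Q.cons 79 (V.cons 83 (-1) (V.cons 173 1 V.nil)) (Q.cons 83 (V.cons 55 (-1) (V.cons 61 (-1) (V.cons 79 (-1) (V.cons 91 (-1) (V.cons 175 2 (V.cons 187 1 (V.cons 235 1 V.nil))))))) (Q.cons 86 (V.cons 20 4 (V.cons 44 (-4) V.nil)) (Q.cons 91 (V.cons 83 (-1) (V.cons 173 1 V.nil)) (Q.cons 109 (V.cons 83 1 (V.cons 173 (-1) V.nil)) (Q.cons 115 (V.cons 83 (-1) (V.cons 173 1 V.nil)) (Q.cons 116 (V.cons 20 (-2) (V.cons 44 2 V.nil)) (Q.cons 173 (V.cons 55 1 (V.cons 61 1 (V.cons 79 1 (V.cons 91 1 (V.cons 175 (-2) (V.cons 187 (-1) (V.cons 235 (-1) V.nil))))))) (Q.cons 175 (V.cons 83 2 (V.cons 173 (-2) V.nil)) (Q.cons 182 (V.cons 20 (-1) (V.cons 44 1 V.nil)) (Q.cons 187 (V.cons 83 1 (V.cons 173 (-1) V.nil)) (Q.cons 218 (V.cons 20 1 (V.cons 44 (-1) V.nil)) (Q.cons 235 (V.cons 83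 1 (V.cons 173 (-1) V.nil)) (Q.cons 236 (V.cons 20 (-1) (V.cons 44 1 V.nil)) (Q.cons 242 (V.cons 20 1 (V.cons 44 (-1) V.nil)) (Q.cons 245 (V.cons 43 2 V.nil) (Q.cons 302 (V.cons 20 (-1) (V.cons 44 1 V.nil)) (Q.cons 311 (V.cons 43 2 V.nil) (Q.cons 314 (V.cons 20 (-1) (V.cons 44 1 V.nil)) (Q.cons 317 (V.cons 43 4 V.nil) (Q.cons 335 (V.cons 43 (-2) V.nil) (Q.cons 342 (V.cons 10 14 V.nil) (Q.cons 347 (V.cons 43 2 V.nil) (Q.cons 348 (V.cons 10 (-34) V.nil) (Q.cons 365 (V.cons 43 4 V.nil) (Q.cons 371 (V.cons 43 (-4) V.nil) (Q.cons 372 (V.cons 10 (-54) V.nil) (Q.cons 428 (V.cons 20 1 (V.cons 44 (-1) V.nil)) (Q.cons 458 (V.cons 20 1 (V.cons 44 (-1) V.nil)) (Q.cons 461 (V.cons 43 4 V.nil) (Q.cons 467 (V.cons 43 (-6) V.nil) (Q.cons 686 (V.cons 20 (-2) (V.cons 44 2 V.nil)) (Q.cons 875 (V.cons 43 (-2) V.nil) (Q.cons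 971 (V.cons 43 (-2) V.nil) (Q.cons 1206 (V.cons 10 (-12) V.nil) (Q.cons 1211 (V.cons 43 (-2) V.nil) (Q.cons 1242 (V.cons 10 (-28) V.nil) (Q.cons 1259 (V.cons 43 (-2) V.nil) (Q.cons 1260 (V.cons 10 8 V.nil) (Q.cons 1266 (V.cons 10 (-10) V.nil) (Q.cons 1326 (V.cons 10 (-2) V.nil) (Q.cons 1338 (V.cons 10 28 V.nil) (Q.cons 1386 (V.cons 10 34 V.nil) (Q.cons 1452 (V.cons 10 8 V.nil) (Q.cons 1482 (V.cons 10 46 V.nil) (Q.cons 1835 (V.cons 43 2 V.nil) (Q.cons 3498 (V.cons 10 2 V.nil) Q.nil))))))))))))))))))))))))))))))))))))))))))))))))))))),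
  (Q.cons 43 (V.cons 335 1 (V.cons 1199 (-1) V.nil)) (Q.cons 83 (V.cons 175 1 V.nil) (Q.cons 170 (V.cons 86 (-1) (V.cons 182 1 V.nil)) (Q.cons 173 (V.cons 175 (-1) V.nil) (Q.cons 175 (V.cons 83 1 (V.cons 299 (-1) V.nil)) (Q.cons 221 (V.cons 43 3 V.nil) (Q.cons 245 (V.cons 43 1 V.nil) (Q.cons 311 (V.cons 43 (-3) V.nil) (Q.cons 317 (V.cons 43 (-4) V.nil) (Q.cons 330 (V.cons 46 (-1) V.nil) (Q.cons 335 (V.cons 43 3 V.nil) (Q.cons 347 (V.cons 43 (-2) V.nil) (Q.cons 348 (V.cons 10 9 V.nil) (Q.cons 365 (V.cons 43 (-4) V.nil) (Q.cons 371 (V.cons 43 3 V.nil) (Q.cons 372 (V.cons 10 8 V.nil) (Q.cons 461 (V.cons 43 (-3) V.nil) (Q.cons 467 (V.cons 43 2 V.nil) (Q.cons 468 (V.cons 10 (-2) V.nil) (Q.cons 683 (V.cons 55 1 (V.cons 79 (-1) V.nil)) (Q.cons 684 (V.cons 46 1 V.nil) (Q.cons 686 (V.cons 20 (-1) (V.cons 44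 1 V.nil)) (Q.cons 875 (V.cons 43 (-2) V.nil) (Q.cons 971 (V.cons 43 (-1) V.nil) (Q.cons 1206 (V.cons 10 1 V.nil) (Q.cons 1211 (V.cons 43 2 V.nil) (Q.cons 1242 (V.cons 10 6 V.nil) (Q.cons 1259 (V.cons 43 3 V.nil) (Q.cons 1260 (V.cons 10 (-1) V.nil) (Q.cons 1266 (V.cons 10 2 V.nil) (Q.cons 1326 (V.cons 10 (-1) V.nil) (Q.cons 1338 (V.cons 10 (-6) V.nil) (Q.cons 1386 (V.cons 10 (-9) V.nil) (Q.cons 1451 (V.cons 43 1 V.nil) (Q.cons 1452 (V.cons 10 (-1) V.nil) (Q.cons 1482 (V.cons 10 (-8) V.nil) (Q.cons 1835 (V.cons 43 1 V.nil) (Q.cons 2735 (V.cons 13 1 (V.cons 19 (-1) V.nil)) (Q.cons 3498 (V.cons 10 (-2) V.nil) (Q.cons 5034 (V.cons 10 1 V.nil) (Q.cons 5802 (V.cons 10 1 V.nil) (Q.cons 7338 (V.cons 10 2 V.nil) Q.nil)))))))))))))))))))))))))))))))))))))))))),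
  (Q.cons 348 (V.cons 10 2 V.nil) (Q.cons 372 (V.cons 10 1 V.nil) (Q.cons 427 (V.cons 83 1 (V.cons 299 (-1) V.nil)) (Q.cons 467 (V.cons 43 1 V.nil) (Q.cons 468 (V.cons 10 (-1) V.nil) (Q.cons 1242 (V.cons 10 1 V.nil) (Q.cons 1338 (V.cons 10 (-1) V.nil) (Q.cons 1386 (V.cons 10 (-2) V.nil) (Q.cons 1482 (V.cons 10 (-1) V.nil) (Q.cons 1706 (V.cons 20 (-1) (V.cons 44 1 V.nil)) (Q.cons 1709 (V.cons 43 (-1) V.nil) (Q.cons 6827 (V.cons 13 1 (V.cons 19 (-1) V.nil)) (Q.cons 6828 (V.cons 10 1 V.nil) Q.nil))))))))))))),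
  (Q.cons 342 (V.cons 4 (-80) (V.cons 10 54 V.nil)) (Q.cons 348 (V.cons 4 48 (V.cons 10 18 V.nil)) (Q.cons 372 (V.cons 4 208 (V.cons 10 (-84) V.nil)) (Q.cons 468 (V.cons 4 16 (V.cons 10 (-12) V.nil)) (Q.cons 978 (V.cons 4 4 (V.cons 10 (-8) V.nil)) (Q.cons 981 (V.cons 3 (-4) V.nil) (Q.cons 1206 (V.cons 4 44 (V.cons 10 (-24) V.nil)) (Q.cons 1242 (V.cons 4 60 (V.cons 10 4 V.nil)) (Q.cons 1260 (V.cons 4 (-44) (V.cons 10 22 V.nil)) (Q.cons 1266 (V.cons 4 28 (V.cons 10 (-6) V.nil)) (Q.cons 1269 (V.cons 3 (-16) V.nil) (Q.cons 1326 (V.cons 4 36 (V.cons 10 (-34) V.nil)) (Q.cons 1338 (V.cons 4 (-64) V.nil) (Q.cons 1341 (V.cons 3 (-432) V.nil) (Q.cons 1359 (V.cons 3 100 V.nil) (Q.cons 1386 (V.cons 4 (-48) (V.cons 10 (-18) V.nil)) (Q.cons 1395 (V.cons 3 (-356) V.nil) (Q.cons 1452 (V.cons 4 (-44) (V.cons 10 22 V.nil))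 (Q.cons 1482 (V.cons 4 (-148) (V.cons 10 46 V.nil)) (Q.cons 1491 (V.cons 3 (-16) V.nil) (Q.cons 1875 (V.cons 3 20 V.nil) (Q.cons 2735 (V.cons 19 (-4) (V.cons 43 4 V.nil)) (Q.cons 3498 (V.cons 4 32 (V.cons 10 (-32) V.nil)) (Q.cons 3756 (V.cons 10 4 V.nil) (Q.cons 5034 (V.cons 4 (-16) (V.cons 10 16 V.nil)) (Q.cons 5295 (V.cons 3 (-100) V.nil) (Q.cons 5355 (V.cons 3 432 V.nil) (Q.cons 5547 (V.cons 3 356 V.nil) (Q.cons 5802 (V.cons 4 (-16) (V.cons 10 16 V.nil)) (Q.cons 7338 (V.cons 4 (-16) (V.cons 10 12 V.nil)) (Q.cons 10926 (V.cons 10 4 V.nil) (Q.cons 15018 (V.cons 4 (-4) (V.cons 10 4 V.nil)) (Q.cons 20139 (V.cons 3 16 V.nil) (Q.cons 23211 (V.cons 3 16 V.nil) (Q.cons 29355 (V.cons 3 (-20) V.nil) (Q.cons 60075 (V.cons 3 4 V.nil) Q.nil)))))))))))))))))))))))))))))))))))),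
  (Q.cons 3 (V.cons 1359 (-1) (V.cons 5295 1 V.nil)) (Q.cons 4 (V.cons 348 (-9) (V.cons 372 (-8) (V.cons 1206 (-1) (V.cons 1242 (-6) (V.cons 1260 1 (V.cons 1266 (-2) (V.cons 1326 2 (V.cons 1338 6 (V.cons 1386 9 (V.cons 1452 1 (V.cons 1482 8 (V.cons 3498 2 (V.cons 5034 (-1) (V.cons 5802 (-1) V.nil)))))))))))))) (Q.cons 10 (V.cons 1326 (-1) V.nil) (Q.cons 13 (V.cons 335 (-1) V.nil) (Q.cons 15 (V.cons 339 (-1) (V.cons 1323 1 V.nil)) (Q.cons 19 (V.cons 221 (-3) (V.cons 245 (-1) (V.cons 311 3 (V.cons 317 4 (V.cons 335 (-2) (V.cons 347 2 (V.cons 365 4 (V.cons 371 (-3) (V.cons 875 2 (V.cons 971 1 (V.cons 1211 (-2) (V.cons 1259 (-3) (V.cons 1451 (-1) V.nil))))))))))))) (Q.cons 20 (V.cons 182 2 (V.cons 686 (-1) V.nil)) (Q.cons 22 (V.cons 330 2 (V.cons 684 (-1) V.nil)) (Q.cons 44 (V.cons 182 (-1) V.nil) (Q.cons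 46 (V.cons 330 (-1) V.nil) (Q.cons 55 (V.cons 83 (-1) V.nil) (Q.cons 77 (V.cons 175 1 V.nil) (Q.cons 79 (V.cons 173 1 V.nil) (Q.cons 83 (V.cons 175 (-1) V.nil) (Q.cons 86 (V.cons 44 2 (V.cons 170 (-1) V.nil)) (Q.cons 182 (V.cons 44 (-1) V.nil) (Q.cons 311 (V.cons 43 1 V.nil) (Q.cons 335 (V.cons 43 (-1) V.nil) Q.nil)))))))))))))))))),
  (Q.cons 3 (V.cons 1341 3 (V.cons 1359 (-1) (V.cons 1395 2 (V.cons 5295 1 (V.cons 5355 (-3) (V.cons 5547 (-2) V.nil)))))) (Q.cons 4 (V.cons 1482 2 (V.cons 5802 (-1) V.nil)) (Q.cons 10 (V.cons 1482 (-1) V.nil) (Q.cons 13 (V.cons 1451 (-1) V.nil) (Q.cons 19 (V.cons 1451 1 V.nil) (Q.cons 43 (V.cons 365 1 (V.cons 371 (-1) V.nil)) (Q.cons 74 (V.cons 92 2 (V.cons 362 (-1) V.nil)) (Q.cons 83 (V.cons 91 (-1) V.nil) (Q.cons 170 (V.cons 92 (-1) V.nil) (Q.cons 299 (V.cons 91 1 V.nil)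 Q.nil))))))))))]

def lits8_6_5 : List Q := [
  (Q.cons 10 (V.cons 342 1 (V.cons 1326 (-1) V.nil)) (Q.cons 13 (V.cons 221 3 (V.cons 245 1 (V.cons 311 (-3) (V.cons 317 (-4) (V.cons 335 4 (V.cons 347 (-2) (V.cons 365 (-4) (V.cons 371 3 (V.cons 875 (-2) (V.cons 971 (-1) (V.cons 1211 2 (V.cons 1259 3 (V.cons 1451 1 V.nil))))))))))))) (Q.cons 20 (V.cons 182 (-1) V.nil) (Q.cons 43 (V.cons 335 (-1) V.nil) (Q.cons 44 (V.cons 86 1 V.nil) (Q.cons 46 (V.cons 84 1 (V.cons 330 (-1) V.nil)) (Q.cons 55 (V.cons 83 2 (V.cons 173 (-1) V.nil)) (Q.cons 83 (V.cons 55 2 (V.cons 175 (-1) V.nil)) (Q.cons 84 (V.cons 46 (-1) V.nil) (Q.cons 86 (V.cons 44 (-1) V.nil) (Q.cons 173 (V.cons 55 (-1) V.nil) (Q.cons 175 (V.cons 83 (-1) V.nil) (Q.cons 182 (V.cons 20 1 V.nil) (Q.cons 221 (V.cons 13 3 V.nil) (Q.cons 245 (V.cons 13 1 V.nil)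 (Q.cons 311 (V.cons 13 (-3) V.nil) (Q.cons 317 (V.cons 13 (-4) V.nil) (Q.cons 330 (V.cons 46 1 V.nil) (Q.cons 335 (V.cons 13 4 (V.cons 43 (-1) V.nil)) (Q.cons 342 (V.cons 10 (-1) V.nil) (Q.cons 347 (V.cons 13 (-2) V.nil) (Q.cons 365 (V.cons 13 (-4) V.nil) (Q.cons 371 (V.cons 13 3 V.nil) (Q.cons 461 (V.cons 13 (-3) V.nil) (Q.cons 467 (V.cons 13 2 V.nil) (Q.cons 875 (V.cons 13 (-2) V.nil) (Q.cons 971 (V.cons 13 (-1) V.nil) (Q.cons 1211 (V.cons 13 2 V.nil) (Q.cons 1259 (V.cons 13 3 V.nil) (Q.cons 1326 (V.cons 10 1 V.nil) (Q.cons 1451 (V.cons 13 1 V.nil) (Q.cons 1835 (V.cons 13 1 V.nil) Q.nil)))))))))))))))))))))))))))))))),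
  (Q.cons 43 (V.cons 221 1 (V.cons 317 (-1) V.nil)) (Q.cons 44 (V.cons 86 (-2) (V.cons 92 2 (V.cons 182 2 (V.cons 218 1 (V.cons 236 1 (V.cons 242 (-1) (V.cons 314 (-1) (V.cons 362 (-1) V.nil)))))))) (Q.cons 83 (V.cons 61 1 V.nil) (Q.cons 170 (V.cons 92 (-1) V.nil) (Q.cons 173 (V.cons 55 1 (V.cons 61 (-1) (V.cons 79 (-1) V.nil))) (Q.cons 175 (V.cons 77 (-1) (V.cons 83 1 V.nil)) (Q.cons 182 (V.cons 20 2 (V.cons 44 (-1) V.nil)) (Q.cons 221 (V.cons 13 6 (V.cons 19 (-3) V.nil)) (Q.cons 245 (V.cons 13 (-1) (V.cons 19 2 V.nil)) (Q.cons 311 (V.cons 13 (-6) (V.cons 19 3 V.nil)) (Q.cons 317 (V.cons 13 (-10) (V.cons 19 6 V.nil)) (Q.cons 330 (V.cons 22 2 (V.cons 46 (-1) V.nil)) (Q.cons 335 (V.cons 13 6 (V.cons 19 (-3) V.nil)) (Q.cons 339 (V.cons 15 1 V.nil) (Q.cons 342 (V.cons 4 (-20) (V.cons 10 2 V.nil)) (Q.cons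 347 (V.cons 13 (-4) (V.cons 19 2 V.nil)) (Q.cons 348 (V.cons 4 53 (V.cons 10 (-4) V.nil)) (Q.cons 365 (V.cons 13 (-10) (V.cons 19 6 V.nil)) (Q.cons 371 (V.cons 13 9 (V.cons 19 (-6) V.nil)) (Q.cons 372 (V.cons 4 87 (V.cons 10 (-6) V.nil)) (Q.cons 461 (V.cons 13 (-9) (V.cons 19 6 V.nil)) (Q.cons 467 (V.cons 13 10 (V.cons 19 (-8) V.nil)) (Q.cons 468 (V.cons 4 (-1) V.nil) (Q.cons 684 (V.cons 22 (-1) V.nil) (Q.cons 686 (V.cons 20 (-1) V.nil) (Q.cons 875 (V.cons 19 (-2) V.nil) (Q.cons 941 (V.cons 13 1 (V.cons 19 (-1) V.nil)) (Q.cons 971 (V.cons 19 (-1) V.nil) (Q.cons 978 (V.cons 4 (-1) V.nil) (Q.cons 1206 (V.cons 4 16 (V.cons 10 (-2) V.nil)) (Q.cons 1211 (V.cons 13 4 (V.cons 19 (-2) V.nil)) (Q.cons 1242 (V.cons 4 44 (V.cons 10 (-3) V.nil)) (Q.cons 1259 (V.cons 13 5 (V.cons 19 (-2) V.nil)) (Q.cons 1260 (V.cons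 4 (-14) (V.cons 10 1 V.nil)) (Q.cons 1266 (V.cons 4 16 (V.cons 10 (-1) V.nil)) (Q.cons 1323 (V.cons 15 (-1) V.nil) (Q.cons 1326 (V.cons 4 4 V.nil) (Q.cons 1338 (V.cons 4 (-44) (V.cons 10 3 V.nil)) (Q.cons 1341 (V.cons 3 3 V.nil) (Q.cons 1359 (V.cons 3 (-1) V.nil) (Q.cons 1386 (V.cons 4 (-52) (V.cons 10 3 V.nil)) (Q.cons 1395 (V.cons 3 2 V.nil) (Q.cons 1451 (V.cons 13 1 V.nil) (Q.cons 1452 (V.cons 4 (-14) (V.cons 10 1 V.nil)) (Q.cons 1482 (V.cons 4 (-73) (V.cons 10 5 V.nil)) (Q.cons 1835 (V.cons 13 (-1) (V.cons 19 2 V.nil)) (Q.cons 3498 (V.cons 4 (-2) V.nil) (Q.cons 3756 (V.cons 4 1 V.nil) (Q.cons 5295 (V.cons 3 1 V.nil) (Q.cons 5355 (V.cons 3 (-3) V.nil) (Q.cons 5547 (V.cons 3 (-2) V.nil) (Q.cons 7338 (V.cons 4 1 V.nil) Q.nil)))))))))))))))))))))))))))))))))))))))))))))))))))),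
  (Q.cons 235 (V.cons 77 (-1) (V.cons 83 1 V.nil)) (Q.cons 236 (V.cons 20 2 (V.cons 44 (-1) V.nil)) (Q.cons 245 (V.cons 13 1 V.nil) (Q.cons 938 (V.cons 20 (-1) V.nil) (Q.cons 941 (V.cons 19 (-1) V.nil) (Q.cons 978 (V.cons 4 2 (V.cons 10 (-1) V.nil)) (Q.cons 1395 (V.cons 3 (-1) V.nil) (Q.cons 3756 (V.cons 4 (-1) V.nil) (Q.cons 5547 (V.cons 3 1 V.nil) Q.nil))))))))),
  (Q.cons 3 (V.cons 1269 (-1) (V.cons 1341 (-19) (V.cons 1359 4 (V.cons 1395 (-15) (V.cons 1491 (-1) (V.cons 5295 (-4) (V.cons 5355 19 (V.cons 5547 15 (V.cons 20139 1 (V.cons 23211 1 V.nil)))))))))) (Q.cons 10 (V.cons 342 3 (V.cons 348 7 (V.cons 1206 (-2) (V.cons 1242 2 (V.cons 1260 1 (V.cons 1266 1 (V.cons 1326 (-1) (V.cons 1338 (-2) (V.cons 1386 (-7) (V.cons 1452 1 (V.cons 1482 (-2) (V.cons 3498 (-3) (V.cons 5034 1 (V.cons 5802 1 V.nil))))))))))))))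 (Q.cons 13 (V.cons 3755 1 V.nil) (Q.cons 19 (V.cons 3755 (-1) V.nil) (Q.cons 43 (V.cons 941 (-1) (V.cons 971 1 V.nil)) (Q.cons 44 (V.cons 938 1 V.nil) (Q.cons 74 (V.cons 938 (-1) V.nil) (Q.cons 83 (V.cons 235 1 V.nil) (Q.cons 170 (V.cons 236 (-1) (V.cons 242 1 V.nil)) (Q.cons 299 (V.cons 235 (-1) V.nil) (Q.cons 330 (V.cons 58 1 V.nil) (Q.cons 1194 (V.cons 58 (-1) V.nil) Q.nil)))))))))))),
  (Q.cons 34 (V.cons 300 (-1) (V.cons 330 1 V.nil)) (Q.cons 55 (V.cons 77 (-1) (V.cons 83 1 V.nil)) (Q.cons 61 (V.cons 77 (-1) (V.cons 83 1 V.nil)) (Q.cons 79 (V.cons 77 1 (V.cons 83 (-1) V.nil)) (Q.cons 91 (V.cons 77 (-1) (V.cons 83 1 V.nil)) (Q.cons 92 (V.cons 74 2 V.nil) (Q.cons 98 (V.cons 44 (-1) (V.cons 74 1 V.nil)) (Q.cons 109 (V.cons 77 (-1) (V.cons 83 1 V.nil)) (Q.cons 115 (V.cons 77 (-1) (V.cons 83 1 V.nil))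 (Q.cons 116 (V.cons 44 2 (V.cons 74 2 V.nil)) (Q.cons 187 (V.cons 77 1 (V.cons 83 (-1) V.nil)) (Q.cons 218 (V.cons 44 2 V.nil) (Q.cons 221 (V.cons 19 (-4) V.nil) (Q.cons 235 (V.cons 77 1 (V.cons 83 (-1) V.nil)) (Q.cons 311 (V.cons 13 (-1) (V.cons 19 3 V.nil)) (Q.cons 314 (V.cons 44 (-2) V.nil) (Q.cons 317 (V.cons 13 (-1) (V.cons 19 5 V.nil)) (Q.cons 335 (V.cons 13 1 (V.cons 19 (-3) V.nil)) (Q.cons 342 (V.cons 10 2 V.nil) (Q.cons 347 (V.cons 13 (-1) (V.cons 19 1 V.nil)) (Q.cons 348 (V.cons 10 2 V.nil) (Q.cons 362 (V.cons 74 (-2) V.nil) (Q.cons 365 (V.cons 13 (-1) (V.cons 19 3 V.nil)) (Q.cons 371 (V.cons 13 (-1) (V.cons 19 (-3) V.nil)) (Q.cons 372 (V.cons 10 (-2) V.nil) (Q.cons 427 (V.cons 77 2 (V.cons 83 (-2) V.nil)) (Q.cons 428 (V.cons 74 (-2) V.nil) (Q.cons 458 (V.cons 44 (-2) V.nil) (Q.cons 461 (V.cons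 19 2 V.nil) (Q.cons 467 (V.cons 13 (-2) (V.cons 19 (-4) V.nil)) (Q.cons 875 (V.cons 13 (-2) V.nil) (Q.cons 1206 (V.cons 10 (-2) V.nil) (Q.cons 1211 (V.cons 13 1 (V.cons 19 (-1) V.nil)) (Q.cons 1259 (V.cons 13 3 (V.cons 19 (-1) V.nil)) (Q.cons 1341 (V.cons 3 42 V.nil) (Q.cons 1359 (V.cons 3 (-10) V.nil) (Q.cons 1386 (V.cons 10 (-2) V.nil) (Q.cons 1395 (V.cons 3 30 V.nil) (Q.cons 1451 (V.cons 13 2 V.nil) (Q.cons 1482 (V.cons 10 2 V.nil) (Q.cons 1709 (V.cons 19 2 V.nil) (Q.cons 1835 (V.cons 13 2 V.nil) (Q.cons 5295 (V.cons 3 10 V.nil) (Q.cons 5355 (V.cons 3 (-42) V.nil) (Q.cons 5547 (V.cons 3 (-30) V.nil) Q.nil)))))))))))))))))))))))))))))))))))))))))))))]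

def lits8_6 : List Q := lits8_6_0 ++ (lits8_6_1 ++ (lits8_6_2 ++ (lits8_6_3 ++ (lits8_6_4 ++ (lits8_6_5)))))

set_option maxRecDepth 1000000
theorem rows8_6_ok : chkRows rows8_6 lits8_6 = true := by decide +kernel

end Pool.Agent.N33.SA
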