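import Pool.Agent.N33.SA.Bil4
set_option autoImplicit false

/-! Rows of the certificate of level 8, part 7. -/

noncomputable section
namespace Pool.Agent.N33.SA

def rows8_7 : List BR := [
  ⟨0, 938, 0, [], []⟩,
  ⟨0, 86, 0, [], []⟩,
  ⟨3, 25, 0, [], []⟩,
  ⟨9, 43, 0, [], []⟩,
  ⟨27, 19, 0, [], []⟩,
  ⟨4, 46, 0, [], []⟩,
  ⟨58, 4, 0, [], []⟩,
  ⟨13, 3, 0, [2], []⟩,
  ⟨235, 3, 0, [], []⟩,
  ⟨170, 0, 0, [2], []⟩,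
  ⟨236, 0, 0, [], []⟩,
  ⟨314, 0, 0, [], []⟩,
  ⟨0, 175, 1, [], []⟩,
  ⟨6, 13, 1, [], []⟩,
  ⟨9, 4, 1, [], []⟩,
  ⟨4, 15, 1, [], []⟩,
  ⟨13, 0, 1, [2], []⟩,
  ⟨427, 0, 1, [], []⟩,
  ⟨0, 330, 2, [], []⟩,
  ⟨10, 74, 2, [], []⟩,
  ⟨43, 19, 2, [], []⟩,
  ⟨170, 4, 2, [], []⟩,
  ⟨173, 3, 2, [], []⟩,
  ⟨84, 0, 2, [], []⟩,
  ⟨3, 20, 3, [], []⟩,
  ⟨43, 4, 3, [], []⟩,
  ⟨20, 3, 3, [], []⟩,
  ⟨0, 83, 4, [], []⟩,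
  ⟨4, 43, 4, [], []⟩,
  ⟨19, 4, 4, [], []⟩,
  ⟨77, 0, 4, [], []⟩,
  ⟨10, 10, 6, [], []⟩,
  ⟨44, 0, 6, [], []⟩,
  ⟨3, 19, 7, [], []⟩,
  ⟨0, 43, 0, [0,2], []⟩,
  ⟨0, 25, 0, [0], []⟩,
  ⟨6, 43, 0, [0], []⟩,
  ⟨3, 4, 0, [2,0], []⟩,
  ⟨27, 10, 0, [0], []⟩,
  ⟨10, 15, 0, [0], []⟩,
  ⟨43, 0, 0, [3], []⟩,
  ⟨19, 0, 0, [2,0], []⟩,
  ⟨109, 0, 0, [0], []⟩,
  ⟨0, 4, 1, [0,2], []⟩,
  ⟨3, 3, 1, [0,2], []⟩,
  ⟨10, 0, 1, [2,0], []⟩,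
  ⟨28, 0, 1, [0], []⟩,
  ⟨0, 170, 3, [0], []⟩,
  ⟨0, 4, 0, [3,0], []⟩,
  ⟨0, 22, 0, [1], []⟩,
  ⟨3, 15, 0, [1], []⟩,
  ⟨10, 0, 0, [1,2], []⟩,
  ⟨106, 0, 0, [1], []⟩,
  ⟨0, 15, 1, [1], []⟩,
  ⟨15, 0, 1, [0,0], []⟩]

def lits8_7_0 : List Q := [
  (Q.cons 3 (V.cons 981 (-1) (V.cons 1395 (-1) (V.cons 5547 1 (V.cons 15021 1 V.nil)))) (Q.cons 4 (V.cons 3756 2 (V.cons 15018 (-1) V.nil)) (Q.cons 10 (V.cons 3756 (-1) V.nil) (Q.cons 13 (V.cons 3755 (-1) V.nil) (Q.cons 19 (V.cons 3755 1 V.nil) Q.nil))))),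
  (Q.cons 4 (V.cons 348 2 (V.cons 1386 (-1) V.nil)) (Q.cons 10 (V.cons 348 (-1) V.nil) (Q.cons 13 (V.cons 347 (-1) V.nil) (Q.cons 19 (V.cons 347 1 V.nil) Q.nil)))),
  (Q.cons 10 (V.cons 348 6 (V.cons 372 6 (V.cons 1242 4 (V.cons 1338 (-4) (V.cons 1386 (-6) (V.cons 1452 (-2) (V.cons 1482 (-4) V.nil))))))) (Q.cons 13 (V.cons 221 4 (V.cons 311 (-1) (V.cons 317 (-5) (V.cons 335 1 (V.cons 347 (-1) (V.cons 365 (-1) (V.cons 371 3 (V.cons 1211 1 (V.cons 1259 1 (V.cons 1451 (-2) V.nil)))))))))) (Q.cons 20 (V.cons 98 (-1) V.nil) (Q.cons 43 (V.cons 221 (-2) (V.cons 311 1 (V.cons 317 3 (V.cons 335 (-1) (V.cons 347 1 (V.cons 365 1 (V.cons 371 (-1) (V.cons 1211 (-1) (V.cons 1259 (-1) V.nil))))))))) (Q.cons 44 (V.cons 98 1 V.nil) Q.nil))))),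
  (Q.cons 25 (V.cons 173 (-2) (V.cons 683 1 V.nil)) (Q.cons 34 (V.cons 330 1 (V.cons 684 (-1) V.nil)) (Q.cons 55 (V.cons 173 5 (V.cons 683 (-2) V.nil)) (Q.cons 61 (V.cons 173 1 V.nil) (Q.cons 79 (V.cons 173 (-5) (V.cons 683 2 V.nil)) (Q.cons 91 (V.cons 173 1 V.nil) (Q.cons 92 (V.cons 170 (-2) V.nil) (Q.cons 109 (V.cons 173 5 (V.cons 683 (-2) V.nil)) (Q.cons 115 (V.cons 173 (-3) (V.cons 683 2 V.nil)) (Q.cons 116 (V.cons 170 (-4) V.nil) (Q.cons 187 (V.cons 173 (-1) V.nil) (Q.cons 218 (V.cons 170 (-2) V.nil) (Q.cons 235 (V.cons 173 (-1) V.nil) (Q.cons 314 (V.cons 170 2 V.nil) (Q.cons 362 (V.cons 170 2 V.nil) (Q.cons 427 (V.cons 173 (-2) V.nil) (Q.cons 428 (V.cons 170 2 V.nil) (Q.cons 458 (V.cons 170 2 V.nil) Q.nil)))))))))))))))))),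
  (Q.cons 106 (V.cons 84 1 (V.cons 300 (-1) V.nil)) (Q.cons 109 (V.cons 77 2 (V.cons 299 (-1) V.nil)) (Q.cons 116 (V.cons 74 (-1) V.nil) (Q.cons 427 (V.cons 77 (-1) V.nil) (Q.cons 428 (V.cons 74 1 V.nil) Q.nil))))),
  (Q.cons 4 (V.cons 348 8 (V.cons 372 7 (V.cons 1242 5 (V.cons 1338 (-5) (V.cons 1386 (-8) (V.cons 1482 (-7) V.nil)))))) (Q.cons 19 (V.cons 221 1 (V.cons 245 2 (V.cons 311 (-1) (V.cons 335 1 (V.cons 347 (-1) (V.cons 371 (-1) (V.cons 875 (-3) (V.cons 941 (-1) (V.cons 971 (-1) (V.cons 1211 1 (V.cons 1259 2 (V.cons 1451 1 V.nil)))))))))))) (Q.cons 20 (V.cons 86 2 (V.cons 182 (-3) (V.cons 218 (-2) (V.cons 236 (-3) (V.cons 242 2 (V.cons 302 1 (V.cons 314 2 (V.cons 362 1 (V.cons 938 1 V.nil))))))))) (Q.cons 74 (V.cons 86 (-2) (V.cons 182 2 (V.cons 218 1 (V.cons 236 1 (V.cons 242 (-1) (V.cons 314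 (-1) (V.cons 362 (-1) V.nil))))))) (Q.cons 77 (V.cons 187 (-1) V.nil) (Q.cons 83 (V.cons 187 1 V.nil) Q.nil)))))),
  (Q.cons 235 (V.cons 77 1 (V.cons 83 (-1) V.nil)) (Q.cons 236 (V.cons 20 2 (V.cons 74 (-1) V.nil)) (Q.cons 245 (V.cons 19 1 V.nil) (Q.cons 938 (V.cons 20 (-1) V.nil) (Q.cons 941 (V.cons 19 (-1) V.nil) Q.nil))))),
  (Q.cons 20 (V.cons 86 1 (V.cons 182 (-1) V.nil)) (Q.cons 83 (V.cons 55 1 (V.cons 175 (-1) V.nil)) (Q.cons 84 (V.cons 46 1 V.nil) (Q.cons 86 (V.cons 20 1 (V.cons 44 (-1) V.nil)) (Q.cons 330 (V.cons 46 (-1) V.nil) (Q.cons 335 (V.cons 13 1 (V.cons 43 (-1) V.nil)) (Q.cons 342 (V.cons 10 1 V.nil) (Q.cons 1326 (V.cons 10 (-1) V.nil) Q.nil)))))))),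
  (Q.cons 938 (V.cons 20 1 (V.cons 44 (-1) V.nil)) (Q.cons 941 (V.cons 13 2 (V.cons 43 (-1) V.nil)) (Q.cons 978 (V.cons 10 (-1) V.nil) (Q.cons 3755 (V.cons 13 (-1) V.nil) (Q.cons 3756 (V.cons 10 1 V.nil) Q.nil))))),
  (Q.cons 348 (V.cons 4 18 (V.cons 10 (-9) V.nil)) (Q.cons 372 (V.cons 4 16 (V.cons 10 (-8) V.nil)) (Q.cons 468 (V.cons 4 (-4) (V.cons 10 2 V.nil)) (Q.cons 683 (V.cons 55 1 (V.cons 79 (-1) V.nil)) (Q.cons 684 (V.cons 22 2 (V.cons 46 (-1) V.nil)) (Q.cons 1206 (V.cons 4 2 (V.cons 10 (-1) V.nil)) (Q.cons 1242 (V.cons 4 12 (V.cons 10 (-6) V.nil)) (Q.cons 1260 (V.cons 4 (-2) (V.cons 10 1 V.nil)) (Q.cons 1266 (V.cons 4 4 (V.cons 10 (-2) V.nil)) (Q.cons 1323 (V.cons 15 1 V.nil) (Q.cons 1338 (V.cons 4 (-12) (V.cons 10 6 V.nil)) (Q.cons 1341 (V.cons 3 3 V.nil) (Q.cons 1359 (V.cons 3 (-1) V.nil) (Q.cons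 1386 (V.cons 4 (-18) (V.cons 10 9 V.nil)) (Q.cons 1395 (V.cons 3 1 V.nil) (Q.cons 1452 (V.cons 4 (-2) (V.cons 10 1 V.nil)) (Q.cons 1482 (V.cons 4 (-16) (V.cons 10 8 V.nil)) (Q.cons 1875 (V.cons 3 1 V.nil) (Q.cons 2730 (V.cons 22 (-1) V.nil) (Q.cons 2733 (V.cons 15 (-1) V.nil) (Q.cons 2735 (V.cons 13 1 (V.cons 19 (-1) V.nil)) (Q.cons 3498 (V.cons 4 (-4) (V.cons 10 2 V.nil)) (Q.cons 5034 (V.cons 4 2 (V.cons 10 (-1) V.nil)) (Q.cons 5295 (V.cons 3 1 V.nil) (Q.cons 5355 (V.cons 3 (-3) V.nil) (Q.cons 5547 (V.cons 3 (-1) V.nil) (Q.cons 5802 (V.cons 4 2 (V.cons 10 (-1) V.nil)) (Q.cons 7338 (V.cons 4 4 (V.cons 10 (-2) V.nil)) (Q.cons 10926 (V.cons 4 (-1) V.nil) (Q.cons 29355 (V.cons 3 (-1) V.nil) Q.nil))))))))))))))))))))))))))))))]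

def lits8_7_1 : List Q := [
  (Q.cons 245 (V.cons 13 1 (V.cons 19 (-1) V.nil)) (Q.cons 978 (V.cons 4 1 (V.cons 10 (-1) V.nil)) (Q.cons 1395 (V.cons 3 1 V.nil) (Q.cons 5547 (V.cons 3 (-1) V.nil) Q.nil)))),
  (Q.cons 1259 (V.cons 13 1 (V.cons 19 (-1) V.nil)) (Q.cons 1260 (V.cons 4 2 (V.cons 10 (-1) V.nil)) (Q.cons 1341 (V.cons 3 (-23) V.nil) (Q.cons 1359 (V.cons 3 5 V.nil) (Q.cons 1395 (V.cons 3 (-18) V.nil) (Q.cons 1491 (V.cons 3 (-1) V.nil) (Q.cons 5034 (V.cons 4 (-1) V.nil) (Q.cons 5295 (V.cons 3 (-5) V.nil) (Q.cons 5355 (V.cons 3 23 V.nil) (Q.cons 5547 (V.cons 3 18 V.nil) (Q.cons 5805 (V.cons 3 1 V.nil) Q.nil))))))))))),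
  (Q.cons 0 (V.cons 1396 2 (V.cons 22186 (-2) V.nil)) (Q.cons 3 (V.cons 981 1 (V.cons 1269 (-1) (V.cons 1341 (-64) (V.cons 1359 16 (V.cons 1395 (-39) (V.cons 1491 (-1) (V.cons 5295 (-16) (V.cons 5355 64 (V.cons 5547 39 (V.cons 15021 (-1) (V.cons 20139 1 (V.cons 23211 1 V.nil)))))))))))) (Q.cons 10 (V.cons 342 11 (V.cons 348 (-2) (V.cons 372 (-34) (V.cons 978 1 (V.cons 1206 (-7) (V.cons 1242 (-10) (V.cons 1260 8 (V.cons 1266 (-8) (V.cons 1326 (-4) (V.cons 1338 10 (V.cons 1386 2 (V.cons 1452 8 (V.cons 1482 25 (V.cons 3498 (-1) (V.cons 3756 (-1) (V.cons 5034 1 (V.cons 5802 1 V.nil))))))))))))))))) (Q.cons 13 (V.cons 221 2 (V.cons 245 (-2) (V.cons 311 (-2) (V.cons 317 (-2) (V.cons 335 2 (V.cons 347 (-3) (V.cons 365 (-2) (V.cons 371 1 (V.cons 875 (-3) (V.cons 971 1 (V.cons 1211 3 (V.cons 1259 4 (V.cons 1451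 1 (V.cons 3755 1 V.nil)))))))))))))) (Q.cons 19 (V.cons 221 (-2) (V.cons 245 2 (V.cons 311 2 (V.cons 317 2 (V.cons 335 (-2) (V.cons 347 3 (V.cons 365 2 (V.cons 371 (-1) (V.cons 875 3 (V.cons 971 (-1) (V.cons 1211 (-3) (V.cons 1259 (-4) (V.cons 1451 (-1) (V.cons 3755 (-1) V.nil)))))))))))))) (Q.cons 44 (V.cons 86 (-3) (V.cons 182 1 (V.cons 218 (-1) (V.cons 236 (-2) (V.cons 242 1 (V.cons 302 2 (V.cons 314 2 (V.cons 938 1 V.nil)))))))) (Q.cons 74 (V.cons 86 3 (V.cons 182 (-1) (V.cons 218 1 (V.cons 236 2 (V.cons 242 (-1) (V.cons 302 (-2) (V.cons 314 (-2) (V.cons 938 (-1) V.nil)))))))) Q.nil))))))),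
  (Q.cons 27 (V.cons 339 (-1) (V.cons 1323 1 V.nil)) (Q.cons 106 (V.cons 84 (-1) (V.cons 330 1 V.nil)) (Q.cons 109 (V.cons 83 1 V.nil) (Q.cons 115 (V.cons 83 (-1) V.nil) (Q.cons 428 (V.cons 20 1 V.nil) (Q.cons 458 (V.cons 20 (-1) V.nil) Q.nil)))))),
  (Q.cons 34 (V.cons 300 1 (V.cons 330 (-1) V.nil)) (Q.cons 55 (V.cons 77 1 (V.cons 83 (-1) V.nil)) (Q.cons 61 (V.cons 77 1 (V.cons 83 (-1) V.nil)) (Q.cons 79 (V.cons 77 (-1) (V.cons 83 1 V.nil)) (Q.cons 91 (V.cons 77 1 (V.cons 83 (-1) V.nil)) (Q.cons 92 (V.cons 74 2 V.nil) (Q.cons 109 (V.cons 77 1 (V.cons 83 (-1) V.nil)) (Q.cons 115 (V.cons 77 1 (V.cons 83 (-1) V.nil)) (Q.cons 116 (V.cons 74 4 V.nil) (Q.cons 187 (V.cons 77 (-1) (V.cons 83 1 V.nil)) (Q.cons 218 (V.cons 74 2 V.nil) (Q.cons 221 (V.cons 19 (-4) V.nil) (Q.cons 235 (V.cons 77 (-1) (V.cons 83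 1 V.nil)) (Q.cons 311 (V.cons 19 2 V.nil) (Q.cons 314 (V.cons 74 (-2) V.nil) (Q.cons 317 (V.cons 19 4 V.nil) (Q.cons 335 (V.cons 19 (-2) V.nil) (Q.cons 362 (V.cons 74 (-2) V.nil) (Q.cons 365 (V.cons 19 2 V.nil) (Q.cons 371 (V.cons 19 (-4) V.nil) (Q.cons 427 (V.cons 77 (-2) (V.cons 83 2 V.nil)) (Q.cons 428 (V.cons 74 (-2) V.nil) (Q.cons 458 (V.cons 74 (-2) V.nil) (Q.cons 461 (V.cons 19 2 V.nil) (Q.cons 467 (V.cons 19 (-6) V.nil) (Q.cons 875 (V.cons 19 (-2) V.nil) (Q.cons 1259 (V.cons 19 2 V.nil) (Q.cons 1451 (V.cons 19 2 V.nil) (Q.cons 1709 (V.cons 19 2 V.nil) (Q.cons 1835 (V.cons 19 2 V.nil) Q.nil)))))))))))))))))))))))))))))),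
  (Q.cons 19 (V.cons 941 (-1) (V.cons 971 1 V.nil)) (Q.cons 74 (V.cons 236 (-1) (V.cons 242 1 V.nil)) (Q.cons 77 (V.cons 235 1 V.nil) (Q.cons 83 (V.cons 235 (-1) V.nil) (Q.cons 300 (V.cons 58 1 V.nil) (Q.cons 330 (V.cons 58 (-1) V.nil) Q.nil)))))),
  (Q.cons 20 (V.cons 182 1 (V.cons 302 (-1) V.nil)) (Q.cons 83 (V.cons 55 (-1) (V.cons 79 1 V.nil)) (Q.cons 84 (V.cons 46 (-1) V.nil) (Q.cons 86 (V.cons 44 1 (V.cons 74 (-1) V.nil)) (Q.cons 330 (V.cons 46 1 V.nil) (Q.cons 335 (V.cons 13 (-1) (V.cons 19 1 V.nil)) (Q.cons 339 (V.cons 15 1 V.nil) (Q.cons 342 (V.cons 10 (-1) V.nil) (Q.cons 1323 (V.cons 15 (-1) V.nil) (Q.cons 1326 (V.cons 10 1 V.nil) (Q.cons 1359 (V.cons 3 1 V.nil) (Q.cons 5295 (V.cons 3 (-1) V.nil) Q.nil)))))))))))),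
  (Q.cons 348 (V.cons 10 (-2) V.nil) (Q.cons 372 (V.cons 10 (-1) V.nil) (Q.cons 468 (V.cons 10 1 V.nil) (Q.cons 1242 (V.cons 10 (-1) V.nil) (Q.cons 1338 (V.cons 10 1 V.nil) (Q.cons 1341 (V.cons 3 (-3) V.nil) (Q.cons 1359 (V.cons 3 1 V.nil) (Q.cons 1386 (V.cons 10 2 V.nil) (Q.cons 1395 (V.cons 3 (-1) V.nil) (Q.cons 1482 (V.cons 10 1 V.nil) (Q.cons 1706 (V.cons 44 1 (V.cons 74 (-1) V.nil)) (Q.cons 1875 (V.cons 3 (-1) V.nil) (Q.cons 5295 (V.cons 3 (-1) V.nil) (Q.cons 5355 (V.cons 3 3 V.nil) (Q.cons 5547 (V.cons 3 1 V.nil) (Q.cons 6827 (V.cons 13 (-1) (V.cons 19 1 V.nil)) (Q.cons 6828 (V.cons 10 (-1) V.nil) (Q.cons 27309 (V.cons 3 1 V.nil) Q.nil)))))))))))))))))),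
  (Q.cons 3 (V.cons 1341 (-4) (V.cons 1359 4 (V.cons 1395 (-4) (V.cons 5295 (-4) (V.cons 5355 4 (V.cons 5547 4 V.nil)))))) (Q.cons 4 (V.cons 1326 (-4) V.nil) (Q.cons 6 (V.cons 340 (-4) (V.cons 5290 4 V.nil)) (Q.cons 9 (V.cons 1323 (-2) V.nil) (Q.cons 10 (V.cons 1326 4 V.nil) Q.nil))))),
  (Q.cons 43 (V.cons 311 2 (V.cons 317 2 (V.cons 335 2 (V.cons 347 2 (V.cons 365 (-2) (V.cons 371 2 (V.cons 1199 (-4) (V.cons 1211 (-2) (V.cons 1259 (-2) V.nil))))))))) (Q.cons 44 (V.cons 302 (-4) V.nil) (Q.cons 46 (V.cons 300 (-4) (V.cons 1194 4 V.nil)) (Q.cons 55 (V.cons 299 (-2) V.nil) (Q.cons 61 (V.cons 299 (-2) V.nil) (Q.cons 79 (V.cons 299 (-2) V.nil) (Q.cons 91 (V.cons 299 (-2) V.nil) (Q.cons 109 (V.cons 299 2 V.nil) (Q.cons 115 (V.cons 299 (-2) V.nil) (Q.cons 170 (V.cons 302 4 V.nil) (Q.cons 175 (V.cons 299 4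 V.nil) (Q.cons 187 (V.cons 299 2 V.nil) (Q.cons 235 (V.cons 299 2 V.nil) Q.nil)))))))))))))]

def lits8_7_2 : List Q := [
  (Q.cons 86 (V.cons 74 8 V.nil) (Q.cons 116 (V.cons 74 (-4) V.nil) (Q.cons 170 (V.cons 86 (-4) (V.cons 92 (-4) (V.cons 98 (-2) (V.cons 302 4 (V.cons 362 4 V.nil))))) (Q.cons 173 (V.cons 79 (-4) V.nil) (Q.cons 175 (V.cons 77 (-4) (V.cons 299 4 V.nil)) (Q.cons 182 (V.cons 74 (-2) V.nil) (Q.cons 218 (V.cons 74 2 V.nil) (Q.cons 236 (V.cons 74 (-2) V.nil) (Q.cons 242 (V.cons 74 2 V.nil) (Q.cons 302 (V.cons 74 (-2) V.nil) (Q.cons 314 (V.cons 74 (-2) V.nil) (Q.cons 428 (V.cons 74 2 V.nil) (Q.cons 458 (V.cons 74 2 V.nil) (Q.cons 683 (V.cons 79 4 V.nil) (Q.cons 686 (V.cons 74 (-4) V.nil) Q.nil))))))))))))))),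
  (Q.cons 221 (V.cons 19 (-8) V.nil) (Q.cons 245 (V.cons 19 6 V.nil) (Q.cons 311 (V.cons 19 8 V.nil) (Q.cons 317 (V.cons 19 12 V.nil) (Q.cons 335 (V.cons 19 (-12) V.nil) (Q.cons 347 (V.cons 19 4 V.nil) (Q.cons 365 (V.cons 19 12 V.nil) (Q.cons 371 (V.cons 19 (-10) V.nil) (Q.cons 461 (V.cons 19 10 V.nil) (Q.cons 467 (V.cons 19 (-8) V.nil) (Q.cons 683 (V.cons 25 2 V.nil) (Q.cons 684 (V.cons 22 (-4) V.nil) (Q.cons 686 (V.cons 20 (-4) (V.cons 74 4 V.nil)) (Q.cons 875 (V.cons 19 2 V.nil) (Q.cons 941 (V.cons 19 (-4) V.nil) (Q.cons 971 (V.cons 19 (-2) V.nil) (Q.cons 1211 (V.cons 19 (-4) V.nil) (Q.cons 1259 (V.cons 19 (-6) V.nil) (Q.cons 1451 (V.cons 19 (-2) V.nil) (Q.cons 1835 (V.cons 19 (-2) V.nil) (Q.cons 2730 (V.cons 22 4 V.nil) (Q.cons 2735 (V.cons 19 4 V.nil) Q.nil)))))))))))))))))))))),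
  (Q.cons 173 (V.cons 55 (-1) (V.cons 61 (-1) (V.cons 79 1 (V.cons 91 (-1) (V.cons 187 1 (V.cons 235 1 V.nil)))))) (Q.cons 221 (V.cons 13 12 (V.cons 43 (-12) V.nil)) (Q.cons 245 (V.cons 13 4 (V.cons 43 (-4) V.nil)) (Q.cons 311 (V.cons 13 (-12) (V.cons 43 12 V.nil)) (Q.cons 317 (V.cons 13 (-16) (V.cons 43 16 V.nil)) (Q.cons 330 (V.cons 22 (-4) (V.cons 46 4 V.nil)) (Q.cons 335 (V.cons 13 8 (V.cons 43 (-8) V.nil)) (Q.cons 342 (V.cons 10 28 V.nil) (Q.cons 347 (V.cons 13 (-8) (V.cons 43 8 V.nil)) (Q.cons 348 (V.cons 10 (-60) V.nil) (Q.cons 365 (V.cons 13 (-16) (V.cons 43 16 V.nil)) (Q.cons 371 (V.cons 13 12 (V.cons 43 (-12) V.nil)) (Q.cons 372 (V.cons 10 (-96) V.nil) (Q.cons 461 (V.cons 13 (-12) (V.cons 43 12 V.nil)) (Q.cons 467 (V.cons 13 8 (V.cons 43 (-8) V.nil)) (Q.cons 875 (V.cons 13 (-8) (V.cons 43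 8 V.nil)) (Q.cons 971 (V.cons 13 (-4) (V.cons 43 4 V.nil)) (Q.cons 1206 (V.cons 10 (-22) V.nil) (Q.cons 1211 (V.cons 13 8 (V.cons 43 (-8) V.nil)) (Q.cons 1242 (V.cons 10 (-50) V.nil) (Q.cons 1259 (V.cons 13 12 (V.cons 43 (-12) V.nil)) (Q.cons 1260 (V.cons 10 14 V.nil) (Q.cons 1266 (V.cons 10 (-18) V.nil) (Q.cons 1326 (V.cons 10 (-6) V.nil) (Q.cons 1338 (V.cons 10 50 V.nil) (Q.cons 1386 (V.cons 10 60 V.nil) (Q.cons 1451 (V.cons 13 4 (V.cons 43 (-4) V.nil)) (Q.cons 1452 (V.cons 10 14 V.nil) (Q.cons 1482 (V.cons 10 82 V.nil) (Q.cons 1835 (V.cons 13 4 (V.cons 43 (-4) V.nil)) (Q.cons 3498 (V.cons 10 4 V.nil) Q.nil))))))))))))))))))))))))))))))),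
  (Q.cons 342 (V.cons 4 (-4) (V.cons 10 4 V.nil)) (Q.cons 1341 (V.cons 3 4 V.nil) (Q.cons 1395 (V.cons 3 4 V.nil) (Q.cons 5355 (V.cons 3 (-4) V.nil) (Q.cons 5547 (V.cons 3 (-4) V.nil) Q.nil))))),
  (Q.cons 3 (V.cons 1341 6 (V.cons 1359 (-2) (V.cons 1395 2 (V.cons 5295 2 (V.cons 5355 (-6) (V.cons 5547 (-2) V.nil)))))) (Q.cons 10 (V.cons 342 (-2) (V.cons 348 2 (V.cons 1326 2 (V.cons 1386 (-2) V.nil)))) (Q.cons 13 (V.cons 335 (-2) (V.cons 347 2 V.nil)) (Q.cons 20 (V.cons 86 (-2) V.nil) (Q.cons 22 (V.cons 330 4 V.nil) (Q.cons 28 (V.cons 330 4 V.nil) (Q.cons 34 (V.cons 330 2 V.nil) (Q.cons 43 (V.cons 221 (-4) (V.cons 311 6 (V.cons 317 6 (V.cons 335 (-4) (V.cons 365 6 (V.cons 371 (-6) (V.cons 1211 (-2) (V.cons 1259 (-2) V.nil)))))))) (Q.cons 44 (V.cons 86 2 V.nil) (Q.cons 46 (V.cons 84 (-2) (V.cons 330 (-2)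 V.nil)) (Q.cons 55 (V.cons 83 (-2) V.nil) (Q.cons 58 (V.cons 84 2 (V.cons 330 (-2) V.nil)) (Q.cons 61 (V.cons 83 2 V.nil) (Q.cons 106 (V.cons 330 (-4) V.nil) (Q.cons 175 (V.cons 83 2 V.nil) (Q.cons 235 (V.cons 83 (-2) V.nil) Q.nil)))))))))))))))),
  (Q.cons 86 (V.cons 20 (-6) (V.cons 74 14 V.nil)) (Q.cons 116 (V.cons 20 6 (V.cons 74 (-10) V.nil)) (Q.cons 170 (V.cons 86 (-2) (V.cons 92 2 (V.cons 302 2 (V.cons 362 (-2) V.nil)))) (Q.cons 173 (V.cons 79 (-2) (V.cons 91 2 V.nil)) (Q.cons 175 (V.cons 77 2 (V.cons 83 (-2) V.nil)) (Q.cons 182 (V.cons 20 2 (V.cons 74 (-4) V.nil)) (Q.cons 218 (V.cons 20 (-2) (V.cons 74 4 V.nil)) (Q.cons 221 (V.cons 19 8 V.nil) (Q.cons 236 (V.cons 20 (-4) (V.cons 74 2 V.nil)) (Q.cons 242 (V.cons 20 2 V.nil) (Q.cons 245 (V.cons 19 2 V.nil) (Q.cons 302 (V.cons 20 4 (V.cons 74 (-6)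 V.nil)) (Q.cons 311 (V.cons 19 (-8) V.nil) (Q.cons 314 (V.cons 20 4 (V.cons 74 (-6) V.nil)) (Q.cons 317 (V.cons 19 (-16) V.nil) (Q.cons 330 (V.cons 22 (-2) V.nil) (Q.cons 335 (V.cons 19 6 V.nil) (Q.cons 347 (V.cons 19 (-2) V.nil) (Q.cons 365 (V.cons 19 (-16) V.nil) (Q.cons 371 (V.cons 19 16 V.nil) (Q.cons 428 (V.cons 20 (-4) (V.cons 74 6 V.nil)) (Q.cons 458 (V.cons 20 (-2) (V.cons 74 4 V.nil)) (Q.cons 461 (V.cons 19 (-16) V.nil) (Q.cons 467 (V.cons 19 20 V.nil) (Q.cons 683 (V.cons 25 2 (V.cons 79 2 (V.cons 91 (-2) V.nil))) (Q.cons 684 (V.cons 22 2 V.nil) (Q.cons 686 (V.cons 20 (-2) (V.cons 74 (-2) V.nil)) (Q.cons 875 (V.cons 19 6 V.nil) (Q.cons 938 (V.cons 20 2 (V.cons 74 (-2) V.nil)) (Q.cons 941 (V.cons 19 2 V.nil) (Q.cons 971 (V.cons 19 (-2) V.nil) (Q.cons 1211 (V.cons 19 2 V.nil) (Q.cons 1259 (V.cons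 19 2 V.nil) (Q.cons 1835 (V.cons 19 (-4) V.nil) (Q.cons 2735 (V.cons 19 2 V.nil) (Q.cons 3755 (V.cons 19 (-2) V.nil) Q.nil)))))))))))))))))))))))))))))))))))),
  (Q.cons 20 (V.cons 86 (-2) (V.cons 182 1 (V.cons 218 1 (V.cons 236 (-1) (V.cons 242 1 (V.cons 302 1 (V.cons 314 (-1) V.nil))))))) (Q.cons 83 (V.cons 55 2 (V.cons 61 (-2) (V.cons 175 (-2) (V.cons 235 2 V.nil)))) (Q.cons 84 (V.cons 46 (-2) (V.cons 58 2 V.nil)) (Q.cons 86 (V.cons 20 (-2) (V.cons 44 2 V.nil)) (Q.cons 221 (V.cons 43 4 V.nil) (Q.cons 311 (V.cons 43 (-6) V.nil) (Q.cons 317 (V.cons 43 (-6) V.nil) (Q.cons 330 (V.cons 22 4 (V.cons 46 (-2) (V.cons 58 (-2) V.nil))) (Q.cons 335 (V.cons 13 2 (V.cons 43 4 V.nil)) (Q.cons 342 (V.cons 10 (-2) V.nil) (Q.cons 347 (V.cons 13 (-2) V.nil) (Q.cons 348 (V.cons 10 2 V.nil) (Q.cons 365 (V.cons 43 (-6)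 V.nil) (Q.cons 371 (V.cons 43 6 V.nil) (Q.cons 461 (V.cons 43 (-4) V.nil) (Q.cons 467 (V.cons 43 4 V.nil) (Q.cons 1211 (V.cons 43 2 V.nil) (Q.cons 1259 (V.cons 43 2 V.nil) (Q.cons 1326 (V.cons 10 2 V.nil) (Q.cons 1386 (V.cons 10 (-2) V.nil) Q.nil)))))))))))))))))))),
  (Q.cons 3 (V.cons 1341 (-2) (V.cons 1359 2 (V.cons 5295 (-2) (V.cons 5355 2 V.nil)))) (Q.cons 4 (V.cons 348 8 (V.cons 372 12 (V.cons 1206 2 (V.cons 1242 6 (V.cons 1260 (-2) (V.cons 1266 2 (V.cons 1326 (-4) (V.cons 1338 (-4) (V.cons 1386 (-8) (V.cons 1452 (-2) (V.cons 1482 (-10) V.nil))))))))))) (Q.cons 9 (V.cons 339 (-2) (V.cons 1323 (-2) V.nil)) (Q.cons 10 (V.cons 348 8 (V.cons 372 12 (V.cons 1206 2 (V.cons 1242 6 (V.cons 1260 (-2) (V.cons 1266 2 (V.cons 1338 (-8) (V.cons 1386 (-8) (V.cons 1452 (-2) (V.cons 1482 (-10) V.nil))))))))))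 (Q.cons 13 (V.cons 335 2 V.nil) (Q.cons 15 (V.cons 339 2 (V.cons 1323 (-2) V.nil)) (Q.cons 19 (V.cons 335 (-2) V.nil) (Q.cons 22 (V.cons 330 (-2) V.nil) (Q.cons 27 (V.cons 339 (-2) (V.cons 1323 2 V.nil)) (Q.cons 28 (V.cons 330 2 V.nil) (Q.cons 46 (V.cons 330 2 V.nil) (Q.cons 106 (V.cons 330 (-2) V.nil) Q.nil)))))))))))),
  (Q.cons 4 (V.cons 348 19 (V.cons 372 11 (V.cons 1242 10 (V.cons 1338 (-10) (V.cons 1386 (-19) (V.cons 1482 (-11) V.nil)))))) (Q.cons 19 (V.cons 221 (-8) (V.cons 245 (-2) (V.cons 311 8 (V.cons 317 16 (V.cons 335 (-6) (V.cons 347 2 (V.cons 365 16 (V.cons 371 (-16) (V.cons 875 (-6) (V.cons 941 (-2) (V.cons 971 2 (V.cons 1211 (-2) (V.cons 1259 (-2) (V.cons 2735 (-2) (V.cons 3755 2 V.nil))))))))))))))) (Q.cons 20 (V.cons 86 2 (V.cons 236 (-6) (V.cons 242 4 (V.cons 302 2 (V.cons 314 2 (V.cons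 686 (-6) (V.cons 938 2 V.nil))))))) (Q.cons 22 (V.cons 330 2 (V.cons 684 (-2) V.nil)) (Q.cons 25 (V.cons 173 (-2) (V.cons 683 (-2) V.nil)) (Q.cons 74 (V.cons 86 14 (V.cons 182 (-4) (V.cons 218 4 (V.cons 236 2 (V.cons 302 (-6) (V.cons 314 (-6) (V.cons 686 (-2) (V.cons 938 (-2) V.nil)))))))) (Q.cons 77 (V.cons 175 2 V.nil) (Q.cons 79 (V.cons 173 2 (V.cons 683 (-2) V.nil)) (Q.cons 83 (V.cons 175 (-2) V.nil) (Q.cons 86 (V.cons 170 (-2) V.nil) (Q.cons 91 (V.cons 173 (-2) (V.cons 683 2 V.nil)) (Q.cons 92 (V.cons 170 2 V.nil) (Q.cons 302 (V.cons 170 2 V.nil) (Q.cons 362 (V.cons 170 (-2) V.nil) Q.nil)))))))))))))),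
  (Q.cons 74 (V.cons 86 (-2) (V.cons 92 2 (V.cons 302 2 (V.cons 362 (-2) V.nil)))) (Q.cons 77 (V.cons 25 2 (V.cons 79 (-2) (V.cons 91 2 V.nil))) (Q.cons 79 (V.cons 77 (-2) (V.cons 83 2 V.nil)) (Q.cons 84 (V.cons 22 2 V.nil) (Q.cons 86 (V.cons 20 4 (V.cons 74 4 V.nil)) (Q.cons 92 (V.cons 20 4 (V.cons 74 4 V.nil)) (Q.cons 98 (V.cons 20 2 (V.cons 74 2 V.nil)) (Q.cons 299 (V.cons 25 2 (V.cons 79 2 (V.cons 91 (-2) V.nil))) (Q.cons 300 (V.cons 22 (-2) V.nil) (Q.cons 302 (V.cons 20 (-6) (V.cons 74 (-2) V.nil)) (Q.cons 311 (V.cons 19 (-2) V.nil) (Q.cons 314 (V.cons 20 2 (V.cons 74 (-2) V.nil)) (Q.cons 317 (V.cons 19 2 V.nil) (Q.cons 362 (V.cons 20 (-4) (V.cons 74 (-4) V.nil)) (Q.cons 1199 (V.cons 19 2 V.nil) (Q.cons 1259 (V.cons 19 (-2) V.nil) Q.nil))))))))))))))))]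

def lits8_7_3 : List Q := [
  (Q.cons 77 (V.cons 25 1 (V.cons 55 (-1) (V.cons 61 1 (V.cons 79 1 (V.cons 91 1 (V.cons 187 (-1) (V.cons 235 (-1) V.nil))))))) (Q.cons 84 (V.cons 22 (-2) (V.cons 46 2 V.nil)) (Q.cons 311 (V.cons 13 (-2) (V.cons 19 2 V.nil)) (Q.cons 342 (V.cons 4 (-2) (V.cons 10 2 V.nil)) (Q.cons 348 (V.cons 4 4 (V.cons 10 4 V.nil)) (Q.cons 372 (V.cons 4 4 (V.cons 10 4 V.nil)) (Q.cons 1206 (V.cons 4 (-2) (V.cons 10 (-2) V.nil)) (Q.cons 1242 (V.cons 4 4 V.nil) (Q.cons 1260 (V.cons 4 (-2) (V.cons 10 (-2) V.nil)) (Q.cons 1266 (V.cons 4 2 (V.cons 10 2 V.nil)) (Q.cons 1326 (V.cons 4 2 (V.cons 10 2 V.nil)) (Q.cons 1338 (V.cons 4 (-2) (V.cons 10 (-2) V.nil)) (Q.cons 1341 (V.cons 3 (-4) V.nil) (Q.cons 1386 (V.cons 4 (-4) (V.cons 10 (-4) V.nil)) (Q.cons 1395 (V.cons 3 (-4) V.nil) (Q.cons 1452 (V.cons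 4 (-2) (V.cons 10 (-2) V.nil)) (Q.cons 1482 (V.cons 4 (-2) (V.cons 10 (-2) V.nil)) (Q.cons 5355 (V.cons 3 4 V.nil) (Q.cons 5547 (V.cons 3 4 V.nil) Q.nil))))))))))))))))))),
  (Q.cons 10 (V.cons 348 22 (V.cons 372 20 (V.cons 1242 14 (V.cons 1338 (-14) (V.cons 1386 (-22) (V.cons 1482 (-20) V.nil)))))) (Q.cons 43 (V.cons 221 18 (V.cons 245 6 (V.cons 311 (-10) (V.cons 317 16 (V.cons 335 16 (V.cons 347 (-2) (V.cons 365 16 (V.cons 371 (-22) (V.cons 875 (-42) (V.cons 941 (-2) (V.cons 971 (-10) (V.cons 1211 2 (V.cons 1259 8 (V.cons 1451 6 (V.cons 2735 (-6) (V.cons 3755 6 V.nil)))))))))))))))) (Q.cons 44 (V.cons 86 (-8) (V.cons 218 (-8) (V.cons 302 4 (V.cons 314 8 (V.cons 362 4 V.nil))))) (Q.cons 46 (V.cons 330 (-4) (V.cons 684 4 V.nil)) (Q.cons 55 (V.cons 83 4 (V.cons 173 (-4) V.nil)) (Q.cons 61 (V.cons 83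 4 (V.cons 173 (-4) V.nil)) (Q.cons 79 (V.cons 83 4 (V.cons 173 (-4) V.nil)) (Q.cons 83 (V.cons 55 (-4) (V.cons 61 (-4) (V.cons 79 (-4) (V.cons 91 (-4) (V.cons 175 8 (V.cons 187 4 (V.cons 235 4 V.nil))))))) (Q.cons 86 (V.cons 44 (-8) V.nil) (Q.cons 91 (V.cons 83 4 (V.cons 173 (-4) V.nil)) (Q.cons 109 (V.cons 83 (-4) (V.cons 173 4 V.nil)) (Q.cons 115 (V.cons 83 4 (V.cons 173 (-4) V.nil)) (Q.cons 116 (V.cons 170 10 V.nil) (Q.cons 170 (V.cons 182 (-6) (V.cons 236 (-10) (V.cons 242 4 (V.cons 302 4 (V.cons 362 (-4) (V.cons 686 6 (V.cons 938 6 V.nil))))))) (Q.cons 173 (V.cons 55 4 (V.cons 61 4 (V.cons 79 4 (V.cons 91 4 (V.cons 175 (-8) (V.cons 187 (-4) (V.cons 235 (-4) V.nil))))))) (Q.cons 175 (V.cons 83 (-8) (V.cons 173 8 V.nil)) (Q.cons 182 (V.cons 170 (-6) V.nil) (Q.cons 187 (V.cons 83 (-4) (V.cons 173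 4 V.nil)) (Q.cons 218 (V.cons 44 (-8) V.nil) (Q.cons 221 (V.cons 43 (-18) V.nil) (Q.cons 235 (V.cons 83 (-4) (V.cons 173 4 V.nil)) (Q.cons 236 (V.cons 170 (-10) V.nil) (Q.cons 242 (V.cons 170 4 V.nil) (Q.cons 245 (V.cons 43 (-6) V.nil) (Q.cons 302 (V.cons 44 4 (V.cons 170 4 V.nil)) (Q.cons 311 (V.cons 43 10 V.nil) (Q.cons 314 (V.cons 44 8 V.nil) (Q.cons 317 (V.cons 43 (-16) V.nil) (Q.cons 330 (V.cons 46 (-4) V.nil) (Q.cons 335 (V.cons 43 (-16) V.nil) (Q.cons 347 (V.cons 43 2 V.nil) (Q.cons 362 (V.cons 44 4 (V.cons 170 (-4) V.nil)) (Q.cons 365 (V.cons 43 (-16) V.nil) (Q.cons 371 (V.cons 43 22 V.nil) (Q.cons 428 (V.cons 44 (-4) (V.cons 170 (-4) V.nil)) (Q.cons 458 (V.cons 44 4 (V.cons 170 (-6) V.nil)) (Q.cons 461 (V.cons 43 (-30) V.nil) (Q.cons 467 (V.cons 43 60 V.nil) (Q.cons 684 (V.cons 46 4 V.nil)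 (Q.cons 686 (V.cons 170 6 V.nil) (Q.cons 875 (V.cons 43 42 V.nil) (Q.cons 938 (V.cons 170 6 V.nil) (Q.cons 941 (V.cons 43 2 V.nil) (Q.cons 971 (V.cons 43 10 V.nil) (Q.cons 1211 (V.cons 43 (-2) V.nil) (Q.cons 1259 (V.cons 43 (-8) V.nil) (Q.cons 1451 (V.cons 43 (-6) V.nil) (Q.cons 1835 (V.cons 43 (-30) V.nil) (Q.cons 2735 (V.cons 43 6 V.nil) (Q.cons 3755 (V.cons 43 (-6) V.nil) Q.nil)))))))))))))))))))))))))))))))))))))))))))))))))),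
  (Q.cons 44 (V.cons 86 (-2) (V.cons 92 (-4) (V.cons 98 (-2) (V.cons 182 1 (V.cons 218 1 (V.cons 236 (-1) (V.cons 242 1 (V.cons 302 1 (V.cons 314 (-1) (V.cons 362 4 V.nil)))))))))) (Q.cons 83 (V.cons 25 (-4) (V.cons 55 3 (V.cons 61 3 (V.cons 79 3 (V.cons 91 3 (V.cons 175 (-6) (V.cons 187 (-3) (V.cons 235 (-3) V.nil)))))))) (Q.cons 182 (V.cons 44 4 (V.cons 74 (-4) V.nil)) (Q.cons 221 (V.cons 13 8 (V.cons 19 (-8) V.nil)) (Q.cons 245 (V.cons 13 8 (V.cons 19 (-8) V.nil)) (Q.cons 311 (V.cons 13 (-4) (V.cons 19 4 V.nil)) (Q.cons 317 (V.cons 13 4 (V.cons 19 (-4) V.nil)) (Q.cons 330 (V.cons 22 (-6) (V.cons 46 6 V.nil)) (Q.cons 335 (V.cons 13 4 (V.cons 19 (-4) V.nil)) (Q.cons 342 (V.cons 4 (-8) (V.cons 10 (-16) V.nil)) (Q.cons 347 (V.cons 13 4 (V.cons 19 (-4) V.nil)) (Q.cons 348 (V.cons 10 (-8) V.nil) (Q.cons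 365 (V.cons 13 4 (V.cons 19 (-4) V.nil)) (Q.cons 371 (V.cons 13 (-4) (V.cons 19 4 V.nil)) (Q.cons 372 (V.cons 10 36 V.nil) (Q.cons 461 (V.cons 13 8 (V.cons 19 (-8) V.nil)) (Q.cons 467 (V.cons 13 (-16) (V.cons 19 16 V.nil)) (Q.cons 468 (V.cons 10 12 V.nil) (Q.cons 875 (V.cons 13 (-8) (V.cons 19 8 V.nil)) (Q.cons 971 (V.cons 13 (-8) (V.cons 19 8 V.nil)) (Q.cons 1206 (V.cons 4 4 (V.cons 10 12 V.nil)) (Q.cons 1211 (V.cons 13 (-4) (V.cons 19 4 V.nil)) (Q.cons 1242 (V.cons 10 6 V.nil) (Q.cons 1259 (V.cons 13 (-4) (V.cons 19 4 V.nil)) (Q.cons 1260 (V.cons 10 (-10) V.nil) (Q.cons 1266 (V.cons 10 4 V.nil) (Q.cons 1269 (V.cons 3 (-6) V.nil) (Q.cons 1326 (V.cons 10 8 V.nil) (Q.cons 1338 (V.cons 10 (-6) V.nil) (Q.cons 1341 (V.cons 3 (-142) V.nil) (Q.cons 1359 (V.cons 3 34 V.nil) (Q.cons 1386 (V.cons 4 4 (V.cons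 10 4 V.nil)) (Q.cons 1395 (V.cons 3 (-110) V.nil) (Q.cons 1452 (V.cons 10 (-10) V.nil) (Q.cons 1482 (V.cons 10 (-20) V.nil) (Q.cons 1491 (V.cons 3 (-6) V.nil) (Q.cons 1835 (V.cons 13 8 (V.cons 19 (-8) V.nil)) (Q.cons 3498 (V.cons 10 12 V.nil) (Q.cons 5034 (V.cons 10 (-6) V.nil) (Q.cons 5295 (V.cons 3 (-34) V.nil) (Q.cons 5355 (V.cons 3 142 V.nil) (Q.cons 5547 (V.cons 3 110 V.nil) (Q.cons 5802 (V.cons 10 (-6) V.nil) (Q.cons 7338 (V.cons 10 (-12) V.nil) (Q.cons 20139 (V.cons 3 6 V.nil) (Q.cons 23211 (V.cons 3 6 V.nil) Q.nil)))))))))))))))))))))))))))))))))))))))))))))),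
  (Q.cons 10 (V.cons 342 (-10) (V.cons 348 8 (V.cons 372 20 (V.cons 1206 (-6) (V.cons 1242 (-2) (V.cons 1260 (-4) (V.cons 1266 (-2) (V.cons 1326 10 (V.cons 1338 2 (V.cons 1386 (-8) (V.cons 1452 (-10) (V.cons 1482 (-10) (V.cons 4782 6 (V.cons 5034 6 V.nil)))))))))))))) (Q.cons 13 (V.cons 1199 (-4) (V.cons 1259 4 V.nil)) (Q.cons 20 (V.cons 86 4 (V.cons 92 4 (V.cons 98 2 (V.cons 302 (-8) (V.cons 314 4 (V.cons 362 (-4) V.nil)))))) (Q.cons 22 (V.cons 84 (-4) (V.cons 300 4 V.nil)) (Q.cons 28 (V.cons 84 (-4) (V.cons 300 4 V.nil)) (Q.cons 34 (V.cons 84 (-2) (V.cons 300 2 V.nil)) (Q.cons 43 (V.cons 311 (-4) (V.cons 317 4 (V.cons 335 2 (V.cons 347 2 (V.cons 365 (-2) (V.cons 371 2 (V.cons 1199 6 (V.cons 1211 (-2) (V.cons 1259 (-8) V.nil))))))))) (Q.cons 44 (V.cons 86 (-4) (V.cons 92 (-4) (V.cons 98 (-2) (V.cons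 302 8 (V.cons 314 (-4) (V.cons 362 4 V.nil)))))) (Q.cons 46 (V.cons 84 8 (V.cons 300 (-8) V.nil)) (Q.cons 55 (V.cons 299 (-4) V.nil) (Q.cons 58 (V.cons 84 (-4) (V.cons 300 4 V.nil)) (Q.cons 61 (V.cons 299 4 V.nil) (Q.cons 79 (V.cons 299 2 V.nil) (Q.cons 86 (V.cons 74 2 V.nil) (Q.cons 91 (V.cons 299 2 V.nil) (Q.cons 98 (V.cons 74 (-4) V.nil) (Q.cons 106 (V.cons 84 4 (V.cons 300 (-4) V.nil)) (Q.cons 109 (V.cons 299 (-2) V.nil) (Q.cons 115 (V.cons 299 2 V.nil) (Q.cons 116 (V.cons 74 4 V.nil) (Q.cons 175 (V.cons 77 (-4) (V.cons 299 6 V.nil)) (Q.cons 182 (V.cons 74 10 V.nil) (Q.cons 187 (V.cons 299 (-2) V.nil) (Q.cons 218 (V.cons 74 14 V.nil) (Q.cons 235 (V.cons 77 4 (V.cons 299 (-8) V.nil)) (Q.cons 242 (V.cons 74 6 V.nil) (Q.cons 302 (V.cons 74 (-6) V.nil) (Q.cons 314 (V.cons 74 (-14) V.nil) (Q.cons 428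 (V.cons 74 6 V.nil) (Q.cons 458 (V.cons 74 (-10) V.nil) (Q.cons 686 (V.cons 74 (-6) V.nil) (Q.cons 938 (V.cons 74 (-6) V.nil) Q.nil)))))))))))))))))))))))))))))))),
  (Q.cons 4 (V.cons 1326 2 (V.cons 10926 (-1) V.nil)) (Q.cons 10 (V.cons 348 (-9) (V.cons 372 (-8) (V.cons 1206 (-1) (V.cons 1242 (-6) (V.cons 1260 1 (V.cons 1266 (-2) (V.cons 1338 6 (V.cons 1386 9 (V.cons 1452 1 (V.cons 1482 8 (V.cons 3498 2 (V.cons 5034 (-1) (V.cons 5802 (-1) V.nil))))))))))))) (Q.cons 13 (V.cons 2735 1 V.nil) (Q.cons 19 (V.cons 221 6 (V.cons 245 2 (V.cons 311 (-6) (V.cons 317 (-8) (V.cons 335 4 (V.cons 347 (-4) (V.cons 365 (-8) (V.cons 371 6 (V.cons 875 (-4) (V.cons 971 (-2) (V.cons 1211 4 (V.cons 1259 6 (V.cons 1451 2 V.nil))))))))))))) (Q.cons 20 (V.cons 686 1 V.nil) (Q.cons 22 (V.cons 330 2 (V.cons 2730 (-1) V.nil))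 (Q.cons 43 (V.cons 221 (-3) (V.cons 245 (-1) (V.cons 311 3 (V.cons 317 4 (V.cons 335 (-2) (V.cons 347 2 (V.cons 365 4 (V.cons 371 (-3) (V.cons 875 2 (V.cons 971 1 (V.cons 1211 (-2) (V.cons 1259 (-3) (V.cons 1451 (-1) V.nil))))))))))))) (Q.cons 46 (V.cons 684 (-1) V.nil) (Q.cons 55 (V.cons 683 1 V.nil) (Q.cons 74 (V.cons 686 (-1) V.nil) (Q.cons 79 (V.cons 173 (-2) V.nil) (Q.cons 86 (V.cons 170 1 V.nil) (Q.cons 175 (V.cons 173 1 V.nil) (Q.cons 302 (V.cons 170 (-1) V.nil) Q.nil)))))))))))))),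
  (Q.cons 3 (V.cons 1341 (-12) (V.cons 1359 4 (V.cons 1395 (-6) (V.cons 5295 (-4) (V.cons 5355 12 (V.cons 5547 6 V.nil)))))) (Q.cons 4 (V.cons 342 2 (V.cons 348 4 (V.cons 1206 (-1) (V.cons 1242 3 (V.cons 1260 1 (V.cons 1266 (-1) (V.cons 1326 (-1) (V.cons 1338 (-3) (V.cons 1386 (-4) (V.cons 1452 1 (V.cons 1482 1 (V.cons 5802 (-2) V.nil)))))))))))) (Q.cons 10 (V.cons 342 (-2) (V.cons 348 4 (V.cons 372 8 (V.cons 1206 1 (V.cons 1242 3 (V.cons 1260 (-1) (V.cons 1266 1 (V.cons 1326 1 (V.cons 1338 (-3) (V.cons 1386 (-4) (V.cons 1452 (-3) (V.cons 1482 (-5) V.nil)))))))))))) (Q.cons 13 (V.cons 311 (-1) (V.cons 317 (-1) (V.cons 335 1 (V.cons 347 (-1) (V.cons 365 (-1) (V.cons 371 (-1) (V.cons 1211 1 (V.cons 1259 1 (V.cons 1451 2 V.nil))))))))) (Q.cons 19 (V.cons 221 (-4) (V.cons 311 2 (V.cons 317 6 (V.cons 335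 (-2) (V.cons 347 2 (V.cons 365 2 (V.cons 371 (-2) (V.cons 1211 (-2) (V.cons 1259 (-2) V.nil))))))))) (Q.cons 20 (V.cons 98 1 V.nil) (Q.cons 43 (V.cons 221 2 (V.cons 311 (-1) (V.cons 317 (-3) (V.cons 335 1 (V.cons 347 (-1) (V.cons 365 (-1) (V.cons 371 1 (V.cons 1211 1 (V.cons 1259 1 V.nil))))))))) (Q.cons 74 (V.cons 98 (-1) V.nil) Q.nil)))))))),
  (Q.cons 28 (V.cons 330 2 (V.cons 2730 (-1) V.nil)) (Q.cons 106 (V.cons 684 (-1) V.nil) (Q.cons 109 (V.cons 683 1 V.nil) (Q.cons 115 (V.cons 173 (-2) V.nil) (Q.cons 116 (V.cons 170 1 V.nil) (Q.cons 427 (V.cons 173 1 V.nil) (Q.cons 458 (V.cons 170 (-1) V.nil) Q.nil))))))),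
  (Q.cons 10 (V.cons 1242 1 (V.cons 1338 (-1) V.nil)) (Q.cons 13 (V.cons 347 2 (V.cons 1211 (-1) V.nil)) (Q.cons 20 (V.cons 86 2 (V.cons 302 (-1) (V.cons 314 1 V.nil))) (Q.cons 43 (V.cons 311 (-1) (V.cons 335 1 (V.cons 347 (-1) V.nil))) (Q.cons 44 (V.cons 314 (-1) V.nil) (Q.cons 46 (V.cons 84 1 (V.cons 330 (-1) V.nil)) (Q.cons 55 (V.cons 83 2 (V.cons 299 (-1) V.nil)) (Q.cons 86 (V.cons 20 3 (V.cons 74 1 V.nil)) (Q.cons 116 (V.cons 20 (-3) V.nil) (Q.cons 170 (V.cons 86 (-1) V.nil) (Q.cons 175 (V.cons 83 (-1) V.nil) (Q.cons 182 (V.cons 20 (-1) (V.cons 74 (-1) V.nil)) (Q.cons 187 (V.cons 77 (-1) (V.cons 83 1 V.nil)) (Q.cons 218 (V.cons 20 3 (V.cons 74 (-1) V.nil)) (Q.cons 221 (V.cons 19 2 V.nil) (Q.cons 236 (V.cons 20 2 V.nil) (Q.cons 242 (V.cons 20 (-1) V.nil) (Q.cons 302 (V.cons 20 (-2) V.nil) (Q.cons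 311 (V.cons 19 (-2) V.nil) (Q.cons 314 (V.cons 20 (-2) V.nil) (Q.cons 317 (V.cons 19 (-2) V.nil) (Q.cons 335 (V.cons 19 2 V.nil) (Q.cons 347 (V.cons 19 (-1) V.nil) (Q.cons 365 (V.cons 19 (-2) V.nil) (Q.cons 371 (V.cons 19 1 V.nil) (Q.cons 428 (V.cons 20 2 V.nil) (Q.cons 458 (V.cons 20 1 V.nil) (Q.cons 461 (V.cons 19 (-1) V.nil) (Q.cons 467 (V.cons 19 (-1) V.nil) (Q.cons 875 (V.cons 19 (-2) V.nil) (Q.cons 938 (V.cons 20 (-1) V.nil) (Q.cons 1211 (V.cons 19 1 V.nil) (Q.cons 1259 (V.cons 19 2 V.nil) (Q.cons 1451 (V.cons 19 1 V.nil) (Q.cons 1835 (V.cons 19 2 V.nil) Q.nil))))))))))))))))))))))))))))))))))),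
  (Q.cons 109 (V.cons 83 2 (V.cons 683 (-1) V.nil)) (Q.cons 116 (V.cons 44 2 V.nil) (Q.cons 427 (V.cons 173 (-1) V.nil) (Q.cons 428 (V.cons 170 (-1) V.nil) (Q.cons 1706 (V.cons 44 (-1) V.nil) Q.nil))))),
  (Q.cons 43 (V.cons 245 (-1) (V.cons 971 1 V.nil)) (Q.cons 44 (V.cons 242 2 (V.cons 938 (-1) V.nil)) (Q.cons 83 (V.cons 61 (-2) V.nil) (Q.cons 170 (V.cons 236 (-1) V.nil) (Q.cons 173 (V.cons 235 1 V.nil) (Q.cons 683 (V.cons 61 1 V.nil) Q.nil))))))]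

def lits8_7_4 : List Q := [
  (Q.cons 170 (V.cons 92 (-2) (V.cons 182 (-2) (V.cons 218 (-2) (V.cons 302 2 (V.cons 314 2 (V.cons 362 2 V.nil)))))) (Q.cons 173 (V.cons 25 2 (V.cons 55 (-1) (V.cons 61 (-1) (V.cons 79 (-1) (V.cons 91 (-1) (V.cons 175 2 (V.cons 187 1 (V.cons 235 1 V.nil)))))))) (Q.cons 221 (V.cons 13 (-4) (V.cons 19 4 V.nil)) (Q.cons 245 (V.cons 13 3 (V.cons 19 (-3) V.nil)) (Q.cons 311 (V.cons 13 4 (V.cons 19 (-4) V.nil)) (Q.cons 317 (V.cons 13 6 (V.cons 19 (-6) V.nil)) (Q.cons 330 (V.cons 22 2 (V.cons 46 (-2) V.nil)) (Q.cons 335 (V.cons 13 (-6) (V.cons 19 6 V.nil)) (Q.cons 342 (V.cons 4 15 (V.cons 10 (-14) V.nil)) (Q.cons 347 (V.cons 13 2 (V.cons 19 (-2) V.nil)) (Q.cons 348 (V.cons 4 (-27) (V.cons 10 30 V.nil)) (Q.cons 365 (V.cons 13 6 (V.cons 19 (-6) V.nil)) (Q.cons 371 (V.cons 13 (-5)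 (V.cons 19 5 V.nil)) (Q.cons 372 (V.cons 4 (-34) (V.cons 10 48 V.nil)) (Q.cons 461 (V.cons 13 5 (V.cons 19 (-5) V.nil)) (Q.cons 467 (V.cons 13 (-4) (V.cons 19 4 V.nil)) (Q.cons 468 (V.cons 4 2 V.nil) (Q.cons 683 (V.cons 25 (-1) V.nil) (Q.cons 684 (V.cons 22 (-2) (V.cons 46 2 V.nil)) (Q.cons 875 (V.cons 13 1 (V.cons 19 (-1) V.nil)) (Q.cons 941 (V.cons 13 (-2) (V.cons 19 2 V.nil)) (Q.cons 971 (V.cons 13 (-1) (V.cons 19 1 V.nil)) (Q.cons 978 (V.cons 4 (-2) V.nil) (Q.cons 1206 (V.cons 4 (-12) (V.cons 10 11 V.nil)) (Q.cons 1211 (V.cons 13 (-2) (V.cons 19 2 V.nil)) (Q.cons 1242 (V.cons 4 (-18) (V.cons 10 25 V.nil)) (Q.cons 1259 (V.cons 13 (-3) (V.cons 19 3 V.nil)) (Q.cons 1260 (V.cons 4 3 (V.cons 10 (-7) V.nil)) (Q.cons 1266 (V.cons 4 (-7) (V.cons 10 9 V.nil)) (Q.cons 1269 (V.cons 3 (-2) V.nil) (Q.cons 1326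 (V.cons 4 (-5) (V.cons 10 3 V.nil)) (Q.cons 1338 (V.cons 4 18 (V.cons 10 (-25) V.nil)) (Q.cons 1341 (V.cons 3 (-14) V.nil) (Q.cons 1359 (V.cons 3 2 V.nil) (Q.cons 1386 (V.cons 4 27 (V.cons 10 (-30) V.nil)) (Q.cons 1395 (V.cons 3 (-10) V.nil) (Q.cons 1451 (V.cons 13 (-1) (V.cons 19 1 V.nil)) (Q.cons 1452 (V.cons 4 3 (V.cons 10 (-7) V.nil)) (Q.cons 1482 (V.cons 4 31 (V.cons 10 (-41) V.nil)) (Q.cons 1491 (V.cons 3 (-2) V.nil) (Q.cons 1835 (V.cons 13 (-1) (V.cons 19 1 V.nil)) (Q.cons 2735 (V.cons 13 2 (V.cons 19 (-2) V.nil)) (Q.cons 3498 (V.cons 4 4 (V.cons 10 (-2) V.nil)) (Q.cons 3756 (V.cons 4 2 V.nil) (Q.cons 5295 (V.cons 3 (-2) V.nil) (Q.cons 5355 (V.cons 3 14 V.nil) (Q.cons 5547 (V.cons 3 10 V.nil) (Q.cons 7338 (V.cons 4 (-2) V.nil) (Q.cons 10926 (V.cons 4 2 V.nil) (Q.cons 20139 (V.cons 3 2 V.nil)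 (Q.cons 23211 (V.cons 3 2 V.nil) Q.nil))))))))))))))))))))))))))))))))))))))))))))))))))),
  (Q.cons 74 (V.cons 218 1 (V.cons 314 (-1) V.nil)) (Q.cons 77 (V.cons 91 2 (V.cons 187 (-1) V.nil)) (Q.cons 84 (V.cons 22 2 (V.cons 46 (-1) (V.cons 58 1 V.nil))) (Q.cons 299 (V.cons 55 (-1) (V.cons 79 1 (V.cons 91 (-1) V.nil))) (Q.cons 300 (V.cons 58 (-1) V.nil) (Q.cons 302 (V.cons 20 1 (V.cons 74 (-1) V.nil)) (Q.cons 311 (V.cons 19 2 (V.cons 43 (-1) V.nil)) (Q.cons 342 (V.cons 4 3 (V.cons 10 1 V.nil)) (Q.cons 372 (V.cons 4 (-3) V.nil) (Q.cons 1194 (V.cons 22 (-1) V.nil) (Q.cons 1199 (V.cons 19 (-1) V.nil) (Q.cons 1206 (V.cons 4 (-1) (V.cons 10 (-1) V.nil)) (Q.cons 1211 (V.cons 13 (-1) (V.cons 19 1 V.nil)) (Q.cons 1242 (V.cons 4 3 (V.cons 10 (-1) V.nil)) (Q.cons 1260 (V.cons 4 2 V.nil) (Q.cons 1266 (V.cons 4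 (-1) V.nil) (Q.cons 1326 (V.cons 4 (-2) V.nil) (Q.cons 1338 (V.cons 4 (-2) V.nil) (Q.cons 1452 (V.cons 4 2 V.nil) (Q.cons 1482 (V.cons 4 1 V.nil) (Q.cons 5034 (V.cons 4 (-1) V.nil) Q.nil))))))))))))))))))))),
  (Q.cons 116 (V.cons 20 1 (V.cons 74 (-1) V.nil)) (Q.cons 348 (V.cons 4 (-2) V.nil) (Q.cons 372 (V.cons 4 (-1) V.nil) (Q.cons 467 (V.cons 13 (-1) (V.cons 19 2 (V.cons 43 (-1) V.nil))) (Q.cons 468 (V.cons 4 1 (V.cons 10 (-1) V.nil)) (Q.cons 1242 (V.cons 4 (-1) V.nil) (Q.cons 1338 (V.cons 4 1 V.nil) (Q.cons 1341 (V.cons 3 (-3) V.nil) (Q.cons 1359 (V.cons 3 1 V.nil) (Q.cons 1386 (V.cons 4 2 V.nil) (Q.cons 1395 (V.cons 3 (-1) V.nil) (Q.cons 1482 (V.cons 4 1 V.nil) (Q.cons 5295 (V.cons 3 (-1) V.nil) (Q.cons 5355 (V.cons 3 3 V.nil) (Q.cons 5547 (V.cons 3 1 V.nil) Q.nil))))))))))))))),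
  (Q.cons 3 (V.cons 1359 1 (V.cons 5295 (-1) V.nil)) (Q.cons 10 (V.cons 342 (-1) (V.cons 1206 1 V.nil)) (Q.cons 13 (V.cons 1199 (-1) V.nil) (Q.cons 15 (V.cons 339 1 (V.cons 1323 (-1) V.nil)) (Q.cons 19 (V.cons 1199 1 V.nil) (Q.cons 20 (V.cons 302 (-1) V.nil) (Q.cons 43 (V.cons 311 1 (V.cons 335 (-1) V.nil)) (Q.cons 44 (V.cons 302 1 V.nil) (Q.cons 46 (V.cons 84 (-1) (V.cons 300 1 V.nil)) (Q.cons 55 (V.cons 299 (-1) V.nil) (Q.cons 79 (V.cons 299 1 V.nil) (Q.cons 83 (V.cons 79 (-1) V.nil) (Q.cons 86 (V.cons 74 (-1) V.nil) (Q.cons 175 (V.cons 77 1 (V.cons 83 (-1) V.nil)) (Q.cons 182 (V.cons 74 1 V.nil) (Q.cons 299 (V.cons 79 1 V.nil) (Q.cons 335 (V.cons 19 (-1) V.nil) (Q.cons 1199 (V.cons 19 1 V.nil) Q.nil)))))))))))))))))),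
  (Q.cons 20 (V.cons 686 (-1) V.nil) (Q.cons 43 (V.cons 221 (-3) (V.cons 245 (-1) (V.cons 311 3 (V.cons 317 4 (V.cons 335 (-3) (V.cons 347 2 (V.cons 365 4 (V.cons 371 (-3) (V.cons 875 2 (V.cons 971 1 (V.cons 1211 (-2) (V.cons 1259 (-3) (V.cons 1451 (-1) V.nil))))))))))))) (Q.cons 44 (V.cons 686 1 V.nil) (Q.cons 83 (V.cons 175 (-1) V.nil) (Q.cons 86 (V.cons 170 (-1) V.nil) (Q.cons 170 (V.cons 86 1 (V.cons 182 (-1) V.nil)) (Q.cons 173 (V.cons 175 1 V.nil) (Q.cons 175 (V.cons 83 (-1) (V.cons 173 1 V.nil)) (Q.cons 182 (V.cons 170 1 V.nil) (Q.cons 221 (V.cons 43 (-3) V.nil) (Q.cons 245 (V.cons 43 (-1) V.nil) (Q.cons 311 (V.cons 43 3 V.nil) (Q.cons 317 (V.cons 43 4 V.nil) (Q.cons 335 (V.cons 43 (-3) V.nil) (Q.cons 347 (V.cons 43 2 V.nil) (Q.cons 365 (V.cons 43 4 V.nil) (Q.cons 371 (V.cons 43 (-3) V.nil) (Q.cons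 461 (V.cons 43 3 V.nil) (Q.cons 467 (V.cons 43 (-2) V.nil) (Q.cons 686 (V.cons 20 1 (V.cons 44 (-1) V.nil)) (Q.cons 875 (V.cons 43 2 V.nil) (Q.cons 971 (V.cons 43 1 V.nil) (Q.cons 1211 (V.cons 43 (-2) V.nil) (Q.cons 1259 (V.cons 43 (-3) V.nil) (Q.cons 1451 (V.cons 43 (-1) V.nil) (Q.cons 1835 (V.cons 43 (-1) V.nil) Q.nil)))))))))))))))))))))))))),
  (Q.cons 43 (V.cons 221 2 (V.cons 311 (-2) (V.cons 317 (-2) (V.cons 335 2 (V.cons 365 (-2) (V.cons 371 1 (V.cons 875 (-2) (V.cons 1259 2 (V.cons 1451 1 V.nil))))))))) (Q.cons 83 (V.cons 187 1 V.nil) (Q.cons 86 (V.cons 44 (-3) (V.cons 74 3 V.nil)) (Q.cons 116 (V.cons 44 3 (V.cons 74 (-3) V.nil)) (Q.cons 170 (V.cons 182 1 (V.cons 218 (-1) (V.cons 302 (-1) (V.cons 314 1 V.nil)))) (Q.cons 173 (V.cons 187 (-1) V.nil) (Q.cons 175 (V.cons 83 1 (V.cons 299 (-1) V.nil))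 (Q.cons 182 (V.cons 44 1 (V.cons 74 (-1) V.nil)) (Q.cons 218 (V.cons 44 (-1) (V.cons 74 1 V.nil)) (Q.cons 221 (V.cons 13 (-5) (V.cons 19 5 (V.cons 43 3 V.nil))) (Q.cons 236 (V.cons 44 (-2) (V.cons 74 2 V.nil)) (Q.cons 242 (V.cons 44 1 (V.cons 74 (-1) V.nil)) (Q.cons 245 (V.cons 43 1 V.nil) (Q.cons 302 (V.cons 44 2 (V.cons 74 (-2) V.nil)) (Q.cons 311 (V.cons 13 5 (V.cons 19 (-5) (V.cons 43 (-3) V.nil))) (Q.cons 314 (V.cons 44 2 (V.cons 74 (-2) V.nil)) (Q.cons 317 (V.cons 13 4 (V.cons 19 (-4) (V.cons 43 (-4) V.nil))) (Q.cons 330 (V.cons 58 (-1) V.nil) (Q.cons 335 (V.cons 13 (-5) (V.cons 19 5 (V.cons 43 3 V.nil))) (Q.cons 342 (V.cons 10 1 V.nil) (Q.cons 347 (V.cons 13 6 (V.cons 19 (-6) (V.cons 43 (-2) V.nil))) (Q.cons 348 (V.cons 10 1 V.nil) (Q.cons 365 (V.cons 13 4 (V.cons 19 (-4) (V.cons 43 (-4) V.nil)))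 (Q.cons 371 (V.cons 13 (-1) (V.cons 19 1 (V.cons 43 3 V.nil))) (Q.cons 372 (V.cons 10 (-1) V.nil) (Q.cons 428 (V.cons 44 (-2) (V.cons 74 2 V.nil)) (Q.cons 458 (V.cons 44 (-1) (V.cons 74 1 V.nil)) (Q.cons 461 (V.cons 13 1 (V.cons 19 (-1) (V.cons 43 (-3) V.nil))) (Q.cons 467 (V.cons 13 4 (V.cons 19 (-4) (V.cons 43 2 V.nil))) (Q.cons 683 (V.cons 55 1 (V.cons 79 (-1) V.nil)) (Q.cons 684 (V.cons 58 1 V.nil) (Q.cons 686 (V.cons 20 (-1) (V.cons 74 1 V.nil)) (Q.cons 875 (V.cons 13 9 (V.cons 19 (-9) (V.cons 43 (-2) V.nil))) (Q.cons 938 (V.cons 44 1 (V.cons 74 (-1) V.nil)) (Q.cons 971 (V.cons 13 1 (V.cons 19 (-1) (V.cons 43 (-1) V.nil))) (Q.cons 1206 (V.cons 10 1 V.nil) (Q.cons 1211 (V.cons 13 (-5) (V.cons 19 5 (V.cons 43 2 V.nil))) (Q.cons 1242 (V.cons 10 2 V.nil) (Q.cons 1259 (V.cons 13 (-8) (V.cons 19 8 (V.cons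 43 3 V.nil))) (Q.cons 1269 (V.cons 3 1 V.nil) (Q.cons 1326 (V.cons 10 (-2) V.nil) (Q.cons 1338 (V.cons 10 (-2) V.nil) (Q.cons 1341 (V.cons 3 19 V.nil) (Q.cons 1359 (V.cons 3 (-4) V.nil) (Q.cons 1386 (V.cons 10 (-1) V.nil) (Q.cons 1395 (V.cons 3 15 V.nil) (Q.cons 1451 (V.cons 13 (-3) (V.cons 19 3 (V.cons 43 1 V.nil))) (Q.cons 1491 (V.cons 3 1 V.nil) (Q.cons 1835 (V.cons 13 (-5) (V.cons 19 5 (V.cons 43 1 V.nil))) (Q.cons 3498 (V.cons 10 (-1) V.nil) (Q.cons 3755 (V.cons 13 (-1) (V.cons 19 1 V.nil)) (Q.cons 5034 (V.cons 10 1 V.nil) (Q.cons 5295 (V.cons 3 4 V.nil) (Q.cons 5355 (V.cons 3 (-19) V.nil) (Q.cons 5547 (V.cons 3 (-15) V.nil) (Q.cons 5802 (V.cons 10 1 V.nil) (Q.cons 20139 (V.cons 3 (-1) V.nil) (Q.cons 23211 (V.cons 3 (-1) V.nil) Q.nil)))))))))))))))))))))))))))))))))))))))))))))))))))))))))),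
  (Q.cons 115 (V.cons 83 1 (V.cons 299 (-1) V.nil)) (Q.cons 348 (V.cons 10 (-1) V.nil) (Q.cons 372 (V.cons 10 (-2) V.nil) (Q.cons 458 (V.cons 20 (-1) (V.cons 44 1 V.nil)) (Q.cons 461 (V.cons 43 (-1) V.nil) (Q.cons 467 (V.cons 43 1 V.nil) (Q.cons 1242 (V.cons 10 (-1) V.nil) (Q.cons 1338 (V.cons 10 1 V.nil) (Q.cons 1341 (V.cons 3 3 V.nil) (Q.cons 1359 (V.cons 3 (-1) V.nil) (Q.cons 1386 (V.cons 10 1 V.nil) (Q.cons 1395 (V.cons 3 1 V.nil) (Q.cons 1482 (V.cons 10 2 V.nil) (Q.cons 1835 (V.cons 13 1 (V.cons 19 (-1) V.nil)) (Q.cons 5295 (V.cons 3 1 V.nil) (Q.cons 5355 (V.cons 3 (-3) V.nil) (Q.cons 5547 (V.cons 3 (-1) V.nil) Q.nil))))))))))))))))),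
  (Q.cons 0 (V.cons 1396 (-4) (V.cons 22186 4 V.nil)) (Q.cons 3 (V.cons 1269 6 (V.cons 1341 288 (V.cons 1359 (-58) (V.cons 1395 232 (V.cons 1491 6 (V.cons 5295 58 (V.cons 5355 (-288) (V.cons 5547 (-232) (V.cons 20139 (-6) (V.cons 23211 (-6) V.nil)))))))))) (Q.cons 4 (V.cons 342 (-54) (V.cons 348 28 (V.cons 372 132 (V.cons 978 4 (V.cons 1206 28 (V.cons 1242 34 (V.cons 1260 (-30) (V.cons 1266 14 (V.cons 1326 26 (V.cons 1338 (-36) (V.cons 1386 (-26) (V.cons 1452 (-30) (V.cons 1482 (-90) (V.cons 3498 28 (V.cons 5034 (-12) (V.cons 5802 (-12) (V.cons 15018 (-4) V.nil))))))))))))))))) (Q.cons 9 (V.cons 10923 2 V.nil) (Q.cons 10 (V.cons 342 34 (V.cons 348 (-70) (V.cons 372 (-134) (V.cons 1206 (-24) (V.cons 1242 (-62) (V.cons 1260 26 (V.cons 1266 (-20) (V.cons 1326 (-12) (V.cons 1338 64 (V.cons 1386 68 (V.cons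 1452 26 (V.cons 1482 106 (V.cons 3498 (-8) (V.cons 3756 (-2) (V.cons 5034 2 (V.cons 5802 2 (V.cons 10926 2 (V.cons 15018 2 V.nil)))))))))))))))))) (Q.cons 13 (V.cons 221 (-10) (V.cons 311 10 (V.cons 317 8 (V.cons 335 (-10) (V.cons 347 12 (V.cons 365 8 (V.cons 371 (-2) (V.cons 875 18 (V.cons 971 2 (V.cons 1211 (-10) (V.cons 1259 (-16) (V.cons 1451 (-6) (V.cons 3755 (-2) V.nil))))))))))))) (Q.cons 15 (V.cons 1323 (-2) (V.cons 10923 2 V.nil)) (Q.cons 19 (V.cons 221 20 (V.cons 311 (-20) (V.cons 317 (-16) (V.cons 335 20 (V.cons 347 (-24) (V.cons 365 (-16) (V.cons 371 4 (V.cons 875 (-36) (V.cons 971 (-4) (V.cons 1211 20 (V.cons 1259 32 (V.cons 1451 12 (V.cons 2735 2 (V.cons 3755 4 V.nil)))))))))))))) (Q.cons 20 (V.cons 686 2 V.nil) (Q.cons 22 (V.cons 2730 (-2) V.nil) (Q.cons 27 (V.cons 1323 4 (V.cons 2733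 (-2) (V.cons 10923 (-2) V.nil))) (Q.cons 28 (V.cons 2730 2 V.nil) (Q.cons 34 (V.cons 2730 2 V.nil) (Q.cons 43 (V.cons 221 (-18) (V.cons 245 6 (V.cons 311 18 (V.cons 317 20 (V.cons 335 (-22) (V.cons 347 16 (V.cons 365 20 (V.cons 371 (-12) (V.cons 875 20 (V.cons 941 (-4) (V.cons 1211 (-14) (V.cons 1259 (-22) (V.cons 1451 (-8) (V.cons 2735 2 (V.cons 3755 (-2) V.nil))))))))))))))) (Q.cons 46 (V.cons 2730 2 V.nil) (Q.cons 58 (V.cons 684 (-2) (V.cons 2730 2 V.nil)) (Q.cons 74 (V.cons 686 (-2) V.nil) (Q.cons 91 (V.cons 683 2 V.nil) (Q.cons 106 (V.cons 684 2 (V.cons 2730 (-4) V.nil)) (Q.cons 115 (V.cons 683 (-2) V.nil) (Q.cons 187 (V.cons 683 (-2) V.nil) (Q.cons 427 (V.cons 683 2 V.nil) Q.nil)))))))))))))))))))))),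
  (Q.cons 3 (V.cons 1341 6 (V.cons 1395 4 (V.cons 5355 (-6) (V.cons 5547 (-4) V.nil)))) (Q.cons 4 (V.cons 342 (-8) (V.cons 348 (-4) (V.cons 372 12 (V.cons 1206 3 (V.cons 1242 (-1) (V.cons 1260 (-5) (V.cons 1266 3 (V.cons 1326 5 (V.cons 1338 1 (V.cons 1386 4 (V.cons 1452 (-5) (V.cons 1482 (-7) (V.cons 5034 2 V.nil))))))))))))) (Q.cons 10 (V.cons 342 2 (V.cons 372 (-8) (V.cons 1206 (-3) (V.cons 1242 (-3) (V.cons 1260 1 (V.cons 1266 (-1) (V.cons 1326 1 (V.cons 1338 3 (V.cons 1452 1 (V.cons 1482 7 V.nil)))))))))) (Q.cons 13 (V.cons 311 1 (V.cons 317 1 (V.cons 335 (-1) (V.cons 347 (-1) (V.cons 365 1 (V.cons 371 (-1) (V.cons 1211 1 (V.cons 1259 (-1) V.nil)))))))) (Q.cons 19 (V.cons 221 4 (V.cons 311 (-6) (V.cons 317 (-6) (V.cons 335 8 (V.cons 365 (-8) (V.cons 371 8 (V.cons 1199 (-2) (V.cons 1259 2 V.nil))))))))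 (Q.cons 20 (V.cons 86 (-2) (V.cons 92 (-2) (V.cons 98 (-1) (V.cons 302 2 (V.cons 362 2 V.nil))))) (Q.cons 22 (V.cons 84 (-2) (V.cons 330 2 V.nil)) (Q.cons 25 (V.cons 83 2 (V.cons 299 (-1) V.nil)) (Q.cons 28 (V.cons 84 (-2) (V.cons 330 2 V.nil)) (Q.cons 34 (V.cons 84 (-1) (V.cons 330 1 V.nil)) (Q.cons 43 (V.cons 221 (-2) (V.cons 311 3 (V.cons 317 3 (V.cons 335 (-3) (V.cons 347 1 (V.cons 365 3 (V.cons 371 (-3) (V.cons 1211 (-1) (V.cons 1259 (-1) V.nil))))))))) (Q.cons 46 (V.cons 84 2 (V.cons 330 (-2) V.nil)) (Q.cons 55 (V.cons 77 (-1) V.nil) (Q.cons 61 (V.cons 77 (-1) V.nil) (Q.cons 74 (V.cons 86 2 (V.cons 92 2 (V.cons 98 1 (V.cons 302 (-2) (V.cons 362 (-2) V.nil))))) (Q.cons 79 (V.cons 77 1 (V.cons 83 (-2) V.nil)) (Q.cons 86 (V.cons 20 (-4) V.nil) (Q.cons 91 (V.cons 77 1 (V.cons 83 (-2) V.nil)) (Q.cons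 92 (V.cons 74 (-2) V.nil) (Q.cons 98 (V.cons 20 2 (V.cons 74 (-1) V.nil)) (Q.cons 106 (V.cons 84 2 (V.cons 330 (-2) V.nil)) (Q.cons 109 (V.cons 77 (-1) (V.cons 83 2 V.nil)) (Q.cons 115 (V.cons 77 1 (V.cons 83 (-2) V.nil)) (Q.cons 116 (V.cons 20 4 (V.cons 74 (-4) V.nil)) (Q.cons 175 (V.cons 83 2 V.nil) (Q.cons 182 (V.cons 20 1 (V.cons 74 (-2) V.nil)) (Q.cons 187 (V.cons 77 (-1) (V.cons 83 2 V.nil)) (Q.cons 218 (V.cons 20 (-3) (V.cons 74 (-2) V.nil)) (Q.cons 221 (V.cons 19 4 V.nil) (Q.cons 235 (V.cons 77 1 V.nil) (Q.cons 236 (V.cons 20 (-3) V.nil) (Q.cons 242 (V.cons 20 1 V.nil) (Q.cons 302 (V.cons 20 3 (V.cons 74 2 V.nil)) (Q.cons 311 (V.cons 19 (-4) V.nil) (Q.cons 314 (V.cons 20 3 (V.cons 74 2 V.nil)) (Q.cons 317 (V.cons 19 (-4) V.nil) (Q.cons 335 (V.cons 19 4 V.nil) (Q.cons 362 (V.cons 74 2 V.nil)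 (Q.cons 365 (V.cons 19 (-4) V.nil) (Q.cons 371 (V.cons 19 4 V.nil) (Q.cons 428 (V.cons 20 (-3) V.nil) (Q.cons 458 (V.cons 20 (-1) (V.cons 74 4 V.nil)) (Q.cons 461 (V.cons 19 (-2) V.nil) (Q.cons 467 (V.cons 19 2 V.nil) (Q.cons 875 (V.cons 19 (-2) V.nil) (Q.cons 938 (V.cons 20 2 V.nil) (Q.cons 1259 (V.cons 19 2 V.nil) Q.nil))))))))))))))))))))))))))))))))))))))))))))))),
  (Q.cons 3 (V.cons 1341 9 (V.cons 1359 (-2) (V.cons 1395 7 (V.cons 5295 2 (V.cons 5355 (-9) (V.cons 5547 (-7) V.nil)))))) (Q.cons 4 (V.cons 372 2 (V.cons 1452 (-1) V.nil)) (Q.cons 10 (V.cons 372 (-1) V.nil) (Q.cons 13 (V.cons 371 (-1) V.nil) (Q.cons 19 (V.cons 365 1 V.nil) (Q.cons 20 (V.cons 92 2 (V.cons 362 (-1) V.nil)) (Q.cons 44 (V.cons 92 (-1) V.nil) (Q.cons 77 (V.cons 91 1 V.nil) (Q.cons 83 (V.cons 91 (-1) V.nil) Q.nil)))))))))]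

def lits8_7_5 : List Q := [
  (Q.cons 10 (V.cons 342 (-5) (V.cons 348 9 (V.cons 372 18 (V.cons 1206 4 (V.cons 1242 9 (V.cons 1260 (-3) (V.cons 1266 3 (V.cons 1326 1 (V.cons 1338 (-9) (V.cons 1386 (-9) (V.cons 1452 (-3) (V.cons 1482 (-15) V.nil)))))))))))) (Q.cons 13 (V.cons 245 2 (V.cons 941 (-1) V.nil)) (Q.cons 20 (V.cons 236 (-1) V.nil) (Q.cons 43 (V.cons 245 (-1) V.nil) (Q.cons 44 (V.cons 242 1 V.nil) (Q.cons 83 (V.cons 61 2 (V.cons 235 (-1) V.nil)) (Q.cons 84 (V.cons 58 (-1) V.nil) (Q.cons 173 (V.cons 61 (-1) V.nil) (Q.cons 330 (V.cons 58 1 V.nil) Q.nil))))))))),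
  (Q.cons 43 (V.cons 311 (-1) (V.cons 335 1 V.nil)) (Q.cons 44 (V.cons 86 2 (V.cons 182 (-1) V.nil)) (Q.cons 83 (V.cons 55 1 V.nil) (Q.cons 170 (V.cons 86 (-1) V.nil) (Q.cons 173 (V.cons 79 (-1) V.nil) (Q.cons 175 (V.cons 77 (-1) (V.cons 83 1 V.nil)) (Q.cons 182 (V.cons 20 2 (V.cons 44 (-1) V.nil)) (Q.cons 221 (V.cons 19 3 V.nil) (Q.cons 245 (V.cons 19 1 V.nil) (Q.cons 311 (V.cons 19 (-3) V.nil) (Q.cons 317 (V.cons 19 (-4) V.nil) (Q.cons 330 (V.cons 22 2 (V.cons 46 (-1) V.nil)) (Q.cons 335 (V.cons 13 1 (V.cons 19 2 V.nil)) (Q.cons 339 (V.cons 15 1 V.nil) (Q.cons 347 (V.cons 19 (-2) V.nil) (Q.cons 348 (V.cons 4 (-9) V.nil) (Q.cons 365 (V.cons 19 (-4) V.nil) (Q.cons 371 (V.cons 19 3 V.nil) (Q.cons 372 (V.cons 4 (-8) V.nil) (Q.cons 461 (V.cons 19 (-3) V.nil) (Q.cons 467 (V.cons 19 2 V.nil) (Q.cons 468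 (V.cons 4 2 V.nil) (Q.cons 684 (V.cons 22 (-1) V.nil) (Q.cons 686 (V.cons 20 (-1) V.nil) (Q.cons 875 (V.cons 19 (-2) V.nil) (Q.cons 971 (V.cons 19 (-1) V.nil) (Q.cons 1206 (V.cons 4 (-1) V.nil) (Q.cons 1211 (V.cons 19 2 V.nil) (Q.cons 1242 (V.cons 4 (-6) V.nil) (Q.cons 1259 (V.cons 19 3 V.nil) (Q.cons 1260 (V.cons 4 1 V.nil) (Q.cons 1266 (V.cons 4 (-2) V.nil) (Q.cons 1323 (V.cons 15 (-1) V.nil) (Q.cons 1326 (V.cons 4 2 (V.cons 10 (-1) V.nil)) (Q.cons 1338 (V.cons 4 6 V.nil) (Q.cons 1359 (V.cons 3 1 V.nil) (Q.cons 1386 (V.cons 4 9 V.nil) (Q.cons 1451 (V.cons 19 1 V.nil) (Q.cons 1452 (V.cons 4 1 V.nil) (Q.cons 1482 (V.cons 4 8 V.nil) (Q.cons 1835 (V.cons 19 1 V.nil) (Q.cons 3498 (V.cons 4 2 V.nil) (Q.cons 5034 (V.cons 4 (-1) V.nil) (Q.cons 5295 (V.cons 3 (-1) V.nil) (Q.cons 5802 (V.cons 4 (-1) V.nil)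 (Q.cons 7338 (V.cons 4 (-2) V.nil) Q.nil)))))))))))))))))))))))))))))))))))))))))))))),
  (Q.cons 348 (V.cons 4 (-4) (V.cons 10 2 V.nil)) (Q.cons 372 (V.cons 4 (-2) (V.cons 10 1 V.nil)) (Q.cons 427 (V.cons 77 (-1) (V.cons 83 1 V.nil)) (Q.cons 428 (V.cons 20 2 (V.cons 44 (-1) V.nil)) (Q.cons 467 (V.cons 13 1 V.nil) (Q.cons 468 (V.cons 4 2 (V.cons 10 (-1) V.nil)) (Q.cons 1242 (V.cons 4 (-2) (V.cons 10 1 V.nil)) (Q.cons 1338 (V.cons 4 2 (V.cons 10 (-1) V.nil)) (Q.cons 1341 (V.cons 3 (-3) V.nil) (Q.cons 1359 (V.cons 3 1 V.nil) (Q.cons 1386 (V.cons 4 4 (V.cons 10 (-2) V.nil)) (Q.cons 1395 (V.cons 3 (-1) V.nil) (Q.cons 1482 (V.cons 4 2 (V.cons 10 (-1) V.nil)) (Q.cons 1706 (V.cons 20 (-1) V.nil) (Q.cons 1709 (V.cons 19 (-1) V.nil) (Q.cons 5295 (V.cons 3 (-1) V.nil) (Q.cons 5355 (V.cons 3 3 V.nil) (Q.cons 5547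 (V.cons 3 1 V.nil) (Q.cons 6828 (V.cons 4 (-1) V.nil) Q.nil))))))))))))))))))),
  (Q.cons 3 (V.cons 1395 (-1) (V.cons 5547 1 V.nil)) (Q.cons 10 (V.cons 342 (-5) (V.cons 348 9 (V.cons 372 18 (V.cons 1206 4 (V.cons 1242 9 (V.cons 1260 (-3) (V.cons 1266 3 (V.cons 1326 1 (V.cons 1338 (-9) (V.cons 1386 (-9) (V.cons 1452 (-3) (V.cons 1482 (-15) V.nil)))))))))))) (Q.cons 13 (V.cons 971 1 V.nil) (Q.cons 19 (V.cons 941 (-1) V.nil) (Q.cons 44 (V.cons 242 1 V.nil) (Q.cons 74 (V.cons 236 (-1) V.nil) (Q.cons 77 (V.cons 235 (-1) V.nil) (Q.cons 83 (V.cons 235 1 V.nil) (Q.cons 300 (V.cons 58 (-1) V.nil) (Q.cons 330 (V.cons 58 1 V.nil) Q.nil)))))))))),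
  (Q.cons 58 (V.cons 330 1 (V.cons 1194 (-1) V.nil)) (Q.cons 235 (V.cons 83 (-1) (V.cons 299 1 V.nil)) (Q.cons 236 (V.cons 170 (-1) V.nil) (Q.cons 242 (V.cons 170 1 V.nil) (Q.cons 342 (V.cons 10 3 V.nil) (Q.cons 348 (V.cons 10 7 V.nil) (Q.cons 468 (V.cons 10 (-3) V.nil) (Q.cons 938 (V.cons 44 1 (V.cons 74 (-1) V.nil)) (Q.cons 941 (V.cons 43 1 V.nil) (Q.cons 971 (V.cons 43 (-1) V.nil) (Q.cons 1206 (V.cons 10 (-2) V.nil) (Q.cons 1242 (V.cons 10 2 V.nil) (Q.cons 1260 (V.cons 10 1 V.nil) (Q.cons 1266 (V.cons 10 1 V.nil) (Q.cons 1269 (V.cons 3 1 V.nil) (Q.cons 1326 (V.cons 10 (-1) V.nil) (Q.cons 1338 (V.cons 10 (-2) V.nil) (Q.cons 1341 (V.cons 3 19 V.nil) (Q.cons 1359 (V.cons 3 (-4) V.nil) (Q.cons 1386 (V.cons 10 (-7) V.nil) (Q.cons 1395 (V.cons 3 15 V.nil) (Q.cons 1452 (V.cons 10 1 V.nil) (Q.cons 1482 (V.cons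 10 (-2) V.nil) (Q.cons 1491 (V.cons 3 1 V.nil) (Q.cons 3498 (V.cons 10 (-3) V.nil) (Q.cons 3755 (V.cons 13 (-1) (V.cons 19 1 V.nil)) (Q.cons 5034 (V.cons 10 1 V.nil) (Q.cons 5295 (V.cons 3 4 V.nil) (Q.cons 5355 (V.cons 3 (-19) V.nil) (Q.cons 5547 (V.cons 3 (-15) V.nil) (Q.cons 5802 (V.cons 10 1 V.nil) (Q.cons 7338 (V.cons 10 3 V.nil) (Q.cons 20139 (V.cons 3 (-1) V.nil) (Q.cons 23211 (V.cons 3 (-1) V.nil) Q.nil))))))))))))))))))))))))))))))))))]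

def lits8_7 : List Q := lits8_7_0 ++ (lits8_7_1 ++ (lits8_7_2 ++ (lits8_7_3 ++ (lits8_7_4 ++ (lits8_7_5)))))

set_option maxRecDepth 1000000
theorem rows8_7_ok : chkRows rows8_7 lits8_7 = true := by decide +kernel

end Pool.Agent.N33.SA
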