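import Pool.Agent.N33.SA.R8_0
import Pool.Agent.N33.SA.R8_1
import Pool.Agent.N33.SA.R8_2
import Pool.Agent.N33.SA.R8_3
import Pool.Agent.N33.SA.R8_4
import Pool.Agent.N33.SA.R8_5
import Pool.Agent.N33.SA.R8_6
import Pool.Agent.N33.SA.R8_7
set_option autoImplicit false

/-! The certificate of level 8. -/

noncomputable section
namespace Pool.Agent.N33.SA

def lits8 : List Q := lits8_0 ++ (lits8_1 ++ (lits8_2 ++ (lits8_3 ++ (lits8_4 ++ (lits8_5 ++ (lits8_6 ++ (lits8_7)))))))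

def tg8_0 : List TQ := [
  ⟨1, [0,0,0,0,0,0,3], [0], []⟩,
  ⟨1, [0,0,0,0,0,3], [0,0], []⟩]

def tg8_1 : List TQ := [
  ⟨1, [0,0,0,0,3], [0,0,0], []⟩,
  ⟨1, [0,0,0,0,0,0,3], [0], []⟩,
  ⟨-1, [0,0,0,0,0], [0,0,3], []⟩,
  ⟨1, [0,0,0,0,0,0], [0,3], []⟩]

def tg8_2 : List TQ := [
  ⟨1, [0,0,0,0,0,0], [0,3], []⟩,
  ⟨1, [0,0,0,0], [0,0,0,3], []⟩]

def tg8_3 : List TQ := [
  ⟨1, [0,0,0,0,0], [0,0,3], []⟩,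
  ⟨1, [0,0,0], [0,0,0,0,3], []⟩]

def tg8_4 : List TQ := [
  ⟨1, [0,0,0,0], [], [0,0,0,3]⟩,
  ⟨1, [0,0,0,0,3], [], [0,0,0]⟩,
  ⟨-1, [0,0,0,0], [], [3,0,0,0]⟩,
  ⟨-2, [0,0,0,0,0,0,3], [], [0]⟩,
  ⟨2, [0,0,0,0], [], [0,0,3,0]⟩,
  ⟨-2, [0,0,0,0,0,0,0,2], [], [0]⟩,
  ⟨2, [0,0,0,0], [], [0,0,0,2,0]⟩,
  ⟨4, [0,0,0,0,0,1,2], [], [0]⟩,
  ⟨-4, [0,0,0,0], [], [0,1,2,0]⟩,
  ⟨-2, [0,0,0,0,1,0,2], [], [0]⟩,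
  ⟨2, [0,0,0,0], [], [1,0,2,0]⟩,
  ⟨-2, [0,0,0,0,1,3], [], [0]⟩,
  ⟨2, [0,0,0,0], [], [1,3,0]⟩,
  ⟨2, [0,0,0,0,0,3], [], [0,0]⟩,
  ⟨-2, [0,0,0,0], [], [0,3,0,0]⟩,
  ⟨-2, [0,0,0,0,0,0,0,3], [], []⟩,
  ⟨2, [0,0,0,0], [], [0,0,0,3]⟩,
  ⟨-2, [0,0,0,0,0,0,0,0,2], [], []⟩,
  ⟨2, [0,0,0,0], [], [0,0,0,0,2]⟩,
  ⟨4, [0,0,0,0,0,0,1,2], [], []⟩,
  ⟨-4, [0,0,0,0], [], [0,0,1,2]⟩,
  ⟨-4, [0,0,0,0,0,1,0,2], [], []⟩,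
  ⟨4, [0,0,0,0], [], [0,1,0,2]⟩,
  ⟨-4, [0,0,0,0,0,1,3], [], []⟩,
  ⟨4, [0,0,0,0], [], [0,1,3]⟩,
  ⟨2, [0,0,0,0,0,0,2], [], [0,0]⟩,
  ⟨-2, [0,0,0,0], [], [0,0,2,0,0]⟩,
  ⟨-2, [0,0,0,0,1,2], [], [0,0]⟩,
  ⟨2, [0,0,0,0], [], [1,2,0,0]⟩,
  ⟨-2, [0,0,0,0,1,0,0,2], [], []⟩,
  ⟨2, [0,0,0,0], [], [1,0,0,2]⟩,
  ⟨-2, [0,0,0,0,1,0,3], [], []⟩,
  ⟨2, [0,0,0,0], [], [1,0,3]⟩,
  ⟨4, [0,0,0,0,1,1,2], [], []⟩,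
  ⟨-4, [0,0,0,0], [], [1,1,2]⟩,
  ⟨-1, [0,0,0,0,0,0,0,3], [], []⟩,
  ⟨1, [0,0,0,0,0,0,3], [0], []⟩,
  ⟨-1, [0,0,0,0,0,3], [0,0], []⟩,
  ⟨-2, [0,0,0,0,0,0], [0,3], []⟩]

def tg8_5 : List TQ := [
  ⟨1, [0,0,0,3], [0,0,0,0], []⟩,
  ⟨1, [0,0,0,0,0,3], [0,0], []⟩]

def tg8_6 : List TQ := [
  ⟨1, [0,0,0,3,0], [0,0,0], []⟩,
  ⟨1, [0,0,0,0,0,3,0], [0], []⟩]

def tg8_7 : List TQ := [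
  ⟨1, [0,0,3,0,0], [0,0,0], []⟩,
  ⟨1, [0,0,0,0,3,0,0], [0], []⟩]

def tg8_8 : List TQ := [
  ⟨1, [0,3,0,0,0], [0,0,0], []⟩,
  ⟨1, [0,0,0,3,0,0,0], [0], []⟩]

theorem lits8_sound {B : Type} [NonUnitalNonAssocRing B] (H : SAlg B) (a x : B) (ha : H.g a = a) (hx : H.g x = -x)
    (u : B) : ∀ p ∈ lits8, Q.ev (FF H a x u) p = 0 := by
  intro p hp
  simp only [lits8, List.mem_append] at hp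
  rcases hp with hp | hp | hp | hp | hp | hp | hp | hp
  · exact chkRows_sound H a x ha hx u _ _ rows8_0_ok p hp
  · exact chkRows_sound H a x ha hx u _ _ rows8_1_ok p hp
  · exact chkRows_sound H a x ha hx u _ _ rows8_2_ok p hp
  · exact chkRows_sound H a x ha hx u _ _ rows8_3_ok p hp
  · exact chkRows_sound H a x ha hx u _ _ rows8_4_ok p hp
  · exact chkRows_sound H a x ha hx u _ _ rows8_5_ok p hp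
  · exact chkRows_sound H a x ha hx u _ _ rows8_6_ok p hp
  · exact chkRows_sound H a x ha hx u _ _ rows8_7_ok p hp

end Pool.Agent.N33.SA
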