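import Pool.Agent.N33.SA.Rel
import Mathlib.Algebra.BigOperators.NatAntidiagonal
set_option autoImplicit false

/-! The elements `u_n` in terms of linearizations of `u_4`. -/

namespace Pool.Agent.N33.SA
open Pool.Agent.N33.Tor

section
variable {B : Type} [NonUnitalNonAssocRing B] (H : SAlg B) (a x : B)


set_option maxRecDepth 1000000 in
lemma rU_chk : Q.isZ (Q.cons 0 (V.add 999 (nB tree (V.cons 0 1 V.nil) [0,0,0,3,0,0,0,0])
    (V.add 999 (V.smul (-2) (nB tree (V.cons 0 1 V.nil) [0,0,0,0,0,0,3,0]))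
      (V.smul (-3) (nB tree (V.cons 0 1 V.nil) [0,0,0,0,0,3,0,0])))) Q.nil) = true := by decide +kernel

lemma rU (ha : H.g a = a) (hx : H.g x = -x) (u : B) : H.cz true x (H.cz true x (H.cz true x (H.cz true x (tz x a (H.cz true x (H.cz true x (H.cz true x u))))))) =
    (2 : ℤ) • H.cz true x (tz x a (H.cz true x (H.cz true x (H.cz true x (H.cz true x (H.cz true x (H.cz true x u))))))) + (3 : ℤ) • H.cz true x (H.cz true x (tz x a (H.cz true x (H.cz true x (H.cz true x (H.cz true x (H.cz true x u))))))) := by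
  have h := Q.ev_isZ (fun _ k => P.evw (oU H a x) (dw k) u) _ rU_chk
  simp only [Q.ev, V.ev_add, V.ev_smul] at h
  have hR := RL_valid H a x ha hx
  rw [nB_sound H a x tree RL hR tree_ok _ (by decide), nB_sound H a x tree RL hR tree_ok _ (by decide),
    nB_sound H a x tree RL hR tree_ok _ (by decide)] at h
  simp only [V.ev, one_smul, add_zero, P.evw, oU0, oU3] at h
  have e : P.evw (oU H a x) (dw 0) u = u := rfl
  rw [e] at h
  rw [← sub_eq_zero, ← h]
  simp only [neg_smul]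
  abel

/-- the elements `a_n` -/
def dn (n : ℕ) : B := dz H x a n

/-- `(a_i, tz x a a_j)` -/
def A (i j : ℕ) : B := H.jz (!j.bodd) (tz x a (dn H a x j)) (dn H a x i)

lemma dn_zero : dn H a x 0 = a := rfl
lemma dn_succ (n : ℕ) : dn H a x (n + 1) = H.cz true x (dn H a x n) := rfl

lemma dn_par (ha : H.g a = a) (hx : H.g x = -x) (n : ℕ) : H.g (dn H a x n) = sg n.bodd • dn H a x n := by
  have := dz_par H x hx false a (by simp [ha]) n
  rw [Bool.false_xor] at this
  exact this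

lemma tdn_par (ha : H.g a = a) (hx : H.g x = -x) (n : ℕ) :
    H.g (tz x a (dn H a x n)) = sg (!n.bodd) • tz x a (dn H a x n) :=
  parT H a x ha hx _ _ (dn_par H a x ha hx n)

lemma XA (ha : H.g a = a) (hx : H.g x = -x) (i m : ℕ) :
    H.jz i.bodd (dn H a x i) (tz x a (dn H a x m)) = sg (i.bodd && !m.bodd) • A H a x i m := by
  rw [jz_symm H (!m.bodd) i.bodd _ _ (tdn_par H a x ha hx m) (dn_par H a x ha hx i), Bool.and_comm]
  rfl

lemma A0 (ha : H.g a = a) (hx : H.g x = -x) (i : ℕ) : A H a x i 0 = 0 := by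
  unfold A
  rw [dn_zero, sTa H a x ha hx, SAlg.jz_zero]

lemma be (t c : ℕ) : (2 * t + c).bodd = c.bodd := by simp [Nat.bodd_mul]

lemma q0e (ha : H.g a = a) (hx : H.g x = -x) (t : ℕ) : A H a x 2 (2 * t + 5) = A H a x 1 (2 * t + 6) := by
  have h := r0 H a x ha hx (dn H a x (2 * t))
  change H.jz (1 : ℕ).bodd (dn H a x 1) (tz x a (dn H a x (2 * t + 6))) +
    H.jz (2 : ℕ).bodd (dn H a x 2) (tz x a (dn H a x (2 * t + 5))) = 0 at h
  rw [XA H a x ha hx, XA H a x ha hx, be, be] at h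
  have h' : (-1 : ℤ) • A H a x 1 (2 * t + 6) + (1 : ℤ) • A H a x 2 (2 * t + 5) = 0 := h
  rw [neg_smul, one_smul, one_smul] at h'
  exact (neg_add_eq_zero.mp h').symm

lemma q0o (ha : H.g a = a) (hx : H.g x = -x) (t : ℕ) : A H a x 2 (2 * t + 6) = - A H a x 1 (2 * t + 7) := by
  have h := r0 H a x ha hx (dn H a x (2 * t + 1))
  change H.jz (1 : ℕ).bodd (dn H a x 1) (tz x a (dn H a x (2 * t + 7))) +
    H.jz (2 : ℕ).bodd (dn H a x 2) (tz x a (dn H a x (2 * t + 6))) = 0 at h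
  rw [XA H a x ha hx, XA H a x ha hx, be, be] at h
  have h' : (1 : ℤ) • A H a x 1 (2 * t + 7) + (1 : ℤ) • A H a x 2 (2 * t + 6) = 0 := h
  rw [one_smul, one_smul] at h'
  exact eq_neg_of_add_eq_zero_right h'

lemma q1e (ha : H.g a = a) (hx : H.g x = -x) (t : ℕ) :
    - A H a x 3 (2 * t + 4) - A H a x 1 (2 * t + 6) - A H a x (2 * t + 5) 2 + A H a x (2 * t + 6) 1 = 0 := by
  have h := r1 H a x ha hx (dn H a x (2 * t))
  change H.jz (3 : ℕ).bodd (dn H a x 3) (tz x a (dn H a x (2 * t + 4))) +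
    H.jz (1 : ℕ).bodd (dn H a x 1) (tz x a (dn H a x (2 * t + 6))) - A H a x (2 * t + 5) 2 + A H a x (2 * t + 6) 1 = 0 at h
  rw [XA H a x ha hx, XA H a x ha hx, be, be] at h
  have h' : (-1 : ℤ) • A H a x 3 (2 * t + 4) + (-1 : ℤ) • A H a x 1 (2 * t + 6) - A H a x (2 * t + 5) 2 +
    A H a x (2 * t + 6) 1 = 0 := h
  rw [neg_smul, one_smul, neg_smul, one_smul] at h'
  rw [← h']; abel

lemma q1o (ha : H.g a = a) (hx : H.g x = -x) (t : ℕ) :
    A H a x 3 (2 * t + 5) + A H a x 1 (2 * t + 7) - A H a x (2 * t + 6) 2 + A H a x (2 * t + 7) 1 = 0 := by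
  have h := r1 H a x ha hx (dn H a x (2 * t + 1))
  change H.jz (3 : ℕ).bodd (dn H a x 3) (tz x a (dn H a x (2 * t + 5))) +
    H.jz (1 : ℕ).bodd (dn H a x 1) (tz x a (dn H a x (2 * t + 7))) - A H a x (2 * t + 6) 2 + A H a x (2 * t + 7) 1 = 0 at h
  rw [XA H a x ha hx, XA H a x ha hx, be, be] at h
  have h' : (1 : ℤ) • A H a x 3 (2 * t + 5) + (1 : ℤ) • A H a x 1 (2 * t + 7) - A H a x (2 * t + 6) 2 +
    A H a x (2 * t + 7) 1 = 0 := h
  rw [one_smul, one_smul] at h'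
  exact h'

lemma q2 (ha : H.g a = a) (hx : H.g x = -x) (q : ℕ) : A H a x (q + 6) 1 = - A H a x (q + 4) 3 := by
  have h := r2 H a x ha hx (dn H a x q)
  change A H a x (q + 6) 1 + A H a x (q + 4) 3 = 0 at h
  exact eq_neg_of_add_eq_zero_left h

lemma q3' (ha : H.g a = a) (hx : H.g x = -x) (q : ℕ) : A H a x (q + 5) 2 = - A H a x (q + 3) 4 := by
  have h := r3 H a x ha hx (dn H a x q)
  change A H a x (q + 5) 2 + A H a x (q + 3) 4 = 0 at h
  exact eq_neg_of_add_eq_zero_left h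

lemma q4e (ha : H.g a = a) (hx : H.g x = -x) (t : ℕ) : L6 H a x (dn H a x (2 * t + 4)) =
    A H a x 1 (2 * t + 6) + A H a x 2 (2 * t + 5) + (2 : ℤ) • A H a x (2 * t + 6) 1 := by
  have h := r4 H a x ha hx (dn H a x (2 * t))
  change L6 H a x (dn H a x (2 * t + 4)) + H.jz (1 : ℕ).bodd (dn H a x 1) (tz x a (dn H a x (2 * t + 6))) -
    H.jz (2 : ℕ).bodd (dn H a x 2) (tz x a (dn H a x (2 * t + 5))) - (2 : ℤ) • A H a x (2 * t + 6) 1 = 0 at h
  rw [XA H a x ha hx, XA H a x ha hx, be, be] at h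
  have h' : L6 H a x (dn H a x (2 * t + 4)) + (-1 : ℤ) • A H a x 1 (2 * t + 6) -
    (1 : ℤ) • A H a x 2 (2 * t + 5) - (2 : ℤ) • A H a x (2 * t + 6) 1 = 0 := h
  rw [neg_smul, one_smul, one_smul] at h'
  rw [← sub_eq_zero, ← h']; abel

lemma q4o (ha : H.g a = a) (hx : H.g x = -x) (t : ℕ) : L6 H a x (dn H a x (2 * t + 5)) =
    - A H a x 1 (2 * t + 7) + A H a x 2 (2 * t + 6) + (2 : ℤ) • A H a x (2 * t + 7) 1 := by
  have h := r4 H a x ha hx (dn H a x (2 * t + 1))
  change L6 H a x (dn H a x (2 * t + 5)) + H.jz (1 : ℕ).bodd (dn H a x 1) (tz x a (dn H a x (2 * t + 7))) -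
    H.jz (2 : ℕ).bodd (dn H a x 2) (tz x a (dn H a x (2 * t + 6))) - (2 : ℤ) • A H a x (2 * t + 7) 1 = 0 at h
  rw [XA H a x ha hx, XA H a x ha hx, be, be] at h
  have h' : L6 H a x (dn H a x (2 * t + 5)) + (1 : ℤ) • A H a x 1 (2 * t + 7) -
    (1 : ℤ) • A H a x 2 (2 * t + 6) - (2 : ℤ) • A H a x (2 * t + 7) 1 = 0 := h
  rw [one_smul, one_smul] at h'
  rw [← sub_eq_zero, ← h']; abel

/-- `H.cz true x^l (tz x a a_j)` -/
def el (l j : ℕ) : B := dz H x (tz x a (dn H a x j)) l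

lemma el_succ (l j : ℕ) : el H a x (l + 1) j = H.cz true x (el H a x l j) := rfl

lemma el4 (ha : H.g a = a) (hx : H.g x = -x) (l j : ℕ) : el H a x (l + 4) (j + 3) =
    (2 : ℤ) • el H a x (l + 1) (j + 6) + (3 : ℤ) • el H a x (l + 2) (j + 5) := by
  have h := rU H a x ha hx (dn H a x j)
  change el H a x 4 (j + 3) = (2 : ℤ) • el H a x 1 (j + 6) + (3 : ℤ) • el H a x 2 (j + 5) at h
  have h2 : ∀ m, el H a x (l + m) j = dz H x (el H a x m j) l := by
    intro m; unfold el; rw [dz_dz, add_comm]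
  have h3 : ∀ m j, el H a x (l + m) j = dz H x (el H a x m j) l := by
    intro m j; unfold el; rw [dz_dz, add_comm]
  rw [h3, h3, h3, h, dz_add, dz_smul, dz_smul]

/-- the relations `β` -/
def Bf (l i j : ℕ) : B := H.jz i.bodd (dn H a x (i + 2)) (el H a x l j) + H.jz i.bodd (dn H a x i) (el H a x l (j + 2))

lemma D_Bf (ha : H.g a = a) (hx : H.g x = -x) (l i j : ℕ) :
    H.cz true x (Bf H a x l i j) = Bf H a x l (i + 1) j + sg i.bodd • Bf H a x (l + 1) i j := by
  unfold Bf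
  have h1 := dn_par H a x ha hx i
  have h2 := dn_par H a x ha hx (i + 2)
  have e2 : (i + 2).bodd = i.bodd := by simp
  rw [e2] at h2
  rw [map_add, sDD H a x ha hx _ _ h1, sDD H a x ha hx _ _ h2, ← dn_succ, ← dn_succ, ← el_succ, ← el_succ,
    Nat.bodd_succ, smul_add]
  have e3 : i + 1 + 2 = i + 2 + 1 := by omega
  rw [e3]
  abel

lemma Bf1 (ha : H.g a = a) (hx : H.g x = -x) (l : ℕ) : ∀ j, Bf H a x (l + 1) 1 (j + 3) = 0 := by
  induction l using Nat.strong_induction_on with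
  | _ l ih =>
    intro j
    match l, ih with
    | 0, _ => exact r6 H a x ha hx (dn H a x j)
    | 1, _ => exact r7 H a x ha hx (dn H a x (j + 1))
    | 2, _ => exact r8 H a x ha hx (dn H a x (j + 2))
    | m + 3, ih =>
      have h1 := ih m (by omega) (j + 3)
      have h2 := ih (m + 1) (by omega) (j + 2)
      unfold Bf at h1 h2 ⊢
      rw [show m + 3 + 1 = m + 4 from rfl, el4 H a x ha hx m j, show j + 3 + 2 = (j + 2) + 3 from rfl,
        el4 H a x ha hx m (j + 2)]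
      simp only [map_add, map_zsmul]
      have e1 : j + 2 + 6 = j + 3 + 3 + 2 := by omega
      have e2 : j + 2 + 5 = j + 2 + 3 + 2 := by omega
      have e3 : j + 6 = j + 3 + 3 := by omega
      have e4 : j + 5 = j + 2 + 3 := by omega
      rw [e1, e2, e3, e4, show m + 2 = m + 1 + 1 from rfl]
      have : ∀ p q r s : B, p + q = 0 → r + s = 0 → (2 : ℤ) • p + (3 : ℤ) • r + ((2 : ℤ) • q + (3 : ℤ) • s) = 0 := by
        intro p q r s h h'
        rw [eq_neg_of_add_eq_zero_left h, eq_neg_of_add_eq_zero_left h', smul_neg, smul_neg]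
        abel
      exact this _ _ _ _ h1 h2

lemma Bf2 (ha : H.g a = a) (hx : H.g x = -x) (i : ℕ) : ∀ l j, Bf H a x l (i + 2) (j + 3) = 0 := by
  induction i with
  | zero =>
    intro l j
    cases l with
    | zero => exact r5 H a x ha hx (dn H a x j)
    | succ l =>
      have h := D_Bf H a x ha hx (l + 1) 1 (j + 3)
      rw [Bf1 H a x ha hx, Bf1 H a x ha hx, map_zero, smul_zero, add_zero] at h
      exact h.symm
  | succ i ih =>
    intro l j
    have h := D_Bf H a x ha hx l (i + 2) (j + 3)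
    rw [ih, ih, map_zero, smul_zero, add_zero] at h
    exact h.symm

lemma beta (ha : H.g a = a) (hx : H.g x = -x) (i j : ℕ) :
    A H a x (i + 4) (j + 3) = - A H a x (i + 2) (j + 5) := by
  have h := Bf2 H a x ha hx i 0 j
  have e2 : (i + 2).bodd = (i + 4).bodd := by simp
  have h' : H.jz (i + 4).bodd (dn H a x (i + 4)) (tz x a (dn H a x (j + 3))) +
    H.jz (i + 2).bodd (dn H a x (i + 2)) (tz x a (dn H a x (j + 5))) = 0 := by rw [← e2]; exact h
  rw [XA H a x ha hx, XA H a x ha hx, ← e2] at h'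
  have e3 : (j + 3).bodd = (j + 5).bodd := by simp
  rw [e3] at h'
  cases hb : ((i + 2).bodd && !(j + 5).bodd) <;> rw [hb] at h'
  · rw [sg_false, one_smul, one_smul] at h'
    exact eq_neg_of_add_eq_zero_left h'
  · rw [sg_true, neg_smul, one_smul, neg_smul, one_smul, ← neg_add, neg_eq_zero] at h'
    exact eq_neg_of_add_eq_zero_left h'

lemma betaG (ha : H.g a = a) (hx : H.g x = -x) (I K : ℕ) (hI : 2 ≤ I) (hJ : 1 ≤ K) (h : 5 ≤ I + K) :
    A H a x (I + 2) K = - A H a x I (K + 2) := by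
  rcases Nat.lt_or_ge K 3 with h3 | h3
  · rcases Nat.lt_or_ge K 2 with h2 | h2
    · obtain rfl : K = 1 := by omega
      obtain ⟨q, rfl⟩ : ∃ q, I = q + 4 := ⟨I - 4, by omega⟩
      exact q2 H a x ha hx q
    · obtain rfl : K = 2 := by omega
      obtain ⟨q, rfl⟩ : ∃ q, I = q + 3 := ⟨I - 3, by omega⟩
      exact q3' H a x ha hx q
  · obtain ⟨j, rfl⟩ : ∃ j, K = j + 3 := ⟨K - 3, by omega⟩
    obtain ⟨i, rfl⟩ : ∃ i, I = i + 2 := ⟨I - 2, by omega⟩
    exact beta H a x ha hx i j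

lemma chainA (ha : H.g a = a) (hx : H.g x = -x) (I s : ℕ) (hI : 2 ≤ I) : ∀ K, 1 ≤ K → 7 ≤ I + K + 2 * s →
    A H a x (I + 2 * s) K = (-1 : ℤ) ^ s • A H a x I (K + 2 * s) := by
  induction s with
  | zero => intro K _ _; rw [pow_zero, one_smul]; rfl
  | succ s ih =>
    intro K hK h
    have h1 := betaG H a x ha hx (I + 2 * s) K (by omega) hK (by omega)
    rw [show I + 2 * (s + 1) = I + 2 * s + 2 by ring, h1, ih (K + 2) (by omega) (by omega), pow_succ,
      show K + 2 + 2 * s = K + 2 * (s + 1) by ring, mul_neg, mul_one, neg_smul]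

/-- binomial sums -/
def GA (k : ℕ) (f : ℕ → ℕ → B) : B := ∑ p ∈ Finset.HasAntidiagonal.antidiagonal k, k.choose p.1 • f p.1 p.2

lemma GA_succ (k : ℕ) (f : ℕ → ℕ → B) :
    GA (k + 1) f = GA k (fun i j => f i (j + 1)) + GA k (fun i j => f (i + 1) j) := by
  unfold GA
  rw [Finset.sum_antidiagonal_choose_succ_nsmul]
  congr 1
  refine Finset.sum_congr rfl (fun p hp => ?_)
  rw [Finset.HasAntidiagonal.mem_antidiagonal] at hp
  rw [← Nat.choose_symm_of_eq_add hp.symm]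

lemma GA_swap (k : ℕ) (f : ℕ → ℕ → B) : GA k (fun i j => f j i) = GA k f := by
  unfold GA
  rw [← Finset.Nat.sum_antidiagonal_swap]
  refine Finset.sum_congr rfl (fun p hp => ?_)
  rw [Finset.HasAntidiagonal.mem_antidiagonal] at hp
  show k.choose p.2 • f p.1 p.2 = k.choose p.1 • f p.1 p.2
  rw [← Nat.choose_symm_of_eq_add hp.symm]

lemma GA_add (k : ℕ) (f f' : ℕ → ℕ → B) : GA k (fun i j => f i j + f' i j) = GA k f + GA k f' := by
  unfold GA
  rw [← Finset.sum_add_distrib]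
  exact Finset.sum_congr rfl (fun p _ => smul_add _ _ _)

lemma GA_map (k : ℕ) (f : ℕ → ℕ → B) (φ : B →+ B) : φ (GA k f) = GA k (fun i j => φ (f i j)) := by
  unfold GA
  rw [map_sum]
  exact Finset.sum_congr rfl (fun p _ => map_nsmul φ _ _)

lemma GA_sum (m : ℕ) (f : ℕ → ℕ → B) (S : B) (h : ∀ i < m, f (i + 1) (m - i) = (-1 : ℤ) ^ i • S) :
    GA (m + 1) f = f 0 (m + 1) + f (m + 1) 0 + S + (-1 : ℤ) ^ (m + 1) • S := by
  have h0 : ∑ i ∈ Finset.range (m + 2), (m + 1).choose i • ((-1 : ℤ) ^ i • S) = 0 := by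
    have h1 := Int.alternating_sum_range_choose (n := m + 1)
    rw [if_neg (by omega)] at h1
    have h2 : (∑ i ∈ Finset.range (m + 1 + 1), ((-1 : ℤ) ^ i * ((m + 1).choose i : ℤ))) • S = 0 := by
      rw [h1, zero_smul]
    rw [Finset.sum_smul] at h2
    rw [← h2]
    refine Finset.sum_congr rfl (fun i _ => ?_)
    rw [← natCast_zsmul, ← mul_smul, mul_comm]
  have h1 : GA (m + 1) f = ∑ i ∈ Finset.range (m + 2), (m + 1).choose i • (f i (m + 1 - i) + (-1 : ℤ) ^ i • S) := by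
    simp only [smul_add]
    rw [Finset.sum_add_distrib, h0, add_zero]
    unfold GA
    exact Finset.Nat.sum_antidiagonal_eq_sum_range_succ (fun i j => (m + 1).choose i • f i j) (m + 1)
  rw [h1, Finset.sum_range_succ, Finset.sum_range_succ']
  have h2 : ∑ i ∈ Finset.range m, (m + 1).choose (i + 1) • (f (i + 1) (m + 1 - (i + 1)) + (-1 : ℤ) ^ (i + 1) • S) = 0 := by
    refine Finset.sum_eq_zero (fun i hi => ?_)
    rw [Finset.mem_range] at hi
    rw [show m + 1 - (i + 1) = m - i by omega, h i hi, pow_succ, mul_neg, mul_one, neg_smul, add_neg_cancel,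
      smul_zero]
  rw [h2]
  simp only [Nat.choose_zero_right, Nat.choose_self, one_smul, pow_zero, Nat.sub_zero, Nat.sub_self]
  abel

/-- `a_i ∘ a_j` -/
def jj (i j : ℕ) : B := H.jz j.bodd (dn H a x j) (dn H a x i)

lemma D_jj (ha : H.g a = a) (hx : H.g x = -x) (i j : ℕ) :
    H.cz true x (jj H a x i j) = jj H a x i (j + 1) + sg j.bodd • jj H a x (i + 1) j := by
  unfold jj
  rw [sDD H a x ha hx _ _ (dn_par H a x ha hx j), Nat.bodd_succ, dn_succ, dn_succ]

lemma D2_jj (ha : H.g a = a) (hx : H.g x = -x) (i j : ℕ) :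
    H.cz true x (H.cz true x (jj H a x i j)) = jj H a x i (j + 2) + jj H a x (i + 2) j := by
  rw [D_jj H a x ha hx, map_add, map_zsmul, D_jj H a x ha hx, D_jj H a x ha hx, Nat.bodd_succ]
  cases j.bodd
  · simp only [Bool.not_false, sg_true, sg_false, neg_smul, one_smul]; abel
  · simp only [Bool.not_true, sg_true, sg_false, neg_smul, one_smul, neg_add, neg_neg]; abel

lemma T_jj (ha : H.g a = a) (hx : H.g x = -x) (i j : ℕ) :
    tz x a (jj H a x i j) = A H a x i j + sg j.bodd • sg (j.bodd && !i.bodd) • A H a x j i := by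
  unfold jj
  rw [sDT H a x ha hx _ _ (dn_par H a x ha hx j), XA H a x ha hx]
  rfl

lemma dz_jj (ha : H.g a = a) (hx : H.g x = -x) (k : ℕ) :
    dz H x (jj H a x 0 0) (2 * k) = GA k (fun i j => jj H a x (2 * i) (2 * j)) := by
  induction k with
  | zero => simp [GA]; rfl
  | succ k ih =>
    rw [GA_succ, ← GA_add, show 2 * (k + 1) = 2 * k + 1 + 1 by ring, dz_succ, dz_succ, ih, GA_map, GA_map]
    congr 1
    funext i j
    rw [D2_jj H a x ha hx]
    rfl

/-- `6 u_{N+1}` -/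
def U6 (N : ℕ) : B := tz x a (dz H x (a * a) N) - A H a x 0 N

lemma U6_two (N : ℕ) :
    (2 : ℤ) • U6 H a x N = tz x a (dz H x (jj H a x 0 0) N) - (2 : ℤ) • A H a x 0 N := by
  have h : jj H a x 0 0 = (2 : ℤ) • (a * a) := by
    show a * a + a * a = _
    rw [two_zsmul]
  rw [h, dz_smul, map_zsmul, ← smul_sub]; rfl

include H in
lemma two_cancel (u v : B) (h : (2 : ℤ) • u = (2 : ℤ) • v) : u = v := by
  have := H.tf 2 (u - v) (by norm_num) (by rw [smul_sub, h, sub_self])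
  exact sub_eq_zero.mp this

lemma U6_even (ha : H.g a = a) (hx : H.g x = -x) (k : ℕ) :
    U6 H a x (2 * k) = GA k (fun i j => A H a x (2 * i) (2 * j)) - A H a x 0 (2 * k) := by
  apply two_cancel H
  rw [U6_two H a x, dz_jj H a x ha hx, GA_map, smul_sub, two_zsmul (GA _ _)]
  nth_rewrite 3 [← GA_swap]
  rw [← GA_add]
  congr 2
  funext i j
  have e : ∀ i : ℕ, (2 * i).bodd = false := fun i => by simp [Nat.bodd_mul]
  rw [T_jj H a x ha hx, e, e]
  simp

lemma U6_odd (ha : H.g a = a) (hx : H.g x = -x) (k : ℕ) :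
    U6 H a x (2 * k + 1) = GA k (fun i j => A H a x (2 * i) (2 * j + 1)) +
      GA k (fun i j => A H a x (2 * i + 1) (2 * j)) - A H a x 0 (2 * k + 1) := by
  apply two_cancel H
  rw [U6_two H a x, dz_succ, dz_jj H a x ha hx, GA_map, GA_map, smul_sub, two_zsmul (_ + _), ← GA_add]
  nth_rewrite 3 [← GA_swap]
  rw [← GA_add]
  congr 2
  funext i j
  have e : ∀ i : ℕ, (2 * i).bodd = false := fun i => by simp [Nat.bodd_mul]
  have e' : ∀ i : ℕ, (2 * i + 1).bodd = true := fun i => by simp [Nat.bodd_mul]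
  rw [D_jj H a x ha hx, map_add, map_zsmul, T_jj H a x ha hx, T_jj H a x ha hx]
  simp only [e, e', sg_true, sg_false, Bool.not_false, Bool.and_true, Bool.not_true, Bool.and_false, one_smul,
    neg_smul, neg_neg]
  abel

lemma GA_zero (f : ℕ → ℕ → B) : GA 0 f = f 0 0 := by simp [GA]

lemma GA_one (f : ℕ → ℕ → B) : GA 1 f = f 0 1 + f 1 0 := by
  rw [GA_succ, GA_zero, GA_zero]

lemma GA_two (f : ℕ → ℕ → B) : GA 2 f = f 0 2 + (2 : ℤ) • f 1 1 + f 2 0 := by
  rw [GA_succ, GA_one, GA_one]; simp only [Nat.reduceAdd]; rw [two_zsmul]; abel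

lemma GA_three (f : ℕ → ℕ → B) : GA 3 f = f 0 3 + (3 : ℤ) • f 1 2 + (3 : ℤ) • f 2 1 + f 3 0 := by
  rw [GA_succ, GA_two, GA_two]; simp only [Nat.reduceAdd]; abel

lemma U0 (ha : H.g a = a) (hx : H.g x = -x) : U6 H a x 0 = 0 := by
  have h := U6_even H a x ha hx 0
  rw [GA_zero] at h
  rw [show (0 : ℕ) = 2 * 0 from rfl, h]
  exact sub_self _

lemma U1 (ha : H.g a = a) (hx : H.g x = -x) : U6 H a x 1 = 0 := by
  have h := U6_odd H a x ha hx 0
  rw [GA_zero, GA_zero] at h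
  rw [show (1 : ℕ) = 2 * 0 + 1 from rfl, h]
  have e := A0 H a x ha hx 1
  change A H a x 0 1 + A H a x 1 0 - A H a x 0 1 = 0
  rw [e, add_zero, sub_self]

lemma U2 (ha : H.g a = a) (hx : H.g x = -x) : U6 H a x 2 = 0 := by
  have h := U6_even H a x ha hx 1
  rw [GA_one] at h
  rw [show (2 : ℕ) = 2 * 1 from rfl, h]
  have e := A0 H a x ha hx 2
  change A H a x 0 2 + A H a x 2 0 - A H a x 0 2 = 0
  rw [e, add_zero, sub_self]

lemma U4 (ha : H.g a = a) (hx : H.g x = -x) : (2 : ℤ) • U6 H a x 4 = L6 H a x (dn H a x 1) := by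
  have h := U6_even H a x ha hx 2
  rw [GA_two] at h
  have e := A0 H a x ha hx 4
  have h' : U6 H a x 4 = A H a x 0 4 + (2 : ℤ) • A H a x 2 2 + A H a x 4 0 - A H a x 0 4 := h
  rw [h', e]
  have h5 : L6 H a x (dn H a x 1) = (4 : ℤ) • A H a x 2 2 := s5 H a x ha hx
  rw [h5]
  abel

lemma U5 (ha : H.g a = a) (hx : H.g x = -x) : U6 H a x 5 = 0 := by
  have h := U6_odd H a x ha hx 2
  rw [GA_two, GA_two] at h
  have e := A0 H a x ha hx 5
  have h' : U6 H a x 5 = A H a x 0 5 + (2 : ℤ) • A H a x 2 3 + A H a x 4 1 +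
    (A H a x 1 4 + (2 : ℤ) • A H a x 3 2 + A H a x 5 0) - A H a x 0 5 := h
  have h6 : (2 : ℤ) • A H a x 2 3 + (2 : ℤ) • A H a x 3 2 + A H a x 4 1 + A H a x 1 4 = 0 := s6 H a x ha hx
  rw [h', e]
  refine Eq.trans ?_ h6
  abel

lemma U6' (ha : H.g a = a) (hx : H.g x = -x) : U6 H a x 6 = 0 := by
  have h := U6_even H a x ha hx 3
  rw [GA_three] at h
  have e := A0 H a x ha hx 6
  have h' : U6 H a x 6 = A H a x 0 6 + (3 : ℤ) • A H a x 2 4 + (3 : ℤ) • A H a x 4 2 + A H a x 6 0 - A H a x 0 6 := h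
  have h7 : A H a x 2 4 + A H a x 4 2 = 0 := s7 H a x ha hx
  rw [h', e, eq_neg_of_add_eq_zero_left h7]
  simp only [smul_neg]
  abel

/-- the even case of the sum -/
lemma sumE (ha : H.g a = a) (hx : H.g x = -x) (m : ℕ) (hm : 3 ≤ m) :
    U6 H a x (2 * m + 2) = A H a x 2 (2 * m) + (-1 : ℤ) ^ (m + 1) • A H a x 2 (2 * m) := by
  have h := U6_even H a x ha hx (m + 1)
  rw [GA_sum m _ (A H a x 2 (2 * m)), show 2 * (m + 1) = 2 * m + 2 by ring] at h
  · rw [h, Nat.mul_zero, A0 H a x ha hx]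
    abel
  · intro i hi
    have hc := chainA H a x ha hx 2 i (by omega) (2 * (m - i)) (by omega) (by omega)
    rw [show 2 * (i + 1) = 2 + 2 * i by ring, hc, show 2 * (m - i) + 2 * i = 2 * m by omega]

lemma sumO (ha : H.g a = a) (hx : H.g x = -x) (m : ℕ) (hm : 2 ≤ m) :
    U6 H a x (2 * m + 3) = A H a x 2 (2 * m + 1) + A H a x 1 (2 * m + 2) + A H a x 3 (2 * m) +
      (-1 : ℤ) ^ (m + 1) • A H a x 3 (2 * m) := by
  have h := U6_odd H a x ha hx (m + 1)
  rw [GA_sum m (fun i j => A H a x (2 * i) (2 * j + 1)) (A H a x 2 (2 * m + 1)),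
    GA_sum m (fun i j => A H a x (2 * i + 1) (2 * j)) (A H a x 3 (2 * m)),
    show 2 * (m + 1) = 2 * m + 2 by ring] at h
  · have hc := chainA H a x ha hx 2 m (by omega) 1 (by omega) (by omega)
    rw [show 2 + 2 * m = 2 * m + 2 by ring, show 1 + 2 * m = 2 * m + 1 by ring] at hc
    rw [show 2 * m + 3 = 2 * m + 2 + 1 by ring, h]
    simp only [Nat.mul_zero, Nat.zero_add, A0 H a x ha hx, hc, pow_succ, mul_neg, mul_one, neg_smul]
    abel
  · intro i hi
    have hc := chainA H a x ha hx 3 i (by omega) (2 * (m - i)) (by omega) (by omega)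
    show A H a x (2 * (i + 1) + 1) (2 * (m - i)) = _
    rw [show 2 * (i + 1) + 1 = 3 + 2 * i by ring, hc, show 2 * (m - i) + 2 * i = 2 * m by omega]
  · intro i hi
    have hc := chainA H a x ha hx 2 i (by omega) (2 * (m - i) + 1) (by omega) (by omega)
    show A H a x (2 * (i + 1)) (2 * (m - i) + 1) = _
    rw [show 2 * (i + 1) = 2 + 2 * i by ring, hc, show 2 * (m - i) + 1 + 2 * i = 2 * m + 1 by omega]

lemma V8 (ha : H.g a = a) (hx : H.g x = -x) (t : ℕ) :
    (2 : ℤ) • U6 H a x (4 * t + 7) = L6 H a x (dn H a x (4 * t + 4)) := by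
  have h1 := sumO H a x ha hx (2 * t + 2) (by omega)
  have h2 := q4e H a x ha hx (2 * t)
  have h3 := q0e H a x ha hx (2 * t)
  have h4 := chainA H a x ha hx 2 (2 * t + 2) (by omega) 1 (by omega) (by omega)
  rw [show 2 * (2 * t) + 4 = 4 * t + 4 by ring, show 2 * (2 * t) + 6 = 4 * t + 6 by ring,
    show 2 * (2 * t) + 5 = 4 * t + 5 by ring] at h2
  rw [show 2 * (2 * t) + 6 = 4 * t + 6 by ring, show 2 * (2 * t) + 5 = 4 * t + 5 by ring] at h3
  rw [show 2 + 2 * (2 * t + 2) = 4 * t + 6 by ring, show 1 + 2 * (2 * t + 2) = 4 * t + 5 by ring,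
    show 2 * t + 2 = 2 * (t + 1) by ring, pow_mul, neg_one_sq, one_pow, one_smul] at h4
  rw [show 2 * (2 * t + 2) + 3 = 4 * t + 7 by ring, show 2 * (2 * t + 2) + 1 = 4 * t + 5 by ring,
    show 2 * (2 * t + 2) + 2 = 4 * t + 6 by ring, pow_succ, show 2 * t + 2 = 2 * (t + 1) by ring, pow_mul,
    neg_one_sq, one_pow] at h1
  rw [h1, h2, h4, h3, mul_neg, mul_one, neg_smul, one_smul]
  abel

lemma V9 (ha : H.g a = a) (hx : H.g x = -x) (t : ℕ) :
    (2 : ℤ) • U6 H a x (4 * t + 8) = L6 H a x (dn H a x (4 * t + 5)) := by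
  have h1 := sumE H a x ha hx (2 * t + 3) (by omega)
  have h2 := q4o H a x ha hx (2 * t)
  have h3 := q0o H a x ha hx (2 * t)
  have h4 := chainA H a x ha hx 3 (2 * t + 2) (by omega) 1 (by omega) (by omega)
  have h5 := q1o H a x ha hx (2 * t)
  have h6 := chainA H a x ha hx 2 (2 * t + 2) (by omega) 2 (by omega) (by omega)
  rw [show 2 * (2 * t) + 5 = 4 * t + 5 by ring, show 2 * (2 * t) + 7 = 4 * t + 7 by ring,
    show 2 * (2 * t) + 6 = 4 * t + 6 by ring] at h2 h5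
  rw [show 2 * (2 * t) + 7 = 4 * t + 7 by ring, show 2 * (2 * t) + 6 = 4 * t + 6 by ring] at h3
  rw [show 3 + 2 * (2 * t + 2) = 4 * t + 7 by ring, show 1 + 2 * (2 * t + 2) = 4 * t + 5 by ring,
    show 2 * t + 2 = 2 * (t + 1) by ring, pow_mul, neg_one_sq, one_pow, one_smul] at h4
  rw [show 2 + 2 * (2 * t + 2) = 4 * t + 6 by ring,
    show 2 * t + 2 = 2 * (t + 1) by ring, pow_mul, neg_one_sq, one_pow, one_smul] at h6
  rw [show 2 * (2 * t + 3) + 2 = 4 * t + 8 by ring, show 2 * (2 * t + 3) = 4 * t + 6 by ring,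
    show 2 * t + 3 + 1 = 2 * (t + 2) by ring, pow_mul, neg_one_sq, one_pow, one_smul] at h1
  have h7 : A H a x 1 (4 * t + 7) = - A H a x 2 (4 * t + 6) := by rw [h3, neg_neg]
  rw [h6, h7, ← h4] at h5
  have h8 : (2 : ℤ) • A H a x (4 * t + 7) 1 = (2 : ℤ) • A H a x 2 (4 * t + 6) := by
    rw [← sub_eq_zero, ← h5]; abel
  rw [h1, h2, h8, h7]
  abel

lemma V10 (ha : H.g a = a) (hx : H.g x = -x) (t : ℕ) : U6 H a x (4 * t + 9) = 0 := by
  have h1 := sumO H a x ha hx (2 * t + 3) (by omega)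
  have h3 := q0e H a x ha hx (2 * t + 1)
  have h4 := chainA H a x ha hx 2 (2 * t + 3) (by omega) 1 (by omega) (by omega)
  have h5 := q1e H a x ha hx (2 * t + 1)
  have h6 := chainA H a x ha hx 3 (2 * t + 2) (by omega) 2 (by omega) (by omega)
  rw [show 2 * (2 * t + 1) + 5 = 4 * t + 7 by ring, show 2 * (2 * t + 1) + 4 = 4 * t + 6 by ring,
    show 2 * (2 * t + 1) + 6 = 4 * t + 8 by ring] at h5
  rw [show 2 * (2 * t + 1) + 5 = 4 * t + 7 by ring, show 2 * (2 * t + 1) + 6 = 4 * t + 8 by ring] at h3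
  rw [show 2 + 2 * (2 * t + 3) = 4 * t + 8 by ring, show 1 + 2 * (2 * t + 3) = 4 * t + 7 by ring, pow_succ,
    pow_succ, pow_succ, pow_mul, neg_one_sq, one_pow, one_mul, neg_one_mul, neg_neg, one_mul, neg_smul,
    one_smul] at h4
  rw [show 3 + 2 * (2 * t + 2) = 4 * t + 7 by ring, show 2 + 2 * (2 * t + 2) = 4 * t + 6 by ring,
    show 2 * t + 2 = 2 * (t + 1) by ring, pow_mul, neg_one_sq, one_pow, one_smul] at h6
  rw [show 2 * (2 * t + 3) + 3 = 4 * t + 9 by ring, show 2 * (2 * t + 3) + 1 = 4 * t + 7 by ring,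
    show 2 * (2 * t + 3) + 2 = 4 * t + 8 by ring, show 2 * (2 * t + 3) = 4 * t + 6 by ring,
    show 2 * t + 3 + 1 = 2 * (t + 2) by ring, pow_mul, neg_one_sq, one_pow, one_smul] at h1
  rw [h4, h6, ← h3] at h5
  have h8 : - U6 H a x (4 * t + 9) = 0 := by
    rw [h1, ← h3, ← h5]; abel
  exact neg_eq_zero.mp h8

lemma V11 (ha : H.g a = a) (hx : H.g x = -x) (t : ℕ) : U6 H a x (4 * t + 10) = 0 := by
  have h1 := sumE H a x ha hx (2 * t + 4) (by omega)
  rw [show 2 * (2 * t + 4) + 2 = 4 * t + 10 by ring, pow_succ, show 2 * t + 4 = 2 * (t + 2) by ring, pow_mul,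
    neg_one_sq, one_pow, one_mul, neg_smul, one_smul] at h1
  rw [h1]; abel

/-- the element `u_{N+1}` -/
def uu (N : ℕ) : B := as (dz H x (a * a) N) a x - as (dz H x a N) (a * a) x

/-- the linearization of `u₄` at an element `y` of parity `p` -/
def L4 (p : Bool) (y : B) : B :=
  as (dz H x (a * y + y * a) 3) a x + sg p • as (dz H x (a * a) 3) y x - as (dz H x y 3) (a * a) x
    - sg p • as (dz H x a 3) (a * y + y * a) x

lemma uu_six (ha : H.g a = a) (hx : H.g x = -x) (N : ℕ) : (6 : ℤ) • uu H a x N = U6 H a x N := by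
  unfold uu U6
  rw [smul_sub]
  congr 1
  have h := sTT H a x ha hx (dz H x a N)
  rw [tz_apply] at h
  rw [h]
  have h2 := XA H a x ha hx 0 N
  simp only [Nat.bodd_zero, Bool.false_and, sg_false, one_smul] at h2
  exact h2

lemma L4_six (ha : H.g a = a) (hx : H.g x = -x) (p : Bool) (y : B) (hy : H.g y = sg p • y) :
    (6 : ℤ) • L4 H a x p y = L6 H a x y := by
  have haa : H.g (a * a) = a * a := by rw [H.gm, ha]
  have e1 : H.jz false a y = a * y + y * a := by rw [SAlg.jz_apply, SAlg.gq_false, add_comm]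
  have hJ : H.g (H.jz false a y) = sg p • H.jz false a y := by
    rw [e1, map_add, H.gm, H.gm, ha, hy, smul_add, mul_smul_comm, smul_mul_assoc]
  have h3 := dz_par H x hx false (a * a) (by simp [haa]) 3
  have h4 := dz_par H x hx false a (by simp [ha]) 3
  have l1 := H.l12 _ _ _ _ _ x h3 hy (by simpa using hx : H.g x = sg true • x)
  have l2 := H.l12 _ _ _ _ _ x h4 hJ (by simpa using hx : H.g x = sg true • x)
  have e3 : (xor false (3 : ℕ).bodd && p) = p := by simp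
  rw [e3] at l1 l2
  have l1' : sg p • as (dz H x (a * a) 3) y x = - as y (dz H x (a * a) 3) x := by
    rw [eq_neg_of_add_eq_zero_left l1, smul_neg, ← mul_smul, sg_mul_self, one_smul]
  have l2' : sg p • as (dz H x a 3) (H.jz false a y) x = - as (H.jz false a y) (dz H x a 3) x := by
    rw [eq_neg_of_add_eq_zero_left l2, smul_neg, ← mul_smul, sg_mul_self, one_smul]
  unfold L4 L6
  rw [← e1, l1', l2']
  have h := sTT H a x ha hx (dz H x y 3)
  have e5 : H.jz false a (tz x a (H.cz true x (H.cz true x (H.cz true x y)))) = tz x (a * a) (dz H x y 3) := h.symm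
  rw [e5]
  show _ = tz x a (dz H x (H.jz false a y) 3) - tz x (dz H x (a * a) 3) y - tz x (a * a) (dz H x y 3) + tz x (dz H x a 3) (H.jz false a y)
  simp only [tz_apply, smul_add, smul_sub, smul_neg]
  abel

/-- all the elements `u_n` -/
theorem uu_all (ha : H.g a = a) (hx : H.g x = -x) :
    uu H a x 0 = 0 ∧ uu H a x 1 = 0 ∧ uu H a x 2 = 0 ∧
    (2 : ℤ) • uu H a x 4 = L4 H a x true (dn H a x 1) ∧ uu H a x 5 = 0 ∧ uu H a x 6 = 0 ∧
    ∀ t : ℕ, (2 : ℤ) • uu H a x (4 * t + 7) = L4 H a x false (dn H a x (4 * t + 4)) ∧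
      (2 : ℤ) • uu H a x (4 * t + 8) = L4 H a x true (dn H a x (4 * t + 5)) ∧
      uu H a x (4 * t + 9) = 0 ∧ uu H a x (4 * t + 10) = 0 := by
  have h0 : ∀ N, U6 H a x N = 0 → uu H a x N = 0 := fun N h =>
    H.tf 6 _ (by norm_num) (by rw [uu_six H a x ha hx, h])
  have h1 : ∀ N p k, H.g (dn H a x k) = sg p • dn H a x k → (2 : ℤ) • U6 H a x N = L6 H a x (dn H a x k) →
      (2 : ℤ) • uu H a x N = L4 H a x p (dn H a x k) := by
    intro N p k hp h
    have := H.tf 6 ((2 : ℤ) • uu H a x N - L4 H a x p (dn H a x k)) (by norm_num) (by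
      rw [smul_sub, L4_six H a x ha hx p _ hp, smul_comm, uu_six H a x ha hx, h, sub_self])
    exact sub_eq_zero.mp this
  refine ⟨h0 _ (U0 H a x ha hx), h0 _ (U1 H a x ha hx), h0 _ (U2 H a x ha hx), h1 _ _ _ ?_ (U4 H a x ha hx),
    h0 _ (U5 H a x ha hx), h0 _ (U6' H a x ha hx), fun t => ⟨h1 _ _ _ ?_ (V8 H a x ha hx t),
    h1 _ _ _ ?_ (V9 H a x ha hx t), h0 _ (V10 H a x ha hx t), h0 _ (V11 H a x ha hx t)⟩⟩
  · exact dn_par H a x ha hx 1
  · have := dn_par H a x ha hx (4 * t + 4)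
    rw [show 4 * t + 4 = 2 * (2 * t) + 4 by ring, be] at this
    rw [show 4 * t + 4 = 2 * (2 * t) + 4 by ring]
    exact this
  · have := dn_par H a x ha hx (4 * t + 5)
    rw [show 4 * t + 5 = 2 * (2 * t) + 5 by ring, be] at this
    rw [show 4 * t + 5 = 2 * (2 * t) + 5 by ring]
    exact this

end
end Pool.Agent.N33.SA
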