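import Pool.Agent.N33.SA.Base
set_option autoImplicit false

/-! The operators `D, E, C, T` and their identities. -/

namespace Pool.Agent.N33.SA
open Pool.Agent.N33.Tor W

namespace SAlg
variable {B : Type} [NonUnitalNonAssocRing B] (H : SAlg B)

/-- `u ↦ [u,z]` for `z` of parity `p` -/
def cz (p : Bool) (z : B) : B →+ B where
  toFun u := u * z - z * H.gq p u
  map_zero' := by simp
  map_add' := by intro u w; simp only [add_mul, map_add, mul_add]; abel

/-- `u ↦ u ∘ z` for `z` of parity `p` -/
def jz (p : Bool) (z : B) : B →+ B where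
  toFun u := u * z + z * H.gq p u
  map_zero' := by simp
  map_add' := by intro u w; simp only [add_mul, map_add, mul_add]; abel

lemma cz_apply (p : Bool) (z u : B) : H.cz p z u = u * z - z * H.gq p u := rfl
lemma jz_apply (p : Bool) (z u : B) : H.jz p z u = u * z + z * H.gq p u := rfl

lemma jz_add (p : Bool) (z w u : B) : H.jz p (z + w) u = H.jz p z u + H.jz p w u := by
  simp only [jz_apply, mul_add, add_mul]; abel
lemma jz_sub (p : Bool) (z w u : B) : H.jz p (z - w) u = H.jz p z u - H.jz p w u := by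
  simp only [jz_apply, mul_sub, sub_mul]; abel
lemma jz_smul (p : Bool) (k : ℤ) (z u : B) : H.jz p (k • z) u = k • H.jz p z u := by
  simp only [jz_apply, mul_smul_comm, smul_mul_assoc, smul_add]
lemma jz_zero (p : Bool) (u : B) : H.jz p 0 u = 0 := by simp [jz_apply]
lemma cz_sub (p : Bool) (z w u : B) : H.cz p (z - w) u = H.cz p z u - H.cz p w u := by
  simp only [cz_apply, mul_sub, sub_mul]; abel
lemma cz_smul (p : Bool) (k : ℤ) (z u : B) : H.cz p (k • z) u = k • H.cz p z u := by
  simp only [cz_apply, mul_smul_comm, smul_mul_assoc, smul_sub]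
end SAlg

section
variable {B : Type} [NonUnitalNonAssocRing B]

/-- `u ↦ 6 (u,z,x)` -/
def tz (x z : B) : B →+ B where
  toFun u := (6 : ℤ) • as u z x
  map_zero' := by simp [as]
  map_add' := by intro u w; rw [SAlg.as_add1, smul_add]

lemma tz_apply (x z u : B) : tz x z u = (6 : ℤ) • as u z x := rfl
lemma tz_sub (x z w u : B) : tz x (z - w) u = tz x z u - tz x w u := by
  have : as u (z - w) x = as u z x - as u w x := by simp only [as, mul_sub, sub_mul]; abel
  simp only [tz_apply, this, smul_sub]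
lemma tz_smul (x : B) (k : ℤ) (z u : B) : tz x (k • z) u = k • tz x z u := by
  simp only [tz_apply, SAlg.as_zsmul2, smul_comm k]

variable (H : SAlg B)

section gen
variable (y : ℕ → B) (q : ℕ → Bool) (hy : ∀ i, H.g (y i) = sg (q i) • y i)
include hy

lemma ev_pCw (w : W) (u : B) : P.ev (H.op y q) (pCw q w) u = H.cz (w.par q) (w.val y) u := by
  unfold pCw psub
  rw [P.ev_add, P.ev_smul, (W.rl_sound H y q hy _ u).1, (W.rl_sound H y q hy _ u).2, H.cz_apply, neg_smul, one_smul,
    sub_eq_add_neg]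

lemma ev_pRL (w : W) (u : B) : P.ev (H.op y q) (pRL q w) u = H.jz (w.par q) (w.val y) u := by
  unfold pRL
  rw [P.ev_add, (W.rl_sound H y q hy _ u).1, (W.rl_sound H y q hy _ u).2, H.jz_apply]

lemma ev_pTw (w : W) (u : B) : P.ev (H.op y q) (pTw q w) u = tz (y 1) (w.val y) u := by
  unfold pTw psub pR
  rw [P.ev_smul, P.ev_add, P.ev_smul, P.ev_mul, (W.rl_sound H y q hy _ u).1, (W.rl_sound H y q hy _ u).1, tz_apply]
  simp only [P.ev_cons, P.ev_nil, one_smul, add_zero, neg_smul, W.val, as, sub_eq_add_neg]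
  congr 2

lemma ev_pD (u : B) : P.ev (H.op y q) pD u = H.cz (q 1) (y 1) u := by
  unfold pD psub pR pL
  rw [P.ev_add, P.ev_smul]
  simp only [P.ev_cons, P.ev_nil, one_smul, add_zero, neg_smul]
  rw [H.op_even y q 1, H.op_odd y q 1, H.cz_apply, sub_eq_add_neg]

lemma ev_pC (u : B) : P.ev (H.op y q) pC u = H.cz (q 0) (y 0) u := by
  unfold pC psub pR pL
  rw [P.ev_add, P.ev_smul]
  simp only [P.ev_cons, P.ev_nil, one_smul, add_zero, neg_smul]
  rw [H.op_even y q 0, H.op_odd y q 0, H.cz_apply, sub_eq_add_neg]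

end gen

lemma ev_psub {M : Type} [AddCommGroup M] (op : ℕ → M →+ M) (p q : P) (u : M) :
    P.ev op (psub p q) u = P.ev op p u - P.ev op q u := by
  unfold psub; rw [P.ev_add, P.ev_smul, neg_smul, one_smul, sub_eq_add_neg]

lemma ev_subst {M : Type} [AddCommGroup M] (op op' : ℕ → M →+ M) (f : ℕ → P)
    (h : ∀ k u, P.ev op (f k) u = op' k u) (p : P) (u : M) : P.ev op (subst f p) u = P.ev op' p u := by
  induction p generalizing u with
  | nil => rfl
  | cons k c s r ihs ihr => simp only [subst, P.ev_add, P.ev_smul, P.ev_mul, P.ev_cons, h, ihs, ihr]; abel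

variable (a x : B)

def x3 (v : B) (i : ℕ) : B := cond (Nat.beq i 0) a (cond (Nat.beq i 1) x v)

/-- the operators `D, E, C, T` (letters `0,1,2,3`) -/
def oU (k : ℕ) : B →+ B := cond (Nat.beq k 0) (H.cz true x) (cond (Nat.beq k 1) (H.cz false (x * x))
  (cond (Nat.beq k 2) (H.cz false a) (tz x a)))

variable (ha : H.g a = a) (hx : H.g x = -x)
include ha hx

lemma x3_hom (p : Bool) (v : B) (hv : H.g v = sg p • v) (i : ℕ) :
    H.g (x3 a x v i) = sg (q3 p i) • x3 a x v i := by
  unfold x3 q3
  cases Nat.beq i 0 with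
  | true => simp [ha]
  | false => cases Nat.beq i 1 with
    | true => simp [hx]
    | false => simp [hv]

lemma ev_fU (v : B) (hv : H.g v = sg false • v) (k : ℕ) (u : B) :
    P.ev (H.op (x3 a x v) (q3 false)) (fU k) u = oU H a x k u := by
  have h3 := x3_hom H a x ha hx false v hv
  unfold fU oU
  cases Nat.beq k 0 with
  | true => exact ev_pD H _ _ h3 u
  | false => cases Nat.beq k 1 with
    | true => exact ev_pCw H _ _ h3 _ u
    | false => cases Nat.beq k 2 with
      | true => exact ev_pC H _ _ h3 u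
      | false => exact ev_pTw H _ _ h3 _ u

/-- the relations between `D, E, C, T` -/
theorem rho_valid (k : ℕ) (hk : k < 8) (u : B) : P.ev (oU H a x) (ofL (rhoL.getD k [])) u = 0 := by
  have h0 : H.g (0 : B) = sg false • (0 : B) := by simp
  have h3 := x3_hom H a x ha hx false 0 h0
  rw [← ev_subst (H.op (x3 a x 0) (q3 false)) (oU H a x) fU (ev_fU H a x ha hx 0 h0)]
  interval_cases k
  · exact chk_sound H _ _ h3 _ _ _ crho0 u
  · exact chk_sound H _ _ h3 _ _ _ crho1 u
  · exact chk_sound H _ _ h3 _ _ _ crho2 u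
  · exact chk_sound H _ _ h3 _ _ _ crho3 u
  · exact chk_sound H _ _ h3 _ _ _ crho4 u
  · exact chk_sound H _ _ h3 _ _ _ crho5 u
  · exact chk_sound H _ _ h3 _ _ _ crho6 u
  · exact chk_sound H _ _ h3 _ _ _ crho7 u

theorem sI (p : Bool) (z : B) (hz : H.g z = sg p • z) (u : B) :
    H.cz (!p) (H.cz true x z) u = H.cz true x (H.cz p z u) - sg p • H.cz p z (H.cz true x u) - tz x z u := by
  have h3 := x3_hom H a x ha hx p z hz
  have h := chk_sound H _ _ h3 _ _ _ (cI p) u
  simp only [tI, P.ev_add, P.ev_smul, P.ev_mul, ev_psub, ev_pCw H _ _ h3, ev_pTw H _ _ h3, ev_pD H _ _ h3] at h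
  have e1 : H.cz true x z = z * x - sg p • (x * z) := by rw [H.cz_apply, H.gq_true, hz, mul_smul_comm]
  rw [e1, H.cz_sub, H.cz_smul]
  cases p
  · change H.cz true (z * x) u - (1 : ℤ) • H.cz true (x * z) u - H.cz true x (H.cz false z u) +
      ((1 : ℤ) • H.cz false z (H.cz true x u) + tz x z u) = 0 at h
    rw [← sub_eq_zero, ← h]
    simp only [sg_false, Bool.not_false]
    abel
  · change H.cz false (z * x) u - (-1 : ℤ) • H.cz false (x * z) u - H.cz true x (H.cz true z u) +
      ((-1 : ℤ) • H.cz true z (H.cz true x u) + tz x z u) = 0 at h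
    rw [← sub_eq_zero, ← h]
    simp only [sg_true, Bool.not_true]
    abel

theorem sII (p : Bool) (z : B) (hz : H.g z = sg p • z) (u : B) :
    tz x (H.cz true x z) u = - H.cz true x (tz x z u) - (2 * sg p) • tz x z (H.cz true x u)
      - (2 : ℤ) • H.cz p z (H.cz true x (H.cz true x u) - H.cz false (x * x) u) := by
  have h3 := x3_hom H a x ha hx p z hz
  have h := chk_sound H _ _ h3 _ _ _ (cII p) u
  simp only [tII, pE, P.ev_add, P.ev_smul, P.ev_mul, ev_psub, ev_pCw H _ _ h3, ev_pTw H _ _ h3, ev_pD H _ _ h3] at h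
  have e1 : H.cz true x z = z * x - sg p • (x * z) := by rw [H.cz_apply, H.gq_true, hz, mul_smul_comm]
  rw [e1, tz_sub, tz_smul]
  cases p
  · change tz x (z * x) u - (1 : ℤ) • tz x (x * z) u + (H.cz true x (tz x z u) +
      ((2 * 1 : ℤ) • tz x z (H.cz true x u) + (2 : ℤ) • H.cz false z (H.cz true x (H.cz true x u) -
        H.cz false (x * x) u))) = 0 at h
    rw [← sub_eq_zero, ← h]
    simp only [sg_false]
    abel
  · change tz x (z * x) u - (-1 : ℤ) • tz x (x * z) u + (H.cz true x (tz x z u) +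
      ((2 * -1 : ℤ) • tz x z (H.cz true x u) + (2 : ℤ) • H.cz true z (H.cz true x (H.cz true x u) -
        H.cz false (x * x) u))) = 0 at h
    rw [← sub_eq_zero, ← h]
    simp only [sg_true]
    abel

theorem sDD (p : Bool) (z : B) (hz : H.g z = sg p • z) (u : B) :
    H.cz true x (H.jz p z u) = H.jz (!p) (H.cz true x z) u + sg p • H.jz p z (H.cz true x u) := by
  have h3 := x3_hom H a x ha hx p z hz
  have h := chk_sound H _ _ h3 _ _ _ (cdD p) u
  simp only [tdD, P.ev_smul, P.ev_mul, ev_psub, ev_pRL H _ _ h3, ev_pD H _ _ h3] at h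
  have e1 : H.cz true x z = z * x - sg p • (x * z) := by rw [H.cz_apply, H.gq_true, hz, mul_smul_comm]
  rw [e1, H.jz_sub, H.jz_smul]
  cases p
  · change H.cz true x (H.jz false z u) - (1 : ℤ) • H.jz false z (H.cz true x u) -
      (H.jz true (z * x) u - (1 : ℤ) • H.jz true (x * z) u) = 0 at h
    rw [← sub_eq_zero, ← h]
    simp only [sg_false, Bool.not_false]
    abel
  · change H.cz true x (H.jz true z u) - (-1 : ℤ) • H.jz true z (H.cz true x u) -
      (H.jz false (z * x) u - (-1 : ℤ) • H.jz false (x * z) u) = 0 at h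
    rw [← sub_eq_zero, ← h]
    simp only [sg_true, Bool.not_true]
    abel

theorem sDE (p : Bool) (z : B) (hz : H.g z = sg p • z) (u : B) :
    H.cz false (x * x) (H.jz p z u) = H.jz p (H.cz false (x * x) z) u + H.jz p z (H.cz false (x * x) u) := by
  have h3 := x3_hom H a x ha hx p z hz
  have h := chk_sound H _ _ h3 _ _ _ (cdE p) u
  simp only [tdE, pE, P.ev_mul, ev_psub, ev_pRL H _ _ h3, ev_pCw H _ _ h3] at h
  have e1 : H.cz false (x * x) z = z * (x * x) - (x * x) * z := rfl
  rw [e1, H.jz_sub]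
  cases p
  · change H.cz false (x * x) (H.jz false z u) - H.jz false z (H.cz false (x * x) u) -
      (H.jz false (z * (x * x)) u - H.jz false ((x * x) * z) u) = 0 at h
    rw [← sub_eq_zero, ← h]
    abel
  · change H.cz false (x * x) (H.jz true z u) - H.jz true z (H.cz false (x * x) u) -
      (H.jz true (z * (x * x)) u - H.jz true ((x * x) * z) u) = 0 at h
    rw [← sub_eq_zero, ← h]
    abel

theorem sDC (p : Bool) (z : B) (hz : H.g z = sg p • z) (u : B) :
    H.cz false a (H.jz p z u) = H.jz p (H.cz false a z) u + H.jz p z (H.cz false a u) := by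
  have h3 := x3_hom H a x ha hx p z hz
  have h := chk_sound H _ _ h3 _ _ _ (cdC p) u
  simp only [tdC, P.ev_mul, ev_psub, ev_pRL H _ _ h3, ev_pC H _ _ h3] at h
  have e1 : H.cz false a z = z * a - a * z := rfl
  rw [e1, H.jz_sub]
  cases p
  · change H.cz false a (H.jz false z u) - H.jz false z (H.cz false a u) -
      (H.jz false (z * a) u - H.jz false (a * z) u) = 0 at h
    rw [← sub_eq_zero, ← h]
    abel
  · change H.cz false a (H.jz true z u) - H.jz true z (H.cz false a u) -
      (H.jz true (z * a) u - H.jz true (a * z) u) = 0 at h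
    rw [← sub_eq_zero, ← h]
    abel

theorem sDT (p : Bool) (z : B) (hz : H.g z = sg p • z) (u : B) :
    tz x a (H.jz p z u) = H.jz (!p) (tz x a z) u + sg p • H.jz p z (tz x a u) := by
  have h3 := x3_hom H a x ha hx p z hz
  have h := chk_sound H _ _ h3 _ _ _ (cdT p) u
  simp only [tdT, P.ev_smul, P.ev_mul, ev_psub, ev_pRL H _ _ h3, ev_pTw H _ _ h3] at h
  have e1 : tz x a z = (6 : ℤ) • (z * a * x - z * (a * x)) := rfl
  rw [e1, H.jz_smul, H.jz_sub]
  cases p
  · change tz x a (H.jz false z u) - (1 : ℤ) • H.jz false z (tz x a u) -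
      (6 : ℤ) • (H.jz true (z * a * x) u - H.jz true (z * (a * x)) u) = 0 at h
    rw [← sub_eq_zero, ← h]
    simp only [sg_false, Bool.not_false]
    abel
  · change tz x a (H.jz true z u) - (-1 : ℤ) • H.jz true z (tz x a u) -
      (6 : ℤ) • (H.jz false (z * a * x) u - H.jz false (z * (a * x)) u) = 0 at h
    rw [← sub_eq_zero, ← h]
    simp only [sg_true, Bool.not_true]
    abel

theorem sCC (u : B) : H.cz false (a * a) u = H.jz false a (H.cz false a u) := by
  have h0 : H.g (0 : B) = sg false • (0 : B) := by simp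
  have h3 := x3_hom H a x ha hx false 0 h0
  have h := chk_sound H _ _ h3 _ _ _ cCC u
  simp only [tCC, P.ev_mul, ev_psub, ev_pRL H _ _ h3, ev_pCw H _ _ h3, ev_pC H _ _ h3] at h
  exact sub_eq_zero.mp h

theorem sTT (u : B) : tz x (a * a) u = H.jz false a (tz x a u) := by
  have h0 : H.g (0 : B) = sg false • (0 : B) := by simp
  have h3 := x3_hom H a x ha hx false 0 h0
  have h := chk_sound H _ _ h3 _ _ _ cTT u
  simp only [tTT, P.ev_mul, ev_psub, ev_pRL H _ _ h3, ev_pTw H _ _ h3] at h
  exact sub_eq_zero.mp h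

omit ha hx in
theorem sCa : H.cz false a a = 0 := by simp [H.cz_apply]

theorem sTa : tz x a a = 0 := by
  have h := H.l12 false false true a a x (by simp [ha]) (by simp [ha]) (by simp [hx])
  simp only [Bool.and_self, sg_false, one_smul] at h
  have h2 : as a a x = 0 := H.tf 2 _ (by norm_num) (by rw [two_zsmul]; exact h)
  rw [tz_apply, h2, smul_zero]

end
end Pool.Agent.N33.SA
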