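import Pool.Agent.N33.SA.Bil4
set_option autoImplicit false

/-! Rows of the certificate of level 8, part 0. -/

noncomputable section
namespace Pool.Agent.N33.SA

def rows8_0 : List BR := [
  ⟨0, 170, 0, [2], []⟩,
  ⟨0, 236, 0, [], []⟩,
  ⟨6, 170, 0, [], []⟩,
  ⟨3, 175, 0, [], []⟩,
  ⟨9, 13, 0, [], []⟩,
  ⟨10, 10, 0, [2], []⟩,
  ⟨4, 58, 0, [], []⟩,
  ⟨106, 10, 0, [], []⟩,
  ⟨19, 3, 0, [2], []⟩,
  ⟨61, 3, 0, [], []⟩,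
  ⟨44, 0, 0, [2], []⟩,
  ⟨242, 0, 0, [], []⟩,
  ⟨362, 0, 0, [], []⟩,
  ⟨0, 187, 1, [], []⟩,
  ⟨6, 19, 1, [], []⟩,
  ⟨15, 10, 1, [], []⟩,
  ⟨34, 3, 1, [], []⟩,
  ⟨19, 0, 1, [2], []⟩,
  ⟨109, 0, 1, [], []⟩,
  ⟨0, 84, 2, [], []⟩,
  ⟨10, 20, 2, [], []⟩,
  ⟨13, 43, 2, [], []⟩,
  ⟨44, 10, 2, [], []⟩,
  ⟨299, 3, 2, [], []⟩,
  ⟨0, 683, 3, [], []⟩,
  ⟨10, 43, 3, [], []⟩,
  ⟨13, 10, 3, [], []⟩,
  ⟨683, 0, 3, [], []⟩,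
  ⟨3, 170, 4, [], []⟩,
  ⟨4, 13, 4, [], []⟩,
  ⟨170, 3, 4, [], []⟩,
  ⟨83, 0, 4, [], []⟩,
  ⟨10, 4, 6, [], []⟩,
  ⟨74, 0, 6, [], []⟩,
  ⟨10, 10, 7, [], []⟩,
  ⟨0, 43, 0, [2,0], []⟩,
  ⟨0, 175, 0, [0], []⟩,
  ⟨6, 13, 0, [0], []⟩,
  ⟨3, 46, 0, [0], []⟩,
  ⟨27, 4, 0, [0], []⟩,
  ⟨4, 15, 0, [0], []⟩,
  ⟨43, 0, 0, [0,2], []⟩,
  ⟨25, 0, 0, [0], []⟩,
  ⟨115, 0, 0, [0], []⟩,
  ⟨0, 4, 1, [2,0], []⟩,
  ⟨3, 3, 1, [2,0], []⟩,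
  ⟨4, 0, 1, [3], []⟩,
  ⟨22, 0, 1, [0], []⟩,
  ⟨170, 0, 3, [0], []⟩,
  ⟨0, 4, 0, [2,1], []⟩,
  ⟨6, 10, 0, [0,0], []⟩,
  ⟨9, 3, 0, [0,0], []⟩,
  ⟨4, 0, 0, [3,0], []⟩,
  ⟨28, 0, 0, [1], []⟩,
  ⟨6, 3, 1, [0,0], []⟩,
  ⟨15, 0, 1, [1], []⟩]

def lits8_0_0 : List Q := [
  (Q.cons 3 (V.cons 1341 (-3) (V.cons 1359 1 (V.cons 1395 (-1) (V.cons 5295 (-1) (V.cons 5355 3 (V.cons 5547 1 V.nil)))))) (Q.cons 4 (V.cons 348 18 (V.cons 372 16 (V.cons 1206 2 (V.cons 1242 12 (V.cons 1260 (-2) (V.cons 1266 4 (V.cons 1338 (-12) (V.cons 1386 (-18) (V.cons 1452 (-2) (V.cons 1482 (-16) (V.cons 3498 (-4) (V.cons 5034 2 (V.cons 5802 2 (V.cons 10926 (-1) V.nil)))))))))))))) (Q.cons 10 (V.cons 348 (-9) (V.cons 372 (-8) (V.cons 1206 (-1) (V.cons 1242 (-6) (V.cons 1260 1 (V.cons 1266 (-2) (V.cons 1338 6 (V.cons 1386 9 (V.cons 1452 1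 (V.cons 1482 8 (V.cons 3498 2 (V.cons 5034 (-1) (V.cons 5802 (-1) V.nil))))))))))))) (Q.cons 13 (V.cons 2735 (-1) V.nil) (Q.cons 15 (V.cons 1323 (-1) (V.cons 2733 1 V.nil)) (Q.cons 19 (V.cons 2735 1 V.nil) (Q.cons 22 (V.cons 684 2 (V.cons 2730 (-1) V.nil)) (Q.cons 46 (V.cons 684 (-1) V.nil) (Q.cons 55 (V.cons 683 (-1) V.nil) (Q.cons 79 (V.cons 683 1 V.nil) Q.nil)))))))))),
  (Q.cons 3 (V.cons 1395 (-1) (V.cons 5547 1 V.nil)) (Q.cons 4 (V.cons 978 1 V.nil) (Q.cons 10 (V.cons 978 (-1) V.nil) (Q.cons 13 (V.cons 245 (-1) V.nil) (Q.cons 19 (V.cons 245 1 V.nil) Q.nil))))),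
  (Q.cons 27 (V.cons 1323 (-1) (V.cons 2733 1 V.nil)) (Q.cons 28 (V.cons 684 2 (V.cons 2730 (-1) V.nil)) (Q.cons 106 (V.cons 684 (-1) V.nil) (Q.cons 109 (V.cons 683 (-1) V.nil) (Q.cons 115 (V.cons 683 1 V.nil) Q.nil))))),
  (Q.cons 3 (V.cons 1341 (-30) (V.cons 1359 6 (V.cons 1395 (-22) (V.cons 5295 (-6) (V.cons 5355 30 (V.cons 5547 22 V.nil)))))) (Q.cons 10 (V.cons 342 11 (V.cons 348 (-2) (V.cons 372 (-34) (V.cons 978 1 (V.cons 1206 (-7) (V.cons 1242 (-10) (V.cons 1260 8 (V.cons 1266 (-8) (V.cons 1326 (-4) (V.cons 1338 10 (V.cons 1386 2 (V.cons 1452 8 (V.cons 1482 25 (V.cons 3498 (-1) (V.cons 3756 (-1) (V.cons 5034 1 (V.cons 5802 1 V.nil))))))))))))))))) (Q.cons 13 (V.cons 221 4 (V.cons 245 (-2) (V.cons 311 (-4) (V.cons 317 (-10) (V.cons 335 4 (V.cons 347 (-1) (V.cons 365 (-10) (V.cons 371 11 (V.cons 875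 7 (V.cons 941 2 (V.cons 971 1 (V.cons 1211 1 (V.cons 1451 (-1) (V.cons 3755 (-1) V.nil)))))))))))))) (Q.cons 20 (V.cons 86 3 (V.cons 182 (-1) (V.cons 218 1 (V.cons 236 2 (V.cons 242 (-1) (V.cons 302 (-2) (V.cons 314 (-2) (V.cons 938 (-1) V.nil)))))))) (Q.cons 43 (V.cons 221 (-3) (V.cons 245 2 (V.cons 311 3 (V.cons 317 6 (V.cons 335 (-3) (V.cons 347 2 (V.cons 365 6 (V.cons 371 (-6) (V.cons 875 (-2) (V.cons 941 (-1) (V.cons 971 (-1) (V.cons 1211 (-2) (V.cons 1259 (-2) V.nil))))))))))))) (Q.cons 44 (V.cons 86 (-3) (V.cons 182 1 (V.cons 218 (-1) (V.cons 236 (-2) (V.cons 242 1 (V.cons 302 2 (V.cons 314 2 (V.cons 938 1 V.nil)))))))) Q.nil)))))),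
  (Q.cons 25 (V.cons 83 (-1) V.nil) (Q.cons 34 (V.cons 84 (-1) (V.cons 330 1 V.nil)) (Q.cons 55 (V.cons 83 3 V.nil) (Q.cons 61 (V.cons 83 1 V.nil) (Q.cons 79 (V.cons 83 (-3) V.nil) (Q.cons 91 (V.cons 83 1 V.nil) (Q.cons 92 (V.cons 20 (-2) V.nil) (Q.cons 109 (V.cons 83 3 V.nil) (Q.cons 115 (V.cons 83 (-1) V.nil) (Q.cons 116 (V.cons 20 (-4) V.nil) (Q.cons 187 (V.cons 83 (-1) V.nil) (Q.cons 218 (V.cons 20 (-2) V.nil) (Q.cons 235 (V.cons 83 (-1) V.nil) (Q.cons 314 (V.cons 20 2 V.nil) (Q.cons 362 (V.cons 20 2 V.nil) (Q.cons 427 (V.cons 83 (-2) V.nil) (Q.cons 428 (V.cons 20 2 V.nil) (Q.cons 458 (V.cons 20 2 V.nil) Q.nil)))))))))))))))))),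
  (Q.cons 43 (V.cons 221 (-3) (V.cons 245 (-1) (V.cons 311 3 (V.cons 317 4 (V.cons 335 (-3) (V.cons 347 2 (V.cons 365 4 (V.cons 371 (-3) (V.cons 875 2 (V.cons 971 1 (V.cons 1211 (-2) (V.cons 1259 (-3) (V.cons 1451 (-1) V.nil))))))))))))) (Q.cons 44 (V.cons 182 2 (V.cons 686 (-1) V.nil)) (Q.cons 83 (V.cons 175 1 V.nil) (Q.cons 170 (V.cons 182 (-1) V.nil) (Q.cons 173 (V.cons 175 (-1) V.nil) (Q.cons 175 (V.cons 83 (-1) (V.cons 173 1 V.nil)) (Q.cons 182 (V.cons 44 2 (V.cons 170 (-1) V.nil)) (Q.cons 221 (V.cons 43 3 V.nil) (Q.cons 245 (V.cons 43 1 V.nil) (Q.cons 311 (V.cons 43 (-3) V.nil) (Q.cons 317 (V.cons 43 (-4) V.nil) (Q.cons 335 (V.cons 43 3 V.nil) (Q.cons 347 (V.cons 43 (-2) V.nil) (Q.cons 365 (V.cons 43 (-4) V.nil) (Q.cons 371 (V.cons 43 3 V.nil) (Q.cons 461 (V.cons 43 (-3) V.nil) (Q.cons 467 (V.cons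 43 2 V.nil) (Q.cons 686 (V.cons 44 (-1) V.nil) (Q.cons 875 (V.cons 43 (-2) V.nil) (Q.cons 971 (V.cons 43 (-1) V.nil) (Q.cons 1211 (V.cons 43 2 V.nil) (Q.cons 1259 (V.cons 43 3 V.nil) (Q.cons 1451 (V.cons 43 1 V.nil) (Q.cons 1835 (V.cons 43 1 V.nil) Q.nil)))))))))))))))))))))))),
  (Q.cons 19 (V.cons 245 (-1) (V.cons 941 1 V.nil)) (Q.cons 20 (V.cons 236 2 (V.cons 938 (-1) V.nil)) (Q.cons 74 (V.cons 236 (-1) V.nil) (Q.cons 77 (V.cons 235 (-1) V.nil) (Q.cons 83 (V.cons 235 1 V.nil) Q.nil))))),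
  (Q.cons 427 (V.cons 83 (-1) (V.cons 173 1 V.nil)) (Q.cons 428 (V.cons 44 2 (V.cons 170 (-1) V.nil)) (Q.cons 467 (V.cons 43 1 V.nil) (Q.cons 1706 (V.cons 44 (-1) V.nil) (Q.cons 1709 (V.cons 43 (-1) V.nil) Q.nil))))),
  (Q.cons 74 (V.cons 86 1 (V.cons 182 (-1) V.nil)) (Q.cons 77 (V.cons 55 2 (V.cons 175 (-1) V.nil)) (Q.cons 84 (V.cons 46 (-1) V.nil) (Q.cons 299 (V.cons 55 (-1) V.nil) (Q.cons 300 (V.cons 46 1 V.nil) (Q.cons 302 (V.cons 20 1 (V.cons 44 (-1) V.nil)) (Q.cons 311 (V.cons 13 2 (V.cons 43 (-1) V.nil)) (Q.cons 342 (V.cons 10 (-1) V.nil) (Q.cons 1199 (V.cons 13 (-1) V.nil) (Q.cons 1206 (V.cons 10 1 V.nil) Q.nil)))))))))),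
  (Q.cons 242 (V.cons 20 1 (V.cons 44 (-1) V.nil)) (Q.cons 245 (V.cons 13 2 (V.cons 43 (-1) V.nil)) (Q.cons 342 (V.cons 10 (-5) V.nil) (Q.cons 348 (V.cons 10 9 V.nil) (Q.cons 372 (V.cons 10 18 V.nil) (Q.cons 971 (V.cons 13 (-1) V.nil) (Q.cons 1206 (V.cons 10 4 V.nil) (Q.cons 1242 (V.cons 10 9 V.nil) (Q.cons 1260 (V.cons 10 (-3) V.nil) (Q.cons 1266 (V.cons 10 3 V.nil) (Q.cons 1326 (V.cons 10 1 V.nil) (Q.cons 1338 (V.cons 10 (-9) V.nil) (Q.cons 1386 (V.cons 10 (-9) V.nil) (Q.cons 1452 (V.cons 10 (-3) V.nil) (Q.cons 1482 (V.cons 10 (-15) V.nil) Q.nil)))))))))))))))]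

def lits8_0_1 : List Q := [
  (Q.cons 83 (V.cons 55 1 (V.cons 79 (-1) V.nil)) (Q.cons 330 (V.cons 22 1 (V.cons 46 (-1) V.nil)) (Q.cons 335 (V.cons 13 1 (V.cons 19 (-1) V.nil)) (Q.cons 339 (V.cons 15 (-1) V.nil) (Q.cons 1323 (V.cons 15 1 V.nil) (Q.cons 1326 (V.cons 4 1 (V.cons 10 (-1) V.nil)) (Q.cons 1359 (V.cons 3 (-1) V.nil) (Q.cons 5295 (V.cons 3 1 V.nil) Q.nil)))))))),
  (Q.cons 342 (V.cons 4 (-13) (V.cons 10 5 V.nil)) (Q.cons 348 (V.cons 4 11 (V.cons 10 (-9) V.nil)) (Q.cons 372 (V.cons 4 36 (V.cons 10 (-18) V.nil)) (Q.cons 468 (V.cons 4 3 V.nil) (Q.cons 971 (V.cons 13 1 (V.cons 19 (-1) V.nil)) (Q.cons 978 (V.cons 4 1 (V.cons 10 (-1) V.nil)) (Q.cons 1206 (V.cons 4 10 (V.cons 10 (-4) V.nil)) (Q.cons 1242 (V.cons 4 16 (V.cons 10 (-9) V.nil)) (Q.cons 1260 (V.cons 4 (-7) (V.cons 10 3 V.nil)) (Q.cons 1266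 (V.cons 4 5 (V.cons 10 (-3) V.nil)) (Q.cons 1326 (V.cons 4 3 (V.cons 10 (-1) V.nil)) (Q.cons 1338 (V.cons 4 (-16) (V.cons 10 9 V.nil)) (Q.cons 1386 (V.cons 4 (-11) (V.cons 10 9 V.nil)) (Q.cons 1452 (V.cons 4 (-7) (V.cons 10 3 V.nil)) (Q.cons 1482 (V.cons 4 (-28) (V.cons 10 15 V.nil)) (Q.cons 3498 (V.cons 4 3 V.nil) (Q.cons 5034 (V.cons 4 (-1) V.nil) (Q.cons 5802 (V.cons 4 (-1) V.nil) (Q.cons 7338 (V.cons 4 (-3) V.nil) Q.nil))))))))))))))))))),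
  (Q.cons 1451 (V.cons 13 1 (V.cons 19 (-1) V.nil)) (Q.cons 1452 (V.cons 4 2 (V.cons 10 (-1) V.nil)) (Q.cons 1491 (V.cons 3 1 V.nil) (Q.cons 5802 (V.cons 4 (-1) V.nil) (Q.cons 5805 (V.cons 3 (-1) V.nil) Q.nil))))),
  (Q.cons 0 (V.cons 1396 (-1) (V.cons 22186 1 V.nil)) (Q.cons 3 (V.cons 981 (-1) (V.cons 1341 12 (V.cons 1359 (-3) (V.cons 1395 5 (V.cons 5295 3 (V.cons 5355 (-12) (V.cons 5547 (-5) (V.cons 15021 1 V.nil)))))))) (Q.cons 10 (V.cons 342 (-2) (V.cons 348 (-1) (V.cons 372 8 (V.cons 978 (-1) (V.cons 1206 1 (V.cons 1242 2 (V.cons 1260 (-3) (V.cons 1266 3 (V.cons 1326 1 (V.cons 1338 (-2) (V.cons 1386 1 (V.cons 1452 (-3) (V.cons 1482 (-5) (V.cons 3756 1 V.nil)))))))))))))) (Q.cons 13 (V.cons 221 (-2) (V.cons 245 1 (V.cons 311 2 (V.cons 317 2 (V.cons 335 (-2) (V.cons 347 2 (V.cons 365 2 (V.cons 371 (-1)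 (V.cons 875 2 (V.cons 1211 (-2) (V.cons 1259 (-2) (V.cons 3755 (-1) V.nil)))))))))))) (Q.cons 19 (V.cons 221 2 (V.cons 245 (-1) (V.cons 311 (-2) (V.cons 317 (-2) (V.cons 335 2 (V.cons 347 (-2) (V.cons 365 (-2) (V.cons 371 1 (V.cons 875 (-2) (V.cons 1211 2 (V.cons 1259 2 (V.cons 3755 1 V.nil)))))))))))) (Q.cons 44 (V.cons 86 2 (V.cons 182 (-1) (V.cons 236 1 (V.cons 302 (-1) (V.cons 362 1 (V.cons 938 (-1) V.nil)))))) (Q.cons 74 (V.cons 86 (-2) (V.cons 182 1 (V.cons 236 (-1) (V.cons 302 1 (V.cons 362 (-1) (V.cons 938 1 V.nil)))))) Q.nil))))))),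
  (Q.cons 27 (V.cons 339 1 (V.cons 1197 (-1) V.nil)) (Q.cons 106 (V.cons 84 1 (V.cons 300 (-1) V.nil)) (Q.cons 109 (V.cons 299 1 V.nil) (Q.cons 115 (V.cons 299 (-1) V.nil) (Q.cons 428 (V.cons 74 1 V.nil) (Q.cons 458 (V.cons 74 (-1) V.nil) Q.nil)))))),
  (Q.cons 58 (V.cons 330 (-1) (V.cons 684 1 V.nil)) (Q.cons 235 (V.cons 83 1 (V.cons 173 (-1) V.nil)) (Q.cons 236 (V.cons 170 (-1) V.nil) (Q.cons 242 (V.cons 170 1 V.nil) (Q.cons 941 (V.cons 43 1 V.nil) (Q.cons 971 (V.cons 43 (-1) V.nil) Q.nil)))))),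
  (Q.cons 55 (V.cons 83 (-1) (V.cons 173 1 V.nil)) (Q.cons 61 (V.cons 83 (-1) (V.cons 173 1 V.nil)) (Q.cons 79 (V.cons 83 1 (V.cons 173 (-1) V.nil)) (Q.cons 86 (V.cons 20 2 (V.cons 44 (-2) V.nil)) (Q.cons 91 (V.cons 83 (-1) (V.cons 173 1 V.nil)) (Q.cons 109 (V.cons 83 (-1) (V.cons 173 1 V.nil)) (Q.cons 115 (V.cons 83 (-1) (V.cons 173 1 V.nil)) (Q.cons 116 (V.cons 20 (-4) (V.cons 44 4 V.nil)) (Q.cons 182 (V.cons 20 (-1) (V.cons 44 1 V.nil)) (Q.cons 187 (V.cons 83 1 (V.cons 173 (-1) V.nil)) (Q.cons 218 (V.cons 20 (-1) (V.cons 44 1 V.nil)) (Q.cons 221 (V.cons 43 (-4) V.nil) (Q.cons 235 (V.cons 83 1 (V.cons 173 (-1) V.nil)) (Q.cons 236 (V.cons 20 1 (V.cons 44 (-1) V.nil)) (Q.cons 242 (V.cons 20 (-1) (V.cons 44 1 V.nil)) (Q.cons 302 (V.cons 20 (-1) (V.cons 44 1 V.nil)) (Q.cons 311 (V.cons 43 2 V.nil) (Q.cons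 314 (V.cons 20 1 (V.cons 44 (-1) V.nil)) (Q.cons 317 (V.cons 43 4 V.nil) (Q.cons 335 (V.cons 43 (-2) V.nil) (Q.cons 342 (V.cons 10 6 V.nil) (Q.cons 348 (V.cons 10 (-12) V.nil) (Q.cons 365 (V.cons 43 2 V.nil) (Q.cons 371 (V.cons 43 (-2) V.nil) (Q.cons 372 (V.cons 10 (-24) V.nil) (Q.cons 427 (V.cons 83 2 (V.cons 173 (-2) V.nil)) (Q.cons 428 (V.cons 20 1 (V.cons 44 (-1) V.nil)) (Q.cons 458 (V.cons 20 1 (V.cons 44 (-1) V.nil)) (Q.cons 461 (V.cons 43 2 V.nil) (Q.cons 467 (V.cons 43 (-4) V.nil) (Q.cons 468 (V.cons 10 (-2) V.nil) (Q.cons 1206 (V.cons 10 (-4) V.nil) (Q.cons 1242 (V.cons 10 (-12) V.nil) (Q.cons 1260 (V.cons 10 6 V.nil) (Q.cons 1266 (V.cons 10 (-6) V.nil) (Q.cons 1326 (V.cons 10 (-2) V.nil) (Q.cons 1338 (V.cons 10 12 V.nil) (Q.cons 1386 (V.cons 10 12 V.nil) (Q.cons 1452 (V.cons 10 4 V.nil) (Q.cons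 1482 (V.cons 10 20 V.nil) (Q.cons 1706 (V.cons 20 2 (V.cons 44 (-2) V.nil)) (Q.cons 1709 (V.cons 43 2 V.nil) (Q.cons 6828 (V.cons 10 2 V.nil) Q.nil))))))))))))))))))))))))))))))))))))))))))),
  (Q.cons 74 (V.cons 182 1 (V.cons 302 (-1) V.nil)) (Q.cons 84 (V.cons 46 1 V.nil) (Q.cons 299 (V.cons 55 (-1) (V.cons 79 1 V.nil)) (Q.cons 300 (V.cons 46 (-1) V.nil) (Q.cons 302 (V.cons 44 1 (V.cons 74 (-1) V.nil)) (Q.cons 339 (V.cons 15 (-1) V.nil) (Q.cons 342 (V.cons 10 1 V.nil) (Q.cons 1197 (V.cons 15 1 V.nil) (Q.cons 1199 (V.cons 13 (-1) (V.cons 19 1 V.nil)) (Q.cons 1206 (V.cons 10 (-1) V.nil) (Q.cons 1341 (V.cons 3 (-12) V.nil) (Q.cons 1359 (V.cons 3 2 V.nil) (Q.cons 1395 (V.cons 3 (-10) V.nil) (Q.cons 5295 (V.cons 3 (-2) V.nil) (Q.cons 5355 (V.cons 3 12 V.nil) (Q.cons 5547 (V.cons 3 10 V.nil) Q.nil)))))))))))))))),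
  (Q.cons 116 (V.cons 44 1 (V.cons 74 (-1) V.nil)) (Q.cons 348 (V.cons 10 (-2) V.nil) (Q.cons 372 (V.cons 10 (-1) V.nil) (Q.cons 467 (V.cons 13 (-1) (V.cons 19 1 V.nil)) (Q.cons 1242 (V.cons 10 (-1) V.nil) (Q.cons 1338 (V.cons 10 1 V.nil) (Q.cons 1341 (V.cons 3 (-3) V.nil) (Q.cons 1359 (V.cons 3 1 V.nil) (Q.cons 1386 (V.cons 10 2 V.nil) (Q.cons 1395 (V.cons 3 (-1) V.nil) (Q.cons 1482 (V.cons 10 1 V.nil) (Q.cons 5295 (V.cons 3 (-1) V.nil) (Q.cons 5355 (V.cons 3 3 V.nil) (Q.cons 5547 (V.cons 3 1 V.nil) Q.nil)))))))))))))),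
  (Q.cons 3 (V.cons 1341 (-4) (V.cons 1395 (-4) (V.cons 5355 4 (V.cons 5547 4 V.nil)))) (Q.cons 4 (V.cons 342 (-4) V.nil) (Q.cons 9 (V.cons 339 (-2) V.nil) (Q.cons 10 (V.cons 342 4 V.nil) Q.nil))))]

def lits8_0_2 : List Q := [
  (Q.cons 10 (V.cons 348 4 (V.cons 372 2 (V.cons 1242 2 (V.cons 1338 (-2) (V.cons 1386 (-4) (V.cons 1482 (-2) V.nil)))))) (Q.cons 43 (V.cons 221 (-4) (V.cons 311 6 (V.cons 317 6 (V.cons 335 (-6) (V.cons 347 2 (V.cons 365 6 (V.cons 371 (-6) (V.cons 1211 (-2) (V.cons 1259 (-2) V.nil))))))))) (Q.cons 44 (V.cons 86 (-4) V.nil) (Q.cons 46 (V.cons 84 (-4) (V.cons 330 4 V.nil)) (Q.cons 55 (V.cons 83 (-2) V.nil) (Q.cons 61 (V.cons 83 (-2) V.nil) (Q.cons 79 (V.cons 83 (-2) V.nil) (Q.cons 91 (V.cons 83 (-2) V.nil) (Q.cons 109 (V.cons 83 2 V.nil) (Q.cons 115 (V.cons 83 (-2) V.nil) (Q.cons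 170 (V.cons 86 4 V.nil) (Q.cons 175 (V.cons 83 4 V.nil) (Q.cons 187 (V.cons 83 2 V.nil) (Q.cons 235 (V.cons 83 2 V.nil) Q.nil)))))))))))))),
  (Q.cons 20 (V.cons 86 (-8) (V.cons 182 2 (V.cons 218 (-2) (V.cons 236 2 (V.cons 242 (-2) (V.cons 302 2 (V.cons 314 2 (V.cons 686 4 V.nil)))))))) (Q.cons 55 (V.cons 173 (-4) (V.cons 683 4 V.nil)) (Q.cons 86 (V.cons 170 4 V.nil) (Q.cons 98 (V.cons 170 2 V.nil) (Q.cons 116 (V.cons 170 (-8) V.nil) (Q.cons 182 (V.cons 170 (-4) V.nil) (Q.cons 218 (V.cons 170 (-4) V.nil) (Q.cons 314 (V.cons 170 4 V.nil) (Q.cons 458 (V.cons 170 8 V.nil) Q.nil))))))))),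
  (Q.cons 83 (V.cons 55 2 (V.cons 61 2 (V.cons 79 2 (V.cons 91 2 (V.cons 175 (-4) (V.cons 187 (-2) (V.cons 235 (-2) V.nil))))))) (Q.cons 182 (V.cons 44 (-4) (V.cons 170 4 V.nil)) (Q.cons 221 (V.cons 43 4 V.nil) (Q.cons 245 (V.cons 43 4 V.nil) (Q.cons 311 (V.cons 43 (-2) V.nil) (Q.cons 317 (V.cons 43 2 V.nil) (Q.cons 335 (V.cons 43 2 V.nil) (Q.cons 347 (V.cons 43 2 V.nil) (Q.cons 365 (V.cons 43 2 V.nil) (Q.cons 371 (V.cons 43 (-2) V.nil) (Q.cons 461 (V.cons 43 4 V.nil) (Q.cons 467 (V.cons 43 (-8) V.nil) (Q.cons 875 (V.cons 43 (-4) V.nil) (Q.cons 971 (V.cons 43 (-4) V.nil) (Q.cons 1211 (V.cons 43 (-2) V.nil) (Q.cons 1259 (V.cons 43 (-2) V.nil) (Q.cons 1835 (V.cons 43 4 V.nil) Q.nil))))))))))))))))),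
  (Q.cons 299 (V.cons 55 (-1) (V.cons 61 (-1) (V.cons 79 1 (V.cons 91 (-1) (V.cons 187 1 (V.cons 235 1 V.nil)))))) (Q.cons 342 (V.cons 10 8 V.nil) (Q.cons 372 (V.cons 10 (-4) V.nil) (Q.cons 1194 (V.cons 22 (-4) (V.cons 46 4 V.nil)) (Q.cons 1197 (V.cons 15 (-4) V.nil) (Q.cons 1199 (V.cons 13 (-4) (V.cons 43 4 V.nil)) (Q.cons 1206 (V.cons 10 (-2) V.nil) (Q.cons 1242 (V.cons 10 2 V.nil) (Q.cons 1260 (V.cons 10 (-2) V.nil) (Q.cons 1266 (V.cons 10 2 V.nil) (Q.cons 1326 (V.cons 10 (-2) V.nil) (Q.cons 1338 (V.cons 10 (-2) V.nil) (Q.cons 1452 (V.cons 10 2 V.nil) (Q.cons 1482 (V.cons 10 2 V.nil) (Q.cons 4779 (V.cons 15 4 V.nil) (Q.cons 4782 (V.cons 10 (-4) V.nil) Q.nil)))))))))))))))),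
  (Q.cons 3 (V.cons 1269 (-6) (V.cons 1341 (-230) (V.cons 1359 54 (V.cons 1395 (-182) (V.cons 1491 (-6) (V.cons 5295 (-52) (V.cons 5355 230 (V.cons 5547 182 (V.cons 15021 (-2) (V.cons 20139 6 (V.cons 23211 6 (V.cons 43695 (-2) (V.cons 60075 2 V.nil))))))))))))) (Q.cons 4 (V.cons 342 40 (V.cons 348 (-24) (V.cons 372 (-104) (V.cons 978 (-2) (V.cons 1206 (-22) (V.cons 1242 (-30) (V.cons 1260 22 (V.cons 1266 (-14) (V.cons 1326 (-18) (V.cons 1338 32 (V.cons 1386 24 (V.cons 1452 22 (V.cons 1482 74 (V.cons 3498 (-16) (V.cons 5034 8 (V.cons 5802 8 (V.cons 10926 (-2) (V.cons 15018 2 V.nil)))))))))))))))))) (Q.cons 6 (V.cons 5290 (-2) (V.cons 10924 2 V.nil)) (Q.cons 9 (V.cons 10923 (-2) V.nil) (Q.cons 10 (V.cons 342 (-14) (V.cons 348 (-42) (V.cons 372 (-20) (V.cons 978 6 (V.cons 1206 2 (V.cons 1242 (-34) (V.cons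 1266 (-8) (V.cons 1326 16 (V.cons 1338 32 (V.cons 1386 42 (V.cons 1482 28 (V.cons 3498 16 (V.cons 3756 (-4) (V.cons 5034 (-8) (V.cons 5802 (-8) (V.cons 10926 (-2) (V.cons 15018 (-2) V.nil))))))))))))))))) (Q.cons 13 (V.cons 2735 (-2) V.nil) (Q.cons 15 (V.cons 2733 2 (V.cons 10923 (-2) V.nil)) (Q.cons 19 (V.cons 2735 2 V.nil) (Q.cons 22 (V.cons 2730 (-2) V.nil) (Q.cons 27 (V.cons 2733 (-2) (V.cons 10923 2 V.nil)) (Q.cons 28 (V.cons 2730 2 V.nil) (Q.cons 46 (V.cons 2730 2 V.nil) (Q.cons 106 (V.cons 2730 (-2) V.nil) Q.nil))))))))))))),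
  (Q.cons 10 (V.cons 348 (-26) (V.cons 372 (-16) (V.cons 1242 (-14) (V.cons 1338 14 (V.cons 1386 26 (V.cons 1482 16 V.nil)))))) (Q.cons 43 (V.cons 221 (-8) (V.cons 245 (-2) (V.cons 311 8 (V.cons 317 16 (V.cons 335 (-6) (V.cons 347 2 (V.cons 365 16 (V.cons 371 (-16) (V.cons 875 (-6) (V.cons 941 (-2) (V.cons 971 2 (V.cons 1211 (-2) (V.cons 1259 (-2) (V.cons 2735 (-2) (V.cons 3755 2 V.nil))))))))))))))) (Q.cons 44 (V.cons 86 (-6) (V.cons 182 2 (V.cons 218 (-2) (V.cons 236 (-4) (V.cons 242 2 (V.cons 302 4 (V.cons 314 4 (V.cons 686 (-2) (V.cons 938 2 V.nil))))))))) (Q.cons 46 (V.cons 330 (-2) (V.cons 684 2 V.nil)) (Q.cons 55 (V.cons 683 (-2) V.nil) (Q.cons 61 (V.cons 683 (-2) V.nil) (Q.cons 79 (V.cons 683 (-2) V.nil) (Q.cons 83 (V.cons 175 2 V.nil) (Q.cons 91 (V.cons 683 (-2) V.nil) (Q.cons 109 (V.cons 683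 2 V.nil) (Q.cons 115 (V.cons 683 (-2) V.nil) (Q.cons 116 (V.cons 170 2 V.nil) (Q.cons 170 (V.cons 86 14 (V.cons 182 (-4) (V.cons 218 4 (V.cons 236 2 (V.cons 302 (-6) (V.cons 314 (-6) (V.cons 686 (-2) (V.cons 938 (-2) V.nil)))))))) (Q.cons 173 (V.cons 175 (-2) V.nil) (Q.cons 175 (V.cons 173 2 (V.cons 683 2 V.nil)) (Q.cons 182 (V.cons 170 (-4) V.nil) (Q.cons 187 (V.cons 173 (-2) (V.cons 683 4 V.nil)) (Q.cons 218 (V.cons 170 (-2) V.nil) (Q.cons 235 (V.cons 683 2 V.nil) (Q.cons 236 (V.cons 170 (-4) V.nil) (Q.cons 242 (V.cons 170 2 V.nil) (Q.cons 302 (V.cons 170 2 V.nil) (Q.cons 314 (V.cons 170 2 V.nil) (Q.cons 428 (V.cons 170 (-2) V.nil) (Q.cons 686 (V.cons 170 2 V.nil) (Q.cons 938 (V.cons 170 2 V.nil) Q.nil)))))))))))))))))))))))))),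
  (Q.cons 20 (V.cons 182 (-4) (V.cons 218 (-2) (V.cons 236 (-4) (V.cons 242 2 (V.cons 302 2 (V.cons 314 2 (V.cons 686 2 (V.cons 938 2 V.nil)))))))) (Q.cons 55 (V.cons 83 (-2) (V.cons 173 2 V.nil)) (Q.cons 83 (V.cons 55 2 (V.cons 61 2 (V.cons 79 2 (V.cons 91 2 (V.cons 175 (-4) (V.cons 187 (-2) (V.cons 235 (-2) V.nil))))))) (Q.cons 84 (V.cons 46 2 V.nil) (Q.cons 86 (V.cons 44 (-2) (V.cons 170 6 V.nil)) (Q.cons 98 (V.cons 170 2 V.nil) (Q.cons 116 (V.cons 170 (-8) V.nil) (Q.cons 182 (V.cons 170 (-4) V.nil) (Q.cons 218 (V.cons 44 2 (V.cons 170 (-6) V.nil)) (Q.cons 221 (V.cons 43 2 V.nil) (Q.cons 314 (V.cons 170 4 V.nil) (Q.cons 330 (V.cons 46 (-2) V.nil) (Q.cons 458 (V.cons 170 8 V.nil) (Q.cons 875 (V.cons 43 (-2) V.nil) Q.nil)))))))))))))),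
  (Q.cons 342 (V.cons 4 40 (V.cons 10 (-14) V.nil)) (Q.cons 348 (V.cons 4 (-24) (V.cons 10 (-42) V.nil)) (Q.cons 372 (V.cons 4 (-104) (V.cons 10 (-20) V.nil)) (Q.cons 468 (V.cons 4 (-8) (V.cons 10 4 V.nil)) (Q.cons 683 (V.cons 55 1 (V.cons 61 1 (V.cons 79 (-1) (V.cons 91 1 (V.cons 187 (-1) (V.cons 235 (-1) V.nil)))))) (Q.cons 978 (V.cons 4 (-2) (V.cons 10 6 V.nil)) (Q.cons 1206 (V.cons 4 (-22) (V.cons 10 2 V.nil)) (Q.cons 1242 (V.cons 4 (-30) (V.cons 10 (-34) V.nil)) (Q.cons 1260 (V.cons 4 22 V.nil) (Q.cons 1266 (V.cons 4 (-14) (V.cons 10 (-8) V.nil)) (Q.cons 1269 (V.cons 3 6 V.nil) (Q.cons 1326 (V.cons 4 (-18) (V.cons 10 16 V.nil)) (Q.cons 1338 (V.cons 4 32 (V.cons 10 32 V.nil)) (Q.cons 1341 (V.cons 3 230 V.nil) (Q.cons 1359 (V.cons 3 (-54) V.nil) (Q.cons 1386 (V.cons 4 24 (V.cons 10 42 V.nil)) (Q.cons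 1395 (V.cons 3 182 V.nil) (Q.cons 1452 (V.cons 4 22 V.nil) (Q.cons 1482 (V.cons 4 74 (V.cons 10 28 V.nil)) (Q.cons 1491 (V.cons 3 6 V.nil) (Q.cons 1875 (V.cons 3 (-6) V.nil) (Q.cons 2730 (V.cons 22 (-2) (V.cons 46 2 V.nil)) (Q.cons 2733 (V.cons 15 (-2) V.nil) (Q.cons 2735 (V.cons 13 2 (V.cons 19 (-2) V.nil)) (Q.cons 3498 (V.cons 4 (-16) (V.cons 10 16 V.nil)) (Q.cons 3756 (V.cons 10 (-4) V.nil) (Q.cons 5034 (V.cons 4 8 (V.cons 10 (-8) V.nil)) (Q.cons 5295 (V.cons 3 52 V.nil) (Q.cons 5355 (V.cons 3 (-230) V.nil) (Q.cons 5547 (V.cons 3 (-182) V.nil) (Q.cons 5802 (V.cons 4 8 (V.cons 10 (-8) V.nil)) (Q.cons 7338 (V.cons 4 8 (V.cons 10 (-4) V.nil)) (Q.cons 10923 (V.cons 15 2 V.nil) (Q.cons 10926 (V.cons 4 (-2) (V.cons 10 (-2) V.nil)) (Q.cons 15018 (V.cons 4 2 (V.cons 10 (-2) V.nil)) (Q.cons 15021 (V.cons 3 2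 V.nil) (Q.cons 20139 (V.cons 3 (-6) V.nil) (Q.cons 23211 (V.cons 3 (-6) V.nil) (Q.cons 29355 (V.cons 3 6 V.nil) (Q.cons 43695 (V.cons 3 2 V.nil) (Q.cons 60075 (V.cons 3 (-2) V.nil) Q.nil))))))))))))))))))))))))))))))))))))))))),
  (Q.cons 3 (V.cons 1341 24 (V.cons 1359 (-6) (V.cons 1395 14 (V.cons 5295 6 (V.cons 5355 (-24) (V.cons 5547 (-14) V.nil)))))) (Q.cons 10 (V.cons 342 46 (V.cons 348 (-112) (V.cons 372 (-194) (V.cons 1206 (-32) (V.cons 1242 (-92) (V.cons 1260 34 (V.cons 1266 (-32) (V.cons 1326 (-16) (V.cons 1338 92 (V.cons 1386 112 (V.cons 1452 34 (V.cons 1482 158 (V.cons 3498 (-4) (V.cons 3756 (-2) (V.cons 5034 2 (V.cons 5802 2 (V.cons 10926 2 (V.cons 15018 2 V.nil)))))))))))))))))) (Q.cons 13 (V.cons 221 (-2) (V.cons 245 (-6) (V.cons 311 2 (V.cons 317 (-4) (V.cons 335 2 (V.cons 347 8 (V.cons 365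 (-4) (V.cons 371 8 (V.cons 875 16 (V.cons 941 4 (V.cons 971 4 (V.cons 1211 (-6) (V.cons 1259 (-10) (V.cons 1451 (-4) (V.cons 2735 (-6) (V.cons 3755 (-2) V.nil)))))))))))))))) (Q.cons 15 (V.cons 1323 2 (V.cons 2733 (-2) V.nil)) (Q.cons 20 (V.cons 686 2 V.nil) (Q.cons 22 (V.cons 684 4 (V.cons 2730 4 V.nil)) (Q.cons 28 (V.cons 684 4 (V.cons 2730 4 V.nil)) (Q.cons 34 (V.cons 684 2 (V.cons 2730 2 V.nil)) (Q.cons 43 (V.cons 221 18 (V.cons 245 (-6) (V.cons 311 (-18) (V.cons 317 (-20) (V.cons 335 22 (V.cons 347 (-16) (V.cons 365 (-20) (V.cons 371 12 (V.cons 875 (-20) (V.cons 941 4 (V.cons 1211 14 (V.cons 1259 22 (V.cons 1451 8 (V.cons 2735 (-2) (V.cons 3755 2 V.nil))))))))))))))) (Q.cons 44 (V.cons 686 (-2) V.nil) (Q.cons 46 (V.cons 684 (-6) (V.cons 2730 (-2) V.nil)) (Q.cons 55 (V.cons 683 (-2) V.nil) (Q.cons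 58 (V.cons 684 2 (V.cons 2730 (-2) V.nil)) (Q.cons 61 (V.cons 683 2 V.nil) (Q.cons 106 (V.cons 684 (-4) (V.cons 2730 (-4) V.nil)) (Q.cons 175 (V.cons 683 2 V.nil) (Q.cons 235 (V.cons 683 (-2) V.nil) Q.nil))))))))))))))))),
  (Q.cons 4 (V.cons 372 6 (V.cons 1242 2 (V.cons 1338 (-2) (V.cons 1482 (-6) V.nil)))) (Q.cons 19 (V.cons 221 (-2) (V.cons 875 2 V.nil)) (Q.cons 20 (V.cons 86 2 (V.cons 98 2 (V.cons 182 (-4) (V.cons 218 (-2) (V.cons 314 4 V.nil))))) (Q.cons 22 (V.cons 84 (-2) (V.cons 330 2 V.nil)) (Q.cons 25 (V.cons 83 (-4) V.nil) (Q.cons 74 (V.cons 86 6 (V.cons 98 2 (V.cons 182 (-4) (V.cons 218 (-6) (V.cons 314 4 V.nil))))) (Q.cons 77 (V.cons 55 2 V.nil) (Q.cons 83 (V.cons 55 (-2) V.nil) (Q.cons 86 (V.cons 20 (-2) V.nil) (Q.cons 92 (V.cons 20 2 V.nil) (Q.cons 302 (V.cons 20 2 V.nil) (Q.cons 362 (V.cons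 20 (-2) V.nil) Q.nil))))))))))))]

def lits8_0_3 : List Q := [
  (Q.cons 170 (V.cons 86 (-2) (V.cons 92 2 (V.cons 98 1 (V.cons 182 1 (V.cons 218 1 (V.cons 236 (-1) (V.cons 242 1 (V.cons 302 1 (V.cons 314 (-1) (V.cons 362 (-2) V.nil)))))))))) (Q.cons 221 (V.cons 13 2 (V.cons 43 (-18) V.nil)) (Q.cons 245 (V.cons 13 6 (V.cons 43 6 V.nil)) (Q.cons 311 (V.cons 13 (-2) (V.cons 43 18 V.nil)) (Q.cons 317 (V.cons 13 4 (V.cons 43 20 V.nil)) (Q.cons 335 (V.cons 13 (-2) (V.cons 43 (-22) V.nil)) (Q.cons 342 (V.cons 10 46 V.nil) (Q.cons 347 (V.cons 13 (-8) (V.cons 43 16 V.nil)) (Q.cons 348 (V.cons 10 (-96) V.nil) (Q.cons 365 (V.cons 13 4 (V.cons 43 20 V.nil)) (Q.cons 371 (V.cons 13 (-8) (V.cons 43 (-12) V.nil)) (Q.cons 372 (V.cons 10 (-186) V.nil) (Q.cons 461 (V.cons 13 8 (V.cons 43 12 V.nil)) (Q.cons 467 (V.cons 13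 (-16) V.nil) (Q.cons 468 (V.cons 10 2 V.nil) (Q.cons 683 (V.cons 55 2 (V.cons 61 (-2) (V.cons 175 (-2) (V.cons 235 2 V.nil)))) (Q.cons 684 (V.cons 22 4 (V.cons 46 (-6) (V.cons 58 2 V.nil))) (Q.cons 686 (V.cons 20 2 (V.cons 44 (-2) V.nil)) (Q.cons 875 (V.cons 13 (-16) (V.cons 43 20 V.nil)) (Q.cons 941 (V.cons 13 (-4) (V.cons 43 (-4) V.nil)) (Q.cons 971 (V.cons 13 (-4) V.nil) (Q.cons 1206 (V.cons 10 (-32) V.nil) (Q.cons 1211 (V.cons 13 6 (V.cons 43 (-14) V.nil)) (Q.cons 1242 (V.cons 10 (-84) V.nil) (Q.cons 1259 (V.cons 13 10 (V.cons 43 (-22) V.nil)) (Q.cons 1260 (V.cons 10 34 V.nil) (Q.cons 1266 (V.cons 10 (-32) V.nil) (Q.cons 1323 (V.cons 15 (-2) V.nil) (Q.cons 1326 (V.cons 10 (-16) V.nil) (Q.cons 1338 (V.cons 10 84 V.nil) (Q.cons 1386 (V.cons 10 96 V.nil) (Q.cons 1451 (V.cons 13 4 (V.cons 43 (-8) V.nil))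 (Q.cons 1452 (V.cons 10 34 V.nil) (Q.cons 1482 (V.cons 10 150 V.nil) (Q.cons 1835 (V.cons 13 8 (V.cons 43 (-12) V.nil)) (Q.cons 2730 (V.cons 22 4 (V.cons 46 (-2) (V.cons 58 (-2) V.nil))) (Q.cons 2733 (V.cons 15 2 V.nil) (Q.cons 2735 (V.cons 13 6 (V.cons 43 2 V.nil)) (Q.cons 3498 (V.cons 10 (-4) V.nil) (Q.cons 3755 (V.cons 13 2 (V.cons 43 (-2) V.nil)) (Q.cons 3756 (V.cons 10 (-2) V.nil) (Q.cons 5034 (V.cons 10 2 V.nil) (Q.cons 5802 (V.cons 10 2 V.nil) (Q.cons 7338 (V.cons 10 (-2) V.nil) (Q.cons 10926 (V.cons 10 2 V.nil) (Q.cons 15018 (V.cons 10 2 V.nil) Q.nil)))))))))))))))))))))))))))))))))))))))))))))),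
  (Q.cons 83 (V.cons 25 1 (V.cons 55 (-1) (V.cons 61 1 (V.cons 79 1 (V.cons 91 1 (V.cons 187 (-1) (V.cons 235 (-1) V.nil))))))) (Q.cons 330 (V.cons 22 (-2) (V.cons 46 2 V.nil)) (Q.cons 335 (V.cons 13 (-2) (V.cons 19 2 V.nil)) (Q.cons 339 (V.cons 15 (-2) V.nil) (Q.cons 348 (V.cons 4 8 (V.cons 10 8 V.nil)) (Q.cons 372 (V.cons 4 12 (V.cons 10 12 V.nil)) (Q.cons 1206 (V.cons 4 2 (V.cons 10 2 V.nil)) (Q.cons 1242 (V.cons 4 6 (V.cons 10 6 V.nil)) (Q.cons 1260 (V.cons 4 (-2) (V.cons 10 (-2) V.nil)) (Q.cons 1266 (V.cons 4 2 (V.cons 10 2 V.nil)) (Q.cons 1323 (V.cons 15 2 V.nil) (Q.cons 1326 (V.cons 4 (-4) V.nil) (Q.cons 1338 (V.cons 4 (-4) (V.cons 10 (-8) V.nil)) (Q.cons 1341 (V.cons 3 2 V.nil) (Q.cons 1359 (V.cons 3 (-2) V.nil) (Q.cons 1386 (V.cons 4 (-8) (V.cons 10 (-8) V.nil)) (Q.cons 1452 (V.cons 4 (-2) (V.cons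 10 (-2) V.nil)) (Q.cons 1482 (V.cons 4 (-10) (V.cons 10 (-10) V.nil)) (Q.cons 5295 (V.cons 3 2 V.nil) (Q.cons 5355 (V.cons 3 (-2) V.nil) Q.nil)))))))))))))))))))),
  (Q.cons 10 (V.cons 348 (-4) (V.cons 372 (-2) (V.cons 1242 (-2) (V.cons 1338 2 (V.cons 1386 4 (V.cons 1482 2 V.nil)))))) (Q.cons 43 (V.cons 221 16 (V.cons 311 (-10) (V.cons 317 (-18) (V.cons 335 16 (V.cons 347 (-2) (V.cons 365 (-16) (V.cons 371 22 (V.cons 1199 (-6) (V.cons 1211 2 (V.cons 1259 2 (V.cons 1451 (-6) V.nil))))))))))) (Q.cons 44 (V.cons 86 (-4) (V.cons 92 (-4) (V.cons 98 (-4) (V.cons 362 8 V.nil)))) (Q.cons 46 (V.cons 300 4 (V.cons 330 (-4) V.nil)) (Q.cons 55 (V.cons 77 (-4) (V.cons 83 4 V.nil)) (Q.cons 61 (V.cons 77 (-4) (V.cons 83 4 V.nil)) (Q.cons 79 (V.cons 77 (-4) (V.cons 83 4 V.nil)) (Q.cons 83 (V.cons 25 (-4) V.nil) (Q.cons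 86 (V.cons 20 (-8) V.nil) (Q.cons 91 (V.cons 77 (-4) (V.cons 83 4 V.nil)) (Q.cons 109 (V.cons 77 4 (V.cons 83 (-4) V.nil)) (Q.cons 115 (V.cons 77 (-4) (V.cons 83 4 V.nil)) (Q.cons 116 (V.cons 74 10 V.nil) (Q.cons 170 (V.cons 86 (-2) (V.cons 92 6 (V.cons 98 2 (V.cons 302 6 (V.cons 362 (-10) V.nil))))) (Q.cons 173 (V.cons 25 4 V.nil) (Q.cons 175 (V.cons 77 8 (V.cons 83 (-8) V.nil)) (Q.cons 182 (V.cons 74 (-6) V.nil) (Q.cons 187 (V.cons 77 4 (V.cons 83 (-4) V.nil)) (Q.cons 218 (V.cons 20 (-8) V.nil) (Q.cons 221 (V.cons 19 (-18) V.nil) (Q.cons 235 (V.cons 77 4 (V.cons 83 (-4) V.nil)) (Q.cons 236 (V.cons 74 (-10) V.nil) (Q.cons 242 (V.cons 74 4 V.nil) (Q.cons 245 (V.cons 19 (-6) V.nil) (Q.cons 302 (V.cons 20 4 (V.cons 74 4 V.nil)) (Q.cons 311 (V.cons 19 10 V.nil) (Q.cons 314 (V.cons 20 8 V.nil) (Q.cons 317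 (V.cons 19 (-16) V.nil) (Q.cons 330 (V.cons 22 (-4) V.nil) (Q.cons 335 (V.cons 19 (-16) V.nil) (Q.cons 347 (V.cons 19 2 V.nil) (Q.cons 362 (V.cons 20 4 (V.cons 74 (-4) V.nil)) (Q.cons 365 (V.cons 19 (-16) V.nil) (Q.cons 371 (V.cons 19 22 V.nil) (Q.cons 428 (V.cons 20 (-4) (V.cons 74 (-4) V.nil)) (Q.cons 458 (V.cons 20 4 (V.cons 74 (-6) V.nil)) (Q.cons 461 (V.cons 19 (-30) V.nil) (Q.cons 467 (V.cons 19 60 V.nil) (Q.cons 684 (V.cons 22 4 V.nil) (Q.cons 686 (V.cons 74 6 V.nil) (Q.cons 875 (V.cons 19 42 V.nil) (Q.cons 938 (V.cons 74 6 V.nil) (Q.cons 941 (V.cons 19 2 V.nil) (Q.cons 971 (V.cons 19 10 V.nil) (Q.cons 1211 (V.cons 19 (-2) V.nil) (Q.cons 1259 (V.cons 19 (-8) V.nil) (Q.cons 1451 (V.cons 19 (-6) V.nil) (Q.cons 1835 (V.cons 19 (-30) V.nil) (Q.cons 2735 (V.cons 19 6 V.nil) (Q.cons 3755 (V.cons 19 (-6)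 V.nil) Q.nil)))))))))))))))))))))))))))))))))))))))))))))))))),
  (Q.cons 74 (V.cons 86 (-2) (V.cons 92 (-4) (V.cons 98 (-2) (V.cons 182 1 (V.cons 218 1 (V.cons 236 (-1) (V.cons 242 1 (V.cons 302 1 (V.cons 314 (-1) (V.cons 362 4 V.nil)))))))))) (Q.cons 299 (V.cons 25 (-4) (V.cons 55 3 (V.cons 61 3 (V.cons 79 3 (V.cons 91 3 (V.cons 175 (-6) (V.cons 187 (-3) (V.cons 235 (-3) V.nil)))))))) (Q.cons 300 (V.cons 22 (-4) V.nil) (Q.cons 302 (V.cons 44 4 (V.cons 74 (-4) V.nil)) (Q.cons 311 (V.cons 13 (-4) (V.cons 19 4 V.nil)) (Q.cons 317 (V.cons 13 (-4) (V.cons 19 4 V.nil)) (Q.cons 335 (V.cons 13 (-4) (V.cons 19 4 V.nil)) (Q.cons 342 (V.cons 4 (-8) V.nil) (Q.cons 347 (V.cons 13 (-4) (V.cons 19 4 V.nil)) (Q.cons 365 (V.cons 13 4 (V.cons 19 (-4) V.nil)) (Q.cons 371 (V.cons 13 (-4) (V.cons 19 4 V.nil)) (Q.cons 372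 (V.cons 10 10 V.nil) (Q.cons 1194 (V.cons 22 (-2) (V.cons 46 6 V.nil)) (Q.cons 1199 (V.cons 13 8 (V.cons 19 (-8) V.nil)) (Q.cons 1206 (V.cons 10 (-6) V.nil) (Q.cons 1211 (V.cons 13 4 (V.cons 19 (-4) V.nil)) (Q.cons 1242 (V.cons 4 (-8) V.nil) (Q.cons 1259 (V.cons 13 4 (V.cons 19 (-4) V.nil)) (Q.cons 1260 (V.cons 10 (-10) V.nil) (Q.cons 1266 (V.cons 10 4 V.nil) (Q.cons 1269 (V.cons 3 6 V.nil) (Q.cons 1326 (V.cons 4 4 (V.cons 10 4 V.nil)) (Q.cons 1338 (V.cons 4 8 V.nil) (Q.cons 1341 (V.cons 3 296 V.nil) (Q.cons 1359 (V.cons 3 (-68) V.nil) (Q.cons 1386 (V.cons 4 4 (V.cons 10 (-4) V.nil)) (Q.cons 1395 (V.cons 3 234 V.nil) (Q.cons 1452 (V.cons 4 (-4) (V.cons 10 (-4) V.nil)) (Q.cons 1482 (V.cons 4 4 (V.cons 10 (-6) V.nil)) (Q.cons 1491 (V.cons 3 2 V.nil) (Q.cons 4782 (V.cons 10 6 V.nil) (Q.cons 5034 (V.cons 10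 6 V.nil) (Q.cons 5295 (V.cons 3 62 V.nil) (Q.cons 5355 (V.cons 3 (-296) V.nil) (Q.cons 5547 (V.cons 3 (-234) V.nil) (Q.cons 5805 (V.cons 3 (-2) V.nil) (Q.cons 19119 (V.cons 3 6 V.nil) (Q.cons 20139 (V.cons 3 (-6) V.nil) Q.nil)))))))))))))))))))))))))))))))))))))),
  (Q.cons 10 (V.cons 348 (-4) (V.cons 372 (-2) (V.cons 1242 (-2) (V.cons 1338 2 (V.cons 1386 4 (V.cons 1482 2 V.nil)))))) (Q.cons 43 (V.cons 221 2 (V.cons 245 (-18) (V.cons 311 2 (V.cons 317 12 (V.cons 335 4 (V.cons 347 2 (V.cons 365 12 (V.cons 371 (-10) (V.cons 875 (-10) (V.cons 941 6 (V.cons 971 6 (V.cons 1211 (-2) (V.cons 1259 (-4) (V.cons 1451 (-2) (V.cons 2735 (-6) (V.cons 3755 6 V.nil)))))))))))))))) (Q.cons 44 (V.cons 86 8 (V.cons 182 (-4) (V.cons 236 4 (V.cons 302 (-4) (V.cons 362 4 (V.cons 686 (-4) (V.cons 938 (-4) V.nil))))))) (Q.cons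 55 (V.cons 83 2 (V.cons 173 (-2) V.nil)) (Q.cons 61 (V.cons 83 2 (V.cons 173 (-2) V.nil)) (Q.cons 79 (V.cons 83 2 (V.cons 173 (-2) V.nil)) (Q.cons 83 (V.cons 55 (-2) (V.cons 61 (-2) (V.cons 79 (-2) (V.cons 91 (-2) (V.cons 175 8 (V.cons 187 (-2) (V.cons 235 2 V.nil))))))) (Q.cons 86 (V.cons 44 8 V.nil) (Q.cons 91 (V.cons 83 2 (V.cons 173 (-2) V.nil)) (Q.cons 109 (V.cons 83 (-2) (V.cons 173 2 V.nil)) (Q.cons 115 (V.cons 83 2 (V.cons 173 (-2) V.nil)) (Q.cons 116 (V.cons 44 (-12) (V.cons 170 10 V.nil)) (Q.cons 170 (V.cons 182 (-6) (V.cons 236 (-10) (V.cons 242 4 (V.cons 302 4 (V.cons 362 (-4) (V.cons 686 6 (V.cons 938 6 V.nil))))))) (Q.cons 173 (V.cons 55 2 (V.cons 61 2 (V.cons 79 2 (V.cons 91 2 (V.cons 175 (-8) (V.cons 187 2 (V.cons 235 (-2) V.nil))))))) (Q.cons 175 (V.cons 83 (-8) (V.cons 173 8 V.nil)) (Q.cons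 182 (V.cons 44 (-4) (V.cons 170 (-6) V.nil)) (Q.cons 187 (V.cons 83 2 (V.cons 173 (-2) V.nil)) (Q.cons 221 (V.cons 43 (-2) V.nil) (Q.cons 235 (V.cons 83 (-2) (V.cons 173 2 V.nil)) (Q.cons 236 (V.cons 44 4 (V.cons 170 (-10) V.nil)) (Q.cons 242 (V.cons 170 4 V.nil) (Q.cons 245 (V.cons 43 18 V.nil) (Q.cons 302 (V.cons 44 (-4) (V.cons 170 4 V.nil)) (Q.cons 311 (V.cons 43 (-2) V.nil) (Q.cons 317 (V.cons 43 (-12) V.nil) (Q.cons 335 (V.cons 43 (-4) V.nil) (Q.cons 347 (V.cons 43 (-2) V.nil) (Q.cons 362 (V.cons 44 4 (V.cons 170 (-4) V.nil)) (Q.cons 365 (V.cons 43 (-12) V.nil) (Q.cons 371 (V.cons 43 10 V.nil) (Q.cons 428 (V.cons 44 4 (V.cons 170 (-4) V.nil)) (Q.cons 458 (V.cons 44 8 (V.cons 170 (-6) V.nil)) (Q.cons 461 (V.cons 43 (-14) V.nil) (Q.cons 467 (V.cons 43 20 V.nil) (Q.cons 686 (V.cons 44 (-4) (V.cons 170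 6 V.nil)) (Q.cons 875 (V.cons 43 10 V.nil) (Q.cons 938 (V.cons 44 (-4) (V.cons 170 6 V.nil)) (Q.cons 941 (V.cons 43 (-6) V.nil) (Q.cons 971 (V.cons 43 (-6) V.nil) (Q.cons 1211 (V.cons 43 2 V.nil) (Q.cons 1259 (V.cons 43 4 V.nil) (Q.cons 1451 (V.cons 43 2 V.nil) (Q.cons 1835 (V.cons 43 (-6) V.nil) (Q.cons 2735 (V.cons 43 6 V.nil) (Q.cons 3755 (V.cons 43 (-6) V.nil) Q.nil))))))))))))))))))))))))))))))))))))))))))))),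
  (Q.cons 3 (V.cons 1269 1 (V.cons 1341 19 (V.cons 1359 (-4) (V.cons 1395 15 (V.cons 1491 1 (V.cons 5295 4 (V.cons 5355 (-19) (V.cons 5547 (-15) (V.cons 20139 (-1) (V.cons 23211 (-1) V.nil)))))))))) (Q.cons 4 (V.cons 342 (-22) (V.cons 348 20 (V.cons 372 66 (V.cons 978 1 (V.cons 1206 11 (V.cons 1242 19 (V.cons 1260 (-13) (V.cons 1266 11 (V.cons 1326 11 (V.cons 1338 (-18) (V.cons 1386 (-20) (V.cons 1452 (-13) (V.cons 1482 (-49) (V.cons 3498 6 (V.cons 5034 (-4) (V.cons 5802 (-4) (V.cons 15018 (-1) V.nil))))))))))))))))) (Q.cons 10 (V.cons 342 1 (V.cons 348 (-13) (V.cons 372 (-15) (V.cons 1206 (-1) (V.cons 1242 (-8) (V.cons 1260 2 (V.cons 1266 (-4) (V.cons 1338 7 (V.cons 1386 13 (V.cons 1452 2 (V.cons 1482 14 (V.cons 3498 3 (V.cons 5034 (-1) (V.cons 5802 (-1) V.nil)))))))))))))) (Q.cons 13 (V.cons 221 (-5)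 (V.cons 311 5 (V.cons 317 4 (V.cons 335 (-5) (V.cons 347 6 (V.cons 365 4 (V.cons 371 (-1) (V.cons 875 9 (V.cons 971 1 (V.cons 1211 (-5) (V.cons 1259 (-8) (V.cons 1451 (-3) (V.cons 3755 (-1) V.nil))))))))))))) (Q.cons 19 (V.cons 221 11 (V.cons 245 2 (V.cons 311 (-11) (V.cons 317 (-12) (V.cons 335 9 (V.cons 347 (-10) (V.cons 365 (-12) (V.cons 371 7 (V.cons 875 (-13) (V.cons 971 (-3) (V.cons 1211 9 (V.cons 1259 14 (V.cons 1451 5 (V.cons 2735 1 (V.cons 3755 1 V.nil))))))))))))))) (Q.cons 20 (V.cons 686 1 V.nil) (Q.cons 22 (V.cons 330 2 (V.cons 2730 (-1) V.nil)) (Q.cons 43 (V.cons 221 (-3) (V.cons 245 (-1) (V.cons 311 3 (V.cons 317 4 (V.cons 335 (-2) (V.cons 347 2 (V.cons 365 4 (V.cons 371 (-3) (V.cons 875 2 (V.cons 971 1 (V.cons 1211 (-2) (V.cons 1259 (-3) (V.cons 1451 (-1) V.nil))))))))))))) (Q.cons 46 (V.cons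 330 (-1) V.nil) (Q.cons 55 (V.cons 683 1 V.nil) (Q.cons 58 (V.cons 330 1 (V.cons 684 (-1) V.nil)) (Q.cons 74 (V.cons 686 (-1) V.nil) (Q.cons 79 (V.cons 683 (-1) V.nil) (Q.cons 91 (V.cons 173 (-2) (V.cons 683 1 V.nil)) (Q.cons 187 (V.cons 173 1 V.nil) (Q.cons 218 (V.cons 170 1 V.nil) (Q.cons 314 (V.cons 170 (-1) V.nil) Q.nil))))))))))))))))),
  (Q.cons 0 (V.cons 1396 2 (V.cons 22186 (-2) V.nil)) (Q.cons 3 (V.cons 1269 (-1) (V.cons 1341 (-17) (V.cons 1359 8 (V.cons 1395 (-1) (V.cons 1491 (-1) (V.cons 5295 (-8) (V.cons 5355 17 (V.cons 5547 1 (V.cons 20139 1 (V.cons 23211 1 V.nil)))))))))) (Q.cons 4 (V.cons 342 5 (V.cons 348 11 (V.cons 372 (-9) (V.cons 978 1 (V.cons 1206 (-3) (V.cons 1242 2 (V.cons 1260 2 (V.cons 1266 (-5) (V.cons 1326 (-2) (V.cons 1338 (-2) (V.cons 1386 (-11) (V.cons 1452 2 (V.cons 1482 7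 (V.cons 3498 4 (V.cons 15018 (-1) V.nil))))))))))))))) (Q.cons 10 (V.cons 342 4 (V.cons 348 (-12) (V.cons 372 (-25) (V.cons 978 1 (V.cons 1206 (-3) (V.cons 1242 (-12) (V.cons 1260 5 (V.cons 1266 (-6) (V.cons 1326 (-1) (V.cons 1338 12 (V.cons 1386 12 (V.cons 1452 5 (V.cons 1482 20 (V.cons 3756 (-1) V.nil)))))))))))))) (Q.cons 13 (V.cons 221 2 (V.cons 245 (-2) (V.cons 311 (-2) (V.cons 317 (-2) (V.cons 335 2 (V.cons 347 (-3) (V.cons 365 (-2) (V.cons 371 1 (V.cons 875 (-3) (V.cons 971 1 (V.cons 1211 3 (V.cons 1259 4 (V.cons 1451 1 (V.cons 3755 1 V.nil)))))))))))))) (Q.cons 19 (V.cons 221 (-6) (V.cons 245 4 (V.cons 311 6 (V.cons 317 12 (V.cons 335 (-6) (V.cons 347 4 (V.cons 365 12 (V.cons 371 (-12) (V.cons 875 (-4) (V.cons 941 (-2) (V.cons 971 (-2) (V.cons 1211 (-4) (V.cons 1259 (-4) V.nil))))))))))))) (Q.cons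 20 (V.cons 86 (-3) (V.cons 182 1 (V.cons 218 (-1) (V.cons 236 (-2) (V.cons 242 1 (V.cons 302 2 (V.cons 314 2 (V.cons 938 1 V.nil)))))))) (Q.cons 43 (V.cons 221 3 (V.cons 245 (-2) (V.cons 311 (-3) (V.cons 317 (-6) (V.cons 335 3 (V.cons 347 (-2) (V.cons 365 (-6) (V.cons 371 6 (V.cons 875 2 (V.cons 941 1 (V.cons 971 1 (V.cons 1211 2 (V.cons 1259 2 V.nil))))))))))))) (Q.cons 74 (V.cons 86 3 (V.cons 182 (-1) (V.cons 218 1 (V.cons 236 2 (V.cons 242 (-1) (V.cons 302 (-2) (V.cons 314 (-2) (V.cons 938 (-1) V.nil)))))))) Q.nil))))))))),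
  (Q.cons 27 (V.cons 339 (-1) (V.cons 1323 1 V.nil)) (Q.cons 28 (V.cons 330 1 V.nil) (Q.cons 106 (V.cons 84 (-1) V.nil) (Q.cons 109 (V.cons 83 1 V.nil) (Q.cons 115 (V.cons 83 (-2) V.nil) (Q.cons 116 (V.cons 20 1 V.nil) (Q.cons 427 (V.cons 83 1 V.nil) (Q.cons 458 (V.cons 20 (-1) V.nil) Q.nil)))))))),
  (Q.cons 3 (V.cons 1341 (-9) (V.cons 1359 3 (V.cons 1395 (-3) (V.cons 5295 (-3) (V.cons 5355 9 (V.cons 5547 3 V.nil)))))) (Q.cons 10 (V.cons 342 (-1) (V.cons 348 2 (V.cons 372 5 (V.cons 1206 1 (V.cons 1242 3 (V.cons 1338 (-3) (V.cons 1386 (-2) (V.cons 1482 (-5) V.nil)))))))) (Q.cons 13 (V.cons 221 (-6) (V.cons 245 (-3) (V.cons 311 6 (V.cons 317 6 (V.cons 335 (-6) (V.cons 347 2 (V.cons 365 6 (V.cons 371 (-3) (V.cons 875 4 (V.cons 971 2 (V.cons 1211 (-2) (V.cons 1259 (-4) (V.cons 1451 (-2) (V.cons 3755 1 V.nil))))))))))))))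 (Q.cons 20 (V.cons 86 4 (V.cons 182 (-4) (V.cons 218 (-2) (V.cons 236 (-2) (V.cons 242 2 (V.cons 314 2 (V.cons 362 2 V.nil))))))) (Q.cons 43 (V.cons 221 3 (V.cons 245 (-1) (V.cons 311 (-3) (V.cons 317 (-4) (V.cons 335 3 (V.cons 347 (-1) (V.cons 365 (-4) (V.cons 371 3 (V.cons 941 1 (V.cons 1211 1 (V.cons 1259 1 V.nil))))))))))) (Q.cons 44 (V.cons 86 (-2) (V.cons 182 1 (V.cons 236 (-1) (V.cons 302 1 (V.cons 362 (-1) (V.cons 938 1 V.nil)))))) (Q.cons 170 (V.cons 86 (-2) (V.cons 182 2 (V.cons 218 1 (V.cons 236 1 (V.cons 242 (-1) (V.cons 314 (-1) (V.cons 362 (-1) V.nil))))))) Q.nil))))))),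
  (Q.cons 106 (V.cons 84 1 (V.cons 330 (-1) V.nil)) (Q.cons 109 (V.cons 83 2 (V.cons 299 (-1) V.nil)) (Q.cons 116 (V.cons 20 2 V.nil) (Q.cons 427 (V.cons 77 (-1) V.nil) (Q.cons 428 (V.cons 74 (-1) V.nil) (Q.cons 1706 (V.cons 20 (-1) V.nil) Q.nil))))))]

def lits8_0_4 : List Q := [
  (Q.cons 19 (V.cons 245 (-1) (V.cons 971 1 V.nil)) (Q.cons 20 (V.cons 242 2 (V.cons 938 (-1) V.nil)) (Q.cons 74 (V.cons 236 (-1) V.nil) (Q.cons 77 (V.cons 235 1 V.nil) (Q.cons 83 (V.cons 61 (-2) V.nil) (Q.cons 84 (V.cons 58 1 V.nil) (Q.cons 299 (V.cons 61 1 V.nil) (Q.cons 330 (V.cons 58 (-1) V.nil) Q.nil)))))))),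
  (Q.cons 170 (V.cons 86 1 (V.cons 302 (-1) V.nil)) (Q.cons 173 (V.cons 79 2 (V.cons 175 (-1) V.nil)) (Q.cons 221 (V.cons 19 (-6) (V.cons 43 3 V.nil)) (Q.cons 245 (V.cons 19 (-2) (V.cons 43 1 V.nil)) (Q.cons 311 (V.cons 19 6 (V.cons 43 (-3) V.nil)) (Q.cons 317 (V.cons 19 8 (V.cons 43 (-4) V.nil)) (Q.cons 330 (V.cons 22 2 V.nil) (Q.cons 335 (V.cons 19 (-4) (V.cons 43 2 V.nil)) (Q.cons 347 (V.cons 19 4 (V.cons 43 (-2) V.nil)) (Q.cons 348 (V.cons 10 (-9) V.nil) (Q.cons 365 (V.cons 19 8 (V.cons 43 (-4) V.nil)) (Q.cons 371 (V.cons 19 (-6) (V.cons 43 3 V.nil)) (Q.cons 372 (V.cons 10 (-8) V.nil) (Q.cons 461 (V.cons 19 6 (V.cons 43 (-3) V.nil)) (Q.cons 467 (V.cons 19 (-4) (V.cons 43 2 V.nil)) (Q.cons 468 (V.cons 10 2 V.nil) (Q.cons 683 (V.cons 55 (-1) V.nil) (Q.cons 684 (V.cons 46 (-1) V.nil) (Q.cons 686 (V.cons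 20 1 (V.cons 74 (-1) V.nil)) (Q.cons 875 (V.cons 19 4 (V.cons 43 (-2) V.nil)) (Q.cons 971 (V.cons 19 2 (V.cons 43 (-1) V.nil)) (Q.cons 1206 (V.cons 10 (-1) V.nil) (Q.cons 1211 (V.cons 19 (-4) (V.cons 43 2 V.nil)) (Q.cons 1242 (V.cons 10 (-6) V.nil) (Q.cons 1259 (V.cons 19 (-6) (V.cons 43 3 V.nil)) (Q.cons 1260 (V.cons 10 1 V.nil) (Q.cons 1266 (V.cons 10 (-2) V.nil) (Q.cons 1326 (V.cons 4 2 V.nil) (Q.cons 1338 (V.cons 10 6 V.nil) (Q.cons 1386 (V.cons 10 9 V.nil) (Q.cons 1451 (V.cons 19 (-2) (V.cons 43 1 V.nil)) (Q.cons 1452 (V.cons 10 1 V.nil) (Q.cons 1482 (V.cons 10 8 V.nil) (Q.cons 1835 (V.cons 19 (-2) (V.cons 43 1 V.nil)) (Q.cons 2730 (V.cons 22 (-1) V.nil) (Q.cons 2735 (V.cons 13 (-1) V.nil) (Q.cons 3498 (V.cons 10 2 V.nil) (Q.cons 5034 (V.cons 10 (-1) V.nil) (Q.cons 5802 (V.cons 10 (-1) V.nil) (Q.cons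 7338 (V.cons 10 (-2) V.nil) (Q.cons 10926 (V.cons 4 (-1) V.nil) Q.nil))))))))))))))))))))))))))))))))))))))))),
  (Q.cons 98 (V.cons 20 1 (V.cons 74 (-1) V.nil)) (Q.cons 221 (V.cons 19 4 (V.cons 43 (-2) V.nil)) (Q.cons 311 (V.cons 13 1 (V.cons 19 (-2) (V.cons 43 1 V.nil))) (Q.cons 317 (V.cons 13 1 (V.cons 19 (-6) (V.cons 43 3 V.nil))) (Q.cons 335 (V.cons 13 (-1) (V.cons 19 2 (V.cons 43 (-1) V.nil))) (Q.cons 342 (V.cons 4 2 (V.cons 10 (-2) V.nil)) (Q.cons 347 (V.cons 13 1 (V.cons 19 (-2) (V.cons 43 1 V.nil))) (Q.cons 348 (V.cons 4 (-4) (V.cons 10 4 V.nil)) (Q.cons 365 (V.cons 13 1 (V.cons 19 (-2) (V.cons 43 1 V.nil))) (Q.cons 371 (V.cons 13 1 (V.cons 19 2 (V.cons 43 (-1) V.nil))) (Q.cons 372 (V.cons 4 (-4) (V.cons 10 8 V.nil)) (Q.cons 461 (V.cons 19 (-4) (V.cons 43 2 V.nil)) (Q.cons 467 (V.cons 19 4 (V.cons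 43 (-2) V.nil)) (Q.cons 1206 (V.cons 4 (-1) (V.cons 10 1 V.nil)) (Q.cons 1211 (V.cons 13 (-1) (V.cons 19 2 (V.cons 43 (-1) V.nil))) (Q.cons 1242 (V.cons 4 (-1) (V.cons 10 3 V.nil)) (Q.cons 1259 (V.cons 13 (-1) (V.cons 19 2 (V.cons 43 (-1) V.nil))) (Q.cons 1260 (V.cons 4 1 (V.cons 10 (-1) V.nil)) (Q.cons 1266 (V.cons 4 (-1) (V.cons 10 1 V.nil)) (Q.cons 1326 (V.cons 4 (-1) (V.cons 10 1 V.nil)) (Q.cons 1338 (V.cons 4 1 (V.cons 10 (-3) V.nil)) (Q.cons 1341 (V.cons 3 6 V.nil) (Q.cons 1359 (V.cons 3 (-2) V.nil) (Q.cons 1386 (V.cons 4 4 (V.cons 10 (-4) V.nil)) (Q.cons 1395 (V.cons 3 4 V.nil) (Q.cons 1451 (V.cons 13 (-2) V.nil) (Q.cons 1452 (V.cons 4 1 (V.cons 10 (-3) V.nil)) (Q.cons 1482 (V.cons 4 5 (V.cons 10 (-5) V.nil)) (Q.cons 5295 (V.cons 3 2 V.nil) (Q.cons 5355 (V.cons 3 (-6) V.nil) (Q.cons 5547 (V.cons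 3 (-4) V.nil) (Q.cons 5802 (V.cons 4 (-2) V.nil) Q.nil)))))))))))))))))))))))))))))))),
  (Q.cons 348 (V.cons 10 1 V.nil) (Q.cons 372 (V.cons 10 2 V.nil) (Q.cons 458 (V.cons 20 1 (V.cons 74 (-1) V.nil)) (Q.cons 461 (V.cons 19 2 (V.cons 43 (-1) V.nil)) (Q.cons 468 (V.cons 4 2 (V.cons 10 (-1) V.nil)) (Q.cons 1242 (V.cons 10 1 V.nil) (Q.cons 1338 (V.cons 10 (-1) V.nil) (Q.cons 1386 (V.cons 10 (-1) V.nil) (Q.cons 1482 (V.cons 10 (-2) V.nil) (Q.cons 1835 (V.cons 13 (-1) V.nil) (Q.cons 7338 (V.cons 4 (-1) V.nil) Q.nil))))))))))),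
  (Q.cons 3 (V.cons 1341 (-3) (V.cons 1395 (-2) (V.cons 5355 3 (V.cons 5547 2 V.nil)))) (Q.cons 10 (V.cons 1206 1 (V.cons 1242 (-1) (V.cons 1326 (-1) (V.cons 1338 1 V.nil)))) (Q.cons 13 (V.cons 1211 (-1) V.nil) (Q.cons 15 (V.cons 339 1 (V.cons 1323 (-1) V.nil)) (Q.cons 19 (V.cons 1211 1 V.nil) (Q.cons 20 (V.cons 302 (-1) V.nil) (Q.cons 43 (V.cons 311 1 (V.cons 335 (-1) V.nil)) (Q.cons 44 (V.cons 314 1 V.nil) (Q.cons 46 (V.cons 84 (-1) (V.cons 330 1 V.nil)) (Q.cons 55 (V.cons 299 (-1) V.nil) (Q.cons 58 (V.cons 300 1 (V.cons 330 (-1) V.nil)) (Q.cons 74 (V.cons 302 1 (V.cons 314 (-1) V.nil)) (Q.cons 79 (V.cons 299 1 V.nil) (Q.cons 83 (V.cons 79 (-1) V.nil) (Q.cons 182 (V.cons 74 1 V.nil) (Q.cons 187 (V.cons 77 1 (V.cons 83 (-1) V.nil)) (Q.cons 218 (V.cons 74 (-1) V.nil) (Q.cons 221 (V.cons 19 (-2) V.nil)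 (Q.cons 299 (V.cons 79 1 V.nil) (Q.cons 302 (V.cons 74 (-1) V.nil) (Q.cons 311 (V.cons 19 2 V.nil) (Q.cons 314 (V.cons 74 1 V.nil) (Q.cons 317 (V.cons 19 2 V.nil) (Q.cons 335 (V.cons 19 (-2) V.nil) (Q.cons 365 (V.cons 19 2 V.nil) (Q.cons 371 (V.cons 19 (-1) V.nil) (Q.cons 461 (V.cons 19 1 V.nil) (Q.cons 467 (V.cons 19 1 V.nil) (Q.cons 875 (V.cons 19 2 V.nil) (Q.cons 1259 (V.cons 19 (-2) V.nil) (Q.cons 1451 (V.cons 19 (-1) V.nil) (Q.cons 1835 (V.cons 19 (-2) V.nil) Q.nil)))))))))))))))))))))))))))))))),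
  (Q.cons 10 (V.cons 342 1 (V.cons 348 (-4) (V.cons 372 (-7) (V.cons 1242 (-2) (V.cons 1260 1 (V.cons 1266 (-2) (V.cons 1326 (-1) (V.cons 1338 2 (V.cons 1386 4 (V.cons 1452 1 (V.cons 1482 6 (V.cons 3498 1 V.nil)))))))))))) (Q.cons 20 (V.cons 86 3 (V.cons 182 (-1) (V.cons 218 1 (V.cons 236 2 (V.cons 242 (-1) (V.cons 302 (-2) (V.cons 314 (-2) (V.cons 938 (-1) V.nil)))))))) (Q.cons 43 (V.cons 221 (-5) (V.cons 245 (-1) (V.cons 311 5 (V.cons 317 6 (V.cons 335 (-5) (V.cons 347 3 (V.cons 365 6 (V.cons 371 (-4) (V.cons 875 4 (V.cons 971 1 (V.cons 1211 (-3) (V.cons 1259 (-5) (V.cons 1451 (-2) V.nil))))))))))))) (Q.cons 44 (V.cons 86 (-3) (V.cons 182 1 (V.cons 218 (-1) (V.cons 236 (-2) (V.cons 242 1 (V.cons 302 2 (V.cons 314 2 (V.cons 938 1 V.nil)))))))) (Q.cons 83 (V.cons 187 (-1) V.nil) (Q.cons 86 (V.cons 20 (-3)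 (V.cons 44 3 (V.cons 170 (-1) V.nil))) (Q.cons 116 (V.cons 20 3 (V.cons 44 (-3) V.nil)) (Q.cons 170 (V.cons 86 1 (V.cons 182 (-1) V.nil)) (Q.cons 173 (V.cons 187 1 V.nil) (Q.cons 182 (V.cons 20 1 (V.cons 44 (-1) (V.cons 170 1 V.nil))) (Q.cons 187 (V.cons 83 (-1) (V.cons 173 1 V.nil)) (Q.cons 218 (V.cons 20 (-1) (V.cons 44 1 V.nil)) (Q.cons 221 (V.cons 43 (-5) V.nil) (Q.cons 236 (V.cons 20 (-2) (V.cons 44 2 V.nil)) (Q.cons 242 (V.cons 20 1 (V.cons 44 (-1) V.nil)) (Q.cons 245 (V.cons 43 (-1) V.nil) (Q.cons 302 (V.cons 20 2 (V.cons 44 (-2) V.nil)) (Q.cons 311 (V.cons 43 5 V.nil) (Q.cons 314 (V.cons 20 2 (V.cons 44 (-2) V.nil)) (Q.cons 317 (V.cons 43 6 V.nil) (Q.cons 335 (V.cons 43 (-5) V.nil) (Q.cons 342 (V.cons 10 (-1) V.nil) (Q.cons 347 (V.cons 43 3 V.nil) (Q.cons 348 (V.cons 10 8 V.nil) (Q.cons 365 (V.cons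 43 6 V.nil) (Q.cons 371 (V.cons 43 (-4) V.nil) (Q.cons 372 (V.cons 10 9 V.nil) (Q.cons 428 (V.cons 20 (-2) (V.cons 44 2 V.nil)) (Q.cons 458 (V.cons 20 (-1) (V.cons 44 1 V.nil)) (Q.cons 461 (V.cons 43 4 V.nil) (Q.cons 467 (V.cons 43 (-1) V.nil) (Q.cons 468 (V.cons 10 (-2) V.nil) (Q.cons 875 (V.cons 43 4 V.nil) (Q.cons 938 (V.cons 20 1 (V.cons 44 (-1) V.nil)) (Q.cons 971 (V.cons 43 1 V.nil) (Q.cons 1211 (V.cons 43 (-3) V.nil) (Q.cons 1242 (V.cons 10 4 V.nil) (Q.cons 1259 (V.cons 43 (-5) V.nil) (Q.cons 1260 (V.cons 10 (-1) V.nil) (Q.cons 1266 (V.cons 10 2 V.nil) (Q.cons 1326 (V.cons 10 1 V.nil) (Q.cons 1338 (V.cons 10 (-4) V.nil) (Q.cons 1386 (V.cons 10 (-8) V.nil) (Q.cons 1451 (V.cons 43 (-2) V.nil) (Q.cons 1452 (V.cons 10 (-1) V.nil) (Q.cons 1482 (V.cons 10 (-8) V.nil) (Q.cons 1835 (V.cons 43 (-3) V.nil)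 (Q.cons 3498 (V.cons 10 (-1) V.nil) (Q.cons 7338 (V.cons 10 2 V.nil) Q.nil))))))))))))))))))))))))))))))))))))))))))))))))),
  (Q.cons 19 (V.cons 221 (-2) (V.cons 245 (-2) (V.cons 317 (-2) (V.cons 335 (-2) (V.cons 347 (-2) (V.cons 875 2 (V.cons 971 2 (V.cons 1199 2 (V.cons 1211 2 (V.cons 1259 2 V.nil)))))))))) (Q.cons 74 (V.cons 92 2 (V.cons 182 2 (V.cons 218 2 (V.cons 302 (-2) (V.cons 314 (-2) (V.cons 362 (-2) V.nil)))))) (Q.cons 77 (V.cons 55 (-1) (V.cons 61 (-1) (V.cons 79 (-1) (V.cons 91 (-1) (V.cons 175 2 (V.cons 187 1 (V.cons 235 1 V.nil))))))) (Q.cons 83 (V.cons 55 1 (V.cons 61 1 (V.cons 79 1 (V.cons 91 1 (V.cons 175 (-2) (V.cons 187 (-1) (V.cons 235 (-1) V.nil))))))) (Q.cons 86 (V.cons 44 2 (V.cons 74 (-2) V.nil)) (Q.cons 92 (V.cons 44 2 (V.cons 74 (-2) V.nil)) (Q.cons 98 (V.cons 44 1 (V.cons 74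 (-1) V.nil)) (Q.cons 300 (V.cons 22 2 (V.cons 46 (-2) V.nil)) (Q.cons 302 (V.cons 44 (-2) (V.cons 74 2 V.nil)) (Q.cons 311 (V.cons 13 1 (V.cons 19 (-1) V.nil)) (Q.cons 317 (V.cons 13 1 (V.cons 19 (-1) V.nil)) (Q.cons 330 (V.cons 22 (-2) (V.cons 46 2 V.nil)) (Q.cons 335 (V.cons 13 1 (V.cons 19 (-1) V.nil)) (Q.cons 347 (V.cons 13 1 (V.cons 19 (-1) V.nil)) (Q.cons 348 (V.cons 10 2 V.nil) (Q.cons 362 (V.cons 44 (-2) (V.cons 74 2 V.nil)) (Q.cons 365 (V.cons 13 (-1) (V.cons 19 1 V.nil)) (Q.cons 371 (V.cons 13 1 (V.cons 19 (-1) V.nil)) (Q.cons 372 (V.cons 10 4 V.nil) (Q.cons 1199 (V.cons 13 (-2) (V.cons 19 2 V.nil)) (Q.cons 1206 (V.cons 10 2 V.nil) (Q.cons 1211 (V.cons 13 (-1) (V.cons 19 1 V.nil)) (Q.cons 1242 (V.cons 10 2 V.nil) (Q.cons 1259 (V.cons 13 (-1) (V.cons 19 1 V.nil)) (Q.cons 1326 (V.cons 10 (-2) V.nil)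 (Q.cons 1338 (V.cons 10 (-2) V.nil) (Q.cons 1341 (V.cons 3 (-36) V.nil) (Q.cons 1359 (V.cons 3 10 V.nil) (Q.cons 1386 (V.cons 10 (-2) V.nil) (Q.cons 1395 (V.cons 3 (-28) V.nil) (Q.cons 1482 (V.cons 10 (-4) V.nil) (Q.cons 5295 (V.cons 3 (-10) V.nil) (Q.cons 5355 (V.cons 3 36 V.nil) (Q.cons 5547 (V.cons 3 28 V.nil) Q.nil)))))))))))))))))))))))))))))))))),
  (Q.cons 91 (V.cons 83 1 (V.cons 299 (-1) V.nil)) (Q.cons 362 (V.cons 20 (-1) (V.cons 44 1 V.nil)) (Q.cons 365 (V.cons 43 (-1) V.nil) (Q.cons 371 (V.cons 43 1 V.nil) (Q.cons 372 (V.cons 10 (-1) V.nil) (Q.cons 1341 (V.cons 3 (-3) V.nil) (Q.cons 1359 (V.cons 3 1 V.nil) (Q.cons 1395 (V.cons 3 (-2) V.nil) (Q.cons 1451 (V.cons 13 1 (V.cons 19 (-1) V.nil)) (Q.cons 1452 (V.cons 10 1 V.nil) (Q.cons 5295 (V.cons 3 (-1) V.nil) (Q.cons 5355 (V.cons 3 3 V.nil) (Q.cons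 5547 (V.cons 3 2 V.nil) Q.nil))))))))))))),
  (Q.cons 170 (V.cons 86 (-2) (V.cons 182 1 (V.cons 218 1 (V.cons 236 (-1) (V.cons 242 1 (V.cons 302 1 (V.cons 314 (-1) V.nil))))))) (Q.cons 221 (V.cons 13 10 (V.cons 19 (-20) (V.cons 43 18 V.nil))) (Q.cons 245 (V.cons 43 (-6) V.nil) (Q.cons 311 (V.cons 13 (-10) (V.cons 19 20 (V.cons 43 (-18) V.nil))) (Q.cons 317 (V.cons 13 (-8) (V.cons 19 16 (V.cons 43 (-20) V.nil))) (Q.cons 335 (V.cons 13 10 (V.cons 19 (-20) (V.cons 43 22 V.nil))) (Q.cons 342 (V.cons 4 (-54) (V.cons 10 34 V.nil)) (Q.cons 347 (V.cons 13 (-12) (V.cons 19 24 (V.cons 43 (-16) V.nil))) (Q.cons 348 (V.cons 4 12 (V.cons 10 (-54) V.nil)) (Q.cons 365 (V.cons 13 (-8) (V.cons 19 16 (V.cons 43 (-20) V.nil))) (Q.cons 371 (V.cons 13 2 (V.cons 19 (-4) (V.cons 43 12 V.nil))) (Q.cons 372 (V.cons 4 124 (V.cons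 10 (-126) V.nil)) (Q.cons 461 (V.cons 13 (-2) (V.cons 19 4 (V.cons 43 (-12) V.nil))) (Q.cons 467 (V.cons 13 (-8) (V.cons 19 16 V.nil)) (Q.cons 468 (V.cons 4 12 (V.cons 10 (-2) V.nil)) (Q.cons 683 (V.cons 55 (-1) (V.cons 61 (-1) (V.cons 79 1 (V.cons 91 (-3) (V.cons 187 3 (V.cons 235 1 V.nil)))))) (Q.cons 684 (V.cons 58 (-2) V.nil) (Q.cons 686 (V.cons 20 2 (V.cons 74 (-2) V.nil)) (Q.cons 875 (V.cons 13 (-18) (V.cons 19 36 (V.cons 43 (-20) V.nil))) (Q.cons 941 (V.cons 43 4 V.nil) (Q.cons 971 (V.cons 13 (-2) (V.cons 19 4 V.nil)) (Q.cons 978 (V.cons 4 4 V.nil) (Q.cons 1206 (V.cons 4 28 (V.cons 10 (-24) V.nil)) (Q.cons 1211 (V.cons 13 10 (V.cons 19 (-20) (V.cons 43 14 V.nil))) (Q.cons 1242 (V.cons 4 26 (V.cons 10 (-54) V.nil)) (Q.cons 1259 (V.cons 13 16 (V.cons 19 (-32) (V.cons 43 22 V.nil))) (Q.cons 1260 (V.cons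 4 (-30) (V.cons 10 26 V.nil)) (Q.cons 1266 (V.cons 4 14 (V.cons 10 (-20) V.nil)) (Q.cons 1269 (V.cons 3 (-6) V.nil) (Q.cons 1323 (V.cons 15 2 V.nil) (Q.cons 1326 (V.cons 4 26 (V.cons 10 (-12) V.nil)) (Q.cons 1338 (V.cons 4 (-28) (V.cons 10 56 V.nil)) (Q.cons 1341 (V.cons 3 (-156) V.nil) (Q.cons 1359 (V.cons 3 34 V.nil) (Q.cons 1386 (V.cons 4 (-10) (V.cons 10 52 V.nil)) (Q.cons 1395 (V.cons 3 (-128) V.nil) (Q.cons 1451 (V.cons 13 6 (V.cons 19 (-12) (V.cons 43 8 V.nil))) (Q.cons 1452 (V.cons 4 (-30) (V.cons 10 26 V.nil)) (Q.cons 1482 (V.cons 4 (-82) (V.cons 10 98 V.nil)) (Q.cons 1491 (V.cons 3 (-6) V.nil) (Q.cons 1835 (V.cons 13 10 (V.cons 19 (-20) (V.cons 43 12 V.nil))) (Q.cons 1875 (V.cons 3 6 V.nil) (Q.cons 2730 (V.cons 22 (-2) (V.cons 46 2 (V.cons 58 2 V.nil))) (Q.cons 2735 (V.cons 19 (-2) (V.cons 43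 (-2) V.nil)) (Q.cons 3498 (V.cons 4 28 (V.cons 10 (-8) V.nil)) (Q.cons 3755 (V.cons 13 2 (V.cons 19 (-4) (V.cons 43 2 V.nil))) (Q.cons 3756 (V.cons 10 (-2) V.nil) (Q.cons 5034 (V.cons 4 (-12) (V.cons 10 2 V.nil)) (Q.cons 5295 (V.cons 3 (-34) V.nil) (Q.cons 5355 (V.cons 3 156 V.nil) (Q.cons 5547 (V.cons 3 128 V.nil) (Q.cons 5802 (V.cons 4 (-12) (V.cons 10 2 V.nil)) (Q.cons 7338 (V.cons 4 (-12) (V.cons 10 2 V.nil)) (Q.cons 10923 (V.cons 15 (-2) V.nil) (Q.cons 10926 (V.cons 10 2 V.nil) (Q.cons 15018 (V.cons 4 (-4) (V.cons 10 2 V.nil)) (Q.cons 20139 (V.cons 3 6 V.nil) (Q.cons 23211 (V.cons 3 6 V.nil) (Q.cons 29355 (V.cons 3 (-6) V.nil) Q.nil))))))))))))))))))))))))))))))))))))))))))))))))))))))))))),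
  (Q.cons 3 (V.cons 1341 (-9) (V.cons 1359 2 (V.cons 1395 (-7) (V.cons 5295 (-2) (V.cons 5355 9 (V.cons 5547 7 V.nil)))))) (Q.cons 4 (V.cons 342 (-2) (V.cons 348 2 (V.cons 372 2 (V.cons 1206 2 (V.cons 1242 1 (V.cons 1260 1 (V.cons 1266 (-1) (V.cons 1338 (-1) (V.cons 1386 (-1) (V.cons 1482 (-2) V.nil)))))))))) (Q.cons 10 (V.cons 348 (-1) V.nil) (Q.cons 13 (V.cons 311 1 (V.cons 317 (-1) (V.cons 335 (-1) V.nil))) (Q.cons 19 (V.cons 317 1 V.nil) (Q.cons 20 (V.cons 86 2 (V.cons 302 (-1) V.nil)) (Q.cons 22 (V.cons 84 2 (V.cons 300 (-1) V.nil)) (Q.cons 44 (V.cons 86 (-1) V.nil) (Q.cons 46 (V.cons 84 (-1) V.nil) (Q.cons 55 (V.cons 77 (-1) V.nil) (Q.cons 61 (V.cons 77 1 (V.cons 83 (-1) V.nil)) (Q.cons 77 (V.cons 79 1 V.nil) (Q.cons 79 (V.cons 77 1 V.nil) (Q.cons 83 (V.cons 79 (-1) V.nil) (Q.cons 86 (V.cons 20 (-2)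 V.nil) (Q.cons 92 (V.cons 20 2 (V.cons 74 (-1) V.nil)) (Q.cons 116 (V.cons 20 2 V.nil) (Q.cons 182 (V.cons 20 2 V.nil) (Q.cons 218 (V.cons 20 1 V.nil) (Q.cons 221 (V.cons 19 (-1) V.nil) (Q.cons 236 (V.cons 20 1 V.nil) (Q.cons 242 (V.cons 20 (-1) V.nil) (Q.cons 314 (V.cons 20 (-1) V.nil) (Q.cons 317 (V.cons 19 1 V.nil) (Q.cons 362 (V.cons 20 (-1) V.nil) (Q.cons 458 (V.cons 20 (-2) V.nil) Q.nil))))))))))))))))))))))))))]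

def lits8_0_5 : List Q := [
  (Q.cons 28 (V.cons 330 2 (V.cons 2730 (-1) V.nil)) (Q.cons 106 (V.cons 330 (-1) V.nil) (Q.cons 109 (V.cons 683 (-1) V.nil) (Q.cons 115 (V.cons 683 1 V.nil) (Q.cons 427 (V.cons 83 (-1) (V.cons 173 1 V.nil)) (Q.cons 458 (V.cons 44 2 (V.cons 170 (-1) V.nil)) (Q.cons 467 (V.cons 43 (-1) V.nil) (Q.cons 1706 (V.cons 44 (-1) V.nil) (Q.cons 1835 (V.cons 43 1 V.nil) Q.nil))))))))),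
  (Q.cons 25 (V.cons 83 (-2) (V.cons 683 1 V.nil)) (Q.cons 55 (V.cons 83 5 (V.cons 683 (-2) V.nil)) (Q.cons 61 (V.cons 83 1 V.nil) (Q.cons 79 (V.cons 83 (-5) (V.cons 683 2 V.nil)) (Q.cons 86 (V.cons 20 2 (V.cons 44 (-2) V.nil)) (Q.cons 91 (V.cons 83 1 V.nil) (Q.cons 92 (V.cons 170 (-2) V.nil) (Q.cons 109 (V.cons 83 5 (V.cons 683 (-2) V.nil)) (Q.cons 115 (V.cons 83 (-3) (V.cons 683 2 V.nil)) (Q.cons 116 (V.cons 20 (-4) (V.cons 44 4 (V.cons 170 (-4) V.nil))) (Q.cons 182 (V.cons 20 (-1) (V.cons 44 1 V.nil)) (Q.cons 187 (V.cons 83 (-1) V.nil) (Q.cons 218 (V.cons 20 (-1) (V.cons 44 1 (V.cons 170 (-2) V.nil))) (Q.cons 221 (V.cons 13 2 V.nil) (Q.cons 235 (V.cons 83 (-1) V.nil) (Q.cons 236 (V.cons 20 1 (V.cons 44 (-1) V.nil)) (Q.cons 242 (V.cons 20 (-1) (V.cons 44 1 V.nil)) (Q.cons 245 (V.cons 13 (-1) V.nil) (Q.cons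 302 (V.cons 20 (-1) (V.cons 44 1 V.nil)) (Q.cons 311 (V.cons 43 (-1) V.nil) (Q.cons 314 (V.cons 20 1 (V.cons 44 (-1) (V.cons 170 2 V.nil))) (Q.cons 317 (V.cons 43 (-1) V.nil) (Q.cons 335 (V.cons 43 1 V.nil) (Q.cons 347 (V.cons 43 (-1) V.nil) (Q.cons 348 (V.cons 10 4 V.nil) (Q.cons 362 (V.cons 170 2 V.nil) (Q.cons 365 (V.cons 43 (-1) V.nil) (Q.cons 371 (V.cons 13 3 (V.cons 43 (-1) V.nil)) (Q.cons 372 (V.cons 10 2 V.nil) (Q.cons 427 (V.cons 83 (-2) V.nil) (Q.cons 428 (V.cons 20 1 (V.cons 44 (-1) (V.cons 170 2 V.nil))) (Q.cons 458 (V.cons 20 1 (V.cons 44 (-1) (V.cons 170 2 V.nil))) (Q.cons 461 (V.cons 13 (-1) V.nil) (Q.cons 467 (V.cons 13 6 (V.cons 43 (-2) V.nil)) (Q.cons 468 (V.cons 10 (-2) V.nil) (Q.cons 875 (V.cons 13 3 (V.cons 43 (-2) V.nil)) (Q.cons 971 (V.cons 13 1 V.nil) (Q.cons 1211 (V.cons 43 1 V.nil)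 (Q.cons 1242 (V.cons 10 2 V.nil) (Q.cons 1259 (V.cons 13 (-5) (V.cons 43 3 V.nil)) (Q.cons 1338 (V.cons 10 (-2) V.nil) (Q.cons 1386 (V.cons 10 (-4) V.nil) (Q.cons 1451 (V.cons 13 (-3) (V.cons 43 2 V.nil)) (Q.cons 1482 (V.cons 10 (-4) V.nil) (Q.cons 1706 (V.cons 20 2 (V.cons 44 (-2) V.nil)) (Q.cons 1835 (V.cons 13 (-3) (V.cons 43 2 V.nil)) (Q.cons 3498 (V.cons 10 (-2) V.nil) (Q.cons 5034 (V.cons 10 2 V.nil) (Q.cons 5802 (V.cons 10 2 V.nil) (Q.cons 6827 (V.cons 13 (-2) V.nil) (Q.cons 7338 (V.cons 10 2 V.nil) Q.nil))))))))))))))))))))))))))))))))))))))))))))))))))),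
  (Q.cons 19 (V.cons 221 (-4) (V.cons 311 4 (V.cons 317 4 (V.cons 335 (-4) (V.cons 365 4 (V.cons 371 (-4) (V.cons 875 2 (V.cons 1259 (-2) V.nil)))))))) (Q.cons 20 (V.cons 86 (-4) (V.cons 98 2 (V.cons 182 1 (V.cons 218 (-3) (V.cons 236 (-3) (V.cons 242 1 (V.cons 302 3 (V.cons 314 3 (V.cons 938 2 V.nil))))))))) (Q.cons 74 (V.cons 92 (-2) (V.cons 98 (-1) (V.cons 182 (-2) (V.cons 218 (-2) (V.cons 302 2 (V.cons 314 2 (V.cons 362 2 V.nil))))))) (Q.cons 77 (V.cons 91 (-2) (V.cons 187 2 V.nil)) (Q.cons 83 (V.cons 25 (-2) (V.cons 55 1 (V.cons 61 1 (V.cons 79 1 (V.cons 91 3 (V.cons 175 (-2) (V.cons 187 (-3) (V.cons 235 (-1) V.nil)))))))) (Q.cons 84 (V.cons 22 (-2) (V.cons 46 2 V.nil)) (Q.cons 86 (V.cons 20 (-2) (V.cons 74 2 V.nil)) (Q.cons 92 (V.cons 20 (-2) (V.cons 74 2 V.nil)) (Q.cons 98 (V.cons 20 (-1) (V.cons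 74 1 V.nil)) (Q.cons 221 (V.cons 19 (-4) (V.cons 43 2 V.nil)) (Q.cons 299 (V.cons 25 1 V.nil) (Q.cons 302 (V.cons 20 2 (V.cons 74 (-2) V.nil)) (Q.cons 311 (V.cons 13 (-1) (V.cons 19 6 (V.cons 43 (-3) V.nil))) (Q.cons 317 (V.cons 13 (-1) (V.cons 19 6 (V.cons 43 (-3) V.nil))) (Q.cons 330 (V.cons 22 2 (V.cons 46 (-2) V.nil)) (Q.cons 335 (V.cons 13 1 (V.cons 19 (-8) (V.cons 43 3 V.nil))) (Q.cons 342 (V.cons 4 (-8) (V.cons 10 2 V.nil)) (Q.cons 347 (V.cons 13 1 (V.cons 43 (-1) V.nil)) (Q.cons 348 (V.cons 4 4 (V.cons 10 (-4) V.nil)) (Q.cons 362 (V.cons 20 2 (V.cons 74 (-2) V.nil)) (Q.cons 365 (V.cons 13 (-1) (V.cons 19 8 (V.cons 43 (-3) V.nil))) (Q.cons 371 (V.cons 13 1 (V.cons 19 (-8) (V.cons 43 3 V.nil))) (Q.cons 372 (V.cons 4 16 (V.cons 10 (-10) V.nil)) (Q.cons 461 (V.cons 19 4 (V.cons 43 (-2) V.nil)) (Q.cons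 467 (V.cons 19 (-4) (V.cons 43 2 V.nil)) (Q.cons 1199 (V.cons 19 2 V.nil) (Q.cons 1206 (V.cons 4 3 (V.cons 10 (-3) V.nil)) (Q.cons 1211 (V.cons 13 (-1) (V.cons 43 1 V.nil)) (Q.cons 1242 (V.cons 4 3 (V.cons 10 (-5) V.nil)) (Q.cons 1259 (V.cons 13 1 (V.cons 19 (-2) (V.cons 43 1 V.nil))) (Q.cons 1260 (V.cons 4 (-5) (V.cons 10 1 V.nil)) (Q.cons 1266 (V.cons 4 3 (V.cons 10 (-1) V.nil)) (Q.cons 1326 (V.cons 4 5 (V.cons 10 1 V.nil)) (Q.cons 1338 (V.cons 4 (-3) (V.cons 10 5 V.nil)) (Q.cons 1341 (V.cons 3 (-6) V.nil) (Q.cons 1386 (V.cons 4 (-4) (V.cons 10 4 V.nil)) (Q.cons 1395 (V.cons 3 (-4) V.nil) (Q.cons 1452 (V.cons 4 (-5) (V.cons 10 1 V.nil)) (Q.cons 1482 (V.cons 4 (-11) (V.cons 10 9 V.nil)) (Q.cons 5034 (V.cons 4 2 V.nil) (Q.cons 5355 (V.cons 3 6 V.nil) (Q.cons 5547 (V.cons 3 4 V.nil) Q.nil)))))))))))))))))))))))))))))))))))))))))),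
  (Q.cons 115 (V.cons 77 (-1) (V.cons 83 1 V.nil)) (Q.cons 116 (V.cons 20 2 (V.cons 44 (-1) V.nil)) (Q.cons 348 (V.cons 4 1 V.nil) (Q.cons 372 (V.cons 4 2 V.nil) (Q.cons 458 (V.cons 20 (-1) V.nil) (Q.cons 461 (V.cons 19 (-1) V.nil) (Q.cons 467 (V.cons 13 1 V.nil) (Q.cons 468 (V.cons 4 1 (V.cons 10 (-1) V.nil)) (Q.cons 1242 (V.cons 4 1 V.nil) (Q.cons 1338 (V.cons 4 (-1) V.nil) (Q.cons 1386 (V.cons 4 (-1) V.nil) (Q.cons 1482 (V.cons 4 (-2) V.nil) Q.nil)))))))))))),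
  (Q.cons 109 (V.cons 683 1 V.nil) (Q.cons 115 (V.cons 683 (-1) V.nil) (Q.cons 348 (V.cons 10 (-2) V.nil) (Q.cons 372 (V.cons 10 (-1) V.nil) (Q.cons 427 (V.cons 83 1 (V.cons 173 (-1) V.nil)) (Q.cons 428 (V.cons 170 1 V.nil) (Q.cons 458 (V.cons 170 (-1) V.nil) (Q.cons 467 (V.cons 43 1 V.nil) (Q.cons 468 (V.cons 10 1 V.nil) (Q.cons 1242 (V.cons 10 (-1) V.nil) (Q.cons 1338 (V.cons 10 1 V.nil) (Q.cons 1386 (V.cons 10 2 V.nil) (Q.cons 1482 (V.cons 10 1 V.nil) (Q.cons 1706 (V.cons 20 1 (V.cons 44 (-1) V.nil)) (Q.cons 1835 (V.cons 43 (-1) V.nil) (Q.cons 7338 (V.cons 10 (-1) V.nil) Q.nil)))))))))))))))),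
  (Q.cons 58 (V.cons 300 (-1) (V.cons 330 1 V.nil)) (Q.cons 235 (V.cons 77 1 (V.cons 83 (-1) V.nil)) (Q.cons 236 (V.cons 74 (-1) V.nil) (Q.cons 242 (V.cons 44 1 V.nil) (Q.cons 342 (V.cons 10 (-5) V.nil) (Q.cons 348 (V.cons 10 9 V.nil) (Q.cons 372 (V.cons 10 18 V.nil) (Q.cons 941 (V.cons 19 1 V.nil) (Q.cons 971 (V.cons 13 (-1) V.nil) (Q.cons 1206 (V.cons 10 4 V.nil) (Q.cons 1242 (V.cons 10 9 V.nil) (Q.cons 1260 (V.cons 10 (-3) V.nil) (Q.cons 1266 (V.cons 10 3 V.nil) (Q.cons 1326 (V.cons 10 1 V.nil) (Q.cons 1338 (V.cons 10 (-9) V.nil) (Q.cons 1386 (V.cons 10 (-9) V.nil) (Q.cons 1395 (V.cons 3 1 V.nil) (Q.cons 1452 (V.cons 10 (-3) V.nil) (Q.cons 1482 (V.cons 10 (-15) V.nil) (Q.cons 5547 (V.cons 3 (-1) V.nil) Q.nil))))))))))))))))))))]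

def lits8_0 : List Q := lits8_0_0 ++ (lits8_0_1 ++ (lits8_0_2 ++ (lits8_0_3 ++ (lits8_0_4 ++ (lits8_0_5)))))

set_option maxRecDepth 1000000
theorem rows8_0_ok : chkRows rows8_0 lits8_0 = true := by decide +kernel

end Pool.Agent.N33.SA
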