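import Pool.Agent.N33.SA.C5
import Pool.Agent.N33.SA.C6
import Pool.Agent.N33.SA.C7
import Pool.Agent.N33.SA.C8_0
import Pool.Agent.N33.SA.C8_1
import Pool.Agent.N33.SA.C8_2
import Pool.Agent.N33.SA.C8_3
import Pool.Agent.N33.SA.C8_4
import Pool.Agent.N33.SA.C8_5
import Pool.Agent.N33.SA.C8_6
import Pool.Agent.N33.SA.C8_7
import Pool.Agent.N33.SA.C8_8
set_option autoImplicit false

/-! The identities given by the certificates. -/

namespace Pool.Agent.N33.SA
open Pool.Agent.N33.Tor

section
variable {B : Type} [NonUnitalNonAssocRing B] (H : SAlg B) (a x : B)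


lemma gD (hx : H.g x = -x) (u : B) : H.g (H.cz true x u) = - H.cz true x (H.g u) := by
  simp only [SAlg.cz_apply, SAlg.gq_true, map_sub, H.gm, hx, mul_neg, neg_mul]
  abel

lemma parD (hx : H.g x = -x) (p : Bool) (z : B) (hz : H.g z = sg p • z) : H.g (H.cz true x z) = sg (!p) • H.cz true x z := by
  rw [gD H x hx, hz, map_zsmul]
  cases p <;> simp

lemma parT (ha : H.g a = a) (hx : H.g x = -x) (p : Bool) (z : B) (hz : H.g z = sg p • z) :
    H.g (tz x a z) = sg (!p) • tz x a z := by
  simp only [tz_apply, as, map_zsmul, map_sub, H.gm, hx, hz, ha, mul_neg, smul_mul_assoc]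
  cases p <;> simp [smul_sub]

lemma jz_symm (p q : Bool) (u z : B) (hu : H.g u = sg p • u) (hz : H.g z = sg q • z) :
    H.jz q z u = sg (p && q) • H.jz p u z := by
  rw [SAlg.jz_apply, SAlg.jz_apply, H.gq_hom _ _ _ hu, H.gq_hom _ _ _ hz]
  cases p <;> cases q <;> simp [smul_add] <;> abel

/-- iterated `H.cz true x` -/
def dz (z : B) : ℕ → B
  | 0 => z
  | n + 1 => H.cz true x (dz z n)

lemma dz_succ (z : B) (n : ℕ) : dz H x z (n + 1) = H.cz true x (dz H x z n) := rfl

lemma dz_par (hx : H.g x = -x) (p : Bool) (z : B) (hz : H.g z = sg p • z) (n : ℕ) :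
    H.g (dz H x z n) = sg (xor p n.bodd) • dz H x z n := by
  induction n with
  | zero => rw [Nat.bodd_zero, Bool.xor_false]; exact hz
  | succ n ih =>
    rw [dz_succ, parD H x hx _ _ ih, Nat.bodd_succ]
    cases p <;> cases n.bodd <;> rfl

lemma dz_add (z w : B) (n : ℕ) : dz H x (z + w) n = dz H x z n + dz H x w n := by
  induction n with
  | zero => rfl
  | succ n ih => simp only [dz_succ, ih, map_add]

lemma dz_smul (k : ℤ) (z : B) (n : ℕ) : dz H x (k • z) n = k • dz H x z n := by
  induction n with
  | zero => rfl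
  | succ n ih => simp only [dz_succ, ih, map_zsmul]

lemma dz_dz (z : B) (m n : ℕ) : dz H x (dz H x z m) n = dz H x z (m + n) := by
  induction n with
  | zero => rfl
  | succ n ih => rw [dz_succ, ih, ← add_assoc, dz_succ]

/-- the operator `(·, z₃, x)` for an even `z` -/
theorem PI (ha : H.g a = a) (hx : H.g x = -x) (z : B) (hz : H.g z = z) (u : B) :
    tz x (H.cz true x (H.cz true x (H.cz true x z))) u =
      - H.cz true x (H.cz true x (H.cz true x (tz x z u))) + (2 : ℤ) • H.cz true x (tz x z (H.cz true x (H.cz true x u))) + (2 : ℤ) • H.cz true x (H.cz false z (H.cz true x (H.cz true x (H.cz true x u))))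
      - (4 : ℤ) • H.cz true x (H.cz false z (H.cz false (x * x) (H.cz true x u))) + (2 : ℤ) • H.cz true x (H.cz false z (H.cz true x (H.cz false (x * x) u))) + (2 : ℤ) • H.cz true x (tz x z (H.cz false (x * x) u))
      - (2 : ℤ) • H.cz true x (H.cz true x (tz x z (H.cz true x u))) + (2 : ℤ) • tz x z (H.cz true x (H.cz true x (H.cz true x u))) + (2 : ℤ) • H.cz false z (H.cz true x (H.cz true x (H.cz true x (H.cz true x u))))
      - (4 : ℤ) • H.cz false z (H.cz false (x * x) (H.cz true x (H.cz true x u))) + (4 : ℤ) • H.cz false z (H.cz true x (H.cz false (x * x) (H.cz true x u))) + (4 : ℤ) • tz x z (H.cz false (x * x) (H.cz true x u))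
      - (2 : ℤ) • H.cz true x (H.cz true x (H.cz false z (H.cz true x (H.cz true x u)))) + (2 : ℤ) • H.cz true x (H.cz true x (H.cz false z (H.cz false (x * x) u)))
      + (2 : ℤ) • H.cz false z (H.cz true x (H.cz true x (H.cz false (x * x) u))) + (2 : ℤ) • tz x z (H.cz true x (H.cz false (x * x) u)) - (4 : ℤ) • H.cz false z (H.cz false (x * x) (H.cz false (x * x) u)) := by
  have h0 : H.g z = sg false • z := by simp [hz]
  have h1 := parD H x hx _ _ h0
  have h2 := parD H x hx _ _ h1
  have e0 := sII H a x ha hx false z h0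
  have c0 := sI H a x ha hx false z h0
  have e1 := sII H a x ha hx (!false) (H.cz true x z) h1
  have c1 := sI H a x ha hx (!false) (H.cz true x z) h1
  have e2 := sII H a x ha hx (!!false) (H.cz true x (H.cz true x z)) h2
  simp only [Bool.not_false, Bool.not_true, sg_true, sg_false, one_smul, neg_smul, mul_one, mul_neg,
    sub_neg_eq_add] at e0 c0 e1 c1 e2
  simp only [e2, e1, e0, c1, c0, map_add, map_sub, map_neg, map_zsmul, smul_add, smul_sub, smul_neg,
    ← mul_smul, neg_sub]
  abel

/-- six times the linearization of `u₄` -/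
def L6 (y : B) : B :=
  tz x a (H.cz true x (H.cz true x (H.cz true x (H.jz false a y)))) - tz x (H.cz true x (H.cz true x (H.cz true x (a * a)))) y - H.jz false a (tz x a (H.cz true x (H.cz true x (H.cz true x y)))) + tz x (H.cz true x (H.cz true x (H.cz true x a))) (H.jz false a y)

lemma oU0 : oU H a x 0 = H.cz true x := rfl
lemma oU1 : oU H a x 1 = H.cz false (x * x) := rfl
lemma oU2 : oU H a x 2 = H.cz false a := rfl
lemma oU3 : oU H a x 3 = tz x a := rfl

lemma od0 : oddL 0 = true := rfl
lemma od3 : oddL 3 = true := rfl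

lemma t8_sound (ha : H.g a = a) (hx : H.g x = -x) (d : ℤ) (S : List TQ) (l : List ℤ)
    (h : chkT d S (lsum lits8 l) = true) (u : B) : tvs H a x u S = 0 :=
  chkT_sound H a x ha hx d S _ h u (lsum_sound _ _ _ (lits8_sound H a x ha hx u))

lemma r0 (ha : H.g a = a) (hx : H.g x = -x) (u : B) :
    H.jz true (H.cz true x a) (tz x a (H.cz true x (H.cz true x (H.cz true x (H.cz true x (H.cz true x (H.cz true x u))))))) + H.jz false (H.cz true x (H.cz true x a)) (tz x a (H.cz true x (H.cz true x (H.cz true x (H.cz true x (H.cz true x u)))))) = 0 := by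
  have h := t8_sound H a x ha hx _ _ _ ok8_0 u
  simpa only [tg8_0, tvs, tv, P.evw, oU0, oU3, one_smul, add_zero, pw, od0, od3, Bool.true_xor, Bool.not_true,
    Bool.not_false, Bool.xor_false] using h

lemma r1 (ha : H.g a = a) (hx : H.g x = -x) (u : B) :
    H.jz true (H.cz true x (H.cz true x (H.cz true x a))) (tz x a (H.cz true x (H.cz true x (H.cz true x (H.cz true x u))))) + H.jz true (H.cz true x a) (tz x a (H.cz true x (H.cz true x (H.cz true x (H.cz true x (H.cz true x (H.cz true x u))))))) -
      H.jz true (tz x a (H.cz true x (H.cz true x a))) (H.cz true x (H.cz true x (H.cz true x (H.cz true x (H.cz true x u))))) + H.jz false (tz x a (H.cz true x a)) (H.cz true x (H.cz true x (H.cz true x (H.cz true x (H.cz true x (H.cz true x u)))))) = 0 := by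
  have h := t8_sound H a x ha hx _ _ _ ok8_1 u
  simp only [tg8_1, tvs, tv, P.evw, oU0, oU3, one_smul, neg_smul, add_zero, pw, od0, od3, Bool.true_xor,
    Bool.not_true, Bool.xor_false] at h
  rw [← h]; abel

lemma r2 (ha : H.g a = a) (hx : H.g x = -x) (u : B) :
    H.jz false (tz x a (H.cz true x a)) (H.cz true x (H.cz true x (H.cz true x (H.cz true x (H.cz true x (H.cz true x u)))))) + H.jz false (tz x a (H.cz true x (H.cz true x (H.cz true x a)))) (H.cz true x (H.cz true x (H.cz true x (H.cz true x u)))) = 0 := by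
  have h := t8_sound H a x ha hx _ _ _ ok8_2 u
  simpa only [tg8_2, tvs, tv, P.evw, oU0, oU3, one_smul, add_zero, pw, od0, od3, Bool.true_xor, Bool.not_true,
    Bool.not_false, Bool.xor_false] using h

lemma r3 (ha : H.g a = a) (hx : H.g x = -x) (u : B) :
    H.jz true (tz x a (H.cz true x (H.cz true x a))) (H.cz true x (H.cz true x (H.cz true x (H.cz true x (H.cz true x u))))) + H.jz true (tz x a (H.cz true x (H.cz true x (H.cz true x (H.cz true x a))))) (H.cz true x (H.cz true x (H.cz true x u))) = 0 := by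
  have h := t8_sound H a x ha hx _ _ _ ok8_3 u
  simpa only [tg8_3, tvs, tv, P.evw, oU0, oU3, one_smul, add_zero, pw, od0, od3, Bool.true_xor, Bool.not_true,
    Bool.not_false, Bool.xor_false] using h

lemma r4 (ha : H.g a = a) (hx : H.g x = -x) (u : B) :
    L6 H a x (H.cz true x (H.cz true x (H.cz true x (H.cz true x u)))) + H.jz true (H.cz true x a) (tz x a (H.cz true x (H.cz true x (H.cz true x (H.cz true x (H.cz true x (H.cz true x u)))))))
      - H.jz false (H.cz true x (H.cz true x a)) (tz x a (H.cz true x (H.cz true x (H.cz true x (H.cz true x (H.cz true x u))))))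
      - (2 : ℤ) • H.jz false (tz x a (H.cz true x a)) (H.cz true x (H.cz true x (H.cz true x (H.cz true x (H.cz true x (H.cz true x u)))))) = 0 := by
  have h := t8_sound H a x ha hx _ _ _ ok8_4 u
  simp only [tg8_4, tvs, tv, P.evw, oU0, oU1, oU2, oU3, one_smul, neg_smul, add_zero, pw, od0, od3, Bool.true_xor,
    Bool.not_true, Bool.xor_false] at h
  have haa : H.g (a * a) = a * a := by rw [H.gm, ha]
  unfold L6
  rw [PI H a x ha hx (a * a) haa, PI H a x ha hx a ha]
  simp only [sCC H a x ha hx, sTT H a x ha hx]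
  rw [← h]
  abel

lemma r5 (ha : H.g a = a) (hx : H.g x = -x) (u : B) :
    H.jz false (H.cz true x (H.cz true x (H.cz true x (H.cz true x a)))) (tz x a (H.cz true x (H.cz true x (H.cz true x u)))) + H.jz false (H.cz true x (H.cz true x a)) (tz x a (H.cz true x (H.cz true x (H.cz true x (H.cz true x (H.cz true x u)))))) = 0 := by
  have h := t8_sound H a x ha hx _ _ _ ok8_5 u
  simpa only [tg8_5, tvs, tv, P.evw, oU0, oU3, one_smul, add_zero, pw, od0, od3, Bool.true_xor, Bool.not_true,
    Bool.not_false, Bool.xor_false] using h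

lemma r6 (ha : H.g a = a) (hx : H.g x = -x) (u : B) :
    H.jz true (H.cz true x (H.cz true x (H.cz true x a))) (H.cz true x (tz x a (H.cz true x (H.cz true x (H.cz true x u))))) + H.jz true (H.cz true x a) (H.cz true x (tz x a (H.cz true x (H.cz true x (H.cz true x (H.cz true x (H.cz true x u))))))) = 0 := by
  have h := t8_sound H a x ha hx _ _ _ ok8_6 u
  simpa only [tg8_6, tvs, tv, P.evw, oU0, oU3, one_smul, add_zero, pw, od0, od3, Bool.true_xor, Bool.not_true,
    Bool.not_false, Bool.xor_false] using h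

lemma r7 (ha : H.g a = a) (hx : H.g x = -x) (u : B) :
    H.jz true (H.cz true x (H.cz true x (H.cz true x a))) (H.cz true x (H.cz true x (tz x a (H.cz true x (H.cz true x u))))) + H.jz true (H.cz true x a) (H.cz true x (H.cz true x (tz x a (H.cz true x (H.cz true x (H.cz true x (H.cz true x u))))))) = 0 := by
  have h := t8_sound H a x ha hx _ _ _ ok8_7 u
  simpa only [tg8_7, tvs, tv, P.evw, oU0, oU3, one_smul, add_zero, pw, od0, od3, Bool.true_xor, Bool.not_true,
    Bool.not_false, Bool.xor_false] using h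

lemma r8 (ha : H.g a = a) (hx : H.g x = -x) (u : B) :
    H.jz true (H.cz true x (H.cz true x (H.cz true x a))) (H.cz true x (H.cz true x (H.cz true x (tz x a (H.cz true x u))))) + H.jz true (H.cz true x a) (H.cz true x (H.cz true x (H.cz true x (tz x a (H.cz true x (H.cz true x (H.cz true x u))))))) = 0 := by
  have h := t8_sound H a x ha hx _ _ _ ok8_8 u
  simpa only [tg8_8, tvs, tv, P.evw, oU0, oU3, one_smul, add_zero, pw, od0, od3, Bool.true_xor, Bool.not_true,
    Bool.not_false, Bool.xor_false] using h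

lemma s5 (ha : H.g a = a) (hx : H.g x = -x) :
    L6 H a x (H.cz true x a) = (4 : ℤ) • H.jz true (tz x a (H.cz true x (H.cz true x a))) (H.cz true x (H.cz true x a)) := by
  have h := chkOne_sound H a x ha hx rows5 ds5 tg5_0 ok5
  simp only [tg5_0, tvs, tv, P.evw, oU0, oU1, oU2, oU3, one_smul, neg_smul, add_zero, pw, od0, od3, Bool.true_xor,
    Bool.not_true, Bool.xor_false] at h
  have haa : H.g (a * a) = a * a := by rw [H.gm, ha]
  unfold L6
  rw [PI H a x ha hx (a * a) haa, PI H a x ha hx a ha]
  simp only [sCC H a x ha hx, sTT H a x ha hx]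
  rw [← sub_eq_zero, ← h]
  abel

lemma s6 (ha : H.g a = a) (hx : H.g x = -x) :
    (2 : ℤ) • H.jz false (tz x a (H.cz true x (H.cz true x (H.cz true x a)))) (H.cz true x (H.cz true x a)) + (2 : ℤ) • H.jz true (tz x a (H.cz true x (H.cz true x a))) (H.cz true x (H.cz true x (H.cz true x a))) +
      H.jz false (tz x a (H.cz true x a)) (H.cz true x (H.cz true x (H.cz true x (H.cz true x a)))) + H.jz true (tz x a (H.cz true x (H.cz true x (H.cz true x (H.cz true x a))))) (H.cz true x a) = 0 := by
  have h := chkOne_sound H a x ha hx rows6 ds6 tg6_0 ok6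
  simp only [tg6_0, tvs, tv, P.evw, oU0, oU3, one_smul, add_zero, pw, od0, od3, Bool.true_xor,
    Bool.not_true, Bool.xor_false] at h
  rw [← h]; abel

lemma s7 (ha : H.g a = a) (hx : H.g x = -x) :
    H.jz true (tz x a (H.cz true x (H.cz true x (H.cz true x (H.cz true x a))))) (H.cz true x (H.cz true x a)) + H.jz true (tz x a (H.cz true x (H.cz true x a))) (H.cz true x (H.cz true x (H.cz true x (H.cz true x a)))) = 0 := by
  have h := chkOne_sound H a x ha hx rows7 ds7 tg7_0 ok7
  simpa only [tg7_0, tvs, tv, P.evw, oU0, oU3, one_smul, add_zero, pw, od0, od3, Bool.true_xor,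
    Bool.not_true, Bool.not_false, Bool.xor_false] using h

end
end Pool.Agent.N33.SA
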