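import Pool.Agent.N33.SA.UData
set_option autoImplicit false

namespace Pool.Agent.N33.SA
open Pool.Agent.N33.Tor

def RL : List (List (ℤ × List ℕ)) := steps.map (fun s => s.t)

set_option maxRecDepth 1000000
theorem chain_ok : chain ((rhoL.map ofL).reverse) steps = true := by decide +kernel
theorem tree_ok : tree.all (okN RL) = true := by decide +kernel

end Pool.Agent.N33.SA
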