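import Pool.Agent.N33.SA.Bil2
set_option autoImplicit false

/-! Relations between `D, E, C, T` and the reduction tables. -/

namespace Pool.Agent.N33.SA

def steps0 : List Step := [
  ⟨[(1, [0,3]), (-1, [3,0]), (2, [2,0,0]), (-2, [2,1]), (2, [0,0,2]), (-2, [1,2])], 1, [⟨1, [], 5, []⟩]⟩,
  ⟨[(1, [3,1]), (1, [1,3]), (2, [2,1,0]), (-2, [2,0,1]), (2, [1,0,2]), (-2, [0,1,2])], 1, [⟨1, [], 4, []⟩, ⟨-1, [], 5, []⟩]⟩,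
  ⟨[(1, [3,0,0]), (-2, [2,0,0,0]), (1, [2,0,1]), (-1, [1,0,2]), (-1, [0,2,0,0]), (1, [0,2,1]), (1, [0,1,2]), (1, [2,1,0]), (-1, [0,0,2,0]), (1, [1,2,0])], 2, [⟨1, [], 6, []⟩, ⟨-1, [0], 7, []⟩, ⟨-1, [], 7, [0]⟩]⟩,
  ⟨[(1, [0,0,3]), (1, [0,2,0,0]), (-1, [0,2,1]), (2, [0,0,0,2]), (-1, [0,1,2]), (-1, [2,1,0]), (1, [0,0,2,0]), (-1, [1,2,0]), (1, [2,0,1]), (-1, [1,0,2])], 1, [⟨1, [0], 2, []⟩, ⟨1, [], 2, [0]⟩, ⟨1, [], 0, []⟩]⟩,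
  ⟨[(1, [0,1,0]), (-1, [1,1])], 1, [⟨-1, [], 11, []⟩]⟩,
  ⟨[(1, [2,0,1,0]), (-1, [2,1,1])], 1, [⟨1, [2], 0, []⟩]⟩,
  ⟨[(1, [0,0,2,1]), (2, [0,0,1,2]), (2, [2,1,1]), (-2, [2,1,0,0]), (-2, [1,1,2]), (1, [0,2,0,1]), (-1, [1,2,0,0]), (-1, [1,0,2,0]), (-1, [0,2,1,0]), (1, [0,1,2,0])], 4, [⟨-1, [], 7, []⟩, ⟨-8, [0], 2, []⟩, ⟨-4, [0], 4, []⟩, ⟨1, [], 8, []⟩, ⟨2, [0], 10, []⟩, ⟨2, [], 6, []⟩, ⟨4, [], 2, [0]⟩, ⟨2, [], 5, [0,0]⟩, ⟨-2, [], 5, [1]⟩, ⟨2, [1], 5, []⟩, ⟨-12, [], 13, [2]⟩, ⟨4, [2], 13, []⟩]⟩,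
  ⟨[(1, [0,0,2,0,0]), (-1, [2,0,0,1]), (1, [1,0,0,2]), (1, [0,0,1,2]), (-2, [1,1,2]), (1, [0,2,0,0,0]), (-1, [0,2,0,1]), (3, [2,1,1]), (-2, [2,1,0,0]), (-1, [1,2,0,0])], 2, [⟨-1, [], 6, [1]⟩, ⟨1, [], 7, []⟩, ⟨2, [], 3, [0]⟩, ⟨1, [], 12, [0,0]⟩, ⟨-2, [0], 3, []⟩, ⟨-1, [], 11, [0]⟩, ⟨1, [1], 12, []⟩, ⟨2, [], 2, [2]⟩, ⟨-4, [2], 2, []⟩]⟩,
  ⟨[(1, [0,0,0,2,0]), (-1, [0,2,0,0,0]), (2, [0,2,0,1]), (-1, [0,0,1,2]), (1, [2,1,0,0]), (-2, [1,0,2,0]), (2, [2,0,0,1]), (-2, [1,0,0,2]), (3, [1,1,2]), (-3, [2,1,1]), (-1, [0,2,1,0]), (1, [0,1,2,0])], 4, [⟨8, [], 5, [0]⟩, ⟨-4, [0], 5, []⟩, ⟨-2, [], 8, []⟩, ⟨2, [0], 12, []⟩, ⟨2, [], 13, [1]⟩, ⟨-2, [1], 13, []⟩, ⟨1, [], 10, []⟩, ⟨-4, [0], 6, []⟩, ⟨-1, [], 9, []⟩, ⟨2, [],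 13, [0,0]⟩, ⟨-8, [2], 15, []⟩]⟩,
  ⟨[(1, [1,0,3]), (-1, [1,3,0]), (2, [1,2,0,0]), (-2, [1,2,1]), (2, [1,0,0,2]), (-2, [1,1,2])], 1, [⟨1, [1], 8, []⟩]⟩,
  ⟨[(1, [3,0,1]), (1, [1,3,0]), (-2, [2,0,0,1]), (-2, [1,2,0,0]), (2, [2,1,1]), (2, [1,2,1])], 2, [⟨-1, [], 11, []⟩, ⟨-2, [1], 15, []⟩, ⟨1, [], 10, []⟩, ⟨-4, [], 17, [2]⟩, ⟨4, [2], 17, []⟩]⟩,
  ⟨[(1, [0,1,3]), (-4, [2,1,0,0]), (4, [2,1,1]), (-2, [1,0,2,0]), (2, [0,0,1,2]), (-2, [1,1,2]), (-1, [1,3,0]), (2, [0,1,2,0])], 2, [⟨-4, [], 10, [1]⟩, ⟨1, [], 13, []⟩, ⟨-8, [0], 7, []⟩, ⟨2, [], 10, [0,0]⟩, ⟨-2, [0], 9, []⟩, ⟨4, [1], 10, []⟩, ⟨2, [0], 15, []⟩, ⟨4, [], 7, [0]⟩, ⟨1, [], 11, []⟩, ⟨-4, [], 18, [2]⟩]⟩,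
  ⟨[(1, [0,0,0,3]), (2, [0,0,0,0,2]), (1, [0,0,1,2]), (-1, [0,2,1,0]), (-1, [0,1,2,0]), (-1, [2,1,0,0]), (1, [1,0,2,0]), (-1, [2,0,0,1]), (1, [1,0,0,2]), (1, [0,2,0,1]), (2, [2,1,1]), (-4, [1,1,2])], 1, [⟨1, [0], 8, []⟩, ⟨-1, [], 3, []⟩, ⟨-1, [], 4, []⟩, ⟨1, [], 5, []⟩, ⟨1, [], 7, [2]⟩]⟩,
  ⟨[(1, [0,1,1]), (-1, [1,1,0])], 1, [⟨1, [], 19, []⟩, ⟨1, [0], 20, []⟩, ⟨-1, [], 20, [0]⟩]⟩,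
  ⟨[(1, [0,0,1,0]), (-1, [1,1,0])], 1, [⟨1, [0], 9, []⟩, ⟨1, [], 0, []⟩]⟩,
  ⟨[(1, [2,0,1,1]), (-1, [2,1,1,0])], 1, [⟨1, [2], 1, []⟩]⟩,
  ⟨[(1, [2,0,0,1,0]), (-1, [2,1,1,0])], 1, [⟨1, [2], 1, []⟩]⟩,
  ⟨[(1, [0,2,0,1,0]), (-1, [0,2,1,1])], 1, [⟨1, [0], 11, []⟩]⟩,
  ⟨[(1, [0,0,1,2,0]), (1, [2,1,1,0]), (-1, [1,2,1,0]), (2, [1,0,2,1]), (-2, [0,1,2,1]), (2, [1,2,0,1]), (-2, [1,1,0,2]), (2, [1,0,1,2]), (2, [0,1,2,0,0]), (-1, [1,2,0,0,0]), (-2, [1,0,2,0,0]), (1, [2,1,0,1]), (-2, [2,1,0,0,0]), (-1, [1,0,0,2,0])], 2, [⟨-1, [], 7, [0]⟩, ⟨-1, [3], 25, []⟩, ⟨1, [], 16, [1]⟩, ⟨2, [1], 15, []⟩, ⟨-1, [1], 16, []⟩, ⟨1, [0], 8, []⟩, ⟨1, [], 25, [3]⟩, ⟨1, [], 6, [0]⟩, ⟨-2, [], 13, [0,2]⟩, ⟨2, [], 4, [2]⟩, ⟨-2, [2], 3,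 []⟩, ⟨2, [2], 4, []⟩]⟩,
  ⟨[(1, [0,0,2,0,1]), (1, [0,2,0,0,1]), (-1, [0,2,1,1]), (-3, [2,1,0,1]), (-4, [1,2,0,1]), (-4, [1,0,2,1]), (3, [0,1,2,1]), (3, [1,2,1,0]), (3, [1,1,0,2]), (-3, [1,0,1,2]), (3, [2,1,1,0]), (1, [1,0,0,2,0]), (-1, [1,1,2,0]), (1, [1,0,2,0,0])], 1, [⟨1, [1], 17, []⟩, ⟨-1, [0], 9, []⟩, ⟨1, [], 14, [3]⟩, ⟨1, [3], 26, []⟩, ⟨1, [], 8, [0]⟩, ⟨-1, [], 17, [1]⟩, ⟨-1, [0], 8, []⟩, ⟨1, [], 24, [0,1]⟩, ⟨1, [], 16, [1]⟩, ⟨-1, [1], 16, []⟩, ⟨2, [], 14, [0,2]⟩, ⟨-2, [], 5, [2]⟩, ⟨2, [2], 4, []⟩, ⟨-3, [2], 5, []⟩]⟩,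
  ⟨[(1, [0,0,0,1,2]), (1, [0,2,1,1]), (1, [2,1,0,0,0]), (1, [1,2,0,0,0]), (-3, [2,1,0,1]), (-4, [1,2,0,1]), (3, [1,0,2,0,0]), (-4, [1,0,2,1]), (3, [0,1,2,1]), (3, [1,2,1,0]), (2, [1,1,0,2]), (-3, [1,0,1,2]), (-1, [0,2,1,0,0]), (2, [1,0,0,2,0]), (-2, [1,1,2,0]), (-2, [0,1,2,0,0]), (2, [2,1,1,0])], 1, [⟨1, [0], 12, []⟩, ⟨-1, [], 11, [0]⟩, ⟨-1, [], 12, [0]⟩, ⟨1, [1], 18, []⟩, ⟨-1, [0], 10, []⟩, ⟨1, [], 15, [3]⟩, ⟨1, [3], 27, []⟩, ⟨1, [], 9, [0]⟩, ⟨-1, [], 18, [1]⟩, ⟨-1, [0], 9, []⟩, ⟨1, [], 25, [0,1]⟩, ⟨1, [], 17, [1]⟩, ⟨-1, [1], 17, []⟩, ⟨1, [0], 14, []⟩, ⟨1, [], 15, [0,2]⟩, ⟨3, [2], 5, []⟩, ⟨-3, [2], 6, []⟩]⟩,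
  ⟨[(1, [0,0,0,2,1]), (-1, [0,2,0,0,1]), (-1, [0,2,1,0,0]), (2, [2,1,0,0,0]), (6, [2,1,0,1]), (6, [1,2,0,1]), (-2, [1,0,2,0,0]), (6, [1,0,2,1]), (-3, [0,1,2,1]), (-6, [1,2,1,0]), (-3, [1,1,0,2]), (3, [1,0,1,2]), (-8, [2,1,1,0]), (-2, [1,0,0,2,0]), (2, [1,1,2,0]), (-2, [0,1,2,0,0]), (2, [0,2,1,1])], 1, [⟨1, [0], 14, []⟩, ⟨-2, [], 0, []⟩, ⟨-1, [], 1, []⟩, ⟨1, [], 14, [0]⟩, ⟨-3, [], 2, []⟩, ⟨-1, [], 3, []⟩, ⟨1, [], 16, [2,0]⟩, ⟨2, [], 7, [2]⟩]⟩,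
  ⟨[(1, [0,0,0,0,2,0]), (1, [0,2,0,0,0,0]), (-9, [0,1,2,0,0]), (5, [2,1,0,0,0]), (3, [1,2,0,0,0]), (8, [1,0,2,0,0]), (5, [1,0,0,2,0]), (-6, [1,1,2,0]), (5, [1,1,0,2]), (-4, [2,1,1,0]), (-4, [1,2,0,1]), (-4, [1,0,2,1]), (5, [0,1,2,1]), (-5, [1,0,1,2]), (1, [1,2,1,0]), (-1, [0,2,1,0,0]), (-1, [2,1,0,1])], 1, [⟨1, [0], 13, []⟩, ⟨1, [], 1, []⟩, ⟨1, [], 14, [0]⟩, ⟨-2, [], 2, []⟩, ⟨1, [], 15, [0]⟩, ⟨-4, [], 3, []⟩, ⟨2, [], 17, [0,2]⟩, ⟨2, [], 17, [2,0]⟩, ⟨-3, [], 8, [2]⟩, ⟨1, [], 5, []⟩]⟩,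
  ⟨[(1, [1,1,3]), (3, [1,2,1,0]), (-3, [1,2,0,1]), (3, [1,1,0,2]), (-3, [1,0,1,2]), (2, [2,1,1,0]), (1, [1,0,2,0,0]), (-3, [1,0,2,1]), (1, [1,0,0,2,0]), (-1, [1,1,2,0]), (2, [0,1,2,1]), (-2, [2,1,0,1])], 1, [⟨-1, [1], 20, []⟩, ⟨1, [], 12, [0]⟩, ⟨1, [3], 30, []⟩, ⟨-1, [], 21, [1]⟩, ⟨1, [1], 21, []⟩, ⟨2, [2], 8, []⟩, ⟨-2, [2], 9, []⟩]⟩]

def steps1 : List Step := [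
  ⟨[(1, [1,3,1]), (-1, [1,2,1,0]), (-1, [1,0,2,0,0]), (3, [1,0,2,1]), (1, [1,2,0,1]), (-1, [1,1,0,2]), (1, [1,0,1,2]), (-1, [1,0,0,2,0]), (1, [1,1,2,0]), (-2, [0,1,2,1]), (2, [2,1,0,1]), (-2, [2,1,1,0])], 1, [⟨1, [1], 22, []⟩, ⟨-1, [], 0, []⟩]⟩,
  ⟨[(1, [1,3,0,0]), (-2, [1,2,0,0,0]), (1, [1,2,0,1]), (-1, [1,1,0,2]), (-1, [1,0,2,0,0]), (1, [1,0,2,1]), (1, [1,0,1,2]), (1, [1,2,1,0]), (-1, [1,0,0,2,0]), (1, [1,1,2,0])], 1, [⟨1, [1], 22, []⟩]⟩,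
  ⟨[(1, [1,0,0,3]), (1, [1,0,2,0,0]), (-1, [1,0,2,1]), (2, [1,0,0,0,2]), (-1, [1,0,1,2]), (-1, [1,2,1,0]), (1, [1,0,0,2,0]), (-1, [1,1,2,0]), (1, [1,2,0,1]), (-1, [1,1,0,2])], 1, [⟨1, [1], 22, []⟩]⟩,
  ⟨[(1, [0,0,1,3]), (-2, [0,1,2,0,0]), (2, [0,1,2,1]), (2, [2,1,0,0,0]), (-1, [1,0,2,0,0]), (-1, [1,0,0,2,0]), (1, [1,1,2,0]), (-1, [1,2,1,0]), (1, [1,0,2,1]), (1, [1,2,0,1]), (1, [1,1,0,2]), (-1, [1,0,1,2]), (-4, [2,1,1,0]), (2, [0,2,1,1]), (-2, [0,2,1,0,0]), (2, [2,1,0,1])], 1, [⟨1, [0], 15, []⟩, ⟨1, [], 15, [0]⟩, ⟨1, [], 1, []⟩, ⟨-2, [], 6, []⟩, ⟨-4, [], 8, []⟩, ⟨2, [], 22, [2,0]⟩, ⟨2, [], 13, [2]⟩]⟩,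
  ⟨[(1, [0,0,0,0,3]), (2, [0,0,0,0,0,2]), (-1, [0,2,1,0,0]), (1, [0,1,2,0,0]), (-1, [2,1,0,0,0]), (-1, [1,2,0,0,0]), (-3, [1,0,2,0,0]), (-2, [1,0,0,2,0]), (2, [1,1,2,0]), (-5, [1,2,1,0]), (-4, [0,1,2,1]), (6, [1,0,2,1]), (6, [1,2,0,1]), (-6, [1,1,0,2]), (4, [1,0,1,2]), (5, [2,1,0,1]), (3, [0,2,1,1]), (-4, [2,1,1,0]), (-2, [0,2,0,0,1])], 1, [⟨1, [0], 15, []⟩, ⟨-1, [], 7, []⟩, ⟨-1, [], 8, []⟩, ⟨1, [], 21, [0]⟩, ⟨-1, [], 9, []⟩, ⟨-1, [], 10, []⟩, ⟨-1, [], 23, [0,2]⟩, ⟨-1, [], 23, [2,0]⟩, ⟨4, [], 14, [2]⟩]⟩,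
  ⟨[(1, [1,0,1,0]), (-1, [1,1,1])], 1, [⟨1, [1], 24, []⟩]⟩,
  ⟨[(1, [0,0,1,1]), (-1, [1,1,0,0])], 1, [⟨1, [0], 16, []⟩, ⟨1, [], 16, [0]⟩]⟩,
  ⟨[(1, [0,0,0,1,0]), (-1, [1,1,0,0])], 1, [⟨1, [0], 16, []⟩, ⟨1, [], 17, [0]⟩]⟩,
  ⟨[(1, [1,2,0,1,0]), (-1, [1,2,1,1])], 1, [⟨1, [1], 26, []⟩]⟩,
  ⟨[(1, [1,0,0,2,1]), (2, [1,0,0,1,2]), (2, [1,2,1,1]), (-2, [1,2,1,0,0]), (-2, [1,1,1,2]), (1, [1,0,2,0,1]), (-1, [1,1,2,0,0]), (-1, [1,1,0,2,0]), (-1, [1,0,2,1,0]), (1, [1,0,1,2,0])], 1, [⟨1, [1], 26, []⟩]⟩,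
  ⟨[(1, [1,0,0,2,0,0]), (1, [1,1,0,0,2]), (1, [1,0,0,1,2]), (-1, [1,2,0,0,1]), (-2, [1,1,1,2]), (1, [1,0,2,0,0,0]), (-1, [1,0,2,0,1]), (3, [1,2,1,1]), (-2, [1,2,1,0,0]), (-1, [1,1,2,0,0])], 1, [⟨1, [1], 26, []⟩]⟩,
  ⟨[(1, [1,0,0,0,2,0]), (-1, [1,0,2,0,0,0]), (2, [1,0,2,0,1]), (-1, [1,0,0,1,2]), (1, [1,2,1,0,0]), (-2, [1,1,0,2,0]), (-2, [1,1,0,0,2]), (2, [1,2,0,0,1]), (3, [1,1,1,2]), (-3, [1,2,1,1]), (-1, [1,0,2,1,0]), (1, [1,0,1,2,0])], 1, [⟨1, [1], 26, []⟩]⟩,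
  ⟨[(1, [2,1,1,0,0]), (-1, [1,2,1,0,0]), (1, [1,0,1,2,0]), (1, [1,2,1,1]), (2, [1,1,2,1]), (-2, [1,1,2,0,0]), (-1, [1,1,0,2,0]), (-1, [2,1,1,1])], 2, [⟨1, [], 16, [0]⟩, ⟨-2, [], 12, [0]⟩, ⟨1, [], 33, [1,0]⟩, ⟨-1, [3], 21, []⟩, ⟨-2, [], 25, [1]⟩, ⟨2, [3], 22, []⟩, ⟨2, [1], 25, []⟩, ⟨-1, [], 11, [0]⟩, ⟨1, [], 34, [1,0]⟩, ⟨2, [2], 4, []⟩, ⟨-4, [2], 5, []⟩, ⟨1, [], 20, [0]⟩, ⟨-2, [2], 6, []⟩, ⟨-2, [1], 30, []⟩]⟩,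
  ⟨[(1, [2,1,0,1,0]), (-1, [2,1,1,1])], 1, [⟨1, [2], 7, []⟩]⟩,
  ⟨[(1, [2,1,0,0,1]), (1, [1,0,1,2,0]), (-2, [1,2,1,0,0]), (-1, [1,1,2,0,0]), (2, [1,2,1,1]), (-1, [1,1,0,2,0]), (1, [1,1,2,1]), (-1, [2,1,1,1])], 6, [⟨-1, [0], 14, []⟩, ⟨1, [], 24, [3]⟩, ⟨2, [0], 18, []⟩, ⟨-2, [], 29, [1]⟩, ⟨-2, [], 30, [1]⟩, ⟨16, [], 31, [1]⟩, ⟨2, [], 13, [0]⟩, ⟨-12, [], 34, [1,0]⟩, ⟨12, [], 42, [1,0]⟩, ⟨-12, [3], 23, []⟩, ⟨-2, [], 36, [1,0]⟩, ⟨14, [0], 20, []⟩, ⟨14, [0], 21, []⟩, ⟨-14, [0], 22, []⟩, ⟨22, [], 45, [2,1]⟩, ⟨6, [], 45, [1,2]⟩, ⟨1, [1], 27, []⟩, ⟨-10, [], 27, [1]⟩, ⟨10, [3], 24, []⟩, ⟨1, [1], 28, []⟩, ⟨-9, [], 26, [1]⟩, ⟨9, [0], 13, []⟩, ⟨6, [], 24, [0,2]⟩, ⟨24, [2], 6, []⟩, ⟨-18, [2], 7, []⟩, ⟨-16, [], 22,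 [0]⟩, ⟨-18, [2], 8, []⟩, ⟨-2, [], 18, [0]⟩, ⟨-8, [], 45, [0,2,0]⟩, ⟨-8, [], 45, [2,0,0]⟩, ⟨-8, [], 24, [2,0]⟩, ⟨4, [1], 30, []⟩, ⟨-2, [1], 31, []⟩, ⟨-22, [1], 32, []⟩]⟩,
  ⟨[(1, [2,0,0,1,1]), (-1, [1,2,1,0,0]), (1, [1,0,1,2,0]), (1, [1,2,1,1]), (2, [1,1,2,1]), (-2, [1,1,2,0,0]), (-1, [1,1,0,2,0]), (-1, [2,1,1,1])], 1, [⟨1, [2], 8, []⟩, ⟨1, [], 2, []⟩]⟩,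
  ⟨[(1, [2,0,0,0,1,0]), (-1, [1,2,1,0,0]), (1, [1,0,1,2,0]), (1, [1,2,1,1]), (2, [1,1,2,1]), (-2, [1,1,2,0,0]), (-1, [1,1,0,2,0]), (-1, [2,1,1,1])], 1, [⟨1, [2], 8, []⟩, ⟨1, [], 3, []⟩]⟩,
  ⟨[(1, [0,1,2,1,0]), (-1, [1,2,1,1]), (-1, [1,1,2,1]), (-1, [1,0,2,1,0]), (1, [1,2,1,0,0]), (1, [1,1,2,0,0]), (1, [1,1,0,2,0]), (-1, [1,0,1,2,0])], 2, [⟨1, [], 17, [0]⟩, ⟨-1, [1], 30, []⟩, ⟨1, [], 30, [1]⟩, ⟨-1, [3], 27, []⟩, ⟨-1, [], 39, [1,0]⟩, ⟨1, [], 16, [0]⟩, ⟨2, [2], 10, []⟩, ⟨-2, [], 25, [0]⟩, ⟨2, [2], 11, []⟩, ⟨2, [1], 35, []⟩]⟩,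
  ⟨[(1, [0,1,2,0,1]), (2, [1,1,2,1]), (-1, [1,1,1,2]), (5, [1,2,1,1]), (-2, [1,1,2,0,0]), (-4, [1,2,1,0,0]), (2, [1,0,1,2,0]), (-2, [1,1,0,2,0]), (1, [1,0,0,1,2]), (-1, [1,2,0,0,1]), (-1, [1,0,2,0,1])], 2, [⟨2, [0], 17, []⟩, ⟨-2, [], 30, [1]⟩, ⟨-1, [], 18, [0]⟩, ⟨1, [1], 31, []⟩, ⟨4, [], 39, [1,0]⟩, ⟨4, [0], 24, []⟩, ⟨4, [], 35, [1]⟩, ⟨-4, [3], 27, []⟩, ⟨-3, [], 31, [1]⟩, ⟨3, [3], 28, []⟩, ⟨4, [0], 25, []⟩, ⟨-4, [0], 26, []⟩, ⟨2, [], 37, [0,2,0]⟩, ⟨-2, [], 49, [2,0,0]⟩, ⟨6, [], 49, [2,1]⟩, ⟨-2, [], 37, [1,2]⟩, ⟨1, [], 17, [0]⟩, ⟨-1, [], 40, [1,0]⟩, ⟨2, [], 28, [0,2]⟩, ⟨-2, [], 28, [2,0]⟩, ⟨8, [2], 10, []⟩, ⟨-6, [2], 11, []⟩, ⟨-6, [], 26, [0]⟩, ⟨-6, [2], 12, []⟩, ⟨2, [1], 34, []⟩, ⟨-8, [1], 36, []⟩]⟩,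
  ⟨[(1, [0,2,1,0,1]), (3, [1,0,2,0,1]), (-9, [1,1,2,1]), (3, [1,2,0,0,1]), (-3, [1,0,2,1,0]), (15, [1,2,1,0,0]), (9, [1,1,2,0,0]), (-18, [1,2,1,1]), (9, [1,1,0,2,0]), (-1, [0,2,1,1,0]), (5, [1,1,1,2]), (-9, [1,0,1,2,0]), (-4, [1,0,0,1,2]), (-1, [1,1,0,0,2])], 6, [⟨-8, [0], 19, []⟩, ⟨8, [], 29, [3]⟩, ⟨1, [1], 33, []⟩, ⟨-28, [], 40, [1,0]⟩, ⟨29, [3], 28, []⟩, ⟨29, [], 32, [1]⟩, ⟨-29, [3], 29, []⟩, ⟨-16, [1], 32, []⟩, ⟨-28, [0], 25, []⟩, ⟨-24, [], 36, [1]⟩, ⟨-28, [0], 26, []⟩, ⟨28, [0], 27, []⟩, ⟨16, [], 50, [0,2,0]⟩, ⟨16, [], 50, [2,0,0]⟩, ⟨-38, [], 50, [2,1]⟩, ⟨-8, [], 50, [1,2]⟩, ⟨7, [0], 16, []⟩, ⟨7, [], 50, [0,3]⟩, ⟨1, [], 17, [0]⟩, ⟨-1, [], 32, [0,0]⟩, ⟨-1, [3], 49, []⟩, ⟨14, [], 50, [0,0,2]⟩, ⟨17,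 [], 19, [0]⟩, ⟨6, [], 29, [0,2]⟩, ⟨16, [], 29, [2,0]⟩, ⟨-56, [2], 11, []⟩, ⟨-2, [], 26, [0]⟩, ⟨62, [2], 12, []⟩, ⟨28, [], 27, [0]⟩, ⟨4, [0], 23, []⟩, ⟨-4, [], 34, [1]⟩, ⟨-4, [], 35, [1]⟩, ⟨62, [2], 13, []⟩, ⟨-13, [0], 18, []⟩, ⟨13, [], 31, [1]⟩, ⟨-16, [1], 35, []⟩, ⟨-4, [1], 36, []⟩, ⟨78, [1], 37, []⟩]⟩,
  ⟨[(1, [0,2,1,0,0,0]), (-1, [0,2,1,1,0]), (-1, [1,0,2,1,0]), (-3, [2,1,0,0,0,0]), (-1, [1,2,0,0,0,0]), (-1, [1,0,2,0,0,0]), (3, [0,1,2,0,0,0]), (2, [1,1,0,2,0]), (-2, [1,0,1,2,0]), (-7, [1,1,2,1]), (-3, [1,1,1,2]), (2, [1,0,0,1,2]), (3, [2,1,1,1]), (2, [1,2,1,0,0]), (7, [1,1,2,0,0]), (1, [1,1,0,0,2]), (-1, [1,2,0,0,1]), (-1, [1,0,2,0,1])], 6, [⟨6, [], 23, [0]⟩, ⟨-6, [0], 25, []⟩, ⟨-6, [0], 18, []⟩,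 ⟨6, [], 32, [0,0]⟩, ⟨-17, [], 33, [0,0]⟩, ⟨-17, [3], 50, []⟩, ⟨-20, [], 41, [1,0]⟩, ⟨-20, [0], 26, []⟩, ⟨-24, [], 37, [1]⟩, ⟨-20, [0], 27, []⟩, ⟨20, [0], 28, []⟩, ⟨38, [], 51, [0,2,0]⟩, ⟨44, [], 51, [2,0,0]⟩, ⟨-58, [], 51, [2,1]⟩, ⟨-40, [], 51, [1,2]⟩, ⟨17, [0], 17, []⟩, ⟨17, [], 51, [0,3]⟩, ⟨-19, [1], 34, []⟩, ⟨37, [3], 29, []⟩, ⟨37, [], 33, [1]⟩, ⟨-37, [3], 30, []⟩, ⟨-26, [1], 33, []⟩, ⟨23, [], 18, [0]⟩, ⟨34, [], 51, [0,0,2]⟩, ⟨7, [], 20, [0]⟩, ⟨-6, [], 30, [0,2]⟩, ⟨32, [], 30, [2,0]⟩, ⟨-40, [2], 12, []⟩, ⟨-34, [], 27, [0]⟩, ⟨70, [2], 13, []⟩, ⟨20, [], 28, [0]⟩, ⟨-4, [0], 24, []⟩, ⟨4, [], 35, [1]⟩, ⟨4, [], 36, [1]⟩, ⟨2, [0], 20, []⟩, ⟨-2, [], 30, [3]⟩, ⟨52, [2], 14, []⟩, ⟨-11, [0], 19, []⟩, ⟨11, [],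 32, [1]⟩, ⟨4, [1], 36, []⟩, ⟨4, [1], 37, []⟩, ⟨42, [1], 38, []⟩]⟩,
  ⟨[(1, [0,2,0,1,1]), (-1, [0,2,1,1,0])], 1, [⟨1, [0], 29, []⟩]⟩,
  ⟨[(1, [0,2,0,0,1,0]), (-1, [0,2,1,1,0])], 1, [⟨1, [0], 29, []⟩]⟩,
  ⟨[(1, [0,0,1,2,1]), (-1, [1,0,2,1,0]), (5, [1,2,1,0,0]), (3, [1,1,0,2,0]), (-3, [1,0,1,2,0]), (1, [1,0,2,0,1]), (1, [1,2,0,0,1]), (3, [1,1,2,0,0]), (-6, [1,2,1,1]), (2, [1,1,1,2]), (-2, [1,0,0,1,2]), (-4, [1,1,2,1])], 6, [⟨-4, [], 44, [1,0]⟩, ⟨-4, [0], 29, []⟩, ⟨-4, [0], 30, []⟩, ⟨4, [0], 31, []⟩, ⟨-5, [0], 23, []⟩, ⟨5, [], 33, [3]⟩, ⟨1, [1], 37, []⟩, ⟨5, [3], 32, []⟩, ⟨5, [], 36, [1]⟩, ⟨-5, [3], 33, []⟩, ⟨-4, [1], 36, []⟩, ⟨4, [], 54, [0,2,0]⟩, ⟨4, [], 54, [2,0,0]⟩, ⟨-8, [], 54, [2,1]⟩, ⟨4, [0], 20,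 []⟩, ⟨4, [], 54, [0,3]⟩, ⟨8, [], 54, [0,0,2]⟩, ⟨5, [], 23, [0]⟩, ⟨6, [], 33, [0,2]⟩, ⟨4, [], 33, [2,0]⟩, ⟨-8, [2], 15, []⟩, ⟨14, [2], 16, []⟩, ⟨4, [], 31, [0]⟩, ⟨4, [0], 27, []⟩, ⟨-4, [], 38, [1]⟩, ⟨-4, [], 39, [1]⟩, ⟨14, [2], 17, []⟩, ⟨-1, [0], 22, []⟩, ⟨1, [], 35, [1]⟩, ⟨-2, [], 54, [1,2]⟩, ⟨1, [], 21, [0]⟩, ⟨-1, [], 36, [0,0]⟩, ⟨-1, [3], 53, []⟩, ⟨-2, [], 30, [0]⟩, ⟨-4, [1], 39, []⟩, ⟨-4, [1], 40, []⟩, ⟨18, [1], 41, []⟩]⟩]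

def steps2 : List Step := [
  ⟨[(1, [0,0,0,0,1,2]), (1, [1,2,0,0,1]), (1, [1,0,2,0,1]), (2, [0,1,2,0,0,0]), (-2, [2,1,0,0,0,0]), (-1, [1,2,0,0,0,0]), (-1, [1,0,2,0,0,0]), (-1, [1,0,0,1,2]), (8, [1,2,1,0,0]), (9, [1,1,2,0,0]), (-9, [1,1,2,1]), (2, [2,1,1,1]), (-8, [1,2,1,1]), (-2, [1,0,2,1,0]), (6, [1,1,0,2,0]), (-6, [1,0,1,2,0])], 1, [⟨1, [0], 27, []⟩, ⟨1, [], 41, [0,0]⟩, ⟨-1, [], 41, [1]⟩, ⟨-1, [], 0, []⟩, ⟨-1, [], 30, [0]⟩, ⟨1, [], 2, []⟩, ⟨2, [], 4, []⟩, ⟨-2, [], 43, [0,2,0]⟩, ⟨-3, [], 43, [2,0,0]⟩, ⟨4, [], 43, [2,1]⟩, ⟨3, [], 43, [1,2]⟩, ⟨5, [], 5, []⟩, ⟨-3, [], 6, []⟩, ⟨-2, [], 34, [0,2]⟩, ⟨2, [], 34, [2,0]⟩, ⟨-2, [], 9, []⟩, ⟨-2, [], 11, []⟩]⟩,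
  ⟨[(1, [0,0,0,0,2,1]), (-2, [0,1,2,0,0,0]), (1, [0,2,0,0,0,1]), (1, [2,1,0,0,0,0]), (-12, [1,2,0,0,1]), (-12, [1,0,2,0,1]), (12, [1,0,0,1,2]), (-63, [1,2,1,0,0]), (-46, [1,1,2,0,0]), (45, [1,1,2,1]), (-1, [2,1,1,1]), (75, [1,2,1,1]), (14, [1,0,2,1,0]), (-38, [1,1,0,2,0]), (38, [1,0,1,2,0]), (4, [1,1,0,0,2]), (-16, [1,1,1,2]), (-1, [0,2,1,1,0])], 1, [⟨1, [0], 27, []⟩, ⟨1, [], 41, [1]⟩, ⟨1, [], 42, [0,0]⟩, ⟨-2, [], 42, [1]⟩, ⟨6, [], 1, []⟩, ⟨-1, [], 31, [0]⟩, ⟨3, [], 3, []⟩, ⟨-1, [], 4, []⟩, ⟨-8, [], 5, []⟩, ⟨2, [], 44, [0,2,0]⟩, ⟨2, [], 44, [2,0,0]⟩, ⟨-6, [], 44, [2,1]⟩, ⟨-3, [], 44, [1,2]⟩, ⟨-4, [], 6, []⟩, ⟨6, [], 7, []⟩, ⟨3, [], 35, [0,2]⟩, ⟨-2, [], 35, [2,0]⟩, ⟨1, [], 9, []⟩, ⟨-2, [], 10, []⟩, ⟨-2,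 [], 12, []⟩, ⟨-1, [], 15, []⟩]⟩,
  ⟨[(1, [0,0,0,0,0,2,0]), (-1, [0,2,0,0,0,0,0]), (8, [0,1,2,0,0,0]), (-4, [2,1,0,0,0,0]), (52, [1,2,1,1]), (-11, [1,2,0,0,1]), (-20, [1,1,1,2]), (-11, [1,0,2,0,1]), (-37, [1,2,1,0,0]), (-12, [1,1,2,0,0]), (12, [1,1,2,1]), (15, [1,0,1,2,0]), (-16, [1,1,0,2,0]), (1, [0,2,1,1,0]), (7, [1,0,2,1,0]), (11, [1,0,0,1,2]), (9, [1,1,0,0,2]), (-4, [1,2,0,0,0,0]), (-4, [1,0,2,0,0,0]), (4, [2,1,1,1])], 1, [⟨1, [0], 27, []⟩, ⟨-1, [], 42, [0,0]⟩, ⟨1, [], 43, [0,0]⟩, ⟨8, [], 31, [0]⟩, ⟨-5, [], 2, []⟩, ⟨-2, [], 32, [0]⟩, ⟨-4, [], 5, []⟩, ⟨1, [], 6, []⟩, ⟨-5, [], 45, [0,2,0]⟩, ⟨-8, [], 45, [2,0,0]⟩, ⟨4, [], 45, [2,1]⟩, ⟨5, [], 45, [1,2]⟩, ⟨4, [], 7, []⟩, ⟨15, [], 8, []⟩, ⟨-5, [], 36,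 [0,2]⟩, ⟨6, [], 36, [2,0]⟩, ⟨-1, [], 33, [0]⟩, ⟨-8, [], 12, []⟩, ⟨-8, [], 13, []⟩, ⟨9, [], 15, []⟩, ⟨-16, [], 17, []⟩]⟩,
  ⟨[(1, [1,1,0,3]), (3, [1,1,0,2,0]), (4, [1,1,2,0,0]), (-4, [1,1,2,1]), (-6, [1,2,1,1]), (5, [1,2,1,0,0]), (-3, [1,0,1,2,0]), (-1, [1,0,0,1,2]), (1, [1,2,0,0,1]), (1, [1,0,2,0,1]), (-1, [1,0,2,1,0]), (1, [1,1,0,0,2])], 1, [⟨1, [1], 41, []⟩, ⟨1, [], 27, [0]⟩, ⟨-2, [], 9, []⟩, ⟨2, [], 13, []⟩, ⟨-2, [], 14, []⟩, ⟨-1, [], 16, []⟩, ⟨3, [], 18, []⟩]⟩,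
  ⟨[(1, [1,3,0,1]), (4, [1,1,2,1]), (-3, [1,2,0,0,1]), (8, [1,2,1,1]), (3, [1,0,1,2,0]), (-3, [1,1,0,2,0]), (-5, [1,2,1,0,0]), (-2, [1,1,1,2]), (1, [1,0,0,1,2]), (1, [1,1,0,0,2]), (-4, [1,1,2,0,0]), (-1, [1,0,2,0,1]), (1, [1,0,2,1,0])], 1, [⟨1, [1], 41, []⟩, ⟨-1, [], 28, [0]⟩, ⟨2, [], 10, []⟩, ⟨-2, [], 14, []⟩, ⟨2, [], 15, []⟩, ⟨1, [], 17, []⟩, ⟨-3, [], 19, []⟩]⟩,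
  ⟨[(1, [1,0,1,3]), (-1, [1,0,2,1,0]), (1, [1,2,1,0,0]), (2, [1,1,2,0,0]), (-2, [1,2,1,1]), (-2, [1,1,2,1]), (1, [1,1,0,2,0]), (-1, [1,1,0,0,2]), (1, [1,0,0,1,2]), (1, [1,0,2,0,1]), (1, [1,2,0,0,1]), (-1, [1,0,1,2,0])], 1, [⟨1, [1], 41, []⟩, ⟨1, [], 29, [0]⟩, ⟨-2, [], 11, []⟩, ⟨2, [], 15, []⟩, ⟨-2, [], 16, []⟩, ⟨-1, [], 18, []⟩, ⟨3, [], 20, []⟩]⟩,
  ⟨[(1, [1,0,0,0,3]), (2, [1,0,0,0,0,2]), (1, [1,0,0,1,2]), (-1, [1,0,2,1,0]), (-1, [1,0,1,2,0]), (-1, [1,2,1,0,0]), (1, [1,1,0,2,0]), (1, [1,1,0,0,2]), (-1, [1,2,0,0,1]), (1, [1,0,2,0,1]), (2, [1,2,1,1]), (-4, [1,1,1,2])], 1, [⟨1, [1], 41, []⟩]⟩,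
  ⟨[(1, [0,0,0,1,3]), (-2, [0,1,2,0,0,0]), (48, [1,2,1,1]), (3, [1,1,0,0,2]), (-7, [1,2,0,0,1]), (-14, [1,1,1,2]), (-7, [1,0,2,0,1]), (-41, [1,2,1,0,0]), (9, [1,0,2,1,0]), (-30, [1,1,2,0,0]), (25, [1,0,1,2,0]), (-25, [1,1,0,2,0]), (11, [1,0,0,1,2]), (30, [1,1,2,1])], 1, [⟨1, [0], 27, []⟩, ⟨2, [], 48, [0,0]⟩, ⟨-2, [], 48, [1]⟩, ⟨-2, [], 36, [0]⟩, ⟨2, [], 7, []⟩, ⟨-2, [], 37, [0]⟩, ⟨2, [], 9, []⟩, ⟨-4, [], 11, []⟩, ⟨1, [], 50, [0,2,0]⟩, ⟨1, [], 50, [2,0,0]⟩, ⟨-1, [], 50, [2,1]⟩, ⟨1, [], 50, [1,2]⟩, ⟨1, [], 12, []⟩, ⟨-3, [], 13, []⟩, ⟨-1, [], 41, [0,2]⟩, ⟨-1, [], 41, [2,0]⟩, ⟨-4, [], 16, []⟩, ⟨2, [], 17, []⟩, ⟨-2, [], 18, []⟩, ⟨-2, [], 20, []⟩, ⟨4, [], 22, []⟩]⟩,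
  ⟨[(1, [0,0,0,0,0,3]), (2, [0,0,0,0,0,0,2]), (62, [1,2,1,1]), (1, [1,1,0,0,2]), (-11, [1,2,0,0,1]), (-13, [1,1,1,2]), (-11, [1,0,2,0,1]), (-51, [1,2,1,0,0]), (11, [1,0,2,1,0]), (33, [1,1,2,1]), (-33, [1,1,2,0,0]), (10, [1,0,0,1,2]), (-32, [1,1,0,2,0]), (32, [1,0,1,2,0]), (2, [0,2,0,0,0,1]), (-2, [2,1,0,0,0,0]), (2, [2,1,1,1]), (-2, [0,2,1,1,0])], 1, [⟨1, [0], 27, []⟩, ⟨2, [], 48, [1]⟩, ⟨1, [], 49, [0,0]⟩, ⟨-3, [], 49, [1]⟩, ⟨-3, [], 37, [0]⟩, ⟨8, [], 8, []⟩, ⟨-1, [], 38, [0]⟩, ⟨5, [], 10, []⟩, ⟨2, [], 11, []⟩, ⟨-8, [], 12, []⟩, ⟨2, [], 51, [0,2,0]⟩, ⟨3, [], 51, [2,0,0]⟩, ⟨-6, [], 51, [2,1]⟩, ⟨-4, [], 51, [1,2]⟩, ⟨-3, [], 13, []⟩, ⟨-1, [], 14, []⟩, ⟨6, [], 42, [0,2]⟩, ⟨-2, [], 42, [2,0]⟩, ⟨2, [], 16,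 []⟩, ⟨-2, [], 17, []⟩, ⟨3, [], 18, []⟩, ⟨1, [], 19, []⟩, ⟨-3, [], 21, []⟩, ⟨-2, [], 22, []⟩, ⟨6, [], 23, []⟩]⟩,
  ⟨[(1, [1,1,0,1]), (-1, [1,1,1,0])], 1, [⟨-1, [0], 27, []⟩, ⟨-1, [], 64, [1,0]⟩, ⟨-1, [], 43, [1]⟩]⟩,
  ⟨[(1, [1,0,1,1]), (-1, [1,1,1,0])], 1, [⟨1, [1], 44, []⟩]⟩,
  ⟨[(1, [1,0,0,1,0]), (-1, [1,1,1,0])], 1, [⟨1, [1], 44, []⟩]⟩,
  ⟨[(1, [0,0,0,1,1]), (-1, [1,1,0,0,0])], 1, [⟨1, [0], 29, []⟩, ⟨1, [], 46, [0,0]⟩]⟩,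
  ⟨[(1, [0,0,0,0,1,0]), (-1, [1,1,0,0,0])], 1, [⟨1, [0], 29, []⟩, ⟨1, [], 47, [0,0]⟩]⟩,
  ⟨[(1, [1,1,2,0,1]), (-1, [1,1,2,1,0])], 2, [⟨1, [0], 10, []⟩, ⟨-1, [], 48, [0,3]⟩, ⟨1, [0], 7, []⟩, ⟨-1, [], 57, [0,0,3]⟩, ⟨-2, [], 57, [0,0,0,2]⟩, ⟨2, [], 57, [1,2,0]⟩, ⟨-2, [1], 35, []⟩, ⟨4, [], 69, [2,0,1]⟩, ⟨-4, [], 69, [2,1,0]⟩, ⟨2, [0], 28, []⟩, ⟨2, [], 69, [0,2,1]⟩, ⟨4, [], 69, [0,1,2]⟩, ⟨-2, [], 48, [0,0,2]⟩, ⟨-2, [], 48, [0,2,0]⟩, ⟨-2, [], 48, [2,0,0]⟩, ⟨4, [], 48, [2,1]⟩, ⟨8, [], 48, [1,2]⟩, ⟨2, [], 4, [2]⟩]⟩,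
  ⟨[(1, [1,1,0,0,2,0]), (-2, [1,1,2,1,0]), (3, [1,1,0,2,0,0]), (2, [1,1,2,0,0,0]), (-3, [1,1,0,2,1]), (-1, [1,1,1,2,0])], 2, [⟨-3, [1], 36, []⟩, ⟨3, [0], 11, []⟩, ⟨-3, [], 49, [0,3]⟩, ⟨-7, [], 70, [2,1,0]⟩, ⟨-5, [], 70, [1,2,0]⟩, ⟨5, [0], 28, []⟩, ⟨-5, [], 58, [0,2,0,0]⟩, ⟨4, [], 70, [2,0,0,0]⟩, ⟨3, [0], 29, []⟩, ⟨-3, [], 58, [0,2,1]⟩, ⟨-7, [], 58, [0,1,2]⟩, ⟨3, [], 70, [2,0,1]⟩, ⟨-6, [], 49, [0,0,2]⟩, ⟨-4, [], 49, [0,2,0]⟩, ⟨-4, [], 49, [2,0,0]⟩, ⟨12, [], 49, [2,1]⟩, ⟨13, [], 49, [1,2]⟩, ⟨3, [], 5, [2]⟩, ⟨1, [0], 27, []⟩, ⟨-1, [], 58, [0,0,2,0]⟩]⟩,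
  ⟨[(1, [1,2,1,0,1]), (9, [1,1,0,2,1]), (-7, [1,1,2,0,0,0]), (-1, [1,2,1,1,0]), (7, [1,1,2,1,0]), (-9, [1,1,0,2,0,0]), (2, [1,1,0,0,0,2]), (-2, [1,1,1,0,2])], 2, [⟨2, [0], 20, []⟩, ⟨-2, [], 57, [0,1]⟩, ⟨2, [], 45, [1]⟩, ⟨2, [], 46, [1]⟩, ⟨-2, [0], 25, []⟩, ⟨58, [], 59, [0,1,2]⟩, ⟨36, [], 59, [2,0,1]⟩, ⟨22, [], 71, [1,2,0]⟩, ⟨-14, [], 71, [2,0,0,0]⟩, ⟨-25, [0], 12, []⟩, ⟨25, [], 50, [0,3]⟩, ⟨25, [1], 37, []⟩, ⟨52, [], 71, [2,1,0]⟩, ⟨-4, [0], 22, []⟩, ⟨-2, [], 18, [0]⟩, ⟨-2, [0], 27, []⟩, ⟨46, [], 50, [0,0,2]⟩, ⟨22, [], 50, [0,2,0]⟩, ⟨26, [], 50, [2,0,0]⟩, ⟨-74, [], 50, [2,1]⟩, ⟨-104, [], 50, [1,2]⟩, ⟨2, [], 57, [1,0]⟩, ⟨2, [0], 26, []⟩, ⟨-2, [0], 31, []⟩, ⟨2, [0], 21, []⟩, ⟨-2, [2], 5, []⟩, ⟨2, [2],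 6, []⟩, ⟨2, [1], 44, []⟩, ⟨4, [2], 4, []⟩, ⟨2, [1], 46, []⟩, ⟨5, [0], 10, []⟩, ⟨-5, [], 59, [1,3]⟩, ⟨-5, [1], 40, []⟩, ⟨2, [1], 47, []⟩, ⟨-4, [1], 48, []⟩, ⟨-14, [0], 29, []⟩, ⟨-14, [], 70, [2,0,0]⟩, ⟨14, [], 49, [2,0,0]⟩, ⟨-30, [], 6, [2]⟩, ⟨-34, [0], 30, []⟩, ⟨-34, [], 71, [0,2,1]⟩]⟩,
  ⟨[(1, [1,2,1,0,0,0]), (3, [1,1,0,2,1]), (-1, [1,2,1,1,0]), (-2, [1,1,2,0,0,0]), (2, [1,1,2,1,0]), (-3, [1,1,0,2,0,0]), (-1, [1,1,1,0,2]), (1, [1,1,0,0,0,2])], 4, [⟨2, [], 58, [1,0]⟩, ⟨-4, [0], 23, []⟩, ⟨-2, [], 19, [0]⟩, ⟨2, [0], 27, []⟩, ⟨-2, [0], 28, []⟩, ⟨22, [], 72, [2,1,0]⟩, ⟨20, [], 51, [2,0,0]⟩, ⟨-48, [], 51, [2,1]⟩, ⟨2, [1], 46, []⟩, ⟨-28, [0], 31, []⟩, ⟨-28, [], 72, [0,2,1]⟩, ⟨-46, [], 72, [0,1,2]⟩, ⟨-10,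 [], 72, [2,0,1]⟩, ⟨-6, [], 60, [1,2,0]⟩, ⟨16, [], 51, [0,2,0]⟩, ⟨-56, [], 51, [1,2]⟩, ⟨4, [2], 5, []⟩, ⟨-1, [0], 12, []⟩, ⟨1, [], 53, [0,1]⟩, ⟨1, [], 39, [1]⟩, ⟨2, [0], 21, []⟩, ⟨-2, [], 58, [0,1]⟩, ⟨2, [], 47, [1]⟩, ⟨-2, [0], 26, []⟩, ⟨7, [1], 38, []⟩, ⟨10, [0], 10, []⟩, ⟨-10, [], 60, [0,0,3]⟩, ⟨-20, [], 60, [0,0,0,2]⟩, ⟨30, [], 51, [0,0,2]⟩, ⟨2, [0], 22, []⟩, ⟨-2, [], 22, [0]⟩, ⟨-1, [1], 49, []⟩, ⟨1, [1], 45, []⟩, ⟨10, [0], 29, []⟩, ⟨10, [], 72, [0,0,2,0]⟩, ⟨-10, [], 72, [2,0,0,0]⟩, ⟨-4, [], 7, [2]⟩, ⟨-17, [0], 13, []⟩, ⟨17, [], 51, [0,3]⟩]⟩,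
  ⟨[(1, [1,2,0,1,1]), (-1, [1,2,1,1,0])], 1, [⟨1, [1], 50, []⟩]⟩,
  ⟨[(1, [1,2,0,0,1,0]), (-1, [1,2,1,1,0])], 1, [⟨1, [1], 50, []⟩]⟩,
  ⟨[(1, [1,0,1,2,1]), (7, [1,1,2,1,0]), (-9, [1,1,0,2,0,0]), (8, [1,1,0,2,1]), (-7, [1,1,2,0,0,0]), (2, [1,1,0,0,0,2]), (-2, [1,1,1,0,2])], 2, [⟨4, [0], 14, []⟩, ⟨-4, [], 63, [1,3]⟩, ⟨-4, [1], 44, []⟩, ⟨51, [], 63, [0,1,2]⟩, ⟨47, [], 75, [2,1,0]⟩, ⟨21, [], 75, [1,2,0]⟩, ⟨-1, [0], 32, []⟩, ⟨-1, [], 75, [0,0,2,0]⟩, ⟨-14, [], 75, [2,0,0,0]⟩, ⟨-23, [0], 16, []⟩, ⟨23, [], 54, [0,3]⟩, ⟨23, [1], 41, []⟩, ⟨42, [], 54, [0,0,2]⟩, ⟨20, [], 54, [0,2,0]⟩, ⟨24, [], 54, [2,0,0]⟩, ⟨-68, [], 54, [2,1]⟩, ⟨-93, [], 54, [1,2]⟩, ⟨2, [0], 24, []⟩, ⟨-2, [], 61, [0,1]⟩, ⟨2, [], 49, [1]⟩, ⟨2,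 [], 50, [1]⟩, ⟨-2, [0], 29, []⟩, ⟨31, [], 63, [2,0,1]⟩, ⟨-4, [0], 26, []⟩, ⟨-2, [], 22, [0]⟩, ⟨-2, [0], 31, []⟩, ⟨2, [], 61, [1,0]⟩, ⟨2, [0], 30, []⟩, ⟨-2, [0], 35, []⟩, ⟨2, [0], 25, []⟩, ⟨-2, [2], 9, []⟩, ⟨2, [2], 10, []⟩, ⟨2, [1], 48, []⟩, ⟨4, [2], 8, []⟩, ⟨2, [1], 50, []⟩, ⟨2, [1], 51, []⟩, ⟨-4, [1], 52, []⟩, ⟨-15, [0], 33, []⟩, ⟨-15, [], 74, [2,0,0]⟩, ⟨15, [], 53, [2,0,0]⟩, ⟨-25, [], 10, [2]⟩, ⟨-29, [0], 34, []⟩, ⟨-29, [], 75, [0,2,1]⟩]⟩,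
  ⟨[(1, [1,0,1,2,0,0]), (-5, [1,1,2,0,0,0]), (5, [1,1,2,1,0]), (-7, [1,1,0,2,0,0]), (6, [1,1,0,2,1]), (2, [1,1,0,0,0,2]), (-2, [1,1,1,0,2])], 2, [⟨2, [], 30, [0]⟩, ⟨2, [2], 9, []⟩, ⟨2, [], 62, [1,0]⟩, ⟨-4, [0], 27, []⟩, ⟨-2, [], 23, [0]⟩, ⟨2, [0], 31, []⟩, ⟨-2, [0], 32, []⟩, ⟨22, [], 76, [2,1,0]⟩, ⟨20, [], 55, [2,0,0]⟩, ⟨-48, [], 55, [2,1]⟩, ⟨2, [1], 50, []⟩, ⟨-28, [0], 35, []⟩, ⟨-28, [], 76, [0,2,1]⟩, ⟨-46, [], 76, [0,1,2]⟩, ⟨-10, [], 76, [2,0,1]⟩, ⟨-6, [], 64, [1,2,0]⟩, ⟨16, [], 55, [0,2,0]⟩, ⟨-56, [], 55, [1,2]⟩, ⟨-1, [0], 16, []⟩, ⟨1, [], 57, [0,1]⟩, ⟨1, [], 43, [1]⟩, ⟨2, [0], 25, []⟩, ⟨-2, [], 62, [0,1]⟩, ⟨2, [], 51, [1]⟩, ⟨-2, [0], 30, []⟩, ⟨7, [1], 42, []⟩, ⟨10, [0], 14, []⟩, ⟨-10, [], 64, [0,0,3]⟩,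 ⟨-20, [], 64, [0,0,0,2]⟩, ⟨30, [], 55, [0,0,2]⟩, ⟨2, [0], 26, []⟩, ⟨-2, [], 26, [0]⟩, ⟨-1, [1], 53, []⟩, ⟨1, [1], 49, []⟩, ⟨10, [0], 33, []⟩, ⟨10, [], 76, [0,0,2,0]⟩, ⟨-10, [], 76, [2,0,0,0]⟩, ⟨-4, [], 11, [2]⟩, ⟨-17, [0], 17, []⟩, ⟨17, [], 55, [0,3]⟩]⟩,
  ⟨[(1, [1,0,2,1,0,0]), (2, [1,1,0,2,0,0]), (-1, [1,1,2,1,0]), (-2, [1,1,0,2,1]), (1, [1,1,2,0,0,0]), (-1, [1,0,2,1,1]), (-1, [1,1,0,0,0,2]), (1, [1,1,1,0,2])], 4, [⟨2, [0], 29, []⟩, ⟨2, [], 67, [0,1,0]⟩, ⟨-2, [3], 38, []⟩, ⟨2, [0], 23, []⟩, ⟨-2, [0], 32, []⟩, ⟨-28, [], 77, [2,1,0]⟩, ⟨-16, [], 77, [1,2,0]⟩, ⟨-2, [0], 37, []⟩, ⟨-2, [], 28, [0]⟩, ⟨16, [0], 36, []⟩, ⟨-16, [], 65, [0,2,1]⟩, ⟨32, [], 77, [0,1,2]⟩, ⟨22, [], 77, [2,0,1]⟩, ⟨-16, [], 56, [0,2,0]⟩,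 ⟨-20, [], 56, [2,0,0]⟩, ⟨44, [], 56, [2,1]⟩, ⟨66, [], 56, [1,2]⟩, ⟨4, [2], 8, []⟩, ⟨-2, [], 64, [1,0]⟩, ⟨2, [2], 10, []⟩, ⟨4, [], 33, [0]⟩, ⟨-2, [], 68, [1,0,0]⟩, ⟨2, [], 45, [0,0]⟩, ⟨-4, [], 54, [0,0]⟩, ⟨2, [], 35, [0]⟩, ⟨4, [1], 52, []⟩, ⟨-4, [], 31, [0]⟩, ⟨-2, [], 37, [0]⟩, ⟨-2, [1], 51, []⟩, ⟨-1, [1], 50, []⟩, ⟨1, [1], 54, []⟩, ⟨1, [0], 17, []⟩, ⟨-1, [], 58, [0,1]⟩, ⟨-1, [], 44, [1]⟩, ⟨-2, [0], 27, []⟩, ⟨2, [0], 15, []⟩, ⟨-2, [], 65, [0,0,3]⟩, ⟨-19, [1], 43, []⟩, ⟨-4, [], 65, [0,0,0,2]⟩, ⟨-30, [], 56, [0,0,2]⟩, ⟨2, [0], 31, []⟩, ⟨-2, [0], 26, []⟩, ⟨2, [], 63, [0,1]⟩, ⟨-2, [], 52, [1]⟩, ⟨8, [0], 35, []⟩, ⟨-8, [], 65, [0,2,0,0]⟩, ⟨8, [], 77, [2,0,0,0]⟩, ⟨16, [], 12, [2]⟩, ⟨17, [0], 18, []⟩, ⟨-17,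 [], 56, [0,3]⟩]⟩,
  ⟨[(1, [1,0,2,0,1,0]), (-1, [1,0,2,1,1])], 1, [⟨1, [1], 53, []⟩]⟩]

def steps3 : List Step := [
  ⟨[(1, [1,0,2,0,0,1]), (-1, [1,0,2,1,1]), (-1, [1,2,1,1,0]), (-18, [1,1,2,1,0]), (18, [1,1,2,0,0,0]), (1, [1,2,0,0,0,1]), (23, [1,1,0,2,0,0]), (-23, [1,1,0,2,1]), (-5, [1,1,0,0,0,2]), (5, [1,1,1,0,2])], 1, [⟨-2, [0], 24, []⟩, ⟨2, [], 51, [1]⟩, ⟨3, [0], 33, []⟩, ⟨-62, [], 67, [0,1,2]⟩, ⟨-39, [], 67, [2,0,1]⟩, ⟨-55, [], 79, [2,1,0]⟩, ⟨-25, [], 79, [1,2,0]⟩, ⟨2, [0], 36, []⟩, ⟨2, [], 79, [0,0,2,0]⟩, ⟨18, [], 79, [2,0,0,0]⟩, ⟨28, [0], 20, []⟩, ⟨-28, [], 58, [0,3]⟩, ⟨-28, [1], 45, []⟩, ⟨-1, [], 52, [1]⟩, ⟨1, [0], 26, []⟩, ⟨1, [0], 32, []⟩, ⟨-51, [], 58, [0,0,2]⟩, ⟨-23, [], 58, [0,2,0]⟩, ⟨-28,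 [], 58, [2,0,0]⟩, ⟨82, [], 58, [2,1]⟩, ⟨113, [], 58, [1,2]⟩, ⟨-2, [0], 29, []⟩, ⟨3, [2], 13, []⟩, ⟨-3, [2], 14, []⟩, ⟨-3, [1], 52, []⟩, ⟨-6, [0], 18, []⟩, ⟨6, [], 67, [1,3]⟩, ⟨6, [1], 48, []⟩, ⟨4, [1], 56, []⟩, ⟨-1, [0], 28, []⟩, ⟨1, [], 65, [0,1]⟩, ⟨-1, [], 54, [1]⟩, ⟨20, [0], 37, []⟩, ⟨20, [], 78, [2,0,0]⟩, ⟨-20, [], 57, [2,0,0]⟩, ⟨32, [], 14, [2]⟩, ⟨36, [0], 38, []⟩, ⟨36, [], 79, [0,2,1]⟩]⟩,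
  ⟨[(1, [1,0,0,1,2,0]), (-1, [1,1,1,2,0])], 1, [⟨1, [1], 54, []⟩, ⟨-2, [], 3, []⟩, ⟨2, [], 4, []⟩, ⟨2, [], 7, []⟩, ⟨-1, [], 8, []⟩, ⟨1, [], 9, []⟩, ⟨-2, [], 15, [2]⟩, ⟨-2, [], 10, []⟩]⟩,
  ⟨[(1, [1,0,0,2,0,1]), (-1, [1,2,0,0,0,1]), (25, [1,1,0,2,1]), (-25, [1,1,0,2,0,0]), (-20, [1,1,2,0,0,0]), (19, [1,1,2,1,0]), (1, [1,2,1,1,0]), (5, [1,1,0,0,0,2]), (-5, [1,1,1,0,2])], 1, [⟨1, [1], 54, []⟩, ⟨-1, [], 1, []⟩, ⟨-3, [], 5, []⟩, ⟨3, [], 9, []⟩, ⟨-1, [], 10, []⟩, ⟨3, [], 16, [2]⟩, ⟨4, [], 11, []⟩]⟩,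
  ⟨[(1, [1,0,0,0,1,2]), (-10, [1,1,2,0,0,0]), (-12, [1,1,0,2,0,0]), (12, [1,1,0,2,1]), (2, [1,1,0,0,0,2]), (-3, [1,1,1,0,2]), (10, [1,1,2,1,0])], 1, [⟨1, [1], 54, []⟩, ⟨1, [], 4, []⟩, ⟨2, [], 5, []⟩, ⟨-3, [], 6, []⟩, ⟨-1, [], 9, []⟩, ⟨3, [], 10, []⟩, ⟨-2, [], 11, []⟩, ⟨3, [], 17, [2]⟩, ⟨4, [], 12, []⟩]⟩,
  ⟨[(1, [1,0,0,0,2,1]), (38, [1,1,2,0,0,0]), (48, [1,1,0,2,0,0]), (-49, [1,1,0,2,1]), (-38, [1,1,2,1,0]), (10, [1,1,1,0,2]), (-10, [1,1,0,0,0,2]), (1, [1,2,0,0,0,1]), (-1, [1,2,1,1,0])], 1, [⟨1, [1], 54, []⟩, ⟨1, [], 3, []⟩, ⟨1, [], 5, []⟩, ⟨2, [], 6, []⟩, ⟨3, [], 7, []⟩, ⟨-2, [], 10, []⟩, ⟨-6, [], 11, []⟩, ⟨2, [], 12, []⟩, ⟨-3, [], 18, [2]⟩, ⟨-6, [], 13, []⟩]⟩,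
  ⟨[(1, [1,0,0,0,0,2,0]), (1, [1,0,2,0,0,0,0]), (-13, [1,1,2,0,0,0]), (-17, [1,1,0,2,0,0]), (13, [1,1,2,1,0]), (-4, [1,1,1,0,2]), (17, [1,1,0,2,1]), (4, [1,1,0,0,0,2]), (-1, [1,1,1,2,0]), (-1, [1,0,2,1,1])], 1, [⟨1, [1], 54, []⟩, ⟨1, [], 6, []⟩, ⟨9, [], 7, []⟩, ⟨-5, [], 8, []⟩, ⟨-5, [], 11, []⟩, ⟨1, [], 12, []⟩, ⟨-5, [], 13, []⟩, ⟨5, [], 19, [2]⟩, ⟨4, [], 14, []⟩]⟩,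
  ⟨[(1, [2,1,1,0,1]), (-1, [2,1,1,1,0])], 1, [⟨1, [2], 20, []⟩]⟩,
  ⟨[(1, [2,1,0,1,1]), (-1, [2,1,1,1,0])], 1, [⟨1, [2], 20, []⟩]⟩,
  ⟨[(1, [2,1,0,0,0,1]), (12, [1,1,0,2,1]), (-12, [1,1,0,2,0,0]), (-10, [1,1,2,0,0,0]), (10, [1,1,2,1,0]), (2, [1,1,0,0,0,2]), (-1, [2,1,1,1,0]), (-2, [1,1,1,0,2])], 2, [⟨4, [0], 37, []⟩, ⟨77, [], 75, [0,1,2]⟩, ⟨30, [], 87, [1,2,0]⟩, ⟨1, [0], 44, []⟩, ⟨1, [], 87, [0,0,2,0]⟩, ⟨-20, [], 87, [2,0,0,0]⟩, ⟨64, [], 87, [2,1,0]⟩, ⟨-33, [0], 28, []⟩, ⟨33, [], 66, [0,3]⟩, ⟨33, [1], 53, []⟩, ⟨62, [], 66, [0,0,2]⟩, ⟨31, [], 66, [0,2,0]⟩, ⟨35, [], 66, [2,0,0]⟩, ⟨-96, [], 66, [2,1]⟩, ⟨-139, [], 66, [1,2]⟩, ⟨-3, [2], 21, []⟩, ⟨5, [2], 22, []⟩, ⟨3, [1], 60, []⟩, ⟨2, [0], 32, []⟩, ⟨-2,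 [], 59, [1]⟩, ⟨-4, [0], 41, []⟩, ⟨-2, [0], 38, []⟩, ⟨1, [], 60, [1]⟩, ⟨-1, [0], 34, []⟩, ⟨-1, [0], 40, []⟩, ⟨-1, [], 34, [0]⟩, ⟨-1, [0], 43, []⟩, ⟨1, [], 73, [1,0]⟩, ⟨1, [0], 42, []⟩, ⟨-1, [0], 47, []⟩, ⟨2, [2], 20, []⟩, ⟨1, [1], 62, []⟩, ⟨6, [0], 26, []⟩, ⟨-6, [], 75, [1,3]⟩, ⟨-6, [1], 56, []⟩, ⟨1, [1], 63, []⟩, ⟨2, [0], 36, []⟩, ⟨-2, [], 73, [0,1]⟩, ⟨2, [], 62, [1]⟩, ⟨46, [], 75, [2,0,1]⟩, ⟨-4, [1], 64, []⟩, ⟨-19, [0], 45, []⟩, ⟨-19, [], 86, [2,0,0]⟩, ⟨19, [], 65, [2,0,0]⟩, ⟨-38, [], 22, [2]⟩, ⟨-44, [0], 46, []⟩, ⟨-44, [], 87, [0,2,1]⟩]⟩,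
  ⟨[(1, [2,0,0,0,1,1]), (3, [1,1,0,2,0,0]), (-1, [1,1,2,1,0]), (-3, [1,1,0,2,1]), (-1, [2,1,1,1,0]), (-1, [1,1,0,0,0,2]), (1, [1,1,1,0,2]), (1, [1,1,2,0,0,0])], 1, [⟨1, [2], 20, []⟩, ⟨1, [], 44, [0]⟩, ⟨-1, [], 11, []⟩, ⟨1, [], 15, []⟩]⟩,
  ⟨[(1, [2,0,0,0,0,1,0]), (3, [1,1,0,2,0,0]), (-1, [1,1,2,1,0]), (-3, [1,1,0,2,1]), (-1, [2,1,1,1,0]), (-1, [1,1,0,0,0,2]), (1, [1,1,1,0,2]), (1, [1,1,2,0,0,0])], 1, [⟨1, [2], 20, []⟩, ⟨1, [], 45, [0]⟩, ⟨-1, [], 12, []⟩, ⟨1, [], 16, []⟩]⟩,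
  ⟨[(1, [0,1,2,1,1]), (-1, [1,0,2,1,1])], 1, [⟨1, [1], 65, []⟩, ⟨-2, [], 78, [2,1,0]⟩, ⟨1, [0], 45, []⟩, ⟨-1, [0], 46, []⟩, ⟨-1, [], 39, [0]⟩, ⟨-2, [0], 41, []⟩, ⟨2, [], 35, [0]⟩, ⟨-2, [], 44, [0]⟩, ⟨2, [2], 23, []⟩, ⟨1, [1], 66, []⟩, ⟨1, [], 41, [0]⟩, ⟨1, [], 90, [1,2,0]⟩, ⟨1, [], 69, [0,2,0]⟩]⟩,
  ⟨[(1, [0,1,2,0,0,1]), (-2, [1,1,0,2,1]), (1, [1,1,2,0,0,0]), (-1, [1,1,2,1,0]), (2, [1,1,0,2,0,0]), (-1, [1,0,2,1,1]), (-1, [1,1,0,0,0,2]), (1, [1,1,1,0,2])], 1, [⟨1, [0], 49, []⟩, ⟨1, [], 91, [0,2,0,0]⟩, ⟨1, [], 91, [0,1,2]⟩, ⟨1, [], 91, [2,0,0,0]⟩, ⟨-1, [], 70, [0,0,2]⟩, ⟨2, [], 41, [0]⟩, ⟨-2, [0], 51, []⟩, ⟨-1, [0], 42, []⟩, ⟨1, [], 36, [0]⟩, ⟨3, [], 70, [2,1]⟩, ⟨1, [1], 66, []⟩, ⟨-1, [], 42, [0]⟩, ⟨2,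 [2], 24, []⟩, ⟨-2, [], 45, [0]⟩, ⟨1, [1], 67, []⟩, ⟨1, [0], 32, []⟩, ⟨-1, [], 70, [0,3]⟩, ⟨1, [0], 50, []⟩, ⟨-1, [], 79, [0,2,1]⟩, ⟨-1, [], 70, [2,0,0]⟩, ⟨-1, [], 26, [2]⟩, ⟨-1, [0], 29, []⟩, ⟨-1, [], 91, [0,0,3]⟩, ⟨2, [], 79, [0,0,0,2]⟩]⟩,
  ⟨[(1, [0,1,2,0,0,0,0]), (-1, [2,1,0,0,0,0,0]), (4, [1,1,0,2,0,0]), (-5, [1,1,2,1,0]), (-1, [1,0,2,1,1]), (-1, [1,1,0,0,0,2]), (-4, [1,1,0,2,1]), (1, [1,1,1,0,2]), (1, [2,1,1,1,0]), (5, [1,1,2,0,0,0])], 8, [⟨4, [0], 40, []⟩, ⟨-4, [], 78, [0,0,0]⟩, ⟨-4, [], 66, [0,0]⟩, ⟨6, [0], 43, []⟩, ⟨4, [], 67, [0,0]⟩, ⟨12, [], 39, [0]⟩, ⟨8, [], 40, [0]⟩, ⟨24, [0], 48, []⟩, ⟨22, [], 92, [2,0,0,0]⟩, ⟨10, [], 92, [2,0,1]⟩, ⟨2, [], 80, [1,2,0]⟩, ⟨-8, [1], 58, []⟩, ⟨-31, [0], 30,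 []⟩, ⟨31, [], 80, [0,0,3]⟩, ⟨62, [], 80, [0,0,0,2]⟩, ⟨-46, [], 92, [2,1,0]⟩, ⟨68, [0], 51, []⟩, ⟨68, [], 92, [0,2,1]⟩, ⟨-28, [], 71, [0,2,0]⟩, ⟨-46, [], 71, [2,0,0]⟩, ⟨-2, [2], 25, []⟩, ⟨-4, [], 47, [0]⟩, ⟨20, [], 48, [0]⟩, ⟨4, [1], 59, []⟩, ⟨-4, [], 61, [0,0]⟩, ⟨122, [], 71, [1,2]⟩, ⟨-6, [], 78, [1,0]⟩, ⟨-6, [0], 47, []⟩, ⟨114, [], 71, [2,1]⟩, ⟨-4, [1], 66, []⟩, ⟨8, [1], 67, []⟩, ⟨2, [], 43, [0]⟩, ⟨114, [], 92, [0,1,2]⟩, ⟨2, [], 46, [0]⟩, ⟨2, [0], 32, []⟩, ⟨-2, [], 73, [0,1]⟩, ⟨-2, [], 59, [1]⟩, ⟨-4, [0], 41, []⟩, ⟨4, [], 78, [0,1]⟩, ⟨-4, [], 67, [1]⟩, ⟨4, [0], 46, []⟩, ⟨-70, [], 71, [0,0,2]⟩, ⟨-4, [0], 42, []⟩, ⟨6, [0], 52, []⟩, ⟨8, [1], 68, []⟩, ⟨-4, [], 52, [0]⟩, ⟨2, [1], 69, []⟩, ⟨-6, [], 51, [0]⟩,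 ⟨6, [], 77, [1,0]⟩, ⟨-6, [0], 38, []⟩, ⟨-6, [0], 44, []⟩, ⟨6, [], 45, [0]⟩, ⟨-2, [1], 65, []⟩, ⟨-26, [0], 49, []⟩, ⟨-26, [], 92, [0,0,2,0]⟩, ⟨-2, [], 27, [2]⟩, ⟨39, [0], 33, []⟩, ⟨-39, [], 71, [0,3]⟩]⟩,
  ⟨[(1, [0,2,1,1,0,0]), (-1, [0,2,1,1,1]), (-1, [1,1,2,1,0]), (1, [1,1,2,0,0,0])], 1, [⟨1, [0], 49, []⟩, ⟨-1, [], 81, [1,2,0]⟩, ⟨1, [], 44, [0]⟩, ⟨-1, [], 2, []⟩, ⟨1, [], 72, [0,2,0]⟩, ⟨2, [], 72, [2,0,0]⟩, ⟨-2, [], 72, [2,1]⟩, ⟨1, [], 15, []⟩, ⟨1, [], 16, []⟩, ⟨-1, [], 20, []⟩, ⟨1, [], 22, []⟩]⟩,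
  ⟨[(1, [0,2,1,0,0,1]), (-1, [0,2,1,1,1])], 1, [⟨1, [0], 48, []⟩, ⟨-1, [], 82, [1,2,0]⟩, ⟨2, [], 45, [0]⟩, ⟨-2, [], 3, []⟩, ⟨1, [], 73, [0,2,0]⟩, ⟨1, [], 73, [2,0,0]⟩, ⟨-1, [], 73, [2,1]⟩, ⟨2, [], 16, []⟩, ⟨2, [], 17, []⟩, ⟨-2, [], 21, []⟩, ⟨1, [], 23, []⟩]⟩,
  ⟨[(1, [0,2,0,0,1,1]), (-1, [0,2,1,1,1]), (-1, [1,1,2,1,0]), (1, [1,1,2,0,0,0])], 1, [⟨1, [0], 48, []⟩, ⟨-1, [], 83, [1,2,0]⟩, ⟨1, [], 46, [0]⟩, ⟨-1, [], 4, []⟩, ⟨1, [], 74, [0,2,0]⟩, ⟨2, [], 74, [2,0,0]⟩, ⟨-2, [], 74, [2,1]⟩, ⟨1, [], 17, []⟩, ⟨1, [], 18, []⟩, ⟨-1, [], 22, []⟩, ⟨1, [], 24, []⟩]⟩,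
  ⟨[(1, [0,2,0,0,0,1,0]), (-1, [0,2,1,1,1]), (-1, [1,1,2,1,0]), (1, [1,1,2,0,0,0])], 1, [⟨1, [0], 48, []⟩, ⟨-1, [], 84, [1,2,0]⟩, ⟨1, [], 47, [0]⟩, ⟨-1, [], 5, []⟩, ⟨1, [], 75, [0,2,0]⟩, ⟨2, [], 75, [2,0,0]⟩, ⟨-2, [], 75, [2,1]⟩, ⟨1, [], 18, []⟩, ⟨1, [], 19, []⟩, ⟨-1, [], 23, []⟩, ⟨1, [], 25, []⟩]⟩,
  ⟨[(1, [0,0,0,0,0,1,2]), (-1, [2,1,0,0,0,0,0]), (-1, [1,1,2,0,0,0]), (-3, [1,1,0,2,0,0]), (1, [1,1,2,1,0]), (1, [2,1,1,1,0]), (-1, [1,1,1,0,2]), (3, [1,1,0,2,1])], 1, [⟨1, [0], 41, []⟩, ⟨-2, [], 71, [0,0]⟩, ⟨2, [], 45, [0]⟩, ⟨2, [], 3, []⟩, ⟨1, [], 85, [0,1,2]⟩, ⟨1, [], 85, [2,0,0,0]⟩, ⟨-1, [], 85, [2,0,1]⟩, ⟨2, [], 85, [2,1,0]⟩, ⟨6, [], 85, [1,2,0]⟩, ⟨-1, [], 4, []⟩, ⟨-1, [], 5, []⟩, ⟨-12, [], 48, [0]⟩,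 ⟨8, [], 6, []⟩, ⟨-6, [], 76, [0,2,0]⟩, ⟨-9, [], 76, [2,0,0]⟩, ⟨9, [], 76, [2,1]⟩, ⟨2, [], 52, [0]⟩, ⟨2, [], 53, [0]⟩, ⟨-2, [], 55, [0]⟩, ⟨-2, [], 16, []⟩, ⟨-6, [], 19, []⟩, ⟨-6, [], 20, []⟩, ⟨4, [], 57, [0]⟩, ⟨4, [], 24, []⟩, ⟨-6, [], 26, []⟩, ⟨1, [], 32, [2]⟩, ⟨-1, [], 27, []⟩]⟩,
  ⟨[(1, [0,0,0,0,0,2,1]), (-1, [0,2,0,0,0,0,1]), (-1, [1,2,0,0,0,0,0]), (-1, [1,0,2,0,0,0,0]), (13, [1,1,2,0,0,0]), (17, [1,1,0,2,0,0]), (-13, [1,1,2,1,0]), (4, [1,1,1,0,2]), (-18, [1,1,0,2,1]), (-4, [1,1,0,0,0,2]), (1, [1,0,2,1,1]), (1, [0,2,1,1,1]), (1, [1,2,1,1,0])], 1, [⟨1, [0], 41, []⟩, ⟨-1, [], 83, [0,1]⟩, ⟨1, [], 84, [1,0]⟩, ⟨2, [], 72, [0,0]⟩, ⟨1, [], 72, [1]⟩, ⟨-2, [], 43, [0]⟩, ⟨-1, [], 73, [1]⟩, ⟨-1, [], 45, [0]⟩,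 ⟨-1, [], 46, [0]⟩, ⟨1, [], 47, [0]⟩, ⟨-1, [], 4, []⟩, ⟨-12, [], 86, [0,1,2]⟩, ⟨12, [], 86, [2,0,1]⟩, ⟨-14, [], 86, [2,1,0]⟩, ⟨-38, [], 86, [1,2,0]⟩, ⟨-1, [], 5, []⟩, ⟨10, [], 6, []⟩, ⟨-1, [], 48, [0]⟩, ⟨67, [], 49, [0]⟩, ⟨-73, [], 7, []⟩, ⟨-4, [], 77, [0,0,2]⟩, ⟨38, [], 77, [0,2,0]⟩, ⟨46, [], 77, [2,0,0]⟩, ⟨-45, [], 77, [2,1]⟩, ⟨16, [], 77, [1,2]⟩, ⟨-1, [], 74, [1]⟩, ⟨2, [], 52, [0]⟩, ⟨-2, [], 53, [0]⟩, ⟨-1, [], 11, []⟩, ⟨-2, [], 54, [0]⟩, ⟨1, [], 12, []⟩, ⟨2, [], 56, [0]⟩, ⟨2, [], 16, []⟩, ⟨1, [], 17, []⟩, ⟨2, [], 18, []⟩, ⟨63, [], 20, []⟩, ⟨66, [], 21, []⟩, ⟨-2, [], 22, []⟩, ⟨-4, [], 58, [0]⟩, ⟨-2, [], 24, []⟩, ⟨-66, [], 25, []⟩, ⟨1, [], 26, []⟩, ⟨38, [], 27, []⟩, ⟨4, [], 33, [2]⟩, ⟨10, [], 28, []⟩]⟩,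
  ⟨[(1, [0,0,0,0,0,0,2,0]), (-6, [2,1,0,0,0,0,0]), (4, [1,2,0,0,0,0,0]), (4, [1,0,2,0,0,0,0]), (95, [1,1,2,0,0,0]), (115, [1,1,0,2,0,0]), (-95, [1,1,2,1,0]), (6, [2,1,1,1,0]), (-115, [1,1,0,2,1]), (-4, [1,0,2,1,1]), (-4, [1,2,1,1,0]), (-26, [1,1,0,0,0,2]), (26, [1,1,1,0,2]), (-1, [1,1,1,2,0]), (1, [0,2,0,0,0,0,0,0]), (-1, [0,2,1,1,1])], 1, [⟨1, [0], 41, []⟩, ⟨1, [], 84, [0,0,0]⟩, ⟨-1, [], 85, [1,0]⟩, ⟨-9, [], 73, [0,0]⟩, ⟨2, [], 44, [0]⟩, ⟨1, [], 74, [0,0]⟩, ⟨1, [], 46, [0]⟩, ⟨4, [], 47, [0]⟩, ⟨-1, [], 48, [0]⟩, ⟨5, [], 5, []⟩, ⟨-11, [], 87, [0,1,2]⟩, ⟨4, [], 87, [2,0,0,0]⟩, ⟨11, [], 87, [2,0,1]⟩, ⟨-7, [], 87, [2,1,0]⟩, ⟨-15, [], 87, [1,2,0]⟩, ⟨10, [], 6, []⟩, ⟨11, [], 7, []⟩, ⟨1, [], 49, [0]⟩, ⟨19,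 [], 50, [0]⟩, ⟨-52, [], 8, []⟩, ⟨-9, [], 78, [0,0,2]⟩, ⟨16, [], 78, [0,2,0]⟩, ⟨12, [], 78, [2,0,0]⟩, ⟨-12, [], 78, [2,1]⟩, ⟨20, [], 78, [1,2]⟩, ⟨1, [], 75, [0,0]⟩, ⟨-2, [], 53, [0]⟩, ⟨9, [], 54, [0]⟩, ⟨7, [], 55, [0]⟩, ⟨-10, [], 57, [0]⟩, ⟨1, [], 18, []⟩, ⟨-5, [], 20, []⟩, ⟨40, [], 21, []⟩, ⟨35, [], 22, []⟩, ⟨-5, [], 24, []⟩, ⟨18, [], 59, [0]⟩, ⟨-44, [], 26, []⟩, ⟨21, [], 28, []⟩, ⟨9, [], 34, [2]⟩, ⟨11, [], 29, []⟩]⟩,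
  ⟨[(1, [1,1,1,3]), (-2, [1,1,2,0,0,0]), (2, [1,1,2,1,0]), (-2, [1,1,0,2,0,0]), (2, [1,1,0,2,1])], 1, [⟨1, [1], 69, []⟩, ⟨-2, [], 24, []⟩, ⟨2, [], 28, []⟩, ⟨-1, [], 29, []⟩, ⟨3, [], 35, [2]⟩, ⟨3, [], 30, []⟩]⟩,
  ⟨[(1, [1,1,0,0,3]), (2, [1,1,0,2,1]), (-2, [1,1,0,2,0,0]), (2, [1,1,2,1,0]), (-2, [1,1,2,0,0,0]), (2, [1,1,0,0,0,2]), (-2, [1,1,1,0,2])], 1, [⟨1, [1], 67, []⟩, ⟨-1, [], 30, []⟩, ⟨1, [], 36, [2]⟩, ⟨-1, [], 31, []⟩]⟩,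
  ⟨[(1, [1,0,0,1,3]), (26, [1,1,2,0,0,0]), (34, [1,1,0,2,0,0]), (-26, [1,1,2,1,0]), (-34, [1,1,0,2,1]), (-8, [1,1,0,0,0,2]), (8, [1,1,1,0,2])], 1, [⟨1, [1], 67, []⟩, ⟨2, [], 24, []⟩, ⟨2, [], 25, []⟩, ⟨-2, [], 26, []⟩, ⟨-2, [], 29, []⟩, ⟨-2, [], 30, []⟩, ⟨1, [], 31, []⟩, ⟨1, [], 37, [2]⟩, ⟨-1, [], 32, []⟩]⟩]

def steps4 : List Step := [
  ⟨[(1, [1,0,0,0,0,3]), (2, [1,0,0,0,0,0,2]), (50, [1,1,2,0,0,0]), (64, [1,1,0,2,0,0]), (-64, [1,1,0,2,1]), (-50, [1,1,2,1,0]), (12, [1,1,1,0,2]), (-14, [1,1,0,0,0,2]), (2, [1,2,0,0,0,1]), (-2, [1,2,1,1,0])], 1, [⟨1, [1], 67, []⟩, ⟨2, [], 23, []⟩, ⟨1, [], 25, []⟩, ⟨-1, [], 26, []⟩, ⟨4, [], 27, []⟩, ⟨1, [], 30, []⟩, ⟨-5, [], 31, []⟩, ⟨2, [], 32, []⟩, ⟨-4, [], 38, [2]⟩,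 ⟨-6, [], 33, []⟩]⟩,
  ⟨[(1, [0,0,0,0,1,3]), (-12, [1,1,2,0,0,0]), (-16, [1,1,0,2,0,0]), (12, [1,1,2,1,0]), (4, [1,1,0,0,0,2]), (-4, [1,1,1,0,2]), (16, [1,1,0,2,1]), (-2, [1,2,0,0,0,0,0]), (-2, [1,0,2,0,0,0,0]), (2, [1,2,1,1,0]), (2, [1,0,2,1,1])], 1, [⟨1, [0], 41, []⟩, ⟨2, [], 78, [0,0]⟩, ⟨-11, [], 92, [0,1,2]⟩, ⟨7, [], 92, [2,0,1]⟩, ⟨-9, [], 92, [2,1,0]⟩, ⟨-25, [], 92, [1,2,0]⟩, ⟨-4, [], 11, []⟩, ⟨7, [], 12, []⟩, ⟨45, [], 55, [0]⟩, ⟨-48, [], 13, []⟩, ⟨-3, [], 83, [0,0,2]⟩, ⟨25, [], 83, [0,2,0]⟩, ⟨30, [], 83, [2,0,0]⟩, ⟨-30, [], 83, [2,1]⟩, ⟨14, [], 83, [1,2]⟩, ⟨-2, [], 59, [0]⟩, ⟨-2, [], 60, [0]⟩, ⟨2, [], 62, [0]⟩, ⟨-2, [], 23, []⟩, ⟨2, [], 25, []⟩, ⟨41, [], 26, []⟩, ⟨43, [], 27, []⟩, ⟨2, [], 29, []⟩,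 ⟨-4, [], 64, [0]⟩, ⟨-41, [], 31, []⟩, ⟨23, [], 33, []⟩, ⟨3, [], 39, [2]⟩, ⟨7, [], 34, []⟩]⟩,
  ⟨[(1, [0,0,0,0,0,0,3]), (2, [0,0,0,0,0,0,0,2]), (2, [1,1,0,2,0,0]), (-2, [1,1,0,0,0,2]), (-2, [1,1,0,2,1]), (-2, [0,2,0,0,0,0,1]), (-2, [1,2,0,0,0,0,0]), (-2, [1,0,2,0,0,0,0]), (2, [1,0,2,1,1]), (2, [0,2,1,1,1]), (2, [1,2,1,1,0])], 1, [⟨1, [0], 41, []⟩, ⟨-2, [], 90, [0,1]⟩, ⟨2, [], 91, [1,0]⟩, ⟨2, [], 79, [1]⟩, ⟨-4, [], 50, [0]⟩, ⟨-2, [], 80, [1]⟩, ⟨-2, [], 52, [0]⟩, ⟨2, [], 53, [0]⟩, ⟨2, [], 54, [0]⟩, ⟨2, [], 11, []⟩, ⟨-10, [], 93, [0,1,2]⟩, ⟨11, [], 93, [2,0,1]⟩, ⟨-11, [], 93, [2,1,0]⟩, ⟨-32, [], 93, [1,2,0]⟩, ⟨-6, [], 12, []⟩, ⟨7, [], 13, []⟩, ⟨-2, [], 55, [0]⟩, ⟨51, [], 56, [0]⟩, ⟨-58, [], 14, []⟩, ⟨-1,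 [], 84, [0,0,2]⟩, ⟨32, [], 84, [0,2,0]⟩, ⟨33, [], 84, [2,0,0]⟩, ⟨-33, [], 84, [2,1]⟩, ⟨13, [], 84, [1,2]⟩, ⟨-2, [], 81, [1]⟩, ⟨4, [], 59, [0]⟩, ⟨-2, [], 18, []⟩, ⟨2, [], 19, []⟩, ⟨4, [], 23, []⟩, ⟨-2, [], 24, []⟩, ⟨4, [], 25, []⟩, ⟨55, [], 27, []⟩, ⟨61, [], 28, []⟩, ⟨-4, [], 29, []⟩, ⟨-4, [], 31, []⟩, ⟨-65, [], 32, []⟩, ⟨2, [], 33, []⟩, ⟨32, [], 34, []⟩, ⟨3, [], 40, [2]⟩, ⟨7, [], 35, []⟩]⟩,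
  ⟨[(1, [1,1,1,0,0]), (-1, [1,1,1,1])], 1, [⟨-1, [], 41, [0]⟩, ⟨1, [1], 69, []⟩]⟩,
  ⟨[(1, [1,1,0,0,1]), (-1, [1,1,1,1])], 1, [⟨1, [0], 42, []⟩, ⟨-1, [], 86, [0,1]⟩, ⟨1, [], 86, [1,0]⟩, ⟨1, [1], 70, []⟩]⟩,
  ⟨[(1, [1,0,0,1,1]), (-1, [1,1,1,1])], 1, [⟨1, [1], 70, []⟩, ⟨1, [], 1, []⟩]⟩,
  ⟨[(1, [1,0,0,0,1,0]), (-1, [1,1,1,1])], 1, [⟨1, [1], 70, []⟩, ⟨1, [], 2, []⟩]⟩,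
  ⟨[(1, [0,0,0,0,1,1]), (-1, [1,1,0,0,0,0])], 1, [⟨1, [0], 42, []⟩, ⟨1, [], 89, [0,0,0]⟩]⟩,
  ⟨[(1, [0,0,0,0,0,1,0]), (-1, [1,1,0,0,0,0])], 1, [⟨1, [0], 42, []⟩, ⟨1, [], 90, [0,0,0]⟩]⟩,
  ⟨[(1, [1,1,1,2,0,0]), (-1, [1,1,1,2,1])], 2, [⟨-1, [1], 51, []⟩, ⟨1, [1], 53, []⟩, ⟨1, [], 47, [3]⟩, ⟨2, [], 4, [2]⟩, ⟨2, [], 47, [2,0]⟩, ⟨-4, [1], 72, []⟩, ⟨4, [], 42, [0]⟩, ⟨-2, [], 5, [2]⟩]⟩,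
  ⟨[(1, [1,1,2,1,0,0]), (-1, [1,1,2,1,1])], 1, [⟨-1, [], 43, [0]⟩, ⟨1, [1], 73, []⟩]⟩,
  ⟨[(1, [1,1,2,0,0,1]), (-1, [1,1,2,1,1])], 6, [⟨-6, [], 114, [2,1,1]⟩, ⟨4, [0], 30, []⟩, ⟨-4, [], 102, [0,0,2,1]⟩, ⟨6, [0], 34, []⟩, ⟨6, [], 114, [2,0,0,1]⟩, ⟨-10, [], 93, [0,0,0,2]⟩, ⟨4, [], 93, [0,2,1]⟩, ⟨-5, [0], 10, []⟩, ⟨-5, [], 114, [0,0,0,3]⟩, ⟨5, [0], 12, []⟩, ⟨-5, [], 93, [0,0,3]⟩, ⟨-10, [], 114, [0,0,0,0,2]⟩]⟩,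
  ⟨[(1, [1,1,0,2,0,1]), (-1, [1,1,0,2,1,0])], 1, [⟨1, [0], 45, []⟩, ⟨-1, [], 94, [2,0,1]⟩, ⟨1, [], 94, [2,1,0]⟩]⟩,
  ⟨[(1, [1,1,0,2,0,0,0]), (-1, [1,1,2,1,1]), (-1, [1,1,0,2,1,0]), (1, [1,1,2,0,0,0,0])], 8, [⟨2, [0], 41, []⟩, ⟨-2, [], 24, [0]⟩, ⟨2, [], 25, [0]⟩, ⟨8, [1], 76, []⟩, ⟨-8, [], 46, [0]⟩, ⟨-1, [], 28, [0]⟩, ⟨1, [2], 6, []⟩, ⟨-1, [2], 9, []⟩]⟩,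
  ⟨[(1, [1,1,0,0,2,1]), (-1, [1,1,1,2,1])], 1, [⟨1, [1], 76, []⟩, ⟨-2, [], 9, [2]⟩, ⟨-1, [], 1, []⟩, ⟨-1, [], 52, [2,0]⟩, ⟨2, [], 3, []⟩, ⟨1, [], 4, []⟩]⟩,
  ⟨[(1, [1,1,0,0,0,2,0]), (-1, [1,1,1,0,2,0]), (1, [1,1,2,0,0,0,0]), (-1, [1,1,2,1,1])], 1, [⟨1, [1], 75, []⟩, ⟨1, [], 10, [2]⟩, ⟨1, [], 1, []⟩, ⟨-2, [], 2, []⟩, ⟨-1, [], 53, [2,0]⟩, ⟨-2, [], 3, []⟩, ⟨-1, [], 4, []⟩, ⟨2, [], 11, [2]⟩]⟩,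
  ⟨[(1, [1,1,0,0,0,0,2]), (-1, [1,1,2,0,0,0,0]), (-1, [1,1,1,1,2]), (1, [1,1,2,1,1])], 8, [⟨-8, [], 98, [0,0,0,2]⟩, ⟨-18, [0], 41, []⟩, ⟨-18, [], 119, [2,1,0,0]⟩, ⟨18, [], 119, [2,1,1]⟩, ⟨-12, [], 98, [2,0,0,0]⟩, ⟨7, [], 98, [1,0,2]⟩, ⟨-4, [], 98, [0,2,0,0]⟩, ⟨-4, [], 48, [0]⟩, ⟨12, [], 98, [2,1,0]⟩, ⟨7, [], 54, [0,2]⟩, ⟨-10, [], 49, [0]⟩, ⟨10, [1], 79, []⟩, ⟨7, [], 12, [2]⟩, ⟨-4, [0], 42, []⟩, ⟨4, [], 107, [1,2,0,0]⟩, ⟨-1, [0], 36, []⟩, ⟨1, [], 107, [0,0,1,2]⟩, ⟨1, [], 11, [2]⟩]⟩,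
  ⟨[(1, [1,2,1,1,0,0]), (-1, [1,2,1,1,1])], 1, [⟨1, [1], 76, []⟩, ⟨-1, [], 55, [2,0]⟩, ⟨1, [], 6, []⟩, ⟨2, [], 7, []⟩]⟩,
  ⟨[(1, [1,2,1,0,0,1]), (-1, [1,2,1,1,1])], 1, [⟨1, [1], 75, []⟩, ⟨-1, [], 56, [2,0]⟩, ⟨2, [], 7, []⟩, ⟨1, [], 8, []⟩]⟩,
  ⟨[(1, [1,2,0,0,1,1]), (-1, [1,2,1,1,1])], 1, [⟨1, [1], 75, []⟩, ⟨-1, [], 57, [2,0]⟩, ⟨1, [], 8, []⟩, ⟨2, [], 9, []⟩]⟩,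
  ⟨[(1, [1,2,0,0,0,1,0]), (-1, [1,2,1,1,1])], 1, [⟨1, [1], 75, []⟩, ⟨-1, [], 58, [2,0]⟩, ⟨1, [], 9, []⟩, ⟨2, [], 10, []⟩]⟩,
  ⟨[(1, [1,0,1,2,0,1]), (-1, [1,1,0,2,1,0])], 1, [⟨1, [1], 74, []⟩, ⟨-1, [], 16, [2]⟩, ⟨1, [], 8, []⟩, ⟨-2, [], 59, [2,0]⟩, ⟨1, [], 9, []⟩, ⟨4, [], 10, []⟩, ⟨2, [], 11, []⟩]⟩,
  ⟨[(1, [1,0,2,1,0,1]), (-1, [1,0,2,1,1,0])], 1, [⟨1, [1], 74, []⟩, ⟨4, [], 17, [2]⟩, ⟨-3, [], 9, []⟩, ⟨9, [], 60, [2,0]⟩, ⟨-3, [], 10, []⟩, ⟨-15, [], 11, []⟩, ⟨1, [], 18, [2]⟩, ⟨-9, [], 12, []⟩]⟩,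
  ⟨[(1, [1,0,2,0,1,1]), (-1, [1,0,2,1,1,0])], 1, [⟨1, [1], 73, []⟩]⟩]

def steps5 : List Step := [
  ⟨[(1, [1,0,2,0,0,0,1]), (-1, [1,0,2,1,1,0]), (1, [1,2,0,0,0,0,1]), (-1, [1,2,1,1,1])], 48, [⟨-240, [0], 39, []⟩, ⟨144, [], 113, [1,1]⟩, ⟨-632, [0], 36, []⟩, ⟨-144, [], 113, [0,0,1]⟩, ⟨144, [0], 32, []⟩, ⟨144, [], 102, [0,1]⟩, ⟨-144, [], 74, [1]⟩, ⟨376, [0], 40, []⟩, ⟨-1278, [], 127, [2,1,1]⟩, ⟨-144, [0], 43, []⟩, ⟨-144, [], 127, [0,0,2,1]⟩, ⟨288, [0], 53, []⟩, ⟨144, [], 36, [0]⟩, ⟨1622, [0], 49, []⟩, ⟨1622, [], 127, [2,1,0,0]⟩, ⟨184, [], 106, [0,2,1]⟩, ⟨96, [], 75, [1]⟩, ⟨-136, [0], 41, []⟩, ⟨288, [2], 18, []⟩, ⟨288, [0], 35, []⟩, ⟨288, [2], 19, []⟩, ⟨-432, [], 77, [1]⟩, ⟨160, [1], 74, []⟩, ⟨-232, [],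 76, [1]⟩, ⟨-256, [1], 76, []⟩, ⟨160, [1], 80, []⟩, ⟨-160, [1], 81, []⟩, ⟨147, [0], 44, []⟩, ⟨-147, [], 115, [0,0,1,2]⟩, ⟨147, [], 106, [1,0,2]⟩, ⟨-1171, [], 19, [2]⟩, ⟨-2136, [0], 51, []⟩, ⟨-2136, [], 127, [1,2,1]⟩, ⟨768, [], 106, [2,1,0]⟩, ⟨-768, [], 106, [2,0,1]⟩, ⟨768, [0], 57, []⟩, ⟨147, [], 62, [0,2]⟩, ⟨-2304, [], 62, [2,0]⟩, ⟨344, [], 72, [1]⟩, ⟨-2058, [], 57, [0]⟩, ⟨2058, [1], 87, []⟩, ⟨-109, [], 20, [2]⟩, ⟨2464, [0], 50, []⟩, ⟨-2464, [], 115, [1,2,0,0]⟩]⟩,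
  ⟨[(1, [1,0,0,1,2,1]), (-1, [1,1,1,2,1])], 1, [⟨1, [1], 73, []⟩, ⟨2, [], 20, [2]⟩, ⟨-1, [], 12, []⟩, ⟨3, [], 63, [2,0]⟩, ⟨-1, [], 13, []⟩, ⟨-5, [], 14, []⟩, ⟨-3, [], 15, []⟩]⟩,
  ⟨[(1, [1,0,0,0,0,1,2]), (-1, [1,1,1,1,2])], 1, [⟨1, [1], 73, []⟩, ⟨-2, [], 52, [0]⟩, ⟨2, [], 56, [0]⟩, ⟨2, [], 8, []⟩, ⟨2, [], 10, []⟩, ⟨1, [], 21, [2]⟩, ⟨-7, [], 12, []⟩, ⟨-1, [], 13, []⟩, ⟨6, [], 64, [2,0]⟩, ⟨-1, [], 14, []⟩, ⟨-2, [], 15, []⟩, ⟨-9, [], 16, []⟩]⟩,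
  ⟨[(1, [1,0,0,0,0,2,1]), (-1, [1,1,1,2,1]), (-1, [1,2,0,0,0,0,1]), (1, [1,2,1,1,1])], 1, [⟨1, [1], 73, []⟩, ⟨-1, [], 2, []⟩, ⟨2, [], 53, [0]⟩, ⟨-1, [], 57, [0]⟩, ⟨-1, [], 9, []⟩, ⟨-3, [], 11, []⟩, ⟨-12, [], 22, [2]⟩, ⟨11, [], 13, []⟩, ⟨12, [], 14, []⟩, ⟨-38, [], 65, [2,0]⟩, ⟨12, [], 15, []⟩, ⟨55, [], 16, []⟩, ⟨-4, [], 23, [2]⟩, ⟨46, [], 17, []⟩]⟩,
  ⟨[(1, [1,0,0,0,0,0,2,0]), (-1, [1,0,2,0,0,0,0,0]), (1, [1,0,2,1,1,0]), (-1, [1,1,1,0,2,0])], 1, [⟨1, [1], 73, []⟩, ⟨-8, [], 54, [0]⟩, ⟨4, [], 58, [0]⟩, ⟨4, [], 10, []⟩, ⟨12, [], 12, []⟩, ⟨-11, [], 23, [2]⟩, ⟨-40, [], 14, []⟩, ⟨11, [], 15, []⟩, ⟨-15, [], 66, [2,0]⟩, ⟨11, [], 16, []⟩, ⟨69, [], 17, []⟩, ⟨-9, [], 24, [2]⟩, ⟨12, [], 18, []⟩]⟩,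
  ⟨[(1, [2,1,1,1,0,0]), (-1, [2,1,1,1,1])], 1, [⟨1, [2], 25, []⟩]⟩,
  ⟨[(1, [2,1,0,0,0,0,1]), (-1, [2,1,1,1,1])], 2, [⟨2, [], 119, [0,0,1]⟩, ⟨-2, [0], 38, []⟩, ⟨-4, [0], 41, []⟩, ⟨2, [0], 42, []⟩, ⟨-2, [], 108, [0,1]⟩, ⟨-2, [], 80, [1]⟩, ⟨4, [0], 45, []⟩, ⟨-4, [0], 51, []⟩, ⟨-4, [], 133, [0,2,0,1]⟩, ⟨-2, [], 112, [0,2,1]⟩, ⟨-12, [2], 24, []⟩, ⟨-2, [], 81, [1]⟩, ⟨-6, [0], 47, []⟩, ⟨4, [], 42, [0]⟩, ⟨2, [], 92, [1]⟩, ⟨-2, [], 118, [1,1]⟩, ⟨2, [0], 37, []⟩, ⟨2, [0], 44, []⟩, ⟨2, [], 133, [2,1,1]⟩, ⟨-2, [], 86, [1]⟩, ⟨-4, [1], 80, []⟩, ⟨-12, [], 89, [1]⟩, ⟨-4, [1], 86, []⟩, ⟨10, [1], 87, []⟩, ⟨-4, [0], 57, []⟩, ⟨-4, [], 133, [1,2,1]⟩, ⟨2, [0], 56, []⟩, ⟨2, [], 133, [1,2,0,0]⟩, ⟨3, [0], 50, []⟩, ⟨3, [],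 133, [0,0,1,2]⟩, ⟨3, [], 112, [1,0,2]⟩, ⟨-3, [], 25, [2]⟩, ⟨4, [0], 63, []⟩, ⟨-4, [], 112, [2,0,1]⟩, ⟨3, [], 68, [0,2]⟩, ⟨-6, [], 68, [2,0]⟩, ⟨8, [], 87, [1]⟩, ⟨8, [2], 25, []⟩, ⟨-16, [], 63, [0]⟩, ⟨16, [1], 93, []⟩, ⟨3, [], 26, [2]⟩, ⟨-1, [0], 30, []⟩, ⟨-1, [], 133, [0,1,3]⟩, ⟨1, [0], 32, []⟩, ⟨-1, [], 112, [1,3]⟩]⟩,
  ⟨[(1, [2,0,0,0,0,1,1]), (-1, [1,1,2,0,0,0,0]), (1, [1,1,2,1,1]), (-1, [2,1,1,1,1])], 1, [⟨1, [2], 23, []⟩, ⟨1, [], 90, [0,0]⟩, ⟨1, [], 1, []⟩, ⟨-1, [], 57, [0]⟩, ⟨1, [], 61, [0]⟩, ⟨1, [], 15, []⟩, ⟨-3, [], 17, []⟩, ⟨1, [], 20, []⟩]⟩,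
  ⟨[(1, [2,0,0,0,0,0,1,0]), (-1, [1,1,2,0,0,0,0]), (1, [1,1,2,1,1]), (-1, [2,1,1,1,1])], 1, [⟨1, [2], 23, []⟩, ⟨1, [], 91, [0,0]⟩, ⟨1, [], 2, []⟩, ⟨-1, [], 58, [0]⟩, ⟨1, [], 62, [0]⟩, ⟨1, [], 16, []⟩, ⟨-3, [], 18, []⟩, ⟨1, [], 21, []⟩]⟩,
  ⟨[(1, [0,1,2,0,0,0,1]), (-1, [1,0,2,1,1,0])], 2, [⟨-12, [0], 54, []⟩, ⟨-12, [], 136, [0,2,0,1]⟩, ⟨2, [], 45, [0]⟩, ⟨-10, [], 115, [0,2,1]⟩, ⟨12, [0], 66, []⟩, ⟨-12, [], 115, [2,0,1]⟩, ⟨-10, [0], 52, []⟩, ⟨10, [], 124, [0,0,2,1]⟩, ⟨-5, [0], 35, []⟩, ⟨5, [], 115, [1,3]⟩, ⟨5, [0], 33, []⟩, ⟨5, [], 136, [0,1,3]⟩]⟩,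
  ⟨[(1, [0,2,1,1,0,1]), (-1, [0,2,1,1,1,0])], 1, [⟨1, [0], 51, []⟩]⟩,
  ⟨[(1, [0,2,0,0,0,1,1]), (-1, [0,2,1,1,1,0]), (1, [1,1,2,0,0,0,0]), (-1, [1,1,2,1,1])], 1, [⟨1, [0], 49, []⟩, ⟨1, [], 117, [0,0,0,2]⟩, ⟨-3, [], 117, [0,2,0,0]⟩, ⟨3, [], 117, [0,2,1]⟩, ⟨-1, [], 117, [2,0,0,0]⟩, ⟨1, [], 117, [2,1,0]⟩, ⟨-1, [], 117, [1,0,2]⟩, ⟨1, [], 18, []⟩, ⟨-3, [], 67, [0]⟩, ⟨3, [], 20, []⟩, ⟨8, [], 21, []⟩, ⟨-1, [], 73, [0,2]⟩, ⟨-6, [], 24, []⟩, ⟨-1, [], 31, [2]⟩, ⟨-3, [], 25, []⟩]⟩,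
  ⟨[(1, [0,2,0,0,0,0,1,0]), (-1, [0,2,1,1,1,0]), (1, [1,1,2,0,0,0,0]), (-1, [1,1,2,1,1])], 1, [⟨1, [0], 49, []⟩, ⟨1, [], 118, [0,0,0,2]⟩, ⟨-3, [], 118, [0,2,0,0]⟩, ⟨3, [], 118, [0,2,1]⟩, ⟨-1, [], 118, [2,0,0,0]⟩, ⟨1, [], 118, [2,1,0]⟩, ⟨-1, [], 118, [1,0,2]⟩, ⟨1, [], 19, []⟩, ⟨-3, [], 68, [0]⟩, ⟨3, [], 21, []⟩, ⟨8, [], 22, []⟩, ⟨-1, [], 74, [0,2]⟩, ⟨-6, [], 25, []⟩, ⟨-1, [], 32, [2]⟩, ⟨-3, [], 26, []⟩]⟩,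
  ⟨[(1, [0,0,0,0,0,0,1,2]), (-1, [1,2,0,0,0,0,0,0]), (-1, [1,0,2,0,0,0,0,0]), (1, [1,0,2,1,1,0]), (1, [1,2,1,1,1]), (-1, [1,1,1,1,2]), (-1, [1,1,2,0,0,0,0]), (1, [1,1,2,1,1])], 1, [⟨1, [0], 42, []⟩, ⟨1, [], 88, [0,0]⟩, ⟨1, [], 46, [0]⟩, ⟨-3, [], 47, [0]⟩, ⟨3, [], 119, [0,2,0,0]⟩, ⟨-3, [], 119, [0,2,1]⟩, ⟨1, [], 119, [2,0,0,0]⟩, ⟨-1, [], 119, [2,1,0]⟩, ⟨1, [], 119, [1,0,2]⟩, ⟨-2, [], 59, [0]⟩, ⟨1, [], 61, [0]⟩, ⟨1, [], 62, [0]⟩, ⟨2, [], 63, [0]⟩, ⟨1, [], 65, [0]⟩, ⟨-2, [], 67, [0]⟩, ⟨-1, [], 19, []⟩, ⟨-4, [], 21, []⟩, ⟨2, [], 69, [0]⟩, ⟨-3, [], 22, []⟩, ⟨11, [], 23, []⟩, ⟨1, [], 75, [0,2]⟩, ⟨-8, [], 26, []⟩, ⟨1, [], 33, [2]⟩, ⟨3, [], 27, []⟩]⟩,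
  ⟨[(1, [0,0,0,0,0,0,2,1]), (1, [0,2,0,0,0,0,0,1]), (-1, [2,1,0,0,0,0,0,0]), (-1, [0,2,1,1,1,0]), (-1, [1,1,1,2,1]), (1, [2,1,1,1,1]), (-1, [1,1,2,1,1]), (1, [1,1,2,0,0,0,0])], 1, [⟨1, [0], 42, []⟩, ⟨1, [], 126, [0,0,1]⟩, ⟨-1, [], 127, [1,1]⟩, ⟨-1, [], 115, [0,1]⟩, ⟨2, [], 86, [1]⟩, ⟨1, [], 116, [0,1]⟩, ⟨1, [], 88, [1]⟩, ⟨-1, [], 90, [1]⟩, ⟨1, [], 3, []⟩, ⟨1, [], 129, [2,0,0,0,0]⟩, ⟨-1, [], 129, [2,1,1]⟩, ⟨1, [], 48, [0]⟩, ⟨2, [], 4, []⟩, ⟨1, [], 91, [1]⟩, ⟨-2, [], 92, [1]⟩, ⟨-1, [], 50, [0]⟩, ⟨4, [], 120, [0,0,0,2]⟩, ⟨-17, [], 120, [0,2,0,0]⟩, ⟨18, [], 120, [0,2,1]⟩, ⟨-13, [], 120, [2,0,0,0]⟩, ⟨13, [], 120, [2,1,0]⟩, ⟨-4, [], 120, [1,0,2]⟩, ⟨1, [], 117, [0,1]⟩, ⟨-2, [], 95, [1]⟩, ⟨1, [], 96, [1]⟩,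 ⟨-1, [], 97, [1]⟩, ⟨-1, [], 8, []⟩, ⟨-2, [], 99, [1]⟩, ⟨1, [], 12, []⟩, ⟨-1, [], 14, []⟩, ⟨-1, [], 15, []⟩, ⟨-2, [], 16, []⟩, ⟨-1, [], 18, []⟩, ⟨2, [], 101, [1]⟩, ⟨1, [], 19, []⟩, ⟨4, [], 21, []⟩, ⟨1, [], 22, []⟩, ⟨-17, [], 70, [0]⟩, ⟨19, [], 23, []⟩, ⟨34, [], 24, []⟩, ⟨2, [], 25, []⟩, ⟨-4, [], 76, [0,2]⟩, ⟨3, [], 26, []⟩, ⟨-29, [], 27, []⟩, ⟨-4, [], 34, [2]⟩, ⟨-17, [], 28, []⟩]⟩,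
  ⟨[(1, [0,0,0,0,0,0,0,2,0]), (-1, [0,2,0,0,0,0,0,0,0]), (-6, [1,2,0,0,0,0,0,0]), (-6, [1,0,2,0,0,0,0,0]), (6, [1,0,2,1,1,0]), (1, [0,2,1,1,1,0]), (6, [1,1,2,1,1]), (-1, [1,1,1,0,2,0]), (-6, [1,1,2,0,0,0,0]), (6, [2,1,0,0,0,0,0,0]), (-6, [2,1,1,1,1]), (6, [1,2,1,1,1])], 1, [⟨1, [0], 42, []⟩, ⟨-1, [], 127, [0,0,0,0]⟩, ⟨1, [], 128, [1,1]⟩, ⟨1, [], 116, [0,0,0]⟩, ⟨-2, [], 87, [1]⟩, ⟨-1, [], 117, [0,0,0]⟩, ⟨-1, [], 89, [1]⟩, ⟨6, [], 90, [0,0]⟩, ⟨1, [], 91, [1]⟩, ⟨5, [], 48, [0]⟩, ⟨-4, [], 130, [2,0,0,0,0]⟩, ⟨4, [], 130, [2,1,1]⟩, ⟨-24, [], 49, [0]⟩, ⟨-1, [], 92, [1]⟩, ⟨2, [], 93, [0,0]⟩, ⟨4, [], 51, [0]⟩, ⟨26, [], 121, [0,0,0,2]⟩, ⟨-115, [], 121, [0,2,0,0]⟩, ⟨115, [], 121, [0,2,1]⟩, ⟨-95, [], 121, [2,0,0,0]⟩,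 ⟨95, [], 121, [2,1,0]⟩, ⟨-26, [], 121, [1,0,2]⟩, ⟨1, [], 121, [1,2,0]⟩, ⟨-1, [], 118, [0,0,0]⟩, ⟨2, [], 96, [1]⟩, ⟨-1, [], 97, [0,0]⟩, ⟨1, [], 98, [0,0]⟩, ⟨6, [], 9, []⟩, ⟨2, [], 100, [0,0]⟩, ⟨-14, [], 61, [0]⟩, ⟨1, [], 13, []⟩, ⟨8, [], 63, [0]⟩, ⟨-1, [], 15, []⟩, ⟨6, [], 64, [0]⟩, ⟨1, [], 16, []⟩, ⟨11, [], 65, [0]⟩, ⟨3, [], 17, []⟩, ⟨8, [], 67, [0]⟩, ⟨-1, [], 19, []⟩, ⟨-2, [], 102, [0,0]⟩, ⟨-8, [], 69, [0]⟩, ⟨-5, [], 20, []⟩, ⟨-7, [], 21, []⟩, ⟨26, [], 22, []⟩, ⟨-32, [], 23, []⟩, ⟨-123, [], 71, [0]⟩, ⟨116, [], 24, []⟩, ⟨400, [], 25, []⟩, ⟨-3, [], 26, []⟩, ⟨-26, [], 77, [0,2]⟩, ⟨1, [], 77, [2,0]⟩, ⟨-3, [], 27, []⟩, ⟨-352, [], 28, []⟩, ⟨-26, [], 35, [2]⟩, ⟨-115, [], 29, []⟩]⟩,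
  ⟨[(1, [1,1,1,0,3])], 1, [⟨1, [1], 84, []⟩, ⟨1, [], 35, [2]⟩, ⟨-1, [], 27, []⟩, ⟨3, [], 78, [2,0]⟩, ⟨-1, [], 28, []⟩, ⟨-5, [], 29, []⟩, ⟨-1, [], 36, [2]⟩, ⟨-4, [], 30, []⟩]⟩,
  ⟨[(1, [1,1,0,0,0,3]), (-2, [1,1,2,1,1]), (2, [1,1,2,0,0,0,0])], 1, [⟨1, [1], 82, []⟩, ⟨-2, [], 24, []⟩, ⟨-1, [], 36, [2]⟩, ⟨-1, [], 28, []⟩, ⟨1, [], 79, [2,0]⟩, ⟨1, [], 29, []⟩, ⟨1, [], 30, []⟩, ⟨-1, [], 37, [2]⟩]⟩,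
  ⟨[(1, [1,0,0,0,1,3])], 1, [⟨1, [1], 82, []⟩, ⟨2, [], 68, [0]⟩, ⟨-4, [], 26, []⟩, ⟨-11, [], 37, [2]⟩, ⟨14, [], 28, []⟩, ⟨7, [], 29, []⟩, ⟨-25, [], 80, [2,0]⟩, ⟨7, [], 30, []⟩, ⟨31, [], 31, []⟩, ⟨-3, [], 38, [2]⟩, ⟨30, [], 32, []⟩]⟩,
  ⟨[(1, [1,0,0,0,0,0,3]), (2, [1,0,0,0,0,0,0,2]), (-2, [1,2,0,0,0,0,1]), (2, [1,2,1,1,1]), (-2, [1,1,1,1,2])], 1, [⟨1, [1], 82, []⟩, ⟨-2, [], 18, []⟩, ⟨2, [], 73, [0]⟩, ⟨2, [], 25, []⟩, ⟨-2, [], 27, []⟩, ⟨-10, [], 38, [2]⟩, ⟨6, [], 29, []⟩, ⟨11, [], 30, []⟩, ⟨-32, [], 81, [2,0]⟩, ⟨11, [], 31, []⟩, ⟨47, [], 32, []⟩, ⟨-1, [], 39, [2]⟩, ⟨33, [], 33, []⟩]⟩,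
  ⟨[(1, [0,0,0,0,0,1,3]), (-2, [2,1,0,0,0,0,0,0]), (2, [2,1,1,1,1]), (2, [1,1,2,0,0,0,0]), (-2, [1,1,2,1,1])], 1, [⟨1, [0], 42, []⟩, ⟨2, [], 135, [2,0,0,0,0]⟩, ⟨-2, [], 135, [2,1,1]⟩, ⟨2, [], 54, [0]⟩, ⟨-2, [], 56, [0]⟩, ⟨-4, [], 126, [0,0,0,2]⟩, ⟨16, [], 126, [0,2,0,0]⟩, ⟨-16, [], 126, [0,2,1]⟩, ⟨12, [], 126, [2,0,0,0]⟩, ⟨-12, [], 126, [2,1,0]⟩, ⟨4, [], 126, [1,0,2]⟩, ⟨-2, [], 14, []⟩, ⟨-4, [], 27, []⟩, ⟨2, [], 28, []⟩, ⟨16, [], 76, [0]⟩, ⟨-16, [], 29, []⟩, ⟨-44, [], 30, []⟩, ⟨4, [], 82, [0,2]⟩, ⟨42, [], 33, []⟩, ⟨4, [], 40, [2]⟩, ⟨16, [], 34, []⟩]⟩,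
  ⟨[(1, [0,0,0,0,0,0,0,3]), (2, [0,0,0,0,0,0,0,0,2]), (-2, [1,1,2,1,1]), (2, [1,1,2,0,0,0,0]), (2, [0,2,0,0,0,0,0,1]), (-2, [2,1,0,0,0,0,0,0]), (-2, [0,2,1,1,1,0]), (2, [2,1,1,1,1]), (-2, [1,1,1,1,2])], 1, [⟨1, [0], 42, []⟩, ⟨2, [], 133, [0,0,1]⟩, ⟨-2, [], 134, [1,1]⟩, ⟨-2, [], 122, [0,1]⟩, ⟨4, [], 93, [1]⟩, ⟨2, [], 123, [0,1]⟩, ⟨2, [], 95, [1]⟩, ⟨-2, [], 97, [1]⟩, ⟨2, [], 10, []⟩, ⟨2, [], 136, [2,0,0,0,0]⟩, ⟨-2, [], 136, [2,1,1]⟩, ⟨2, [], 55, [0]⟩, ⟨4, [], 11, []⟩, ⟨2, [], 98, [1]⟩, ⟨-4, [], 99, [1]⟩, ⟨-2, [], 57, [0]⟩, ⟨2, [], 127, [0,0,0,2]⟩, ⟨-2, [], 127, [0,2,0,0]⟩, ⟨2, [], 127, [0,2,1]⟩, ⟨2, [], 124, [0,1]⟩, ⟨-4, [], 102, [1]⟩, ⟨2, [], 103, [1]⟩, ⟨-2, [], 104, [1]⟩, ⟨-2, [], 15, []⟩, ⟨-4, [],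 106, [1]⟩, ⟨2, [], 19, []⟩, ⟨-2, [], 21, []⟩, ⟨-2, [], 22, []⟩, ⟨-4, [], 23, []⟩, ⟨-2, [], 25, []⟩, ⟨4, [], 108, [1]⟩, ⟨2, [], 26, []⟩, ⟨2, [], 28, []⟩, ⟨2, [], 29, []⟩, ⟨-2, [], 77, [0]⟩, ⟨4, [], 30, []⟩, ⟨-2, [], 31, []⟩, ⟨4, [], 32, []⟩, ⟨6, [], 33, []⟩, ⟨6, [], 34, []⟩, ⟨-2, [], 35, []⟩]⟩]

def steps : List Step := steps0 ++ (steps1 ++ (steps2 ++ (steps3 ++ (steps4 ++ (steps5)))))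

def tr0 : Tr := (Tr.node (Tr.node (Tr.node (Tr.node (Tr.node Tr.leaf 2 (V.cons 6 1 V.nil) V.nil 999 Tr.leaf) 3 (V.cons 9 1 V.nil) V.nil 999 Tr.leaf) 15 (V.cons 22 2 (V.cons 28 2 (V.cons 34 1 (V.cons 46 (-2) (V.cons 106 (-2) V.nil))))) (V.cons 22 2 (V.cons 46 (-2) V.nil)) 0 (Tr.node Tr.leaf 37 (V.cons 25 (-1) (V.cons 55 2 (V.cons 79 (-2) (V.cons 109 2 (V.cons 115 (-2) V.nil))))) (V.cons 25 (-1) (V.cons 55 2 (V.cons 79 (-2) V.nil))) 1 Tr.leaf)) 43 (V.cons 55 1 (V.cons 61 1 (V.cons 79 1 (V.cons 91 1 (V.cons 109 (-1) (V.cons 115 1 (V.cons 175 (-2) (V.cons 187 (-1) (V.cons 235 (-1) V.nil))))))))) (V.cons 55 1 (V.cons 61 1 (V.cons 79 1 (V.cons 91 1 (V.cons 175 (-2) (V.cons 187 (-1) (V.cons 235 (-1) V.nil)))))))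 3 (Tr.node (Tr.node (Tr.node Tr.leaf 52 (V.cons 20 1 V.nil) (V.cons 20 1 V.nil) 4 Tr.leaf) 53 (V.cons 83 1 V.nil) (V.cons 83 1 V.nil) 13 Tr.leaf) 55 (V.cons 86 2 (V.cons 98 1 (V.cons 116 (-4) (V.cons 182 (-2) (V.cons 218 (-2) (V.cons 314 2 (V.cons 458 4 V.nil))))))) (V.cons 86 2 (V.cons 98 1 (V.cons 182 (-2) (V.cons 218 (-2) (V.cons 314 2 V.nil))))) 11 (Tr.node Tr.leaf 79 (V.cons 86 2 (V.cons 92 2 (V.cons 98 1 (V.cons 302 (-2) (V.cons 362 (-2) V.nil))))) (V.cons 86 2 (V.cons 92 2 (V.cons 98 1 (V.cons 302 (-2) (V.cons 362 (-2) V.nil))))) 9 Tr.leaf))) 83 (V.cons 221 (-2) (V.cons 311 3 (V.cons 317 3 (V.cons 335 (-3) (V.cons 347 1 (V.cons 365 3 (V.cons 371 (-3) (V.cons 461 2 (V.cons 467 (-2) (V.cons 1211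 (-1) (V.cons 1259 (-1) V.nil))))))))))) (V.cons 221 (-2) (V.cons 311 3 (V.cons 317 3 (V.cons 335 (-3) (V.cons 347 1 (V.cons 365 3 (V.cons 371 (-3) (V.cons 1211 (-1) (V.cons 1259 (-1) V.nil))))))))) 23 (Tr.node (Tr.node (Tr.node (Tr.node Tr.leaf 101 (V.cons 221 2 (V.cons 311 (-1) (V.cons 317 (-3) (V.cons 335 1 (V.cons 347 (-1) (V.cons 365 (-1) (V.cons 371 1 (V.cons 461 (-2) (V.cons 467 2 (V.cons 1211 1 (V.cons 1259 1 V.nil))))))))))) (V.cons 221 2 (V.cons 311 (-1) (V.cons 317 (-3) (V.cons 335 1 (V.cons 347 (-1) (V.cons 365 (-1) (V.cons 371 1 (V.cons 1211 1 (V.cons 1259 1 V.nil))))))))) 24 Tr.leaf) 136 (V.cons 55 (-1) (V.cons 61 (-1) (V.cons 79 1 (V.cons 91 (-1) (V.cons 109 (-1) (V.cons 115 (-1) (V.cons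 187 1 (V.cons 235 1 (V.cons 427 2 V.nil))))))))) (V.cons 55 (-1) (V.cons 61 (-1) (V.cons 79 1 (V.cons 91 (-1) (V.cons 187 1 (V.cons 235 1 V.nil)))))) 2 Tr.leaf) 137 (V.cons 92 (-2) (V.cons 98 (-1) (V.cons 116 (-2) (V.cons 362 2 (V.cons 428 2 V.nil))))) (V.cons 92 (-2) (V.cons 98 (-1) (V.cons 362 2 V.nil))) 10 (Tr.node Tr.leaf 175 (V.cons 86 4 (V.cons 116 (-2) (V.cons 182 (-1) (V.cons 218 1 (V.cons 236 (-1) (V.cons 242 1 (V.cons 302 (-1) (V.cons 314 (-1) (V.cons 428 1 (V.cons 458 1 (V.cons 686 (-2) V.nil))))))))))) (V.cons 86 4 (V.cons 182 (-1) (V.cons 218 1 (V.cons 236 (-1) (V.cons 242 1 (V.cons 302 (-1) (V.cons 314 (-1) (V.cons 686 (-2) V.nil)))))))) 12 Tr.leaf)) 176 (V.cons 83 1 V.nil) (V.cons 83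 1 V.nil) 14 (Tr.node (Tr.node Tr.leaf 177 (V.cons 330 1 V.nil) (V.cons 330 1 V.nil) 30 Tr.leaf) 179 (V.cons 221 (-2) (V.cons 245 (-2) (V.cons 311 1 (V.cons 317 (-1) (V.cons 335 (-1) (V.cons 347 (-1) (V.cons 365 (-1) (V.cons 371 1 (V.cons 461 (-2) (V.cons 467 4 (V.cons 875 2 (V.cons 971 2 (V.cons 1211 1 (V.cons 1259 1 (V.cons 1835 (-2) V.nil))))))))))))))) (V.cons 221 (-2) (V.cons 245 (-2) (V.cons 311 1 (V.cons 317 (-1) (V.cons 335 (-1) (V.cons 347 (-1) (V.cons 365 (-1) (V.cons 371 1 (V.cons 875 2 (V.cons 971 2 (V.cons 1211 1 (V.cons 1259 1 V.nil)))))))))))) 27 (Tr.node Tr.leaf 185 (V.cons 86 2 (V.cons 116 (-2) (V.cons 182 (-2) (V.cons 218 (-1) (V.cons 236 (-1) (V.cons 242 1 (V.cons 314 1 (V.cons 362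 1 (V.cons 458 2 V.nil))))))))) (V.cons 86 2 (V.cons 182 (-2) (V.cons 218 (-1) (V.cons 236 (-1) (V.cons 242 1 (V.cons 314 1 (V.cons 362 1 V.nil))))))) 6 Tr.leaf))))
def tr1 : Tr := (Tr.node (Tr.node (Tr.node (Tr.node (Tr.node Tr.leaf 308 (V.cons 84 1 V.nil) (V.cons 84 1 V.nil) 29 Tr.leaf) 309 (V.cons 339 1 V.nil) (V.cons 339 1 V.nil) 58 Tr.leaf) 311 (V.cons 348 2 (V.cons 372 2 (V.cons 1206 (-1) (V.cons 1242 1 (V.cons 1260 (-1) (V.cons 1266 1 (V.cons 1326 1 (V.cons 1338 (-1) (V.cons 1386 (-2) (V.cons 1452 (-1) (V.cons 1482 (-1) V.nil))))))))))) (V.cons 348 2 (V.cons 372 2 (V.cons 1206 (-1) (V.cons 1242 1 (V.cons 1260 (-1) (V.cons 1266 1 (V.cons 1326 1 (V.cons 1338 (-1) (V.cons 1386 (-2) (V.cons 1452 (-1)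 (V.cons 1482 (-1) V.nil))))))))))) 53 (Tr.node Tr.leaf 333 (V.cons 339 1 V.nil) (V.cons 339 1 V.nil) 57 Tr.leaf)) 335 (V.cons 348 4 (V.cons 372 6 (V.cons 1206 1 (V.cons 1242 3 (V.cons 1260 (-1) (V.cons 1266 1 (V.cons 1326 (-1) (V.cons 1338 (-3) (V.cons 1386 (-4) (V.cons 1452 (-1) (V.cons 1482 (-5) V.nil))))))))))) (V.cons 348 4 (V.cons 372 6 (V.cons 1206 1 (V.cons 1242 3 (V.cons 1260 (-1) (V.cons 1266 1 (V.cons 1326 (-1) (V.cons 1338 (-3) (V.cons 1386 (-4) (V.cons 1452 (-1) (V.cons 1482 (-5) V.nil))))))))))) 51 (Tr.node (Tr.node Tr.leaf 339 (V.cons 1341 (-2) (V.cons 1395 (-2) (V.cons 5355 2 (V.cons 5547 2 V.nil)))) (V.cons 1341 (-2) (V.cons 1395 (-2) (V.cons 5355 2 (V.cons 5547 2 V.nil)))) 93 Tr.leaf)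 392 (V.cons 311 (-1) (V.cons 317 (-1) (V.cons 335 1 (V.cons 347 (-1) (V.cons 365 (-1) (V.cons 371 (-1) (V.cons 1211 1 (V.cons 1259 1 (V.cons 1451 2 V.nil))))))))) (V.cons 311 (-1) (V.cons 317 (-1) (V.cons 335 1 (V.cons 347 (-1) (V.cons 365 (-1) (V.cons 371 (-1) (V.cons 1211 1 (V.cons 1259 1 (V.cons 1451 2 V.nil))))))))) 25 (Tr.node Tr.leaf 393 (V.cons 342 2 (V.cons 348 (-4) (V.cons 372 (-8) (V.cons 1206 (-1) (V.cons 1242 (-3) (V.cons 1260 1 (V.cons 1266 (-1) (V.cons 1326 (-1) (V.cons 1338 3 (V.cons 1386 4 (V.cons 1452 3 (V.cons 1482 5 V.nil)))))))))))) (V.cons 342 2 (V.cons 348 (-4) (V.cons 372 (-8) (V.cons 1206 (-1) (V.cons 1242 (-3) (V.cons 1260 1 (V.cons 1266 (-1) (V.cons 1326 (-1) (V.cons 1338 3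 (V.cons 1386 4 (V.cons 1452 3 (V.cons 1482 5 V.nil)))))))))))) 52 Tr.leaf))) 436 (V.cons 116 1 V.nil) V.nil 5 (Tr.node (Tr.node (Tr.node (Tr.node Tr.leaf 437 (V.cons 467 1 V.nil) V.nil 15 Tr.leaf) 683 (V.cons 221 4 (V.cons 245 (-3) (V.cons 311 (-4) (V.cons 317 (-6) (V.cons 335 6 (V.cons 347 (-2) (V.cons 365 (-6) (V.cons 371 5 (V.cons 461 (-5) (V.cons 467 4 (V.cons 875 (-1) (V.cons 941 2 (V.cons 971 1 (V.cons 1211 2 (V.cons 1259 3 (V.cons 1451 1 (V.cons 1835 1 (V.cons 2735 (-2) V.nil)))))))))))))))))) (V.cons 221 4 (V.cons 245 (-3) (V.cons 311 (-4) (V.cons 317 (-6) (V.cons 335 6 (V.cons 347 (-2) (V.cons 365 (-6) (V.cons 371 5 (V.cons 875 (-1) (V.cons 941 2 (V.cons 971 1 (V.cons 1211 2 (V.cons 1259 3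 (V.cons 1451 1 (V.cons 2735 (-2) V.nil))))))))))))))) 28 Tr.leaf) 692 (V.cons 330 1 V.nil) (V.cons 330 1 V.nil) 31 (Tr.node Tr.leaf 693 (V.cons 1323 1 V.nil) (V.cons 1323 1 V.nil) 60 Tr.leaf)) 694 (V.cons 221 (-3) (V.cons 245 (-1) (V.cons 311 3 (V.cons 317 4 (V.cons 335 (-2) (V.cons 347 2 (V.cons 365 4 (V.cons 371 (-3) (V.cons 461 3 (V.cons 467 (-2) (V.cons 875 2 (V.cons 971 1 (V.cons 1211 (-2) (V.cons 1259 (-3) (V.cons 1451 (-1) (V.cons 1835 (-1) V.nil)))))))))))))))) (V.cons 221 (-3) (V.cons 245 (-1) (V.cons 311 3 (V.cons 317 4 (V.cons 335 (-2) (V.cons 347 2 (V.cons 365 4 (V.cons 371 (-3) (V.cons 875 2 (V.cons 971 1 (V.cons 1211 (-2) (V.cons 1259 (-3) (V.cons 1451 (-1) V.nil))))))))))))) 20 (Tr.node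 (Tr.node Tr.leaf 695 (V.cons 342 14 (V.cons 348 (-30) (V.cons 372 (-48) (V.cons 1206 (-11) (V.cons 1242 (-25) (V.cons 1260 7 (V.cons 1266 (-9) (V.cons 1326 (-3) (V.cons 1338 25 (V.cons 1386 30 (V.cons 1452 7 (V.cons 1482 41 (V.cons 3498 2 V.nil))))))))))))) (V.cons 342 14 (V.cons 348 (-30) (V.cons 372 (-48) (V.cons 1206 (-11) (V.cons 1242 (-25) (V.cons 1260 7 (V.cons 1266 (-9) (V.cons 1326 (-3) (V.cons 1338 25 (V.cons 1386 30 (V.cons 1452 7 (V.cons 1482 41 (V.cons 3498 2 V.nil))))))))))))) 55 Tr.leaf) 700 (V.cons 86 (-3) (V.cons 116 3 (V.cons 182 1 (V.cons 218 (-1) (V.cons 236 (-2) (V.cons 242 1 (V.cons 302 2 (V.cons 314 2 (V.cons 428 (-2) (V.cons 458 (-1) (V.cons 938 1 V.nil))))))))))) (V.cons 86 (-3)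 (V.cons 182 1 (V.cons 218 (-1) (V.cons 236 (-2) (V.cons 242 1 (V.cons 302 2 (V.cons 314 2 (V.cons 938 1 V.nil)))))))) 8 (Tr.node Tr.leaf 701 (V.cons 221 3 (V.cons 245 (-2) (V.cons 311 (-3) (V.cons 317 (-6) (V.cons 335 3 (V.cons 347 (-2) (V.cons 365 (-6) (V.cons 371 6 (V.cons 461 (-6) (V.cons 467 8 (V.cons 875 2 (V.cons 941 1 (V.cons 971 1 (V.cons 1211 2 (V.cons 1259 2 (V.cons 1835 (-2) V.nil)))))))))))))))) (V.cons 221 3 (V.cons 245 (-2) (V.cons 311 (-3) (V.cons 317 (-6) (V.cons 335 3 (V.cons 347 (-2) (V.cons 365 (-6) (V.cons 371 6 (V.cons 875 2 (V.cons 941 1 (V.cons 971 1 (V.cons 1211 2 (V.cons 1259 2 V.nil))))))))))))) 21 Tr.leaf))))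
def tr2 : Tr := (Tr.node tr0 299 (V.cons 311 1 (V.cons 317 1 (V.cons 335 1 (V.cons 347 1 (V.cons 365 (-1) (V.cons 371 1 (V.cons 1199 (-2) (V.cons 1211 (-1) (V.cons 1259 (-1) V.nil))))))))) (V.cons 311 1 (V.cons 317 1 (V.cons 335 1 (V.cons 347 1 (V.cons 365 (-1) (V.cons 371 1 (V.cons 1199 (-2) (V.cons 1211 (-1) (V.cons 1259 (-1) V.nil))))))))) 26 tr1)
def tr3 : Tr := (Tr.node (Tr.node (Tr.node (Tr.node (Tr.node Tr.leaf 729 (V.cons 342 (-2) (V.cons 348 4 (V.cons 372 6 (V.cons 1206 2 (V.cons 1242 3 (V.cons 1260 (-1) (V.cons 1266 1 (V.cons 1338 (-3) (V.cons 1386 (-3) (V.cons 1452 (-1) (V.cons 1482 (-5) V.nil))))))))))) (V.cons 342 (-2) (V.cons 348 4 (V.cons 372 6 (V.cons 1206 2 (V.cons 1242 3 (V.cons 1260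 (-1) (V.cons 1266 1 (V.cons 1338 (-3) (V.cons 1386 (-3) (V.cons 1452 (-1) (V.cons 1482 (-5) V.nil))))))))))) 47 Tr.leaf) 748 (V.cons 86 2 (V.cons 116 (-3) (V.cons 182 (-1) (V.cons 236 1 (V.cons 302 (-1) (V.cons 362 1 (V.cons 428 1 (V.cons 458 2 (V.cons 938 (-1) V.nil))))))))) (V.cons 86 2 (V.cons 182 (-1) (V.cons 236 1 (V.cons 302 (-1) (V.cons 362 1 (V.cons 938 (-1) V.nil)))))) 7 Tr.leaf) 749 (V.cons 221 (-3) (V.cons 245 1 (V.cons 311 3 (V.cons 317 4 (V.cons 335 (-3) (V.cons 347 1 (V.cons 365 4 (V.cons 371 (-3) (V.cons 461 3 (V.cons 467 (-3) (V.cons 941 (-1) (V.cons 1211 (-1) (V.cons 1259 (-1) V.nil))))))))))))) (V.cons 221 (-3) (V.cons 245 1 (V.cons 311 3 (V.cons 317 4 (V.cons 335 (-3) (V.cons 347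 1 (V.cons 365 4 (V.cons 371 (-3) (V.cons 941 (-1) (V.cons 1211 (-1) (V.cons 1259 (-1) V.nil))))))))))) 19 (Tr.node Tr.leaf 873 (V.cons 342 1 (V.cons 348 (-2) (V.cons 372 (-5) (V.cons 1206 (-1) (V.cons 1242 (-2) (V.cons 1260 1 (V.cons 1338 2 (V.cons 1386 2 (V.cons 1452 1 (V.cons 1482 4 V.nil)))))))))) (V.cons 342 1 (V.cons 348 (-2) (V.cons 372 (-5) (V.cons 1206 (-1) (V.cons 1242 (-2) (V.cons 1260 1 (V.cons 1338 2 (V.cons 1386 2 (V.cons 1452 1 (V.cons 1482 4 V.nil)))))))))) 42 Tr.leaf)) 884 (V.cons 348 1 (V.cons 372 1 (V.cons 1242 1 (V.cons 1266 1 (V.cons 1338 (-1) (V.cons 1386 (-1) (V.cons 1482 (-1) V.nil))))))) (V.cons 348 1 (V.cons 372 1 (V.cons 1242 1 (V.cons 1266 1 (V.cons 1338 (-1) (V.cons 1386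 (-1) (V.cons 1482 (-1) V.nil))))))) 41 (Tr.node (Tr.node Tr.leaf 885 (V.cons 1269 1 V.nil) (V.cons 1269 1 V.nil) 83 Tr.leaf) 944 (V.cons 245 1 V.nil) (V.cons 245 1 V.nil) 17 (Tr.node Tr.leaf 945 (V.cons 978 1 V.nil) (V.cons 978 1 V.nil) 45 Tr.leaf))) 969 (V.cons 342 (-5) (V.cons 348 9 (V.cons 372 18 (V.cons 978 1 (V.cons 1206 4 (V.cons 1242 9 (V.cons 1260 (-3) (V.cons 1266 3 (V.cons 1326 1 (V.cons 1338 (-9) (V.cons 1386 (-9) (V.cons 1452 (-3) (V.cons 1482 (-15) V.nil))))))))))))) (V.cons 342 (-5) (V.cons 348 9 (V.cons 372 18 (V.cons 978 1 (V.cons 1206 4 (V.cons 1242 9 (V.cons 1260 (-3) (V.cons 1266 3 (V.cons 1326 1 (V.cons 1338 (-9) (V.cons 1386 (-9) (V.cons 1452 (-3) (V.cons 1482 (-15) V.nil)))))))))))))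 43 (Tr.node (Tr.node (Tr.node (Tr.node Tr.leaf 1199 (V.cons 342 4 (V.cons 372 (-2) (V.cons 1206 (-1) (V.cons 1242 1 (V.cons 1260 (-1) (V.cons 1266 1 (V.cons 1326 (-1) (V.cons 1338 (-1) (V.cons 1452 1 (V.cons 1482 1 (V.cons 4782 (-2) V.nil))))))))))) (V.cons 342 4 (V.cons 372 (-2) (V.cons 1206 (-1) (V.cons 1242 1 (V.cons 1260 (-1) (V.cons 1266 1 (V.cons 1326 (-1) (V.cons 1338 (-1) (V.cons 1452 1 (V.cons 1482 1 (V.cons 4782 (-2) V.nil))))))))))) 54 Tr.leaf) 1200 (V.cons 339 1 V.nil) (V.cons 339 1 V.nil) 59 Tr.leaf) 1201 (V.cons 340 1 V.nil) (V.cons 340 1 V.nil) 101 (Tr.node Tr.leaf 1203 (V.cons 1341 34 (V.cons 1359 (-8) (V.cons 1395 26 (V.cons 5295 8 (V.cons 5355 (-34) (V.cons 5547 (-26) V.nil)))))) (V.cons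 1341 34 (V.cons 1359 (-8) (V.cons 1395 26 (V.cons 5295 8 (V.cons 5355 (-34) (V.cons 5547 (-26) V.nil)))))) 95 Tr.leaf)) 1209 (V.cons 342 2 (V.cons 372 (-2) (V.cons 1206 (-2) (V.cons 1242 (-1) (V.cons 1260 (-1) (V.cons 1266 1 (V.cons 1338 1 (V.cons 1386 1 (V.cons 1482 2 V.nil))))))))) (V.cons 342 2 (V.cons 372 (-2) (V.cons 1206 (-2) (V.cons 1242 (-1) (V.cons 1260 (-1) (V.cons 1266 1 (V.cons 1338 1 (V.cons 1386 1 (V.cons 1482 2 V.nil))))))))) 33 (Tr.node (Tr.node Tr.leaf 1245 (V.cons 1341 (-8) (V.cons 1359 2 (V.cons 1395 (-7) (V.cons 5295 (-2) (V.cons 5355 9 (V.cons 5547 7 V.nil)))))) (V.cons 1341 (-8) (V.cons 1359 2 (V.cons 1395 (-7) (V.cons 5295 (-2) (V.cons 5355 9 (V.cons 5547 7 V.nil)))))) 68 Tr.leaf)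 1321 (V.cons 340 1 V.nil) (V.cons 340 1 V.nil) 100 (Tr.node Tr.leaf 1323 (V.cons 1341 (-2) (V.cons 1359 2 (V.cons 1395 (-2) (V.cons 5295 (-2) (V.cons 5355 2 (V.cons 5547 2 V.nil)))))) (V.cons 1341 (-2) (V.cons 1359 2 (V.cons 1395 (-2) (V.cons 5295 (-2) (V.cons 5355 2 (V.cons 5547 2 V.nil)))))) 94 Tr.leaf))))
def tr4 : Tr := (Tr.node (Tr.node (Tr.node (Tr.node (Tr.node Tr.leaf 1359 V.nil V.nil 136 Tr.leaf) 1389 (V.cons 1395 1 V.nil) (V.cons 1395 1 V.nil) 62 Tr.leaf) 1460 (V.cons 372 1 V.nil) (V.cons 372 1 V.nil) 32 (Tr.node Tr.leaf 1461 (V.cons 1491 1 V.nil) (V.cons 1491 1 V.nil) 66 Tr.leaf)) 1485 (V.cons 1341 (-9) (V.cons 1359 2 (V.cons 1395 (-7) (V.cons 1491 1 (V.cons 5295 (-2) (V.cons 5355 9 (V.cons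 5547 7 V.nil))))))) (V.cons 1341 (-9) (V.cons 1359 2 (V.cons 1395 (-7) (V.cons 1491 1 (V.cons 5295 (-2) (V.cons 5355 9 (V.cons 5547 7 V.nil))))))) 64 (Tr.node (Tr.node Tr.leaf 1712 (V.cons 467 1 V.nil) V.nil 16 Tr.leaf) 1713 (V.cons 348 (-2) (V.cons 372 (-1) (V.cons 468 1 (V.cons 1242 (-1) (V.cons 1338 1 (V.cons 1386 2 (V.cons 1482 1 V.nil))))))) (V.cons 348 (-2) (V.cons 372 (-1) (V.cons 1242 (-1) (V.cons 1338 1 (V.cons 1386 2 (V.cons 1482 1 V.nil)))))) 39 (Tr.node Tr.leaf 1833 (V.cons 348 (-1) (V.cons 372 (-2) (V.cons 468 1 (V.cons 1242 (-1) (V.cons 1338 1 (V.cons 1386 1 (V.cons 1482 2 V.nil))))))) (V.cons 348 (-1) (V.cons 372 (-2) (V.cons 1242 (-1) (V.cons 1338 1 (V.cons 1386 1 (V.cons 1482 2 V.nil))))))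 38 Tr.leaf))) 1844 (V.cons 468 1 V.nil) V.nil 37 (Tr.node (Tr.node (Tr.node (Tr.node Tr.leaf 1845 (V.cons 1875 1 V.nil) V.nil 79 Tr.leaf) 1868 (V.cons 348 (-2) (V.cons 372 (-1) (V.cons 468 1 (V.cons 1242 (-1) (V.cons 1338 1 (V.cons 1386 2 (V.cons 1482 1 V.nil))))))) (V.cons 348 (-2) (V.cons 372 (-1) (V.cons 1242 (-1) (V.cons 1338 1 (V.cons 1386 2 (V.cons 1482 1 V.nil)))))) 36 Tr.leaf) 1869 (V.cons 1875 1 V.nil) V.nil 78 (Tr.node Tr.leaf 2735 (V.cons 342 13 (V.cons 348 (-33) (V.cons 372 (-62) (V.cons 468 (-2) (V.cons 978 2 (V.cons 1206 (-10) (V.cons 1242 (-32) (V.cons 1260 11 (V.cons 1266 (-11) (V.cons 1326 (-1) (V.cons 1338 32 (V.cons 1386 33 (V.cons 1452 11 (V.cons 1482 51 (V.cons 3756 (-2) (V.cons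 7338 2 (V.cons 10926 (-2) V.nil))))))))))))))))) (V.cons 342 13 (V.cons 348 (-33) (V.cons 372 (-62) (V.cons 978 2 (V.cons 1206 (-10) (V.cons 1242 (-32) (V.cons 1260 11 (V.cons 1266 (-11) (V.cons 1326 (-1) (V.cons 1338 32 (V.cons 1386 33 (V.cons 1452 11 (V.cons 1482 51 (V.cons 3756 (-2) (V.cons 10926 (-2) V.nil))))))))))))))) 56 Tr.leaf)) 2736 (V.cons 1323 1 V.nil) (V.cons 1323 1 V.nil) 61 (Tr.node (Tr.node Tr.leaf 2737 (V.cons 5290 1 V.nil) (V.cons 5290 1 V.nil) 103 Tr.leaf) 2738 (V.cons 348 9 (V.cons 372 8 (V.cons 468 (-2) (V.cons 1206 1 (V.cons 1242 6 (V.cons 1260 (-1) (V.cons 1266 2 (V.cons 1338 (-6) (V.cons 1386 (-9) (V.cons 1452 (-1) (V.cons 1482 (-8) (V.cons 3498 (-2) (V.cons 5034 1 (V.cons 5802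 1 (V.cons 7338 2 V.nil))))))))))))))) (V.cons 348 9 (V.cons 372 8 (V.cons 1206 1 (V.cons 1242 6 (V.cons 1260 (-1) (V.cons 1266 2 (V.cons 1338 (-6) (V.cons 1386 (-9) (V.cons 1452 (-1) (V.cons 1482 (-8) (V.cons 3498 (-2) (V.cons 5034 1 (V.cons 5802 1 V.nil))))))))))))) 48 (Tr.node Tr.leaf 2739 (V.cons 1269 (-2) (V.cons 1341 (-16) (V.cons 1359 4 (V.cons 1395 (-12) (V.cons 1491 (-2) (V.cons 5295 (-4) (V.cons 5355 16 (V.cons 5547 12 (V.cons 20139 2 (V.cons 23211 2 V.nil)))))))))) (V.cons 1269 (-2) (V.cons 1341 (-16) (V.cons 1359 4 (V.cons 1395 (-12) (V.cons 1491 (-2) (V.cons 5295 (-4) (V.cons 5355 16 (V.cons 5547 12 (V.cons 20139 2 (V.cons 23211 2 V.nil)))))))))) 97 Tr.leaf))))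
def tr5 : Tr := (Tr.node tr3 1356 (V.cons 340 1 V.nil) (V.cons 340 1 V.nil) 99 tr4)
def tr6 : Tr := (Tr.node tr2 728 (V.cons 221 2 (V.cons 311 (-2) (V.cons 317 (-2) (V.cons 335 2 (V.cons 365 (-2) (V.cons 371 1 (V.cons 461 (-1) (V.cons 467 (-1) (V.cons 875 (-2) (V.cons 1211 1 (V.cons 1259 2 (V.cons 1451 1 (V.cons 1835 2 V.nil))))))))))))) (V.cons 221 2 (V.cons 311 (-2) (V.cons 317 (-2) (V.cons 335 2 (V.cons 365 (-2) (V.cons 371 1 (V.cons 875 (-2) (V.cons 1211 1 (V.cons 1259 2 (V.cons 1451 1 V.nil)))))))))) 18 tr5)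
def tr7 : Tr := (Tr.node (Tr.node (Tr.node (Tr.node (Tr.node Tr.leaf 2745 (V.cons 342 16 (V.cons 348 (-45) (V.cons 372 (-75) (V.cons 468 1 (V.cons 978 1 (V.cons 1206 (-12) (V.cons 1242 (-38) (V.cons 1260 12 (V.cons 1266 (-14) (V.cons 1326 (-4) (V.cons 1338 38 (V.cons 1386 46 (V.cons 1452 12 (V.cons 1482 63 (V.cons 3498 2 (V.cons 3756 (-1) (V.cons 7338 (-1) V.nil))))))))))))))))) (V.cons 342 16 (V.cons 348 (-45) (V.cons 372 (-75) (V.cons 978 1 (V.cons 1206 (-12) (V.cons 1242 (-38) (V.cons 1260 12 (V.cons 1266 (-14) (V.cons 1326 (-4) (V.cons 1338 38 (V.cons 1386 46 (V.cons 1452 12 (V.cons 1482 63 (V.cons 3498 2 (V.cons 3756 (-1) V.nil))))))))))))))) 49 Tr.leaf) 3501 (V.cons 1269 1 (V.cons 1341 2 (V.cons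 1359 (-1) (V.cons 1395 1 (V.cons 5295 1 (V.cons 5355 (-2) (V.cons 5547 (-1) V.nil))))))) (V.cons 1269 1 (V.cons 1341 2 (V.cons 1359 (-1) (V.cons 1395 1 (V.cons 5295 1 (V.cons 5355 (-2) (V.cons 5547 (-1) V.nil))))))) 84 Tr.leaf) 3764 (V.cons 978 1 V.nil) (V.cons 978 1 V.nil) 46 (Tr.node Tr.leaf 3765 (V.cons 981 1 (V.cons 1395 1 (V.cons 5547 (-1) V.nil))) (V.cons 981 1 (V.cons 1395 1 (V.cons 5547 (-1) V.nil))) 88 Tr.leaf)) 3884 (V.cons 342 3 (V.cons 348 7 (V.cons 468 (-3) (V.cons 978 1 (V.cons 1206 (-2) (V.cons 1242 2 (V.cons 1260 1 (V.cons 1266 1 (V.cons 1326 (-1) (V.cons 1338 (-2) (V.cons 1386 (-7) (V.cons 1452 1 (V.cons 1482 (-2) (V.cons 3498 (-3) (V.cons 5034 1 (V.cons 5802 1 (V.cons 7338 3 V.nil)))))))))))))))))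 (V.cons 342 3 (V.cons 348 7 (V.cons 978 1 (V.cons 1206 (-2) (V.cons 1242 2 (V.cons 1260 1 (V.cons 1266 1 (V.cons 1326 (-1) (V.cons 1338 (-2) (V.cons 1386 (-7) (V.cons 1452 1 (V.cons 1482 (-2) (V.cons 3498 (-3) (V.cons 5034 1 (V.cons 5802 1 V.nil))))))))))))))) 44 (Tr.node (Tr.node Tr.leaf 3885 (V.cons 981 1 V.nil) (V.cons 981 1 V.nil) 87 Tr.leaf) 3912 (V.cons 981 1 (V.cons 1395 1 (V.cons 5547 (-1) V.nil))) (V.cons 981 1 (V.cons 1395 1 (V.cons 5547 (-1) V.nil))) 86 (Tr.node Tr.leaf 3913 (V.cons 3922 1 V.nil) (V.cons 3922 1 V.nil) 130 Tr.leaf))) 4779 (V.cons 1341 64 (V.cons 1359 (-12) (V.cons 1395 50 (V.cons 1491 2 (V.cons 5295 14 (V.cons 5355 (-64) (V.cons 5547 (-50) (V.cons 5805 (-2) (V.cons 19119 (-2)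 V.nil))))))))) (V.cons 1341 64 (V.cons 1359 (-12) (V.cons 1395 50 (V.cons 1491 2 (V.cons 5295 14 (V.cons 5355 (-64) (V.cons 5547 (-50) (V.cons 5805 (-2) (V.cons 19119 (-2) V.nil))))))))) 96 (Tr.node (Tr.node (Tr.node (Tr.node Tr.leaf 4788 (V.cons 340 1 V.nil) (V.cons 340 1 V.nil) 102 Tr.leaf) 4790 (V.cons 1341 (-12) (V.cons 1359 3 (V.cons 1395 (-10) (V.cons 5295 (-2) (V.cons 5355 12 (V.cons 5547 10 V.nil)))))) (V.cons 1341 (-12) (V.cons 1359 3 (V.cons 1395 (-10) (V.cons 5295 (-2) (V.cons 5355 12 (V.cons 5547 10 V.nil)))))) 75 Tr.leaf) 4791 V.nil V.nil 138 (Tr.node Tr.leaf 4796 (V.cons 342 (-3) (V.cons 372 3 (V.cons 1206 1 (V.cons 1242 (-1) (V.cons 1260 (-2) (V.cons 1266 1 (V.cons 1326 2 (V.cons 1338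 2 (V.cons 1452 (-2) (V.cons 1482 (-1) (V.cons 5034 1 V.nil))))))))))) (V.cons 342 (-3) (V.cons 372 3 (V.cons 1206 1 (V.cons 1242 (-1) (V.cons 1260 (-2) (V.cons 1266 1 (V.cons 1326 2 (V.cons 1338 2 (V.cons 1452 (-2) (V.cons 1482 (-1) (V.cons 5034 1 V.nil))))))))))) 35 Tr.leaf)) 4797 (V.cons 1341 49 (V.cons 1359 (-10) (V.cons 1395 38 (V.cons 1491 1 (V.cons 5295 10 (V.cons 5355 (-48) (V.cons 5547 (-38) (V.cons 5805 (-1) V.nil)))))))) (V.cons 1341 49 (V.cons 1359 (-10) (V.cons 1395 38 (V.cons 1491 1 (V.cons 5295 10 (V.cons 5355 (-48) (V.cons 5547 (-38) (V.cons 5805 (-1) V.nil)))))))) 76 (Tr.node (Tr.node Tr.leaf 4824 (V.cons 1371 1 V.nil) (V.cons 1371 1 V.nil) 73 Tr.leaf) 4825 (V.cons 1372 1 V.nil) (V.cons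 1372 1 V.nil) 121 (Tr.node Tr.leaf 4844 (V.cons 342 2 (V.cons 372 (-3) (V.cons 1206 (-1) (V.cons 1260 1 (V.cons 1326 (-1) (V.cons 1386 1 (V.cons 1452 1 (V.cons 1482 2 (V.cons 5034 (-1) V.nil))))))))) (V.cons 342 2 (V.cons 372 (-3) (V.cons 1206 (-1) (V.cons 1260 1 (V.cons 1326 (-1) (V.cons 1386 1 (V.cons 1452 1 (V.cons 1482 2 (V.cons 5034 (-1) V.nil))))))))) 34 Tr.leaf))))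
def tr8 : Tr := (Tr.node (Tr.node (Tr.node (Tr.node (Tr.node Tr.leaf 4968 (V.cons 1341 (-6) (V.cons 1359 2 (V.cons 1395 (-5) (V.cons 5295 (-2) (V.cons 5355 7 (V.cons 5547 5 V.nil)))))) (V.cons 1341 (-6) (V.cons 1359 2 (V.cons 1395 (-5) (V.cons 5295 (-2) (V.cons 5355 7 (V.cons 5547 5 V.nil)))))) 69 Tr.leaf) 4969 (V.cons 5362 1 V.nil) (V.cons 5362 1 V.nil) 117 Tr.leaf) 5037 (V.cons 1269 1 (V.cons 1341 23 (V.cons 1359 (-5) (V.cons 1395 18 (V.cons 1491 1 (V.cons 5295 5 (V.cons 5355 (-23) (V.cons 5547 (-18) (V.cons 5805 (-1) V.nil))))))))) (V.cons 1269 1 (V.cons 1341 23 (V.cons 1359 (-5) (V.cons 1395 18 (V.cons 1491 1 (V.cons 5295 5 (V.cons 5355 (-23) (V.cons 5547 (-18) (V.cons 5805 (-1) V.nil))))))))) 72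 (Tr.node Tr.leaf 5040 (V.cons 1269 1 V.nil) (V.cons 1269 1 V.nil) 71 Tr.leaf)) 5041 (V.cons 5074 1 V.nil) (V.cons 5074 1 V.nil) 119 (Tr.node (Tr.node Tr.leaf 5064 (V.cons 1269 1 (V.cons 1341 2 (V.cons 1359 (-1) (V.cons 1395 1 (V.cons 5295 1 (V.cons 5355 (-2) (V.cons 5547 (-1) V.nil))))))) (V.cons 1269 1 (V.cons 1341 2 (V.cons 1359 (-1) (V.cons 1395 1 (V.cons 5295 1 (V.cons 5355 (-2) (V.cons 5547 (-1) V.nil))))))) 70 Tr.leaf) 5065 (V.cons 5074 1 V.nil) (V.cons 5074 1 V.nil) 118 (Tr.node Tr.leaf 5295 (V.cons 1396 2 (V.cons 22186 (-2) V.nil)) (V.cons 1396 2 (V.cons 22186 (-2) V.nil)) 137 Tr.leaf))) 5304 (V.cons 1341 3 (V.cons 1371 1 (V.cons 1395 2 (V.cons 5355 (-3) (V.cons 5547 (-2) V.nil))))) (V.cons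 1341 3 (V.cons 1371 1 (V.cons 1395 2 (V.cons 5355 (-3) (V.cons 5547 (-2) V.nil))))) 63 (Tr.node (Tr.node (Tr.node (Tr.node Tr.leaf 5305 (V.cons 1372 1 V.nil) (V.cons 1372 1 V.nil) 110 Tr.leaf) 5353 (V.cons 5362 1 V.nil) (V.cons 5362 1 V.nil) 108 Tr.leaf) 5484 (V.cons 1372 1 V.nil) (V.cons 1372 1 V.nil) 105 (Tr.node Tr.leaf 5545 (V.cons 1396 1 V.nil) (V.cons 1396 1 V.nil) 107 Tr.leaf)) 5580 (V.cons 1396 1 V.nil) (V.cons 1396 1 V.nil) 106 (Tr.node (Tr.node Tr.leaf 5808 (V.cons 1491 1 V.nil) (V.cons 1491 1 V.nil) 67 Tr.leaf) 5809 (V.cons 1492 1 V.nil) (V.cons 1492 1 V.nil) 115 (Tr.node Tr.leaf 5928 (V.cons 1341 (-3) (V.cons 1359 1 (V.cons 1395 (-2) (V.cons 1491 1 (V.cons 5295 (-1) (V.cons 5355 3 (V.cons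 5547 2 V.nil))))))) (V.cons 1341 (-3) (V.cons 1359 1 (V.cons 1395 (-2) (V.cons 1491 1 (V.cons 5295 (-1) (V.cons 5355 3 (V.cons 5547 2 V.nil))))))) 65 Tr.leaf))))
def tr9 : Tr := (Tr.node tr7 4845 (V.cons 1341 (-25) (V.cons 1359 5 (V.cons 1395 (-19) (V.cons 1491 (-1) (V.cons 5295 (-5) (V.cons 5355 25 (V.cons 5547 20 (V.cons 5805 1 V.nil)))))))) (V.cons 1341 (-25) (V.cons 1359 5 (V.cons 1395 (-19) (V.cons 1491 (-1) (V.cons 5295 (-5) (V.cons 5355 25 (V.cons 5547 20 (V.cons 5805 1 V.nil)))))))) 74 tr8)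
def tr10 : Tr := (Tr.node (Tr.node (Tr.node (Tr.node (Tr.node Tr.leaf 5964 (V.cons 1492 1 V.nil) (V.cons 1492 1 V.nil) 113 Tr.leaf) 6836 (V.cons 348 (-2) (V.cons 372 (-1) (V.cons 468 1 (V.cons 1242 (-1) (V.cons 1338 1 (V.cons 1386 2 (V.cons 1482 1 V.nil))))))) (V.cons 348 (-2) (V.cons 372 (-1) (V.cons 1242 (-1) (V.cons 1338 1 (V.cons 1386 2 (V.cons 1482 1 V.nil)))))) 40 Tr.leaf) 6837 (V.cons 1341 3 (V.cons 1359 (-1) (V.cons 1395 1 (V.cons 1875 1 (V.cons 5295 1 (V.cons 5355 (-3) (V.cons 5547 (-1) V.nil))))))) (V.cons 1341 3 (V.cons 1359 (-1) (V.cons 1395 1 (V.cons 5295 1 (V.cons 5355 (-3) (V.cons 5547 (-1) V.nil)))))) 81 (Tr.node Tr.leaf 7341 (V.cons 1341 (-12) (V.cons 1359 2 (V.cons 1395 (-10) (V.cons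 1875 1 (V.cons 5295 (-2) (V.cons 5355 12 (V.cons 5547 10 V.nil))))))) (V.cons 1341 (-12) (V.cons 1359 2 (V.cons 1395 (-10) (V.cons 5295 (-2) (V.cons 5355 12 (V.cons 5547 10 V.nil)))))) 80 Tr.leaf)) 7500 (V.cons 1876 1 V.nil) V.nil 125 (Tr.node (Tr.node Tr.leaf 10923 (V.cons 981 (-2) (V.cons 1269 (-2) (V.cons 1341 2 (V.cons 1491 (-2) (V.cons 5295 2 (V.cons 5355 (-2) (V.cons 15021 2 (V.cons 20139 2 (V.cons 23211 2 (V.cons 43695 (-2) V.nil)))))))))) (V.cons 981 (-2) (V.cons 1269 (-2) (V.cons 1341 2 (V.cons 1491 (-2) (V.cons 5295 2 (V.cons 5355 (-2) (V.cons 15021 2 (V.cons 20139 2 (V.cons 23211 2 (V.cons 43695 (-2) V.nil)))))))))) 98 Tr.leaf) 10932 (V.cons 5290 1 V.nil) (V.cons 5290 1 V.nil) 104 (Tr.node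 Tr.leaf 10934 (V.cons 1341 (-3) (V.cons 1359 1 (V.cons 1395 (-1) (V.cons 1875 (-1) (V.cons 5355 3 (V.cons 5547 1 (V.cons 29355 1 V.nil))))))) (V.cons 1341 (-3) (V.cons 1359 1 (V.cons 1395 (-1) (V.cons 5355 3 (V.cons 5547 1 V.nil))))) 90 Tr.leaf))) 10935 (V.cons 1396 2 (V.cons 1876 (-2) (V.cons 22186 (-2) (V.cons 117418 2 V.nil)))) (V.cons 1396 2 (V.cons 22186 (-2) V.nil)) 140 (Tr.node (Tr.node (Tr.node (Tr.node Tr.leaf 10940 (V.cons 342 20 (V.cons 348 (-12) (V.cons 372 (-52) (V.cons 468 (-4) (V.cons 978 (-1) (V.cons 1206 (-11) (V.cons 1242 (-15) (V.cons 1260 11 (V.cons 1266 (-7) (V.cons 1326 (-9) (V.cons 1338 16 (V.cons 1386 12 (V.cons 1452 11 (V.cons 1482 37 (V.cons 3498 (-8) (V.cons 5034 4 (V.cons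 5802 4 (V.cons 7338 4 (V.cons 15018 1 V.nil))))))))))))))))))) (V.cons 342 20 (V.cons 348 (-12) (V.cons 372 (-52) (V.cons 978 (-1) (V.cons 1206 (-11) (V.cons 1242 (-15) (V.cons 1260 11 (V.cons 1266 (-7) (V.cons 1326 (-9) (V.cons 1338 16 (V.cons 1386 12 (V.cons 1452 11 (V.cons 1482 37 (V.cons 3498 (-8) (V.cons 5034 4 (V.cons 5802 4 (V.cons 15018 1 V.nil))))))))))))))))) 50 Tr.leaf) 10941 (V.cons 981 (-1) (V.cons 1269 (-1) (V.cons 1341 18 (V.cons 1359 (-4) (V.cons 1395 13 (V.cons 1491 (-1) (V.cons 5295 4 (V.cons 5355 (-17) (V.cons 5547 (-13) (V.cons 15021 1 (V.cons 20139 1 (V.cons 23211 1 V.nil)))))))))))) (V.cons 981 (-1) (V.cons 1269 (-1) (V.cons 1341 18 (V.cons 1359 (-4) (V.cons 1395 13 (V.cons 1491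 (-1) (V.cons 5295 4 (V.cons 5355 (-17) (V.cons 5547 (-13) (V.cons 15021 1 (V.cons 20139 1 (V.cons 23211 1 V.nil)))))))))))) 91 Tr.leaf) 13992 (V.cons 1269 1 (V.cons 1341 4 (V.cons 1359 (-1) (V.cons 1395 5 (V.cons 1875 (-1) (V.cons 5295 1 (V.cons 5355 (-4) (V.cons 5547 (-5) (V.cons 29355 1 V.nil))))))))) (V.cons 1269 1 (V.cons 1341 4 (V.cons 1359 (-1) (V.cons 1395 5 (V.cons 5295 1 (V.cons 5355 (-4) (V.cons 5547 (-5) V.nil))))))) 85 (Tr.node Tr.leaf 13993 (V.cons 5074 1 V.nil) (V.cons 5074 1 V.nil) 129 Tr.leaf)) 15024 (V.cons 981 1 (V.cons 1395 1 (V.cons 5547 (-1) V.nil))) (V.cons 981 1 (V.cons 1395 1 (V.cons 5547 (-1) V.nil))) 89 (Tr.node (Tr.node Tr.leaf 15025 (V.cons 1396 1 (V.cons 3922 1 (V.cons 22186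 (-1) V.nil))) (V.cons 1396 1 (V.cons 3922 1 (V.cons 22186 (-1) V.nil))) 131 Tr.leaf) 19119 (V.cons 1366 2 (V.cons 1492 (-2) (V.cons 23212 2 (V.cons 76462 (-2) V.nil)))) (V.cons 1366 2 (V.cons 1492 (-2) (V.cons 23212 2 (V.cons 76462 (-2) V.nil)))) 139 (Tr.node Tr.leaf 19122 (V.cons 1366 1 V.nil) (V.cons 1366 1 V.nil) 122 Tr.leaf))))
def tr11 : Tr := (Tr.node (Tr.node (Tr.node (Tr.node (Tr.node Tr.leaf 19129 (V.cons 1372 1 (V.cons 1492 (-1) (V.cons 23212 1 V.nil))) (V.cons 1372 1 (V.cons 1492 (-1) (V.cons 23212 1 V.nil))) 123 Tr.leaf) 20137 (V.cons 1492 1 (V.cons 5074 1 (V.cons 23212 (-1) V.nil))) (V.cons 1492 1 (V.cons 5074 1 (V.cons 23212 (-1) V.nil))) 120 Tr.leaf) 21162 (V.cons 1366 1 (V.cons 1396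 (-1) (V.cons 22186 1 V.nil))) (V.cons 1366 1 (V.cons 1396 (-1) (V.cons 22186 1 V.nil))) 112 (Tr.node Tr.leaf 21180 (V.cons 1396 1 (V.cons 5434 1 (V.cons 22186 (-1) V.nil))) (V.cons 1396 1 (V.cons 5434 1 (V.cons 22186 (-1) V.nil))) 111 Tr.leaf)) 21420 (V.cons 1396 1 (V.cons 5362 1 (V.cons 22186 (-1) V.nil))) (V.cons 1396 1 (V.cons 5362 1 (V.cons 22186 (-1) V.nil))) 109 (Tr.node (Tr.node Tr.leaf 23220 (V.cons 1492 1 V.nil) (V.cons 1492 1 V.nil) 116 Tr.leaf) 27312 (V.cons 1341 3 (V.cons 1359 (-1) (V.cons 1395 1 (V.cons 1875 1 (V.cons 5295 1 (V.cons 5355 (-3) (V.cons 5547 (-1) V.nil))))))) (V.cons 1341 3 (V.cons 1359 (-1) (V.cons 1395 1 (V.cons 5295 1 (V.cons 5355 (-3) (V.cons 5547 (-1) V.nil)))))) 82 (Tr.node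 Tr.leaf 27313 (V.cons 1396 (-1) (V.cons 1876 1 (V.cons 22186 1 V.nil))) (V.cons 1396 (-1) (V.cons 22186 1 V.nil)) 127 Tr.leaf))) 29353 (V.cons 1876 1 V.nil) V.nil 126 (Tr.node (Tr.node (Tr.node (Tr.node Tr.leaf 43695 (V.cons 1366 2 (V.cons 1396 2 (V.cons 1876 (-2) (V.cons 3922 2 (V.cons 22186 (-2) (V.cons 60076 (-2) (V.cons 117418 2 (V.cons 174766 (-2) V.nil)))))))) (V.cons 1366 2 (V.cons 1396 2 (V.cons 3922 2 (V.cons 22186 (-2) (V.cons 60076 (-2) (V.cons 174766 (-2) V.nil)))))) 141 Tr.leaf) 43698 (V.cons 1366 1 (V.cons 1396 (-1) (V.cons 1492 (-1) (V.cons 5074 (-1) (V.cons 22186 1 (V.cons 80554 1 (V.cons 92842 1 V.nil))))))) (V.cons 1366 1 (V.cons 1396 (-1) (V.cons 1492 (-1) (V.cons 5074 (-1) (V.cons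 22186 1 (V.cons 80554 1 (V.cons 92842 1 V.nil))))))) 133 Tr.leaf) 43704 (V.cons 981 1 (V.cons 1269 4 (V.cons 1341 115 (V.cons 1359 (-26) (V.cons 1371 1 (V.cons 1395 95 (V.cons 1491 4 (V.cons 1875 (-6) (V.cons 5295 26 (V.cons 5355 (-115) (V.cons 5547 (-95) (V.cons 20139 (-4) (V.cons 23211 (-4) (V.cons 29355 6 (V.cons 60075 (-1) V.nil))))))))))))))) (V.cons 981 1 (V.cons 1269 4 (V.cons 1341 115 (V.cons 1359 (-26) (V.cons 1371 1 (V.cons 1395 95 (V.cons 1491 4 (V.cons 5295 26 (V.cons 5355 (-115) (V.cons 5547 (-95) (V.cons 20139 (-4) (V.cons 23211 (-4) (V.cons 60075 (-1) V.nil))))))))))))) 92 (Tr.node Tr.leaf 43705 (V.cons 1372 1 (V.cons 1396 1 (V.cons 1876 (-1) (V.cons 3922 1 (V.cons 22186 (-1) (V.cons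 60076 (-1) (V.cons 117418 1 V.nil))))))) (V.cons 1372 1 (V.cons 1396 1 (V.cons 3922 1 (V.cons 22186 (-1) (V.cons 60076 (-1) V.nil))))) 134 Tr.leaf)) 60084 (V.cons 1396 1 (V.cons 3922 1 (V.cons 22186 (-1) V.nil))) (V.cons 1396 1 (V.cons 3922 1 (V.cons 22186 (-1) V.nil))) 132 (Tr.node (Tr.node Tr.leaf 76476 (V.cons 5074 (-1) (V.cons 5434 1 (V.cons 80554 1 V.nil))) (V.cons 5074 (-1) (V.cons 5434 1 (V.cons 80554 1 V.nil))) 124 Tr.leaf) 109236 (V.cons 1396 (-1) (V.cons 1876 1 (V.cons 22186 1 V.nil))) (V.cons 1396 (-1) (V.cons 22186 1 V.nil)) 128 (Tr.node Tr.leaf 174780 (V.cons 1396 (-6) (V.cons 1492 (-6) (V.cons 1876 6 (V.cons 3922 (-1) (V.cons 5074 (-6) (V.cons 5434 1 (V.cons 22186 6 (V.cons 80554 6 (V.cons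 92842 6 (V.cons 117418 (-6) (V.cons 240298 1 V.nil))))))))))) (V.cons 1396 (-6) (V.cons 1492 (-6) (V.cons 3922 (-1) (V.cons 5074 (-6) (V.cons 5434 1 (V.cons 22186 6 (V.cons 80554 6 (V.cons 92842 6 (V.cons 240298 1 V.nil))))))))) 135 Tr.leaf))))
def tr12 : Tr := (Tr.node tr10 19128 (V.cons 1269 1 (V.cons 1341 (-17) (V.cons 1359 4 (V.cons 1371 1 (V.cons 1395 (-13) (V.cons 5295 (-4) (V.cons 5355 17 (V.cons 5547 13 (V.cons 20139 (-1) V.nil))))))))) (V.cons 1269 1 (V.cons 1341 (-17) (V.cons 1359 4 (V.cons 1371 1 (V.cons 1395 (-13) (V.cons 5295 (-4) (V.cons 5355 17 (V.cons 5547 13 (V.cons 20139 (-1) V.nil))))))))) 77 tr11)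
def tr13 : Tr := (Tr.node tr9 5929 (V.cons 1492 1 V.nil) (V.cons 1492 1 V.nil) 114 tr12)
def tree : Tr := (Tr.node tr6 2744 (V.cons 221 (-5) (V.cons 311 5 (V.cons 317 4 (V.cons 335 (-5) (V.cons 347 6 (V.cons 365 4 (V.cons 371 (-1) (V.cons 461 1 (V.cons 467 4 (V.cons 875 9 (V.cons 971 1 (V.cons 1211 (-5) (V.cons 1259 (-8) (V.cons 1451 (-3) (V.cons 1835 (-5) (V.cons 3755 (-1) V.nil)))))))))))))))) (V.cons 221 (-5) (V.cons 311 5 (V.cons 317 4 (V.cons 335 (-5) (V.cons 347 6 (V.cons 365 4 (V.cons 371 (-1) (V.cons 875 9 (V.cons 971 1 (V.cons 1211 (-5) (V.cons 1259 (-8) (V.cons 1451 (-3) (V.cons 3755 (-1) V.nil))))))))))))) 22 tr13)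

end Pool.Agent.N33.SA
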